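import Mathlib
import Pool.Agent.MP_4c107d_co.Defs

-- part MP_4c107d_co.Swap
section

/-!
A matching of placed sets with row slots can be made free of conflicts when the sets are frequent.
-/

set_option autoImplicit false

namespace Pool.Agent.MP_4c107d_co

open Finset

open Classical in
theorem exists_conflict_free {P Q I J B : Type} [Fintype P] [Fintype Q]
    (tree : P → I) (st : P → B) (row : Q → J) (blk : Q → B)
    (n R : ℕ) (hn : ∀ i, #{p | tree p = i} ≤ n) (hR : ∀ j, #{q | row q = j} ≤ R)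
    (hdisj : ∀ q q', q ≠ q' → row q = row q' → blk q ≠ blk q')
    (hcount : ∀ S, #{p | st p = S} = #{q | blk q = S})
    (hbig : ∀ q q', q ≠ q' → row q = row q' →
      n + R * n < #{p | st p = blk q} ∨ n + R * n < #{p | st p = blk q'}) :
    ∃ f : P ≃ Q, (∀ p, blk (f p) = st p) ∧
      ∀ p p', p ≠ p' → tree p = tree p' → row (f p) ≠ row (f p') := by
  let conf : (P ≃ Q) → Finset (P × P) := fun f =>
    {x | x.1 ≠ x.2 ∧ tree x.1 = tree x.2 ∧ row (f x.1) = row (f x.2)}
  have hne : ∃ m, ∃ f : P ≃ Q, (∀ p, blk (f p) = st p) ∧ #(conf f) = m := by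
    have e : ∀ S, {p // st p = S} ≃ {q // blk q = S} := fun S =>
      Fintype.equivOfCardEq (by simpa [Fintype.card_subtype] using hcount S)
    exact ⟨_, Equiv.ofFiberEquiv e, fun p => Equiv.ofFiberEquiv_map e p, rfl⟩
  obtain ⟨f, hf, hm⟩ := Nat.find_spec hne
  refine ⟨f, hf, ?_⟩
  have main : ∀ p p', p ≠ p' → tree p = tree p' → row (f p) = row (f p') →
      n + R * n < #{p₂ | st p₂ = st p} → False := by
    intro p p' hpp ht hr hb
    -- bad choices
    let badA : Finset P := {p₂ | st p₂ = st p ∧ ∃ p'', tree p'' = tree p ∧ row (f p'') = row (f p₂)}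
    let badB : Finset P := {p₂ | ∃ p'', row (f p'') = row (f p) ∧ tree p'' = tree p₂}
    have hA : badA.card ≤ n := by
      have hch : ∀ p₂ ∈ badA, ∃ p'', tree p'' = tree p ∧ row (f p'') = row (f p₂) := by
        intro p₂ h; exact ((mem_filter.1 h).2).2
      choose! g hg using hch
      refine le_trans (card_le_card_of_injOn g (t := {x | tree x = tree p}) ?_ ?_) (hn _)
      · intro a ha; simp [(hg a ha).1]
      · intro a ha b hb' hab
        by_contra hne'
        have h1 : row (f a) = row (f b) := by rw [← (hg a ha).2, ← (hg b hb').2, hab]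
        apply hdisj (f a) (f b) (fun h => hne' (f.injective h)) h1
        rw [hf, hf, ((mem_filter.1 ha).2).1, ((mem_filter.1 hb').2).1]
    have hB : badB.card ≤ R * n := by
      have hsub : badB ⊆ (({q | row q = row (f p)} : Finset Q).biUnion
          fun q => ({x | tree x = tree (f.symm q)} : Finset P)) := by
        intro a ha
        obtain ⟨p'', h1, h2⟩ := (mem_filter.1 ha).2
        simp only [mem_biUnion, mem_filter, mem_univ, true_and]
        exact ⟨f p'', h1, by simp [h2]⟩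
      refine le_trans (card_le_card hsub) (le_trans card_biUnion_le ?_)
      refine le_trans (sum_le_card_nsmul _ _ n fun q _ => hn _) ?_
      simpa using Nat.mul_le_mul_right n (hR _)
    obtain ⟨p₂, hp₂, hnot⟩ : ∃ p₂ ∈ ({p₂ | st p₂ = st p} : Finset P), p₂ ∉ badA ∪ badB := by
      apply exists_mem_notMem_of_card_lt_card
      have := card_union_le badA badB
      omega
    have hs : st p₂ = st p := (mem_filter.1 hp₂).2
    have hα : ∀ p'', tree p'' = tree p → row (f p'') ≠ row (f p₂) := by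
      intro p'' h1 h2
      exact hnot (mem_union_left _ (mem_filter.2 ⟨mem_univ _, hs, p'', h1, h2⟩))
    have hβ : ∀ p'', row (f p'') = row (f p) → tree p'' ≠ tree p₂ := by
      intro p'' h1 h2
      exact hnot (mem_union_right _ (mem_filter.2 ⟨mem_univ _, p'', h1, h2⟩))
    have htne : tree p ≠ tree p₂ := hβ p rfl
    let f' : P ≃ Q := (Equiv.swap p p₂).trans f
    have f1 : f' p = f p₂ := by simp [f']
    have f2 : f' p₂ = f p := by simp [f']
    have f3 : ∀ a, a ≠ p → a ≠ p₂ → f' a = f a := by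
      intro a h1 h2; simp [f', Equiv.swap_apply_of_ne_of_ne h1 h2]
    have hf' : ∀ a, blk (f' a) = st a := by
      intro a
      by_cases h1 : a = p
      · rw [h1, f1, hf, hs]
      by_cases h2 : a = p₂
      · rw [h2, f2, hf, hs]
      · rw [f3 a h1 h2, hf]
    have key : ∀ a b, a ≠ b → tree a = tree b → row (f' a) = row (f' b) → a ≠ p ∧ a ≠ p₂ := by
      intro a b hab h1 h2
      constructor
      · rintro rfl
        have hb2 : b ≠ p₂ := by rintro rfl; exact htne h1
        rw [f1, f3 b hab.symm hb2] at h2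
        exact hα b h1.symm h2.symm
      · rintro rfl
        have hb2 : b ≠ p := by rintro rfl; exact htne h1.symm
        rw [f2, f3 b hb2 hab.symm] at h2
        exact hβ b h2.symm h1.symm
    have hlt : #(conf f') < #(conf f) := by
      apply card_lt_card
      refine ⟨?_, fun hsub => ?_⟩
      · intro x hx
        obtain ⟨h1, h2, h3⟩ := (mem_filter.1 hx).2
        obtain ⟨a1, a2⟩ := key _ _ h1 h2 h3
        obtain ⟨b1, b2⟩ := key _ _ h1.symm h2.symm h3.symm
        rw [f3 _ a1 a2, f3 _ b1 b2] at h3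
        exact mem_filter.2 ⟨mem_univ _, h1, h2, h3⟩
      · have hx : (p, p') ∈ conf f := mem_filter.2 ⟨mem_univ _, hpp, ht, hr⟩
        obtain ⟨h1, h2, h3⟩ := (mem_filter.1 (hsub hx)).2
        exact (key _ _ h1 h2 h3).1 rfl
    have := Nat.find_min' hne ⟨f', hf', rfl⟩
    omega
  intro p p' hpp ht hr
  rcases hbig (f p) (f p') (fun h => hpp (f.injective h)) hr with h | h
  · rw [hf] at h; exact main p p' hpp ht hr h
  · rw [hf] at h; exact main p' p hpp.symm ht.symm hr.symm h

end Pool.Agent.MP_4c107d_co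

end

-- part MP_4c107d_co.Lattice
section

/-!
The lattice generated by differences of embeddings of one set family and differences of
partitions of the same type contains all differences of sets of one of the occurring sizes.
-/

set_option autoImplicit false

namespace Pool.Agent.MP_4c107d_co

open Finset

variable {A Y : Type} [Fintype A] [DecidableEq A] [Fintype Y] [DecidableEq Y]

/-- indicator vector of one set -/
def ee (S : Finset A) : Finset A → ℤ := Pi.single S 1

/-- the vector of a family moved by a permutation -/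
def ww (F : Y → Finset A) (g : Equiv.Perm A) : Finset A → ℤ :=
  ∑ y, ee ((F y).map g.toEmbedding)

/-- the lattice -/
def latt (F B : Y → Finset A) : AddSubgroup (Finset A → ℤ) where
  carrier := {D | ∃ c d : Equiv.Perm A → ℤ, ∑ g, c g = 0 ∧ ∑ g, d g = 0 ∧
    D = ∑ g, c g • ww F g - ∑ g, d g • ww B g}
  zero_mem' := ⟨0, 0, by simp, by simp, by simp⟩
  add_mem' := by
    rintro _ _ ⟨c, d, h1, h2, rfl⟩ ⟨c', d', h1', h2', rfl⟩
    refine ⟨c + c', d + d', by simp [sum_add_distrib, h1, h1'], by simp [sum_add_distrib, h2, h2'],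
      ?_⟩
    simp only [Pi.add_apply, add_smul, sum_add_distrib]
    abel
  neg_mem' := by
    rintro _ ⟨c, d, h1, h2, rfl⟩
    refine ⟨-c, -d, by simp [h1], by simp [h2], ?_⟩
    simp only [Pi.neg_apply, neg_smul, sum_neg_distrib]
    abel

omit [DecidableEq Y] in
theorem ww_sub_mem_left (F B : Y → Finset A) (g g' : Equiv.Perm A) :
    ww F g - ww F g' ∈ latt F B := by
  refine ⟨Pi.single g 1 - Pi.single g' 1, 0, by simp [sum_sub_distrib], by simp, ?_⟩
  simp [sub_smul, sum_sub_distrib, Pi.single_apply]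

omit [DecidableEq Y] in
theorem ww_sub_mem_right (F B : Y → Finset A) (g g' : Equiv.Perm A) :
    ww B g - ww B g' ∈ latt F B := by
  refine ⟨0, Pi.single g' 1 - Pi.single g 1, by simp, by simp [sum_sub_distrib], ?_⟩
  simp [sub_smul, sum_sub_distrib, Pi.single_apply]

omit [Fintype A] in
theorem map_swap_of_notMem (U : Finset A) (a b : A) (ha : a ∉ U) (hb : b ∉ U) :
    U.map (Equiv.swap a b).toEmbedding = U := by
  ext x
  simp only [mem_map_equiv, Equiv.symm_swap]
  by_cases h1 : x = a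
  · subst h1; simp [ha, hb]
  by_cases h2 : x = b
  · subst h2; simp [ha, hb]
  · rw [Equiv.swap_apply_of_ne_of_ne h1 h2]

omit [Fintype A] in
theorem map_swap_of_mem (U : Finset A) (a b : A) (ha : a ∈ U) (hb : b ∈ U) :
    U.map (Equiv.swap a b).toEmbedding = U := by
  ext x
  simp only [mem_map_equiv, Equiv.symm_swap]
  by_cases h1 : x = a
  · subst h1; simp [ha, hb]
  by_cases h2 : x = b
  · subst h2; simp [ha, hb]
  · rw [Equiv.swap_apply_of_ne_of_ne h1 h2]

omit [Fintype A] [DecidableEq A] in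
theorem map_mul_perm (U : Finset A) (g h : Equiv.Perm A) :
    U.map (g * h).toEmbedding = (U.map h.toEmbedding).map g.toEmbedding := by
  rw [map_map]; rfl

omit [Fintype A] in
theorem exists_perm (S₀ S : Finset A) (h : #S₀ = #S) (a₀ b₀ a b : A) (ha₀ : a₀ ∈ S₀)
    (hb₀ : b₀ ∉ S₀) (ha : a ∈ S) (hb : b ∉ S) :
    ∃ g : Equiv.Perm A, S₀.map g.toEmbedding = S ∧ g a₀ = a ∧ g b₀ = b := by
  obtain ⟨g, hg⟩ := Equiv.Perm.exists_map_finset_eq S₀ S h
  have h1 : g a₀ ∈ S := by rw [← hg]; simp [ha₀]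
  have h2 : g b₀ ∉ S := by rw [← hg]; simp [hb₀]
  refine ⟨Equiv.swap (g b₀) b * (Equiv.swap (g a₀) a * g), ?_, ?_, ?_⟩
  · rw [map_mul_perm, map_mul_perm, hg, map_swap_of_mem S _ _ h1 ha, map_swap_of_notMem S _ _ h2 hb]
  · simp only [Equiv.Perm.mul_apply, Equiv.swap_apply_left]
    exact Equiv.swap_apply_of_ne_of_ne (fun e => h2 (e ▸ ha)) (fun e => hb (e ▸ ha))
  · simp only [Equiv.Perm.mul_apply]
    have e1 : g b₀ ≠ g a₀ := fun e => h2 (e ▸ h1)
    have e2 : g b₀ ≠ a := fun e => h2 (e ▸ ha)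
    rw [Equiv.swap_apply_of_ne_of_ne e1 e2]
    simp

omit [Fintype A] in
theorem free_of_swap (H : AddSubgroup (Finset A → ℤ)) (d : ℕ)
    (h : ∀ S : Finset A, #S = d → ∀ a ∈ S, ∀ b ∉ S,
      ee S - ee (S.map (Equiv.swap a b).toEmbedding) ∈ H) :
    ∀ S S' : Finset A, #S = d → #S' = d → ee S - ee S' ∈ H := by
  intro S S' hS hS'
  induction hm : #(S \ S') generalizing S with
  | zero =>
    have : S = S' := eq_of_subset_of_card_le (sdiff_eq_empty_iff_subset.1 (card_eq_zero.1 hm))
      (by omega)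
    rw [this, sub_self]; exact H.zero_mem
  | succ m ih =>
    obtain ⟨a, ha⟩ : (S \ S').Nonempty := card_pos.1 (by omega)
    have hc : #(S' \ S) = #(S \ S') := card_sdiff_comm (by omega)
    obtain ⟨b, hb⟩ : (S' \ S).Nonempty := card_pos.1 (by omega)
    rw [mem_sdiff] at ha hb
    have h1 := h S hS a ha.1 b hb.2
    have h2 := ih (S.map (Equiv.swap a b).toEmbedding) (by simpa using hS) (by
      have : S.map (Equiv.swap a b).toEmbedding \ S' = (S \ S').erase a := by
        ext x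
        simp only [mem_sdiff, mem_map_equiv, Equiv.symm_swap, mem_erase]
        by_cases e1 : x = a
        · subst e1; simp [hb.2]
        by_cases e2 : x = b
        · subst e2; simp [hb.1]
        · rw [Equiv.swap_apply_of_ne_of_ne e1 e2]; simp [e1]
      rw [this, card_erase_of_mem (mem_sdiff.2 ha), hm]; rfl)
    have := H.add_mem h1 h2
    simpa using this

theorem free_leaf (F B : Y → Finset A) (y₀ : Y) (a₀ : A) (ha₀ : a₀ ∈ F y₀)
    (hleaf : ∀ y, y ≠ y₀ → a₀ ∉ F y) (hb : ∀ a b : A, a ≠ b → ∃ b₀, ∀ y, b₀ ∉ F y) :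
    ∀ S S' : Finset A, #S = #(F y₀) → #S' = #(F y₀) → ee S - ee S' ∈ latt F B := by
  apply free_of_swap
  intro S hS a ha b hbS
  obtain ⟨b₀, hb₀⟩ := hb a b (fun e => hbS (e ▸ ha))
  obtain ⟨g, g1, g2, g3⟩ := exists_perm (F y₀) S hS.symm a₀ b₀ a b ha₀ (hb₀ _) ha hbS
  have := ww_sub_mem_left F B g (Equiv.swap a b * g)
  unfold ww at this
  rw [← sum_sub_distrib, sum_eq_single y₀] at this
  · rwa [map_mul_perm, g1] at this
  · intro y _ hy
    rw [map_mul_perm, map_swap_of_notMem, sub_self]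
    · rw [← g2]; simpa using hleaf y hy
    · rw [← g3]; simpa using hb₀ y
  · simp

theorem free_all (F B : Y → Finset A) (y₀ : Y) (a₀ : A) (ha₀ : a₀ ∈ F y₀)
    (hleaf : ∀ y, y ≠ y₀ → a₀ ∉ F y) (hb : ∀ a b : A, a ≠ b → ∃ b₀, ∀ y, b₀ ∉ F y)
    (hcard : ∀ y, #(B y) = #(F y)) (hne : ∀ y, (F y).Nonempty)
    (hdisj : ∀ y y', y ≠ y' → Disjoint (B y) (B y')) (y₁ : Y) :
    ∀ S S' : Finset A, #S = #(F y₁) → #S' = #(F y₁) → ee S - ee S' ∈ latt F B := by
  by_cases h01 : y₁ = y₀
  · rw [h01]; exact free_leaf F B y₀ a₀ ha₀ hleaf hb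
  apply free_of_swap
  intro S hS a ha b hbS
  obtain ⟨a₁, ha₁⟩ : (B y₁).Nonempty := card_pos.1 (by rw [hcard]; exact card_pos.2 (hne _))
  obtain ⟨b₁, hb₁⟩ : (B y₀).Nonempty := card_pos.1 (by rw [hcard]; exact card_pos.2 (hne _))
  obtain ⟨g, g1, g2, g3⟩ := exists_perm (B y₁) S (by rw [hS, hcard]) a₁ b₁ a b ha₁
    (fun e => disjoint_left.1 (hdisj y₁ y₀ h01) e hb₁) ha hbS
  have h1 := ww_sub_mem_right F B g (Equiv.swap a b * g)
  unfold ww at h1
  rw [← sum_sub_distrib, sum_eq_add y₁ y₀ h01] at h1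
  · have h2 := free_leaf F B y₀ a₀ ha₀ hleaf hb ((B y₀).map g.toEmbedding)
      ((B y₀).map (Equiv.swap a b * g).toEmbedding) (by simp [hcard]) (by simp [hcard])
    have := (latt F B).sub_mem h1 h2
    rw [add_sub_cancel_right, map_mul_perm, g1] at this
    exact this
  · intro y _ hy
    rw [map_mul_perm, map_swap_of_notMem, sub_self]
    · rw [← g2]
      simpa using fun e => disjoint_left.1 (hdisj y y₁ hy.1) e ha₁
    · rw [← g3]
      simpa using fun e => disjoint_left.1 (hdisj y y₀ hy.2) e hb₁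
  · simp
  · simp

omit [DecidableEq Y] in
theorem sum_ww (F B : Y → Finset A) (hcard : ∀ y, #(B y) = #(F y)) :
    ∑ g, ww F g = ∑ g, ww B g := by
  unfold ww
  rw [sum_comm, sum_comm (f := fun g y => ee ((B y).map (Equiv.toEmbedding g)))]
  refine sum_congr rfl fun y _ => ?_
  obtain ⟨h, hh⟩ := Equiv.Perm.exists_map_finset_eq (B y) (F y) (hcard y)
  rw [← Equiv.sum_comp (Equiv.mulRight h) (fun g => ee ((B y).map (Equiv.toEmbedding g)))]
  refine sum_congr rfl fun g _ => ?_
  simp only [Equiv.coe_mulRight]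
  rw [map_mul_perm, hh]

end Pool.Agent.MP_4c107d_co

end

-- part MP_4c107d_co.Master
section

/-!
Absorption: a bounded configuration that is balanced at the level of sizes can be completed to a
packing with many copies of one fixed bipartite graph.
-/

set_option autoImplicit false

namespace Pool.Agent.MP_4c107d_co

open Finset

/-- A family of bipartite graphs, given by the neighbourhoods `T i y ⊆ X` of the vertices `y`,
packs into the complete bipartite graph on `A` and `J`. -/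
def Pack {X Y I : Type} (A J : Type) (T : I → Y → Finset X) : Prop :=
  ∃ (φ : I → X ↪ A) (ψ : I → Y → J), (∀ i, Function.Injective (ψ i)) ∧
    ∀ i y i' y', (i, y) ≠ (i', y') → ψ i y = ψ i' y' →
      Disjoint ((T i y).map (φ i)) ((T i' y').map (φ i'))

theorem exists_fun_of_card {K G : Type} [Fintype K] [Fintype G] [DecidableEq G] (a : G → ℕ)
    (h : Fintype.card K = ∑ g, a g) : ∃ α : K → G, ∀ g, #{k | α k = g} = a g := by
  have e : K ≃ Σ g, Fin (a g) := Fintype.equivOfCardEq (by simp [h])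
  refine ⟨fun k => (e k).1, fun g => ?_⟩
  rw [← Fintype.card_subtype]
  have e2 : {k // (e k).1 = g} ≃ {x : Σ g, Fin (a g) // x.1 = g} := e.subtypeEquiv (by simp)
  rw [Fintype.card_congr e2, Fintype.card_congr (Equiv.sigmaSubtype g)]
  simp

theorem sum_comp_of_card {K G M : Type} [Fintype K] [Fintype G] [DecidableEq G] [AddCommGroup M]
    (α : K → G) (f : G → M) : ∑ k, f (α k) = ∑ g, (#{k | α k = g} : ℤ) • f g := by
  rw [← sum_fiberwise (s := univ) (g := α)]
  refine sum_congr rfl fun g _ => ?_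
  rw [sum_congr rfl (g := fun _ => f g) (fun k hk => by rw [(mem_filter.1 hk).2])]
  simp

theorem sum_ee_apply {A P : Type} [DecidableEq A] [Fintype P] (st : P → Finset A) (S : Finset A) :
    (∑ p, ee (st p)) S = (#{p | st p = S} : ℤ) := by
  simp only [Finset.sum_apply, ee, Pi.single_apply, card_filter]
  push_cast
  exact sum_congr rfl fun p _ => by simp [eq_comm]

theorem master {X Y A I₀ J₀ : Type} [Fintype A] [DecidableEq A] [Fintype Y] [DecidableEq Y]
    [Fintype I₀]
    (τ : Y → Finset X) (φ₀ : X ↪ A) (B : Y → Finset A) (y₀ : Y) (x₀ : X) (hx₀ : x₀ ∈ τ y₀)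
    (hleaf : ∀ y, y ≠ y₀ → x₀ ∉ τ y) (hb : ∀ a b : A, a ≠ b → ∃ b₀, ∀ x, φ₀ x ≠ b₀)
    (hcard : ∀ y, #(B y) = #(τ y)) (hne : ∀ y, (τ y).Nonempty)
    (hdisj : ∀ y y', y ≠ y' → Disjoint (B y) (B y'))
    (T₀ : I₀ → Y → Finset X) (φ : I₀ → X ↪ A) (r : I₀ × Y → J₀) (blk : I₀ × Y → Finset A)
    (h1 : ∀ p p', p ≠ p' → r p = r p' → Disjoint (blk p) (blk p'))
    (h2 : ∀ p, blk p = (T₀ p.1 p.2).map (φ p.1) ∨
      (#(blk p) = #(T₀ p.1 p.2) ∧ ∃ y, #(blk p) = #(τ y)))
    (h3 : ∀ p p', p ≠ p' → r p = r p' → (∃ y, #(blk p) = #(τ y)) ∨ ∃ y, #(blk p') = #(τ y))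
    (h4 : ∀ p, (blk p).Nonempty) :
    ∃ L₀ : ℕ, ∀ L, L₀ ≤ L → ∀ (K : Type) [Fintype K],
      Fintype.card K = L * Fintype.card (Equiv.Perm A) →
      Pack A (J₀ ⊕ K) (Sum.elim T₀ (fun _ : K => τ)) := by
  classical
  let F : Y → Finset A := fun y => (τ y).map φ₀
  have hF : ∀ y, #(F y) = #(τ y) := fun y => by simp [F]
  have free := free_all F B y₀ (φ₀ x₀) (by simp [F, hx₀]) (by simpa [F] using hleaf)
    (by
      intro a b hab
      obtain ⟨b₀, h⟩ := hb a b hab
      exact ⟨b₀, fun y => by simp [F, h]⟩)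
    (fun y => by rw [hF, hcard]) (fun y => by simpa [F] using hne y) hdisj
  let st : I₀ × Y → Finset A := fun p => (T₀ p.1 p.2).map (φ p.1)
  have hD : ∑ p, (ee (st p) - ee (blk p)) ∈ latt F B := by
    refine sum_mem fun p _ => ?_
    rcases h2 p with h | ⟨h, y, hy⟩
    · rw [h, sub_self]; exact zero_mem _
    · exact free y _ _ (by simp [st, hF, ← hy, h]) (by rw [hF, hy])
  obtain ⟨c, d, hc, hd, hD⟩ := hD
  let n := Fintype.card Y
  let R := Fintype.card ((I₀ × Y) ⊕ Y)
  refine ⟨n + R * n + 1 + ∑ g, (c g).natAbs + ∑ g, (d g).natAbs, fun L hL K _ hK => ?_⟩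
  have hcg : ∀ g, (c g).natAbs ≤ ∑ g, (c g).natAbs := fun g =>
    single_le_sum (f := fun g => (c g).natAbs) (fun _ _ => Nat.zero_le _) (mem_univ g)
  have hdg : ∀ g, (d g).natAbs ≤ ∑ g, (d g).natAbs := fun g =>
    single_le_sum (f := fun g => (d g).natAbs) (fun _ _ => Nat.zero_le _) (mem_univ g)
  let a : Equiv.Perm A → ℕ := fun g => (L - c g).toNat
  let b : Equiv.Perm A → ℕ := fun g => (L - d g).toNat
  have ha : ∀ g, (a g : ℤ) = L - c g := fun g => by
    have := hcg g; simp only [a]; omega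
  have hb' : ∀ g, (b g : ℤ) = L - d g := fun g => by
    have := hdg g; simp only [b]; omega
  obtain ⟨α, hα⟩ := exists_fun_of_card (K := K) a (by
    have : ((∑ g, a g : ℕ) : ℤ) = (Fintype.card K : ℤ) := by
      push_cast; simp [ha, sum_sub_distrib, hc, hK, mul_comm]
    exact_mod_cast this.symm)
  obtain ⟨β, hβ⟩ := exists_fun_of_card (K := K) b (by
    have : ((∑ g, b g : ℕ) : ℤ) = (Fintype.card K : ℤ) := by
      push_cast; simp [hb', sum_sub_distrib, hd, hK, mul_comm]
    exact_mod_cast this.symm)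
  let st' : (I₀ ⊕ K) × Y → Finset A := fun p =>
    Sum.elim (fun i => st (i, p.2)) (fun k => (F p.2).map (α k).toEmbedding) p.1
  let blk' : (I₀ ⊕ K) × Y → Finset A := fun p =>
    Sum.elim (fun i => blk (i, p.2)) (fun k => (B p.2).map (β k).toEmbedding) p.1
  let row : (I₀ ⊕ K) × Y → J₀ ⊕ K := fun p => Sum.map (fun i => r (i, p.2)) id p.1
  have hsum : ∑ p, ee (st' p) = ∑ p, ee (blk' p) := by
    simp only [Fintype.sum_prod_type, Fintype.sum_sum_type, st', blk', Sum.elim_inl, Sum.elim_inr]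
    have e1 := sum_comp_of_card α (ww F)
    have e2 := sum_comp_of_card β (ww B)
    simp only [hα, hβ, ha, hb', sub_smul, sum_sub_distrib, ← smul_sum] at e1 e2
    rw [sum_sub_distrib, Fintype.sum_prod_type, Fintype.sum_prod_type] at hD
    have e3 := sum_ww F B (fun y => by rw [hF, hcard])
    have e1' : ∑ k, ∑ y, ee ((F y).map (α k).toEmbedding) = ∑ k, ww F (α k) := rfl
    have e2' : ∑ k, ∑ y, ee ((B y).map (β k).toEmbedding) = ∑ k, ww B (β k) := rfl
    rw [e1', e2', e1, e2, e3, sub_eq_iff_eq_add.1 hD]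
    abel
  have hdis : ∀ q q', q ≠ q' → row q = row q' → Disjoint (blk' q) (blk' q') := by
    rintro ⟨i | k, y⟩ ⟨i' | k', y'⟩ hq hr
    · exact h1 _ _ (by simpa using hq) (by simpa [row] using hr)
    · simp [row] at hr
    · simp [row] at hr
    · have hk : k = k' := by simpa [row] using hr
      subst hk
      simpa [blk'] using hdisj y y' (by simpa using hq)
  have hnon : ∀ q, (blk' q).Nonempty := by
    rintro ⟨i | k, y⟩
    · exact h4 _
    · simpa [blk'] using card_pos.1 (by rw [hcard]; exact card_pos.2 (hne y))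
  have hbig : ∀ S : Finset A, (∃ y, #S = #(τ y)) → n + R * n < #{p | st' p = S} := by
    rintro S ⟨y, hy⟩
    obtain ⟨g, hg⟩ := Equiv.Perm.exists_map_finset_eq (F y) S (by rw [hF, hy])
    have : #{k | α k = g} ≤ #{p | st' p = S} := by
      refine card_le_card_of_injOn (fun k => (Sum.inr k, y)) ?_ ?_
      · intro k hk
        have hk : α k = g := by simpa using hk
        simp [st', hk, hg]
      · intro k _ k' _ h; simpa using h
    rw [hα] at this
    have h5 := ha g
    have h6 := hcg g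
    omega
  obtain ⟨f, hf1, hf2⟩ := exists_conflict_free (P := (I₀ ⊕ K) × Y) (Q := (I₀ ⊕ K) × Y)
    Prod.fst st' row blk' n R
    (by
      intro i
      refine le_trans (card_le_card_of_injOn Prod.snd (t := univ) (by simp [Set.MapsTo]) ?_) le_rfl
      intro p hp p' hp' h
      have e1 : p.1 = i := by simpa using hp
      have e2 : p'.1 = i := by simpa using hp'
      exact Prod.ext (e1.trans e2.symm) h)
    (by
      intro j
      refine le_trans (card_le_card_of_injOn
        (fun q : (I₀ ⊕ K) × Y => (Sum.map (fun i => (i, q.2)) (fun _ => q.2) q.1 : (I₀ × Y) ⊕ Y))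
        (t := univ) (by simp [Set.MapsTo]) ?_) le_rfl
      rintro ⟨i | k, y⟩ hp ⟨i' | k', y'⟩ hp' h
      · simpa using h
      · simp at h
      · simp at h
      · have e1 : Sum.inr k = j := by simpa [row] using hp
        have e2 : Sum.inr k' = j := by simpa [row] using hp'
        have e3 : k = k' := by simpa using e1.trans e2.symm
        simpa [e3] using h)
    (by
      intro q q' hq hr e
      have := hdis q q' hq hr
      rw [← e, disjoint_self] at this
      exact (hnon q).ne_empty this)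
    (by
      intro S
      have := congrFun hsum S
      rw [sum_ee_apply, sum_ee_apply] at this
      convert (Nat.cast_injective (R := ℤ) this))
    (by
      rintro ⟨i | k, y⟩ ⟨i' | k', y'⟩ hq hr
      · rcases h3 (i, y) (i', y') (by simpa using hq) (by simpa [row] using hr) with h | h
        · left; convert hbig (blk' (Sum.inl i, y)) h
        · right; convert hbig (blk' (Sum.inl i', y')) h
      · simp [row] at hr
      · simp [row] at hr
      · left
        convert hbig (blk' (Sum.inr k, y)) ⟨y, by simp [blk', hcard]⟩)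
  refine ⟨Sum.elim φ (fun k => φ₀.trans (α k).toEmbedding), fun i y => row (f (i, y)), ?_, ?_⟩
  · intro i y y' h
    by_contra hy
    exact hf2 (i, y) (i, y') (by simpa using hy) rfl h
  · have e : ∀ i y, (Sum.elim T₀ (fun _ : K => τ) i y).map
        (Sum.elim φ (fun k => φ₀.trans (α k).toEmbedding) i) = blk' (f (i, y)) := by
      rintro (i | k) y
      · rw [hf1]; rfl
      · rw [hf1]; simp [st', F, map_map]
    intro i y i' y' hne' hr
    rw [e, e]
    exact hdis _ _ (fun h => hne' (f.injective h)) hr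

end Pool.Agent.MP_4c107d_co

end

-- part MP_4c107d_co.Gadget
section

/-!
The absorbing configurations, and the packing theorem for all large families.
-/

set_option autoImplicit false

namespace Pool.Agent.MP_4c107d_co

open Finset

theorem exists_blocks_aux {K A : Type} [DecidableEq K] [DecidableEq A] (s : K → ℕ) (t : Finset K) :
    ∀ W : Finset A, ∑ k ∈ t, s k ≤ #W → ∃ b : K → Finset A, (∀ k ∈ t, b k ⊆ W ∧ #(b k) = s k) ∧
      ∀ k ∈ t, ∀ k' ∈ t, k ≠ k' → Disjoint (b k) (b k') := by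
  induction t using Finset.induction_on with
  | empty => intro W _; exact ⟨fun _ => ∅, by simp, by simp⟩
  | insert a t ha ih =>
    intro W hW
    rw [sum_insert ha] at hW
    obtain ⟨U, hU, hUc⟩ := exists_subset_card_eq (s := W) (n := s a) (by omega)
    obtain ⟨b, hb1, hb2⟩ := ih (W \ U) (by rw [card_sdiff_of_subset hU]; omega)
    have hup : ∀ k ∈ t, Function.update b a U k = b k := fun k hk =>
      Function.update_of_ne (fun e : k = a => ha (e ▸ hk)) _ _
    refine ⟨Function.update b a U, ?_, ?_⟩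
    · intro k hk
      rcases mem_insert.1 hk with rfl | hk
      · simp [hU, hUc]
      · rw [hup k hk]; exact ⟨(hb1 k hk).1.trans sdiff_subset, (hb1 k hk).2⟩
    · intro k hk k' hk' hne
      rcases mem_insert.1 hk with e | hk1
      · rcases mem_insert.1 hk' with e' | hk2
        · exact absurd (e.trans e'.symm) hne
        · rw [hup k' hk2, e, Function.update_self]
          exact Disjoint.mono_right (hb1 k' hk2).1 disjoint_sdiff
      · rcases mem_insert.1 hk' with e' | hk2
        · rw [hup k hk1, e', Function.update_self]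
          exact Disjoint.mono_left (hb1 k hk1).1 sdiff_disjoint
        · rw [hup k hk1, hup k' hk2]; exact hb2 k hk1 k' hk2 hne

theorem exists_blocks {K J A : Type} [Fintype K] [DecidableEq K] [DecidableEq J] [DecidableEq A]
    (s : K → ℕ) (r : K → J) (W : J → Finset A) (h : ∀ j, ∑ k with r k = j, s k ≤ #(W j)) :
    ∃ b : K → Finset A, (∀ k, b k ⊆ W (r k) ∧ #(b k) = s k) ∧
      ∀ k k', k ≠ k' → r k = r k' → Disjoint (b k) (b k') := by
  choose b hb1 hb2 using fun j => exists_blocks_aux s _ (W j) (h j)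
  refine ⟨fun k => b (r k) k, fun k => hb1 _ k (by simp), fun k k' hne hr => ?_⟩
  have := hb2 (r k) k (by simp) k' (by simp [hr]) hne
  simpa [hr] using this

/-- positive integers with a small sum have all subset sums -/
theorem exists_subset_sum {Y : Type} [DecidableEq Y] (d : Y → ℕ) (t : Finset Y) :
    (∀ y ∈ t, 1 ≤ d y) → (∑ y ∈ t, d y < 2 * #t ∨ t = ∅) →
      ∀ s, s ≤ ∑ y ∈ t, d y → ∃ Z ⊆ t, ∑ y ∈ Z, d y = s := by
  induction t using Finset.induction_on_max_value d with
  | empty => intro _ _ s hs; exact ⟨∅, by simp, by simpa [eq_comm] using hs⟩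
  | insert a t ha hmax ih =>
    intro h1 h2 s hs
    rw [sum_insert ha] at hs
    have h2 : d a + ∑ y ∈ t, d y < 2 * (#t + 1) := by
      rcases h2 with h | h
      · rwa [sum_insert ha, card_insert_of_notMem ha] at h
      · exact absurd h (insert_ne_empty _ _)
    have hlow : #t ≤ ∑ y ∈ t, d y := by
      simpa using card_nsmul_le_sum t d 1 fun y hy => h1 y (mem_insert_of_mem hy)
    have hup : ∑ y ∈ t, d y ≤ #t * d a := by simpa using sum_le_card_nsmul t d (d a) hmax
    have ha1 := h1 a (mem_insert_self _ _)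
    have ih' := ih (fun y hy => h1 y (mem_insert_of_mem hy)) (by
      rcases t.eq_empty_or_nonempty with h | h
      · exact Or.inr h
      · left
        have := card_pos.2 h
        rcases ha1.eq_or_lt with e | e
        · rw [← e] at hup; omega
        · omega)
    rcases le_or_gt s (∑ y ∈ t, d y) with h | h
    · obtain ⟨Z, hZ, e⟩ := ih' s h
      exact ⟨Z, hZ.trans (subset_insert _ _), e⟩
    · obtain ⟨Z, hZ, e⟩ := ih' (s - d a) (by omega)
      refine ⟨insert a Z, insert_subset_insert _ hZ, ?_⟩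
      rw [sum_insert (fun h => ha (hZ h)), e]
      omega

/-- neighbourhood data of a bipartite graph with `n + n` vertices, `2n - 1` edges and no isolated
vertex -/
def Valid (n : ℕ) (τ : Fin n → Finset (Fin n)) : Prop :=
  (∀ y, (τ y).Nonempty) ∧ (∀ x, ∃ y, x ∈ τ y) ∧ ∑ y, #(τ y) = 2 * n - 1

theorem exists_leaf {n : ℕ} (hn : 1 ≤ n) {τ : Fin n → Finset (Fin n)} (h : Valid n τ) :
    ∃ x₀ y₀, x₀ ∈ τ y₀ ∧ ∀ y, y ≠ y₀ → x₀ ∉ τ y := by
  by_contra hc
  push Not at hc
  have h1 : ∑ y, #(τ y) = ∑ x : Fin n, #{y | x ∈ τ y} := by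
    simp only [card_filter]
    rw [sum_comm]
    exact sum_congr rfl fun y _ => by simp
  have h2 : ∀ x : Fin n, 2 ≤ #{y | x ∈ τ y} := by
    intro x
    obtain ⟨y₀, hy₀⟩ := h.2.1 x
    obtain ⟨y, hy, hy'⟩ := hc x y₀ hy₀
    exact one_lt_card.2 ⟨y, by simpa using hy', y₀, by simpa using hy₀, hy⟩
  have h3 : n * 2 ≤ ∑ x : Fin n, #{y | x ∈ τ y} := by
    simpa using card_nsmul_le_sum univ (fun x : Fin n => #{y | x ∈ τ y}) 2 fun x _ => h2 x
  have := h.2.2
  omega

/-- `master` for valid data -/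
theorem master' {n : ℕ} (hn : 1 ≤ n) {τ : Fin n → Finset (Fin n)} (h : Valid n τ)
    {I₀ J₀ : Type} [Fintype I₀]
    (T₀ : I₀ → Fin n → Finset (Fin n)) (φ : I₀ → Fin n ↪ Fin (2 * n - 1)) (r : I₀ × Fin n → J₀)
    (blk : I₀ × Fin n → Finset (Fin (2 * n - 1)))
    (h1 : ∀ p p', p ≠ p' → r p = r p' → Disjoint (blk p) (blk p'))
    (h2 : ∀ p, blk p = (T₀ p.1 p.2).map (φ p.1) ∨
      (#(blk p) = #(T₀ p.1 p.2) ∧ ∃ y, #(blk p) = #(τ y)))
    (h3 : ∀ p p', p ≠ p' → r p = r p' → (∃ y, #(blk p) = #(τ y)) ∨ ∃ y, #(blk p') = #(τ y))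
    (h4 : ∀ p, (blk p).Nonempty) :
    ∃ L₀ : ℕ, ∀ L, L₀ ≤ L → ∀ (K : Type) [Fintype K],
      Fintype.card K = L * (2 * n - 1).factorial →
      Pack (Fin (2 * n - 1)) (J₀ ⊕ K) (Sum.elim T₀ (fun _ : K => τ)) := by
  obtain ⟨x₀, y₀, hx₀, hleaf⟩ := exists_leaf hn h
  obtain ⟨B, hB1, hB2⟩ := exists_blocks_aux (fun y => #(τ y)) univ
    (univ : Finset (Fin (2 * n - 1))) (by simp [h.2.2])
  have := master τ (Fin.castLEEmb (by omega : n ≤ 2 * n - 1)) B y₀ x₀ hx₀ hleaf
    (by
      intro a b hab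
      have h2n : n < 2 * n - 1 := by
        have := a.2; have := b.2
        have : a.val ≠ b.val := fun e => hab (Fin.ext e)
        omega
      refine ⟨⟨n, h2n⟩, fun x e => ?_⟩
      have := congrArg Fin.val e
      simp at this
      omega)
    (fun y => (hB1 y (mem_univ _)).2) h.1 (fun y y' => hB2 y (mem_univ _) y' (mem_univ _))
    T₀ φ r blk h1 h2 h3 h4
  simpa [Fintype.card_perm] using this

theorem gadget_one {n : ℕ} (hn : 1 ≤ n) {τ : Fin n → Finset (Fin n)} (h : Valid n τ) :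
    ∃ L₀ : ℕ, ∀ L, L₀ ≤ L → ∀ (K : Type) [Fintype K],
      Fintype.card K = L * (2 * n - 1).factorial →
      Pack (Fin (2 * n - 1)) (Unit ⊕ K) (Sum.elim (fun _ : Unit => τ) (fun _ : K => τ)) := by
  obtain ⟨B, hB1, hB2⟩ := exists_blocks_aux (fun y => #(τ y)) univ
    (univ : Finset (Fin (2 * n - 1))) (by simp [h.2.2])
  refine master' hn h _ (fun _ => Fin.castLEEmb (by omega : n ≤ 2 * n - 1)) (fun _ => ())
    (fun p => B p.2) ?_ ?_ ?_ ?_
  · intro p p' hne _
    exact hB2 _ (mem_univ _) _ (mem_univ _) fun e => hne (Prod.ext rfl e)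
  · intro p; exact Or.inr ⟨(hB1 _ (mem_univ _)).2, p.2, (hB1 _ (mem_univ _)).2⟩
  · intro p p' _ _; exact Or.inl ⟨p.2, (hB1 _ (mem_univ _)).2⟩
  · intro p; exact card_pos.1 (by rw [(hB1 _ (mem_univ _)).2]; exact card_pos.2 (h.1 _))

theorem gadget_zero {n : ℕ} (hn : 1 ≤ n) {τ : Fin n → Finset (Fin n)} (h : Valid n τ) :
    ∃ L₀ : ℕ, ∀ L, L₀ ≤ L → ∀ (K : Type) [Fintype K],
      Fintype.card K = L * (2 * n - 1).factorial →
      Pack (Fin (2 * n - 1)) (Empty ⊕ K) (Sum.elim (fun _ : Empty => τ) (fun _ : K => τ)) :=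
  master' hn h _ (fun _ => Fin.castLEEmb (by omega : n ≤ 2 * n - 1)) (fun p => p.1)
    (fun _ => ∅) (fun p => p.1.elim) (fun p => p.1.elim) (fun p => p.1.elim) (fun p => p.1.elim)

theorem gadget_two {n : ℕ} (hn : 1 ≤ n) {τ σ : Fin n → Finset (Fin n)} (h : Valid n τ)
    (hσ : Valid n σ) :
    ∃ L₀ : ℕ, ∀ L, L₀ ≤ L → ∀ (K : Type) [Fintype K],
      Fintype.card K = L * (2 * n - 1).factorial →
      Pack (Fin (2 * n - 1)) (Fin (n + 1) ⊕ K)
        (Sum.elim (Sum.elim (fun _ : Unit => σ) (fun _ : Fin n => τ)) (fun _ : K => τ)) := by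
  let φ₀ : Fin n ↪ Fin (2 * n - 1) := Fin.castLEEmb (by omega : n ≤ 2 * n - 1)
  let D : ℕ → ℕ := fun j => ∑ i : Fin n with i.val < j, #(σ i)
  have hD : ∀ j, D j ≤ 2 * n - 1 := fun j => by
    rw [← hσ.2.2]; exact sum_le_sum_of_subset (filter_subset _ _)
  have hDs : ∀ c : Fin n, D (c + 1) = D c + #(σ c) := by
    intro c
    have : (univ.filter fun i : Fin n => i.val < c + 1) =
        insert c (univ.filter fun i : Fin n => i.val < c) := by
      ext i; simp [Fin.ext_iff]; omega
    simp only [D]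
    rw [this, sum_insert (by simp), add_comm]
  have hZ : ∀ c : Fin n, ∃ Z : Finset (Fin n), ∑ y ∈ Z, #(τ y) = 2 * n - 1 - D (c + 1) := by
    intro c
    obtain ⟨Z, -, e⟩ := exists_subset_sum (fun y => #(τ y)) univ
      (fun y _ => card_pos.2 (h.1 y)) (Or.inl (by simp [h.2.2]; omega)) (2 * n - 1 - D (c + 1))
      (by simp [h.2.2])
    exact ⟨Z, e⟩
  choose Z hZ using hZ
  have hZc : ∀ c : Fin n, ∑ y ∈ (Z c)ᶜ, #(τ y) = D (c + 1) := by
    intro c
    have := sum_add_sum_compl (Z c) (fun y => #(τ y))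
    rw [h.2.2, hZ] at this
    have := hD (c + 1)
    omega
  let r₁ : Fin n × Fin n → Fin (n + 1) := fun p => if p.2 ∈ Z p.1 then p.1.castSucc else p.1.succ
  let W : Fin (n + 1) → Finset (Fin (2 * n - 1)) := fun j =>
    if hj : j.val < n then ((σ ⟨j, hj⟩).map φ₀)ᶜ else univ
  obtain ⟨b, hb1, hb2⟩ := exists_blocks (fun p : Fin n × Fin n => #(τ p.2)) r₁ W (by
    intro j
    rw [sum_filter, Fintype.sum_prod_type]
    have e : ∀ c : Fin n, ∑ y, (if r₁ (c, y) = j then #(τ y) else 0) =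
        (if c.val = j then 2 * n - 1 - D (j + 1) else 0) + (if c.val + 1 = j then D j else 0) := by
      intro c
      rw [← sum_add_sum_compl (Z c)]
      congr 1
      · rw [sum_congr rfl (g := fun y => if c.val = j then #(τ y) else 0)
          (fun y hy => by simp [r₁, hy, Fin.ext_iff])]
        split_ifs with hc
        · rw [hZ, hc]
        · simp
      · rw [sum_congr rfl (g := fun y => if c.val + 1 = j then #(τ y) else 0)
          (fun y hy => by simp [r₁, mem_compl.1 hy, Fin.ext_iff])]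
        split_ifs with hc
        · rw [hZc, hc]
        · simp
    simp only [e, sum_add_distrib]
    have b2 : ∑ c : Fin n, (if c.val + 1 = j then D j else 0) ≤ D j := by
      rw [← sum_filter, sum_const, smul_eq_mul]
      have : #{c : Fin n | c.val + 1 = j} ≤ 1 := card_le_one.2 fun a ha b hb => by
        simp only [mem_filter, mem_univ, true_and] at ha hb
        exact Fin.ext (by omega)
      nlinarith
    by_cases hj : j.val < n
    · rw [sum_eq_single (⟨j, hj⟩ : Fin n) (fun c _ hc => if_neg fun e => hc (Fin.ext e)) (by simp)]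
      have := hDs ⟨j, hj⟩
      have := hD (j + 1)
      simp only [W, hj, dite_true, card_compl, card_map, Fintype.card_fin, if_true] at *
      omega
    · rw [sum_eq_zero (fun c _ => if_neg (by have := c.2; omega))]
      have := hD j
      simp only [W, hj, dite_false, card_univ, Fintype.card_fin]
      omega)
  refine master' hn h _ (fun _ => φ₀)
    (fun p => Sum.elim (fun _ => p.2.castSucc) (fun c => r₁ (c, p.2)) p.1)
    (fun p => Sum.elim (fun _ => (σ p.2).map φ₀) (fun c => b (c, p.2)) p.1) ?_ ?_ ?_ ?_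
  · have key : ∀ (y c y' : Fin n), y.castSucc = r₁ (c, y') →
        Disjoint ((σ y).map φ₀) (b (c, y')) := by
      intro y c y' e
      have := (hb1 (c, y')).1
      rw [← e] at this
      simp only [W, Fin.val_castSucc, y.2, dite_true] at this
      exact Disjoint.mono_right this disjoint_compl_right
    rintro ⟨_ | c, y⟩ ⟨_ | c', y'⟩ hne hr
    · exact absurd (Fin.castSucc_injective _ hr) (by simpa using hne)
    · exact key _ _ _ hr
    · exact (key _ _ _ hr.symm).symm
    · exact hb2 _ _ (by simpa using hne) hr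
  · rintro ⟨_ | c, y⟩
    · exact Or.inl rfl
    · exact Or.inr ⟨(hb1 _).2, y, (hb1 _).2⟩
  · rintro ⟨_ | c, y⟩ ⟨_ | c', y'⟩ hne hr
    · exact absurd (Fin.castSucc_injective _ hr) (by simpa using hne)
    · exact Or.inr ⟨y', (hb1 _).2⟩
    · exact Or.inl ⟨y, (hb1 _).2⟩
    · exact Or.inl ⟨y, (hb1 _).2⟩
  · rintro ⟨_ | c, y⟩
    · simpa using hσ.1 y
    · exact card_pos.1 (by
        have := (hb1 (c, y)).2
        simp only [Sum.elim_inr, this]; exact card_pos.2 (h.1 _))

end Pool.Agent.MP_4c107d_co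

end

-- part MP_4c107d_co.Count
section

/-!
Counting: all sufficiently large families of valid bipartite graphs pack.
-/

set_option autoImplicit false

namespace Pool.Agent.MP_4c107d_co

open Finset

theorem Pack.rows {X Y I A J J' : Type} {T : I → Y → Finset X} (e : J ↪ J') (h : Pack A J T) :
    Pack A J' T := by
  obtain ⟨φ, ψ, h1, h2⟩ := h
  exact ⟨φ, fun i y => e (ψ i y), fun i => e.injective.comp (h1 i),
    fun i y i' y' hne hr => h2 i y i' y' hne (e.injective hr)⟩

theorem Pack.reindex {X Y I I' A J : Type} {T : I → Y → Finset X} (e : I' ↪ I) (h : Pack A J T) :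
    Pack A J (fun i => T (e i)) := by
  obtain ⟨φ, ψ, h1, h2⟩ := h
  refine ⟨fun i => φ (e i), fun i => ψ (e i), fun i => h1 _, fun i y i' y' hne hr =>
    h2 _ _ _ _ (fun h => hne ?_) hr⟩
  simp only [Prod.mk.injEq, EmbeddingLike.apply_eq_iff_eq] at h
  exact Prod.ext h.1 h.2

theorem Pack.sum {X Y I I' A J J' : Type} {T : I → Y → Finset X} {T' : I' → Y → Finset X}
    (h : Pack A J T) (h' : Pack A J' T') : Pack A (J ⊕ J') (Sum.elim T T') := by
  obtain ⟨φ, ψ, h1, h2⟩ := h
  obtain ⟨φ', ψ', h1', h2'⟩ := h'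
  refine ⟨Sum.elim φ φ', Sum.elim (fun i y => Sum.inl (ψ i y)) (fun i y => Sum.inr (ψ' i y)), ?_, ?_⟩
  · rintro (i | i)
    · exact Sum.inl_injective.comp (h1 i)
    · exact Sum.inr_injective.comp (h1' i)
  · rintro (i | i) y (i' | i') y' hne hr
    · exact h2 i y i' y' (by simpa using hne) (by simpa using hr)
    · simp at hr
    · simp at hr
    · exact h2' i y i' y' (by simpa using hne) (by simpa using hr)

/-- the family with multiplicities `m` packs, with as many rows as graphs -/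
def Good {n : ℕ} (m : (Fin n → Finset (Fin n)) → ℕ) : Prop :=
  ∃ (I : Type) (_ : Fintype I) (T : I → Fin n → Finset (Fin n)),
    (∀ τ, #{i | T i = τ} = m τ) ∧ Pack (Fin (2 * n - 1)) I T

theorem Good.pack {n : ℕ} {m : (Fin n → Finset (Fin n)) → ℕ} (h : Good m) {I : Type} [Fintype I]
    (T : I → Fin n → Finset (Fin n)) (hT : ∀ τ, #{i | T i = τ} = m τ) :
    Pack (Fin (2 * n - 1)) I T := by
  obtain ⟨I', _, T', h1, h2⟩ := h
  have e : ∀ τ, {i // T i = τ} ≃ {i // T' i = τ} := fun τ =>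
    Fintype.equivOfCardEq (by simp [Fintype.card_subtype, h1, hT])
  have := (h2.reindex (Equiv.ofFiberEquiv e).toEmbedding).rows (Equiv.ofFiberEquiv e).symm.toEmbedding
  convert this using 2
  exact (Equiv.ofFiberEquiv_map e _).symm

theorem card_sum_elim {I I' B : Type} [Fintype I] [Fintype I'] [DecidableEq B] (T : I → B)
    (T' : I' → B) (τ : B) :
    #{i | Sum.elim T T' i = τ} = #{i | T i = τ} + #{i | T' i = τ} := by
  simp only [card_filter, Fintype.sum_sum_type, Sum.elim_inl, Sum.elim_inr]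
  congr

theorem card_const {I B : Type} [Fintype I] [DecidableEq B] (σ τ : B) :
    #{_i : I | σ = τ} = (Pi.single σ (Fintype.card I) : B → ℕ) τ := by
  by_cases h : σ = τ
  · subst h; simp
  · simp [h, Ne.symm h]

theorem Good.add {n : ℕ} {m m' : (Fin n → Finset (Fin n)) → ℕ} (h : Good m) (h' : Good m') :
    Good (m + m') := by
  obtain ⟨I, _, T, h1, h2⟩ := h
  obtain ⟨I', _, T', h1', h2'⟩ := h'
  exact ⟨I ⊕ I', inferInstance, Sum.elim T T', fun τ => by
    rw [card_sum_elim, h1, h1']; rfl, h2.sum h2'⟩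

theorem Good.zero {n : ℕ} : Good (0 : (Fin n → Finset (Fin n)) → ℕ) :=
  ⟨Empty, inferInstance, fun i => i.elim, fun τ => by simp,
    fun i => i.elim, fun i => i.elim, fun i => i.elim, fun i => i.elim⟩

theorem Good.nsmul {n : ℕ} {m : (Fin n → Finset (Fin n)) → ℕ} (h : Good m) (c : ℕ) :
    Good (c • m) := by
  induction c with
  | zero => simpa using Good.zero
  | succ c ih => rw [succ_nsmul]; exact ih.add h

theorem Good.sum {n : ℕ} {κ : Type} (s : Finset κ) (m : κ → (Fin n → Finset (Fin n)) → ℕ)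
    (h : ∀ k ∈ s, Good (m k)) : Good (∑ k ∈ s, m k) :=
  Finset.sum_induction m Good (fun _ _ => Good.add) Good.zero h

theorem good_single {n : ℕ} (hn : 1 ≤ n) {τ : Fin n → Finset (Fin n)} (h : Valid n τ) :
    ∃ c₀, ∀ c, c₀ ≤ c → Good (Pi.single τ c) := by
  obtain ⟨L₀, h0⟩ := gadget_zero hn h
  obtain ⟨L₁, h1⟩ := gadget_one hn h
  let M := (L₀ + L₁ + 1) * (2 * n - 1).factorial
  have hM : 0 < M := Nat.mul_pos (by omega) (Nat.factorial_pos _)
  have g0 : Good (Pi.single τ M) :=
    ⟨Empty ⊕ Fin M, inferInstance, _, fun σ => by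
      rw [card_sum_elim, card_const, card_const]; simp,
      h0 (L₀ + L₁ + 1) (by omega) (Fin M) (by simp [M])⟩
  have g1 : Good (Pi.single τ (M + 1)) :=
    ⟨Unit ⊕ Fin M, inferInstance, _, fun σ => by
      rw [card_sum_elim, card_const, card_const, ← Pi.add_apply, ← Pi.single_add]; simp [add_comm],
      h1 (L₀ + L₁ + 1) (by omega) (Fin M) (by simp [M])⟩
  refine ⟨M * M, fun c hc => ?_⟩
  have hq : M ≤ c / M := (Nat.le_div_iff_mul_le hM).2 hc
  have hr : c % M < M := Nat.mod_lt _ hM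
  have := (g0.nsmul (c / M - c % M)).add (g1.nsmul (c % M))
  convert this using 1
  rw [← Pi.single_smul, ← Pi.single_smul, ← Pi.single_add]
  congr 1
  have e := Nat.div_add_mod c M
  obtain ⟨q, hq'⟩ : ∃ q, c / M = q + c % M := ⟨c / M - c % M, by omega⟩
  simp only [smul_eq_mul]
  rw [hq', Nat.add_sub_cancel]
  rw [hq'] at e
  linarith

/-- `c` copies of `τ` -/
abbrev sg {n : ℕ} (τ : Fin n → Finset (Fin n)) (c : ℕ) : (Fin n → Finset (Fin n)) → ℕ :=
  Pi.single τ c

theorem good_pair {n : ℕ} (hn : 1 ≤ n) {τ σ : Fin n → Finset (Fin n)} (h : Valid n τ)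
    (hσ : Valid n σ) : ∃ a, Good (sg τ a + sg σ 1) := by
  obtain ⟨L, h2⟩ := gadget_two hn h hσ
  let M := L * (2 * n - 1).factorial
  have e : Fin (n + 1) ≃ Unit ⊕ Fin n := Fintype.equivOfCardEq (by simp [add_comm])
  refine ⟨n + M, (Unit ⊕ Fin n) ⊕ Fin M, inferInstance, _, fun ρ => ?_,
    (h2 L le_rfl (Fin M) (by simp [M])).rows (Equiv.sumCongr e (Equiv.refl _)).toEmbedding⟩
  rw [card_sum_elim, card_sum_elim, card_const, card_const, card_const]
  simp only [Fintype.card_unique, Fintype.card_fin, Pi.add_apply, sg, Pi.single_add]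
  ring

theorem good_large {n : ℕ} (hn : 1 ≤ n) : ∃ k₀, ∀ m : (Fin n → Finset (Fin n)) → ℕ,
    (∀ σ, m σ ≠ 0 → Valid n σ) → k₀ ≤ ∑ σ, m σ → Good m := by
  classical
  have hc : ∀ τ : Fin n → Finset (Fin n), ∃ c₀, Valid n τ → ∀ c, c₀ ≤ c → Good (Pi.single τ c) := by
    intro τ
    by_cases h : Valid n τ
    · obtain ⟨c, hc⟩ := good_single hn h; exact ⟨c, fun _ => hc⟩
    · exact ⟨0, fun h' => absurd h' h⟩
  have ha : ∀ τ σ : Fin n → Finset (Fin n), ∃ a, Valid n τ → Valid n σ →
      Good (sg τ a + sg σ 1) := by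
    intro τ σ
    by_cases h : Valid n τ ∧ Valid n σ
    · obtain ⟨a, ha⟩ := good_pair hn h.1 h.2; exact ⟨a, fun _ _ => ha⟩
    · exact ⟨0, fun h1 h2 => absurd ⟨h1, h2⟩ h⟩
  choose c hc using hc
  choose a ha using ha
  let K := ∑ τ, (c τ + ∑ σ, c σ * a τ σ)
  refine ⟨Fintype.card (Fin n → Finset (Fin n)) * K + 1, fun m hm hk => ?_⟩
  obtain ⟨τ, -, hτ⟩ : ∃ τ ∈ (univ : Finset (Fin n → Finset (Fin n))), K < m τ := by
    apply exists_lt_of_sum_lt
    simp only [sum_const, card_univ, smul_eq_mul]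
    omega
  have hK : c τ + ∑ σ, c σ * a τ σ ≤ K :=
    single_le_sum (f := fun τ => c τ + ∑ σ, c σ * a τ σ) (fun _ _ => Nat.zero_le _) (mem_univ τ)
  have hv : Valid n τ := hm τ (by omega)
  have hb : ∀ σ, ∃ b, b ≤ c σ * a τ σ ∧ Good (sg τ b + sg σ (m σ)) := by
    intro σ
    by_cases h0 : m σ = 0
    · exact ⟨0, Nat.zero_le _, by simpa [h0] using Good.zero⟩
    rcases le_or_gt (c σ) (m σ) with h | h
    · exact ⟨0, Nat.zero_le _, by simpa using hc σ (hm σ h0) _ h⟩
    · refine ⟨m σ * a τ σ, Nat.mul_le_mul_right _ h.le, ?_⟩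
      have := (ha τ σ hv (hm σ h0)).nsmul (m σ)
      rw [smul_add, ← Pi.single_smul, ← Pi.single_smul] at this
      simpa using this
  choose b hb1 hb2 using hb
  have hB : ∑ σ ∈ univ.erase τ, b σ ≤ ∑ σ, c σ * a τ σ :=
    le_trans (sum_le_sum_of_subset (erase_subset _ _)) (sum_le_sum fun σ _ => hb1 σ)
  have g1 := Good.sum (univ.erase τ) _ (fun σ _ => hb2 σ)
  have g2 := hc τ hv (m τ - ∑ σ ∈ univ.erase τ, b σ) (by omega)
  convert g1.add g2 using 1
  funext ρ
  simp only [sum_add_distrib, Pi.add_apply, Finset.sum_apply, Pi.single_apply]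
  by_cases h : ρ = τ
  · subst h
    simp only [if_true, sum_ite_eq, mem_erase, ne_eq, not_true, false_and, if_false]
    omega
  · simp [h]

theorem pack_large {n : ℕ} (hn : 1 ≤ n) : ∃ k₀, ∀ k, k₀ ≤ k →
    ∀ T : Fin k → Fin n → Finset (Fin n), (∀ i, Valid n (T i)) →
      Pack (Fin (2 * n - 1)) (Fin k) T := by
  obtain ⟨k₀, h⟩ := good_large hn
  refine ⟨k₀, fun k hk T hT => (h (fun τ => #{i | T i = τ}) ?_ ?_).pack T fun _ => rfl⟩
  · intro σ hσ
    obtain ⟨i, hi⟩ := card_pos.1 (Nat.pos_of_ne_zero hσ)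
    rw [← (mem_filter.1 hi).2]; exact hT i
  · rw [← card_eq_sum_card_fiberwise (f := T) (s := univ) (t := univ) (by simp [Set.MapsTo])]
    simpa using hk

end Pool.Agent.MP_4c107d_co

end

-- part MP_4c107d_co.Graph
section

/-!
From neighbourhood data to graphs.
-/

set_option autoImplicit false

namespace Pool.Agent.MP_4c107d_co

open Finset

theorem edge_form {X Y : Type} {T : SimpleGraph (X ⊕ Y)} (h : T ≤ completeBipartiteGraph X Y)
    {e : Sym2 (X ⊕ Y)} (he : e ∈ T.edgeSet) :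
    ∃ x y, T.Adj (Sum.inl x) (Sum.inr y) ∧ e = s(Sum.inl x, Sum.inr y) := by
  induction e using Sym2.ind with
  | _ u v =>
    have hadj : T.Adj u v := he
    have := h hadj
    rcases u with x | y <;> rcases v with x' | y' <;> simp at this
    · exact ⟨x, y', hadj, rfl⟩
    · exact ⟨x', y, hadj.symm, Sym2.eq_swap⟩

theorem card_edgeSet {X Y : Type} {T : SimpleGraph (X ⊕ Y)} (h : T ≤ completeBipartiteGraph X Y) :
    Nat.card T.edgeSet = Nat.card {p : X × Y // T.Adj (Sum.inl p.1) (Sum.inr p.2)} := by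
  symm
  refine Nat.card_congr (Equiv.ofBijective (fun p => ⟨s(Sum.inl p.1.1, Sum.inr p.1.2), p.2⟩) ⟨?_, ?_⟩)
  · rintro ⟨⟨x, y⟩, hp⟩ ⟨⟨x', y'⟩, hp'⟩ e
    simpa using e
  · rintro ⟨e, he⟩
    obtain ⟨x, y, h1, h2⟩ := edge_form h he
    exact ⟨⟨(x, y), h1⟩, Subtype.ext h2.symm⟩

open Classical in
/-- the neighbourhoods of the vertices of the second class -/
noncomputable def nbr {n : ℕ} (T : SimpleGraph (Fin n ⊕ Fin n)) (y : Fin n) : Finset (Fin n) :=
  {x | T.Adj (Sum.inl x) (Sum.inr y)}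

theorem mem_nbr {n : ℕ} {T : SimpleGraph (Fin n ⊕ Fin n)} {x y : Fin n} :
    x ∈ nbr T y ↔ T.Adj (Sum.inl x) (Sum.inr y) := by simp [nbr]

theorem card_edgeSet_eq_sum {n : ℕ} {T : SimpleGraph (Fin n ⊕ Fin n)}
    (h : T ≤ completeBipartiteGraph (Fin n) (Fin n)) : Nat.card T.edgeSet = ∑ y, #(nbr T y) := by
  classical
  rw [card_edgeSet h, Nat.card_eq_fintype_card, Fintype.card_subtype, card_filter,
    Fintype.sum_prod_type_right]
  exact sum_congr rfl fun y _ => by rw [nbr, card_filter]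

theorem valid_nbr {n : ℕ} {T : SimpleGraph (Fin n ⊕ Fin n)} (h : IsBalancedTree n T) :
    Valid n (nbr T) := by
  have hadj : ∀ u : Fin n ⊕ Fin n, ∃ v, T.Adj u v := by
    intro u
    obtain ⟨w⟩ := h.1.connected.preconnected u u.swap
    have hne : u ≠ u.swap := by rcases u with x | x <;> simp
    exact ⟨_, w.adj_snd (w.not_nil_of_ne hne)⟩
  refine ⟨fun y => ?_, fun x => ?_, ?_⟩
  · obtain ⟨v, hv⟩ := hadj (Sum.inr y)
    have := h.2 hv
    rcases v with x | x <;> simp at this
    exact ⟨x, mem_nbr.2 hv.symm⟩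
  · obtain ⟨v, hv⟩ := hadj (Sum.inl x)
    have := h.2 hv
    rcases v with y | y <;> simp at this
    exact ⟨y, mem_nbr.2 hv⟩
  · have := (SimpleGraph.isTree_iff_connected_and_card.1 h.1).2
    rw [card_edgeSet_eq_sum h.2] at this
    simp at this
    omega

theorem packsInto_of_pack {n : ℕ} {I A J : Type} (T : I → SimpleGraph (Fin n ⊕ Fin n))
    (h : ∀ i, T i ≤ completeBipartiteGraph (Fin n) (Fin n)) (hp : Pack A J fun i => nbr (T i)) :
    PacksInto T (completeBipartiteGraph A J) := by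
  obtain ⟨φ, ψ, h1, h2⟩ := hp
  refine ⟨fun i => (φ i).sumMap ⟨ψ i, h1 i⟩, ?_, ?_⟩
  · intro i u v huv
    have := h i huv
    rcases u with x | y <;> rcases v with x' | y' <;> simp at this <;> simp
  · intro i j hij
    rw [Set.disjoint_left]
    rintro _ ⟨e, he, rfl⟩ ⟨e', he', hee⟩
    obtain ⟨x, y, a1, rfl⟩ := edge_form (h i) he
    obtain ⟨x', y', a2, rfl⟩ := edge_form (h j) he'
    simp at hee
    have := h2 i y j y' (fun e => hij (congrArg Prod.fst e)) hee.2.symm
    refine disjoint_left.1 this (mem_map_of_mem (φ i) (mem_nbr.2 a1)) ?_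
    rw [← hee.1]
    exact mem_map_of_mem (φ j) (mem_nbr.2 a2)

theorem eventually_P {n : ℕ} (hn : 1 ≤ n) : ∃ k₀, 1 ≤ k₀ ∧ ∀ k, k₀ ≤ k → P n k := by
  obtain ⟨k₀, h⟩ := pack_large hn
  exact ⟨k₀ + 1, by omega, fun k hk T hT =>
    packsInto_of_pack T (fun i => (hT i).2) (h k (by omega) _ fun i => valid_nbr (hT i))⟩

end Pool.Agent.MP_4c107d_co

end
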