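import Pool.Agent.MP_4c107d_co.Mg.H78_C
import Pool.Agent.MP_1376f1_pr.Mg.Round

section

/-!
Matchings with avoidance, greedy colouring, colourings with prescribed class sizes.

-/

set_option autoImplicit false
set_option linter.unusedSectionVars false

namespace Pool.Agent.MP_4c107d_co.H78

open Finset

variable {α β γ ι τ : Type} [DecidableEq α] [DecidableEq β] [DecidableEq γ] [DecidableEq ι]
  [DecidableEq τ]

/-- Proof idea. `Finset.all_card_le_biUnion_card_iff_exists_injective` on the subtype of `S`. A nonempty set `B ⊆ S` has at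
least `#R - p ≥ q` neighbours, and if `#B > q` every element of `R` is a neighbour. -/
theorem hall [Nonempty β] (S : Finset α) (R : Finset β) (bad : α → β → Prop)
    [∀ a b, Decidable (bad a b)] (p q : ℕ) (hS : S.card ≤ R.card)
    (hp : ∀ a ∈ S, (R.filter fun b => bad a b).card ≤ p)
    (hq : ∀ b ∈ R, (S.filter fun a => bad a b).card ≤ q) (hpq : p + q ≤ R.card) :
    ∃ f : α → β, (∀ a ∈ S, ∀ a' ∈ S, f a = f a' → a = a') ∧ ∀ a ∈ S, f a ∈ R ∧ ¬ bad a (f a) := by
  obtain ⟨g, hg, hm⟩ := (all_card_le_biUnion_card_iff_exists_injective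
    (fun a : S => R.filter fun b => ¬ bad a b)).1 (by
      intro s
      rcases s.eq_empty_or_nonempty with rfl | ⟨a, ha⟩
      · simp
      by_cases hs : s.card ≤ q
      · have h1 := card_le_card (subset_biUnion_of_mem
          (fun a : S => R.filter fun b => ¬ bad a b) ha)
        have h2 := card_filter_add_card_filter_not (s := R) fun b => bad a b
        have h3 := hp a a.2
        omega
      · have h1 : R ⊆ s.biUnion fun a : S => R.filter fun b => ¬ bad a b := by
          intro b hb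
          by_contra hn
          refine hs (le_trans ?_ (hq b hb))
          refine card_le_card_of_injOn (fun a => a.1) (fun a ha => ?_)
            fun a _ a' _ h => Subtype.ext h
          refine mem_coe.2 (mem_filter.2 ⟨a.2, ?_⟩)
          by_contra hb'
          exact hn (mem_biUnion.2 ⟨a, mem_coe.1 ha, mem_filter.2 ⟨hb, hb'⟩⟩)
        have h2 : s.card ≤ S.card := by simpa using card_le_univ s
        exact h2.trans (hS.trans (card_le_card h1)))
  refine ⟨fun a => if h : a ∈ S then g ⟨a, h⟩ else Classical.arbitrary β, fun a ha a' ha' h => ?_,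
    fun a ha => ?_⟩
  · simp only [dif_pos ha, dif_pos ha'] at h
    exact congrArg Subtype.val (hg h)
  · simp only [dif_pos ha]
    exact mem_filter.1 (hm ⟨a, ha⟩)

/-- Proof idea. Induction on a subset `I' ⊆ I` of coloured items. -/
theorem greedyCol [Nonempty γ] (I : Finset α) (L : α → Finset γ) (conf : α → α → Prop)
    [∀ a b, Decidable (conf a b)] (hsym : ∀ x y, conf x y → conf y x)
    (h : ∀ x ∈ I, (I.filter fun y => y ≠ x ∧ conf x y).card < (L x).card) :
    ∃ c : α → γ, (∀ x ∈ I, c x ∈ L x) ∧ ∀ x ∈ I, ∀ y ∈ I, x ≠ y → conf x y → c x ≠ c y := by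
  have key : ∀ J : Finset α, J ⊆ I → ∃ c : α → γ, (∀ x ∈ J, c x ∈ L x) ∧
      ∀ x ∈ J, ∀ y ∈ J, x ≠ y → conf x y → c x ≠ c y := by
    intro J
    induction J using Finset.induction_on with
    | empty => exact fun _ => ⟨fun _ => Classical.arbitrary γ, by simp, by simp⟩
    | insert a J ha ih =>
      intro hJ
      obtain ⟨c, h1, h2⟩ := ih ((subset_insert _ _).trans hJ)
      have haI := hJ (mem_insert_self _ _)
      obtain ⟨z, hz, hz'⟩ := exists_mem_notMem_of_card_lt_card
        (lt_of_le_of_lt (card_image_le (f := c)) (h a haI))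
      have hne : ∀ y ∈ J, y ≠ a := fun y hy e => ha (e ▸ hy)
      have hc : ∀ y ∈ J, conf a y → c y ≠ z := fun y hy hay e =>
        hz' (mem_image.2 ⟨y, mem_filter.2 ⟨hJ (mem_insert_of_mem hy), hne y hy, hay⟩, e⟩)
      refine ⟨Function.update c a z, fun x hx => ?_, fun x hx y hy hxy hcf => ?_⟩
      · rcases mem_insert.1 hx with rfl | hx
        · rwa [Function.update_self]
        · rw [Function.update_of_ne (hne x hx)]; exact h1 x hx
      · rcases mem_insert.1 hx with e | hx' <;> rcases mem_insert.1 hy with e' | hy'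
        · exact absurd (e.trans e'.symm) hxy
        · subst e
          rw [Function.update_self, Function.update_of_ne (hne y hy')]
          exact (hc y hy' hcf).symm
        · subst e'
          rw [Function.update_self, Function.update_of_ne (hne x hx')]
          exact hc x hx' (hsym _ _ hcf)
        · rw [Function.update_of_ne (hne x hx'), Function.update_of_ne (hne y hy')]
          exact h2 x hx' y hy' hxy hcf
  exact key I Subset.rfl

/-- Proof idea. Induction on a set `Θ ⊆ S.image ty` of finished types; a new type `t` is matched by `hall` with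
`bad y r := r ∈ U (o y) ∨ ∃ y' finished, o y' = o y ∧ ψ y' = r`. For fixed `r` the bad items of type `t` have distinct
owners, each with `r ∈ U i` or with a finished item in row `r`; finished items in row `r` have distinct types `t'`, all with
`r ∈ Dm t'`. -/
theorem seqHall [Nonempty β] (S : Finset α) (o : α → ι) (ty : α → τ) (Dm : τ → Finset β)
    (U : ι → Finset β) (p q : ℕ)
    (h1 : ∀ y ∈ S, ∀ y' ∈ S, o y = o y' → ty y = ty y' → y = y')
    (h2 : ∀ y ∈ S, (fib S ty (ty y)).card ≤ (Dm (ty y)).card ∧ p + q ≤ (Dm (ty y)).card)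
    (h3 : ∀ y ∈ S, (U (o y)).card + (fib S o (o y)).card ≤ p)
    (h4 : ∀ y ∈ S, ∀ r ∈ Dm (ty y), ((S.image o).filter fun i => r ∈ U i).card
      + ((S.image ty).filter fun t => r ∈ Dm t).card ≤ q) :
    ∃ ψ : α → β, (∀ y ∈ S, ψ y ∈ Dm (ty y) ∧ ψ y ∉ U (o y)) ∧
      ∀ y ∈ S, ∀ y' ∈ S, y ≠ y' → (o y = o y' ∨ ty y = ty y') → ψ y ≠ ψ y' := by
  have key : ∀ Θ : Finset τ, ∃ ψ : α → β,
      (∀ y ∈ S, ty y ∈ Θ → ψ y ∈ Dm (ty y) ∧ ψ y ∉ U (o y)) ∧
      ∀ y ∈ S, ∀ y' ∈ S, ty y ∈ Θ → ty y' ∈ Θ → y ≠ y' → (o y = o y' ∨ ty y = ty y') →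
        ψ y ≠ ψ y' := by
    intro Θ
    induction Θ using Finset.induction_on with
    | empty => exact ⟨fun _ => Classical.arbitrary β, by simp, by simp⟩
    | insert t Θ ht ih =>
      obtain ⟨ψ, a1, a2⟩ := ih
      by_cases hex : ∃ y ∈ S, ty y = t
      swap
      · have hm : ∀ y ∈ S, ty y ∈ insert t Θ → ty y ∈ Θ := fun y hy h =>
          (mem_insert.1 h).resolve_left fun e => hex ⟨y, hy, e⟩
        exact ⟨ψ, fun y hy h => a1 y hy (hm y hy h),
          fun y hy y' hy' h h' => a2 y hy y' hy' (hm y hy h) (hm y' hy' h')⟩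
      obtain ⟨y₀, hy₀, e₀⟩ := hex
      obtain ⟨f, f1, f2⟩ := hall (fib S ty t) (Dm t)
        (fun y r => r ∈ U (o y) ∨ ∃ y' ∈ S, ty y' ∈ Θ ∧ o y' = o y ∧ ψ y' = r) p q
        (e₀ ▸ (h2 y₀ hy₀).1)
        (fun y hy => by
          refine le_trans ?_ (h3 y (mem_fib.1 hy).1)
          refine le_trans (card_le_card (t := U (o y) ∪ (fib S o (o y)).image ψ) fun r hr => ?_)
            ((card_union_le _ _).trans (Nat.add_le_add_left card_image_le _))
          rcases (mem_filter.1 hr).2 with h | ⟨y', hy', -, e, e'⟩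
          · exact mem_union_left _ h
          · exact mem_union_right _ (mem_image.2 ⟨y', mem_fib.2 ⟨hy', e⟩, e'⟩))
        (fun r hr => by
          refine le_trans ?_ (h4 y₀ hy₀ r (e₀ ▸ hr))
          rw [filter_or]
          refine (card_union_le _ _).trans (Nat.add_le_add ?_ ?_)
          · refine card_le_card_of_injOn o (fun y hy => ?_) fun y hy y' hy' e => ?_
            · obtain ⟨hy, hr⟩ := mem_filter.1 (mem_coe.1 hy)
              exact mem_coe.2 (mem_filter.2 ⟨mem_image_of_mem _ (mem_fib.1 hy).1, hr⟩)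
            · have b := mem_fib.1 (mem_filter.1 (mem_coe.1 hy)).1
              have b' := mem_fib.1 (mem_filter.1 (mem_coe.1 hy')).1
              exact h1 y b.1 y' b'.1 e (b.2.trans b'.2.symm)
          · refine card_le_card_of_forall_subsingleton
              (fun y t' => ∃ y' ∈ S, ty y' ∈ Θ ∧ o y' = o y ∧ ψ y' = r ∧ ty y' = t')
              (fun y hy => ?_) fun t' _ y hy y' hy' => ?_
            · obtain ⟨z, hz, b1, b2, b3⟩ := (mem_filter.1 hy).2
              exact ⟨ty z, mem_filter.2 ⟨mem_image_of_mem _ hz, b3 ▸ (a1 z hz b1).1⟩,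
                z, hz, b1, b2, b3, rfl⟩
            · obtain ⟨hy, z, hz, b1, b2, b3, b4⟩ := hy
              obtain ⟨hy', z', hz', c1, c2, c3, c4⟩ := hy'
              have b := mem_fib.1 (mem_filter.1 hy).1
              have b' := mem_fib.1 (mem_filter.1 hy').1
              have hzz : z = z' := by
                by_contra hne
                exact a2 z hz z' hz' b1 c1 hne (Or.inr (b4.trans c4.symm)) (b3.trans c3.symm)
              exact h1 y b.1 y' b'.1 (by rw [← b2, hzz, c2]) (b.2.trans b'.2.symm))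
        (e₀ ▸ (h2 y₀ hy₀).2)
      have g2 : ∀ y ∈ S, ty y = t → ∀ y' ∈ S, ty y' ∈ Θ → (o y = o y' ∨ ty y = ty y') →
          f y ≠ ψ y' := fun y hy e y' hy' h' hor e' => by
        rcases hor with h | h
        · exact (f2 y (mem_fib.2 ⟨hy, e⟩)).2 (Or.inr ⟨y', hy', h', h.symm, e'.symm⟩)
        · exact ht (e ▸ h ▸ h')
      refine ⟨fun y => if ty y = t then f y else ψ y, fun y hy h => ?_,
        fun y hy y' hy' h h' hne hor => ?_⟩
      · by_cases e : ty y = t
        · simp only [if_pos e]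
          have := f2 y (mem_fib.2 ⟨hy, e⟩)
          exact ⟨e ▸ this.1, fun h => this.2 (Or.inl h)⟩
        · simp only [if_neg e]
          exact a1 y hy ((mem_insert.1 h).resolve_left e)
      · by_cases e : ty y = t <;> by_cases e' : ty y' = t
        · simp only [if_pos e, if_pos e']
          exact fun h => hne (f1 y (mem_fib.2 ⟨hy, e⟩) y' (mem_fib.2 ⟨hy', e'⟩) h)
        · simp only [if_pos e, if_neg e']
          exact g2 y hy e y' hy' ((mem_insert.1 h').resolve_left e') hor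
        · simp only [if_neg e, if_pos e']
          exact (g2 y' hy' e' y hy ((mem_insert.1 h).resolve_left e)
            (hor.imp Eq.symm Eq.symm)).symm
        · simp only [if_neg e, if_neg e']
          exact a2 y hy y' hy' ((mem_insert.1 h).resolve_left e)
            ((mem_insert.1 h').resolve_left e') hne hor
  obtain ⟨ψ, a1, a2⟩ := key (S.image ty)
  exact ⟨ψ, fun y hy => a1 y hy (mem_image_of_mem _ hy), fun y hy y' hy' =>
    a2 y hy y' hy' (mem_image_of_mem _ hy) (mem_image_of_mem _ hy')⟩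

/-- a map with prescribed fibre sizes. Proof idea: a bijection from `I` to `C.sigma fun c => range (s c)`. -/
theorem exists_fib [Nonempty γ] (I : Finset α) (C : Finset γ) (s : γ → ℕ)
    (hs : ∑ c ∈ C, s c = I.card) :
    ∃ c : α → γ, (∀ x ∈ I, c x ∈ C) ∧ ∀ a ∈ C, (fib I c a).card = s a := by
  induction C using Finset.induction_on generalizing I with
  | empty =>
    rw [sum_empty, eq_comm, card_eq_zero] at hs
    exact ⟨fun _ => Classical.arbitrary γ, by simp [hs], by simp⟩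
  | insert a C ha ih =>
    rw [sum_insert ha] at hs
    obtain ⟨J, hJ, hc⟩ := exists_subset_card_eq (s := I) (n := s a) (by omega)
    obtain ⟨c, c1, c2⟩ := ih (I \ J) (by rw [card_sdiff_of_subset hJ]; omega)
    refine ⟨fun x => if x ∈ J then a else c x, fun x hx => ?_, fun b hb => ?_⟩
    · by_cases h : x ∈ J
      · simp only [if_pos h]; exact mem_insert_self _ _
      · simp only [if_neg h]; exact mem_insert_of_mem (c1 x (mem_sdiff.2 ⟨hx, h⟩))
    · rcases mem_insert.1 hb with rfl | hb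
      · rw [← hc]
        congr 1
        ext x
        rw [mem_fib]
        by_cases h : x ∈ J
        · rw [if_pos h]
          exact ⟨fun _ => h, fun _ => ⟨hJ h, rfl⟩⟩
        · rw [if_neg h]
          exact ⟨fun ⟨hx, e⟩ => absurd (e ▸ c1 x (mem_sdiff.2 ⟨hx, h⟩)) ha, fun h' => absurd h' h⟩
      · rw [← c2 b hb]
        congr 1
        ext x
        rw [mem_fib, mem_fib, mem_sdiff]
        by_cases h : x ∈ J
        · rw [if_pos h]
          exact ⟨fun ⟨_, e⟩ => absurd (e ▸ hb) ha, fun h' => absurd h h'.1.2⟩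
        · rw [if_neg h]
          exact ⟨fun h' => ⟨⟨h'.1, h⟩, h'.2⟩, fun h' => ⟨h'.1.1, h'.2⟩⟩

end Pool.Agent.MP_4c107d_co.H78

end

section

/-!
Colourings with prescribed class sizes; derandomised Chernoff bound.

-/

set_option autoImplicit false
set_option linter.unusedSectionVars false

namespace Pool.Agent.MP_4c107d_co.H78

open Finset

variable {α β γ ι τ : Type} [DecidableEq α] [DecidableEq β] [DecidableEq γ] [DecidableEq ι]
  [DecidableEq τ]

/-- `x` forbids its colour or has a conflicting item of the same colour -/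
def toolP_bad (I : Finset α) (conf : α → α → Prop) (forb : α → γ → Prop) (c : α → γ) (x : α) :
    Prop :=
  forb x (c x) ∨ ∃ y ∈ I, y ≠ x ∧ conf x y ∧ c y = c x

theorem toolP_swap (I : Finset α) (c : α → γ) {v w : α} (hv : v ∈ I) (hw : w ∈ I) (a : γ) :
    (fib I (c ∘ Equiv.swap v w) a).card = (fib I c a).card := by
  have hm : ∀ x ∈ I, Equiv.swap v w x ∈ I := fun x hx => by
    rw [Equiv.swap_apply_def]; split_ifs <;> assumption
  refine card_bij (fun x _ => Equiv.swap v w x) (fun x hx => ?_)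
    (fun x _ y _ h => (Equiv.swap v w).injective h) fun y hy => ?_
  · rw [mem_fib] at hx ⊢
    exact ⟨hm x hx.1, hx.2⟩
  · rw [mem_fib] at hy
    exact ⟨Equiv.swap v w y, mem_fib.2 ⟨hm y hy.1, by simpa using hy.2⟩, by simp⟩

theorem toolP_free (I : Finset α) (C : Finset γ) (s : γ → ℕ) (conf : α → α → Prop)
    (forb : α → γ → Prop) [∀ a b, Decidable (conf a b)] [∀ a b, Decidable (forb a b)]
    (Δ f1 f2 sm : ℝ)
    (hΔ : ∀ x ∈ I, ((I.filter fun y => y ≠ x ∧ conf x y).card : ℝ) ≤ Δ)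
    (hf1 : ∀ x ∈ I, ((C.filter fun a => forb x a).card : ℝ) ≤ f1)
    (hf2 : ∀ a ∈ C, ((I.filter fun x => forb x a).card : ℝ) ≤ f2)
    (hsm : ∀ a ∈ C, (s a : ℝ) ≤ sm) (h : (2 * Δ + f1 + 1) * sm + f2 < I.card)
    (c : α → γ) (hc : ∀ x ∈ I, c x ∈ C) (hf : ∀ a ∈ C, (fib I c a).card = s a) {v : α}
    (hv : v ∈ I) :
    ∃ w ∈ I, c w ≠ c v ∧ ¬ forb v (c w) ∧ (∀ y ∈ I, y ≠ v → conf v y → c y ≠ c w) ∧
      (∀ u ∈ I, c u = c v → w ≠ u → ¬ conf u w) ∧ ¬ forb w (c v) := by
  have hsm0 : 0 ≤ sm := (Nat.cast_nonneg _).trans (hsm _ (hc v hv))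
  have hΔ0 : 0 ≤ Δ := (Nat.cast_nonneg _).trans (hΔ v hv)
  set K : Finset γ := insert (c v) ((C.filter fun a => forb v a) ∪
    (I.filter fun y => y ≠ v ∧ conf v y).image c) with hK
  have hKC : ∀ a ∈ K, a ∈ C := by
    intro a ha
    simp only [hK, mem_insert, mem_union, mem_filter, mem_image] at ha
    rcases ha with rfl | ha | ⟨y, hy, rfl⟩
    · exact hc v hv
    · exact ha.1
    · exact hc y hy.1
  have hKc : (K.card : ℝ) ≤ Δ + f1 + 1 := by
    have h1 : K.card ≤ (C.filter fun a => forb v a).card +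
        (I.filter fun y => y ≠ v ∧ conf v y).card + 1 :=
      (card_insert_le _ _).trans (Nat.succ_le_succ ((card_union_le _ _).trans
        (Nat.add_le_add_left card_image_le _)))
    have h2 : (K.card : ℝ) ≤ (C.filter fun a => forb v a).card +
        (I.filter fun y => y ≠ v ∧ conf v y).card + 1 := by exact_mod_cast h1
    linarith [hΔ v hv, hf1 v hv]
  have e1 : ((K.biUnion (fib I c)).card : ℝ) ≤ (Δ + f1 + 1) * sm := by
    have h1 : ((K.biUnion (fib I c)).card : ℝ) ≤ ∑ a ∈ K, ((fib I c a).card : ℝ) := by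
      exact_mod_cast card_biUnion_le
    have h2 : ∑ a ∈ K, ((fib I c a).card : ℝ) ≤ K.card • sm :=
      sum_le_card_nsmul _ _ _ fun a ha => by rw [hf a (hKC a ha)]; exact hsm a (hKC a ha)
    rw [nsmul_eq_mul] at h2
    exact h1.trans (h2.trans (mul_le_mul_of_nonneg_right hKc hsm0))
  have e2 : (((fib I c (c v)).biUnion fun u => I.filter fun y => y ≠ u ∧ conf u y).card : ℝ) ≤
      sm * Δ := by
    have h1 : (((fib I c (c v)).biUnion fun u => I.filter fun y => y ≠ u ∧ conf u y).card : ℝ) ≤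
        ∑ u ∈ fib I c (c v), ((I.filter fun y => y ≠ u ∧ conf u y).card : ℝ) := by
      exact_mod_cast card_biUnion_le
    have h2 : ∑ u ∈ fib I c (c v), ((I.filter fun y => y ≠ u ∧ conf u y).card : ℝ) ≤
        (fib I c (c v)).card • Δ :=
      sum_le_card_nsmul _ _ _ fun u hu => hΔ u (mem_fib.1 hu).1
    rw [nsmul_eq_mul, hf _ (hc v hv)] at h2
    exact h1.trans (h2.trans (mul_le_mul_of_nonneg_right (hsm _ (hc v hv)) hΔ0))
  have e3 := hf2 _ (hc v hv)
  have hlt : (K.biUnion (fib I c) ∪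
      ((fib I c (c v)).biUnion fun u => I.filter fun y => y ≠ u ∧ conf u y) ∪
      I.filter fun x => forb x (c v)).card < I.card := by
    have h1 := (card_union_le (K.biUnion (fib I c) ∪
      ((fib I c (c v)).biUnion fun u => I.filter fun y => y ≠ u ∧ conf u y))
      (I.filter fun x => forb x (c v))).trans (Nat.add_le_add_right (card_union_le _ _) _)
    rw [← Nat.cast_le (α := ℝ)] at h1
    push_cast at h1
    rw [← Nat.cast_lt (α := ℝ)]
    linarith
  obtain ⟨w, hw, hn⟩ := exists_mem_notMem_of_card_lt_card hlt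
  rw [mem_union, mem_union, not_or, not_or] at hn
  have hwK : c w ∉ K := fun h' => hn.1.1 (mem_biUnion.2 ⟨_, h', mem_fib.2 ⟨hw, rfl⟩⟩)
  refine ⟨w, hw, fun h' => hwK (h' ▸ mem_insert_self _ _), fun h' => hwK ?_,
    fun y hy h1 h2 h3 => hwK ?_, fun u hu h1 h2 h3 => hn.1.2 ?_, fun h' => hn.2 ?_⟩
  · exact mem_insert_of_mem (mem_union_left _ (mem_filter.2 ⟨hc w hw, h'⟩))
  · exact mem_insert_of_mem (mem_union_right _ (mem_image.2 ⟨y, mem_filter.2 ⟨hy, h1, h2⟩, h3⟩))
  · exact mem_biUnion.2 ⟨u, mem_fib.2 ⟨hu, h1⟩, mem_filter.2 ⟨hw, h2, h3⟩⟩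
  · exact mem_filter.2 ⟨hw, h'⟩

theorem toolP_better (I : Finset α) (conf : α → α → Prop) (forb : α → γ → Prop)
    (hsym : ∀ x y, conf x y → conf y x) (c : α → γ) {v w : α} (h1 : c w ≠ c v)
    (h2 : ¬ forb v (c w)) (h3 : ∀ y ∈ I, y ≠ v → conf v y → c y ≠ c w)
    (h4 : ∀ u ∈ I, c u = c v → w ≠ u → ¬ conf u w) (h5 : ¬ forb w (c v)) {x : α} (hx : x ∈ I)
    (hb : toolP_bad I conf forb (c ∘ Equiv.swap v w) x) : x ≠ v ∧ toolP_bad I conf forb c x := by
  have ev : (c ∘ Equiv.swap v w) v = c w := by simp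
  have ew : (c ∘ Equiv.swap v w) w = c v := by simp
  have eo : ∀ y, y ≠ v → y ≠ w → (c ∘ Equiv.swap v w) y = c y := fun y a b => by
    simp [Equiv.swap_apply_of_ne_of_ne a b]
  unfold toolP_bad at hb ⊢
  by_cases xv : x = v
  · exfalso
    rw [xv, ev] at hb
    rcases hb with hb | ⟨y, hy, a, b, d⟩
    · exact h2 hb
    · by_cases yw : y = w
      · rw [yw, ew] at d; exact h1 d.symm
      · rw [eo y a yw] at d; exact h3 y hy a b d
  by_cases xw : x = w
  · exfalso
    rw [xw, ew] at hb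
    rcases hb with hb | ⟨y, hy, a, b, d⟩
    · exact h5 hb
    · by_cases yv : y = v
      · rw [yv, ev] at d; exact h1 d
      · rw [eo y yv a] at d; exact h4 y hy d a.symm (hsym _ _ b)
  rw [eo x xv xw] at hb
  refine ⟨xv, hb.imp_right ?_⟩
  rintro ⟨y, hy, a, b, d⟩
  by_cases yv : y = v
  · rw [yv, ev] at d
    exact absurd d.symm (h3 x hx xv (hsym _ _ (yv ▸ b)))
  by_cases yw : y = w
  · rw [yw, ew] at d
    exact absurd (yw ▸ b) (h4 x hx d.symm (Ne.symm xw))
  rw [eo y yv yw] at d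
  exact ⟨y, hy, a, b, d⟩

theorem pc [Nonempty γ] (I : Finset α) (C : Finset γ) (s : γ → ℕ) (conf : α → α → Prop)
    (forb : α → γ → Prop) [∀ a b, Decidable (conf a b)] [∀ a b, Decidable (forb a b)]
    (Δ f1 f2 sm : ℝ) (hsym : ∀ x y, conf x y → conf y x)
    (hΔ : ∀ x ∈ I, ((I.filter fun y => y ≠ x ∧ conf x y).card : ℝ) ≤ Δ)
    (hf1 : ∀ x ∈ I, ((C.filter fun a => forb x a).card : ℝ) ≤ f1)
    (hf2 : ∀ a ∈ C, ((I.filter fun x => forb x a).card : ℝ) ≤ f2)
    (hs : ∑ a ∈ C, s a = I.card) (hsm : ∀ a ∈ C, (s a : ℝ) ≤ sm)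
    (h : (2 * Δ + f1 + 1) * sm + f2 < I.card) :
    ∃ c : α → γ, (∀ x ∈ I, c x ∈ C ∧ ¬ forb x (c x)) ∧ (∀ a ∈ C, (fib I c a).card = s a) ∧
      ∀ x ∈ I, ∀ y ∈ I, x ≠ y → conf x y → c x ≠ c y := by
  classical
  have key : ∀ (n : ℕ) (c : α → γ), (∀ x ∈ I, c x ∈ C) → (∀ a ∈ C, (fib I c a).card = s a) →
      (I.filter (toolP_bad I conf forb c)).card ≤ n →
      ∃ c : α → γ, (∀ x ∈ I, c x ∈ C) ∧ (∀ a ∈ C, (fib I c a).card = s a) ∧
        ∀ x ∈ I, ¬ toolP_bad I conf forb c x := by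
    intro n
    induction n with
    | zero =>
      intro c hc hf hn
      refine ⟨c, hc, hf, fun x hx hb => ?_⟩
      have := card_pos.2 ⟨x, mem_filter.2 ⟨hx, hb⟩⟩
      omega
    | succ n ih =>
      intro c hc hf hn
      by_cases hb : ∀ x ∈ I, ¬ toolP_bad I conf forb c x
      · exact ⟨c, hc, hf, hb⟩
      push Not at hb
      obtain ⟨v, hv, hb⟩ := hb
      obtain ⟨w, hw, h1, h2, h3, h4, h5⟩ :=
        toolP_free I C s conf forb Δ f1 f2 sm hΔ hf1 hf2 hsm h c hc hf hv
      refine ih (c ∘ Equiv.swap v w) (fun x hx => hc _ ?_)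
        (fun a ha => (toolP_swap I c hv hw a).trans (hf a ha)) ?_
      · rw [Equiv.swap_apply_def]; split_ifs <;> assumption
      · have hsub : I.filter (toolP_bad I conf forb (c ∘ Equiv.swap v w)) ⊆
            (I.filter (toolP_bad I conf forb c)).erase v := fun x hx => by
          rw [mem_filter] at hx
          have := toolP_better I conf forb hsym c h1 h2 h3 h4 h5 hx.1 hx.2
          exact mem_erase.2 ⟨this.1, mem_filter.2 ⟨hx.1, this.2⟩⟩
        have h6 := card_le_card hsub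
        rw [card_erase_of_mem (mem_filter.2 ⟨hv, hb⟩)] at h6
        omega
  obtain ⟨c₀, hc₀, hf₀⟩ := exists_fib I C s hs
  obtain ⟨c, hc, hf, hb⟩ := key _ c₀ hc₀ hf₀ le_rfl
  exact ⟨c, fun x hx => ⟨hc x hx, fun h' => hb x hx (Or.inl h')⟩, hf,
    fun x hx y hy hxy h1 h2 => hb x hx (Or.inr ⟨y, hy, hxy.symm, h1, h2.symm⟩)⟩

theorem toolP_nonneg {ω : Type} {O : Finset ω} (hO : O.Nonempty) {k : ℕ} {p : ℝ}
    (h : (k : ℝ) ≤ p * O.card) : 0 ≤ p := by
  have h1 : (0 : ℝ) < O.card := by exact_mod_cast hO.card_pos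
  exact nonneg_of_mul_nonneg_left ((Nat.cast_nonneg k).trans h) h1

theorem toolP_pot {σ ω : Type} [DecidableEq σ] [Nonempty ω] (S : Finset σ) (O : σ → Finset ω)
    (J : Finset τ) (hit : σ → ω → τ → Prop) [∀ s o j, Decidable (hit s o j)] (p : σ → τ → ℝ)
    (β : ℝ) (hβ : 0 < β) (hO : ∀ s ∈ S, (O s).Nonempty)
    (hp : ∀ s ∈ S, ∀ j ∈ J, (((O s).filter fun o => hit s o j).card : ℝ) ≤ p s j * (O s).card) :
    ∃ c : σ → ω, (∀ s ∈ S, c s ∈ O s) ∧
      ∑ j ∈ J, ∏ s ∈ S, (if hit s (c s) j then 1 + β else 1) / (1 + β * p s j) ≤ J.card := by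
  induction S using Finset.induction_on with
  | empty => exact ⟨fun _ => Classical.arbitrary ω, by simp, by simp⟩
  | insert a S ha ih =>
    obtain ⟨c, hc, hW⟩ := ih (fun s hs => hO s (mem_insert_of_mem hs))
      fun s hs => hp s (mem_insert_of_mem hs)
    have hpos : ∀ s ∈ insert a S, ∀ j ∈ J, 0 < 1 + β * p s j := fun s hs j hj => by
      have := toolP_nonneg (hO s hs) (hp s hs j hj)
      positivity
    set W : τ → ℝ := fun j => ∏ s ∈ S, (if hit s (c s) j then 1 + β else 1) / (1 + β * p s j)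
      with hWd
    have hW0 : ∀ j ∈ J, 0 ≤ W j := fun j hj => prod_nonneg fun s hs =>
      div_nonneg (by split_ifs <;> positivity) (hpos s (mem_insert_of_mem hs) j hj).le
    have hav : ∑ o ∈ O a, ∑ j ∈ J, (if hit a o j then 1 + β else 1) / (1 + β * p a j) * W j ≤
        ∑ _o ∈ O a, (J.card : ℝ) := by
      rw [sum_comm, sum_const, nsmul_eq_mul]
      refine le_trans (sum_le_sum fun j hj => ?_)
        ((mul_sum J W _).symm.le.trans (mul_le_mul_of_nonneg_left hW (Nat.cast_nonneg _)))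
      rw [← sum_mul, ← sum_div]
      refine mul_le_mul_of_nonneg_right ?_ (hW0 j hj)
      rw [div_le_iff₀ (hpos a (mem_insert_self _ _) j hj)]
      have e : ∀ o, (if hit a o j then 1 + β else 1) = 1 + β * if hit a o j then 1 else 0 :=
        fun o => by split_ifs <;> simp
      simp only [e, sum_add_distrib, sum_const, nsmul_eq_mul, mul_one, ← mul_sum, sum_boole]
      have := mul_le_mul_of_nonneg_left (hp a (mem_insert_self _ _) j hj) hβ.le
      linarith
    obtain ⟨o, ho, hle⟩ := exists_le_of_sum_le (hO a (mem_insert_self _ _)) hav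
    have hne : ∀ s ∈ S, Function.update c a o s = c s := fun s hs =>
      Function.update_of_ne (fun h : s = a => ha (h ▸ hs)) _ _
    refine ⟨Function.update c a o, fun s hs => ?_, le_trans (le_of_eq ?_) hle⟩
    · rcases mem_insert.1 hs with rfl | hs
      · simpa using ho
      · rw [hne s hs]; exact hc s hs
    · refine sum_congr rfl fun j _ => ?_
      rw [prod_insert ha, Function.update_self]
      congr 1
      exact prod_congr rfl fun s hs => by rw [hne s hs]

/-- Derandomised Chernoff bound. -/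
theorem potential {σ ω : Type} [DecidableEq σ] [Nonempty ω] (S : Finset σ) (O : σ → Finset ω)
    (J : Finset τ) (hit : σ → ω → τ → Prop) [∀ s o j, Decidable (hit s o j)] (p : σ → τ → ℝ)
    (β : ℝ) (hβ : 0 < β) (hO : ∀ s ∈ S, (O s).Nonempty)
    (hp : ∀ s ∈ S, ∀ j ∈ J, (((O s).filter fun o => hit s o j).card : ℝ) ≤ p s j * (O s).card) :
    ∃ c : σ → ω, (∀ s ∈ S, c s ∈ O s) ∧ ∀ j ∈ J, ((S.filter fun s => hit s (c s) j).card : ℝ)
      ≤ (1 + β) * (∑ s ∈ S, p s j + Real.log J.card / β) := by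
  obtain ⟨c, hc, hW⟩ := toolP_pot S O J hit p β hβ hO hp
  refine ⟨c, hc, fun j hj => ?_⟩
  have hpos : ∀ s ∈ S, ∀ j ∈ J, 0 < 1 + β * p s j := fun s hs j hj => by
    have := toolP_nonneg (hO s hs) (hp s hs j hj)
    positivity
  have h1 := (single_le_sum (f := fun j => ∏ s ∈ S,
    (if hit s (c s) j then 1 + β else 1) / (1 + β * p s j)) (fun j hj => prod_nonneg fun s hs =>
      div_nonneg (by split_ifs <;> positivity) (hpos s hs j hj).le) hj).trans hW
  rw [prod_div_distrib, div_le_iff₀ (prod_pos fun s hs => hpos s hs j hj), prod_ite, prod_const,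
    prod_const, one_pow, mul_one] at h1
  have hJ : (0 : ℝ) < J.card := by exact_mod_cast card_pos.2 ⟨j, hj⟩
  have h2 : ∏ s ∈ S, (1 + β * p s j) ≤ Real.exp (β * ∑ s ∈ S, p s j) := by
    rw [mul_sum, Real.exp_sum]
    exact prod_le_prod (fun s hs => (hpos s hs j hj).le) fun s _ => by
      linarith [Real.add_one_le_exp (β * p s j)]
  have h3 := Real.log_le_log (by positivity) (h1.trans (mul_le_mul_of_nonneg_left h2 hJ.le))
  rw [Real.log_pow, Real.log_mul hJ.ne' (Real.exp_pos _).ne', Real.log_exp] at h3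
  have h4 : β / (1 + β) ≤ Real.log (1 + β) := by
    have := Real.one_sub_inv_le_log_of_pos (show 0 < 1 + β by positivity)
    refine le_trans (le_of_eq ?_) this
    field_simp
    ring
  have h5 := (mul_le_mul_of_nonneg_left h4 (Nat.cast_nonneg _)).trans h3
  rw [← mul_div_assoc, div_le_iff₀ (by positivity)] at h5
  refine le_of_mul_le_mul_right ?_ hβ
  refine h5.trans (le_of_eq ?_)
  field_simp
  ring

end Pool.Agent.MP_4c107d_co.H78

end

section

/-!
List edge colouring of bipartite multigraphs (Galvin; Borodin, Kostochka, Woodall).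
The edges are the elements of `S`, with ends `u e` and `v e`.
-/

set_option autoImplicit false
set_option linter.unusedSectionVars false

namespace Pool.Agent.MP_4c107d_co.H78

open Finset

variable {ε α β γ : Type} [DecidableEq ε] [DecidableEq α] [DecidableEq β] [DecidableEq γ]

/-- A matching that covers all vertices of degree `h`. Proof idea: a colour class of `Pool.Agent.MP_1376f1_pr.equi S u v (fun _ => ()) h`. -/
theorem galvin_match (S : Finset ε) (u : ε → α) (v : ε → β) (h : ℕ) (hh : 0 < h)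
    (h1 : ∀ a, (fib S u a).card ≤ h) (h2 : ∀ b, (fib S v b).card ≤ h) :
    ∃ M ⊆ S, (∀ a, (fib M u a).card ≤ 1) ∧ (∀ b, (fib M v b).card ≤ 1) ∧
      (∀ a, (fib S u a).card = h → (fib M u a).card = 1) ∧
      ∀ b, (fib S v b).card = h → (fib M v b).card = 1 := by
  have hR : (0 : ℝ) < h := by exact_mod_cast hh
  obtain ⟨F, hF, -, ha, hb, -⟩ := Pool.Agent.MP_1376f1_pr.round3 S u v (fun _ => ())
    (fun _ => (1 : ℝ) / h) (fun _ _ => by positivity) (fun _ _ => by
      rw [div_le_one hR]; exact_mod_cast hh)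
  have k1 : ∀ m k : ℕ, |(m : ℝ) - k • ((1 : ℝ) / h)| < 1 → k ≤ h → m ≤ 1 := fun m k hm hk =>
    Pool.Agent.MP_1376f1_pr.round_nat_le hm (by
      rw [nsmul_eq_mul, mul_one_div, div_le_one hR]; exact_mod_cast hk)
  have k2 : ∀ m k : ℕ, |(m : ℝ) - k • ((1 : ℝ) / h)| < 1 → k = h → m = 1 := fun m k hm hk =>
    Pool.Agent.MP_1376f1_pr.round_nat_eq (by
      rw [nsmul_eq_mul, mul_one_div, hk, div_self hR.ne'] at hm
      rwa [Nat.cast_one])
  simp only [sum_const] at ha hb
  exact ⟨F, hF, fun a => k1 _ _ (ha a) (h1 a), fun b => k1 _ _ (hb b) (h2 b),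
    fun a => k2 _ _ (ha a), fun b => k2 _ _ (hb b)⟩

theorem galvin_mono {S S' : Finset ε} (hS : S ⊆ S') (f : ε → α) (a : α) :
    (fib S f a).card ≤ (fib S' f a).card := card_le_card (filter_subset_filter _ hS)

theorem galvin_drop {S M : Finset ε} (hM : M ⊆ S) (f : ε → α) (a : α) {h : ℕ}
    (h1 : (fib S f a).card ≤ h + 1) (h2 : (fib S f a).card = h + 1 → (fib M f a).card = 1) :
    (fib (S \ M) f a).card ≤ h := by
  have e : fib (S \ M) f a = fib S f a \ fib M f a := by
    ext e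
    simp only [mem_fib, mem_sdiff]
    tauto
  rw [e, card_sdiff_of_subset (show fib M f a ⊆ fib S f a from filter_subset_filter _ hM)]
  omega

theorem galvin_le {S : Finset ε} (f : ε → α) {h : ℕ}
    (h1 : ∀ e ∈ S, (fib S f (f e)).card ≤ h) (a : α) : (fib S f a).card ≤ h := by
  rcases (fib S f a).eq_empty_or_nonempty with h0 | ⟨e, he⟩
  · rw [h0]; exact Nat.zero_le _
  · obtain ⟨he', rfl⟩ := mem_fib.1 he
    exact h1 e he'

theorem galvin_nested_aux (u : ε → α) (v : ε → β) (h : ℕ) : ∀ (S : Finset ε) (l : α → ℕ),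
    (∀ e ∈ S, l (u e) ≤ h) → (∀ e ∈ S, (fib S u (u e)).card ≤ l (u e)) →
    (∀ e ∈ S, (fib S v (v e)).card ≤ l (u e)) → ∃ c : ε → ℕ, (∀ e ∈ S, c e < l (u e)) ∧
      ∀ e ∈ S, ∀ e' ∈ S, e ≠ e' → (u e = u e' ∨ v e = v e') → c e ≠ c e' := by
  induction h with
  | zero =>
    intro S l h0 h1 _
    have : ∀ e, e ∉ S := fun e he => by
      have a1 := card_pos.2 ⟨e, (mem_fib (S := S) (f := u)).2 ⟨he, rfl⟩⟩
      have a2 := h0 e he
      have a3 := h1 e he
      omega
    exact ⟨fun _ => 0, fun e he => absurd he (this e), fun e he => absurd he (this e)⟩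
  | succ h ih =>
    intro S l h0 h1 h2
    obtain ⟨S', hS'⟩ : ∃ S', S' = S.filter fun e => l (u e) = h + 1 := ⟨_, rfl⟩
    have hm : ∀ e, e ∈ S' ↔ e ∈ S ∧ l (u e) = h + 1 := fun e => by rw [hS', mem_filter]
    have hsub : S' ⊆ S := fun e he => ((hm e).1 he).1
    obtain ⟨M, hM, m1, m2, m3, m4⟩ := galvin_match S' u v (h + 1) (Nat.succ_pos _)
      (fun a => (galvin_mono hsub u a).trans
        (galvin_le u (fun e he => (h1 e he).trans (h0 e he)) a))
      (fun b => (galvin_mono hsub v b).trans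
        (galvin_le v (fun e he => (h2 e he).trans (h0 e he)) b))
    obtain ⟨c, c1, c2⟩ := ih (S \ M) (fun a => min (l a) h) (fun e _ => min_le_right _ _)
      (fun e he => by
        have he' := (mem_sdiff.1 he).1
        refine le_min ((galvin_mono sdiff_subset u _).trans (h1 e he'))
          (galvin_drop (hM.trans hsub) u _ ((h1 e he').trans (h0 e he')) fun hc => m3 _ ?_)
        refine le_antisymm ((galvin_mono hsub u _).trans hc.le) (hc.ge.trans (card_le_card ?_))
        intro f hf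
        obtain ⟨f1, f2⟩ := mem_fib.1 hf
        have a1 := h1 e he'
        have a2 := h0 e he'
        exact mem_fib.2 ⟨(hm f).2 ⟨f1, by rw [f2]; omega⟩, f2⟩)
      (fun e he => by
        have he' := (mem_sdiff.1 he).1
        refine le_min ((galvin_mono sdiff_subset v _).trans (h2 e he'))
          (galvin_drop (hM.trans hsub) v _ ((h2 e he').trans (h0 e he')) fun hc => m4 _ ?_)
        refine le_antisymm ((galvin_mono hsub v _).trans hc.le) (hc.ge.trans (card_le_card ?_))
        intro f hf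
        obtain ⟨f1, f2⟩ := mem_fib.1 hf
        have a1 := h2 f f1
        have a2 := h0 f f1
        rw [f2] at a1
        exact mem_fib.2 ⟨(hm f).2 ⟨f1, by omega⟩, f2⟩)
    refine ⟨fun e => if e ∈ M then h else c e, fun e he => ?_, fun e he e' he' hne hs => ?_⟩
    · dsimp only
      split_ifs with hE
      · have := ((hm e).1 (hM hE)).2
        omega
      · exact (c1 e (mem_sdiff.2 ⟨he, hE⟩)).trans_le (min_le_left _ _)
    · dsimp only
      split_ifs with hE hE' hE'
      · refine absurd ?_ hne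
        rcases hs with hs | hs
        · exact card_le_one.1 (m1 (u e')) _ (mem_fib.2 ⟨hE, hs⟩) _ (mem_fib.2 ⟨hE', rfl⟩)
        · exact card_le_one.1 (m2 (v e')) _ (mem_fib.2 ⟨hE, hs⟩) _ (mem_fib.2 ⟨hE', rfl⟩)
      · exact ((c1 e' (mem_sdiff.2 ⟨he', hE'⟩)).trans_le (min_le_right _ _)).ne'
      · exact ((c1 e (mem_sdiff.2 ⟨he, hE⟩)).trans_le (min_le_right _ _)).ne
      · exact c2 e (mem_sdiff.2 ⟨he, hE⟩) e' (mem_sdiff.2 ⟨he', hE'⟩) hne hs

/-- Nested lists. Proof idea: induction on a bound `h` for `l` on the ends of `S`. Apply `galvin_match` to `S' = {e ∈ S | l (u e) = h}`, give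
the matching the colour `h - 1`, and continue with `S \ M` and `min (l a) (h - 1)`; a vertex `v e` of degree `h` has all its edges in `S'`. -/
theorem galvin_nested (S : Finset ε) (u : ε → α) (v : ε → β) (l : α → ℕ)
    (h1 : ∀ e ∈ S, (fib S u (u e)).card ≤ l (u e)) (h2 : ∀ e ∈ S, (fib S v (v e)).card ≤ l (u e)) :
    ∃ c : ε → ℕ, (∀ e ∈ S, c e < l (u e)) ∧
      ∀ e ∈ S, ∀ e' ∈ S, e ≠ e' → (u e = u e' ∨ v e = v e') → c e ≠ c e' :=
  galvin_nested_aux u v (S.sup fun e => l (u e)) S l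
    (fun _ he => le_sup (f := fun e => l (u e)) he) h1 h2

/-- Stable matchings are kernels. Proof idea: strong induction on `S`. Let `M` be the set of edges with the largest colour at their end `u`.
If `M` is a matching it works. Otherwise take `e, e' ∈ M` with `v e = v e'`, `c e' < c e`, and a kernel `K` of `S.erase e`; it is a kernel of `S`:
if `e' ∈ K` then `e'` dominates `e`; otherwise `e'` is dominated by some `f ∈ K`, which cannot share `u` with `e'` and have a larger colour,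
so `v f = v e'` and `c f < c e' < c e`. -/
theorem galvin_kernel (S : Finset ε) (u : ε → α) (v : ε → β) (c : ε → ℕ)
    (hc : ∀ e ∈ S, ∀ e' ∈ S, e ≠ e' → (u e = u e' ∨ v e = v e') → c e ≠ c e') :
    ∃ K ⊆ S, (∀ e ∈ K, ∀ e' ∈ K, (u e = u e' ∨ v e = v e') → e = e') ∧
      ∀ e ∈ S, e ∉ K → ∃ f ∈ K, (u f = u e ∧ c e < c f) ∨ (v f = v e ∧ c f < c e) := by
  induction S using Finset.strongInduction with
  | H S ih =>
    obtain ⟨M, hM⟩ : ∃ M, M = S.filter fun e => ∀ f ∈ S, u f = u e → c f ≤ c e := ⟨_, rfl⟩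
    have hm : ∀ e, e ∈ M ↔ e ∈ S ∧ ∀ f ∈ S, u f = u e → c f ≤ c e := fun e => by
      rw [hM, mem_filter]
    by_cases hA : ∃ e ∈ M, ∃ e' ∈ M, v e = v e' ∧ c e' < c e
    · obtain ⟨e, he, e', he', hv, hlt⟩ := hA
      obtain ⟨K, hK, k1, k2⟩ := ih (S.erase e) (erase_ssubset ((hm e).1 he).1)
        fun a ha b hb => hc a (mem_of_mem_erase ha) b (mem_of_mem_erase hb)
      refine ⟨K, hK.trans (erase_subset _ _), k1, fun g hg hgK => ?_⟩
      by_cases hge : g = e
      · subst hge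
        by_cases hK' : e' ∈ K
        · exact ⟨e', hK', Or.inr ⟨hv.symm, hlt⟩⟩
        · obtain ⟨f, hf, h | h⟩ := k2 e' (mem_erase.2 ⟨fun h => by
            rw [h] at hlt; exact lt_irrefl _ hlt, ((hm e').1 he').1⟩) hK'
          · exact absurd (((hm e').1 he').2 f (mem_of_mem_erase (hK hf)) h.1) (not_le.2 h.2)
          · exact ⟨f, hf, Or.inr ⟨h.1.trans hv.symm, h.2.trans hlt⟩⟩
      · exact k2 g (mem_erase.2 ⟨hge, hg⟩) hgK
    · refine ⟨M, fun e he => ((hm e).1 he).1, fun e he e' he' hs => ?_, fun e he heM => ?_⟩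
      · by_contra hne
        obtain ⟨a1, a2⟩ := (hm e).1 he
        obtain ⟨b1, b2⟩ := (hm e').1 he'
        have hcc := hc e a1 e' b1 hne hs
        rcases hs with hs | hs
        · exact hcc (le_antisymm (b2 e a1 hs) (a2 e' b1 hs.symm))
        · rcases lt_or_gt_of_ne hcc with h | h
          · exact hA ⟨e', he', e, he, hs.symm, h⟩
          · exact hA ⟨e, he, e', he', hs, h⟩
      · obtain ⟨f, hf, hmax⟩ := exists_max_image (fib S u (u e)) c ⟨e, mem_fib.2 ⟨he, rfl⟩⟩
        obtain ⟨f1, f2⟩ := mem_fib.1 hf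
        refine ⟨f, (hm f).2 ⟨f1, fun g hg hu => hmax g (mem_fib.2 ⟨hg, hu.trans f2⟩)⟩,
          Or.inl ⟨f2, ?_⟩⟩
        by_contra hle
        exact heM ((hm e).2 ⟨he, fun g hg hu =>
          (hmax g (mem_fib.2 ⟨hg, hu⟩)).trans (not_lt.1 hle)⟩)

/-- out-neighbours in the orientation given by the colouring `c` -/
def galvin_out (u : ε → α) (v : ε → β) (c : ε → ℕ) (S : Finset ε) (e : ε) : Finset ε :=
  S.filter fun f => (u f = u e ∧ c e < c f) ∨ (v f = v e ∧ c f < c e)

theorem galvin_aux [Nonempty γ] (u : ε → α) (v : ε → β) (c0 : ε → ℕ) (S : Finset ε) :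
    (∀ e ∈ S, ∀ e' ∈ S, e ≠ e' → (u e = u e' ∨ v e = v e') → c0 e ≠ c0 e') →
    ∀ L : ε → Finset γ, (∀ e ∈ S, (galvin_out u v c0 S e).card < (L e).card) →
    ∃ c : ε → γ, (∀ e ∈ S, c e ∈ L e) ∧
      ∀ e ∈ S, ∀ e' ∈ S, e ≠ e' → (u e = u e' ∨ v e = v e') → c e ≠ c e' := by
  induction S using Finset.strongInduction with
  | H S ih =>
    intro hc L hL
    rcases S.eq_empty_or_nonempty with rfl | ⟨e0, he0⟩
    · exact ⟨fun _ => Classical.arbitrary γ, by simp, by simp⟩
    obtain ⟨g, hg⟩ := card_pos.1 (Nat.zero_lt_of_lt (hL e0 he0))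
    obtain ⟨K, hK, k1, k2⟩ := galvin_kernel (S.filter fun e => g ∈ L e) u v c0
      fun a ha b hb => hc a (mem_filter.1 ha).1 b (mem_filter.1 hb).1
    have hKS : K ⊆ S := hK.trans (filter_subset _ _)
    have hne : K.Nonempty := by
      by_cases h : e0 ∈ K
      · exact ⟨e0, h⟩
      · obtain ⟨f, hf, -⟩ := k2 e0 (mem_filter.2 ⟨he0, hg⟩) h
        exact ⟨f, hf⟩
    obtain ⟨c, c1, c2⟩ := ih (S \ K) (sdiff_ssubset hKS hne)
      (fun a ha b hb => hc a (mem_sdiff.1 ha).1 b (mem_sdiff.1 hb).1)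
      (fun e => (L e).erase g) (fun e he => by
        obtain ⟨he1, he2⟩ := mem_sdiff.1 he
        have hsub : galvin_out u v c0 (S \ K) e ⊆ galvin_out u v c0 S e :=
          filter_subset_filter _ sdiff_subset
        have a1 := hL e he1
        by_cases hge : g ∈ L e
        · obtain ⟨f, hf, hd⟩ := k2 e (mem_filter.2 ⟨he1, hge⟩) he2
          have a2 := card_lt_card ((ssubset_iff_of_subset hsub).2
            ⟨f, mem_filter.2 ⟨hKS hf, hd⟩, fun h => (mem_sdiff.1 (mem_filter.1 h).1).2 hf⟩)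
          rw [card_erase_of_mem hge]
          omega
        · rw [erase_eq_of_notMem hge]
          exact (card_le_card hsub).trans_lt a1)
    refine ⟨fun e => if e ∈ K then g else c e, fun e he => ?_, fun e he e' he' hne hs => ?_⟩
    · dsimp only
      split_ifs with hE
      · exact (mem_filter.1 (hK hE)).2
      · exact mem_of_mem_erase (c1 e (mem_sdiff.2 ⟨he, hE⟩))
    · dsimp only
      split_ifs with hE hE' hE'
      · exact absurd (k1 e hE e' hE' hs) hne
      · exact (ne_of_mem_erase (c1 e' (mem_sdiff.2 ⟨he', hE'⟩))).symm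
      · exact ne_of_mem_erase (c1 e (mem_sdiff.2 ⟨he, hE⟩))
      · exact c2 e (mem_sdiff.2 ⟨he, hE⟩) e' (mem_sdiff.2 ⟨he', hE'⟩) hne hs

/-- Proof idea. With `c0` from `galvin_nested` let `out S e = {f ∈ S | (u f = u e ∧ c0 e < c0 f) ∨ (v f = v e ∧ c0 f < c0 e)}`; `c0` is injective on it
with values in `range (l (u e))` other than `c0 e`, so `#(out S e) < #(L e)`. Prove by strong induction on `S` (all lists `L`) that
`∀ e ∈ S, #(out S e) < #(L e)` gives a colouring: pick a colour `g` in some list, a kernel `K` of `{e ∈ S | g ∈ L e}`, colour `K` with `g`,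
continue with `S \ K` and the lists `(L e).erase g`. -/
theorem galvin [Nonempty γ] (S : Finset ε) (u : ε → α) (v : ε → β) (l : α → ℕ)
    (L : ε → Finset γ) (h1 : ∀ e ∈ S, (fib S u (u e)).card ≤ l (u e))
    (h2 : ∀ e ∈ S, (fib S v (v e)).card ≤ l (u e)) (h3 : ∀ e ∈ S, l (u e) ≤ (L e).card) :
    ∃ c : ε → γ, (∀ e ∈ S, c e ∈ L e) ∧
      ∀ e ∈ S, ∀ e' ∈ S, e ≠ e' → (u e = u e' ∨ v e = v e') → c e ≠ c e' := by
  obtain ⟨c0, c1, c2⟩ := galvin_nested S u v l h1 h2
  refine galvin_aux u v c0 S c2 L fun e he => lt_of_lt_of_le ?_ (h3 e he)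
  have a1 := c1 e he
  have a2 : (galvin_out u v c0 S e).card ≤ ((range (l (u e))).erase (c0 e)).card := by
    refine card_le_card_of_injOn c0 (fun f hf => ?_) fun f hf f' hf' hff => ?_
    · obtain ⟨f1, f2⟩ := mem_filter.1 (mem_coe.1 hf)
      have a3 := c1 f f1
      refine mem_coe.2 (mem_erase.2 ⟨by omega, mem_range.2 ?_⟩)
      rcases f2 with f2 | f2
      · rwa [f2.1] at a3
      · omega
    · obtain ⟨f1, f2⟩ := mem_filter.1 (mem_coe.1 hf)
      obtain ⟨g1, g2⟩ := mem_filter.1 (mem_coe.1 hf')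
      by_contra hne
      rcases f2 with f2 | f2 <;> rcases g2 with g2 | g2
      · exact c2 f f1 f' g1 hne (Or.inl (f2.1.trans g2.1.symm)) hff
      · omega
      · omega
      · exact c2 f f1 f' g1 hne (Or.inr (f2.1.trans g2.1.symm)) hff
  rw [card_erase_of_mem (mem_range.2 a1), card_range] at a2
  omega

end Pool.Agent.MP_4c107d_co.H78

end

section

/-!
Partition of the family into groups.
-/

set_option autoImplicit false
set_option linter.unusedSectionVars false

namespace Pool.Agent.MP_4c107d_co.H78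

open Finset

theorem part_sets {ι G : Type} [DecidableEq ι] [DecidableEq G] {Mp : ℕ} (pr : ι → Fin Mp) {k0 : ℕ}
    (hk : 0 < k0) (Γ : Finset G) (R : Finset ι) (h : (Γ.card + Mp) * k0 ≤ R.card) :
    ∃ Hs : G → Finset ι, (∀ g ∈ Γ, Hs g ⊆ R ∧ (Hs g).card = k0 ∧
      ∀ i ∈ Hs g, ∀ i' ∈ Hs g, pr i = pr i') ∧
      ∀ g ∈ Γ, ∀ g' ∈ Γ, g ≠ g' → Disjoint (Hs g) (Hs g') := by
  induction Γ using Finset.induction_on generalizing R with
  | empty => exact ⟨fun _ => ∅, by simp, by simp⟩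
  | insert a Γ ha ih =>
    rw [card_insert_of_notMem ha] at h
    have e : (Γ.card + 1 + Mp) * k0 = (Γ.card + Mp) * k0 + k0 := by ring
    have e2 : (Γ.card + Mp) * k0 = Γ.card * k0 + Mp * k0 := by ring
    obtain ⟨x, -⟩ : R.Nonempty := card_pos.1 (by omega)
    obtain ⟨b, -, hb⟩ := exists_le_card_fiber_of_mul_le_card_of_maps_to (s := R) (f := pr)
      (t := univ) (n := k0) (fun _ _ => mem_univ _) ⟨pr x, mem_univ _⟩ (by
        rw [card_univ, Fintype.card_fin]; omega)
    obtain ⟨H, hH1, hH2⟩ := exists_subset_card_eq hb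
    have hHR : H ⊆ R := hH1.trans (filter_subset _ _)
    obtain ⟨Hs, a1, a2⟩ := ih (R \ H) (by rw [card_sdiff_of_subset hHR]; omega)
    have hne : ∀ g ∈ Γ, g ≠ a := fun g hg e => ha (e ▸ hg)
    have hdj : ∀ g ∈ Γ, Disjoint H (Hs g) := fun g hg =>
      disjoint_sdiff.mono_right (a1 g hg).1
    refine ⟨Function.update Hs a H, fun g hg => ?_, fun g hg g' hg' hgg => ?_⟩
    · rcases mem_insert.1 hg with e | hg
      · rw [e, Function.update_self]
        exact ⟨hHR, hH2, fun i hi i' hi' =>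
          (mem_filter.1 (hH1 hi)).2.trans (mem_filter.1 (hH1 hi')).2.symm⟩
      · rw [Function.update_of_ne (hne g hg)]
        exact ⟨(a1 g hg).1.trans sdiff_subset, (a1 g hg).2⟩
    · rcases mem_insert.1 hg with e | h1 <;> rcases mem_insert.1 hg' with e' | h2
      · exact absurd (e.trans e'.symm) hgg
      · rw [e, Function.update_self, Function.update_of_ne (hne g' h2)]
        exact hdj g' h2
      · rw [e', Function.update_self, Function.update_of_ne (hne g h1)]
        exact (hdj g h1).symm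
      · rw [Function.update_of_ne (hne g h1), Function.update_of_ne (hne g' h2)]
        exact a2 g h1 g' h2 hgg

theorem part_even {ι G : Type} [DecidableEq ι] [Fintype G] [DecidableEq G] (hG : 0 < Fintype.card G)
    (T : Finset ι) : ∃ c : ι → G, ∀ g, T.card / Fintype.card G ≤ (fib T c g).card ∧
      (fib T c g).card ≤ T.card / Fintype.card G + 1 := by
  have : Nonempty G := Fintype.card_pos_iff.1 hG
  obtain ⟨A, -, hA⟩ := exists_subset_card_eq (s := (univ : Finset G)) (n := T.card % Fintype.card G)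
    (Nat.mod_lt _ hG).le
  obtain ⟨c, -, hc⟩ := exists_fib T (univ : Finset G)
    (fun g => T.card / Fintype.card G + if g ∈ A then 1 else 0) (by
      rw [sum_add_distrib, sum_const, smul_eq_mul, card_univ, ← card_filter, filter_mem_eq_inter,
        univ_inter, hA, Nat.div_add_mod])
  refine ⟨c, fun g => ?_⟩
  rw [hc g (mem_univ _)]
  split_ifs <;> omega

/-- Proof idea. `k = #I`, `g0 = ⌊k / (W k0 (1 + ζ / 2))⌋₊`, `G = W g0`. Every fibre of `pr` in `R` contains `#fibre / k0` disjoint sets of size `k0`, together at least `(#R - Mp k0) / k0 ≥ G` sets (induction on the number of sets: as long as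
more than `Mp k0` elements are left some fibre has `k0` of them). The `T = k - G k0` other trees are distributed evenly (`exists_fib`); `G k0 ζ / 2 ≤ T ≤ G k0 ζ / 2 + 1.5 W k0`. -/
theorem partition {ι : Type} [DecidableEq ι] (I R : Finset ι) (hR : R ⊆ I) {Mp : ℕ}
    (pr : ι → Fin Mp) (k0 W gmin : ℕ) (ζ : ℝ) (h0 : 0 < ζ) (h1 : ζ ≤ 1) (hW : 0 < W)
    (h2 : 4 ≤ ζ * k0) (h3 : 8 * ((I \ R).card : ℝ) ≤ ζ * I.card)
    (h4 : 8 * (Mp * k0 : ℝ) ≤ ζ * I.card) (h5 : 2 * W * gmin * k0 ≤ I.card) (h6 : 6 ≤ ζ * gmin) :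
    ∃ g0, gmin ≤ g0 ∧ ∀ (G : Type) [Fintype G] [DecidableEq G], Fintype.card G = W * g0 →
      ∃ Hs Gs : G → Finset ι, (∀ g, Hs g ⊆ R ∧ (Hs g).card = k0 ∧
        (∀ i ∈ Hs g, ∀ i' ∈ Hs g, pr i = pr i') ∧ Disjoint (Hs g) (Gs g) ∧
        ζ * k0 ≤ 4 * (Gs g).card ∧ ((Gs g).card : ℝ) ≤ ζ * k0) ∧
        (∀ g g', g ≠ g' → Disjoint (Hs g ∪ Gs g) (Hs g' ∪ Gs g')) ∧
        univ.biUnion (fun g => Hs g ∪ Gs g) = I := by
  have hk0 : (0 : ℝ) < k0 := by
    by_contra hc
    have := mul_nonpos_of_nonneg_of_nonpos h0.le (not_lt.1 hc)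
    linarith
  have hW' : (0 : ℝ) < W := by exact_mod_cast hW
  have hD : (0 : ℝ) < W * k0 * (1 + ζ / 2) := by positivity
  have hI : (0 : ℝ) ≤ I.card := Nat.cast_nonneg _
  obtain ⟨g0, a1, a2⟩ : ∃ g0 : ℕ, g0 * (W * k0 * (1 + ζ / 2)) ≤ (I.card : ℝ) ∧
      (I.card : ℝ) < (g0 + 1) * (W * k0 * (1 + ζ / 2)) :=
    ⟨⌊(I.card : ℝ) / (W * k0 * (1 + ζ / 2))⌋₊,
      (le_div_iff₀ hD).1 (Nat.floor_le (div_nonneg hI hD.le)),
      (div_lt_iff₀ hD).1 (Nat.lt_floor_add_one _)⟩
  have hWk : (0 : ℝ) < W * k0 := by positivity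
  have hg : gmin ≤ g0 := by
    have b1 : (2 * W * gmin * k0 : ℝ) ≤ I.card := by exact_mod_cast h5
    have b2 : (gmin : ℝ) * (W * k0 * (1 + ζ / 2)) ≤ gmin * (W * k0 * 2) :=
      mul_le_mul_of_nonneg_left (mul_le_mul_of_nonneg_left (by linarith) hWk.le) (Nat.cast_nonneg _)
    have b3 : (gmin : ℝ) < g0 + 1 := lt_of_mul_lt_mul_right (by linarith) hD.le
    exact Nat.lt_succ_iff.1 (by exact_mod_cast b3)
  have hg' : 6 ≤ ζ * g0 :=
    h6.trans (mul_le_mul_of_nonneg_left (by exact_mod_cast hg) h0.le)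
  have hg0 : (0 : ℝ) < g0 := by
    by_contra hc
    have := mul_nonpos_of_nonneg_of_nonpos h0.le (not_lt.1 hc)
    linarith
  refine ⟨g0, hg, fun G _ _ hG => ?_⟩
  have hGr : (Fintype.card G : ℝ) = W * g0 := by exact_mod_cast hG
  have hG0 : (0 : ℝ) < Fintype.card G := by rw [hGr]; positivity
  obtain ⟨Hs, b1, b2⟩ := part_sets pr (k0 := k0) (by exact_mod_cast hk0) (univ : Finset G) R (by
    have c1 : ((I \ R).card : ℝ) + R.card = I.card := by
      exact_mod_cast card_sdiff_add_card_eq_card hR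
    have c2 : (g0 : ℝ) * (W * k0) ≤ I.card * (1 - ζ / 4) := by
      refine le_of_mul_le_mul_right ?_ (show (0 : ℝ) < 1 + ζ / 2 by positivity)
      have c3 := mul_nonneg hI (mul_nonneg h0.le (show (0 : ℝ) ≤ 2 - ζ by linarith))
      linarith
    have c4 : ((Fintype.card G : ℝ) + Mp) * k0 ≤ R.card := by
      rw [hGr]; linarith
    rw [card_univ]
    exact_mod_cast c4)
  have hU : univ.biUnion Hs ⊆ I := biUnion_subset.2 fun g hg => (b1 g hg).1.trans hR
  have hT : ((I \ univ.biUnion Hs).card : ℝ) + W * g0 * k0 = I.card := by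
    have c1 := card_sdiff_add_card_eq_card hU
    rw [card_biUnion fun g hg g' hg' e => b2 g hg g' hg' e,
      sum_congr rfl fun g hg => (b1 g hg).2.1, sum_const, smul_eq_mul, card_univ, hG] at c1
    exact_mod_cast c1
  obtain ⟨c, hc⟩ := part_even (G := G) (by exact_mod_cast hG0) (I \ univ.biUnion Hs)
  have q1 : (((I \ univ.biUnion Hs).card / Fintype.card G : ℕ) : ℝ) * (W * g0) ≤
      (I \ univ.biUnion Hs).card := by
    rw [← hGr]; exact_mod_cast Nat.div_mul_le_self _ _
  have q2 : ((I \ univ.biUnion Hs).card : ℝ) ≤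
      (((I \ univ.biUnion Hs).card / Fintype.card G : ℕ) + 1) * (W * g0) := by
    rw [← hGr]
    have := Nat.lt_div_mul_add (a := (I \ univ.biUnion Hs).card) (b := Fintype.card G)
      (by exact_mod_cast hG0)
    have c1 : (I \ univ.biUnion Hs).card ≤
        ((I \ univ.biUnion Hs).card / Fintype.card G + 1) * Fintype.card G := by
      rw [add_mul, one_mul]; exact this.le
    exact_mod_cast c1
  have hWg : (0 : ℝ) < W * g0 := by positivity
  generalize (I \ univ.biUnion Hs).card / Fintype.card G = q at hc q1 q2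
  have q3 : ζ * k0 / 2 ≤ (q : ℝ) + 1 := le_of_mul_le_mul_right (by linarith) hWg
  have q4 : (q : ℝ) ≤ 3 * (ζ * k0) / 4 := by
    refine le_of_mul_le_mul_right ?_ hWg
    have c1 := mul_le_mul_of_nonneg_left hg' hWk.le
    have c2 := mul_le_mul_of_nonneg_left h1 hWk.le
    linarith
  have hdj : ∀ g g', Disjoint (Hs g) (fib (I \ univ.biUnion Hs) c g') := fun g g' =>
    disjoint_sdiff.mono (subset_biUnion_of_mem Hs (mem_univ g)) (fib_subset _ _ _)
  refine ⟨Hs, fun g => fib (I \ univ.biUnion Hs) c g, fun g => ?_, fun g g' e => ?_, ?_⟩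
  · have c1 : (q : ℝ) ≤ (fib (I \ univ.biUnion Hs) c g).card := by exact_mod_cast (hc g).1
    have c2 : ((fib (I \ univ.biUnion Hs) c g).card : ℝ) ≤ q + 1 := by exact_mod_cast (hc g).2
    exact ⟨(b1 g (mem_univ _)).1, (b1 g (mem_univ _)).2.1, (b1 g (mem_univ _)).2.2, hdj g g,
      by linarith, by linarith⟩
  · rw [disjoint_union_left, disjoint_union_right, disjoint_union_right]
    refine ⟨⟨b2 g (mem_univ _) g' (mem_univ _) e, hdj g g'⟩, (hdj g' g).symm, ?_⟩
    exact disjoint_left.2 fun x hx hx' => e ((mem_fib.1 hx).2.symm.trans (mem_fib.1 hx').2)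
  · refine Subset.antisymm (biUnion_subset.2 fun g hg => union_subset ((b1 g hg).1.trans hR)
      ((fib_subset _ _ _).trans sdiff_subset)) fun x hx => ?_
    by_cases hx' : x ∈ univ.biUnion Hs
    · obtain ⟨g, hg, hg'⟩ := mem_biUnion.1 hx'
      exact mem_biUnion.2 ⟨g, hg, mem_union_left _ hg'⟩
    · exact mem_biUnion.2 ⟨c x, mem_univ _,
        mem_union_right _ (mem_fib.2 ⟨mem_sdiff.2 ⟨hx, hx'⟩, rfl⟩)⟩

end Pool.Agent.MP_4c107d_co.H78

end

section

/-!
Two balancing lemmas.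
-/

set_option autoImplicit false
set_option linter.unusedSectionVars false

namespace Pool.Agent.MP_4c107d_co.H78

open Finset

theorem classes_number {Q K : Type} [DecidableEq K] (S : Finset Q) (key : Q → K) :
    ∃ (N : ℕ) (cl : Q → Fin N), ∀ κ ∈ S.image key, ∃ i, ∀ T ⊆ S, fib T cl i = fib T key κ := by
  classical
  let e := Fintype.equivFin (Option (S.image key))
  refine ⟨_, fun q => e (if h : key q ∈ S.image key then some ⟨key q, h⟩ else none), fun κ hκ =>
    ⟨e (some ⟨κ, hκ⟩), fun T hT => ?_⟩⟩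
  ext q
  rw [mem_fib, mem_fib]
  refine and_congr_right fun hq => ?_
  rw [dif_pos (mem_image_of_mem key (hT hq)), e.injective.eq_iff, Option.some.injEq, Subtype.mk.injEq]

theorem classes_sum {Q K : Type} [DecidableEq K] {S T : Finset Q} (hT : T ⊆ S) (key : Q → K)
    (f : K → ℝ) : ∑ q ∈ T, f (key q) = ∑ κ ∈ S.image key, ((fib T key κ).card : ℝ) * f κ := by
  rw [← sum_fiberwise_of_maps_to (t := S.image key) (g := key)
    fun q hq => mem_image_of_mem key (hT hq)]
  refine sum_congr rfl fun κ _ => ?_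
  rw [sum_congr rfl (g := fun _ => f κ) fun q hq => by rw [(mem_filter.1 hq).2], sum_const,
    nsmul_eq_mul]
  rfl

theorem classes_geom (J : ℕ) : ∑ j ∈ range (J + 1), 2 * (2 : ℝ) ^ j ≤ 4 * 2 ^ J := by
  induction J with
  | zero => norm_num
  | succ J ih => rw [sum_range_succ, pow_succ]; linarith

theorem classes_shape {v w R : ℕ} (hR : 0 < R) (hv : v ≤ w) (hw : 1 ≤ w) :
    ⌈(v : ℝ) * R / 2 ^ Nat.log 2 w⌉₊ ≤ 2 * R ∧
      (v : ℝ) ≤ ⌈(v : ℝ) * R / 2 ^ Nat.log 2 w⌉₊ * 2 ^ Nat.log 2 w / R ∧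
      ⌈(v : ℝ) * R / 2 ^ Nat.log 2 w⌉₊ * 2 ^ Nat.log 2 w / (R : ℝ) ≤ v + w / R := by
  have hR' : (0 : ℝ) < R := by exact_mod_cast hR
  have h1 : (2 : ℝ) ^ Nat.log 2 w ≤ w := by exact_mod_cast Nat.pow_log_le_self 2 (by omega : w ≠ 0)
  have h2 : (w : ℝ) ≤ 2 * 2 ^ Nat.log 2 w := by
    have := (Nat.lt_pow_succ_log_self (by norm_num : 1 < 2) w).le
    rw [pow_succ'] at this
    exact_mod_cast this
  have h3 : (v : ℝ) ≤ w := by exact_mod_cast hv
  have hp : (0 : ℝ) < 2 ^ Nat.log 2 w := by positivity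
  refine ⟨Nat.ceil_le.2 ?_, ?_, ?_⟩
  · rw [div_le_iff₀ hp]
    push_cast
    nlinarith
  · have h4 := Nat.le_ceil ((v : ℝ) * R / 2 ^ Nat.log 2 w)
    rw [div_le_iff₀ hp] at h4
    rwa [le_div_iff₀ hR']
  · have h4 := (Nat.ceil_lt_add_one (a := (v : ℝ) * R / 2 ^ Nat.log 2 w) (by positivity)).le
    have h5 := mul_le_mul_of_nonneg_right h4 hp.le
    rw [add_mul, div_mul_cancel₀ _ hp.ne'] at h5
    rw [div_le_iff₀ hR', add_mul, div_mul_cancel₀ _ hR'.ne']
    linarith

/-- Proof idea. The class of `q` is `(j, sh)` with `j = Nat.log 2 (w q)`, `sh z = ⌈v q z * R / 2 ^ j⌉ ≤ 2 R`, so `v q z ≤ sh z * 2 ^ j / R ≤ v q z + w q / R`. There are at most `(2 R + 1) ^ card Z` classes with given `j`, and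
`∑ 2 ^ (j + 1) ≤ 4 b` over the `j` with `2 ^ j ≤ b`. Number the classes that occur in `S` (and one more) by `Fin N`. -/
theorem classes {Q Z : Type} [DecidableEq Q] [Fintype Z] (S : Finset Q) (v : Q → Z → ℕ) (w : Q → ℕ)
    (R : ℕ) (hR : 0 < R) (b : ℝ) (hb : 0 ≤ b) (hv : ∀ q ∈ S, ∀ z, v q z ≤ w q)
    (hw : ∀ q ∈ S, 1 ≤ w q ∧ (w q : ℝ) ≤ b) :
    ∃ (N : ℕ) (cl : Q → Fin N), ∀ T ⊆ S, ∀ x : ℝ, 0 ≤ x →
      (∀ κ, ((fib T cl κ).card : ℝ) ≤ x * (fib S cl κ).card + 1) →
      ∀ z, ((∑ q ∈ T, v q z : ℕ) : ℝ) ≤ x * ((∑ q ∈ S, v q z : ℕ) + (∑ q ∈ S, w q : ℕ) / (R : ℝ))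
        + 4 * (2 * (R : ℝ) + 1) ^ Fintype.card Z * b := by
  classical
  have hR' : (0 : ℝ) < R := by exact_mod_cast hR
  let key : Q → ℕ × (Z → ℕ) := fun q =>
    (Nat.log 2 (w q), fun z => ⌈(v q z : ℝ) * R / 2 ^ Nat.log 2 (w q)⌉₊)
  obtain ⟨N, cl, hcl⟩ := classes_number S key
  refine ⟨N, cl, fun T hT x hx h z => ?_⟩
  let f : ℕ × (Z → ℕ) → ℝ := fun κ => (κ.2 z : ℝ) * 2 ^ κ.1 / R
  have hf0 : ∀ κ, 0 ≤ f κ := fun κ => by positivity
  have hs := fun q (hq : q ∈ S) (z : Z) => classes_shape hR (hv q hq z) (hw q hq).1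
  have h1 : ((∑ q ∈ T, v q z : ℕ) : ℝ) ≤ ∑ q ∈ T, f (key q) := by
    push_cast
    exact sum_le_sum fun q hq => (hs q (hT hq) z).2.1
  have h2 : ∑ q ∈ S, f (key q) ≤ (∑ q ∈ S, v q z : ℕ) + (∑ q ∈ S, w q : ℕ) / (R : ℝ) := by
    push_cast
    rw [sum_div, ← sum_add_distrib]
    exact sum_le_sum fun q hq => (hs q hq z).2.2
  have h3 : ∑ q ∈ T, f (key q) ≤ x * ∑ q ∈ S, f (key q) + ∑ κ ∈ S.image key, f κ := by
    rw [classes_sum hT key f, classes_sum subset_rfl key f, mul_sum, ← sum_add_distrib]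
    refine sum_le_sum fun κ hκ => ?_
    obtain ⟨i, hi⟩ := hcl κ hκ
    have h4 := h i
    rw [hi T hT, hi S subset_rfl] at h4
    have h5 := mul_le_mul_of_nonneg_right h4 (hf0 κ)
    linarith
  have h4 : ∑ κ ∈ S.image key, f κ ≤ 4 * (2 * (R : ℝ) + 1) ^ Fintype.card Z * b := by
    rcases S.eq_empty_or_nonempty with hS | ⟨q₀, hq₀⟩
    · rw [hS, image_empty, sum_empty]
      positivity
    have hb1 : 1 ≤ ⌊b⌋₊ := (hw q₀ hq₀).1.trans (Nat.le_floor (hw q₀ hq₀).2)
    have hJ : (2 : ℝ) ^ Nat.log 2 ⌊b⌋₊ ≤ b := by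
      refine le_trans ?_ (Nat.floor_le hb)
      exact_mod_cast Nat.pow_log_le_self 2 (by omega : ⌊b⌋₊ ≠ 0)
    have hsub : S.image key ⊆ range (Nat.log 2 ⌊b⌋₊ + 1) ×ˢ
        Fintype.piFinset fun _ : Z => range (2 * R + 1) := by
      intro κ hκ
      obtain ⟨q, hq, rfl⟩ := mem_image.1 hκ
      refine mem_product.2 ⟨mem_range.2 (Nat.lt_succ_of_le
        (Nat.log_mono_right (b := 2) (Nat.le_floor (hw q hq).2))), Fintype.mem_piFinset.2 fun z => ?_⟩
      exact mem_range.2 (Nat.lt_succ_of_le (hs q hq z).1)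
    have h5 : ∑ κ ∈ S.image key, f κ ≤ ∑ κ ∈ S.image key, 2 * (2 : ℝ) ^ κ.1 := by
      refine sum_le_sum fun κ hκ => ?_
      obtain ⟨q, hq, rfl⟩ := mem_image.1 hκ
      have h6' : (key q).2 z ≤ 2 * R := (hs q hq z).1
      have h6 : (((key q).2 z : ℕ) : ℝ) ≤ 2 * R := by exact_mod_cast h6'
      show ((key q).2 z : ℝ) * 2 ^ (key q).1 / R ≤ _
      rw [div_le_iff₀ hR']
      have h7 := mul_le_mul_of_nonneg_right h6 (show (0 : ℝ) ≤ 2 ^ (key q).1 by positivity)
      linarith
    refine h5.trans ((sum_le_sum_of_subset_of_nonneg hsub fun _ _ _ => by positivity).trans ?_)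
    rw [sum_product]
    simp only [sum_const, Fintype.card_piFinset, card_range, prod_const, card_univ, nsmul_eq_mul]
    rw [← mul_sum]
    push_cast
    have h8 := (classes_geom (Nat.log 2 ⌊b⌋₊)).trans (mul_le_mul_of_nonneg_left hJ (by norm_num))
    have h9 := mul_le_mul_of_nonneg_left h8
      (show (0 : ℝ) ≤ (2 * (R : ℝ) + 1) ^ Fintype.card Z by positivity)
    linarith
  have h5 := mul_le_mul_of_nonneg_left h2 hx
  linarith

theorem classes_filter {α β : Type} [DecidableEq β] {s : Finset α} {t : Finset β} {f : α → β}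
    (hi : Set.InjOn f s) (hm : ∀ x ∈ s, f x ∈ t) (hc : t.card ≤ s.card) (P : β → Prop)
    [DecidablePred P] : (s.filter fun x => P (f x)).card = (t.filter P).card := by
  have h1 : s.image f = t := eq_of_subset_of_card_le (image_subset_iff.2 hm)
    (by rwa [card_image_of_injOn hi])
  rw [← h1, filter_image, card_image_of_injOn (hi.mono (coe_subset.2 (filter_subset _ _)))]

theorem classes_rot {N : ℕ} (m : ℕ) (P : ℕ → Prop) [DecidablePred P] :
    ((range N).filter fun o => P ((m + o) % N)).card = ((range N).filter P).card := by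
  refine classes_filter (f := fun o => (m + o) % N) (fun x hx y hy h => ?_) (fun x hx => ?_) le_rfl P
  · exact Nat.ModEq.eq_of_lt_of_lt (Nat.ModEq.add_left_cancel' m h) (mem_range.1 (mem_coe.1 hx))
      (mem_range.1 (mem_coe.1 hy))
  · exact mem_range.2 (Nat.mod_lt _ (by have := mem_range.1 hx; omega))

theorem classes_enum {ι : Type} [DecidableEq ι] (s : Finset ι) :
    ∃ e : ι → ℕ, Set.InjOn e s ∧ ∀ x ∈ s, e x ∈ range s.card := by
  refine ⟨fun x => if h : x ∈ s then (s.equivFin ⟨x, h⟩ : ℕ) else 0, fun x hx y hy h => ?_,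
    fun x hx => ?_⟩
  · have hx' : x ∈ s := hx
    have hy' : y ∈ s := hy
    simp only [dif_pos hx', dif_pos hy'] at h
    exact congrArg Subtype.val (s.equivFin.injective (Fin.ext h))
  · simp only [dif_pos hx]
    exact mem_range.2 (s.equivFin ⟨x, hx⟩).2

theorem classes_col {τ : Type} [DecidableEq τ] [Fintype τ] (N : ℕ) (L : τ → ℕ) :
    ∃ t : ℕ → Option τ, ∑ c, L c ≤ N → ∀ c, ((range N).filter fun i => t i = some c).card = L c := by
  by_cases h : ∑ c, L c ≤ N
  · obtain ⟨t, -, ht⟩ := exists_fib (range N) (univ : Finset (Option τ))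
      (fun o => o.elim (N - ∑ c, L c) L) (by
        rw [Fintype.sum_option, card_range]
        simp only [Option.elim]
        omega)
    exact ⟨t, fun _ c => ht (some c) (mem_univ _)⟩
  · exact ⟨fun _ => none, fun h' => absurd h' h⟩

/-- Proof idea. For `a` number `F a` by a bijection `ea : F a ≃ ZMod N` (or `Fin N`), `N = #(F a)`, and fix disjoint sets `T a c` of numbers of sizes `L a c` (`exists_fib` with values in `Option τ`). The option `o < N` gives
`F' a c = {r | ea r + o ∈ T a c}`; a fixed `r ∈ F a` lies in `F' a c` for exactly `L a c` options. `potential` with `J = Hs ×ˢ univ`, `p a (r, c) = L a c / g`. -/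
theorem rootsA {A ι τ : Type} [DecidableEq A] [DecidableEq ι] [DecidableEq τ] [Fintype τ]
    (Ac : Finset A) (Hs : Finset ι) (F : A → Finset ι) (L : A → τ → ℕ) (g β : ℝ) (hg : 0 < g)
    (hβ : 0 < β) (hF : ∀ a ∈ Ac, F a ⊆ Hs ∧ g ≤ (F a).card ∧ ∑ c, L a c ≤ (F a).card) :
    ∃ F' : A → τ → Finset ι, (∀ a ∈ Ac, ∀ c, F' a c ⊆ F a ∧ (F' a c).card = L a c) ∧
      (∀ a ∈ Ac, ∀ c c', c ≠ c' → Disjoint (F' a c) (F' a c')) ∧
      ∀ r ∈ Hs, ∀ c, ((Ac.filter fun a => r ∈ F' a c).card : ℝ) ≤ (1 + β) *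
        (((∑ a ∈ Ac, L a c : ℕ) : ℝ) / g + Real.log ((Hs.card : ℝ) * Fintype.card τ) / β) := by
  choose e he using fun a => classes_enum (F a)
  choose t ht using fun a => classes_col (F a).card (L a)
  have hN : ∀ a ∈ Ac, 0 < (F a).card := fun a ha => by
    have := hg.trans_le (hF a ha).2.1
    exact_mod_cast this
  obtain ⟨o, ho, hb⟩ := potential Ac (fun a => range (F a).card) (Hs ×ˢ (univ : Finset τ))
    (fun a o j => j.1 ∈ F a ∧ t a ((e a j.1 + o) % (F a).card) = some j.2)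
    (fun a j => (L a j.2 : ℝ) / g) β hβ (fun a ha => nonempty_range_iff.2 (hN a ha).ne') (by
      intro a ha j _
      have h1 : ((range (F a).card).filter fun o =>
          j.1 ∈ F a ∧ t a ((e a j.1 + o) % (F a).card) = some j.2).card ≤ L a j.2 := by
        rw [← ht a (hF a ha).2.2 j.2, ← classes_rot (e a j.1) fun i => t a i = some j.2]
        exact card_le_card fun o h => mem_filter.2 ⟨(mem_filter.1 h).1, (mem_filter.1 h).2.2⟩
      refine ((Nat.cast_le (α := ℝ)).2 h1).trans ?_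
      rw [card_range, div_mul_eq_mul_div, le_div_iff₀ hg]
      exact mul_le_mul_of_nonneg_left (hF a ha).2.1 (Nat.cast_nonneg _))
  refine ⟨fun a c => (F a).filter fun r => t a ((e a r + o a) % (F a).card) = some c,
    fun a ha c => ⟨filter_subset _ _, ?_⟩, fun a _ c c' hc => ?_, fun r hr c => ?_⟩
  · rw [← ht a (hF a ha).2.2 c, ← classes_rot (o a) fun i => t a i = some c,
      ← classes_filter (he a).1 (he a).2 (card_range _).le]
    simp only [add_comm]
  · refine disjoint_left.2 fun r h1 h2 => hc ?_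
    exact Option.some.inj ((mem_filter.1 h1).2.symm.trans (mem_filter.1 h2).2)
  · have h1 := hb (r, c) (mem_product.2 ⟨hr, mem_univ _⟩)
    rw [card_product, card_univ, ← sum_div] at h1
    simp only [mem_filter]
    push_cast at h1 ⊢
    exact h1

end Pool.Agent.MP_4c107d_co.H78

end
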