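import Mathlib
import Pool.Agent.MP_1376f1_pr.Mg.Round

-- part MP_4c107d_co.H78.A
section

section

/-!
Linear upper bound for packing balanced trees: common definitions.
A tree is a set `E` of pairs `(x, y)`; the `x` go to columns, the `y` go to rows; the rows are named
by the trees of the family themselves.
-/

set_option autoImplicit false
set_option linter.unusedSectionVars false

namespace Pool.Agent.MP_4c107d_co.H78

open Finset

/-- fibre of `f` over `b` inside `S` -/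
def fib {α β : Type} [DecidableEq β] (S : Finset α) (f : α → β) (b : β) : Finset α :=
  S.filter fun a => f a = b

theorem mem_fib {α β : Type} [DecidableEq β] {S : Finset α} {f : α → β} {b : β} {a : α} :
    a ∈ fib S f b ↔ a ∈ S ∧ f a = b := mem_filter

theorem fib_subset {α β : Type} [DecidableEq β] (S : Finset α) (f : α → β) (b : β) :
    fib S f b ⊆ S := filter_subset _ _

abbrev Gr (n : ℕ) : Type := Finset (Fin n × Fin n)
abbrev It (ι : Type) (n : ℕ) : Type := ι × Fin n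

section Tree
variable {n : ℕ}

def nX (E : Gr n) (x : Fin n) : Finset (Fin n) := univ.filter fun y => (x, y) ∈ E
def nY (E : Gr n) (y : Fin n) : Finset (Fin n) := univ.filter fun x => (x, y) ∈ E
def dX (E : Gr n) (x : Fin n) : ℕ := (nX E x).card
def dY (E : Gr n) (y : Fin n) : ℕ := (nY E y).card
/-- leaves in the column class -/
def lvX (E : Gr n) : Finset (Fin n) := univ.filter fun x => dX E x = 1
/-- leaves in the row class -/
def lvY (E : Gr n) : Finset (Fin n) := univ.filter fun y => dY E y = 1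

theorem mem_nX {E : Gr n} {x y : Fin n} : y ∈ nX E x ↔ (x, y) ∈ E := by simp [nX]
theorem mem_nY {E : Gr n} {x y : Fin n} : x ∈ nY E y ↔ (x, y) ∈ E := by simp [nY]

/-- a rooting: parent maps and ranks; the root is a column vertex -/
structure RT (n : ℕ) where
  root : Fin n
  pX : Fin n → Fin n
  pY : Fin n → Fin n
  rX : Fin n → ℕ
  rY : Fin n → ℕ

structure RT.Good (T : RT n) (E : Gr n) : Prop where
  hX : ∀ x, x ≠ T.root → T.rY (T.pX x) < T.rX x
  hY : ∀ y, T.rX (T.pY y) < T.rY y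
  adj : ∀ x y, (x, y) ∈ E ↔ (x ≠ T.root ∧ T.pX x = y) ∨ T.pY y = x

/-- `E` is a tree: it can be rooted at every column vertex -/
def Tr (E : Gr n) : Prop := ∀ x, ∃ T : RT n, T.Good E ∧ T.root = x

/-- children of a column vertex -/
def RT.cX (T : RT n) (x : Fin n) : Finset (Fin n) := univ.filter fun y => T.pY y = x
/-- children of a row vertex -/
def RT.cY (T : RT n) (y : Fin n) : Finset (Fin n) := univ.filter fun x => x ≠ T.root ∧ T.pX x = y

theorem RT.mem_cX {T : RT n} {x y : Fin n} : y ∈ T.cX x ↔ T.pY y = x := by simp [RT.cX]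
theorem RT.mem_cY {T : RT n} {x y : Fin n} : x ∈ T.cY y ↔ x ≠ T.root ∧ T.pX x = y := by
  simp [RT.cY]

end Tree

section Family
variable {ι A : Type} {n : ℕ} [DecidableEq ι] [DecidableEq A]

def adj (E : ι → Gr n) (p q : It ι n) : Prop := p.1 = q.1 ∧ (p.2, q.2) ∈ E p.1

instance (E : ι → Gr n) (p q : It ι n) : Decidable (adj E p q) :=
  inferInstanceAs (Decidable (p.1 = q.1 ∧ (p.2, q.2) ∈ E p.1))

/-- a valid embedding of the column vertices in `DX` and the row vertices in `DY` -/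
structure Ok (E : ι → Gr n) (DX DY : Finset (It ι n)) (σ : It ι n → A) (ψ : It ι n → ι) :
    Prop where
  injX : ∀ p ∈ DX, ∀ p' ∈ DX, p.1 = p'.1 → σ p = σ p' → p = p'
  injY : ∀ q ∈ DY, ∀ q' ∈ DY, q.1 = q'.1 → ψ q = ψ q' → q = q'
  cell : ∀ p ∈ DX, ∀ q ∈ DY, ∀ p' ∈ DX, ∀ q' ∈ DY, adj E p q → adj E p' q' → σ p = σ p' →
    ψ q = ψ q' → p = p'

/-- all vertices of one class of the trees in `I` -/
def full (n : ℕ) (I : Finset ι) : Finset (It ι n) := I ×ˢ univ

theorem mem_full {I : Finset ι} {p : It ι n} : p ∈ full n I ↔ p.1 ∈ I := by simp [full]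

/-- the items of the trees in `R` that belong to the sets `F i` -/
def its (R : Finset ι) (F : ι → Finset (Fin n)) : Finset (It ι n) :=
  (full n R).filter fun p => p.2 ∈ F p.1

theorem mem_its {R : Finset ι} {F : ι → Finset (Fin n)} {p : It ι n} :
    p ∈ its R F ↔ p.1 ∈ R ∧ p.2 ∈ F p.1 := by simp [its, mem_full]

/-- the trees of `I` pack into the grid with columns `A` and rows `I` -/
def Pack (A : Type) (E : ι → Gr n) (I : Finset ι) : Prop :=
  ∃ (σ : It ι n → A) (ψ : It ι n → ι), Ok E (full n I) (full n I) σ ψ ∧ ∀ q ∈ full n I, ψ q ∈ I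

/-- total degree of the vertices of `D` placed in column `a` -/
def colL (E : ι → Gr n) (D : Finset (It ι n)) (σ : It ι n → A) (a : A) : ℕ :=
  ∑ p ∈ fib D σ a, dX (E p.1) p.2

/-- total degree of the vertices of `D` placed in row `r` -/
def rowL (E : ι → Gr n) (D : Finset (It ι n)) (ψ : It ι n → ι) (r : ι) : ℕ :=
  ∑ q ∈ fib D ψ r, dY (E q.1) q.2

/-- the cell `(a, r)` is occupied -/
def occ (E : ι → Gr n) (DX DY : Finset (It ι n)) (σ : It ι n → A) (ψ : It ι n → ι) (a : A)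
    (r : ι) : Prop :=
  ∃ p ∈ DX, ∃ q ∈ DY, adj E p q ∧ σ p = a ∧ ψ q = r

instance (E : ι → Gr n) (DX DY : Finset (It ι n)) (σ : It ι n → A) (ψ : It ι n → ι) (a : A)
    (r : ι) : Decidable (occ E DX DY σ ψ a r) :=
  inferInstanceAs (Decidable (∃ p ∈ DX, ∃ q ∈ DY, adj E p q ∧ σ p = a ∧ ψ q = r))

/-- the occupied columns of row `r` -/
def holes [Fintype A] (E : ι → Gr n) (DX DY : Finset (It ι n)) (σ : It ι n → A)
    (ψ : It ι n → ι) (r : ι) : Finset A :=
  univ.filter fun a => occ E DX DY σ ψ a r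

theorem mem_holes [Fintype A] {E : ι → Gr n} {DX DY : Finset (It ι n)} {σ : It ι n → A}
    {ψ : It ι n → ι} {r : ι} {a : A} : a ∈ holes E DX DY σ ψ r ↔ occ E DX DY σ ψ a r := by
  simp [holes]

/-- the row vertices that are not fillers: guests `Gs`, and non-leaves of the hosts `Hs` -/
def nf (E : ι → Gr n) (Hs Gs : Finset ι) : Finset (It ι n) :=
  full n Gs ∪ (full n Hs).filter fun q => dY (E q.1) q.2 ≠ 1

/-- number of leaves hanging at vertices of `D` placed in column `a` -/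
def filL (E : ι → Gr n) (D : Finset (It ι n)) (σ : It ι n → A) (a : A) : ℕ :=
  ∑ p ∈ fib D σ a, ((nX (E p.1) p.2).filter fun y => dY (E p.1) y = 1).card

end Family

end Pool.Agent.MP_4c107d_co.H78

end

section

/-!
Elementary facts on rooted trees.
Hints. `notboth`: compare ranks. `nX_eq`, `nY_eq`: `ext`, `RT.Good.adj`. `card_E`: `E` is the disjoint
union of the images of `univ.erase root` under `x ↦ (x, pX x)` and of `univ` under `y ↦ (pY y, y)`.
`sum_dX`, `sum_dY`: `card_eq_sum_card_fiberwise`. `exists_lvX`: otherwise the degree sum is at least `2n`.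
`sum_branch`: `∑ (deg - 2) = -2` over all `2n` vertices, and `deg ≤ 3 (deg - 2)` for `deg ≥ 3`.
`sum_dY_le`: an edge at `y ∈ P` is the parent edge of `y` or the parent edge of a column vertex.

-/

set_option autoImplicit false
set_option linter.unusedSectionVars false

namespace Pool.Agent.MP_4c107d_co.H78

open Finset

section Tree
variable {n : ℕ} {E : Gr n} {T : RT n}

theorem RT.Good.notboth (h : T.Good E) {x y : Fin n} (h1 : x ≠ T.root) (h2 : T.pX x = y) :
    T.pY y ≠ x := fun h3 => by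
  have a := h.hX x h1
  have b := h.hY y
  rw [h2] at a
  rw [h3] at b
  omega
theorem RT.Good.pY_mem (h : T.Good E) (y : Fin n) : (T.pY y, y) ∈ E := (h.adj _ _).2 (Or.inr rfl)
theorem RT.Good.pX_mem (h : T.Good E) {x : Fin n} (hx : x ≠ T.root) : (x, T.pX x) ∈ E :=
  (h.adj _ _).2 (Or.inl ⟨hx, rfl⟩)
theorem RT.Good.nY_eq (h : T.Good E) (y : Fin n) : nY E y = insert (T.pY y) (T.cY y) := by
  ext x
  rw [mem_nY, h.adj, mem_insert, RT.mem_cY, or_comm, eq_comm (a := x)]
theorem RT.Good.nX_eq (h : T.Good E) {x : Fin n} (hx : x ≠ T.root) :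
    nX E x = insert (T.pX x) (T.cX x) := by
  ext y
  rw [mem_nX, h.adj, mem_insert, RT.mem_cX, eq_comm (a := y)]
  simp [hx]
theorem RT.Good.nX_root (h : T.Good E) : nX E T.root = T.cX T.root := by
  ext y
  rw [mem_nX, h.adj, RT.mem_cX]
  simp
theorem RT.Good.dY_eq (h : T.Good E) (y : Fin n) : dY E y = (T.cY y).card + 1 := by
  rw [dY, h.nY_eq, card_insert_of_notMem]
  exact fun hc => h.notboth (RT.mem_cY.1 hc).1 (RT.mem_cY.1 hc).2 rfl
theorem RT.Good.dX_eq (h : T.Good E) {x : Fin n} (hx : x ≠ T.root) :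
    dX E x = (T.cX x).card + 1 := by
  rw [dX, h.nX_eq hx, card_insert_of_notMem]
  exact fun hc => h.notboth hx rfl (RT.mem_cX.1 hc)
/-- an edge whose row end has the smaller rank is the parent edge of the column end -/
theorem RT.Good.of_rY_le (h : T.Good E) {x y : Fin n} (he : (x, y) ∈ E) (hr : T.rY y ≤ T.rX x) :
    x ≠ T.root ∧ T.pX x = y := by
  refine ((h.adj x y).1 he).resolve_right fun hc => ?_
  have b := h.hY y
  rw [hc] at b
  omega
theorem RT.Good.of_rX_le (h : T.Good E) {x y : Fin n} (he : (x, y) ∈ E) (hr : T.rX x ≤ T.rY y) :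
    T.pY y = x := by
  refine ((h.adj x y).1 he).resolve_left fun hc => ?_
  have a := h.hX x hc.1
  rw [hc.2] at a
  omega

theorem treeA_sum_dY (E : Gr n) : ∑ y, dY E y = E.card := by
  rw [card_eq_sum_card_fiberwise (f := Prod.snd) (t := univ) fun _ _ => mem_univ _]
  refine sum_congr rfl fun y _ => card_bij (fun x _ => (x, y)) (fun x hx => ?_)
    (fun _ _ _ _ e => (Prod.ext_iff.1 e).1) fun p hp => ?_
  · exact mem_filter.2 ⟨mem_nY.1 hx, rfl⟩
  · obtain ⟨h1, rfl⟩ := mem_filter.1 hp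
    exact ⟨p.1, mem_nY.2 h1, rfl⟩

theorem treeA_sum_cY (T : RT n) : ∑ y, (T.cY y).card + 1 = n := by
  have h1 := card_eq_sum_card_fiberwise (s := univ.erase T.root) (f := T.pX) (t := univ)
    fun _ _ => mem_univ _
  have h2 := card_erase_add_one (mem_univ T.root)
  rw [card_univ, Fintype.card_fin, h1] at h2
  refine Eq.trans ?_ h2
  congr 1
  exact sum_congr rfl fun y _ => congrArg card (by ext x; simp [RT.mem_cY])

theorem RT.Good.card_E (h : T.Good E) : E.card + 1 = 2 * n := by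
  have h1 := treeA_sum_cY T
  rw [← treeA_sum_dY, sum_congr rfl fun y _ => h.dY_eq y, sum_add_distrib]
  simp only [sum_const, card_univ, Fintype.card_fin, smul_eq_mul, mul_one]
  omega

theorem dX_le (E : Gr n) (x : Fin n) : dX E x ≤ n := (card_le_univ _).trans (Fintype.card_fin n).le
theorem dY_le (E : Gr n) (y : Fin n) : dY E y ≤ n := (card_le_univ _).trans (Fintype.card_fin n).le
theorem sum_dX_eq (E : Gr n) : ∑ x, dX E x = E.card := by
  rw [card_eq_sum_card_fiberwise (f := Prod.fst) (t := univ) fun _ _ => mem_univ _]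
  refine sum_congr rfl fun x _ => card_bij (fun y _ => (x, y)) (fun y hy => ?_)
    (fun _ _ _ _ e => (Prod.ext_iff.1 e).2) fun p hp => ?_
  · exact mem_filter.2 ⟨mem_nX.1 hy, rfl⟩
  · obtain ⟨h1, rfl⟩ := mem_filter.1 hp
    exact ⟨p.2, mem_nX.2 h1, rfl⟩
theorem sum_dY_eq (E : Gr n) : ∑ y, dY E y = E.card := treeA_sum_dY E
theorem Tr.sum_dX (h : Tr E) (hn : 0 < n) : ∑ x, dX E x + 1 = 2 * n := by
  obtain ⟨T, hT, -⟩ := h ⟨0, hn⟩
  rw [sum_dX_eq, hT.card_E]
theorem Tr.sum_dY (h : Tr E) (hn : 0 < n) : ∑ y, dY E y + 1 = 2 * n := by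
  obtain ⟨T, hT, -⟩ := h ⟨0, hn⟩
  rw [sum_dY_eq, hT.card_E]
theorem Tr.dY_pos (h : Tr E) (y : Fin n) : 1 ≤ dY E y := by
  obtain ⟨T, hT, -⟩ := h y
  rw [hT.dY_eq]
  omega
/-- Hint: root at another vertex if `n ≥ 2`; for `n = 1` use the parent of the only row vertex. -/
theorem Tr.dX_pos (h : Tr E) (x : Fin n) : 1 ≤ dX E x := by
  by_cases hx : ∃ x', x ≠ x'
  · obtain ⟨x', hx'⟩ := hx
    obtain ⟨T, hT, rfl⟩ := h x'
    rw [hT.dX_eq hx']
    omega
  · obtain ⟨T, hT, -⟩ := h x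
    have h1 := hT.pY_mem x
    have h2 : x = T.pY x := by
      by_contra hc
      exact hx ⟨_, hc⟩
    rw [← h2] at h1
    exact card_pos.2 ⟨x, mem_nX.2 h1⟩
theorem Tr.exists_lvX (h : Tr E) (hn : 0 < n) : ∃ x, dX E x = 1 := by
  by_contra hc
  have h1 := h.sum_dX hn
  have h2 := card_nsmul_le_sum univ (fun x => dX E x) 2 fun x _ => by
    have := h.dX_pos x
    have : dX E x ≠ 1 := fun e => hc ⟨x, e⟩
    omega
  simp only [card_univ, Fintype.card_fin, smul_eq_mul] at h2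
  omega
theorem Tr.exists_lvY (h : Tr E) (hn : 0 < n) : ∃ y, dY E y = 1 := by
  by_contra hc
  have h1 := h.sum_dY hn
  have h2 := card_nsmul_le_sum univ (fun y => dY E y) 2 fun y _ => by
    have := h.dY_pos y
    have : dY E y ≠ 1 := fun e => hc ⟨y, e⟩
    omega
  simp only [card_univ, Fintype.card_fin, smul_eq_mul] at h2
  omega
theorem Tr.exists_big (h : Tr E) (hn : 2 ≤ n) : ∃ x, 2 ≤ dX E x := by
  by_contra hc
  have h1 := h.sum_dX (by omega)
  have h2 := sum_le_card_nsmul univ (fun x => dX E x) 1 fun x _ => by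
    have : ¬ 2 ≤ dX E x := fun e => hc ⟨x, e⟩
    omega
  simp only [card_univ, Fintype.card_fin, smul_eq_mul] at h2
  omega
/-- at least a quarter of the column vertices have degree one, or a quarter have degree two -/
theorem Tr.quarter (h : Tr E) (hn : 0 < n) :
    ∃ d, (d = 1 ∨ d = 2) ∧ n ≤ 4 * (univ.filter fun x => dX E x = d).card := by
  have h1 := h.sum_dX hn
  have h2 := card_nsmul_le_sum univ
    (fun x => dX E x + 2 * (if dX E x = 1 then 1 else 0) + if dX E x = 2 then 1 else 0) 3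
    fun x _ => by
      have := h.dX_pos x
      split_ifs <;> omega
  rw [sum_add_distrib, sum_add_distrib, ← mul_sum, ← card_filter, ← card_filter] at h2
  simp only [card_univ, Fintype.card_fin, smul_eq_mul] at h2
  by_cases h3 : n ≤ 4 * (univ.filter fun x => dX E x = 1).card
  · exact ⟨1, Or.inl rfl, h3⟩
  · exact ⟨2, Or.inr rfl, by omega⟩

theorem treeA_branch (d : Fin n → ℕ) (hd : ∀ x, 1 ≤ d x) :
    ∑ x ∈ univ.filter (fun x => d x ≠ 2), d x + 6 * n ≤
      3 * ∑ x, d x + 4 * (univ.filter fun x => d x = 1).card := by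
  have h1 : ∑ x, ((if d x ≠ 2 then d x else 0) + 6) ≤
      ∑ x, (3 * d x + 4 * if d x = 1 then 1 else 0) :=
    sum_le_sum fun x _ => by
      have := hd x
      split_ifs <;> omega
  rw [sum_add_distrib, sum_add_distrib, ← mul_sum, ← mul_sum, ← card_filter, ← sum_filter] at h1
  simp only [sum_const, card_univ, Fintype.card_fin, smul_eq_mul] at h1
  omega

theorem Tr.sum_branch (h : Tr E) (hn : 0 < n) :
    ∑ x ∈ univ.filter (fun x => dX E x ≠ 2), dX E x + ∑ y ∈ univ.filter (fun y => dY E y ≠ 2), dY E y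
      ≤ 4 * ((lvX E).card + (lvY E).card) := by
  have h1 := treeA_branch (dX E) h.dX_pos
  have h2 := treeA_branch (dY E) h.dY_pos
  have h3 := h.sum_dX hn
  have h4 := h.sum_dY hn
  unfold lvX lvY
  omega
theorem Tr.sum_dY_le (h : Tr E) (hn : 0 < n) (P : Finset (Fin n)) :
    ∑ y ∈ P, dY E y ≤ n + P.card := by
  obtain ⟨T, hT, -⟩ := h ⟨0, hn⟩
  have h1 := treeA_sum_cY T
  have h2 : ∑ y ∈ P, (T.cY y).card ≤ ∑ y, (T.cY y).card := sum_le_sum_of_subset (subset_univ P)
  rw [sum_congr rfl fun y _ => hT.dY_eq y, sum_add_distrib]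
  simp only [sum_const, smul_eq_mul, mul_one]
  omega
/-- no four-cycles. Proof idea: consider a vertex of the largest rank among the four: both of its edges are its parent edge. -/
theorem RT.Good.common (h : T.Good E) {x x' y y' : Fin n} (h1 : (x, y) ∈ E) (h2 : (x', y) ∈ E)
    (h3 : (x, y') ∈ E) (h4 : (x', y') ∈ E) : x = x' ∨ y = y' := by
  have h0 : (T.rY y ≤ T.rX x ∧ T.rY y' ≤ T.rX x) ∨ (T.rY y ≤ T.rX x' ∧ T.rY y' ≤ T.rX x') ∨
      (T.rX x ≤ T.rY y ∧ T.rX x' ≤ T.rY y) ∨ (T.rX x ≤ T.rY y' ∧ T.rX x' ≤ T.rY y') := by omega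
  rcases h0 with a | a | a | a
  · exact Or.inr ((h.of_rY_le h1 a.1).2.symm.trans (h.of_rY_le h3 a.2).2)
  · exact Or.inr ((h.of_rY_le h2 a.1).2.symm.trans (h.of_rY_le h4 a.2).2)
  · exact Or.inl ((h.of_rX_le h1 a.1).symm.trans (h.of_rX_le h2 a.2))
  · exact Or.inl ((h.of_rX_le h3 a.1).symm.trans (h.of_rX_le h4 a.2))
/-- a row vertex outside `P` has at most `#P` neighbours that are adjacent to `P` -/
theorem RT.Good.card_nbr_le (h : T.Good E) (P : Finset (Fin n)) {y : Fin n} (hy : y ∉ P) :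
    ((nY E y).filter fun x => ∃ y' ∈ P, (x, y') ∈ E).card ≤ P.card := by
  refine card_le_card_of_forall_subsingleton (fun x y' => (x, y') ∈ E)
    (fun x hx => (mem_filter.1 hx).2) fun y' hy' x hx x' hx' => ?_
  exact (h.common (mem_nY.1 (mem_filter.1 hx.1).1) (mem_nY.1 (mem_filter.1 hx'.1).1) hx.2
    hx'.2).resolve_right fun e => hy (e ▸ hy')
/-- few column vertices have two neighbours in `P`: one of them is a child -/
theorem RT.Good.card_two_le (h : T.Good E) (P : Finset (Fin n)) :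
    (univ.filter fun x => 2 ≤ ((nX E x).filter fun y => y ∈ P).card).card ≤ P.card := by
  refine card_le_card_of_forall_subsingleton (fun x y => T.pY y = x) (fun x hx => ?_)
    fun y _ x hx x' hx' => hx.2.symm.trans hx'.2
  obtain ⟨y, hy, y', hy', hne⟩ := one_lt_card.1 (mem_filter.1 hx).2
  rcases (h.adj x y).1 (mem_nX.1 (mem_filter.1 hy).1) with a | a
  · rcases (h.adj x y').1 (mem_nX.1 (mem_filter.1 hy').1) with b | b
    · exact absurd (a.2.symm.trans b.2) hne
    · exact ⟨y', (mem_filter.1 hy').2, b⟩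
  · exact ⟨y, (mem_filter.1 hy).2, a⟩

theorem treeA_heavy (d : Fin n → ℕ) (hd : ∑ x, d x + 1 = 2 * n) (t : ℝ) :
    ((univ.filter fun x => t ≤ (d x : ℝ)).card : ℝ) * t ≤ 2 * n := by
  have h1 := card_nsmul_le_sum (univ.filter fun x => t ≤ (d x : ℝ)) (fun x => (d x : ℝ)) t
    fun x hx => (mem_filter.1 hx).2
  have h2 : ∑ x ∈ univ.filter (fun x => t ≤ (d x : ℝ)), (d x : ℝ) ≤ ∑ x, (d x : ℝ) :=
    sum_le_sum_of_subset_of_nonneg (subset_univ _) fun _ _ _ => Nat.cast_nonneg _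
  have h3 : ∑ x, (d x : ℝ) + 1 = 2 * n := by exact_mod_cast hd
  rw [nsmul_eq_mul] at h1
  linarith

/-- Markov: few row vertices have large degree -/
theorem Tr.card_heavyY (h : Tr E) (hn : 0 < n) {t : ℝ} (ht : 0 ≤ t) :
    ((univ.filter fun y => t ≤ (dY E y : ℝ)).card : ℝ) * t ≤ 2 * n :=
  treeA_heavy (dY E) (h.sum_dY hn) t
theorem Tr.card_heavyX (h : Tr E) (hn : 0 < n) {t : ℝ} (ht : 0 ≤ t) :
    ((univ.filter fun x => t ≤ (dX E x : ℝ)).card : ℝ) * t ≤ 2 * n :=
  treeA_heavy (dX E) (h.sum_dX hn) t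

end Tree

end Pool.Agent.MP_4c107d_co.H78

end

section

/-!
Elementary facts on valid embeddings.
Hints. `card_occ_col`: the edges between the vertices of `DX` in column `a` and `DY` inject into the rows (`Ok.cell`,
`Ok.injY`).
-/

set_option autoImplicit false
set_option linter.unusedSectionVars false

namespace Pool.Agent.MP_4c107d_co.H78

open Finset

section Family
variable {ι A : Type} {n : ℕ} [DecidableEq ι] [DecidableEq A] {E : ι → Gr n}
  {DX DY DX' DY' : Finset (It ι n)} {σ σ' : It ι n → A} {ψ ψ' : It ι n → ι}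

theorem card_full (I : Finset ι) : (full n I).card = I.card * n := by
  simp [full, card_product]

theorem card_owner_le (D : Finset (It ι n)) (i : ι) : (D.filter fun p => p.1 = i).card ≤ n := by
  refine (card_le_card_of_injOn (t := (univ : Finset (Fin n))) (fun p => p.2) (by simp) ?_).trans
    (by simp)
  intro p hp p' hp' e
  exact Prod.ext ((mem_filter.1 hp).2.trans (mem_filter.1 hp').2.symm) e

theorem card_adjX_le (D : Finset (It ι n)) (p : It ι n) :
    (D.filter fun q => adj E p q).card ≤ dX (E p.1) p.2 := by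
  refine card_le_card_of_injOn (fun q => q.2) (fun q hq => ?_) fun q hq q' hq' e => ?_
  · exact mem_coe.2 (mem_nX.2 (mem_filter.1 hq).2.2)
  · exact Prod.ext ((mem_filter.1 hq).2.1.symm.trans (mem_filter.1 hq').2.1) e

theorem card_adjY_le (D : Finset (It ι n)) (q : It ι n) :
    (D.filter fun p => adj E p q).card ≤ dY (E q.1) q.2 := by
  refine card_le_card_of_injOn (fun p => p.2) (fun p hp => ?_) fun p hp p' hp' e => ?_
  · exact mem_coe.2 (mem_nY.2 ((mem_filter.1 hp).2.1 ▸ (mem_filter.1 hp).2.2))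
  · exact Prod.ext ((mem_filter.1 hp).2.1.trans (mem_filter.1 hp').2.1.symm) e

theorem card_adjX_full {I : Finset ι} {p : It ι n} (hp : p.1 ∈ I) :
    ((full n I).filter fun q => adj E p q).card = dX (E p.1) p.2 := by
  refine (card_adjX_le _ p).antisymm
    (card_le_card_of_injOn (fun y => (p.1, y)) (fun y hy => ?_) fun y _ y' _ e => (Prod.ext_iff.1 e).2)
  exact mem_coe.2 (mem_filter.2 ⟨mem_full.2 hp, rfl, mem_nX.1 hy⟩)

theorem card_adjY_full {I : Finset ι} {q : It ι n} (hq : q.1 ∈ I) :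
    ((full n I).filter fun p => adj E p q).card = dY (E q.1) q.2 := by
  refine (card_adjY_le _ q).antisymm
    (card_le_card_of_injOn (fun x => (q.1, x)) (fun x hx => ?_) fun x _ x' _ e => (Prod.ext_iff.1 e).2)
  exact mem_coe.2 (mem_filter.2 ⟨mem_full.2 hq, rfl, mem_nY.1 hx⟩)

theorem sum_full {M : Type} [AddCommMonoid M] (I : Finset ι) (f : It ι n → M) :
    ∑ p ∈ full n I, f p = ∑ i ∈ I, ∑ x, f (i, x) := sum_product _ _ _

theorem its_subset (R : Finset ι) (F : ι → Finset (Fin n)) : its R F ⊆ full n R := filter_subset _ _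

theorem sum_its {M : Type} [AddCommMonoid M] (R : Finset ι) (F : ι → Finset (Fin n))
    (f : It ι n → M) : ∑ p ∈ its R F, f p = ∑ i ∈ R, ∑ x ∈ F i, f (i, x) := by
  rw [its, sum_filter, sum_full]
  refine sum_congr rfl fun i _ => ?_
  rw [← sum_filter]
  simp

theorem card_its (R : Finset ι) (F : ι → Finset (Fin n)) :
    (its R F).card = ∑ i ∈ R, (F i).card := by
  rw [card_eq_sum_ones, sum_its]
  simp

theorem card_its_owner_le (R : Finset ι) (F : ι → Finset (Fin n)) (i : ι) :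
    ((its R F).filter fun p => p.1 = i).card ≤ (F i).card := by
  refine card_le_card_of_injOn (fun p => p.2) (fun p hp => ?_) fun p hp p' hp' e => ?_
  · exact mem_coe.2 ((mem_filter.1 hp).2 ▸ (mem_its.1 (mem_filter.1 hp).1).2)
  · exact Prod.ext ((mem_filter.1 hp).2.trans (mem_filter.1 hp').2.symm) e

theorem Ok.mono (h : Ok E DX DY σ ψ) (hX : DX' ⊆ DX) (hY : DY' ⊆ DY) : Ok E DX' DY' σ ψ :=
  ⟨fun p hp p' hp' => h.injX p (hX hp) p' (hX hp'), fun q hq q' hq' => h.injY q (hY hq) q' (hY hq'),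
    fun p hp q hq p' hp' q' hq' => h.cell p (hX hp) q (hY hq) p' (hX hp') q' (hY hq')⟩

theorem Ok.congr (h : Ok E DX DY σ ψ) (hX : ∀ p ∈ DX, σ' p = σ p) (hY : ∀ q ∈ DY, ψ' q = ψ q) :
    Ok E DX DY σ' ψ' := by
  refine ⟨fun p hp p' hp' => ?_, fun q hq q' hq' => ?_, fun p hp q hq p' hp' q' hq' => ?_⟩
  · rw [hX p hp, hX p' hp']; exact h.injX p hp p' hp'
  · rw [hY q hq, hY q' hq']; exact h.injY q hq q' hq'
  · rw [hX p hp, hX p' hp', hY q hq, hY q' hq']; exact h.cell p hp q hq p' hp' q' hq'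

theorem Ok.map {A' : Type} [DecidableEq A'] (h : Ok E DX DY σ ψ) (f : A → A')
    (hf : Function.Injective f) : Ok E DX DY (fun p => f (σ p)) ψ :=
  ⟨fun p hp p' hp' e e' => h.injX p hp p' hp' e (hf e'), h.injY,
    fun p hp q hq p' hp' q' hq' a a' e => h.cell p hp q hq p' hp' q' hq' a a' (hf e)⟩

/-- two embeddings of disjoint families in disjoint sets of rows -/
theorem Ok.union (h : Ok E DX DY σ ψ) (h' : Ok E DX' DY' σ ψ) {I : Finset ι}
    (h1 : ∀ p ∈ DX, p.1 ∈ I) (h2 : ∀ q ∈ DY, q.1 ∈ I) (h3 : ∀ p ∈ DX', p.1 ∉ I)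
    (h4 : ∀ q ∈ DY', q.1 ∉ I) (h5 : ∀ q ∈ DY, ∀ q' ∈ DY', ψ q ≠ ψ q') :
    Ok E (DX ∪ DX') (DY ∪ DY') σ ψ := by
  refine ⟨fun p hp p' hp' e => ?_, fun q hq q' hq' e => ?_,
    fun p hp q hq p' hp' q' hq' a a' e e' => ?_⟩
  · rcases mem_union.1 hp with hp | hp <;> rcases mem_union.1 hp' with hp' | hp'
    · exact h.injX p hp p' hp' e
    · exact absurd (e ▸ h1 p hp) (h3 p' hp')
    · exact absurd (e ▸ h1 p' hp') (h3 p hp)
    · exact h'.injX p hp p' hp' e
  · rcases mem_union.1 hq with hq | hq <;> rcases mem_union.1 hq' with hq' | hq'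
    · exact h.injY q hq q' hq' e
    · exact absurd (e ▸ h2 q hq) (h4 q' hq')
    · exact absurd (e ▸ h2 q' hq') (h4 q hq)
    · exact h'.injY q hq q' hq' e
  · have k1 : ∀ p ∈ DX ∪ DX', ∀ q ∈ DY, adj E p q → p ∈ DX := fun p hp q hq a =>
      (mem_union.1 hp).resolve_right fun hp => h3 p hp (a.1 ▸ h2 q hq)
    have k2 : ∀ p ∈ DX ∪ DX', ∀ q ∈ DY', adj E p q → p ∈ DX' := fun p hp q hq a =>
      (mem_union.1 hp).resolve_left fun hp => h4 q hq (a.1 ▸ h1 p hp)
    rcases mem_union.1 hq with hq | hq <;> rcases mem_union.1 hq' with hq' | hq'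
    · exact h.cell p (k1 p hp q hq a) q hq p' (k1 p' hp' q' hq' a') q' hq' a a' e e'
    · exact absurd e' (h5 q hq q' hq')
    · exact absurd e'.symm (h5 q' hq' q hq)
    · exact h'.cell p (k2 p hp q hq a) q hq p' (k2 p' hp' q' hq' a') q' hq' a a' e e'

theorem occ_congr (hX : ∀ p ∈ DX, σ' p = σ p) (hY : ∀ q ∈ DY, ψ' q = ψ q) (a : A) (r : ι) :
    occ E DX DY σ' ψ' a r ↔ occ E DX DY σ ψ a r := by
  constructor
  · rintro ⟨p, hp, q, hq, a, e, e'⟩
    exact ⟨p, hp, q, hq, a, hX p hp ▸ e, hY q hq ▸ e'⟩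
  · rintro ⟨p, hp, q, hq, a, e, e'⟩
    exact ⟨p, hp, q, hq, a, (hX p hp).trans e, (hY q hq).trans e'⟩

theorem occ.mono {a : A} {r : ι} (h : occ E DX DY σ ψ a r) (hX : DX ⊆ DX') (hY : DY ⊆ DY') :
    occ E DX' DY' σ ψ a r := by
  obtain ⟨p, hp, q, hq, h⟩ := h
  exact ⟨p, hX hp, q, hY hq, h⟩

theorem fib_congr {α β : Type} [DecidableEq β] {S : Finset α} {f g : α → β}
    (h : ∀ a ∈ S, f a = g a) (b : β) : fib S f b = fib S g b :=
  filter_congr fun a ha => by rw [h a ha]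

theorem fib_union {α β : Type} [DecidableEq α] [DecidableEq β] (S S' : Finset α) (f : α → β)
    (b : β) : fib (S ∪ S') f b = fib S f b ∪ fib S' f b := filter_union _ _ _

theorem sum_fib {α β M : Type} [DecidableEq β] [AddCommMonoid M] (S : Finset α) (f : α → β)
    (B : Finset β) (hf : ∀ a ∈ S, f a ∈ B) (g : α → M) :
    ∑ b ∈ B, ∑ a ∈ fib S f b, g a = ∑ a ∈ S, g a := sum_fiberwise_of_maps_to hf g

theorem colL_union (hd : Disjoint DX DX') (a : A) :
    colL E (DX ∪ DX') σ a = colL E DX σ a + colL E DX' σ a := by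
  rw [colL, fib_union, sum_union (hd.mono (fib_subset _ _ _) (fib_subset _ _ _))]
  rfl

theorem colL_congr (hX : ∀ p ∈ DX, σ' p = σ p) (a : A) : colL E DX σ' a = colL E DX σ a := by
  rw [colL, fib_congr hX]
  rfl

theorem rowL_congr (hY : ∀ q ∈ DY, ψ' q = ψ q) (r : ι) : rowL E DY ψ' r = rowL E DY ψ r := by
  rw [rowL, fib_congr hY]
  rfl

theorem colL_mono (h : DX ⊆ DX') (a : A) : colL E DX σ a ≤ colL E DX' σ a :=
  sum_le_sum_of_subset (filter_subset_filter _ h)

theorem rowL_mono (h : DY ⊆ DY') (r : ι) : rowL E DY ψ r ≤ rowL E DY' ψ r :=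
  sum_le_sum_of_subset (filter_subset_filter _ h)

/-- a column contains at most one vertex of every tree -/
theorem Ok.card_fib_col_le (h : Ok E DX DY σ ψ) {D : Finset (It ι n)} (hD : D ⊆ DX) {I : Finset ι}
    (hI : ∀ p ∈ D, p.1 ∈ I) (a : A) : (fib D σ a).card ≤ I.card := by
  refine card_le_card_of_injOn (fun p => p.1) (fun p hp => hI p (mem_fib.1 hp).1)
    fun p hp p' hp' e => ?_
  exact h.injX p (hD (mem_fib.1 hp).1) p' (hD (mem_fib.1 hp').1) e
    ((mem_fib.1 hp).2.trans (mem_fib.1 hp').2.symm)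

theorem sum_colL [Fintype A] {I : Finset ι} (h : ∀ i ∈ I, Tr (E i)) (hn : 0 < n)
    (σ : It ι n → A) : ∑ a, colL E (full n I) σ a + I.card = I.card * (2 * n) := by
  unfold colL
  rw [sum_fib _ _ _ fun _ _ => mem_univ _, sum_full, card_eq_sum_ones I, ← sum_add_distrib, sum_mul]
  exact sum_congr rfl fun i hi => by rw [one_mul]; exact (h i hi).sum_dX hn

theorem card_occ_col_le (R : Finset ι) (a : A) :
    (R.filter fun r => occ E DX DY σ ψ a r).card
      ≤ ∑ p ∈ fib DX σ a, (DY.filter fun q => adj E p q).card := by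
  rw [← card_sigma]
  refine card_le_card_of_surjOn (fun x => ψ x.2) fun r hr => ?_
  obtain ⟨p, hp, q, hq, h1, h2, h3⟩ := (mem_filter.1 hr).2
  exact ⟨⟨p, q⟩, mem_coe.2 (mem_sigma.2 ⟨mem_fib.2 ⟨hp, h2⟩, mem_filter.2 ⟨hq, h1⟩⟩), h3⟩

theorem card_occ_row_le (C : Finset A) (r : ι) :
    (C.filter fun a => occ E DX DY σ ψ a r).card
      ≤ ∑ q ∈ fib DY ψ r, (DX.filter fun p => adj E p q).card := by
  rw [← card_sigma]
  refine card_le_card_of_surjOn (fun x => σ x.2) fun a ha => ?_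
  obtain ⟨p, hp, q, hq, h1, h2, h3⟩ := (mem_filter.1 ha).2
  exact ⟨⟨q, p⟩, mem_coe.2 (mem_sigma.2 ⟨mem_fib.2 ⟨hq, h3⟩, mem_filter.2 ⟨hp, h1⟩⟩), h2⟩

theorem card_occ_col_le' (R : Finset ι) (a : A) :
    (R.filter fun r => occ E DX DY σ ψ a r).card ≤ colL E DX σ a :=
  (card_occ_col_le R a).trans (sum_le_sum fun p _ => card_adjX_le _ p)

theorem card_occ_row_le' (C : Finset A) (r : ι) :
    (C.filter fun a => occ E DX DY σ ψ a r).card ≤ rowL E DY ψ r :=
  (card_occ_row_le C r).trans (sum_le_sum fun q _ => card_adjY_le _ q)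

theorem Ok.card_occ_col (h : Ok E DX DY σ ψ) {R : Finset ι} (hR : ∀ q ∈ DY, ψ q ∈ R) (a : A) :
    (R.filter fun r => occ E DX DY σ ψ a r).card
      = ∑ p ∈ fib DX σ a, (DY.filter fun q => adj E p q).card := by
  refine (card_occ_col_le R a).antisymm ?_
  rw [← card_sigma]
  refine card_le_card_of_injOn (fun x => ψ x.2) ?_ ?_
  · rintro ⟨p, q⟩ hx
    obtain ⟨h1, h2⟩ := mem_sigma.1 hx
    obtain ⟨hp, h1⟩ := mem_fib.1 h1
    obtain ⟨hq, h2⟩ := mem_filter.1 h2
    exact mem_coe.2 (mem_filter.2 ⟨hR q hq, p, hp, q, hq, h2, h1, rfl⟩)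
  · rintro ⟨p, q⟩ hx ⟨p', q'⟩ hx' e
    obtain ⟨h1, h2⟩ := mem_sigma.1 hx
    obtain ⟨hp, h1⟩ := mem_fib.1 h1
    obtain ⟨hq, h2⟩ := mem_filter.1 h2
    obtain ⟨h1', h2'⟩ := mem_sigma.1 hx'
    obtain ⟨hp', h1'⟩ := mem_fib.1 h1'
    obtain ⟨hq', h2'⟩ := mem_filter.1 h2'
    obtain rfl : p = p' := h.cell p hp q hq p' hp' q' hq' h2 h2' (h1.trans h1'.symm) e
    obtain rfl : q = q' := h.injY q hq q' hq' (h2.1.symm.trans h2'.1) e
    rfl

theorem Ok.card_holes [Fintype A] (h : Ok E DX DY σ ψ) (r : ι) :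
    (holes E DX DY σ ψ r).card = ∑ q ∈ fib DY ψ r, (DX.filter fun p => adj E p q).card := by
  refine (card_occ_row_le univ r).antisymm ?_
  rw [← card_sigma]
  refine card_le_card_of_injOn (fun x => σ x.2) ?_ ?_
  · rintro ⟨q, p⟩ hx
    obtain ⟨h1, h2⟩ := mem_sigma.1 hx
    obtain ⟨hq, h1⟩ := mem_fib.1 h1
    obtain ⟨hp, h2⟩ := mem_filter.1 h2
    exact mem_coe.2 (mem_holes.2 ⟨p, hp, q, hq, h2, rfl, h1⟩)
  · rintro ⟨q, p⟩ hx ⟨q', p'⟩ hx' e
    obtain ⟨h1, h2⟩ := mem_sigma.1 hx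
    obtain ⟨hq, h1⟩ := mem_fib.1 h1
    obtain ⟨hp, h2⟩ := mem_filter.1 h2
    obtain ⟨h1', h2'⟩ := mem_sigma.1 hx'
    obtain ⟨hq', h1'⟩ := mem_fib.1 h1'
    obtain ⟨hp', h2'⟩ := mem_filter.1 h2'
    obtain rfl : p = p' := h.cell p hp q hq p' hp' q' hq' h2 h2' e (h1.trans h1'.symm)
    obtain rfl : q = q' := h.injY q hq q' hq' (h2.1.symm.trans h2'.1) (h1.trans h1'.symm)
    rfl

theorem Pack.union {I I' : Finset ι} (h : Pack A E I) (h' : Pack A E I') (hd : Disjoint I I') :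
    Pack A E (I ∪ I') := by
  obtain ⟨σ, ψ, h, hr⟩ := h
  obtain ⟨σ', ψ', h', hr'⟩ := h'
  have hn : ∀ p ∈ full n I', p.1 ∉ I := fun p hp hI => disjoint_left.1 hd hI (mem_full.1 hp)
  have e1 : ∀ q ∈ full n I, (if q.1 ∈ I then ψ q else ψ' q) = ψ q := fun q hq =>
    if_pos (mem_full.1 hq)
  have e2 : ∀ q ∈ full n I', (if q.1 ∈ I then ψ q else ψ' q) = ψ' q := fun q hq => if_neg (hn q hq)
  have hu : full n (I ∪ I') = full n I ∪ full n I' := by
    ext p; simp only [mem_full, mem_union]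
  refine ⟨fun p => if p.1 ∈ I then σ p else σ' p, fun q => if q.1 ∈ I then ψ q else ψ' q, ?_, ?_⟩
  · rw [hu]
    refine Ok.union (I := I) (h.congr (fun p hp => if_pos (mem_full.1 hp)) e1)
      (h'.congr (fun p hp => if_neg (hn p hp)) e2) (fun p hp => mem_full.1 hp)
      (fun p hp => mem_full.1 hp) hn hn fun q hq q' hq' e => ?_
    rw [e1 q hq, e2 q' hq'] at e
    exact disjoint_left.1 hd (hr q hq) (e ▸ hr' q' hq')
  · rw [hu]
    intro q hq
    rcases mem_union.1 hq with hq | hq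
    · exact mem_union_left _ (Set.mem_of_eq_of_mem (e1 q hq) (hr q hq))
    · exact mem_union_right _ (Set.mem_of_eq_of_mem (e2 q hq) (hr' q hq))

theorem Pack.empty [Nonempty A] [Nonempty ι] : Pack A E ∅ := by
  have h : ∀ p : It ι n, p ∉ full n (∅ : Finset ι) := fun p hp => by simpa using mem_full.1 hp
  exact ⟨fun _ => Classical.arbitrary A, fun _ => Classical.arbitrary ι,
    ⟨fun p hp => absurd hp (h p), fun p hp => absurd hp (h p), fun p hp => absurd hp (h p)⟩,
    fun p hp => absurd hp (h p)⟩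

end Family

end Pool.Agent.MP_4c107d_co.H78

end

section

/-!
The greedy extension lemma.
`DX, DY` are placed by `σ0, ψ0`; the new vertices `PX, PY` are placed in the order of their ranks. `nb a` is the set of columns
close to `a`. The meters `κ` keep the loads of the columns in `Ac` and of the rows in `Br` below `θ κ + M κ`.

Proof idea. Prove the conclusion for all `PX' ⊆ PX`, `PY' ⊆ PY` (hypotheses stay those for `PX, PY`) by induction on `#PX' + #PY'`: remove an item `z` of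
largest rank among `PX'` (rank `rX`) and `PY'` (rank `rY`), embed the rest, and place `z` by `Function.update`. All neighbours of `z` in `PX' ∪ PY'` have rank at most
that of `z`, so there is at most one. For `z = p ∈ PX'` forbid the columns `a ∈ AX p` such that (1) `nb a` contains the column of a placed vertex of the same tree;
(2) for a placed neighbour `q` of `p`, `nb a` contains the column of a placed `p'` adjacent to a placed `q'` in the row of `q` (such `p'` lie in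
`act DX PX σ0 Ac`, such `q'` in `act DY PY ψ0 Br`, so there are at most `θB kB + MB kB` of them by the load bound); (3) for some `κ` with `0 < wX κ p` the current load of `a` exceeds
`θA κ` (at most `cA κ` columns of `Ac`; none if `θA κ = 0`). Use the symmetry of `nb`. For `z = q ∈ PY'` forbid the rows used by the same tree, the rows with an
occupied cell in a column of `nb (σ p)`, `p` a placed neighbour of `q`, and the closed rows.
-/

set_option autoImplicit false
set_option linter.unusedSectionVars false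

namespace Pool.Agent.MP_4c107d_co.H78

open Finset

/-- the new items and the old items placed in `C` -/
def act {P B : Type} [DecidableEq P] [DecidableEq B] (D N : Finset P) (f : P → B) (C : Finset B) :
    Finset P := N ∪ D.filter fun p => f p ∈ C

theorem mem_act {P B : Type} [DecidableEq P] [DecidableEq B] {D N : Finset P} {f : P → B}
    {C : Finset B} {p : P} : p ∈ act D N f C ↔ p ∈ N ∨ (p ∈ D ∧ f p ∈ C) := by simp [act]

section General
variable {P Q B : Type} [DecidableEq P] [DecidableEq Q] [DecidableEq B]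

/-- few columns are closed by a meter -/
theorem greedy_meter (D T : Finset P) (f : P → B) (C : Finset B) (w : P → ℝ) {θ c : ℝ}
    (hT : ∀ p ∈ D, f p ∈ C → p ∈ T) (hw : ∀ p, 0 ≤ w p) (hθ : 0 ≤ θ) (hc : 0 ≤ c)
    (h : ∑ p ∈ T, w p ≤ c * θ) :
    ((C.filter fun a => θ < ∑ p ∈ fib D f a, w p).card : ℝ) ≤ c := by
  set C' := C.filter fun a => θ < ∑ p ∈ fib D f a, w p with hC'
  rcases C'.eq_empty_or_nonempty with he | hne
  · rw [he]; simpa using hc
  have h1 : ∑ a ∈ C', ∑ p ∈ fib D f a, w p = ∑ p ∈ D.filter (fun p => f p ∈ C'), w p := by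
    rw [← sum_fiberwise_of_maps_to (s := D.filter fun p => f p ∈ C') (t := C') (g := f)
      fun p hp => (mem_filter.1 hp).2]
    refine sum_congr rfl fun a ha => sum_congr ?_ fun _ _ => rfl
    ext p
    simp only [mem_fib, mem_filter]
    exact ⟨fun h => ⟨⟨h.1, h.2 ▸ ha⟩, h.2⟩, fun h => ⟨h.1.1, h.2⟩⟩
  have h2 : ∑ p ∈ D.filter (fun p => f p ∈ C'), w p ≤ ∑ p ∈ T, w p :=
    sum_le_sum_of_subset_of_nonneg
      (fun p hp => hT p (mem_filter.1 hp).1 (mem_filter.1 (mem_filter.1 hp).2).1) fun p _ _ => hw p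
  have h3 : ∑ _a ∈ C', θ < ∑ a ∈ C', ∑ p ∈ fib D f a, w p :=
    sum_lt_sum_of_nonempty hne fun a ha => (mem_filter.1 ha).2
  rw [sum_const, nsmul_eq_mul] at h3
  exact (lt_of_mul_lt_mul_right (h3.trans_le (h1.le.trans (h2.trans h))) hθ).le

/-- loads after one more item is placed -/
theorem greedy_load {D : Finset P} {f : P → B} {p : P} (hp : p ∉ D) (a : B) (w : P → ℝ) {θ M : ℝ}
    (hw : 0 ≤ w p) (hM : w p ≤ M) (ha : 0 < w p → ∑ x ∈ fib D f a, w x ≤ θ) {b : B}
    (hb : ∑ x ∈ fib D f b, w x ≤ θ + M) :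
    ∑ x ∈ fib (insert p D) (Function.update f p a) b, w x ≤ θ + M := by
  by_cases hab : a = b
  · subst hab
    have e : fib (insert p D) (Function.update f p a) a = insert p (fib D f a) := by
      ext x
      simp only [mem_fib, mem_insert]
      by_cases hx : x = p
      · simp [hx]
      · simp [hx]
    rw [e, sum_insert fun h => hp (mem_fib.1 h).1]
    rcases hw.eq_or_lt with h | h
    · linarith
    · linarith [ha h]
  · have e : fib (insert p D) (Function.update f p a) b = fib D f b := by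
      ext x
      simp only [mem_fib, mem_insert]
      by_cases hx : x = p
      · simp [hx, hab, hp]
      · simp [hx]
    rwa [e]

theorem greedy_nbrs (T : Finset P) (F : Finset Q) (R : P → Q → Prop) [∀ p q, Decidable (R p q)]
    (w : Q → ℝ) (h : ∀ q ∈ F, ((T.filter fun p => R p q).card : ℝ) ≤ w q) :
    ((F.biUnion fun q => T.filter fun p => R p q).card : ℝ) ≤ ∑ q ∈ F, w q := by
  refine le_trans ?_ (sum_le_sum h)
  exact_mod_cast card_biUnion_le

theorem greedy_biU (F : Finset Q) (g : Q → Finset P) {c : ℝ} (h : ∀ q ∈ F, ((g q).card : ℝ) ≤ c) :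
    ((F.biUnion g).card : ℝ) ≤ F.card * c := by
  rw [← nsmul_eq_mul, ← sum_const]
  refine le_trans ?_ (sum_le_sum h)
  exact_mod_cast card_biUnion_le

theorem greedy_one (D N : Finset P) (R : P → Prop) [DecidablePred R]
    (h : ∀ p ∈ N, ∀ p' ∈ N, R p → R p' → p = p') :
    (((D ∪ N).filter R).card : ℝ) ≤ (D.filter R).card + 1 := by
  have h1 : (N.filter R).card ≤ 1 := card_le_one.2 fun p hp p' hp' =>
    h p (mem_filter.1 hp).1 p' (mem_filter.1 hp').1 (mem_filter.1 hp).2 (mem_filter.1 hp').2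
  have h2 := card_union_le (D.filter R) (N.filter R)
  rw [filter_union]
  exact_mod_cast h2.trans (Nat.add_le_add_left h1 _)

theorem greedy_closed {K : Type} [Fintype K] (w c : K → ℝ) (g : K → Finset B)
    (h : ∀ κ, ((g κ).card : ℝ) ≤ c κ) :
    (((univ.filter fun κ => 0 < w κ).biUnion g).card : ℝ) ≤ ∑ κ, if 0 < w κ then c κ else 0 := by
  rw [← sum_filter]
  refine le_trans ?_ (sum_le_sum fun κ _ => h κ)
  exact_mod_cast card_biUnion_le

theorem greedy_free (S F₁ F₂ F₃ : Finset B) (h : (F₁.card : ℝ) + F₂.card + F₃.card < S.card) :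
    ∃ a ∈ S, a ∉ F₁ ∧ a ∉ F₂ ∧ a ∉ F₃ := by
  have h1 : (F₁ ∪ F₂ ∪ F₃).card < S.card := by
    have h2 := card_union_le (F₁ ∪ F₂) F₃
    have h3 := card_union_le F₁ F₂
    have h4 : F₁.card + F₂.card + F₃.card < S.card := by exact_mod_cast h
    omega
  obtain ⟨a, ha, hn⟩ := exists_mem_notMem_of_card_lt_card h1
  simp only [mem_union, not_or] at hn
  exact ⟨a, ha, hn.1.1, hn.1.2, hn.2⟩

theorem greedy_act {D N N' : Finset P} {f f0 : P → B} {C : Finset B} (hN : N' ⊆ N)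
    (hf : ∀ p ∈ D, f p = f0 p) {p : P} (hp : p ∈ D ∪ N') (hC : f p ∈ C) : p ∈ act D N f0 C := by
  rcases mem_union.1 hp with h | h
  · exact mem_act.2 (Or.inr ⟨h, hf p h ▸ hC⟩)
  · exact mem_act.2 (Or.inl (hN h))

end General

section Steps
variable {ι A : Type} {n : ℕ} [DecidableEq ι] [DecidableEq A]

/-- the geometric part of the invariant -/
structure greedy_Inv (E : ι → Gr n) (DX DY PX PY : Finset (It ι n)) (σ0 : It ι n → A)
    (ψ0 : It ι n → ι) (nb : A → Finset A) (AX : It ι n → Finset A) (AY : It ι n → Finset ι)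
    (σ : It ι n → A) (ψ : It ι n → ι) : Prop where
  h1 : ∀ p ∈ DX, σ p = σ0 p
  h2 : ∀ q ∈ DY, ψ q = ψ0 q
  h3 : ∀ p ∈ PX, σ p ∈ AX p
  h4 : ∀ q ∈ PY, ψ q ∈ AY q
  h5 : ∀ q ∈ DY ∪ PY, ∀ q' ∈ DY ∪ PY, q.1 = q'.1 → ψ q = ψ q' → q = q'
  h6 : ∀ p ∈ PX, ∀ p' ∈ DX ∪ PX, p'.1 = p.1 → σ p' ∈ nb (σ p) → p' = p
  h7 : ∀ p ∈ DX ∪ PX, ∀ q ∈ DY ∪ PY, ∀ p' ∈ DX ∪ PX, ∀ q' ∈ DY ∪ PY, adj E p q → adj E p' q' →
    ψ q = ψ q' → σ p' ∈ nb (σ p) → p ≠ p' → p ∈ DX ∧ p' ∈ DX ∧ (q = q' ∨ (q ∈ DY ∧ q' ∈ DY))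

variable {E : ι → Gr n} {DX DY PX PY : Finset (It ι n)} {σ0 σ : It ι n → A} {ψ0 ψ : It ι n → ι}
  {nb : A → Finset A} {AX : It ι n → Finset A} {AY : It ι n → Finset ι}

theorem greedy_ok (h : greedy_Inv E DX DY PX PY σ0 ψ0 nb AX AY σ ψ) (hok : Ok E DX DY σ0 ψ0)
    (hnb0 : ∀ a, a ∈ nb a) : Ok E (DX ∪ PX) (DY ∪ PY) σ ψ := by
  have hX : ∀ p ∈ DX ∪ PX, ∀ p' ∈ DX ∪ PX, p.1 = p'.1 → σ p = σ p' → p = p' := by
    intro p hp p' hp' e1 e2
    rcases mem_union.1 hp with a | a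
    · rcases mem_union.1 hp' with b | b
      · exact hok.injX p a p' b e1 (by rw [← h.h1 p a, ← h.h1 p' b, e2])
      · exact h.h6 p' b p hp e1 (e2 ▸ hnb0 _)
    · exact (h.h6 p a p' hp' e1.symm (e2 ▸ hnb0 _)).symm
  refine ⟨hX, h.h5, fun p hp q hq p' hp' q' hq' a a' e1 e2 => ?_⟩
  by_contra hne
  obtain ⟨b, b', c | ⟨c, c'⟩⟩ := h.h7 p hp q hq p' hp' q' hq' a a' e2 (e1 ▸ hnb0 _) hne
  · exact hne (hX p hp p' hp' (by rw [a.1, a'.1, c]) e1)
  · exact hne (hok.cell p b q c p' b' q' c' a a' (by rw [← h.h1 p b, ← h.h1 p' b', e1])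
      (by rw [← h.h2 q c, ← h.h2 q' c', e2]))

theorem greedy_stepX (h : greedy_Inv E DX DY PX PY σ0 ψ0 nb AX AY σ ψ)
    (hnb1 : ∀ a b, b ∈ nb a → a ∈ nb b) {p : It ι n} (hp : p ∉ DX ∪ PX) {a : A} (h0 : a ∈ AX p)
    (c1 : ∀ p' ∈ DX ∪ PX, p'.1 = p.1 → σ p' ∉ nb a)
    (c2 : ∀ q ∈ DY ∪ PY, adj E p q → ∀ p' ∈ DX ∪ PX, ∀ q' ∈ DY ∪ PY, adj E p' q' → ψ q = ψ q' →
      σ p' ∉ nb a) :
    greedy_Inv E DX DY (insert p PX) PY σ0 ψ0 nb AX AY (Function.update σ p a) ψ := by
  have hu : ∀ x ∈ DX ∪ PX, Function.update σ p a x = σ x := fun x hx =>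
    Function.update_of_ne (fun e : x = p => hp (e ▸ hx)) _ _
  have hs : Function.update σ p a p = a := Function.update_self _ _ _
  refine ⟨fun x hx => ?_, h.h2, fun x hx => ?_, h.h4, h.h5, fun x hx x' hx' e1 e2 => ?_,
    fun x hx q hq x' hx' q' hq' b b' e1 e2 hne => ?_⟩
  · rw [hu x (mem_union_left _ hx), h.h1 x hx]
  · rcases mem_insert.1 hx with rfl | hx
    · rwa [hs]
    · rw [hu x (mem_union_right _ hx)]
      exact h.h3 x hx
  · rw [union_insert, mem_insert] at hx'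
    rw [mem_insert] at hx
    rcases hx with rfl | hx <;> rcases hx' with rfl | hx'
    · rfl
    · rw [hs, hu x' hx'] at e2
      exact absurd e2 (c1 x' hx' e1)
    · rw [hs, hu x (mem_union_right _ hx)] at e2
      exact absurd (hnb1 _ _ e2) (c1 x (mem_union_right _ hx) e1.symm)
    · rw [hu x (mem_union_right _ hx), hu x' hx'] at e2
      exact h.h6 x hx x' hx' e1 e2
  · rw [union_insert, mem_insert] at hx hx'
    rcases hx with rfl | hx <;> rcases hx' with rfl | hx'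
    · exact absurd rfl hne
    · rw [hs, hu x' hx'] at e2
      exact absurd e2 (c2 q hq b x' hx' q' hq' b' e1)
    · rw [hs, hu x hx] at e2
      exact absurd (hnb1 _ _ e2) (c2 q' hq' b' x hx q hq b e1.symm)
    · rw [hu x hx, hu x' hx'] at e2
      exact h.h7 x hx q hq x' hx' q' hq' b b' e1 e2 hne

theorem greedy_stepY (h : greedy_Inv E DX DY PX PY σ0 ψ0 nb AX AY σ ψ)
    (hnb1 : ∀ a b, b ∈ nb a → a ∈ nb b) {q : It ι n} (hq : q ∉ DY ∪ PY) {r : ι} (h0 : r ∈ AY q)
    (c1 : ∀ q' ∈ DY ∪ PY, q'.1 = q.1 → ψ q' ≠ r)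
    (c2 : ∀ p ∈ DX ∪ PX, adj E p q → ∀ p' ∈ DX ∪ PX, ∀ q' ∈ DY ∪ PY, adj E p' q' →
      σ p' ∈ nb (σ p) → ψ q' ≠ r) :
    greedy_Inv E DX DY PX (insert q PY) σ0 ψ0 nb AX AY σ (Function.update ψ q r) := by
  have hu : ∀ y ∈ DY ∪ PY, Function.update ψ q r y = ψ y := fun y hy =>
    Function.update_of_ne (fun e : y = q => hq (e ▸ hy)) _ _
  have hs : Function.update ψ q r q = r := Function.update_self _ _ _
  refine ⟨h.h1, fun y hy => ?_, h.h3, fun y hy => ?_, fun y hy y' hy' e1 e2 => ?_, h.h6,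
    fun x hx y hy x' hx' y' hy' b b' e1 e2 hne => ?_⟩
  · rw [hu y (mem_union_left _ hy), h.h2 y hy]
  · rcases mem_insert.1 hy with rfl | hy
    · rwa [hs]
    · rw [hu y (mem_union_right _ hy)]
      exact h.h4 y hy
  · rw [union_insert, mem_insert] at hy hy'
    rcases hy with rfl | hy <;> rcases hy' with rfl | hy'
    · rfl
    · rw [hs, hu y' hy'] at e2
      exact absurd e2.symm (c1 y' hy' e1.symm)
    · rw [hs, hu y hy] at e2
      exact absurd e2 (c1 y hy e1)
    · rw [hu y hy, hu y' hy'] at e2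
      exact h.h5 y hy y' hy' e1 e2
  · rw [union_insert, mem_insert] at hy hy'
    rcases hy with rfl | hy <;> rcases hy' with rfl | hy'
    · have e : x'.1 = x.1 := by rw [b.1, b'.1]
      refine ⟨?_, ?_, Or.inl rfl⟩
      · exact (mem_union.1 hx).resolve_right fun a => hne (h.h6 x a x' hx' e e2).symm
      · exact (mem_union.1 hx').resolve_right fun a => hne (h.h6 x' a x hx e.symm (hnb1 _ _ e2))
    · rw [hs, hu y' hy'] at e1
      exact absurd e1.symm (c2 x hx b x' hx' y' hy' b' e2)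
    · rw [hs, hu y hy] at e1
      exact absurd e1 (c2 x' hx' b' x hx y hy b (hnb1 _ _ e2))
    · rw [hu y hy, hu y' hy'] at e1
      exact h.h7 x hx y hy x' hx' y' hy' b b' e1 e2 hne

end Steps

theorem greedy {ι A KA KB : Type} {n : ℕ} [DecidableEq ι] [DecidableEq A] [Fintype KA] [Fintype KB]
    (E : ι → Gr n) (DX DY PX PY : Finset (It ι n)) (σ0 : It ι n → A) (ψ0 : It ι n → ι)
    (hok : Ok E DX DY σ0 ψ0) (hdX : Disjoint DX PX) (hdY : Disjoint DY PY)
    (rX rY : It ι n → ℕ)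
    (hrX : ∀ p ∈ PX, ∀ q ∈ PY, ∀ q' ∈ PY, adj E p q → adj E p q' → rY q ≤ rX p → rY q' ≤ rX p →
      q = q')
    (hrY : ∀ q ∈ PY, ∀ p ∈ PX, ∀ p' ∈ PX, adj E p q → adj E p' q → rX p ≤ rY q → rX p' ≤ rY q →
      p = p')
    (nb : A → Finset A) (w : ℕ) (hnb0 : ∀ a, a ∈ nb a) (hnb1 : ∀ a b, b ∈ nb a → a ∈ nb b)
    (hnbw : ∀ a, (nb a).card ≤ w)
    (AX : It ι n → Finset A) (AY : It ι n → Finset ι) (Ac : Finset A) (Br : Finset ι)
    (hA1 : ∀ p ∈ PX, ∀ a ∈ AX p, nb a ⊆ Ac)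
    (hA2 : ∀ p ∈ DX, ∀ q ∈ PY, adj E p q → nb (σ0 p) ⊆ Ac)
    (hB1 : ∀ q ∈ PY, AY q ⊆ Br) (hB2 : ∀ q ∈ DY, ∀ p ∈ PX, adj E p q → ψ0 q ∈ Br)
    (wX : KA → It ι n → ℝ) (θA MA cA : KA → ℝ) (kA : KA)
    (wY : KB → It ι n → ℝ) (θB MB cB : KB → ℝ) (kB : KB)
    (hwX0 : ∀ κ p, 0 ≤ wX κ p) (hθA : ∀ κ, 0 ≤ θA κ) (hcA : ∀ κ, 0 ≤ cA κ)
    (hwY0 : ∀ κ q, 0 ≤ wY κ q) (hθB : ∀ κ, 0 ≤ θB κ) (hcB : ∀ κ, 0 ≤ cB κ)
    (hwX : ∀ p ∈ act DX PX σ0 Ac,
      (((act DY PY ψ0 Br).filter fun q => adj E p q).card : ℝ) ≤ wX kA p)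
    (hwY : ∀ q ∈ act DY PY ψ0 Br,
      (((act DX PX σ0 Ac).filter fun p => adj E p q).card : ℝ) ≤ wY kB q)
    (hMA0 : ∀ κ, 0 ≤ MA κ) (hMA : ∀ κ, ∀ p ∈ PX, wX κ p ≤ MA κ)
    (hMB0 : ∀ κ, 0 ≤ MB κ) (hMB : ∀ κ, ∀ q ∈ PY, wY κ q ≤ MB κ)
    (hLA : ∀ κ, ∀ a ∈ Ac, ∑ p ∈ fib DX σ0 a, wX κ p ≤ θA κ + MA κ)
    (hLB : ∀ κ, ∀ r ∈ Br, ∑ q ∈ fib DY ψ0 r, wY κ q ≤ θB κ + MB κ)
    (hTA : PX.Nonempty → ∀ κ, ∑ p ∈ act DX PX σ0 Ac, wX κ p ≤ cA κ * θA κ)
    (hTB : PY.Nonempty → ∀ κ, ∑ q ∈ act DY PY ψ0 Br, wY κ q ≤ cB κ * θB κ)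
    (hX : ∀ p ∈ PX, (w : ℝ) * ((act DX PX σ0 Ac).filter fun p' => p'.1 = p.1).card
      + w * (((DY.filter fun q => adj E p q).card + 1) * (θB kB + MB kB))
      + ∑ κ, (if 0 < wX κ p then cA κ else 0) < (AX p).card)
    (hY : ∀ q ∈ PY, (((act DY PY ψ0 Br).filter fun q' => q'.1 = q.1).card : ℝ)
      + w * (((DX.filter fun p => adj E p q).card + 1) * (θA kA + MA kA))
      + ∑ κ, (if 0 < wY κ q then cB κ else 0) < (AY q).card) :
    ∃ (σ : It ι n → A) (ψ : It ι n → ι), (∀ p ∈ DX, σ p = σ0 p) ∧ (∀ q ∈ DY, ψ q = ψ0 q) ∧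
      (∀ p ∈ PX, σ p ∈ AX p) ∧ (∀ q ∈ PY, ψ q ∈ AY q) ∧ Ok E (DX ∪ PX) (DY ∪ PY) σ ψ ∧
      (∀ p ∈ PX, ∀ p' ∈ DX ∪ PX, p'.1 = p.1 → σ p' ∈ nb (σ p) → p' = p) ∧
      (∀ p ∈ DX ∪ PX, ∀ q ∈ DY ∪ PY, ∀ p' ∈ DX ∪ PX, ∀ q' ∈ DY ∪ PY, adj E p q → adj E p' q' →
        ψ q = ψ q' → σ p' ∈ nb (σ p) → p ≠ p' →
        p ∈ DX ∧ p' ∈ DX ∧ (q = q' ∨ (q ∈ DY ∧ q' ∈ DY))) ∧
      (∀ κ, ∀ a ∈ Ac, ∑ p ∈ fib (DX ∪ PX) σ a, wX κ p ≤ θA κ + MA κ) ∧
      ∀ κ, ∀ r ∈ Br, ∑ q ∈ fib (DY ∪ PY) ψ r, wY κ q ≤ θB κ + MB κ := by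
  classical
  suffices H : ∀ (k : ℕ) (PX' PY' : Finset (It ι n)), PX' ⊆ PX → PY' ⊆ PY →
      PX'.card + PY'.card = k → ∃ σ ψ, greedy_Inv E DX DY PX' PY' σ0 ψ0 nb AX AY σ ψ ∧
        (∀ κ, ∀ a ∈ Ac, ∑ p ∈ fib (DX ∪ PX') σ a, wX κ p ≤ θA κ + MA κ) ∧
        ∀ κ, ∀ r ∈ Br, ∑ q ∈ fib (DY ∪ PY') ψ r, wY κ q ≤ θB κ + MB κ by
    obtain ⟨σ, ψ, h, h8, h9⟩ := H _ PX PY Subset.rfl Subset.rfl rfl
    exact ⟨σ, ψ, h.h1, h.h2, h.h3, h.h4, greedy_ok h hok hnb0, h.h6, h.h7, h8, h9⟩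
  intro k
  induction k with
  | zero =>
    intro PX' PY' _ _ hk
    obtain rfl : PX' = ∅ := card_eq_zero.1 (by omega)
    obtain rfl : PY' = ∅ := card_eq_zero.1 (by omega)
    refine ⟨σ0, ψ0, ⟨fun _ _ => rfl, fun _ _ => rfl, by simp, by simp, ?_, by simp, ?_⟩, ?_, ?_⟩
    · simpa only [union_empty] using hok.injY
    · simp only [union_empty]
      exact fun p hp q hq p' hp' q' hq' _ _ _ _ _ => ⟨hp, hp', Or.inr ⟨hq, hq'⟩⟩
    · simpa only [union_empty] using hLA
    · simpa only [union_empty] using hLB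
  | succ k ih =>
    intro PX' PY' hsX hsY hk
    have hw0 : (0 : ℝ) ≤ w := Nat.cast_nonneg _
    have hnbw' : ∀ a, ((nb a).card : ℝ) ≤ w := fun a => by exact_mod_cast hnbw a
    have hdich : (∃ p ∈ PX', ∀ q ∈ PY', rY q ≤ rX p) ∨ ∃ q ∈ PY', ∀ p ∈ PX', rX p ≤ rY q := by
      rcases PX'.eq_empty_or_nonempty with rfl | hne
      · obtain ⟨q, hq⟩ : PY'.Nonempty := card_pos.1 (by rw [card_empty] at hk; omega)
        exact Or.inr ⟨q, hq, by simp⟩
      · obtain ⟨p, hp, hm⟩ := exists_max_image PX' rX hne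
        by_cases hq : ∀ q ∈ PY', rY q ≤ rX p
        · exact Or.inl ⟨p, hp, hq⟩
        · push Not at hq
          obtain ⟨q, hq, hlt⟩ := hq
          exact Or.inr ⟨q, hq, fun p' hp' => (hm p' hp').trans hlt.le⟩
    rcases hdich with ⟨p, hp, hm⟩ | ⟨q, hq, hm⟩
    · have hpX := hsX hp
      obtain ⟨N, hpN, rfl⟩ : ∃ N, p ∉ N ∧ PX' = insert p N :=
        ⟨PX'.erase p, notMem_erase _ _, (insert_erase hp).symm⟩
      have hN : N ⊆ PX := (subset_insert _ _).trans hsX
      obtain ⟨σ, ψ, h, h8, h9⟩ := ih N PY' hN hsY (by rw [card_insert_of_notMem hpN] at hk; omega)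
      have hpD : p ∉ DX ∪ N := fun a =>
        (mem_union.1 a).elim (fun b => disjoint_left.1 hdX b hpX) hpN
      have hrow : ∀ q ∈ DY ∪ PY', adj E p q → ψ q ∈ Br := fun q hq a =>
        (mem_union.1 hq).elim (fun b => h.h2 q b ▸ hB2 q b p hpX a)
          fun b => hB1 q (hsY b) (h.h4 q b)
      have b1 := greedy_biU ((act DX PX σ0 Ac).filter fun p' => p'.1 = p.1) (fun p' => nb (σ p'))
        fun p' _ => hnbw' _
      have b2 := greedy_biU ((DY ∪ PY').filter fun q => adj E p q)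
        (fun q => ((fib (DY ∪ PY') ψ (ψ q)).biUnion fun q' =>
          (act DX PX σ0 Ac).filter fun p' => adj E p' q').biUnion fun p' => nb (σ p'))
        (c := (θB kB + MB kB) * w) fun q hq => by
          have hr := hrow q (mem_filter.1 hq).1 (mem_filter.1 hq).2
          refine (greedy_biU _ _ fun p' _ => hnbw' _).trans (mul_le_mul_of_nonneg_right ?_ hw0)
          refine (greedy_nbrs _ _ (adj E) (wY kB) fun q' hq' => hwY q' ?_).trans (h9 kB _ hr)
          exact greedy_act hsY h.h2 (mem_fib.1 hq').1 ((mem_fib.1 hq').2 ▸ hr)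
      have b2' := greedy_one DY PY' (fun q => adj E p q) fun q hq q' hq' a a' =>
        hrX p hpX q (hsY hq) q' (hsY hq') a a' (hm q hq) (hm q' hq')
      have b3 := greedy_closed (fun κ => wX κ p) cA
        (fun κ => Ac.filter fun a => θA κ < ∑ x ∈ fib (DX ∪ N) σ a, wX κ x) fun κ =>
          greedy_meter (DX ∪ N) (act DX PX σ0 Ac) σ Ac (wX κ)
            (fun x hx hC => greedy_act hN h.h1 hx hC) (hwX0 κ) (hθA κ) (hcA κ) (hTA ⟨p, hpX⟩ κ)
      have b4 := mul_le_mul_of_nonneg_right b2'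
        (mul_nonneg (add_nonneg (hθB kB) (hMB0 kB)) hw0)
      obtain ⟨a, ha, n1, n2, n3⟩ := greedy_free (AX p) _ _ _
        (lt_of_le_of_lt (add_le_add (add_le_add b1 (b2.trans b4)) b3) (by linarith [hX p hpX]))
      have hC := hA1 p hpX a ha
      refine ⟨Function.update σ p a, ψ, greedy_stepX h hnb1 hpD ha (fun p' hp' e c => n1 ?_)
        (fun q hq b p' hp' q' hq' b' e c => n2 ?_), fun κ b hb => ?_, h9⟩
      · exact mem_biUnion.2 ⟨p', mem_filter.2 ⟨greedy_act hN h.h1 hp' (hC c), e⟩, hnb1 _ _ c⟩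
      · exact mem_biUnion.2 ⟨q, mem_filter.2 ⟨hq, b⟩, mem_biUnion.2 ⟨p', mem_biUnion.2
          ⟨q', mem_fib.2 ⟨hq', e.symm⟩, mem_filter.2 ⟨greedy_act hN h.h1 hp' (hC c), b'⟩⟩,
          hnb1 _ _ c⟩⟩
      · rw [union_insert]
        refine greedy_load hpD a (wX κ) (hwX0 κ p) (hMA κ p hpX) (fun c => ?_) (h8 κ b hb)
        by_contra hlt
        exact n3 (mem_biUnion.2 ⟨κ, mem_filter.2 ⟨mem_univ _, c⟩,
          mem_filter.2 ⟨hC (hnb0 a), not_le.1 hlt⟩⟩)
    · have hqY := hsY hq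
      obtain ⟨N, hqN, rfl⟩ : ∃ N, q ∉ N ∧ PY' = insert q N :=
        ⟨PY'.erase q, notMem_erase _ _, (insert_erase hq).symm⟩
      have hN : N ⊆ PY := (subset_insert _ _).trans hsY
      obtain ⟨σ, ψ, h, h8, h9⟩ := ih PX' N hsX hN (by rw [card_insert_of_notMem hqN] at hk; omega)
      have hqD : q ∉ DY ∪ N := fun a =>
        (mem_union.1 a).elim (fun b => disjoint_left.1 hdY b hqY) hqN
      have hcol : ∀ p ∈ DX ∪ PX', adj E p q → nb (σ p) ⊆ Ac := fun p hp a =>
        (mem_union.1 hp).elim (fun b => h.h1 p b ▸ hA2 p b q hqY a)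
          fun b => hA1 p (hsX b) _ (h.h3 p b)
      have b1 : ((((act DY PY ψ0 Br).filter fun q' => q'.1 = q.1).image ψ).card : ℝ) ≤
          ((act DY PY ψ0 Br).filter fun q' => q'.1 = q.1).card := by exact_mod_cast card_image_le
      have b2 := greedy_biU ((DX ∪ PX').filter fun p => adj E p q)
        (fun p => (nb (σ p)).biUnion fun b => ((fib (DX ∪ PX') σ b).biUnion fun p' =>
          (act DY PY ψ0 Br).filter fun q' => adj E p' q').image ψ)
        (c := w * (θA kA + MA kA)) fun p hp => by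
          have hc := hcol p (mem_filter.1 hp).1 (mem_filter.1 hp).2
          refine (greedy_biU _ _ (c := θA kA + MA kA) fun b hb => ?_).trans
            (mul_le_mul_of_nonneg_right (hnbw' _) (add_nonneg (hθA kA) (hMA0 kA)))
          refine le_trans (by exact_mod_cast card_image_le) ((greedy_nbrs (act DY PY ψ0 Br)
            (fib (DX ∪ PX') σ b) (fun q' p' => adj E p' q') (wX kA)
            fun p' hp' => hwX p' ?_).trans (h8 kA _ (hc hb)))
          exact greedy_act hsX h.h1 (mem_fib.1 hp').1 ((mem_fib.1 hp').2 ▸ hc hb)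
      have b2' := greedy_one DX PX' (fun p => adj E p q) fun p hp p' hp' a a' =>
        hrY q hqY p (hsX hp) p' (hsX hp') a a' (hm p hp) (hm p' hp')
      have b3 := greedy_closed (fun κ => wY κ q) cB
        (fun κ => Br.filter fun r => θB κ < ∑ y ∈ fib (DY ∪ N) ψ r, wY κ y) fun κ =>
          greedy_meter (DY ∪ N) (act DY PY ψ0 Br) ψ Br (wY κ)
            (fun y hy hC => greedy_act hN h.h2 hy hC) (hwY0 κ) (hθB κ) (hcB κ) (hTB ⟨q, hqY⟩ κ)
      have b4 := mul_le_mul_of_nonneg_right b2'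
        (mul_nonneg hw0 (add_nonneg (hθA kA) (hMA0 kA)))
      obtain ⟨r, hr, n1, n2, n3⟩ := greedy_free (AY q) _ _ _
        (lt_of_le_of_lt (add_le_add (add_le_add b1 (b2.trans b4)) b3) (by linarith [hY q hqY]))
      have hC := hB1 q hqY hr
      refine ⟨σ, Function.update ψ q r, greedy_stepY h hnb1 hqD hr (fun q' hq' e c => n1 ?_)
        (fun p hp b p' hp' q' hq' b' e c => n2 ?_), h8, fun κ b hb => ?_⟩
      · exact mem_image.2 ⟨q', mem_filter.2 ⟨greedy_act hN h.h2 hq' (c ▸ hC), e⟩, c⟩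
      · exact mem_biUnion.2 ⟨p, mem_filter.2 ⟨hp, b⟩, mem_biUnion.2 ⟨σ p', e, mem_image.2
          ⟨q', mem_biUnion.2 ⟨p', mem_fib.2 ⟨hp', rfl⟩,
            mem_filter.2 ⟨greedy_act hN h.h2 hq' (c ▸ hC), b'⟩⟩, c⟩⟩⟩
      · rw [union_insert]
        refine greedy_load hqD r (wY κ) (hwY0 κ q) (hMB κ q hqY) (fun c => ?_) (h9 κ b hb)
        by_contra hlt
        exact n3 (mem_biUnion.2 ⟨κ, mem_filter.2 ⟨mem_univ _, c⟩,
          mem_filter.2 ⟨hC, not_le.1 hlt⟩⟩)

end Pool.Agent.MP_4c107d_co.H78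

end

end

-- part MP_4c107d_co.H78.C
section

section

/-!
Cyclic transport, blocks, balancing by permutations.

-/

set_option autoImplicit false
set_option linter.unusedSectionVars false

namespace Pool.Agent.MP_4c107d_co.H78

open Finset

/-- Proof idea. `D w = ∑ j ∈ univ.filter (·.val < w.val), d j`. -/
theorem antider {G : Type} [AddCommGroup G] (W : ℕ) [NeZero W] (d : ZMod W → G)
    (h : ∑ w, d w = 0) :
    ∃ D : ZMod W → G, (∀ w, D (w + 1) - D w = d w) ∧ ∀ w, ∃ T : Finset (ZMod W), D w = ∑ j ∈ T, d j := by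
  refine ⟨fun w => ∑ j ∈ univ.filter (fun j : ZMod W => j.val < w.val), d j, fun w => ?_,
    fun w => ⟨_, rfl⟩⟩
  have hv : (w + 1).val = (w.val + 1) % W := by
    rw [ZMod.val_add, ZMod.val_one_eq_one_mod, Nat.add_mod_mod]
  have hlt : w.val < W := ZMod.val_lt w
  have hstep : ∑ j ∈ univ.filter (fun j : ZMod W => j.val < w.val + 1), d j =
      ∑ j ∈ univ.filter (fun j : ZMod W => j.val < w.val), d j + d w := by
    have e : univ.filter (fun j : ZMod W => j.val < w.val + 1) =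
        insert w (univ.filter (fun j : ZMod W => j.val < w.val)) := by
      ext j
      simp only [mem_filter, mem_univ, true_and, mem_insert]
      constructor
      · intro hj
        rcases Nat.lt_succ_iff_lt_or_eq.1 hj with h1 | h1
        · exact Or.inr h1
        · exact Or.inl (ZMod.val_injective W h1)
      · rintro (rfl | h1) <;> omega
    rw [e, sum_insert (by simp), add_comm]
  show ∑ j ∈ univ.filter (fun j : ZMod W => j.val < (w + 1).val), d j -
      ∑ j ∈ univ.filter (fun j : ZMod W => j.val < w.val), d j = d w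
  rcases Nat.lt_or_ge (w.val + 1) W with h1 | h1
  · rw [hv, Nat.mod_eq_of_lt h1, hstep, add_sub_cancel_left]
  · have h2 : w.val + 1 = W := by omega
    have e : univ.filter (fun j : ZMod W => j.val < w.val + 1) = univ := by
      ext j
      simp only [mem_filter, mem_univ, true_and, iff_true]
      rw [h2]
      exact ZMod.val_lt j
    rw [e, h] at hstep
    have e0 : (w + 1).val = 0 := by rw [hv, h2, Nat.mod_self]
    rw [e0]
    simp only [Nat.not_lt_zero, filter_false, sum_empty, zero_sub]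
    exact neg_eq_of_add_eq_zero_right hstep.symm

theorem toolB_int {m : ℕ} {y : ℝ} {k : ℤ} (hk : y = k) (h : |(m : ℝ) - y| < 1) : (m : ℝ) = y := by
  subst hk
  have h1 : |((m : ℤ) - k : ℤ)| < 1 := by
    have : ((|((m : ℤ) - k : ℤ)| : ℤ) : ℝ) < 1 := by
      push_cast
      exact h
    exact_mod_cast this
  have h2 : (m : ℤ) - k = 0 := Int.abs_lt_one_iff.1 h1
  have h3 : (m : ℤ) = k := by omega
  exact_mod_cast h3

theorem toolB_fst {α β : Type} [DecidableEq α] [DecidableEq β] (I : Finset α) (A : Finset β)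
    (x : α × β → ℝ) (i : α) (hi : i ∈ I) :
    ∑ e ∈ (I ×ˢ A).filter (fun e => e.1 = i), x e = ∑ a ∈ A, x (i, a) := by
  rw [sum_filter, sum_product]
  rw [sum_eq_single i]
  · simp
  · intro j _ hj
    simp [hj]
  · intro h
    exact absurd hi h

theorem toolB_snd {α β : Type} [DecidableEq α] [DecidableEq β] (I : Finset α) (A : Finset β)
    (x : α × β → ℝ) (a : β) (ha : a ∈ A) :
    ∑ e ∈ (I ×ˢ A).filter (fun e => e.2 = a), x e = ∑ i ∈ I, x (i, a) := by
  rw [sum_filter, sum_product_right]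
  rw [sum_eq_single a]
  · simp
  · intro j _ hj
    simp [hj]
  · intro h
    exact absurd ha h

theorem toolB_card {E : Type} [DecidableEq E] (S F : Finset E) (hF : F ⊆ S) (p : E → Prop)
    [DecidablePred p] :
    ((F.filter p).card : ℝ) = ∑ e ∈ S.filter p, (if e ∈ F then (1 : ℝ) else 0) := by
  rw [sum_boole]
  congr 2
  ext e
  simp only [mem_filter]
  constructor
  · rintro ⟨h1, h2⟩
    exact ⟨⟨hF h1, h2⟩, h1⟩
  · rintro ⟨⟨_, h2⟩, h1⟩
    exact ⟨h1, h2⟩

/-- Rounding a matrix with integral line sums. Proof idea: `Pool.Agent.MP_1376f1_pr.round3` on `I ×ˢ A` with the fractional parts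
`z - ⌊z⌋₊`, `a = Prod.fst`, `b = Prod.snd`, `c = fun _ => ()`; the line sums of the fractional parts are integers. -/
theorem round_matrix {α β : Type} [DecidableEq α] [DecidableEq β] (I : Finset α) (A : Finset β)
    (z : α → β → ℝ) (f : α → ℕ) (φ : β → ℕ) (hz : ∀ i ∈ I, ∀ a ∈ A, 0 ≤ z i a)
    (hf : ∀ i ∈ I, ∑ a ∈ A, z i a = f i) (hφ : ∀ a ∈ A, ∑ i ∈ I, z i a = φ a) :
    ∃ g : α → β → ℕ, (∀ i ∈ I, ∑ a ∈ A, g i a = f i) ∧ (∀ a ∈ A, ∑ i ∈ I, g i a = φ a) ∧
      ∀ i ∈ I, ∀ a ∈ A, (g i a : ℝ) < z i a + 1 ∧ (g i a ≠ 0 → z i a ≠ 0) := by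
  have hfl : ∀ e ∈ I ×ˢ A, (⌊z e.1 e.2⌋₊ : ℝ) ≤ z e.1 e.2 := fun e he =>
    Nat.floor_le (hz _ (mem_product.1 he).1 _ (mem_product.1 he).2)
  obtain ⟨F, hF, hpos, hr, hc, -⟩ := Pool.Agent.MP_1376f1_pr.round3 (I ×ˢ A) Prod.fst Prod.snd
    (fun _ => ()) (fun e => z e.1 e.2 - ⌊z e.1 e.2⌋₊)
    (fun e he => sub_nonneg.2 (hfl e he))
    (fun e _ => by have := Nat.lt_floor_add_one (z e.1 e.2); linarith)
  refine ⟨fun i a => ⌊z i a⌋₊ + if (i, a) ∈ F then 1 else 0, fun i hi => ?_, fun a ha => ?_,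
    fun i hi a ha => ?_⟩
  · have h1 := hr i
    rw [toolB_fst I A _ i hi] at h1
    have h2 : ∑ a ∈ A, (z i a - (⌊z i a⌋₊ : ℝ)) =
        (((f i : ℤ) - ∑ a ∈ A, (⌊z i a⌋₊ : ℤ) : ℤ) : ℝ) := by
      rw [sum_sub_distrib, hf i hi, Int.cast_sub, Int.cast_sum]
      simp only [Int.cast_natCast]
    have h3 := toolB_int h2 h1
    rw [toolB_card _ _ hF, toolB_fst I A _ i hi, sum_sub_distrib, hf i hi] at h3
    have h4 : ((∑ a ∈ A, (⌊z i a⌋₊ + if (i, a) ∈ F then 1 else 0) : ℕ) : ℝ) = f i := by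
      push_cast
      rw [sum_add_distrib]
      linarith
    exact_mod_cast h4
  · have h1 := hc a
    rw [toolB_snd I A _ a ha] at h1
    have h2 : ∑ i ∈ I, (z i a - (⌊z i a⌋₊ : ℝ)) =
        (((φ a : ℤ) - ∑ i ∈ I, (⌊z i a⌋₊ : ℤ) : ℤ) : ℝ) := by
      rw [sum_sub_distrib, hφ a ha, Int.cast_sub, Int.cast_sum]
      simp only [Int.cast_natCast]
    have h3 := toolB_int h2 h1
    rw [toolB_card _ _ hF, toolB_snd I A _ a ha, sum_sub_distrib, hφ a ha] at h3
    have h4 : ((∑ i ∈ I, (⌊z i a⌋₊ + if (i, a) ∈ F then 1 else 0) : ℕ) : ℝ) = φ a := by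
      push_cast
      rw [sum_add_distrib]
      linarith
    exact_mod_cast h4
  · have h1 := hfl (i, a) (mem_product.2 ⟨hi, ha⟩)
    by_cases hm : (i, a) ∈ F
    · have h2 := hpos _ hm
      simp only [hm, if_true] at h2 ⊢
      have h3 : (0 : ℝ) ≤ ⌊z i a⌋₊ := Nat.cast_nonneg _
      constructor
      · push_cast
        linarith
      · intro _ h0
        linarith
    · simp only [hm, if_false, add_zero] at h1 ⊢
      constructor
      · linarith
      · intro hne h0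
        apply hne
        rw [h0]
        simp

theorem toolB_fib {α : Type} {γ : Type} [DecidableEq γ] (I : Finset α) (cl : α → γ) (w : γ)
    (x : α → ℝ) (c : ℝ) :
    ∑ i ∈ I, (if cl i = w then x i * c else 0) = (∑ i ∈ fib I cl w, x i) * c := by
  rw [fib, sum_mul, sum_filter]

/-- Proof idea. `S w`, `Γ w` the class and block sums, `D` from `antider` for `d w = Γ (w + 1) - S w`, `t w = μ / 2 + D w ∈ [μ / 4, 3 μ / 4]`, so
`Γ (w + 1) = t (w + 1) + S w - t w`. Put `z i a = f i φ a t w / (S w Γ w)` if `bl a = cl i = w`, `f i φ a (S w - t w) / (S w Γ (w + 1))` if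
`bl a = cl i + 1`, else `0` (`w ≠ w + 1` as `2 ≤ W`), and use `round_matrix`. -/
theorem transport {α β : Type} [DecidableEq α] [DecidableEq β] (W : ℕ) [NeZero W] (hW : 2 ≤ W)
    (I : Finset α) (A : Finset β) (cl : α → ZMod W) (bl : β → ZMod W) (f : α → ℕ) (φ : β → ℕ)
    (μ : ℝ) (hμ : 0 < μ) (hsum : ∑ i ∈ I, f i = ∑ a ∈ A, φ a)
    (hS : ∀ w, |∑ i ∈ fib I cl w, (f i : ℝ) - μ| ≤ μ / (8 * W))
    (hΓ : ∀ w, |∑ a ∈ fib A bl w, (φ a : ℝ) - μ| ≤ μ / (8 * W)) :
    ∃ g : α → β → ℕ, (∀ i ∈ I, ∑ a ∈ A, g i a = f i) ∧ (∀ a ∈ A, ∑ i ∈ I, g i a = φ a) ∧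
      (∀ i ∈ I, ∀ a ∈ A, g i a ≠ 0 → bl a = cl i ∨ bl a = cl i + 1) ∧
      ∀ i ∈ I, ∀ a ∈ A, (g i a : ℝ) < 2 * f i * φ a / μ + 1 := by
  obtain ⟨S, hSd⟩ : ∃ S : ZMod W → ℝ, ∀ w, S w = ∑ i ∈ fib I cl w, (f i : ℝ) := ⟨_, fun _ => rfl⟩
  obtain ⟨Γ, hΓd⟩ : ∃ Γ : ZMod W → ℝ, ∀ w, Γ w = ∑ a ∈ fib A bl w, (φ a : ℝ) := ⟨_, fun _ => rfl⟩
  simp only [← hSd] at hS
  simp only [← hΓd] at hΓ
  have hW' : (2 : ℝ) ≤ W := by exact_mod_cast hW
  have hq : μ / (8 * W) ≤ μ / 16 := div_le_div_of_nonneg_left hμ.le (by norm_num) (by linarith)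
  have hS1 : ∀ w, 15 / 16 * μ ≤ S w := fun w => by
    have := (abs_le.1 (hS w)).1
    linarith
  have hΓ1 : ∀ w, 15 / 16 * μ ≤ Γ w := fun w => by
    have := (abs_le.1 (hΓ w)).1
    linarith
  have hS0 : ∀ w, 0 < S w := fun w => by
    have := hS1 w
    linarith
  have hΓ0 : ∀ w, 0 < Γ w := fun w => by
    have := hΓ1 w
    linarith
  have htot : ∑ w, (Γ (w + 1) - S w) = 0 := by
    have e : ∑ w, Γ (w + 1) = ∑ w, Γ w := Equiv.sum_comp (Equiv.addRight (1 : ZMod W)) Γ
    rw [sum_sub_distrib, e]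
    simp only [hSd, hΓd, fib]
    rw [sum_fiberwise_of_maps_to (fun _ _ => mem_univ _),
      sum_fiberwise_of_maps_to (fun _ _ => mem_univ _)]
    have : ((∑ i ∈ I, f i : ℕ) : ℝ) = ((∑ a ∈ A, φ a : ℕ) : ℝ) := by rw [hsum]
    push_cast at this
    linarith
  obtain ⟨D, hD, hT⟩ := antider W (fun w => Γ (w + 1) - S w) htot
  have hDb : ∀ w, |D w| ≤ μ / 4 := fun w => by
    obtain ⟨T, hT⟩ := hT w
    rw [hT]
    have h1 : ∀ j ∈ T, |Γ (j + 1) - S j| ≤ μ / (8 * W) * 2 := fun j _ => by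
      have a1 := abs_le.1 (hS j)
      have a2 := abs_le.1 (hΓ (j + 1))
      rw [abs_le]
      constructor <;> linarith [a1.1, a1.2, a2.1, a2.2]
    have h2 : (T.card : ℝ) ≤ W := by
      have := card_le_univ T
      rw [ZMod.card] at this
      exact_mod_cast this
    have h3 : 0 ≤ μ / (8 * W) * 2 := by positivity
    calc |∑ j ∈ T, (Γ (j + 1) - S j)| ≤ ∑ j ∈ T, |Γ (j + 1) - S j| := abs_sum_le_sum_abs _ _
      _ ≤ ∑ _j ∈ T, μ / (8 * W) * 2 := sum_le_sum h1
      _ = T.card * (μ / (8 * W) * 2) := by rw [sum_const, nsmul_eq_mul]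
      _ ≤ W * (μ / (8 * W) * 2) := mul_le_mul_of_nonneg_right h2 h3
      _ = μ / 4 := by field_simp; ring
  obtain ⟨t, ht⟩ : ∃ t : ZMod W → ℝ, ∀ w, t w = μ / 2 + D w := ⟨_, fun _ => rfl⟩
  have ht0 : ∀ w, 0 ≤ t w := fun w => by
    have := (abs_le.1 (hDb w)).1
    rw [ht]
    linarith
  have ht1 : ∀ w, 0 ≤ S w - t w := fun w => by
    have := (abs_le.1 (hDb w)).2
    have := hS1 w
    rw [ht]
    linarith
  have hrec : ∀ w, Γ (w + 1) = t (w + 1) + (S w - t w) := fun w => by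
    have := hD w
    rw [ht, ht]
    linarith
  obtain ⟨P, hP⟩ : ∃ P : ZMod W → ℝ, ∀ w, P w = t w / (S w * Γ w) := ⟨_, fun _ => rfl⟩
  obtain ⟨Q, hQ⟩ : ∃ Q : ZMod W → ℝ, ∀ w, Q w = (S w - t w) / (S w * Γ (w + 1)) :=
    ⟨_, fun _ => rfl⟩
  have hP0 : ∀ w, 0 ≤ P w := fun w => by
    rw [hP]
    exact div_nonneg (ht0 w) (mul_pos (hS0 w) (hΓ0 w)).le
  have hQ0 : ∀ w, 0 ≤ Q w := fun w => by
    rw [hQ]
    exact div_nonneg (ht1 w) (mul_pos (hS0 w) (hΓ0 _)).le
  have hPQ : ∀ w, P w + Q w ≤ 2 / μ := fun w => by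
    have a1 : P w ≤ t w / S w * (2 / μ) := by
      rw [hP, ← div_div, div_eq_mul_one_div (t w / S w)]
      refine mul_le_mul_of_nonneg_left ?_ (div_nonneg (ht0 w) (hS0 w).le)
      rw [div_le_div_iff₀ (hΓ0 w) hμ]
      linarith [hΓ1 w]
    have a2 : Q w ≤ (S w - t w) / S w * (2 / μ) := by
      rw [hQ, ← div_div, div_eq_mul_one_div ((S w - t w) / S w)]
      refine mul_le_mul_of_nonneg_left ?_ (div_nonneg (ht1 w) (hS0 w).le)
      rw [div_le_div_iff₀ (hΓ0 _) hμ]
      linarith [hΓ1 (w + 1)]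
    have a3 : t w / S w * (2 / μ) + (S w - t w) / S w * (2 / μ) = 2 / μ := by
      have := (hS0 w).ne'
      field_simp
      ring
    linarith
  obtain ⟨g, hg1, hg2, hg3⟩ := round_matrix I A
    (fun i a => (if bl a = cl i then (φ a : ℝ) * (f i * P (cl i)) else 0) +
      (if bl a = cl i + 1 then (φ a : ℝ) * (f i * Q (cl i)) else 0)) f φ
    (fun i _ a _ => by
      have := hP0 (cl i)
      have := hQ0 (cl i)
      refine add_nonneg ?_ ?_ <;> split_ifs <;> positivity)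
    (fun i _ => by
      rw [sum_add_distrib, toolB_fib, toolB_fib, ← hΓd, ← hΓd, hP, hQ]
      have := (hS0 (cl i)).ne'
      have := (hΓ0 (cl i)).ne'
      have := (hΓ0 (cl i + 1)).ne'
      field_simp
      ring)
    (fun a _ => by
      obtain ⟨v, hv⟩ : ∃ v, bl a = v + 1 := ⟨bl a - 1, by ring⟩
      have e1 : ∀ i ∈ I, ((if bl a = cl i then (φ a : ℝ) * (f i * P (cl i)) else 0) +
          (if bl a = cl i + 1 then (φ a : ℝ) * (f i * Q (cl i)) else 0)) =
          (if cl i = v + 1 then (f i : ℝ) * (φ a * P (v + 1)) else 0) +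
          (if cl i = v then (f i : ℝ) * (φ a * Q v) else 0) := fun i _ => by
        rw [hv]
        congr 1
        · by_cases h : cl i = v + 1
          · rw [if_pos h.symm, if_pos h, h]
            ring
          · rw [if_neg (Ne.symm h), if_neg h]
        · by_cases h : cl i = v
          · rw [if_pos (by rw [h]), if_pos h, h]
            ring
          · rw [if_neg (fun h' => h (add_right_cancel h').symm), if_neg h]
      rw [sum_congr rfl e1, sum_add_distrib, toolB_fib, toolB_fib, ← hSd, ← hSd, hP, hQ]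
      have := (hS0 v).ne'
      have := (hS0 (v + 1)).ne'
      have h3 := (hΓ0 (v + 1)).ne'
      have h4 := hrec v
      field_simp
      rw [h4])
  refine ⟨g, hg1, hg2, fun i hi a ha hne => ?_, fun i hi a ha => ?_⟩
  · have h := (hg3 i hi a ha).2 hne
    by_contra hc
    rw [not_or] at hc
    apply h
    simp only [hc.1, hc.2, if_false, add_zero]
  · have h := (hg3 i hi a ha).1
    have b1 : (if bl a = cl i then (φ a : ℝ) * (f i * P (cl i)) else 0) ≤
        (φ a : ℝ) * (f i * P (cl i)) := by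
      have := hP0 (cl i)
      split_ifs
      · exact le_rfl
      · positivity
    have b2 : (if bl a = cl i + 1 then (φ a : ℝ) * (f i * Q (cl i)) else 0) ≤
        (φ a : ℝ) * (f i * Q (cl i)) := by
      have := hQ0 (cl i)
      split_ifs
      · exact le_rfl
      · positivity
    have b3 : (φ a : ℝ) * f i * (P (cl i) + Q (cl i)) ≤ (φ a : ℝ) * f i * (2 / μ) :=
      mul_le_mul_of_nonneg_left (hPQ _) (by positivity)
    have b4 : (φ a : ℝ) * f i * (2 / μ) = 2 * f i * φ a / μ := by ring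
    nlinarith

end Pool.Agent.MP_4c107d_co.H78

end

section

/-!
Blocks, shifts, balancing by permutations.
-/

set_option autoImplicit false
set_option linter.unusedSectionVars false

namespace Pool.Agent.MP_4c107d_co.H78

open Finset

theorem toolC_cast (m W : ℕ) [NeZero m] (y : ℕ) :
    ((((y : ZMod m).val * W / m : ℕ)) : ZMod W) = ((y * W / m : ℕ) : ZMod W) := by
  have hm : 0 < m := Nat.pos_of_ne_zero (NeZero.ne m)
  have e : y * W = y % m * W + y / m * W * m := by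
    conv_lhs => rw [← Nat.mod_add_div y m]
    ring
  rw [ZMod.val_natCast, e, Nat.add_mul_div_right _ _ hm]
  simp

theorem toolC_fib (m W : ℕ) [NeZero m] [NeZero W] (w : ZMod W) :
    (fib univ (fun a : ZMod m => ((a.val * W / m : ℕ) : ZMod W)) w).card =
      ⌈((w.val + 1 : ℕ) * m / W : ℝ)⌉₊ - ⌈((w.val : ℕ) * m / W : ℝ)⌉₊ := by
  have hm : 0 < m := Nat.pos_of_ne_zero (NeZero.ne m)
  have hW : 0 < W := Nat.pos_of_ne_zero (NeZero.ne W)
  have hW' : (0 : ℝ) < W := by exact_mod_cast hW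
  have key : ∀ j x : ℕ, ⌈((j : ℕ) * m / W : ℝ)⌉₊ ≤ x ↔ j ≤ x * W / m := fun j x => by
    rw [Nat.ceil_le, div_le_iff₀ hW', Nat.le_div_iff_mul_le hm]
    exact_mod_cast Iff.rfl
  have lt : ∀ x : ℕ, x < m → x * W / m < W := fun x hx => by
    rw [Nat.div_lt_iff_lt_mul hm, mul_comm W m]
    exact Nat.mul_lt_mul_of_pos_right hx hW
  have iff : ∀ x : ℕ, x < m → (((x * W / m : ℕ) : ZMod W) = w ↔ x * W / m = w.val) :=
    fun x hx => ⟨fun h => by rw [← h, ZMod.val_natCast, Nat.mod_eq_of_lt (lt x hx)],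
      fun h => by rw [h, ZMod.natCast_zmod_val]⟩
  rw [← Nat.card_Ico]
  refine card_bij (fun a _ => a.val) (fun a ha => ?_) (fun a _ b _ h => ZMod.val_injective m h)
    fun x hx => ?_
  · have h := (iff _ (ZMod.val_lt a)).1 (mem_fib.1 ha).2
    rw [mem_Ico, ← not_le, key, key]
    omega
  · rw [mem_Ico, ← not_le, key, key] at hx
    have hx' : x < m := by
      by_contra hc
      have h1 : W ≤ x * W / m := by
        rw [Nat.le_div_iff_mul_le hm, mul_comm W m]
        exact Nat.mul_le_mul_right _ (not_lt.1 hc)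
      have := ZMod.val_lt w
      omega
    have hv : ((x : ZMod m)).val = x := by rw [ZMod.val_natCast, Nat.mod_eq_of_lt hx']
    refine ⟨(x : ZMod m), mem_fib.2 ⟨mem_univ _, ?_⟩, hv⟩
    rw [hv, iff x hx']
    omega

/-- `bl a = (a.val * W / m : ℕ)`. -/
theorem blocks (m W : ℕ) [NeZero m] [NeZero W] (hW : 3 ≤ W) (h : W ≤ m) :
    ∃ bl : ZMod m → ZMod W, (∀ w, |((fib univ bl w).card : ℝ) - m / W| ≤ 1) ∧
      (∀ a, bl (a + 1) = bl a ∨ bl (a + 1) = bl a + 1) ∧
      ∀ a b, (bl b = bl a + 1 ∨ bl b = bl a + 2) → ((b - a).val : ℝ) ≤ 3 * m / W := by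
  have hm : 0 < m := Nat.pos_of_ne_zero (NeZero.ne m)
  have hW' : (0 : ℝ) < W := by exact_mod_cast (show 0 < W by omega)
  refine ⟨fun a => ((a.val * W / m : ℕ) : ZMod W), fun w => ?_, fun a => ?_, fun a b hab => ?_⟩
  · rw [toolC_fib]
    have e : (((w.val + 1 : ℕ) : ℝ) * m / W) = (w.val : ℕ) * m / W + m / W := by
      push_cast; ring
    have p0 : (0 : ℝ) ≤ (w.val : ℕ) * m / W := by positivity
    have p1 : (0 : ℝ) ≤ m / W := by positivity
    rw [e, Nat.cast_sub (Nat.ceil_mono (by linarith))]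
    have a1 := Nat.le_ceil (((w.val : ℕ) : ℝ) * m / W)
    have a2 := Nat.ceil_lt_add_one p0
    have a3 := Nat.le_ceil (((w.val : ℕ) : ℝ) * m / W + m / W)
    have a4 := Nat.ceil_lt_add_one (add_nonneg p0 p1)
    rw [abs_le]
    constructor <;> linarith
  · have e : a + 1 = ((a.val + 1 : ℕ) : ZMod m) := by simp
    dsimp only
    rw [e, toolC_cast]
    have h1 : a.val * W / m ≤ (a.val + 1) * W / m :=
      Nat.div_le_div_right (Nat.mul_le_mul_right _ (Nat.le_succ _))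
    have h2 : (a.val + 1) * W / m ≤ a.val * W / m + 1 := by
      rw [← Nat.add_div_right _ hm, add_mul, one_mul]
      exact Nat.div_le_div_right (by omega)
    rcases h2.eq_or_lt with h3 | h3
    · right; rw [h3]; simp
    · left; rw [show (a.val + 1) * W / m = a.val * W / m by omega]
  · have e : b = ((a.val + (b - a).val : ℕ) : ZMod m) := by simp
    have hd := ZMod.val_lt (b - a)
    dsimp only at hab
    rw [show b.val = ((a.val + (b - a).val : ℕ) : ZMod m).val by rw [← e], toolC_cast] at hab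
    generalize (b - a).val = d at *
    generalize a.val = x at *
    have h1 : x * W / m ≤ (x + d) * W / m :=
      Nat.div_le_div_right (Nat.mul_le_mul_right _ (Nat.le_add_right _ _))
    have h2 : (x + d) * W / m ≤ x * W / m + W := by
      rw [← Nat.add_mul_div_right _ _ hm, add_mul, mul_comm W m]
      exact Nat.div_le_div_right (Nat.add_le_add_left (Nat.mul_le_mul_right _ hd.le) _)
    obtain ⟨t, ht⟩ := Nat.exists_eq_add_of_le h1
    have h3 : t ≤ 2 := by
      rw [ht, Nat.cast_add, add_right_inj, add_right_inj] at hab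
      have h4 : ∀ i : ℕ, 1 ≤ i → i ≤ 2 → (t : ZMod W) = i → t ≤ 2 := fun i h5 h6 h7 => by
        have h8 := (ZMod.natCast_eq_natCast_iff' _ _ _).1 h7
        rw [Nat.mod_eq_of_lt (show i < W by omega)] at h8
        rcases (show t ≤ W by omega).eq_or_lt with h9 | h9
        · rw [h9, Nat.mod_self] at h8; omega
        · rw [Nat.mod_eq_of_lt h9] at h8; omega
      rcases hab with h5 | h5
      · exact h4 1 le_rfl (by norm_num) (by simpa using h5)
      · exact h4 2 (by norm_num) le_rfl (by simpa using h5)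
    have h4 : (x + d) * W < (x * W / m + 3) * m := (Nat.div_lt_iff_lt_mul hm).1 (by omega)
    have h5 := Nat.div_mul_le_self (x * W) m
    have h6 : d * W ≤ 3 * m := by
      rw [add_mul, add_mul] at h4
      omega
    rw [le_div_iff₀ hW']
    exact_mod_cast h6

theorem shift_count {ι B : Type} [DecidableEq ι] [DecidableEq B] (R : Finset ι) (s : ι → B) (u : ℕ)
    (lo : ∀ a, u ≤ (fib R s a).card) (hi : ∀ a, (fib R s a).card ≤ u + 1) (Z : Finset B) :
    Z.card * u ≤ (R.filter fun i => s i ∈ Z).card ∧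
      (R.filter fun i => s i ∈ Z).card ≤ Z.card * (u + 1) := by
  rw [← sum_card_fiberwise_eq_card_filter]
  exact ⟨card_nsmul_le_sum Z _ u fun a _ => lo a, sum_le_card_nsmul Z _ (u + 1) fun a _ => hi a⟩

/-- number the elements of `R` and reduce modulo `m` -/
theorem exists_shift {ι : Type} [DecidableEq ι] (R : Finset ι) (m : ℕ) [NeZero m] :
    ∃ s : ι → ZMod m, ∀ a, R.card / m ≤ (fib R s a).card ∧ (fib R s a).card ≤ R.card / m + 1 := by
  have hm : 0 < m := Nat.pos_of_ne_zero (NeZero.ne m)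
  refine ⟨fun i => if h : i ∈ R then ((R.equivFin ⟨i, h⟩).val : ZMod m) else 0, fun a => ?_⟩
  have e : (fib R (fun i => if h : i ∈ R then ((R.equivFin ⟨i, h⟩).val : ZMod m) else 0) a).card =
      Nat.count (· ≡ a.val [MOD m]) R.card := by
    have iff : ∀ x : ℕ, (x : ZMod m) = a ↔ x ≡ a.val [MOD m] := fun x => by
      rw [← ZMod.natCast_eq_natCast_iff, ZMod.natCast_zmod_val]
    rw [Nat.count_eq_card_filter_range]
    refine card_bij (fun i hi => (R.equivFin ⟨i, (mem_fib.1 hi).1⟩).val) (fun i hi => ?_)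
      (fun i _ j _ h => ?_) fun x hx => ?_
    · have h := mem_fib.1 hi
      rw [dif_pos h.1] at h
      exact mem_filter.2 ⟨mem_range.2 (Fin.is_lt _), (iff _).1 h.2⟩
    · exact congrArg Subtype.val (R.equivFin.injective (Fin.ext h))
    · obtain ⟨h1, h2⟩ := mem_filter.1 hx
      obtain ⟨⟨i, hi⟩, hi'⟩ := R.equivFin.surjective ⟨x, mem_range.1 h1⟩
      refine ⟨i, mem_fib.2 ⟨hi, ?_⟩, by rw [hi']⟩
      rw [dif_pos hi, hi']
      exact (iff _).2 h2
  rw [e, Nat.count_modEq_card _ hm]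
  split_ifs <;> omega

theorem toolC_swap {A : Type} [DecidableEq A] (S : Finset A) (f : A → ℝ) {a a' : A}
    (h : a ≠ a') : ∑ x ∈ S, f (Equiv.swap a a' x) = ∑ x ∈ S, f x +
      ((if a ∈ S then f a' - f a else 0) + if a' ∈ S then f a - f a' else 0) := by
  rw [← sum_ite_eq' S a fun _ => f a' - f a, ← sum_ite_eq' S a' fun _ => f a - f a',
    ← sum_add_distrib, ← sum_add_distrib]
  refine sum_congr rfl fun x _ => ?_
  by_cases h1 : x = a
  · rw [h1, Equiv.swap_apply_left, if_pos rfl, if_neg h]; ring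
  · by_cases h2 : x = a'
    · rw [if_neg h1, h2, Equiv.swap_apply_right, if_pos rfl]; ring
    · rw [Equiv.swap_apply_of_ne_of_ne h1 h2, if_neg h1, if_neg h2]; ring

theorem toolC_two {A : Type} [DecidableEq A] (S : Finset A) (f g : A → ℝ) {a a' : A}
    (h : a ≠ a') (ha : a ∈ S) (ha' : a' ∈ S) (hfg : ∀ x, x ≠ a → x ≠ a' → f x = g x) :
    ∑ x ∈ S, f x - ∑ x ∈ S, g x = (f a - g a) + (f a' - g a') := by
  rw [← sum_sub_distrib, ← sum_pair (f := fun x => f x - g x) h]
  refine (sum_subset (by simp [insert_subset_iff, ha, ha']) fun x _ hx => ?_).symm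
  simp only [mem_insert, mem_singleton, not_or] at hx
  rw [hfg x hx.1 hx.2, sub_self]

theorem toolC_fix {A : Type} [DecidableEq A] {U : Finset A} {π : Equiv.Perm A}
    (h : ∀ a, a ∉ U → π a = a) {a a' : A} (ha : a ∈ U) (ha' : a' ∈ U) (x : A) (hx : x ∉ U) :
    (π * Equiv.swap a a') x = x := by
  rw [Equiv.Perm.mul_apply, Equiv.swap_apply_of_ne_of_ne (fun e : x = a => hx (e ▸ ha))
    (fun e : x = a' => hx (e ▸ ha')), h x hx]

theorem toolC_first {A B : Type} [Fintype A] [DecidableEq A] [DecidableEq B] (bl : A → B)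
    (U : Finset A) (v : A → ℝ) (M : ℝ) (hM : 0 ≤ M) (hv : ∀ a a', v a - v a' ≤ M)
    (h0 : ∑ a ∈ U, v a = 0) :
    ∃ π : Equiv.Perm A, (∀ a, a ∉ U → π a = a) ∧ ∀ j, |∑ a ∈ fib U bl j, v (π a)| ≤ M := by
  classical
  obtain ⟨π, hπ, hmin⟩ := exists_min_image
    (univ.filter fun π : Equiv.Perm A => ∀ a, a ∉ U → π a = a)
    (fun π => ∑ j ∈ U.image bl, (∑ a ∈ fib U bl j, v (π a)) ^ 2) ⟨1, by simp⟩
  have hπ' := (mem_filter.1 hπ).2
  have tot : ∑ j ∈ U.image bl, ∑ a ∈ fib U bl j, v (π a) = 0 := by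
    unfold fib
    rw [sum_fiberwise_of_maps_to fun a ha => mem_image_of_mem bl ha, ← h0]
    refine Equiv.Perm.sum_comp π U v fun a ha => ?_
    by_contra hc
    exact ha (hπ' a hc)
  have key : ∀ j j', 0 < ∑ a ∈ fib U bl j, v (π a) → ∑ a ∈ fib U bl j', v (π a) < 0 →
      ∑ a ∈ fib U bl j, v (π a) - ∑ a ∈ fib U bl j', v (π a) ≤ M := by
    intro j j' hj hj'
    obtain ⟨a, ha, ha1⟩ : ∃ a ∈ fib U bl j, 0 < v (π a) := by
      by_contra hc
      push Not at hc
      exact absurd (sum_nonpos hc) (not_le.2 hj)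
    obtain ⟨a', ha', ha2⟩ : ∃ a ∈ fib U bl j', v (π a) < 0 := by
      by_contra hc
      push Not at hc
      exact absurd (sum_nonneg hc) (not_le.2 hj')
    have hjj : j ≠ j' := by rintro rfl; linarith
    obtain ⟨u1, b1⟩ := mem_fib.1 ha
    obtain ⟨u2, b2⟩ := mem_fib.1 ha'
    have haa : a ≠ a' := by rintro rfl; linarith
    have h1 := hmin (π * Equiv.swap a a') (mem_filter.2 ⟨mem_univ _, toolC_fix hπ' u1 u2⟩)
    have sw := fun i => toolC_swap (fib U bl i) (fun x => v (π x)) haa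
    simp only [Equiv.Perm.mul_apply] at h1
    have h2 := toolC_two (U.image bl)
      (fun i => (∑ x ∈ fib U bl i, v (π (Equiv.swap a a' x))) ^ 2)
      (fun i => (∑ x ∈ fib U bl i, v (π x)) ^ 2) hjj (mem_image.2 ⟨a, u1, b1⟩)
      (mem_image.2 ⟨a', u2, b2⟩) fun i hi hi' => by
        rw [sw i, if_neg fun h => hi ((mem_fib.1 h).2.symm.trans b1),
          if_neg fun h => hi' ((mem_fib.1 h).2.symm.trans b2)]
        simp
    rw [sw j, sw j', if_pos ha, if_pos ha',
      if_neg fun h => hjj ((mem_fib.1 h).2.symm.trans b2),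
      if_neg fun h => hjj (b1.symm.trans (mem_fib.1 h).2)] at h2
    have h3 := hv (π a) (π a')
    by_contra hc
    push Not at hc
    have h4 : 0 < v (π a) - v (π a') := by linarith
    have h5 := mul_pos h4 (show 0 < ∑ a ∈ fib U bl j, v (π a) - ∑ a ∈ fib U bl j', v (π a) -
      (v (π a) - v (π a')) by linarith)
    nlinarith
  have img : ∀ j, ∑ a ∈ fib U bl j, v (π a) ≠ 0 → j ∈ U.image bl := fun j hj => by
    obtain ⟨a, ha, -⟩ := exists_ne_zero_of_sum_ne_zero hj
    exact mem_image.2 ⟨a, mem_fib.1 ha⟩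
  refine ⟨π, hπ', fun j => abs_le.2 ⟨?_, ?_⟩⟩
  · by_contra hc
    push Not at hc
    obtain ⟨j', -, hj'⟩ : ∃ j' ∈ U.image bl, 0 < ∑ a ∈ fib U bl j', v (π a) := by
      by_contra hd
      push Not at hd
      have := (sum_eq_zero_iff_of_nonpos hd).1 tot j (img j (by linarith))
      linarith
    linarith [key j' j hj' (by linarith)]
  · by_contra hc
    push Not at hc
    obtain ⟨j', -, hj'⟩ : ∃ j' ∈ U.image bl, ∑ a ∈ fib U bl j', v (π a) < 0 := by
      by_contra hd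
      push Not at hd
      have := (sum_eq_zero_iff_of_nonneg hd).1 tot j (img j (by linarith))
      linarith
    linarith [key j j' (by linarith) hj']

/-- Two minimisations over finite sets of permutations. -/
theorem balance1 {A B : Type} [Fintype A] [Nonempty A] [DecidableEq A] [DecidableEq B] (bl : A → B)
    (U : Finset A) (v w : A → ℝ) (M s : ℝ) (hv : ∀ a, 0 ≤ v a ∧ v a ≤ M) (hMs : M ≤ s)
    (hw : ∀ a a', bl a = bl a' → w a - w a' ≤ s) :
    ∃ π : Equiv.Perm A, (∀ a, a ∉ U → π a = a) ∧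
      (∀ a ∈ U, ∀ a' ∈ U, bl a = bl a' → (w a + v (π a)) - (w a' + v (π a')) ≤ s) ∧
      ∀ j, |∑ a ∈ fib U bl j, v (π a) - (fib U bl j).card * ((∑ a ∈ U, v a) / U.card)| ≤ M := by
  classical
  have hM : 0 ≤ M := (hv (Classical.arbitrary A)).1.trans (hv _).2
  have hvv : ∀ a a', v a - v a' ≤ M := fun a a' => by linarith [(hv a).2, (hv a').1]
  obtain ⟨π₁, p1, p2⟩ := toolC_first bl U (fun a => v a - (∑ a ∈ U, v a) / U.card) M hM
    (fun a a' => by linarith [hvv a a']) (by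
      rw [sum_sub_distrib, sum_const, nsmul_eq_mul]
      rcases U.eq_empty_or_nonempty with rfl | hU
      · simp
      · have : (U.card : ℝ) ≠ 0 := by exact_mod_cast hU.card_pos.ne'
        field_simp
        ring)
  simp only [sum_sub_distrib, sum_const, nsmul_eq_mul] at p2
  obtain ⟨π, hπ, hmin⟩ := exists_min_image
    (univ.filter fun π : Equiv.Perm A => (∀ a, a ∉ U → π a = a) ∧ ∀ j,
      |∑ a ∈ fib U bl j, v (π a) - (fib U bl j).card * ((∑ a ∈ U, v a) / U.card)| ≤ M)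
    (fun π => ∑ a, (w a + v (π a)) ^ 2) ⟨π₁, mem_filter.2 ⟨mem_univ _, p1, p2⟩⟩
  obtain ⟨q1, q2⟩ := (mem_filter.1 hπ).2
  refine ⟨π, q1, fun a ha a' ha' hb => ?_, q2⟩
  by_cases haa : a = a'
  · rw [haa]; linarith
  have h1 := hmin (π * Equiv.swap a a') (mem_filter.2 ⟨mem_univ _, toolC_fix q1 ha ha', fun j => by
    simp only [Equiv.Perm.mul_apply]
    rw [toolC_swap (fib U bl j) (fun x => v (π x)) haa]
    by_cases hj : bl a = j
    · rw [if_pos (mem_fib.2 ⟨ha, hj⟩), if_pos (mem_fib.2 ⟨ha', hb.symm.trans hj⟩)]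
      convert q2 j using 2
      ring
    · rw [if_neg fun h => hj (mem_fib.1 h).2, if_neg fun h => hj (hb.trans (mem_fib.1 h).2)]
      simpa using q2 j⟩)
  simp only [Equiv.Perm.mul_apply] at h1
  have h2 := toolC_two univ (fun x => (w x + v (π (Equiv.swap a a' x))) ^ 2)
    (fun x => (w x + v (π x)) ^ 2) haa (mem_univ _) (mem_univ _) fun x hx hx' => by
      rw [Equiv.swap_apply_of_ne_of_ne hx hx']
  rw [Equiv.swap_apply_left, Equiv.swap_apply_right] at h2
  have h3 : (w a - w a') * (v (π a) - v (π a')) ≤ 0 := by nlinarith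
  have h4 := hw a a' hb
  have h5 := hvv (π a) (π a')
  by_contra hc
  push Not at hc
  have h6 := mul_pos (show 0 < w a - w a' by linarith) (show 0 < v (π a) - v (π a') by linarith)
  linarith

/-- Induction on `Γ` with `balance1`. -/
theorem balance {A B G : Type} [Fintype A] [Nonempty A] [DecidableEq A] [DecidableEq B] [DecidableEq G]
    (bl : A → B) (Γ : Finset G) (U : G → Finset A)
    (hU : ∀ g ∈ Γ, ∀ a a', bl a = bl a' → a ∈ U g → a' ∈ U g) (v : G → A → ℝ) (w : A → ℝ)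
    (M s : ℝ) (hv : ∀ g ∈ Γ, ∀ a, 0 ≤ v g a ∧ v g a ≤ M) (hMs : M ≤ s)
    (hw : ∀ a a', bl a = bl a' → w a - w a' ≤ s) :
    ∃ π : G → Equiv.Perm A, (∀ g ∈ Γ, ∀ a, a ∉ U g → π g a = a) ∧
      (∀ a a', bl a = bl a' → (w a + ∑ g ∈ Γ.filter (fun g => a ∈ U g), v g (π g a))
        - (w a' + ∑ g ∈ Γ.filter (fun g => a' ∈ U g), v g (π g a')) ≤ s) ∧
      ∀ g ∈ Γ, ∀ j, |∑ a ∈ fib (U g) bl j, v g (π g a)
        - (fib (U g) bl j).card * ((∑ a ∈ U g, v g a) / (U g).card)| ≤ M := by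
  induction Γ using Finset.induction_on with
  | empty => exact ⟨fun _ => 1, by simp, by simpa using hw, by simp⟩
  | insert g Γ hg ih =>
    obtain ⟨π, p1, p2, p3⟩ := ih (fun g' h => hU g' (mem_insert_of_mem h))
      fun g' h => hv g' (mem_insert_of_mem h)
    obtain ⟨ρ, r1, r2, r3⟩ := balance1 bl (U g) (v g)
      (fun a => w a + ∑ g ∈ Γ.filter (fun g => a ∈ U g), v g (π g a)) M s
      (hv g (mem_insert_self _ _)) hMs p2
    have up : ∀ g' ∈ Γ, Function.update π g ρ g' = π g' := fun g' h =>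
      Function.update_of_ne (fun e : g' = g => hg (e ▸ h)) _ _
    have sm : ∀ a, ∑ g' ∈ (insert g Γ).filter (fun g => a ∈ U g), v g' (Function.update π g ρ g' a) =
        ∑ g ∈ Γ.filter (fun g => a ∈ U g), v g (π g a) + if a ∈ U g then v g (ρ a) else 0 :=
      fun a => by
        rw [sum_filter, sum_insert hg, Function.update_self, add_comm, sum_filter]
        congr 1
        exact sum_congr rfl fun g' h => by rw [up g' h]
    refine ⟨Function.update π g ρ, fun g' h => ?_, fun a a' hb => ?_, fun g' h => ?_⟩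
    · rcases mem_insert.1 h with rfl | h
      · rw [Function.update_self]; exact r1
      · rw [up g' h]; exact p1 g' h
    · rw [sm, sm]
      by_cases ha : a ∈ U g
      · have ha' := hU g (mem_insert_self _ _) a a' hb ha
        rw [if_pos ha, if_pos ha']
        linarith [r2 a ha a' ha' hb]
      · rw [if_neg ha, if_neg fun h => ha (hU g (mem_insert_self _ _) a' a hb.symm h)]
        linarith [p2 a a' hb]
    · rcases mem_insert.1 h with rfl | h
      · rw [Function.update_self]; exact r3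
      · rw [up g' h]; exact p3 g' h

end Pool.Agent.MP_4c107d_co.H78

end

section

/-!
Making the column sums exact.
-/

set_option autoImplicit false
set_option linter.unusedSectionVars false

namespace Pool.Agent.MP_4c107d_co.H78

open Finset

theorem flex_parity {ι : Type} [DecidableEq ι] {m : ℕ} [NeZero m] (R : Finset ι) (s : ι → ZMod m)
    (hne : ∀ a, (fib R s a).Nonempty) (D : ZMod m → ℕ) (hD1 : ∀ a, 1 ≤ D a) (K : ℕ)
    (hs : ∑ a, D a = 2 * K) :
    ∃ Mv ⊆ R, ∃ φ : ZMod m → ℕ, ∑ a, φ a = K ∧ (∀ a, 2 * φ a ≤ D a + 1 ∧ D a ≤ 2 * φ a + 1) ∧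
      ∀ a, 2 * φ a + (Mv.filter fun i => s i - 4 = a).card
        = D a + (Mv.filter fun i => s i - 5 = a).card := by
  classical
  have hsum : ∑ w : ZMod m, ((D (w + 1) : ℕ) : ZMod 2) = 0 := by
    have h1 : ∑ w : ZMod m, ((D (w + 1) : ℕ) : ZMod 2) = ∑ w : ZMod m, ((D w : ℕ) : ZMod 2) :=
      Fintype.sum_equiv (Equiv.addRight 1) _ _ (fun w => rfl)
    rw [h1, ← Nat.cast_sum, hs, Nat.cast_mul]
    have : ((2 : ℕ) : ZMod 2) = 0 := by decide
    rw [this, zero_mul]
  obtain ⟨X, hX, -⟩ := antider m (fun w => ((D (w + 1) : ℕ) : ZMod 2)) hsum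
  have hr : ∀ a : ZMod m, ∃ i, i ∈ R ∧ s i = a + 5 := fun a => by
    obtain ⟨i, hi⟩ := hne (a + 5)
    exact ⟨i, mem_fib.1 hi⟩
  choose r hrR hrs using hr
  have hX01 : ∀ y : ZMod 2, y = 0 ∨ y = 1 := by decide
  have hcount : ∀ a, (((univ.filter fun b => X b = 1).image r).filter fun i => s i - 5 = a).card
      = (X a).val := by
    intro a
    rcases hX01 (X a) with h | h
    · rw [h, ZMod.val_zero, card_eq_zero, filter_eq_empty_iff]
      intro i hi hia
      obtain ⟨b, hb, rfl⟩ := mem_image.1 hi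
      rw [hrs, add_sub_cancel_right] at hia
      rw [mem_filter, hia, h] at hb
      exact absurd hb.2 (by decide)
    · have h1 : (X a).val = 1 := by rw [h]; decide
      rw [h1, card_eq_one]
      refine ⟨r a, ?_⟩
      ext i
      simp only [mem_filter, mem_image, mem_univ, true_and, mem_singleton]
      constructor
      · rintro ⟨⟨b, -, rfl⟩, hia⟩
        rw [hrs, add_sub_cancel_right] at hia
        rw [hia]
      · rintro rfl
        exact ⟨⟨a, h, rfl⟩, by rw [hrs, add_sub_cancel_right]⟩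
  have hcount4 : ∀ a, (((univ.filter fun b => X b = 1).image r).filter fun i => s i - 4 = a).card
      = (X (a - 1)).val := by
    intro a
    rw [← hcount (a - 1)]
    congr 1
    refine filter_congr fun i _ => ?_
    constructor
    · intro h
      rw [← h]; ring
    · intro h
      have : s i - 4 = s i - 5 + 1 := by ring
      rw [this, h]; ring
  have hle : ∀ a, (X a).val ≤ 1 := fun a => by
    have := ZMod.val_lt (X a)
    omega
  have hpar : ∀ a, (D a + (X a).val + (X (a - 1)).val) % 2 = 0 := by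
    intro a
    have h1 := hX (a - 1)
    simp only [sub_add_cancel] at h1
    have h2 : ((D a + (X a).val + (X (a - 1)).val : ℕ) : ZMod 2) = 0 := by
      rw [Nat.cast_add, Nat.cast_add, ZMod.natCast_zmod_val, ZMod.natCast_zmod_val, ← h1]
      have : ∀ y z : ZMod 2, y - z + y + z = 0 := by decide
      exact this _ _
    exact Nat.mod_eq_zero_of_dvd ((ZMod.natCast_eq_zero_iff _ _).1 h2)
  have hkey : ∀ a, 2 * ((D a + (X a).val - (X (a - 1)).val) / 2) + (X (a - 1)).val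
      = D a + (X a).val := by
    intro a
    have := hpar a
    have := hle a
    have := hle (a - 1)
    have := hD1 a
    omega
  refine ⟨(univ.filter fun b => X b = 1).image r, ?_,
    fun a => (D a + (X a).val - (X (a - 1)).val) / 2, ?_, ?_, ?_⟩
  · intro i hi
    obtain ⟨b, -, rfl⟩ := mem_image.1 hi
    exact hrR b
  · have h1 := sum_congr (s₁ := (univ : Finset (ZMod m))) rfl fun a _ => hkey a
    rw [sum_add_distrib, sum_add_distrib, ← mul_sum, hs] at h1
    have h2 : ∑ a : ZMod m, (X (a - 1)).val = ∑ a : ZMod m, (X a).val :=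
      Fintype.sum_equiv (Equiv.subRight 1) _ _ (fun w => rfl)
    beta_reduce
    omega
  · intro a
    have := hkey a
    have := hle a
    have := hle (a - 1)
    beta_reduce
    constructor <;> omega
  · intro a
    rw [hcount, hcount4]
    exact hkey a

theorem flex_sum_close {α : Type} (S : Finset α) (f : α → ℝ) (c e : ℝ)
    (h : ∀ a ∈ S, |f a - c| ≤ e) : |∑ a ∈ S, f a - S.card * c| ≤ S.card * e := by
  have h1 : ∑ a ∈ S, f a - S.card * c = ∑ a ∈ S, (f a - c) := by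
    rw [sum_sub_distrib, sum_const, nsmul_eq_mul]
  rw [h1]
  refine (abs_sum_le_sum_abs _ _).trans ?_
  have := sum_le_card_nsmul S (fun a => |f a - c|) e h
  rwa [nsmul_eq_mul] at this

theorem flex_num1 (m u F k G : ℝ) (hm : 10 ^ 6 ≤ m) (hu : 10 ^ 4 ≤ u) (hF : 10 ^ 4 ≤ F)
    (hk : |k - m / 20| ≤ 1) (hG : |G - k * (F * u)| ≤ k * (F * u / 500)) :
    |G - F * m * u / 20| ≤ F * m * u / 20 / (8 * 20) := by
  have hFu : 0 < F * u := by positivity
  obtain ⟨hk1, hk2⟩ := abs_le.1 hk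
  obtain ⟨hG1, hG2⟩ := abs_le.1 hG
  have e1 : k * (F * u) ≤ (m / 20 + 1) * (F * u) :=
    mul_le_mul_of_nonneg_right (by linarith) hFu.le
  have e2 : (m / 20 - 1) * (F * u) ≤ k * (F * u) :=
    mul_le_mul_of_nonneg_right (by linarith) hFu.le
  have e3 : 10 ^ 6 * (F * u) ≤ m * (F * u) := mul_le_mul_of_nonneg_right hm hFu.le
  rw [abs_le]
  constructor <;> nlinarith

theorem flex_num2 (m u F k N G : ℝ) (hm : 10 ^ 6 ≤ m) (hu : 10 ^ 4 ≤ u) (hF : 10 ^ 4 ≤ F)
    (hk : |k - m / 20| ≤ 1) (hN1 : k * u ≤ N) (hN2 : N ≤ k * (u + 1))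
    (hG : |G - N * F| ≤ N * (F / 1000)) :
    |G - F * m * u / 20| ≤ F * m * u / 20 / (8 * 20) := by
  have hF0 : 0 < F := by linarith
  have hu0 : 0 < u := by linarith
  have hm0 : 0 < m := by linarith
  obtain ⟨hk1, hk2⟩ := abs_le.1 hk
  obtain ⟨hG1, hG2⟩ := abs_le.1 hG
  have e1 : k * (u + 1) ≤ (m / 20 + 1) * (u + 1) :=
    mul_le_mul_of_nonneg_right (by linarith) (by linarith)
  have e2 : (m / 20 - 1) * u ≤ k * u := mul_le_mul_of_nonneg_right (by linarith) hu0.le
  have e3 : 10 ^ 6 * u ≤ m * u := mul_le_mul_of_nonneg_right hm hu0.le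
  have e4 : m * 10 ^ 4 ≤ m * u := mul_le_mul_of_nonneg_left hu hm0.le
  have n1 : N ≤ m * u / 20 * (1 + 1 / 1000) := by nlinarith
  have n2 : m * u / 20 * (1 - 1 / 1000) ≤ N := by nlinarith
  have p1 : N * F ≤ m * u / 20 * (1 + 1 / 1000) * F := mul_le_mul_of_nonneg_right n1 hF0.le
  have p2 : m * u / 20 * (1 - 1 / 1000) * F ≤ N * F := mul_le_mul_of_nonneg_right n2 hF0.le
  have p3 : 0 < m * u * F := by positivity
  rw [abs_le]
  constructor <;> nlinarith

theorem flex_num3 (m u F x y : ℝ) (hu : 10 ^ 4 ≤ u) (hF : 10 ^ 4 ≤ F) (hFm : 100 * F ≤ m)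
    (hx : x ≤ 2 * F) (hy0 : 0 ≤ y) (hy : y ≤ 1.1 * (F * u)) :
    2 * x * y / (F * m * u / 20) ≤ 1 := by
  have hF0 : 0 < F := by linarith
  have hu0 : 0 < u := by linarith
  have hm0 : 0 < m := by linarith
  rw [div_le_one (by positivity)]
  have h1 : x * y ≤ 2 * F * (1.1 * (F * u)) := mul_le_mul hx hy hy0 (by linarith)
  have h2 : 100 * F * (F * u) ≤ m * (F * u) := mul_le_mul_of_nonneg_right hFm (by positivity)
  nlinarith

/-- Proof idea. Parity: `antider` in `ZMod 2` with `W = m`, `d w = D (w + 1)` gives `X` with `X (w + 1) - X w = D (w + 1)`; for every `a` with `X a = 1` put one `i ∈ R` with `s i = a + 5` into `Mv`. Then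
`D' a = D a + x a - x (a - 1)` is even (`x a = (X a).val`), `φ = D' / 2`, `∑ φ = ∑ f`. Use `blocks m 20`, `c = (3 m + 4) / 5`, `cl i = bl (s i + c) + 1`, `transport` with `μ = F m u / 20` (class sums by `shift_count`);
`g i a < 2`, `Fc i = {a | g i a = 1}`, and `(a - s i).val = c + (a - (s i + c)).val`. -/
theorem flexII {ι : Type} [DecidableEq ι] {m : ℕ} [NeZero m] (R : Finset ι) (s : ι → ZMod m) (u : ℕ)
    (lo : ∀ a, u ≤ (fib R s a).card) (hi : ∀ a, (fib R s a).card ≤ u + 1) (f : ι → ℕ)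
    (D : ZMod m → ℕ) (F : ℝ) (hm : 10 ^ 6 ≤ m) (hu : 10 ^ 4 ≤ u) (hF : 10 ^ 4 ≤ F)
    (hFm : 100 * F ≤ m) (hf : ∀ i ∈ R, |(f i : ℝ) - F| ≤ F / 1000)
    (hD : ∀ a, |(D a : ℝ) - 2 * F * u| ≤ F * u / 500) (hs : ∑ a, D a = 2 * ∑ i ∈ R, f i) :
    ∃ Mv ⊆ R, ∃ Fc : ι → Finset (ZMod m),
      (∀ i ∈ R, (Fc i).card = f i ∧
        ∀ a ∈ Fc i, 3 * m ≤ 5 * (a - s i).val ∧ 25 * (a - s i).val ≤ 19 * m) ∧
      ∀ a, 2 * (R.filter fun i => a ∈ Fc i).card + (Mv.filter fun i => s i - 4 = a).card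
        = D a + (Mv.filter fun i => s i - 5 = a).card := by
  classical
  have hmR : (10 : ℝ) ^ 6 ≤ m := by exact_mod_cast hm
  have huR : (10 : ℝ) ^ 4 ≤ u := by exact_mod_cast hu
  have hFu : (10 : ℝ) ^ 8 ≤ F * u := by nlinarith
  have hne : ∀ a, (fib R s a).Nonempty := fun a => card_pos.1 (by have := lo a; omega)
  have hD1 : ∀ a, 1 ≤ D a := fun a => by
    have h1 := (abs_le.1 (hD a)).1
    have h2 : (1 : ℝ) ≤ D a := by nlinarith
    exact_mod_cast h2
  obtain ⟨Mv, hMv, φ, hφs, hφ, hcol⟩ := flex_parity R s hne D hD1 _ hs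
  have hφR : ∀ a, |(φ a : ℝ) - F * u| ≤ F * u / 500 := fun a => by
    obtain ⟨h1, h2⟩ := abs_le.1 (hD a)
    have h3 : (2 : ℝ) * φ a ≤ D a + 1 := by exact_mod_cast (hφ a).1
    have h4 : (D a : ℝ) ≤ 2 * φ a + 1 := by exact_mod_cast (hφ a).2
    rw [abs_le]
    constructor <;> nlinarith
  obtain ⟨bl, hbl, -, hbl3⟩ := blocks m 20 (by norm_num) (by omega)
  have hbl' : ∀ w, |((fib univ bl w).card : ℝ) - m / 20| ≤ 1 := fun w => by
    simpa using hbl w
  set c : ℕ := (3 * m + 4) / 5 with hc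
  have hμ : 0 < F * m * u / 20 := by
    have : 0 < F := by linarith
    have : (0 : ℝ) < m := by linarith
    have : (0 : ℝ) < u := by linarith
    positivity
  obtain ⟨g, hg1, hg2, hg3, hg4⟩ := transport 20 (by norm_num) R (univ : Finset (ZMod m))
    (fun i => bl (s i + (c : ZMod m)) + 1) bl f φ (F * m * u / 20) hμ hφs.symm
    (by
      intro w
      have hZ : (univ.filter fun b : ZMod m => bl (b + (c : ZMod m)) + 1 = w).card
          = (fib univ bl (w - 1)).card := by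
        refine card_bij (fun b _ => b + (c : ZMod m)) ?_ ?_ ?_
        · intro b hb
          rw [mem_filter] at hb
          rw [mem_fib]
          exact ⟨mem_univ _, by rw [← hb.2]; ring⟩
        · intro b _ b' _ h
          exact add_right_cancel h
        · intro b hb
          rw [mem_fib] at hb
          refine ⟨b - (c : ZMod m), ?_, by ring⟩
          rw [mem_filter, sub_add_cancel, hb.2]
          exact ⟨mem_univ _, by ring⟩
      have hsc := shift_count R s u lo hi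
        (univ.filter fun b : ZMod m => bl (b + (c : ZMod m)) + 1 = w)
      have hfib : (R.filter fun i => s i ∈
          (univ.filter fun b : ZMod m => bl (b + (c : ZMod m)) + 1 = w))
          = fib R (fun i => bl (s i + (c : ZMod m)) + 1) w := by
        ext i
        simp [mem_fib]
      rw [hfib, hZ] at hsc
      have h1 := flex_sum_close (fib R (fun i => bl (s i + (c : ZMod m)) + 1) w)
        (fun i => (f i : ℝ)) F (F / 1000) fun i hi => hf i (fib_subset _ _ _ hi)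
      have h2 := flex_num2 m u F _ _ _ hmR huR hF (hbl' (w - 1)) (by exact_mod_cast hsc.1)
        (by exact_mod_cast hsc.2) h1
      simpa using h2)
    (by
      intro w
      have h1 := flex_sum_close (fib univ bl w) (fun a => (φ a : ℝ)) (F * u) (F * u / 500)
        fun a _ => hφR a
      have h2 := flex_num1 m u F _ _ hmR huR hF (hbl' w) h1
      simpa using h2)
  have hg01 : ∀ i ∈ R, ∀ a, g i a ≤ 1 := by
    intro i hi a
    have h1 := hg4 i hi a (mem_univ a)
    have h2 := flex_num3 m u F (f i) (φ a) huR hF hFm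
      (by have := (abs_le.1 (hf i hi)).2; linarith) (Nat.cast_nonneg _)
      (by have := (abs_le.1 (hφR a)).2; linarith)
    have h3 : (g i a : ℝ) < 2 := by linarith
    have h4 : g i a < 2 := by exact_mod_cast h3
    omega
  have hind : ∀ i ∈ R, ∀ a, (if g i a = 1 then 1 else 0) = g i a := by
    intro i hi a
    have := hg01 i hi a
    split_ifs <;> omega
  refine ⟨Mv, hMv, fun i => univ.filter fun a => g i a = 1, ?_, ?_⟩
  · intro i hi
    constructor
    · rw [card_filter, ← hg1 i hi]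
      exact sum_congr rfl fun a _ => hind i hi a
    · intro a ha
      have ha1 : g i a = 1 := (mem_filter.1 ha).2
      have h1 := hg3 i hi a (mem_univ a) (by omega)
      have h2 := hbl3 (s i + (c : ZMod m)) a (by
        rcases h1 with h | h
        · exact Or.inl h
        · exact Or.inr (by rw [h]; ring))
      have h3 : 20 * (a - (s i + (c : ZMod m))).val ≤ 3 * m := by
        have h4 : (20 : ℝ) * ((a - (s i + (c : ZMod m))).val : ℝ) ≤ 3 * m := by
          have h5 : ((20 : ℕ) : ℝ) = 20 := by norm_num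
          rw [h5] at h2
          linarith
        exact_mod_cast h4
      have hcm : c < m := by omega
      have hcv : (c : ZMod m).val = c := ZMod.val_cast_of_lt hcm
      have h6 : a - s i = (c : ZMod m) + (a - (s i + (c : ZMod m))) := by ring
      have h7 : (a - s i).val = c + (a - (s i + (c : ZMod m))).val := by
        rw [h6, ZMod.val_add_of_lt (by rw [hcv]; omega), hcv]
      omega
  · intro a
    have h1 : (R.filter fun i => a ∈ univ.filter fun a => g i a = 1).card = φ a := by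
      rw [card_filter, ← hg2 a (mem_univ a)]
      refine sum_congr rfl fun i hi => ?_
      rw [← hind i hi a]
      simp
    rw [h1]
    exact hcol a

end Pool.Agent.MP_4c107d_co.H78

end

end
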