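import Pool.Agent.MP_4c107d_co.Mg.H78_C

-- part MP_4c107d_co.H78.D
section

section

/-!
Definitions for the case of trees with few leaves. The columns are `ZMod m`, `m = 2 n - 1`.
-/

set_option autoImplicit false
set_option linter.unusedSectionVars false

namespace Pool.Agent.MP_4c107d_co.H78

open Finset

/-- the step from the `t`-th visited column to the next one -/
def stp (t : ℕ) : ℕ := if t % 20 = 0 then 2 else if t % 20 = 10 then 3 else 1
/-- the offset of the `t`-th visited column -/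
def gp (t : ℕ) : ℕ := t + (t + 19) / 20 + 2 * ((t + 9) / 20)

theorem gp_succ (t : ℕ) : gp (t + 1) = gp t + stp t := by
  unfold gp stp; split_ifs <;> omega
theorem gp_strictMono : StrictMono gp := strictMono_nat_of_lt_succ fun t => by
  rw [gp_succ]; unfold stp; split_ifs <;> omega
theorem gp_le (t : ℕ) : 20 * gp t ≤ 23 * t + 37 := by unfold gp; omega
theorem stp_mem (t : ℕ) : stp t = 1 ∨ stp t = 2 ∨ stp t = 3 := by unfold stp; split_ifs <;> simp

/-- a core `X0, Y0` and a periodic enumeration `e` of the other column vertices; if `lk t` then `yy t` is the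
common neighbour of `e t` and `e (t + 1)` -/
structure ChD (n : ℕ) where
  T : RT n
  y0 : Fin n
  x1 : Fin n
  y1 : Fin n
  X0 : Finset (Fin n)
  Y0 : Finset (Fin n)
  N : ℕ
  e : ℕ → Fin n
  yy : ℕ → Fin n
  lk : ℕ → Bool

structure ChD.Good {n : ℕ} (C : ChD n) (E : Gr n) (b : ℝ) : Prop where
  tree : C.T.Good E
  h0 : nY E C.y0 = {C.T.root}
  h1 : nX E C.x1 = {C.y1}
  x1r : C.x1 ≠ C.T.root
  rmem : C.T.root ∈ C.X0
  xmem : C.x1 ∈ C.X0
  ymem : C.y1 ∈ C.Y0
  ynot : C.y0 ∉ C.Y0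
  nbY : ∀ y ∈ C.Y0, nY E y ⊆ C.X0
  dY2 : ∀ y, y ∉ C.Y0 → y ≠ C.y0 → dY E y = 2
  dX2 : ∀ x, x ∉ C.X0 → dX E x = 2
  sX : (∑ x ∈ C.X0, dX E x : ℕ) ≤ b
  sY : (∑ y ∈ C.Y0, dY E y : ℕ) ≤ b
  hN : C.N + C.X0.card = n
  eper : ∀ t, C.e (t + C.N) = C.e t
  yper : ∀ t, C.yy (t + C.N) = C.yy t
  lper : ∀ t, C.lk (t + C.N) = C.lk t
  einj : ∀ t < C.N, ∀ t' < C.N, C.e t = C.e t' → t = t'
  enot : ∀ t < C.N, C.e t ∉ C.X0
  esur : ∀ x, x ∉ C.X0 → ∃ t < C.N, C.e t = x
  link : ∀ t < C.N, C.lk t = true →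
    nY E (C.yy t) = {C.e t, C.e (t + 1)} ∧ C.yy t ∉ C.Y0 ∧ C.yy t ≠ C.y0
  yinj : ∀ t < C.N, ∀ t' < C.N, C.lk t = true → C.lk t' = true → C.yy t = C.yy t' → t = t'
  few : (((range C.N).filter fun t => C.lk t = false).card : ℝ) ≤ b

/-- the chain vertices -/
def ChD.ch {n : ℕ} (C : ChD n) (Nc : ℕ) : Finset (Fin n) := (range Nc).image C.e
/-- the row vertices inside the chain -/
def ChD.inn {n : ℕ} (C : ChD n) (Nc : ℕ) : Finset (Fin n) :=
  ((range (Nc - 1)).filter fun t => C.lk t = true).image C.yy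

/-- the length of the chain -/
def NC (n : ℕ) : ℕ := n - n / 10 ^ 6

section
variable {ι : Type} [DecidableEq ι] {n m : ℕ}

/-- standing assumptions: `R ⊆ I` are the regular trees, `s` their shifts -/
structure Two (E : ι → Gr n) (I R : Finset ι) (m : ℕ) (s : ι → ZMod m) (u : ℕ) : Prop where
  hm : m + 1 = 2 * n
  hn : 10 ^ 20 ≤ n
  hk : 10 ^ 20 * n ≤ I.card
  sub : R ⊆ I
  junk : 10 ^ 16 * (I \ R).card ≤ I.card
  tr : ∀ i ∈ I, Tr (E i)
  lo : ∀ a, u ≤ (fib R s a).card
  hi : ∀ a, (fib R s a).card ≤ u + 1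

/-- the number of broken links that start in column `a` -/
def junc (R : Finset ι) (C : ι → ChD n) (s : ι → ZMod m) (a : ZMod m) : ℕ :=
  ∑ i ∈ R, ((range (NC n - 1)).filter fun t => (C i).lk t = false ∧ s i + (gp t : ZMod m) = a).card

/-- columns at distance at most one -/
def nb1 (a : ZMod m) : Finset (ZMod m) := {a - 1, a, a + 1}

/-- no three consecutive columns -/
def No3 (H : Finset (ZMod m)) : Prop := ∀ a ∈ H, a + 1 ∈ H → a + 2 ∉ H

/-- columns at distance at most two -/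
def nb2 (a : ZMod m) : Finset (ZMod m) := {a - 2, a - 1, a, a + 1, a + 2}

instance [NeZero m] (H : Finset (ZMod m)) : Decidable (No3 H) :=
  inferInstanceAs (Decidable (∀ a ∈ H, a + 1 ∈ H → a + 2 ∉ H))

/-- the columns that can be added to `H` -/
def gd1 [NeZero m] (H : Finset (ZMod m)) : Finset (ZMod m) :=
  univ.filter fun a => a ∉ H ∧ No3 (insert a H)

/-- the columns that can be added to `H` so that many further columns can be added -/
def gd2 [NeZero m] (H : Finset (ZMod m)) : Finset (ZMod m) :=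
  (gd1 H).filter fun a => m ≤ 8 * (gd1 (insert a H)).card

/-- two more holes can be added in many ways -/
def Ext2 [NeZero m] (H : Finset (ZMod m)) : Prop := No3 H ∧ m ≤ 8 * (gd2 H).card

/-- how often `c` is covered by the pairs `{a, a + τ a}`, `τ a ≠ 0` -/
def cov (τ : ZMod m → ℕ) (c : ZMod m) : ℕ :=
  (if τ c ≠ 0 then 1 else 0) + (if τ (c - 1) = 1 then 1 else 0) + (if τ (c - 2) = 2 then 1 else 0)
    + (if τ (c - 3) = 3 then 1 else 0)

/-- the pairs partition the complement of `H` -/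
def Tiling (H : Finset (ZMod m)) (τ : ZMod m → ℕ) : Prop :=
  (∀ a, τ a ≤ 3) ∧ ∀ c, cov τ c = if c ∈ H then 0 else 1

/-- the number of pairs that pass over the gap between `a` and `a + 1` -/
def pas (τ : ZMod m → ℕ) (a : ZMod m) : ℕ :=
  (if τ a ≠ 0 then 1 else 0) + (if 2 ≤ τ (a - 1) then 1 else 0) + (if τ (a - 2) = 3 then 1 else 0)

/-- `P s a` counts pairs `{a, a + s}` -/
def degP (P : ℕ → ZMod m → ℕ) (c : ZMod m) : ℕ :=
  P 1 c + P 2 c + P 3 c + P 1 (c - 1) + P 2 (c - 2) + P 3 (c - 3)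
def pasP (P : ℕ → ZMod m → ℕ) (a : ZMod m) : ℕ :=
  P 1 a + P 2 a + P 3 a + P 2 (a - 1) + P 3 (a - 1) + P 3 (a - 2)

/-- `a` is the first column of a slot of four columns in a row with the single hole `c` -/
def el [NeZero m] (c a : ZMod m) : Prop := (a - c).val % 4 = 1 ∧ (a - c).val + 3 < m

instance [NeZero m] (c a : ZMod m) : Decidable (el c a) :=
  inferInstanceAs (Decidable ((a - c).val % 4 = 1 ∧ (a - c).val + 3 < m))

/-- the number of items of `D` that start in column `a` and have span `j` -/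
def cntT (D : Finset (It ι n)) (st : It ι n → ZMod m) (sp : It ι n → ℕ) (j : ℕ) (a : ZMod m) : ℕ :=
  (D.filter fun q => st q = a ∧ sp q = j).card

/-- the row vertices in `D` have two neighbours, in the columns `st q` and `st q + sp q` -/
structure Pairs (E : ι → Gr n) (D : Finset (It ι n)) (σ : It ι n → ZMod m)
    (st : It ι n → ZMod m) (sp : It ι n → ℕ) : Prop where
  span : ∀ q ∈ D, sp q = 1 ∨ sp q = 2 ∨ sp q = 3
  nbr : ∀ q ∈ D, ∃ x x', nY (E q.1) q.2 = {x, x'} ∧ σ (q.1, x) = st q ∧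
    σ (q.1, x') = st q + (sp q : ZMod m)
  uniq : ∀ q ∈ D, ∀ q' ∈ D, q.1 = q'.1 → st q = st q' → q = q'

end

end Pool.Agent.MP_4c107d_co.H78

end

section

/-!
More definitions for the case of trees with few leaves.
-/

set_option autoImplicit false
set_option linter.unusedSectionVars false

namespace Pool.Agent.MP_4c107d_co.H78

open Finset

variable {ι : Type} [DecidableEq ι] {n m : ℕ} [NeZero m]

/-- occupied cells of one row in close columns come from the same column vertex -/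
def Sep {A : Type} (E : ι → Gr n) (DX DY : Finset (It ι n)) (σ : It ι n → A) (ψ : It ι n → ι)
    (nb : A → Finset A) : Prop :=
  ∀ p ∈ DX, ∀ q ∈ DY, ∀ p' ∈ DX, ∀ q' ∈ DY, adj E p q → adj E p' q' → ψ q = ψ q' →
    σ p' ∈ nb (σ p) → p = p'

/-- the cores -/
def X0s (R : Finset ι) (C : ι → ChD n) : Finset (It ι n) := its R fun i => (C i).X0
def Y0s (R : Finset ι) (C : ι → ChD n) : Finset (It ι n) := its R fun i => (C i).Y0
/-- the row vertices inside the chains -/
def INs (R : Finset ι) (C : ι → ChD n) : Finset (It ι n) := its R fun i => (C i).inn (NC n)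
/-- the row vertices other than the special leaf and those inside the chains -/
def DY2 (R : Finset ι) (C : ι → ChD n) : Finset (It ι n) :=
  its R fun i => univ \ insert (C i).y0 ((C i).inn (NC n))

/-- all column vertices of the regular trees and the cores are placed -/
structure RegA (E : ι → Gr n) (I R : Finset ι) (C : ι → ChD n) (s : ι → ZMod m) (Bi : Finset ι)
    (ld0 : ZMod m → ℕ) (σ : It ι n → ZMod m) (ψ : It ι n → ι) : Prop where
  ok : Ok E (full n R) (Y0s R C) σ ψ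
  chain : ∀ i ∈ R, ∀ t < NC n, σ (i, (C i).e t) = s i + (gp t : ZMod m)
  root : ∀ i ∈ R, σ (i, (C i).T.root) = s i - 1
  rows : ∀ q ∈ Y0s R C, ψ q ∈ Bi
  sep : Sep E (full n R) (Y0s R C) σ ψ nb1
  rowl : ∀ r, 10 ^ 8 * rowL E (Y0s R C) ψ r ≤ 2 * n
  load : ∀ a, colL E (full n R) σ a + ld0 a = I.card
  rest : ∀ a, 10 ^ 7 * colL E (its R fun i => univ \ (C i).ch (NC n)) σ a ≤ 15 * I.card

/-- the supply of pairs -/
structure Sup (n k u : ℕ) (P : ℕ → ZMod m → ℕ) : Prop where
  big : ∀ j, (j = 1 ∨ j = 2 ∨ j = 3) → ∀ a, 3 * m ≤ P j a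
  three : ∀ a, k ≤ 100 * P 3 a
  lo : ∀ a, 50 * (n * u + 2 * P 3 a) + k ≤ 50 * pasP P (a + 1)
  hi : ∀ a, 5 * pasP P a ≤ 6 * (n * u)

/-- the row vertices other than the special leaves `y0` and the pairs `IN` -/
def DY1 (I : Finset ι) (y0 : ι → Fin n) (IN : Finset (It ι n)) : Finset (It ι n) :=
  full n I \ (its I (fun i => {y0 i}) ∪ IN)

/-- everything is placed except the special leaves and the pairs -/
structure StII (E : ι → Gr n) (I R B : Finset ι) (s : ι → ZMod m) (u : ℕ) (IN : Finset (It ι n))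
    (x0 y0 : ι → Fin n) (σ : It ι n → ZMod m) (ψ : It ι n → ι) (st : It ι n → ZMod m)
    (sp : It ι n → ℕ) : Prop where
  sub : B ⊆ I
  small : 500 * B.card ≤ I.card
  inn : IN ⊆ full n I
  leaf : ∀ i ∈ I, nY (E i) (y0 i) = {x0 i}
  root : ∀ i ∈ R, σ (i, x0 i) = s i - 1
  ok : Ok E (full n I) (DY1 I y0 IN) σ ψ
  rows : ∀ q ∈ DY1 I y0 IN, ψ q ∈ B
  ext : ∀ r ∈ B, Ext2 (holes E (full n I) (DY1 I y0 IN) σ ψ r)
  load : ∀ a, colL E (full n I) σ a = I.card
  pairs : Pairs E IN σ st sp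
  sup : Sup n I.card u (cntT IN st sp)

end Pool.Agent.MP_4c107d_co.H78

end

section

/-!
Tilings of one row by pairs.
-/

set_option autoImplicit false
set_option linter.unusedSectionVars false

namespace Pool.Agent.MP_4c107d_co.H78

open Finset

variable {m : ℕ} [NeZero m]

theorem tile_val_sub (x : ZMod m) (k : ℕ) (hk : k ≤ m) :
    (x - (k : ZMod m)).val = if k ≤ x.val then x.val - k else x.val + m - k := by
  have hx := ZMod.val_lt x
  split_ifs with h
  · have e : x - (k : ZMod m) = ((x.val - k : ℕ) : ZMod m) := by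
      rw [Nat.cast_sub h, ZMod.natCast_zmod_val]
    rw [e, ZMod.val_cast_of_lt (by omega)]
  · have e : x - (k : ZMod m) = ((x.val + m - k : ℕ) : ZMod m) := by
      rw [Nat.cast_sub (by omega), Nat.cast_add, ZMod.natCast_zmod_val, ZMod.natCast_self, add_zero]
    rw [e, ZMod.val_cast_of_lt (by omega)]

theorem tile_v1 (hm : 7 ≤ m) (a c : ZMod m) :
    (a - 1 - c).val = if 1 ≤ (a - c).val then (a - c).val - 1 else (a - c).val + m - 1 := by
  rw [← tile_val_sub (a - c) 1 (by omega)]; congr 1; push_cast; ring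

theorem tile_v2 (hm : 7 ≤ m) (a c : ZMod m) :
    (a - 2 - c).val = if 2 ≤ (a - c).val then (a - c).val - 2 else (a - c).val + m - 2 := by
  rw [← tile_val_sub (a - c) 2 (by omega)]; congr 1; push_cast; ring

theorem tile_v3 (hm : 7 ≤ m) (a c : ZMod m) :
    (a - 3 - c).val = if 3 ≤ (a - c).val then (a - c).val - 3 else (a - c).val + m - 3 := by
  rw [← tile_val_sub (a - c) 3 (by omega)]; congr 1; push_cast; ring

/-- the cover count on a line -/
def tile_cv (g : ℕ → ℕ) (j : ℕ) : ℕ :=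
  (if g j ≠ 0 then 1 else 0) + (if 1 ≤ j ∧ g (j - 1) = 1 then 1 else 0)
    + (if 2 ≤ j ∧ g (j - 2) = 2 then 1 else 0) + (if 3 ≤ j ∧ g (j - 3) = 3 then 1 else 0)

/-- the pass count on a line -/
def tile_ps (g : ℕ → ℕ) (j : ℕ) : ℕ :=
  (if g j ≠ 0 then 1 else 0) + (if 1 ≤ j ∧ 2 ≤ g (j - 1) then 1 else 0)
    + (if 2 ≤ j ∧ g (j - 2) = 3 then 1 else 0)

theorem tile_cov (hm : 7 ≤ m) (g : ℕ → ℕ) (h1 : g (m - 1) = 0) (h2 : g (m - 2) ≤ 1)
    (h3 : g (m - 3) ≤ 2) (c a : ZMod m) :
    cov (fun x => g (x - c).val) a = tile_cv g (a - c).val := by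
  unfold cov tile_cv
  beta_reduce
  rw [tile_v1 hm, tile_v2 hm, tile_v3 hm]
  generalize (a - c).val = j
  have e1 : 1 + m - 2 = m - 1 := by omega
  have e2 : 1 + m - 3 = m - 2 := by omega
  have e3 : 2 + m - 3 = m - 1 := by omega
  have f2 : g (m - 2) ≠ 2 := by omega
  have f3 : g (m - 2) ≠ 3 := by omega
  have f4 : g (m - 3) ≠ 3 := by omega
  rcases j with _ | _ | _ | j
  · simp [h1, f2, f4]
  · simp [e1, e2, h1, f3]
  · simp [e3, h1]
  · simp

theorem tile_pas (hm : 7 ≤ m) (g : ℕ → ℕ) (h1 : g (m - 1) = 0) (h2 : g (m - 2) ≤ 1)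
    (c a : ZMod m) :
    pas (fun x => g (x - c).val) a = tile_ps g (a - c).val := by
  unfold pas tile_ps
  beta_reduce
  rw [tile_v1 hm, tile_v2 hm]
  generalize (a - c).val = j
  have e1 : 1 + m - 2 = m - 1 := by omega
  have f3 : g (m - 2) ≠ 3 := by omega
  rcases j with _ | _ | j
  · simp [h1, f3]
  · simp [e1, h1]
  · simp

theorem tile_cv_update (g : ℕ → ℕ) (x d : ℕ) (hx : g x = 0) (hd1 : 1 ≤ d) (hd3 : d ≤ 3) (j : ℕ) :
    tile_cv (Function.update g x d) j
      = tile_cv g j + (if j = x then 1 else 0) + (if j = x + d then 1 else 0) := by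
  have A : (if Function.update g x d j ≠ 0 then 1 else 0)
      = (if g j ≠ 0 then 1 else 0) + (if j = x then 1 else 0) := by
    by_cases h : j = x
    · subst h
      have : d ≠ 0 := by omega
      simp [hx, this]
    · simp [h]
  have B : ∀ k, 1 ≤ k → (if k ≤ j ∧ Function.update g x d (j - k) = k then 1 else 0)
      = (if k ≤ j ∧ g (j - k) = k then 1 else 0) + (if j = x + k ∧ d = k then 1 else 0) := by
    intro k hk
    by_cases h : j = x + k
    · subst h
      have : ¬ (0 = k) := by omega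
      simp [hx, this]
    · by_cases h' : k ≤ j
      · have : j - k ≠ x := by omega
        simp [h, this]
      · simp [h, h']
  unfold tile_cv
  rw [A, B 1 le_rfl, B 2 (by omega), B 3 (by omega)]
  have C : (if j = x + 1 ∧ d = 1 then 1 else 0) + (if j = x + 2 ∧ d = 2 then 1 else 0)
      + (if j = x + 3 ∧ d = 3 then 1 else 0) = (if j = x + d then 1 else 0) := by
    split_ifs <;> omega
  omega

theorem tile_line (n : ℕ) : ∀ S : Finset ℕ, S.card = 2 * n →
    (∀ x ∈ S, ∀ y ∈ S, x < y → ∃ z ∈ S, x < z ∧ z ≤ x + 3) →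
    ∃ g : ℕ → ℕ, (∀ j, g j ≤ 3) ∧ ∀ j, tile_cv g j = if j ∈ S then 1 else 0 := by
  induction n with
  | zero =>
    intro S hS _
    have : S = ∅ := card_eq_zero.1 (by omega)
    subst this
    exact ⟨fun _ => 0, fun _ => Nat.zero_le _, fun j => by simp [tile_cv]⟩
  | succ n ih =>
    intro S hS hg
    have hne : S.Nonempty := card_pos.1 (by omega)
    obtain ⟨x, hxS, hx⟩ := exists_min_image S id hne
    have hc1 : (S.erase x).card = 2 * n + 1 := by rw [card_erase_of_mem hxS]; omega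
    have hne' : (S.erase x).Nonempty := card_pos.1 (by omega)
    obtain ⟨y, hyS, hy⟩ := exists_min_image (S.erase x) id hne'
    have hc2 : ((S.erase x).erase y).card = 2 * n := by rw [card_erase_of_mem hyS]; omega
    simp only [id] at hx hy
    have hyx : y ≠ x := (mem_erase.1 hyS).1
    have hyS' : y ∈ S := (mem_erase.1 hyS).2
    have hxy : x < y := lt_of_le_of_ne (hx y hyS') hyx.symm
    have hy3 : y ≤ x + 3 := by
      obtain ⟨z, hz, h1, h2⟩ := hg x hxS y hyS' hxy
      have := hy z (mem_erase.2 ⟨by omega, hz⟩)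
      omega
    obtain ⟨g, g3, hcv⟩ := ih _ hc2 (by
      intro u hu v hv huv
      have hu1 := mem_erase.1 hu
      have hu2 := hy u hu1.2
      obtain ⟨z, hz, h1, h2⟩ := hg u (mem_erase.1 hu1.2).2 v (mem_erase.1 (mem_erase.1 hv).2).2 huv
      exact ⟨z, mem_erase.2 ⟨by omega, mem_erase.2 ⟨by omega, hz⟩⟩, h1, h2⟩)
    have gx : g x = 0 := by
      have := hcv x
      rw [if_neg (by simp)] at this
      unfold tile_cv at this
      by_contra h
      rw [if_pos h] at this
      omega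
    refine ⟨Function.update g x (y - x), fun j => ?_, fun j => ?_⟩
    · rw [Function.update_apply]
      split_ifs
      · omega
      · exact g3 j
    · rw [tile_cv_update g x (y - x) gx (by omega) (by omega), hcv j]
      have e : x + (y - x) = y := by omega
      rw [e]
      by_cases h1 : j = x
      · subst h1
        simp [hxS, hyx.symm]
      · by_cases h2 : j = y
        · subst h2
          simp [hyS', h1]
        · simp [h1, h2]

theorem tile_end (g : ℕ → ℕ) (j : ℕ) (h0 : g j ≠ 0) (h3 : g j ≤ 3) : tile_cv g (j + g j) ≠ 0 := by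
  unfold tile_cv
  have : g j = 1 ∨ g j = 2 ∨ g j = 3 := by omega
  rcases this with h | h | h <;> simp [h]

/-- the tiling with slots of four columns -/
def tile_g (m : ℕ) (s : ℕ → ℕ) (j : ℕ) : ℕ :=
  if j % 4 = 1 then (if j + 3 < m then (if s (j / 4) = 1 then 2 else if s (j / 4) = 2 then 3 else 1) else 1)
  else if j % 4 = 2 then
    (if j + 2 < m then (if s (j / 4) = 1 then 2 else if s (j / 4) = 2 then 1 else 0) else 0)
  else if j % 4 = 3 then (if s (j / 4) = 1 ∨ s (j / 4) = 2 then 0 else 1) else 0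

theorem tile_g0 (m : ℕ) (s : ℕ → ℕ) (t : ℕ) : tile_g m s (4 * t) = 0 := by
  unfold tile_g
  rw [if_neg (by omega), if_neg (by omega), if_neg (by omega)]

theorem tile_slot (m : ℕ) (s : ℕ → ℕ) (t : ℕ) :
    (4 * t + 4 < m ∧ s t = 1 ∧ tile_g m s (4 * t + 1) = 2 ∧ tile_g m s (4 * t + 2) = 2
      ∧ tile_g m s (4 * t + 3) = 0) ∨
    (4 * t + 4 < m ∧ s t = 2 ∧ tile_g m s (4 * t + 1) = 3 ∧ tile_g m s (4 * t + 2) = 1
      ∧ tile_g m s (4 * t + 3) = 0) ∨
    (s t ≠ 1 ∧ s t ≠ 2 ∧ tile_g m s (4 * t + 1) = 1 ∧ tile_g m s (4 * t + 2) = 0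
      ∧ tile_g m s (4 * t + 3) = 1) ∨
    (m ≤ 4 * t + 4 ∧ tile_g m s (4 * t + 1) = 1 ∧ tile_g m s (4 * t + 2) = 0
      ∧ tile_g m s (4 * t + 3) ≤ 1) := by
  have h1 : tile_g m s (4 * t + 1)
      = if 4 * t + 4 < m then (if s t = 1 then 2 else if s t = 2 then 3 else 1) else 1 := by
    unfold tile_g
    rw [if_pos (by omega), show (4 * t + 1) / 4 = t by omega]
  have h2 : tile_g m s (4 * t + 2)
      = if 4 * t + 4 < m then (if s t = 1 then 2 else if s t = 2 then 1 else 0) else 0 := by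
    unfold tile_g
    rw [if_neg (by omega), if_pos (by omega), show (4 * t + 2) / 4 = t by omega]
  have h3 : tile_g m s (4 * t + 3) = if s t = 1 ∨ s t = 2 then 0 else 1 := by
    unfold tile_g
    rw [if_neg (by omega), if_neg (by omega), if_pos (by omega), show (4 * t + 3) / 4 = t by omega]
  rw [h1, h2, h3]
  by_cases a : 4 * t + 4 < m
  · by_cases b : s t = 1
    · simp [a, b]
    · by_cases c : s t = 2
      · simp [a, c]
      · simp [a, b, c]
  · refine Or.inr (Or.inr (Or.inr ⟨by omega, if_neg a, if_neg a, ?_⟩))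
    split_ifs <;> omega

theorem tile_g_le (m : ℕ) (s : ℕ → ℕ) (j : ℕ) : tile_g m s j ≤ 3 := by
  unfold tile_g; split_ifs <;> omega

theorem tile_g_three (m : ℕ) (s : ℕ → ℕ) (j : ℕ) :
    tile_g m s j = 3 ↔ (j % 4 = 1 ∧ j + 3 < m) ∧ s (j / 4) = 2 := by
  constructor
  · intro h
    unfold tile_g at h
    split_ifs at h <;> omega
  · rintro ⟨⟨h1, h2⟩, h3⟩
    unfold tile_g
    rw [if_pos h1, if_pos h2, if_neg (by omega), if_pos h3]

theorem tile_g_cv (m : ℕ) (hodd : m % 2 = 1) (s : ℕ → ℕ) (j : ℕ) (hj : j < m) :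
    tile_cv (tile_g m s) j = if j = 0 then 0 else 1 := by
  have z : tile_g m s 0 = 0 := tile_g0 m s 0
  rcases Nat.eq_zero_or_pos j with rfl | hpos
  · simp [tile_cv, z]
  obtain ⟨t, ht⟩ : ∃ t, j = 4 * t + 1 ∨ j = 4 * t + 2 ∨ j = 4 * t + 3 ∨ j = 4 * t + 4 :=
    ⟨(j - 1) / 4, by omega⟩
  rw [if_neg (by omega)]
  unfold tile_cv
  have p := tile_slot m s t
  have z0 := tile_g0 m s t
  rcases ht with rfl | rfl | rfl | rfl
  · rcases t with _ | t
    · rw [show 4 * 0 + 1 - 1 = 4 * 0 from rfl]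
      split_ifs <;> omega
    · have q := tile_slot m s t
      rw [show 4 * (t + 1) + 1 - 1 = 4 * (t + 1) by omega, show 4 * (t + 1) + 1 - 2 = 4 * t + 3 by omega,
        show 4 * (t + 1) + 1 - 3 = 4 * t + 2 by omega]
      split_ifs <;> omega
  · rcases t with _ | t
    · rw [show 4 * 0 + 2 - 1 = 4 * 0 + 1 from rfl, show 4 * 0 + 2 - 2 = 4 * 0 from rfl]
      split_ifs <;> omega
    · have q := tile_slot m s t
      rw [show 4 * (t + 1) + 2 - 1 = 4 * (t + 1) + 1 by omega,
        show 4 * (t + 1) + 2 - 2 = 4 * (t + 1) by omega,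
        show 4 * (t + 1) + 2 - 3 = 4 * t + 3 by omega]
      split_ifs <;> omega
  · rw [show 4 * t + 3 - 1 = 4 * t + 2 by omega, show 4 * t + 3 - 2 = 4 * t + 1 by omega,
      show 4 * t + 3 - 3 = 4 * t by omega]
    split_ifs <;> omega
  · have z1 := tile_g0 m s (t + 1)
    rw [show 4 * t + 4 - 1 = 4 * t + 3 by omega, show 4 * t + 4 - 2 = 4 * t + 2 by omega,
      show 4 * t + 4 - 3 = 4 * t + 1 by omega, show 4 * t + 4 = 4 * (t + 1) by omega]
    split_ifs <;> omega

theorem tile_g_ps (m : ℕ) (hodd : m % 2 = 1) (s : ℕ → ℕ) (j : ℕ) (hj : j < m) :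
    tile_ps (tile_g m s) j
      = j % 2 + if j % 4 = 2 ∧ j + 2 < m ∧ (s (j / 4) = 1 ∨ s (j / 4) = 2) then 2 else 0 := by
  have z : tile_g m s 0 = 0 := tile_g0 m s 0
  rcases Nat.eq_zero_or_pos j with rfl | hpos
  · simp [tile_ps, z]
  obtain ⟨t, ht⟩ : ∃ t, j = 4 * t + 1 ∨ j = 4 * t + 2 ∨ j = 4 * t + 3 ∨ j = 4 * t + 4 :=
    ⟨(j - 1) / 4, by omega⟩
  unfold tile_ps
  have p := tile_slot m s t
  have z0 := tile_g0 m s t
  rcases ht with rfl | rfl | rfl | rfl
  · rw [if_neg (show ¬ ((4 * t + 1) % 4 = 2 ∧ _) from fun h => by omega)]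
    rcases t with _ | t
    · rw [show 4 * 0 + 1 - 1 = 4 * 0 from rfl]
      split_ifs <;> omega
    · have q := tile_slot m s t
      rw [show 4 * (t + 1) + 1 - 1 = 4 * (t + 1) by omega, show 4 * (t + 1) + 1 - 2 = 4 * t + 3 by omega]
      split_ifs <;> omega
  · rw [show 4 * t + 2 - 1 = 4 * t + 1 by omega, show 4 * t + 2 - 2 = 4 * t by omega,
      show (4 * t + 2) / 4 = t by omega]
    split_ifs <;> omega
  · rw [if_neg (show ¬ ((4 * t + 3) % 4 = 2 ∧ _) from fun h => by omega),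
      show 4 * t + 3 - 1 = 4 * t + 2 by omega, show 4 * t + 3 - 2 = 4 * t + 1 by omega]
    split_ifs <;> omega
  · have z1 := tile_g0 m s (t + 1)
    rw [if_neg (show ¬ ((4 * t + 4) % 4 = 2 ∧ _) from fun h => by omega),
      show 4 * t + 4 - 1 = 4 * t + 3 by omega, show 4 * t + 4 - 2 = 4 * t + 2 by omega,
      show 4 * t + 4 = 4 * (t + 1) by omega]
    split_ifs <;> omega

theorem tile_card_off (a : ZMod m) (p : ℕ → Prop) [DecidablePred p] :
    (univ.filter fun c : ZMod m => p (a - c).val).card = ((range m).filter p).card := by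
  refine card_bij (fun c _ => (a - c).val) ?_ ?_ ?_
  · intro c hc
    exact mem_filter.2 ⟨mem_range.2 (ZMod.val_lt _), (mem_filter.1 hc).2⟩
  · intro c _ c' _ h
    have := ZMod.val_injective m h
    exact sub_right_injective this
  · intro j hj
    have h1 := mem_range.1 (mem_filter.1 hj).1
    have e : (a - (a - (j : ZMod m))).val = j := by
      rw [sub_sub_cancel, ZMod.val_cast_of_lt h1]
    exact ⟨a - j, mem_filter.2 ⟨mem_univ _, by rw [e]; exact (mem_filter.1 hj).2⟩, e⟩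

theorem tile_val_add (a : ZMod m) (k : ℕ) : (a + (k : ZMod m)).val = (a.val + k) % m := by
  rw [ZMod.val_add, ZMod.val_natCast, Nat.add_mod_mod]

/-- Proof idea. Pair consecutive free columns in the order of `val` (no wrap-around). With `f j = #{i < j | (i : ZMod m) ∉ H}`: a free `a` with `f a.val` even is a start, and `τ a` is the distance to the next
free column (it exists because the number `m - #H` of free columns is even, and it is at most `3` by `No3`). Alternatively prove by strong induction on `m - j` that the free columns with `val ≥ j` can be tiled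
when their number is even. -/
theorem tile_basic (hm : 7 ≤ m) (hodd : m % 2 = 1) (H : Finset (ZMod m)) (h3 : No3 H)
    (hH : H.card % 2 = 1) : ∃ τ, Tiling H τ := by
  have hmem : ∀ j, j ∈ (Hᶜ).image ZMod.val ↔ j < m ∧ (j : ZMod m) ∉ H := by
    intro j
    constructor
    · intro hj
      obtain ⟨a, ha, rfl⟩ := mem_image.1 hj
      exact ⟨ZMod.val_lt a, by rw [ZMod.natCast_zmod_val]; exact mem_compl.1 ha⟩
    · rintro ⟨h1, h2⟩
      exact mem_image.2 ⟨j, mem_compl.2 h2, ZMod.val_cast_of_lt h1⟩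
  have hcard : ((Hᶜ).image ZMod.val).card = 2 * ((m - H.card) / 2) := by
    rw [card_image_of_injective _ (ZMod.val_injective m), card_compl, ZMod.card]
    have : H.card ≤ m := by simpa using card_le_univ H
    omega
  obtain ⟨g, g3, hcv⟩ := tile_line _ _ hcard (by
    intro x hx y hy hxy
    by_contra hcon
    have hn : ∀ z, x < z → z ≤ x + 3 → ¬ (z < m ∧ (z : ZMod m) ∉ H) := fun z h1 h2 h =>
      hcon ⟨z, (hmem z).2 h, h1, h2⟩
    have hy' := (hmem y).1 hy
    have hy3 : x + 3 < y := by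
      by_contra h
      exact hn y hxy (by omega) hy'
    have k : ∀ z, x < z → z ≤ x + 3 → (z : ZMod m) ∈ H := fun z h1 h2 => by
      by_contra h
      exact hn z h1 h2 ⟨by omega, h⟩
    have k1 := k (x + 1) (by omega) (by omega)
    have k2 := k (x + 1 + 1) (by omega) (by omega)
    have k3 := k (x + 1 + 2) (by omega) (by omega)
    rw [Nat.cast_add (x + 1)] at k2 k3
    exact h3 _ k1 (by simpa using k2) (by simpa using k3))
  have hend : ∀ j, g j ≠ 0 → j + g j < m := by
    intro j h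
    have := tile_end g j h (g3 j)
    rw [hcv] at this
    by_contra hc
    exact this (if_neg fun h' => hc ((hmem _).1 h').1)
  have e1 : g (m - 1) = 0 := by
    by_contra h
    have := hend _ h
    omega
  have e2 : g (m - 2) ≤ 1 := by
    by_contra h
    have := hend (m - 2) (by omega)
    omega
  have e3 : g (m - 3) ≤ 2 := by
    by_contra h
    have := hend (m - 3) (by omega)
    omega
  refine ⟨fun x => g (x - 0).val, fun a => g3 _, fun c => ?_⟩
  rw [tile_cov hm g e1 e2 e3, hcv, sub_zero]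
  simp only [hmem, ZMod.natCast_zmod_val, ZMod.val_lt, true_and]
  by_cases h : c ∈ H <;> simp [h]

/-- Proof idea. In terms of the offset `j = (a - c).val`: the slots are `4t+1 .. 4t+4` (`4t+4 < m`); state `0`: `τ = 1,0,1,0`; state `1`: `τ = 2,2,0,0`; state `2`: `τ = 3,1,0,0`; if `m % 4 = 3` the last two offsets get `1,0`;
offset `0` gets `0`. First prove the statement for functions of the offset, with `(a - c - 1).val = (a - c).val - 1` if `(a - c).val ≠ 0` and `= m - 1` otherwise. -/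
theorem tile_main (hm : 7 ≤ m) (hodd : m % 2 = 1) (c : ZMod m) (st : ZMod m → ℕ) :
    ∃ τ, Tiling {c} τ ∧ (∀ a, τ a = 3 ↔ (el c a ∧ st a = 2)) ∧
      ∀ a, pas τ (a + 1) = (a + 1 - c).val % 2 + if el c a ∧ (st a = 1 ∨ st a = 2) then 2 else 0 := by
  obtain ⟨s, hs⟩ : ∃ s : ℕ → ℕ, ∀ a : ZMod m, (a - c).val % 4 = 1 → s ((a - c).val / 4) = st a := by
    refine ⟨fun t => st (c + ((4 * t + 1 : ℕ) : ZMod m)), fun a ha => ?_⟩
    have e : 4 * ((a - c).val / 4) + 1 = (a - c).val := by omega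
    simp only [e, ZMod.natCast_zmod_val, add_sub_cancel]
  have e1 : tile_g m s (m - 1) = 0 := by unfold tile_g; split_ifs <;> omega
  have e2 : tile_g m s (m - 2) ≤ 1 := by unfold tile_g; split_ifs <;> omega
  have e3 : tile_g m s (m - 3) ≤ 2 := by unfold tile_g; split_ifs <;> omega
  refine ⟨fun x => tile_g m s (x - c).val, ⟨fun a => tile_g_le _ _ _, fun a => ?_⟩, fun a => ?_,
    fun a => ?_⟩
  · rw [tile_cov hm _ e1 e2 e3, tile_g_cv m hodd s _ (ZMod.val_lt _)]
    simp only [ZMod.val_eq_zero, sub_eq_zero, mem_singleton]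
  · have := hs a
    have h := tile_g_three m s (a - c).val
    beta_reduce
    unfold el
    omega
  · rw [tile_pas hm _ e1 e2, tile_g_ps m hodd s _ (ZMod.val_lt _)]
    have h1 := tile_v1 hm (a + 1) c
    rw [add_sub_cancel_right] at h1
    have h2 := hs a
    have h3 := ZMod.val_lt (a + 1 - c)
    congr 1
    unfold el
    by_cases h : (a + 1 - c).val % 4 = 2
    · have h4 : (a - c).val % 4 = 1 := by split_ifs at h1 <;> omega
      have h5 : (a + 1 - c).val / 4 = (a - c).val / 4 := by split_ifs at h1 <;> omega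
      rw [h5, h2 h4]
      refine if_congr ?_ rfl rfl
      split_ifs at h1 <;> omega
    · rw [if_neg (fun h' => h h'.1), if_neg]
      split_ifs at h1 <;> omega

/-- Proof idea. `τ = 2` at offset `m - 1`, `τ = 1` at the offsets `2, 4, ..., m - 3`. -/
theorem tile_alt (hm : 7 ≤ m) (hodd : m % 2 = 1) (c : ZMod m) :
    ∃ τ, Tiling {c} τ ∧ pas τ c = 1 := by
  obtain ⟨g, hg⟩ : ∃ g : ℕ → ℕ, ∀ j, g j = if j = 0 then 2 else if j % 2 = 1 ∧ 3 ≤ j then 1 else 0 :=
    ⟨_, fun _ => rfl⟩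
  have e1 : g (m - 1) = 0 := by rw [hg]; split_ifs <;> omega
  have e2 : g (m - 2) ≤ 1 := by rw [hg]; split_ifs <;> omega
  have e3 : g (m - 3) ≤ 2 := by rw [hg]; split_ifs <;> omega
  have hone : (1 : ZMod m).val = 1 := by
    have := ZMod.val_cast_of_lt (n := m) (a := 1) (by omega)
    simpa using this
  refine ⟨fun x => g (x - (c - 1)).val, ⟨fun a => ?_, fun a => ?_⟩, ?_⟩
  · simp only [hg]; split_ifs <;> omega
  · rw [tile_cov hm _ e1 e2 e3]
    have h : a ∈ ({c} : Finset (ZMod m)) ↔ (a - (c - 1)).val = 1 := by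
      rw [mem_singleton]
      constructor
      · rintro rfl
        rw [sub_sub_cancel, hone]
      · intro h
        have := ZMod.val_injective m (h.trans hone.symm)
        linear_combination this
    rw [if_congr h rfl rfl]
    generalize (a - (c - 1)).val = j
    have k : ∀ i, (i = 0 ∧ g i = 2) ∨ (i % 2 = 1 ∧ 3 ≤ i ∧ g i = 1) ∨
        (i ≠ 0 ∧ (i % 2 = 0 ∨ i < 3) ∧ g i = 0) := by
      intro i
      rw [hg]
      split_ifs <;> omega
    have k0 := k j
    have k1 := k (j - 1)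
    have k2 := k (j - 2)
    have k3 : g (j - 3) ≠ 3 := by have := k (j - 3); omega
    unfold tile_cv
    rw [if_neg (show ¬ (3 ≤ j ∧ g (j - 3) = 3) from fun h => k3 h.2)]
    clear k hg h e1 e2 e3 k3 hone
    split_ifs <;> omega
  · rw [tile_pas hm _ e1 e2, sub_sub_cancel, hone]
    have k0 : g 0 = 2 := by rw [hg]; rfl
    have k1 : g 1 = 0 := by rw [hg]; rfl
    simp [tile_ps, k0, k1]

theorem pas_le (τ : ZMod m → ℕ) (a : ZMod m) : pas τ a ≤ 3 := by
  unfold pas; split_ifs <;> omega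

theorem card_el (hodd : m % 2 = 1) (a : ZMod m) :
    (univ.filter fun c => el c a).card = (m - 1) / 4 := by
  have h := tile_card_off a (fun j => j % 4 = 1 ∧ j + 3 < m)
  have e : (range m).filter (fun j => j % 4 = 1 ∧ j + 3 < m)
      = (range ((m - 1) / 4)).image fun t => 4 * t + 1 := by
    ext j
    simp only [mem_filter, mem_range, mem_image]
    constructor
    · intro h
      exact ⟨j / 4, by omega, by omega⟩
    · rintro ⟨t, h1, rfl⟩
      omega
  rw [e, card_image_of_injective _ (fun x y h => by omega), card_range] at h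
  exact h

theorem card_odd (hodd : m % 2 = 1) (a : ZMod m) :
    (univ.filter fun c : ZMod m => (a - c).val % 2 = 1).card = (m - 1) / 2 := by
  have h := tile_card_off a (fun j => j % 2 = 1)
  have e : (range m).filter (fun j => j % 2 = 1)
      = (range ((m - 1) / 2)).image fun t => 2 * t + 1 := by
    ext j
    simp only [mem_filter, mem_range, mem_image]
    constructor
    · intro h
      exact ⟨j / 2, by omega, by omega⟩
    · rintro ⟨t, h1, rfl⟩
      omega
  rw [e, card_image_of_injective _ (fun x y h => by omega), card_range] at h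
  exact h

theorem No3.of_mod3 {H : Finset (ZMod m)} (h : ∀ a ∈ H, a.val % 3 ≠ 0) : No3 H := by
  intro a h0 h1 h2
  have k0 := h _ h0
  have k1 := h _ h1
  have k2 := h _ h2
  have e1 := tile_val_add a 1
  have e2 := tile_val_add a 2
  rw [Nat.cast_one] at e1
  rw [Nat.cast_ofNat] at e2
  rw [e1] at k1
  rw [e2] at k2
  have hlt := ZMod.val_lt a
  rcases (by omega : a.val + 1 = m ∨ a.val + 2 = m ∨ a.val + 2 < m) with e | e | e
  · rw [e, Nat.mod_self] at k1
    exact k1 rfl
  · rw [e, Nat.mod_self] at k2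
    exact k2 rfl
  · rw [Nat.mod_eq_of_lt (by omega : a.val + 1 < m)] at k1
    rw [Nat.mod_eq_of_lt e] at k2
    omega

theorem card_mod3 : 2 * m ≤ 3 * (univ.filter fun a : ZMod m => a.val % 3 ≠ 0).card + 2 := by
  have h : ∀ k : ℕ, ((range k).filter fun j => j % 3 ≠ 0).card = k - (k + 2) / 3 := by
    intro k
    rw [card_filter]
    induction k with
    | zero => simp
    | succ k ih => rw [sum_range_succ, ih]; split_ifs <;> omega
  have e : (univ.filter fun a : ZMod m => a.val % 3 ≠ 0).card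
      = ((range m).filter fun j => j % 3 ≠ 0).card := by
    refine card_bij (fun c _ => c.val) ?_ ?_ ?_
    · intro c hc
      exact mem_filter.2 ⟨mem_range.2 (ZMod.val_lt _), (mem_filter.1 hc).2⟩
    · intro c _ c' _ h
      exact ZMod.val_injective m h
    · intro j hj
      have h1 := mem_range.1 (mem_filter.1 hj).1
      have e : ((j : ZMod m)).val = j := ZMod.val_cast_of_lt h1
      exact ⟨j, mem_filter.2 ⟨mem_univ _, by rw [e]; exact (mem_filter.1 hj).2⟩, e⟩
  rw [e, h]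
  omega

theorem No3.insert {H : Finset (ZMod m)} (hm : 7 ≤ m) (h : No3 H) {a : ZMod m}
    (ha : ∀ b ∈ nb1 a, b ∉ H) : No3 (insert a H) := by
  have : Fact (1 < m) := ⟨by omega⟩
  have hp : a + 1 ∉ H := ha _ (by simp [nb1])
  have hn : a - 1 ∉ H := ha _ (by simp [nb1])
  intro x h0 h1 h2
  rcases mem_insert.1 h0 with rfl | h0
  · rcases mem_insert.1 h1 with h1 | h1
    · exact one_ne_zero (α := ZMod m) (by linear_combination h1)
    · exact hp h1
  · rcases mem_insert.1 h1 with h1 | h1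
    · exact hn (by rw [← h1, add_sub_cancel_right]; exact h0)
    · rcases mem_insert.1 h2 with h2 | h2
      · exact hn (by rw [← h2, show x + 2 - 1 = x + 1 by ring]; exact h1)
      · exact h x h0 h1 h2

theorem mem_nb1_self (a : ZMod m) : a ∈ nb1 a := by simp [nb1]
theorem nb1_symm (a b : ZMod m) (h : b ∈ nb1 a) : a ∈ nb1 b := by
  simp only [nb1, mem_insert, mem_singleton] at h ⊢
  rcases h with rfl | rfl | rfl <;> simp
theorem card_nb1_le (a : ZMod m) : (nb1 a).card ≤ 3 := card_le_three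

theorem mem_nb2_self (a : ZMod m) : a ∈ nb2 a := by simp [nb2]
theorem nb2_symm (a b : ZMod m) (h : b ∈ nb2 a) : a ∈ nb2 b := by
  simp only [nb2, mem_insert, mem_singleton] at h ⊢
  rcases h with rfl | rfl | rfl | rfl | rfl <;> simp
theorem card_nb2_le (a : ZMod m) : (nb2 a).card ≤ 5 := card_le_five

theorem tile_gd1_few {H : Finset (ZMod m)} (hm : 7 ≤ m) (h : No3 H) :
    m ≤ (gd1 H).card + 3 * H.card := by
  have hsub : (univ : Finset (ZMod m)) ⊆ gd1 H ∪ H.biUnion nb1 := by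
    intro a _
    by_cases hb : ∀ b ∈ nb1 a, b ∉ H
    · exact mem_union_left _ (mem_filter.2 ⟨mem_univ _, hb a (mem_nb1_self a), h.insert hm hb⟩)
    · push Not at hb
      obtain ⟨b, hb1, hb2⟩ := hb
      exact mem_union_right _ (mem_biUnion.2 ⟨b, hb2, nb1_symm _ _ hb1⟩)
  have h1 := (card_le_card hsub).trans (card_union_le _ _)
  have h2 : (H.biUnion nb1).card ≤ H.card * 3 := card_biUnion_le_card_mul _ _ _ fun a _ => card_nb1_le a
  rw [card_univ, ZMod.card] at h1
  omega

theorem tile_gd1_mod3 {H : Finset (ZMod m)} (h : ∀ a ∈ H, a.val % 3 ≠ 0) :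
    (univ.filter fun a : ZMod m => a.val % 3 ≠ 0) \ H ⊆ gd1 H := by
  intro a ha
  obtain ⟨h1, h2⟩ := mem_sdiff.1 ha
  refine mem_filter.2 ⟨mem_univ _, h2, No3.of_mod3 fun b hb => ?_⟩
  rcases mem_insert.1 hb with rfl | hb
  · exact (mem_filter.1 h1).2
  · exact h b hb

/-- Proof idea. The columns `a` with `nb1 a` disjoint from `H` (at least `m - 3 #H`) lie in `gd1 H` (`No3.insert`); the same for `insert a H`. -/
theorem Ext2.of_few {H : Finset (ZMod m)} (hm : 100 ≤ m) (h : No3 H) (hc : 16 * H.card ≤ m) :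
    Ext2 H := by
  refine ⟨h, ?_⟩
  have e : gd2 H = gd1 H := by
    refine filter_true_of_mem fun a ha => ?_
    have h1 := tile_gd1_few (by omega) (mem_filter.1 ha).2.2
    have h2 := card_insert_le a H
    omega
  have := tile_gd1_few (by omega) h
  rw [e]
  omega

/-- Proof idea. The columns `a ∉ H` with `a.val % 3 ≠ 0` (`card_mod3`, `No3.of_mod3`). -/
theorem Ext2.of_mod3 {H : Finset (ZMod m)} (hm : 100 ≤ m) (h : ∀ a ∈ H, a.val % 3 ≠ 0)
    (hc : 2 * H.card ≤ m + 1) : Ext2 H := by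
  refine ⟨No3.of_mod3 h, ?_⟩
  have hA := card_mod3 (m := m)
  have hsub : (univ.filter fun a : ZMod m => a.val % 3 ≠ 0) \ H ⊆ gd2 H := by
    intro a ha
    refine mem_filter.2 ⟨tile_gd1_mod3 h ha, ?_⟩
    have h' : ∀ b ∈ insert a H, b.val % 3 ≠ 0 := by
      intro b hb
      rcases mem_insert.1 hb with rfl | hb
      · exact (mem_filter.1 (mem_sdiff.1 ha).1).2
      · exact h b hb
    have h1 := card_le_card (tile_gd1_mod3 h')
    have h2 := le_card_sdiff (insert a H) (univ.filter fun a : ZMod m => a.val % 3 ≠ 0)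
    have h3 := card_insert_le a H
    omega
  have h1 := card_le_card hsub
  have h2 := le_card_sdiff H (univ.filter fun a : ZMod m => a.val % 3 ≠ 0)
  omega

/-- `pasP (a - 1) + pasP a = degP a + 2 (P 2 (a - 1) + P 3 (a - 1) + P 3 (a - 2))` -/
theorem pas_add (P : ℕ → ZMod m → ℕ) (a : ZMod m) :
    pasP P (a - 1) + pasP P a = degP P a + 2 * (P 2 (a - 1) + P 3 (a - 1) + P 3 (a - 2)) := by
  unfold pasP degP
  rw [show a - 1 - 1 = a - 2 by ring, show a - 1 - 2 = a - 3 by ring]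
  omega

/-- the degrees, the passes and the pairs of span three determine everything -/
theorem eq_of_deg_pas {P P' : ℕ → ZMod m → ℕ} (h1 : ∀ a, degP P a = degP P' a)
    (h2 : ∀ a, pasP P a = pasP P' a) (h3 : ∀ a, P 3 a = P' 3 a) :
    ∀ a, P 1 a = P' 1 a ∧ P 2 a = P' 2 a := by
  have k2 : ∀ a, P 2 a = P' 2 a := by
    intro a
    have e := pas_add P (a + 1)
    have e' := pas_add P' (a + 1)
    rw [h1, h2, h2, h3, h3, e', add_sub_cancel_right] at e
    omega
  refine fun a => ⟨?_, k2 a⟩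
  have e := h2 a
  unfold pasP at e
  rw [k2, k2, h3, h3, h3] at e
  omega

end Pool.Agent.MP_4c107d_co.H78

end

section

/-!
Tiling all rows with prescribed numbers of pairs.
-/

set_option autoImplicit false
set_option linter.unusedSectionVars false

namespace Pool.Agent.MP_4c107d_co.H78

open Finset

variable {ι : Type} [DecidableEq ι] {n m : ℕ} [NeZero m] {E : ι → Gr n} {I R : Finset ι}
  {s : ι → ZMod m} {u : ℕ}


/-- counting in a family of tilings -/
theorem tileAll_deg (I : Finset ι) (H : ι → Finset (ZMod m)) (τ : ι → ZMod m → ℕ)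
    (h : ∀ r ∈ I, Tiling (H r) (τ r)) (a : ZMod m) :
    degP (fun j a => (I.filter fun r => τ r a = j).card) a = (I.filter fun r => a ∉ H r).card ∧
      pasP (fun j a => (I.filter fun r => τ r a = j).card) a = ∑ r ∈ I, pas (τ r) a := by
  have e1 : ∀ t : ℕ, t ≤ 3 → (if t = 1 then 1 else 0) + (if t = 2 then 1 else 0)
      + (if t = 3 then 1 else 0) = (if t ≠ 0 then 1 else 0 : ℕ) := by
    intro t ht; interval_cases t <;> rfl
  have e2 : ∀ t : ℕ, t ≤ 3 → (if t = 2 then 1 else 0) + (if t = 3 then 1 else 0)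
      = (if 2 ≤ t then 1 else 0 : ℕ) := by
    intro t ht; interval_cases t <;> rfl
  constructor
  · simp only [degP, card_filter, ← sum_add_distrib]
    refine sum_congr rfl fun r hr => ?_
    rw [e1 _ ((h r hr).1 a)]
    refine ((h r hr).2 a).trans ?_
    by_cases ha : a ∈ H r
    · rw [if_pos ha, if_neg (not_not.2 ha)]
    · rw [if_neg ha, if_pos ha]
  · simp only [pasP, card_filter, ← sum_add_distrib]
    refine sum_congr rfl fun r hr => ?_
    rw [e1 _ ((h r hr).1 a), pas, ← e2 _ ((h r hr).1 (a - 1))]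
    simp only [add_assoc]

/-- a parity that is invariant under a shift by one is constant -/
theorem tileAll_const (D : ZMod m → ℕ) (h : ∀ a, D (a - 1) % 2 = D a % 2) (a b : ZMod m) :
    D a % 2 = D b % 2 := by
  have key : ∀ k : ℕ, D (b + (k : ZMod m)) % 2 = D b % 2 := by
    intro k
    induction k with
    | zero => simp
    | succ k ih =>
      have := h (b + ((k + 1 : ℕ) : ZMod m))
      have e : b + ((k + 1 : ℕ) : ZMod m) - 1 = b + (k : ZMod m) := by push_cast; ring
      rw [e] at this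
      omega
  have := key (a - b).val
  rw [ZMod.natCast_zmod_val] at this
  simpa using this

/-- the parity of the difference of the passes is constant -/
theorem tileAll_par (I : Finset ι) (H : ι → Finset (ZMod m)) (τ : ι → ZMod m → ℕ)
    (h : ∀ r ∈ I, Tiling (H r) (τ r)) (P : ℕ → ZMod m → ℕ)
    (hdeg : ∀ a, degP P a = (I.filter fun r => a ∉ H r).card) (a b : ZMod m) :
    (pasP P a + ∑ r ∈ I, pas (τ r) a) % 2 = (pasP P b + ∑ r ∈ I, pas (τ r) b) % 2 := by
  refine tileAll_const (fun a => pasP P a + ∑ r ∈ I, pas (τ r) a) (fun a => ?_) a b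
  have h1 := pas_add P a
  have h2 := pas_add (fun j a => (I.filter fun r => τ r a = j).card) a
  rw [(tileAll_deg I H τ h a).1, (tileAll_deg I H τ h a).2, (tileAll_deg I H τ h (a - 1)).2,
    ← hdeg a] at h2
  show (pasP P (a - 1) + ∑ r ∈ I, pas (τ r) (a - 1)) % 2 = (pasP P a + ∑ r ∈ I, pas (τ r) a) % 2
  omega

theorem tileAll_sum_mod (M : Finset ι) (c : ι → ZMod m) (a : ZMod m) :
    ∑ r ∈ M, (a - c r).val % 2 = (M.filter fun r => (a - c r).val % 2 = 1).card := by
  rw [card_filter]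
  refine sum_congr rfl fun r _ => ?_
  split_ifs <;> omega

/-- tilings of the rows outside `M` with the right parity -/
theorem tileAll_out (hm : 7 ≤ m) (hodd : m % 2 = 1) (I M : Finset ι) (hsub : M ⊆ I) (r0 : ι)
    (hr0 : r0 ∈ I) (hr0' : r0 ∉ M) (H : ι → Finset (ZMod m)) (c : ι → ZMod m)
    (hM : ∀ r ∈ M, H r = {c r}) (h0 : H r0 = {c r0})
    (hH : ∀ r ∈ I, No3 (H r) ∧ (H r).card % 2 = 1) (P : ℕ → ZMod m → ℕ)
    (hdeg : ∀ a, degP P a = (I.filter fun r => a ∉ H r).card) :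
    ∃ τ : ι → ZMod m → ℕ, (∀ r ∈ I \ M, Tiling (H r) (τ r)) ∧
      ∀ a, (pasP P a + ∑ r ∈ I \ M, pas (τ r) a +
        (M.filter fun r => (a - c r).val % 2 = 1).card) % 2 = 0 := by
  have hb : ∀ r, ∃ τ : ZMod m → ℕ, r ∈ I → Tiling (H r) τ := by
    intro r
    by_cases hr : r ∈ I
    · obtain ⟨τ, hτ⟩ := tile_basic hm hodd (H r) (hH r hr).1 (hH r hr).2
      exact ⟨τ, fun _ => hτ⟩
    · exact ⟨fun _ => 0, fun h => absurd h hr⟩
  choose τb hτb using hb
  have hmain : ∀ r, ∃ τ : ZMod m → ℕ, Tiling {c r} τ ∧ ∀ a, pas τ a = (a - c r).val % 2 := by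
    intro r
    obtain ⟨τ, h1, -, h3⟩ := tile_main hm hodd (c r) (fun _ => 0)
    refine ⟨τ, h1, fun a => ?_⟩
    have := h3 (a - 1)
    simpa using this
  choose τm hτm1 hτm2 using hmain
  have hch : ∀ e : ℕ, ∃ t : ZMod m → ℕ, Tiling {c r0} t ∧ (e + pas t (c r0)) % 2 = 0 := by
    intro e
    by_cases he : e % 2 = 0
    · refine ⟨τm r0, hτm1 r0, ?_⟩
      rw [hτm2]
      simpa using he
    · obtain ⟨t, h1, h2⟩ := tile_alt hm hodd (c r0)
      exact ⟨t, h1, by omega⟩
  obtain ⟨t, ht1, ht2⟩ := hch (pasP P (c r0) + ∑ r ∈ (I \ M).erase r0, pas (τb r) (c r0) +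
    (M.filter fun r => (c r0 - c r).val % 2 = 1).card)
  let τ : ι → ZMod m → ℕ := fun r => if r ∈ M then τm r else if r = r0 then t else τb r
  have hτ : ∀ r ∈ I, Tiling (H r) (τ r) := by
    intro r hr
    by_cases h1 : r ∈ M
    · simp only [τ, h1, if_true]
      rw [hM r h1]; exact hτm1 r
    · by_cases h2 : r = r0
      · subst h2
        simp only [τ, h1, if_false, if_true]
        rw [h0]; exact ht1
      · simp only [τ, h1, h2, if_false]
        exact hτb r hr
  have hsplit : ∀ a, ∑ r ∈ I, pas (τ r) a = ∑ r ∈ I \ M, pas (τ r) a +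
      (M.filter fun r => (a - c r).val % 2 = 1).card := by
    intro a
    rw [← sum_sdiff hsub, ← tileAll_sum_mod]
    congr 1
    refine sum_congr rfl fun r hr => ?_
    simp only [τ, hr, if_true]
    exact hτm2 r a
  refine ⟨τ, fun r hr => hτ r (mem_sdiff.1 hr).1, fun a => ?_⟩
  have hp := tileAll_par I H τ hτ P hdeg a (c r0)
  rw [hsplit, hsplit] at hp
  have hmem : r0 ∈ I \ M := mem_sdiff.2 ⟨hr0, hr0'⟩
  have e1 : ∑ r ∈ I \ M, pas (τ r) (c r0) =
      ∑ r ∈ (I \ M).erase r0, pas (τb r) (c r0) + pas t (c r0) := by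
    rw [← sum_erase_add _ _ hmem]
    congr 1
    · refine sum_congr rfl fun r hr => ?_
      have h1 := (mem_sdiff.1 (mem_of_mem_erase hr)).2
      have h2 := ne_of_mem_erase hr
      simp only [τ, h1, h2, if_false]
    · simp only [τ, hr0', if_false, if_true]
  rw [e1] at hp
  omega

/-- removing one row changes a count by at most one -/
theorem tileAll_erase (M : Finset ι) (r0 : ι) (p : ι → Prop) [DecidablePred p] :
    ((M.erase r0).filter p).card ≤ (M.filter p).card ∧
      (M.filter p).card ≤ ((M.erase r0).filter p).card + 1 := by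
  constructor
  · exact card_le_card (filter_subset_filter _ (erase_subset _ _))
  · rw [filter_erase]
    exact (pred_card_le_card_erase (s := M.filter p) (a := r0)) |> fun h => by omega

/-- Proof idea. Fix `r0 ∈ Mn`, `Mn' = Mn.erase r0`. Rows outside `Mn`: `tile_basic`. With state `0` in all rows of `Mn'`, the parity of `pasP P a + ∑ pas (τ r) a` does not depend on `a` (`pas_add`, `tileAll_deg`); choose for `r0` the tiling
`tile_main` (state `0`, `pas` at `c r0` is `0`) or `tile_alt` so that it is even. For every `a` let `n3 = P 3 a - #{r ∉ Mn' | τ r a = 3}` and `n2 + n3 = (pasP P (a + 1) - ∑_{r ∉ Mn'} pas (τ r) (a + 1) - #{r ∈ Mn' | (a + 1 - c r).val odd}) / 2`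
(`card_odd`, `card_el`, `hx`, `pas_le`), choose disjoint sets of `n3` and `n2` rows in `{r ∈ Mn' | el (c r) a}`, give them the states `2` and `1` at `a`, and finish with `eq_of_deg_pas`. -/
theorem tileAll (hm : m + 1 = 2 * n) (hn : 4 ≤ n) (I Mn : Finset ι) (hsub : Mn ⊆ I)
    (hne : Mn.Nonempty) (H : ι → Finset (ZMod m)) (c : ι → ZMod m) (hMn : ∀ r ∈ Mn, H r = {c r})
    (hH : ∀ r ∈ I, No3 (H r) ∧ (H r).card % 2 = 1) (P : ℕ → ZMod m → ℕ)
    (hdeg : ∀ a, degP P a = (I.filter fun r => a ∉ H r).card) (x u : ℕ)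
    (hx : ∀ Z : Finset (ZMod m), Z.card * u ≤ (Mn.filter fun r => c r ∈ Z).card + x ∧
      (Mn.filter fun r => c r ∈ Z).card ≤ Z.card * u + x)
    (h1 : ∀ a, (I \ Mn).card + 1 ≤ P 3 a)
    (h2 : ∀ a, n * u + x + 6 * ((I \ Mn).card + 1) + 2 * P 3 a ≤ pasP P (a + 1))
    (h3 : ∀ a, pasP P a + 3 * x + 3 * u + 3 ≤ 2 * (n * u)) :
    ∃ τ : ι → ZMod m → ℕ, (∀ r ∈ I, Tiling (H r) (τ r)) ∧
      ∀ j, (j = 1 ∨ j = 2 ∨ j = 3) → ∀ a, (I.filter fun r => τ r a = j).card = P j a := by
  obtain ⟨r0, hr0⟩ := hne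
  have hm7 : 7 ≤ m := by omega
  have hodd : m % 2 = 1 := by omega
  set M := Mn.erase r0 with hMdef
  have hMsub : M ⊆ I := (erase_subset _ _).trans hsub
  have hcard : (I \ M).card = (I \ Mn).card + 1 := by
    have h1 := card_sdiff_of_subset hMsub
    have h2 := card_sdiff_of_subset hsub
    have h3 : M.card = Mn.card - 1 := card_erase_of_mem hr0
    have h4 := card_le_card hsub
    have h5 : 0 < Mn.card := card_pos.2 ⟨r0, hr0⟩
    omega
  obtain ⟨τo, hτo, hpar⟩ := tileAll_out hm7 hodd I M hMsub r0 (hsub hr0) (notMem_erase _ _) H c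
    (fun r hr => hMn r (mem_of_mem_erase hr)) (hMn r0 hr0) hH P hdeg
  have hsets : ∀ a : ZMod m, ∃ S3 S23 : Finset ι, S3 ⊆ S23 ∧ S23 ⊆ M.filter (fun r => el (c r) a) ∧
      ((I \ M).filter fun r => τo r a = 3).card + S3.card = P 3 a ∧
      ∑ r ∈ I \ M, pas (τo r) (a + 1) + (M.filter fun r => (a + 1 - c r).val % 2 = 1).card +
        2 * S23.card = pasP P (a + 1) := by
    intro a
    have hA : ∑ r ∈ I \ M, pas (τo r) (a + 1) ≤ 3 * ((I \ Mn).card + 1) := by
      rw [← hcard, mul_comm, ← smul_eq_mul]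
      exact sum_le_card_nsmul _ _ _ fun r _ => pas_le _ _
    have hC : ((I \ M).filter fun r => τo r a = 3).card ≤ (I \ Mn).card + 1 := by
      rw [← hcard]; exact card_filter_le _ _
    have hB := hx (univ.filter fun c : ZMod m => (a + 1 - c).val % 2 = 1)
    have hE := hx (univ.filter fun c : ZMod m => el c a)
    rw [card_odd hodd] at hB
    rw [card_el hodd] at hE
    simp only [mem_filter, mem_univ, true_and] at hB hE
    have hB' := tileAll_erase Mn r0 (fun r => (a + 1 - c r).val % 2 = 1)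
    have hE' := tileAll_erase Mn r0 (fun r => el (c r) a)
    rw [← hMdef] at hB' hE'
    have hp := hpar (a + 1)
    have g1 := h1 a
    have g2 := h2 a
    have g3 := h3 (a + 1)
    have e1 : (m - 1) / 2 * u + u = n * u := by
      have : (m - 1) / 2 + 1 = n := by omega
      rw [← this]; ring
    have e2 : n * u ≤ 2 * ((m - 1) / 4 * u) + 2 * u := by
      have : n ≤ 2 * ((m - 1) / 4) + 2 := by omega
      calc n * u ≤ (2 * ((m - 1) / 4) + 2) * u := Nat.mul_le_mul_right _ this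
        _ = _ := by ring
    generalize (∑ r ∈ I \ M, pas (τo r) (a + 1)) = A at *
    generalize ((I \ M).filter fun r => τo r a = 3).card = C at *
    generalize (M.filter fun r => (a + 1 - c r).val % 2 = 1).card = B at *
    obtain ⟨S23, hS1, hS2⟩ := exists_subset_card_eq (s := M.filter fun r => el (c r) a)
      (n := (pasP P (a + 1) - A - B) / 2) (by omega)
    obtain ⟨S3, hS3, hS4⟩ := exists_subset_card_eq (s := S23) (n := P 3 a - C) (by omega)
    exact ⟨S3, S23, hS3, hS1, by omega, by omega⟩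
  choose S3 S23 hS1 hS2 hS3 hS4 using hsets
  let st : ι → ZMod m → ℕ := fun r a => if r ∈ S3 a then 2 else if r ∈ S23 a then 1 else 0
  choose τm hτ1 hτ2 hτ3 using fun r => tile_main hm7 hodd (c r) (st r)
  let τ : ι → ZMod m → ℕ := fun r => if r ∈ M then τm r else τo r
  have hτ : ∀ r ∈ I, Tiling (H r) (τ r) := by
    intro r hr
    by_cases h1 : r ∈ M
    · simp only [τ, h1, if_true]
      rw [hMn r (mem_of_mem_erase h1)]; exact hτ1 r
    · simp only [τ, h1, if_false]
      exact hτo r (mem_sdiff.2 ⟨hr, h1⟩)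
  have q3 : ∀ a, (I.filter fun r => τ r a = 3).card = P 3 a := by
    intro a
    rw [← hS3 a, card_filter, ← sum_sdiff hMsub, card_filter]
    congr 1
    · refine sum_congr rfl fun r hr => ?_
      simp only [τ, (mem_sdiff.1 hr).2, if_false]
    · rw [← card_filter]
      congr 1
      ext r
      simp only [mem_filter]
      constructor
      · rintro ⟨g1, g2⟩
        simp only [τ, g1, if_true] at g2
        have := ((hτ2 r a).1 g2).2
        by_contra g3
        simp only [st, g3, if_false] at this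
        split_ifs at this <;> omega
      · intro g
        have g' := mem_filter.1 (hS2 a (hS1 a g))
        refine ⟨g'.1, ?_⟩
        simp only [τ, g'.1, if_true]
        exact (hτ2 r a).2 ⟨g'.2, by simp only [st, g, if_true]⟩
  have qp : ∀ a, ∑ r ∈ I, pas (τ r) (a + 1) = pasP P (a + 1) := by
    intro a
    rw [← hS4 a, ← sum_sdiff hMsub, add_assoc]
    congr 1
    · refine sum_congr rfl fun r hr => ?_
      simp only [τ, (mem_sdiff.1 hr).2, if_false]
    · have e1 : 2 * (S23 a).card = ∑ r ∈ M, if r ∈ S23 a then 2 else 0 := by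
        rw [← sum_filter, filter_mem_eq_inter, inter_eq_right.2 ((hS2 a).trans (filter_subset _ _)),
          sum_const, smul_eq_mul, mul_comm]
      rw [← tileAll_sum_mod, e1, ← sum_add_distrib]
      refine sum_congr rfl fun r hr => ?_
      simp only [τ, hr, if_true]
      rw [hτ3 r a]
      congr 1
      by_cases g : r ∈ S23 a
      · have g' := (mem_filter.1 (hS2 a g)).2
        have : st r a = 1 ∨ st r a = 2 := by
          simp only [st]; split_ifs <;> simp
        rw [if_pos ⟨g', this⟩, if_pos g]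
      · have g3 : r ∉ S3 a := fun h => g (hS1 a h)
        have : st r a = 0 := by simp only [st, g, g3, if_false]
        rw [if_neg (by omega), if_neg g]
  have hfin := eq_of_deg_pas (P := fun j a => (I.filter fun r => τ r a = j).card) (P' := P)
    (fun a => by rw [(tileAll_deg I H τ hτ a).1, hdeg])
    (fun a => by
      rw [(tileAll_deg I H τ hτ a).2]
      have := qp (a - 1)
      simpa using this) q3
  refine ⟨τ, hτ, fun j hj a => ?_⟩
  rcases hj with rfl | rfl | rfl
  · exact (hfin a).1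
  · exact (hfin a).2
  · exact q3 a

end Pool.Agent.MP_4c107d_co.H78

end

end

-- part MP_4c107d_co.H78.F
section

section

/-!
Embedding a few arbitrary trees.
-/

set_option autoImplicit false
set_option linter.unusedSectionVars false

namespace Pool.Agent.MP_4c107d_co.H78

open Finset

variable {ι : Type} [DecidableEq ι] {n m : ℕ} [NeZero m] {E : ι → Gr n} {I R : Finset ι}
  {s : ι → ZMod m} {u : ℕ}

/-- heavy row vertices -/
def junk_hv (E : Gr n) : Finset (Fin n) := univ.filter fun y => n ≤ 16 * dY E y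

/-- neighbours of heavy row vertices -/
def junk_nh (E : Gr n) : Finset (Fin n) := univ.filter fun x => ∃ y ∈ junk_hv E, (x, y) ∈ E

theorem junk_card_hv {F : Gr n} (h : Tr F) (hn : 0 < n) : (junk_hv F).card ≤ 32 := by
  have h1 := h.card_heavyY hn (t := (n : ℝ) / 16) (by positivity)
  have h2 : (univ.filter fun y => (n : ℝ) / 16 ≤ (dY F y : ℝ)) = junk_hv F :=
    filter_congr fun y _ => by
      rw [div_le_iff₀ (by norm_num), mul_comm]
      exact_mod_cast Iff.rfl
  rw [h2] at h1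
  have h3 : (0 : ℝ) < n := by exact_mod_cast hn
  have h4 : ((junk_hv F).card : ℝ) ≤ 32 := le_of_mul_le_mul_right (by linarith) h3
  exact_mod_cast h4

theorem junk_sumX {Jk : Finset ι} (htr : ∀ i ∈ Jk, Tr (E i)) (hn : 0 < n) {D : Finset (It ι n)}
    (hD : D ⊆ full n Jk) : ∑ p ∈ D, (dX (E p.1) p.2 : ℝ) ≤ Jk.card * (2 * n) := by
  have h1 : ∑ p ∈ D, dX (E p.1) p.2 ≤ Jk.card * (2 * n) := by
    refine (sum_le_sum_of_subset hD).trans ?_
    rw [sum_full, ← smul_eq_mul]
    refine sum_le_card_nsmul _ _ _ fun i hi => ?_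
    have := (htr i hi).sum_dX hn
    dsimp only
    omega
  exact_mod_cast h1

theorem junk_sumY {Jk : Finset ι} (htr : ∀ i ∈ Jk, Tr (E i)) (hn : 0 < n) {D : Finset (It ι n)}
    (hD : D ⊆ full n Jk) : ∑ p ∈ D, (dY (E p.1) p.2 : ℝ) ≤ Jk.card * (2 * n) := by
  have h1 : ∑ p ∈ D, dY (E p.1) p.2 ≤ Jk.card * (2 * n) := by
    refine (sum_le_sum_of_subset hD).trans ?_
    rw [sum_full, ← smul_eq_mul]
    refine sum_le_card_nsmul _ _ _ fun i hi => ?_
    have := (htr i hi).sum_dY hn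
    dsimp only
    omega
  exact_mod_cast h1

theorem junk_act {B : Type} [DecidableEq B] {D N F : Finset (It ι n)} (hD : D ⊆ F) (hN : N ⊆ F)
    (f : It ι n → B) (C : Finset B) : act D N f C ⊆ F := fun _ hp =>
  (mem_act.1 hp).elim (fun h => hN h) fun h => hD h.1

theorem junk_ite (c : Prop) [Decidable c] {x : ℝ} (hx : 0 ≤ x) :
    ∑ _κ : Unit, (if c then x else 0) ≤ x := by
  rw [Fintype.sum_unique]
  split_ifs
  exacts [le_rfl, hx]

theorem junk_A0 (hm : m + 1 = 2 * n) (hn : 1000 ≤ n) :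
    (11 / 10 : ℝ) * n < (univ.filter fun a : ZMod m => a.val % 3 ≠ 0).card := by
  have h1 := card_mod3 (m := m)
  have h2 : 11 * n < 10 * (univ.filter fun a : ZMod m => a.val % 3 ≠ 0).card := by omega
  have h3 : (11 : ℝ) * n < 10 * (univ.filter fun a : ZMod m => a.val % 3 ≠ 0).card := by
    exact_mod_cast h2
  linarith

theorem junk_step1 (E : ι → Gr n) (Jk : Finset ι) (hm : m + 1 = 2 * n) (hn : 1000 ≤ n)
    (htr : ∀ i ∈ Jk, Tr (E i)) {N : Finset (It ι n)} (hN : N ⊆ full n Jk) :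
    ∃ σ : It ι n → ZMod m, (∀ p ∈ N, (σ p).val % 3 ≠ 0) ∧
      (∀ p ∈ N, ∀ p' ∈ N, p.1 = p'.1 → σ p = σ p' → p = p') ∧
      ∀ a, ∑ p ∈ fib N σ a, (dX (E p.1) p.2 : ℝ) ≤ 100 * Jk.card + n := by
  have hn0 : 0 < n := by omega
  have hA := junk_A0 hm hn
  obtain ⟨σ, ψ, -, -, h3, -, h5, -, -, h8, -⟩ := greedy (KA := Unit) (KB := Unit)
    (fun _ : ι => (∅ : Gr n)) ∅ ∅ N ∅ (fun _ => (0 : ZMod m)) (fun p => p.1)
    ⟨by simp, by simp, by simp⟩ (disjoint_empty_left _) (disjoint_empty_left _)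
    (fun _ => 0) (fun _ => 0) (by simp) (by simp) (fun a => {a}) 1 (fun a => mem_singleton_self a)
    (fun a b h => mem_singleton.2 (mem_singleton.1 h).symm) (fun a => (card_singleton a).le)
    (fun _ => univ.filter fun a : ZMod m => a.val % 3 ≠ 0) (fun _ => ∅) univ ∅
    (fun _ _ _ _ => subset_univ _) (fun _ _ _ _ _ => subset_univ _) (by simp) (by simp)
    (fun _ p => (dX (E p.1) p.2 : ℝ)) (fun _ => 100 * Jk.card) (fun _ => n) (fun _ => n / 50) ()
    (fun _ _ => 0) (fun _ => 0) (fun _ => 0) (fun _ => 0) ()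
    (fun _ _ => Nat.cast_nonneg _) (fun _ => by linarith only [Nat.cast_nonneg (α := ℝ) Jk.card, Nat.cast_nonneg (α := ℝ) n, Nat.cast_nonneg (α := ℝ) m]) (fun _ => by linarith only [Nat.cast_nonneg (α := ℝ) Jk.card, Nat.cast_nonneg (α := ℝ) n, Nat.cast_nonneg (α := ℝ) m])
    (fun _ _ => le_rfl) (fun _ => le_rfl) (fun _ => le_rfl)
    (fun p _ => by simp [act]) (by simp [act]) (fun _ => Nat.cast_nonneg _)
    (fun _ p _ => by exact_mod_cast dX_le _ _) (fun _ => le_rfl) (fun _ _ _ => le_rfl)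
    (fun _ a _ => by simp only [fib, filter_empty, sum_empty]; linarith only [Nat.cast_nonneg (α := ℝ) Jk.card, Nat.cast_nonneg (α := ℝ) n, Nat.cast_nonneg (α := ℝ) m]) (by simp)
    (fun _ _ => (junk_sumX htr hn0 (junk_act (empty_subset _) hN _ _)).trans_eq (by ring))
    (by simp)
    (fun p _ => by
      have a1 : (((act ∅ N (fun _ => (0 : ZMod m)) univ).filter fun p' => p'.1 = p.1).card : ℝ) ≤
          n := by exact_mod_cast card_owner_le _ p.1
      have a2 := junk_ite (0 < (dX (E p.1) p.2 : ℝ)) (x := n / 50) (by positivity)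
      have a3 : (0 : ℝ) ≤ n := Nat.cast_nonneg _
      simp only [Nat.cast_one, add_zero, mul_zero, one_mul]
      linarith)
    (by simp)
  rw [empty_union] at h5 h8
  exact ⟨σ, fun p hp => (mem_filter.1 (h3 p hp)).2, h5.injX, fun a => h8 () a (mem_univ a)⟩

/-- Proof idea. `J = #Jk`, `A0 = {a | a.val % 3 ≠ 0}` (`card_mod3`). Heavy row vertices (`n ≤ 16 dY`, at most `32` per tree by `Tr.card_heavyY`) get pairwise different rows of `Bj`.
Step 1: place the neighbours `NH` of heavy vertices by `greedy` with the EMPTY graphs `fun _ => ∅` (`DX = DY = PY = ∅`, `nb a = {a}`, `w = 1`, `AX = A0`, `Ac = univ`, `KA = KB = Unit`, weight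
`wX p = dX (E p.1) p.2`, `θA = 100 J`, `MA = n`, `cA = n / 50`, all `B` parameters `0`). This gives `Ok E NH heavy` because a row contains one heavy vertex. Step 2: `greedy` with `E`, the ranks of rootings `T i`
(`RT.Good.of_rY_le`, `of_rX_le`), the same column meter, `Br = AY = Bj \ (rows of heavy vertices)`, `wY q = dY`, `θB = n / 100`, `MB = n / 16`, `cB = 200 J`; a new column vertex has no old neighbour, a new row
vertex has at most `32` (`RT.Good.card_nbr_le`). -/
theorem junkII (E : ι → Gr n) (Jk Bj : Finset ι) (hm : m + 1 = 2 * n) (hn : 1000 ≤ n)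
    (htr : ∀ i ∈ Jk, Tr (E i)) (hB : 10 ^ 4 * (Jk.card + n) ≤ Bj.card) :
    ∃ (σ : It ι n → ZMod m) (ψ : It ι n → ι), Ok E (full n Jk) (full n Jk) σ ψ ∧
      (∀ p ∈ full n Jk, (σ p).val % 3 ≠ 0) ∧ (∀ q ∈ full n Jk, ψ q ∈ Bj) ∧
      (∀ a, colL E (full n Jk) σ a ≤ 200 * (Jk.card + n)) ∧
      ∀ r, rowL E (full n Jk) ψ r ≤ n := by
  have hn0 : 0 < n := by omega
  have hnR : (1000 : ℝ) ≤ n := by exact_mod_cast hn
  have hA := junk_A0 hm hn
  obtain ⟨HV, hHV⟩ : ∃ HV, HV = its Jk fun i => junk_hv (E i) := ⟨_, rfl⟩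
  obtain ⟨NH, hNH⟩ : ∃ NH, NH = its Jk fun i => junk_nh (E i) := ⟨_, rfl⟩
  have mHV : ∀ q, q ∈ HV ↔ q.1 ∈ Jk ∧ q.2 ∈ junk_hv (E q.1) := fun q => by rw [hHV, mem_its]
  have mNH : ∀ p, p ∈ NH ↔ p.1 ∈ Jk ∧ p.2 ∈ junk_nh (E p.1) := fun p => by rw [hNH, mem_its]
  have sHV : HV ⊆ full n Jk := fun q hq => mem_full.2 ((mHV q).1 hq).1
  have sNH : NH ⊆ full n Jk := fun q hq => mem_full.2 ((mNH q).1 hq).1
  have cHV : HV.card ≤ Jk.card * 32 := by
    rw [hHV, card_its, ← smul_eq_mul]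
    exact sum_le_card_nsmul _ _ _ fun i hi => junk_card_hv (htr i hi) hn0
  obtain ⟨b0, -⟩ : Bj.Nonempty := card_pos.1 (by omega)
  obtain ⟨ψ0, hψ1, hψ2⟩ : ∃ ψ0 : It ι n → ι, (∀ q ∈ HV, ψ0 q ∈ Bj) ∧
      ∀ q ∈ HV, ∀ q' ∈ HV, ψ0 q = ψ0 q' → q = q' := by
    obtain ⟨f, h1⟩ := Function.Embedding.exists_of_card_le_finset (α := HV) (s := Bj)
      (by rw [Fintype.card_coe]; omega)
    refine ⟨fun q => if h : q ∈ HV then f ⟨q, h⟩ else b0, fun q hq => ?_, fun q hq q' hq' e => ?_⟩
    · simp only [dif_pos hq]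
      exact h1 ⟨_, rfl⟩
    · simp only [dif_pos hq, dif_pos hq'] at e
      exact congrArg Subtype.val (f.injective e)
  obtain ⟨σ0, s1, s2, s3⟩ := junk_step1 E Jk hm hn htr sNH
  have hok : Ok E NH HV σ0 ψ0 := ⟨s2, fun q hq q' hq' _ => hψ2 q hq q' hq',
    fun p hp q hq p' hp' q' hq' a a' e e' =>
      s2 p hp p' hp' (by rw [a.1, a'.1, hψ2 q hq q' hq' e']) e⟩
  have : Nonempty (RT n) := ⟨⟨⟨0, hn0⟩, id, id, fun _ => 0, fun _ => 0⟩⟩
  choose! T hT _hT using fun i (hi : i ∈ Jk) => htr i hi ⟨0, hn0⟩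
  have hno : ∀ q ∈ HV, ∀ p ∈ full n Jk \ NH, ¬ adj E p q := fun q hq p hp a =>
    (mem_sdiff.1 hp).2 ((mNH p).2 ⟨mem_full.1 (mem_sdiff.1 hp).1,
      mem_filter.2 ⟨mem_univ _, q.2, a.1 ▸ ((mHV q).1 hq).2, a.2⟩⟩)
  have cBr : 9000 * ((Jk.card : ℝ) + n) ≤ (Bj \ HV.image ψ0).card := by
    have a1 := le_card_sdiff (HV.image ψ0) Bj
    have a2 : (HV.image ψ0).card ≤ HV.card := card_image_le
    exact_mod_cast (show 9000 * (Jk.card + n) ≤ (Bj \ HV.image ψ0).card by omega)
  have hJ : (0 : ℝ) ≤ Jk.card := Nat.cast_nonneg _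
  obtain ⟨σ, ψ, h1, h2, h3, h4, h5, -, -, h8, h9⟩ := greedy (KA := Unit) (KB := Unit)
    E NH HV (full n Jk \ NH) (full n Jk \ HV) σ0 ψ0 hok disjoint_sdiff disjoint_sdiff
    (fun p => (T p.1).rX p.2) (fun q => (T q.1).rY q.2)
    (fun p hp q _ q' _ a a' r r' => by
      have g := hT p.1 (mem_full.1 (mem_sdiff.1 hp).1)
      rw [← a.1] at r
      rw [← a'.1] at r'
      exact Prod.ext (a.1.symm.trans a'.1)
        ((g.of_rY_le a.2 r).2.symm.trans (g.of_rY_le a'.2 r').2))
    (fun q hq p _ p' _ a a' r r' => by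
      have g := hT q.1 (mem_full.1 (mem_sdiff.1 hq).1)
      have b := a.2
      have b' := a'.2
      rw [a.1] at r b
      rw [a'.1] at r' b'
      exact Prod.ext (a.1.trans a'.1.symm) ((g.of_rX_le b r).symm.trans (g.of_rX_le b' r')))
    (fun a => {a}) 1 (fun a => mem_singleton_self a)
    (fun a b h => mem_singleton.2 (mem_singleton.1 h).symm) (fun a => (card_singleton a).le)
    (fun _ => univ.filter fun a : ZMod m => a.val % 3 ≠ 0) (fun _ => Bj \ HV.image ψ0) univ
    (Bj \ HV.image ψ0)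
    (fun _ _ _ _ => subset_univ _) (fun _ _ _ _ _ => subset_univ _) (fun _ _ => Subset.rfl)
    (fun q hq p hp a => absurd a (hno q hq p hp))
    (fun _ p => (dX (E p.1) p.2 : ℝ)) (fun _ => 100 * Jk.card) (fun _ => n) (fun _ => n / 50) ()
    (fun _ q => (dY (E q.1) q.2 : ℝ)) (fun _ => n / 100) (fun _ => n / 16)
    (fun _ => 200 * Jk.card) ()
    (fun _ _ => Nat.cast_nonneg _) (fun _ => by linarith only [Nat.cast_nonneg (α := ℝ) Jk.card, Nat.cast_nonneg (α := ℝ) n, Nat.cast_nonneg (α := ℝ) m]) (fun _ => by linarith only [Nat.cast_nonneg (α := ℝ) Jk.card, Nat.cast_nonneg (α := ℝ) n, Nat.cast_nonneg (α := ℝ) m])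
    (fun _ _ => Nat.cast_nonneg _) (fun _ => by linarith only [Nat.cast_nonneg (α := ℝ) Jk.card, Nat.cast_nonneg (α := ℝ) n, Nat.cast_nonneg (α := ℝ) m]) (fun _ => by linarith only [Nat.cast_nonneg (α := ℝ) Jk.card, Nat.cast_nonneg (α := ℝ) n, Nat.cast_nonneg (α := ℝ) m])
    (fun p _ => by exact_mod_cast card_adjX_le _ p) (fun q _ => by exact_mod_cast card_adjY_le _ q)
    (fun _ => Nat.cast_nonneg _) (fun _ p _ => by exact_mod_cast dX_le _ _)
    (fun _ => by linarith only [Nat.cast_nonneg (α := ℝ) Jk.card, Nat.cast_nonneg (α := ℝ) n, Nat.cast_nonneg (α := ℝ) m])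
    (fun _ q hq => by
      have a1 : ¬ n ≤ 16 * dY (E q.1) q.2 := fun h => (mem_sdiff.1 hq).2
        ((mHV q).2 ⟨mem_full.1 (mem_sdiff.1 hq).1, mem_filter.2 ⟨mem_univ _, h⟩⟩)
      have a2 : (16 : ℝ) * dY (E q.1) q.2 ≤ n := by exact_mod_cast (not_le.1 a1).le
      linarith)
    (fun _ a _ => s3 a)
    (fun _ r hr => by
      rw [sum_eq_zero fun q hq => absurd (mem_image.2 ⟨q, mem_fib.1 hq⟩) (mem_sdiff.1 hr).2]
      linarith only [Nat.cast_nonneg (α := ℝ) Jk.card, Nat.cast_nonneg (α := ℝ) n, Nat.cast_nonneg (α := ℝ) m])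
    (fun _ _ => (junk_sumX htr hn0 (junk_act sNH sdiff_subset _ _)).trans_eq (by ring))
    (fun _ _ => (junk_sumY htr hn0 (junk_act sHV sdiff_subset _ _)).trans_eq (by ring))
    (fun p hp => by
      have a1 : (((act NH (full n Jk \ NH) σ0 univ).filter fun p' => p'.1 = p.1).card : ℝ) ≤
          n := by exact_mod_cast card_owner_le _ p.1
      have a2 := junk_ite (0 < (dX (E p.1) p.2 : ℝ)) (x := n / 50) (by positivity)
      rw [filter_eq_empty_iff.2 fun q hq => hno q hq p hp]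
      simp only [Nat.cast_one, one_mul, card_empty, Nat.cast_zero, zero_add]
      linarith)
    (fun q hq => by
      have hq1 := mem_full.1 (mem_sdiff.1 hq).1
      have a1 : (((act HV (full n Jk \ HV) ψ0 (Bj \ HV.image ψ0)).filter
          fun q' => q'.1 = q.1).card : ℝ) ≤ n := by exact_mod_cast card_owner_le _ q.1
      have a2 := junk_ite (0 < (dY (E q.1) q.2 : ℝ)) (x := 200 * Jk.card) (by linarith only [Nat.cast_nonneg (α := ℝ) Jk.card, Nat.cast_nonneg (α := ℝ) n, Nat.cast_nonneg (α := ℝ) m])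
      have a3 : (NH.filter fun p => adj E p q).card ≤ 32 := by
        refine le_trans (card_le_card_of_injOn (fun p => p.2) (fun p hp => ?_)
          fun p hp p' hp' e => ?_) (((hT q.1 hq1).card_nbr_le (junk_hv (E q.1)) (y := q.2)
            fun h => (mem_sdiff.1 hq).2 ((mHV q).2 ⟨hq1, h⟩)).trans
              (junk_card_hv (htr _ hq1) hn0))
        · obtain ⟨b1, b2⟩ := mem_filter.1 (mem_coe.1 hp)
          have b3 := (mem_filter.1 ((mNH p).1 b1).2).2
          have b4 := b2.2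
          rw [b2.1] at b3 b4
          exact mem_coe.2 (mem_filter.2 ⟨mem_nY.2 b4, b3⟩)
        · exact Prod.ext ((mem_filter.1 (mem_coe.1 hp)).2.1.trans
            (mem_filter.1 (mem_coe.1 hp')).2.1.symm) e
      have a4 : ((NH.filter fun p => adj E p q).card : ℝ) + 1 ≤ 33 := by
        exact_mod_cast Nat.succ_le_succ a3
      have a5 := mul_le_mul_of_nonneg_right a4
        (show (0 : ℝ) ≤ 100 * Jk.card + n by linarith only [Nat.cast_nonneg (α := ℝ) Jk.card, Nat.cast_nonneg (α := ℝ) n, Nat.cast_nonneg (α := ℝ) m])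
      simp only [Nat.cast_one, one_mul]
      linarith)
  rw [union_sdiff_of_subset sNH] at h5 h8
  rw [union_sdiff_of_subset sHV] at h5 h9
  refine ⟨σ, ψ, h5, fun p hp => ?_, fun q hq => ?_, fun a => ?_, fun r => ?_⟩
  · by_cases h : p ∈ NH
    · rw [h1 p h]; exact s1 p h
    · exact (mem_filter.1 (h3 p (mem_sdiff.2 ⟨hp, h⟩))).2
  · by_cases h : q ∈ HV
    · rw [h2 q h]; exact hψ1 q h
    · exact (mem_sdiff.1 (h4 q (mem_sdiff.2 ⟨hq, h⟩))).1
  · have a1 : colL E (full n Jk) σ a ≤ 100 * Jk.card + n := by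
      unfold colL
      exact_mod_cast h8 () a (mem_univ a)
    omega
  · by_cases hr : r ∈ Bj \ HV.image ψ0
    · have a1 : ((rowL E (full n Jk) ψ r : ℕ) : ℝ) ≤ n := by
        have := h9 () r hr
        unfold rowL
        push_cast
        linarith
      exact_mod_cast a1
    · have a1 : ∀ q ∈ fib (full n Jk) ψ r, q ∈ HV := fun q hq => by
        by_contra h
        exact hr ((mem_fib.1 hq).2 ▸ h4 q (mem_sdiff.2 ⟨(mem_fib.1 hq).1, h⟩))
      have a2 : (fib (full n Jk) ψ r).card ≤ 1 := card_le_one.2 fun q hq q' hq' =>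
        hψ2 q (a1 q hq) q' (a1 q' hq') (by
          rw [← h2 q (a1 q hq), ← h2 q' (a1 q' hq'), (mem_fib.1 hq).2, (mem_fib.1 hq').2])
      refine (sum_le_card_nsmul _ _ n fun q _ => dY_le _ _).trans ?_
      rw [smul_eq_mul]
      exact (Nat.mul_le_mul_right n a2).trans_eq (one_mul n)

end Pool.Agent.MP_4c107d_co.H78

end

section

/-!
Embedding the cores of the regular trees.
-/

set_option autoImplicit false
set_option linter.unusedSectionVars false

namespace Pool.Agent.MP_4c107d_co.H78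

open Finset

variable {ι : Type} [DecidableEq ι] {n m : ℕ} [NeZero m] {E : ι → Gr n} {I R : Finset ι}
  {s : ι → ZMod m} {u : ℕ}


theorem core_ne (hm : 100 ≤ m) {j : ℕ} (h0 : 0 < j) (h1 : j < 100) : (j : ZMod m) ≠ 0 := fun h =>
  absurd (Nat.le_of_dvd h0 ((ZMod.natCast_eq_zero_iff _ _).1 h)) (by omega)

theorem core_far (hm : 100 ≤ m) (a : ZMod m) : a - 5 ∉ nb2 (a - 1) := by
  have h2 := core_ne hm (j := 2) (by omega) (by omega)
  have h3 := core_ne hm (j := 3) (by omega) (by omega)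
  have h4 := core_ne hm (j := 4) (by omega) (by omega)
  have h5 := core_ne hm (j := 5) (by omega) (by omega)
  have h6 := core_ne hm (j := 6) (by omega) (by omega)
  push_cast at h2 h3 h4 h5 h6
  simp only [nb2, mem_insert, mem_singleton, not_or]
  exact ⟨fun e => h2 (by linear_combination -e), fun e => h3 (by linear_combination -e),
    fun e => h4 (by linear_combination -e), fun e => h5 (by linear_combination -e),
    fun e => h6 (by linear_combination -e)⟩

theorem core_AX (c : ZMod m) : (m : ℝ) ≤ 5 * ((univ.filter fun a : ZMod m =>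
    4 * m ≤ 5 * (a - c).val ∧ (a - c).val + 8 ≤ m).card : ℝ) + 45 := by
  have h : (Ico ((4 * m + 4) / 5) (m - 8)).card ≤ (univ.filter fun a : ZMod m =>
      4 * m ≤ 5 * (a - c).val ∧ (a - c).val + 8 ≤ m).card := by
    refine card_le_card_of_injOn (fun j => c + (j : ZMod m)) (fun j hj => ?_)
      fun j hj j' hj' e => ?_
    · have := mem_Ico.1 hj
      refine mem_coe.2 (mem_filter.2 ⟨mem_univ _, ?_⟩)
      rw [add_sub_cancel_left, ZMod.val_cast_of_lt (by omega)]
      omega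
    · have h1 := mem_Ico.1 hj
      have h2 := mem_Ico.1 hj'
      have := congrArg ZMod.val (add_left_cancel e)
      rwa [ZMod.val_cast_of_lt (by omega), ZMod.val_cast_of_lt (by omega)] at this
  rw [Nat.card_Ico] at h
  exact_mod_cast (show m ≤ 5 * _ + 45 by omega)

theorem core_u (h : Two E I R m s u) : m * u ≤ I.card := by
  have h1 := sum_fib R s univ (fun _ _ => mem_univ _) fun _ => 1
  simp only [← card_eq_sum_ones] at h1
  have h2 : ∑ _a : ZMod m, u ≤ ∑ a, (fib R s a).card := sum_le_sum fun a _ => h.lo a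
  rw [sum_const, card_univ, ZMod.card, smul_eq_mul, h1] at h2
  exact h2.trans (card_le_card h.sub)

theorem core_sum {F : ι → Finset (Fin n)} {f : ι → Fin n → ℕ} {b : ℝ} (hb : 0 ≤ b) (hR : R ⊆ I)
    (hF : ∀ i ∈ R, ((∑ x ∈ F i, f i x : ℕ) : ℝ) ≤ b) {D : Finset (It ι n)} (hD : D ⊆ its R F) :
    ∑ p ∈ D, (f p.1 p.2 : ℝ) ≤ I.card * b := by
  refine (sum_le_sum_of_subset_of_nonneg hD fun _ _ _ => Nat.cast_nonneg _).trans ?_
  rw [sum_its]
  refine (sum_le_card_nsmul R _ b fun i hi => ?_).trans ?_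
  · simpa using hF i hi
  · rw [nsmul_eq_mul]
    exact mul_le_mul_of_nonneg_right (by exact_mod_cast card_le_card hR) hb

theorem core_one {F : Finset (Fin n)} {f : Fin n → ℕ} {b : ℝ} (hF : ((∑ x ∈ F, f x : ℕ) : ℝ) ≤ b)
    {x : Fin n} (hx : x ∈ F) : (f x : ℝ) ≤ b :=
  le_trans (by exact_mod_cast single_le_sum (f := f) (fun _ _ => Nat.zero_le _) hx) hF

/-- One application of `greedy`. -/
theorem coreII (h : Two E I R m s u) (C : ι → ChD n)
    (hC : ∀ i ∈ R, (C i).Good (E i) (n / 10 ^ 13)) (Bi : Finset ι) (hB : I.card ≤ 1001 * Bi.card) :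
    ∃ (σ : It ι n → ZMod m) (ψ : It ι n → ι), Ok E (X0s R C) (Y0s R C) σ ψ ∧
      (∀ i ∈ R, σ (i, (C i).T.root) = s i - 1 ∧ σ (i, (C i).x1) = s i - 5) ∧
      (∀ p ∈ X0s R C, p.2 ≠ (C p.1).T.root → p.2 ≠ (C p.1).x1 →
        4 * m ≤ 5 * (σ p - s p.1).val ∧ (σ p - s p.1).val + 8 ≤ m) ∧
      (∀ q ∈ Y0s R C, ψ q ∈ Bi) ∧ Sep E (X0s R C) (Y0s R C) σ ψ nb2 ∧
      (∀ a, 10 ^ 11 * colL E (X0s R C) σ a ≤ 2 * I.card) ∧
      ∀ r, 10 ^ 8 * rowL E (Y0s R C) ψ r ≤ 2 * n := by
  have hn := h.hn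
  have hm := h.hm
  have hm1 : 100 ≤ m := by omega
  have hnR : (10 : ℝ) ^ 20 ≤ n := by exact_mod_cast hn
  have hkR : (10 : ℝ) ^ 20 * n ≤ I.card := by exact_mod_cast h.hk
  have hmR : (m : ℝ) + 1 = 2 * n := by exact_mod_cast hm
  have hBR : (I.card : ℝ) ≤ 1001 * Bi.card := by exact_mod_cast hB
  have huR : (n : ℝ) * u ≤ I.card := by
    exact_mod_cast (Nat.mul_le_mul_right u (show n ≤ m by omega)).trans (core_u h)
  have hb : (0 : ℝ) ≤ n / 10 ^ 13 := by positivity
  set DX : Finset (It ι n) := its R fun i => {(C i).T.root, (C i).x1} with hDX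
  set σ0 : It ι n → ZMod m := fun p => if p.2 = (C p.1).T.root then s p.1 - 1 else s p.1 - 5
    with hσ0
  have mD : ∀ p, p ∈ DX ↔ p.1 ∈ R ∧ (p.2 = (C p.1).T.root ∨ p.2 = (C p.1).x1) := fun p => by
    rw [hDX, mem_its, mem_insert, mem_singleton]
  have hsub : DX ⊆ X0s R C := fun p hp => by
    obtain ⟨h1, h2 | h2⟩ := (mD p).1 hp
    · exact mem_its.2 ⟨h1, h2 ▸ (hC _ h1).rmem⟩
    · exact mem_its.2 ⟨h1, h2 ▸ (hC _ h1).xmem⟩
  have hclose : ∀ p ∈ DX, ∀ p' ∈ DX, p.1 = p'.1 → σ0 p' ∈ nb2 (σ0 p) → p = p' := by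
    rintro ⟨i, x⟩ hp ⟨i', x'⟩ hp' e hnb
    dsimp only at e
    subst e
    obtain ⟨h1, h2⟩ := (mD _).1 hp
    obtain ⟨-, h3⟩ := (mD _).1 hp'
    have h4 := (hC i h1).x1r
    dsimp only at h2 h3
    rcases h2 with rfl | rfl <;> rcases h3 with rfl | rfl
    · rfl
    · simp only [hσ0, if_true, if_neg h4] at hnb
      exact absurd hnb (core_far hm1 _)
    · simp only [hσ0, if_true, if_neg h4] at hnb
      exact absurd (nb2_symm _ _ hnb) (core_far hm1 _)
    · rfl
  have hactX : act DX (X0s R C \ DX) σ0 univ ⊆ X0s R C := fun p hp =>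
    (mem_act.1 hp).elim (fun a => (mem_sdiff.1 a).1) fun a => hsub a.1
  have hactY : act ∅ (Y0s R C) (fun q : It ι n => q.1) Bi ⊆ Y0s R C := fun p hp =>
    (mem_act.1 hp).elim id fun a => absurd a.1 (notMem_empty _)
  obtain ⟨σ, ψ, g1, -, g3, g4, g5, -, g7, g8, g9⟩ := greedy (KA := Unit) (KB := Unit) E DX ∅
    (X0s R C \ DX) (Y0s R C) σ0 (fun q => q.1)
    ⟨fun p hp p' hp' e e' => hclose p hp p' hp' e (e' ▸ mem_nb2_self _), by simp, by simp⟩
    disjoint_sdiff (disjoint_empty_left _) (fun p => (C p.1).T.rX p.2) (fun q => (C q.1).T.rY q.2)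
    (by
      rintro ⟨i, x⟩ hp ⟨j, y⟩ - ⟨j', y'⟩ - ⟨e, a⟩ ⟨e', a'⟩ r r'
      dsimp only at e e' a a' r r'
      subst e e'
      have t := (hC i (mem_its.1 (mem_sdiff.1 hp).1).1).tree
      rw [← (t.of_rY_le a r).2, ← (t.of_rY_le a' r').2])
    (by
      rintro ⟨j, y⟩ hq ⟨i, x⟩ - ⟨i', x'⟩ - ⟨e, a⟩ ⟨e', a'⟩ r r'
      dsimp only at e e' a a' r r'
      subst e e'
      have t := (hC _ (mem_its.1 hq).1).tree
      rw [← t.of_rX_le a r, ← t.of_rX_le a' r'])
    nb2 5 mem_nb2_self nb2_symm card_nb2_le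
    (fun p => univ.filter fun a => 4 * m ≤ 5 * (a - s p.1).val ∧ (a - s p.1).val + 8 ≤ m)
    (fun _ => Bi) univ Bi (fun _ _ _ _ => subset_univ _) (fun _ _ _ _ _ => subset_univ _)
    (fun _ _ => Subset.rfl) (by simp)
    (fun _ p => dX (E p.1) p.2) (fun _ => I.card / 10 ^ 11) (fun _ => n) (fun _ => n / 100) ()
    (fun _ q => dY (E q.1) q.2) (fun _ => n / 10 ^ 8) (fun _ => n / 10 ^ 13)
    (fun _ => I.card / 10 ^ 5) ()
    (fun _ _ => Nat.cast_nonneg _) (fun _ => by linarith only [Nat.cast_nonneg (α := ℝ) I.card, Nat.cast_nonneg (α := ℝ) n, Nat.cast_nonneg (α := ℝ) m]) (fun _ => by linarith only [Nat.cast_nonneg (α := ℝ) I.card, Nat.cast_nonneg (α := ℝ) n, Nat.cast_nonneg (α := ℝ) m])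
    (fun _ _ => Nat.cast_nonneg _) (fun _ => by linarith only [Nat.cast_nonneg (α := ℝ) I.card, Nat.cast_nonneg (α := ℝ) n, Nat.cast_nonneg (α := ℝ) m]) (fun _ => by linarith only [Nat.cast_nonneg (α := ℝ) I.card, Nat.cast_nonneg (α := ℝ) n, Nat.cast_nonneg (α := ℝ) m])
    (fun p _ => by exact_mod_cast card_adjX_le _ p) (fun q _ => by exact_mod_cast card_adjY_le _ q)
    (fun _ => Nat.cast_nonneg _) (fun _ p _ => by exact_mod_cast dX_le _ _) (fun _ => hb)
    (fun _ q hq => core_one (hC _ (mem_its.1 hq).1).sY (mem_its.1 hq).2)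
    (fun _ a _ => by
      have c1 : (fib DX σ0 a).card ≤ (fib R s (a + 1)).card + (fib R s (a + 5)).card := by
        refine le_trans (card_le_card (t := (fib R s (a + 1)).image (fun i => (i, (C i).T.root)) ∪
          (fib R s (a + 5)).image fun i => (i, (C i).x1)) ?_)
          ((card_union_le _ _).trans (add_le_add card_image_le card_image_le))
        rintro ⟨i, x⟩ hp
        obtain ⟨h1, h2⟩ := mem_fib.1 hp
        obtain ⟨h3, h4⟩ := (mD _).1 h1
        dsimp only at h3 h4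
        rcases h4 with rfl | rfl
        · simp only [hσ0, if_true] at h2
          exact mem_union_left _ (mem_image_of_mem _ (mem_fib.2 ⟨h3, by rw [← h2]; ring⟩))
        · simp only [hσ0, if_neg (hC i h3).x1r] at h2
          exact mem_union_right _ (mem_image_of_mem _ (mem_fib.2 ⟨h3, by rw [← h2]; ring⟩))
      have c2 : ((fib DX σ0 a).card : ℝ) ≤ 2 * u + 2 := by
        have := h.hi (a + 1)
        have := h.hi (a + 5)
        exact_mod_cast (show (fib DX σ0 a).card ≤ 2 * u + 2 by omega)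
      refine (sum_le_card_nsmul _ _ ((n : ℝ) / 10 ^ 13) fun p hp => ?_).trans ?_
      · have := mem_its.1 (hsub (mem_fib.1 hp).1)
        exact core_one (hC _ this.1).sX this.2
      · rw [nsmul_eq_mul]
        refine (mul_le_mul_of_nonneg_right c2 hb).trans ?_
        linarith)
    (fun _ r _ => by simp only [fib, filter_empty, sum_empty]; linarith only [Nat.cast_nonneg (α := ℝ) I.card, Nat.cast_nonneg (α := ℝ) n, Nat.cast_nonneg (α := ℝ) m])
    (fun _ _ => (core_sum (f := fun i x => dX (E i) x) hb h.sub (fun i hi => (hC i hi).sX)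
      hactX).trans (le_of_eq (by ring)))
    (fun _ _ => (core_sum (f := fun i x => dY (E i) x) hb h.sub (fun i hi => (hC i hi).sY)
      hactY).trans (le_of_eq (by ring)))
    (fun p hp => by
      have hi := (mem_its.1 (mem_sdiff.1 hp).1).1
      have c1 : (((act DX (X0s R C \ DX) σ0 univ).filter fun p' => p'.1 = p.1).card : ℝ) ≤
          n / 10 ^ 13 := by
        refine le_trans ?_ (hC _ hi).sX
        have := (card_le_card (filter_subset_filter (fun p' : It ι n => p'.1 = p.1) hactX)).trans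
          (card_its_owner_le R _ p.1)
        rw [card_eq_sum_ones (C p.1).X0] at this
        exact_mod_cast this.trans (sum_le_sum fun x _ => (h.tr _ (h.sub hi)).dX_pos x)
      have c2 := core_AX (s p.1)
      have c3 : ∑ _κ : Unit, (if (0 : ℝ) < dX (E p.1) p.2 then (n : ℝ) / 100 else 0) ≤ n / 100 := by
        rw [Fintype.sum_unique]
        split_ifs
        · exact le_rfl
        · linarith only [Nat.cast_nonneg (α := ℝ) I.card, Nat.cast_nonneg (α := ℝ) n, Nat.cast_nonneg (α := ℝ) m]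
      simp only [filter_empty, card_empty]
      push_cast
      linarith)
    (fun q hq => by
      have c1 : (((act ∅ (Y0s R C) (fun q : It ι n => q.1) Bi).filter
          fun q' => q'.1 = q.1).card : ℝ) ≤ n := by exact_mod_cast card_owner_le _ _
      have c2 : ((DX.filter fun p => adj E p q).card : ℝ) ≤ 2 := by
        have : (DX.filter fun p => adj E p q).card ≤ (DX.filter fun p => p.1 = q.1).card :=
          card_le_card fun p hp => mem_filter.2 ⟨(mem_filter.1 hp).1, (mem_filter.1 hp).2.1⟩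
        exact_mod_cast this.trans ((card_its_owner_le R _ q.1).trans card_le_two)
      have c3 : ∑ _κ : Unit, (if (0 : ℝ) < dY (E q.1) q.2 then (I.card : ℝ) / 10 ^ 5 else 0) ≤
          (I.card : ℝ) / 10 ^ 5 := by
        rw [Fintype.sum_unique]
        split_ifs
        · exact le_rfl
        · linarith only [Nat.cast_nonneg (α := ℝ) I.card, Nat.cast_nonneg (α := ℝ) n, Nat.cast_nonneg (α := ℝ) m]
      have c4 := mul_le_mul_of_nonneg_right (add_le_add_left c2 1)
        (show (0 : ℝ) ≤ I.card / 10 ^ 11 + n by linarith only [Nat.cast_nonneg (α := ℝ) I.card, Nat.cast_nonneg (α := ℝ) n, Nat.cast_nonneg (α := ℝ) m])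
      push_cast
      linarith)
  rw [union_sdiff_of_subset hsub] at g5 g7 g8
  rw [empty_union] at g5 g7 g9
  refine ⟨σ, ψ, g5, fun i hi => ⟨?_, ?_⟩, fun p hp h1 h2 => ?_, g4,
    fun p hp q hq p' hp' q' hq' a a' e hnb => ?_, fun a => ?_, fun r => ?_⟩
  · rw [g1 _ ((mD (i, _)).2 ⟨hi, Or.inl rfl⟩)]
    exact if_pos rfl
  · rw [g1 _ ((mD (i, _)).2 ⟨hi, Or.inr rfl⟩)]
    exact if_neg (hC i hi).x1r
  · exact (mem_filter.1 (g3 p (mem_sdiff.2 ⟨hp, fun c => ((mD p).1 c).2.elim h1 h2⟩))).2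
  · by_contra hne
    obtain ⟨c1, c2, c3⟩ := g7 p hp q hq p' hp' q' hq' a a' e hnb hne
    obtain rfl : q = q' := c3.resolve_right fun c => notMem_empty _ c.1
    rw [g1 p c1, g1 p' c2] at hnb
    exact hne (hclose p c1 p' c2 (a.1.trans a'.1.symm) hnb)
  · have := g8 () a (mem_univ _)
    have e : (colL E (X0s R C) σ a : ℝ) = ∑ p ∈ fib (X0s R C) σ a, (dX (E p.1) p.2 : ℝ) :=
      Nat.cast_sum _ _
    exact_mod_cast (show (10 : ℝ) ^ 11 * colL E (X0s R C) σ a ≤ 2 * I.card by linarith)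
  · by_cases hr : r ∈ Bi
    · have := g9 () r hr
      have e : (rowL E (Y0s R C) ψ r : ℝ) = ∑ q ∈ fib (Y0s R C) ψ r, (dY (E q.1) q.2 : ℝ) :=
        Nat.cast_sum _ _
      exact_mod_cast (show (10 : ℝ) ^ 8 * rowL E (Y0s R C) ψ r ≤ 2 * n by linarith)
    · rw [rowL, sum_eq_zero fun q hq => absurd (by
        rw [← (mem_fib.1 hq).2]; exact g4 q (mem_fib.1 hq).1) hr]
      exact Nat.zero_le _

end Pool.Agent.MP_4c107d_co.H78

end

section

/-!
The row vertices outside the chains.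
-/

set_option autoImplicit false
set_option linter.unusedSectionVars false

namespace Pool.Agent.MP_4c107d_co.H78

open Finset

variable {ι : Type} [DecidableEq ι] {n m : ℕ} [NeZero m] {E : ι → Gr n} {I R : Finset ι}
  {s : ι → ZMod m} {u : ℕ}


/-- a chain vertex with a neighbour outside the chain is an end of the chain or of a broken link. Proof idea: `e t` has degree two, and `yy (t - 1) ≠ yy t` are neighbours. -/
theorem regB_end {E : Gr n} {b : ℝ} {C : ChD n} (h : C.Good E b) {Nc t : ℕ} (hN : Nc ≤ C.N)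
    (h0 : 0 < t) (ht : t + 1 < Nc) (h1 : C.lk t = true) (h2 : C.lk (t - 1) = true) {y : Fin n}
    (hy : (C.e t, y) ∈ E) : y ∈ C.inn Nc := by
  have l1 := (h.link t (by omega) h1).1
  have l2 := (h.link (t - 1) (by omega) h2).1
  rw [show t - 1 + 1 = t by omega] at l2
  have e1 : C.yy t ∈ nX E (C.e t) := mem_nX.2 (mem_nY.1 (l1 ▸ mem_insert_self _ _))
  have e2 : C.yy (t - 1) ∈ nX E (C.e t) :=
    mem_nX.2 (mem_nY.1 (l2 ▸ mem_insert_of_mem (mem_singleton_self _)))
  have hne : C.yy t ≠ C.yy (t - 1) := fun e => by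
    have := h.yinj t (by omega) (t - 1) (by omega) h1 h2 e
    omega
  have hd : (nX E (C.e t)).card = 2 := h.dX2 _ (h.enot t (by omega))
  have he : ({C.yy t, C.yy (t - 1)} : Finset (Fin n)) = nX E (C.e t) :=
    eq_of_subset_of_card_le (insert_subset e1 (singleton_subset_iff.2 e2))
      (by rw [hd, card_pair hne])
  have hy' : y ∈ ({C.yy t, C.yy (t - 1)} : Finset (Fin n)) := he ▸ mem_nX.2 hy
  rcases mem_insert.1 hy' with rfl | hy'
  · exact mem_image_of_mem _ (mem_filter.2 ⟨mem_range.2 (by omega), h1⟩)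
  · rw [mem_singleton.1 hy']
    exact mem_image_of_mem _ (mem_filter.2 ⟨mem_range.2 (by omega), h2⟩)

theorem regB_N {E : Gr n} {C : ChD n} (h : C.Good E (n / 10 ^ 13)) (ht : Tr E) : NC n ≤ C.N := by
  have h1 : C.X0.card ≤ ∑ x ∈ C.X0, dX E x := by
    rw [card_eq_sum_ones]
    exact sum_le_sum fun x _ => ht.dX_pos x
  have h2 : ((∑ x ∈ C.X0, dX E x : ℕ) : ℝ) * 10 ^ 13 ≤ n := by
    have := h.sX
    rwa [le_div_iff₀ (by positivity)] at this
  have h3 : (∑ x ∈ C.X0, dX E x) * 10 ^ 13 ≤ n := by exact_mod_cast h2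
  have h4 := h.hN
  unfold NC
  omega

theorem regB_out {E : Gr n} {b : ℝ} {C : ChD n} (h : C.Good E b) (hN : NC n ≤ C.N) :
    ((univ \ insert C.y0 (C.inn (NC n))).card : ℝ) ≤ n / 10 ^ 6 + b + 1 := by
  have h1 : (C.inn (NC n)).card = ((range (NC n - 1)).filter fun t => C.lk t = true).card :=
    card_image_of_injOn fun t ht t' ht' e => by
      have a := mem_filter.1 ht
      have a' := mem_filter.1 ht'
      have := mem_range.1 a.1
      have := mem_range.1 a'.1
      exact h.yinj t (by omega) t' (by omega) a.2 a'.2 e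
  have h2 := card_filter_add_card_filter_not (s := range (NC n - 1)) fun t => C.lk t = true
  have h3 : ((range (NC n - 1)).filter fun t => ¬ C.lk t = true).card ≤
      ((range C.N).filter fun t => C.lk t = false).card := card_le_card fun t ht => by
    have a := mem_filter.1 ht
    have := mem_range.1 a.1
    exact mem_filter.2 ⟨mem_range.2 (by omega), by simpa using a.2⟩
  have h4 : (univ \ insert C.y0 (C.inn (NC n))).card + (C.inn (NC n)).card ≤ n := by
    have h5 := card_sdiff_add_card_eq_card (subset_univ (insert C.y0 (C.inn (NC n))))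
    have h6 := card_le_card (subset_insert C.y0 (C.inn (NC n)))
    rw [card_univ, Fintype.card_fin] at h5
    omega
  have h5 : (univ \ insert C.y0 (C.inn (NC n))).card ≤
      n / 10 ^ 6 + ((range C.N).filter fun t => C.lk t = false).card + 1 := by
    rw [card_range] at h2
    unfold NC at h1 h2 h3 h4 ⊢
    omega
  have h6 : ((n / 10 ^ 6 : ℕ) : ℝ) ≤ n / 10 ^ 6 := by
    have := Nat.cast_div_le (α := ℝ) (m := n) (n := 10 ^ 6)
    exact_mod_cast this
  have h7 := h.few
  have h8 : ((univ \ insert C.y0 (C.inn (NC n))).card : ℝ) ≤ ((n / 10 ^ 6 : ℕ) : ℝ) +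
      ((range C.N).filter fun t => C.lk t = false).card + 1 := by exact_mod_cast h5
  linarith

/-- the chain positions in column `a` that are ends of the chain or of a broken link -/
theorem regB_bad (C : ChD n) (c a : ZMod m) (Nc : ℕ) :
    ((range Nc).filter fun t => c + (gp t : ZMod m) = a ∧
      ¬ (0 < t ∧ t + 1 < Nc ∧ C.lk t = true ∧ C.lk (t - 1) = true)).card ≤
      (if c = a - (gp 0 : ZMod m) then 1 else 0) + (if c = a - (gp (Nc - 1) : ZMod m) then 1 else 0)
      + ∑ j ∈ range 4, ((range (Nc - 1)).filter fun t =>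
        C.lk t = false ∧ c + (gp t : ZMod m) = a - (j : ZMod m)).card := by
  have h0 : ∀ t₀ : ℕ, (({t₀} : Finset ℕ).filter fun t => c = a - (gp t : ZMod m)).card =
      if c = a - (gp t₀ : ZMod m) then 1 else 0 := fun t₀ => by
    rw [filter_singleton]
    split_ifs <;> simp
  rw [← h0, ← h0]
  refine le_trans (card_le_card (t := ({0} : Finset ℕ).filter (fun t => c = a - (gp t : ZMod m)) ∪
    ({Nc - 1} : Finset ℕ).filter (fun t => c = a - (gp t : ZMod m)) ∪
    (range 4).biUnion fun j => ((range (Nc - 1)).filter fun t =>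
      C.lk t = false ∧ c + (gp t : ZMod m) = a - (j : ZMod m)).image
        fun t => if j = 0 then t else t + 1) fun t ht => ?_) ?_
  · obtain ⟨h1, h2, h3⟩ := mem_filter.1 ht
    have h4 := mem_range.1 h1
    have h5 : c = a - (gp t : ZMod m) := eq_sub_of_add_eq h2
    simp only [mem_union, mem_filter, mem_singleton, mem_biUnion, mem_image, mem_range]
    by_cases a1 : t = 0
    · exact Or.inl (Or.inl ⟨a1, h5⟩)
    by_cases a2 : t = Nc - 1
    · exact Or.inl (Or.inr ⟨a2, h5⟩)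
    by_cases a3 : C.lk t = true
    · have a4 : C.lk (t - 1) = false := by
        by_contra a5
        exact h3 ⟨by omega, by omega, a3, by simpa using a5⟩
      have a5 := stp_mem (t - 1)
      have a6 := gp_succ (t - 1)
      rw [show t - 1 + 1 = t by omega] at a6
      refine Or.inr ⟨stp (t - 1), by omega, t - 1, ⟨by omega, a4, ?_⟩, ?_⟩
      · rw [← h2, a6]
        push_cast
        ring
      · rw [if_neg (by omega)]
        omega
    · exact Or.inr ⟨0, by omega, t, ⟨by omega, by simpa using a3, by simpa using h2⟩, if_pos rfl⟩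
  · refine (card_union_le _ _).trans (add_le_add (card_union_le _ _) ?_)
    exact card_biUnion_le.trans (sum_le_sum fun j _ => card_image_le)

theorem regB_u (h : Two E I R m s u) : 10 ^ 20 * (u + 1) ≤ 2 * I.card := by
  have h1 : m * u ≤ R.card := by
    have h2 := sum_fib R s univ (fun _ _ => mem_univ _) fun _ => 1
    rw [← card_eq_sum_ones R] at h2
    rw [← h2]
    have h3 : ∑ _a : ZMod m, u = m * u := by simp
    rw [← h3]
    exact sum_le_sum fun a _ => (h.lo a).trans (card_eq_sum_ones _).le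
  have h2 := card_le_card h.sub
  have h3 := h.hm
  have h4 := h.hn
  have h5 := h.hk
  have h6 : 10 ^ 20 * u ≤ m * u := Nat.mul_le_mul_right u (by omega)
  omega

theorem regB_load (h : Two E I R m s u) (C : ι → ChD n)
    (hC : ∀ i ∈ R, (C i).Good (E i) (n / 10 ^ 13)) (hj : ∀ a, 10 ^ 12 * junc R C s a ≤ I.card)
    {Bi : Finset ι} {ld0 : ZMod m → ℕ} {σ : It ι n → ZMod m}
    {ψ0 : It ι n → ι} (hA : RegA E I R C s Bi ld0 σ ψ0) (a : ZMod m) :
    10 ^ 6 * ∑ p ∈ fib (full n R) σ a, ((DY2 R C).filter fun q => adj E p q).card ≤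
      2 * I.card := by
  have hN : ∀ i ∈ R, NC n ≤ (C i).N := fun i hi => regB_N (hC i hi) (h.tr i (h.sub hi))
  rw [← sum_filter_add_sum_filter_not _ fun p => p.2 ∈ (C p.1).ch (NC n)]
  have h1 : ∑ p ∈ (fib (full n R) σ a).filter (fun p => ¬ p.2 ∈ (C p.1).ch (NC n)),
      ((DY2 R C).filter fun q => adj E p q).card ≤
      colL E (its R fun i => univ \ (C i).ch (NC n)) σ a := by
    refine (sum_le_sum fun p _ => card_adjX_le _ p).trans (sum_le_sum_of_subset fun p hp => ?_)
    obtain ⟨a1, a2⟩ := mem_filter.1 hp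
    obtain ⟨a3, a4⟩ := mem_fib.1 a1
    exact mem_fib.2 ⟨mem_its.2 ⟨mem_full.1 a3, mem_sdiff.2 ⟨mem_univ _, a2⟩⟩, a4⟩
  obtain ⟨B, hB⟩ : ∃ B : ι → Finset ℕ, ∀ i, B i = (range (NC n)).filter fun t =>
      s i + (gp t : ZMod m) = a ∧
        ¬ (0 < t ∧ t + 1 < NC n ∧ (C i).lk t = true ∧ (C i).lk (t - 1) = true) := ⟨_, fun _ => rfl⟩
  have h2 : ∑ p ∈ (fib (full n R) σ a).filter (fun p => p.2 ∈ (C p.1).ch (NC n)),
      ((DY2 R C).filter fun q => adj E p q).card ≤ 2 * ∑ i ∈ R, (B i).card := by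
    rw [← sum_filter_ne_zero]
    refine (sum_le_card_nsmul _ _ 2 fun p hp => ?_).trans ?_
    · obtain ⟨a1, a2⟩ := mem_filter.1 (mem_filter.1 hp).1
      have a3 := mem_full.1 (mem_fib.1 a1).1
      obtain ⟨t, ht, e⟩ := mem_image.1 a2
      refine (card_adjX_le _ p).trans ((hC _ a3).dX2 _ ?_).le
      rw [← e]
      exact (hC _ a3).enot t ((mem_range.1 ht).trans_le (hN _ a3))
    · rw [smul_eq_mul, mul_comm]
      refine Nat.mul_le_mul_left 2 (le_trans (card_le_card
        (t := R.biUnion fun i => (B i).image fun t => (i, (C i).e t)) fun p hp => ?_)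
        (card_biUnion_le.trans (sum_le_sum fun i _ => card_image_le)))
      obtain ⟨a0, a5⟩ := mem_filter.1 hp
      obtain ⟨a1, a2⟩ := mem_filter.1 a0
      obtain ⟨a3, a4⟩ := mem_fib.1 a1
      have a3 := mem_full.1 a3
      obtain ⟨t, ht, e⟩ := mem_image.1 a2
      have e' : (p.1, (C p.1).e t) = p := Prod.ext rfl e
      refine mem_biUnion.2 ⟨p.1, a3, mem_image.2 ⟨t, ?_, e'⟩⟩
      rw [hB]
      refine mem_filter.2 ⟨ht, ?_, fun ⟨b1, b2, b3, b4⟩ => a5 ?_⟩
      · rw [← hA.chain _ a3 t (mem_range.1 ht), e', a4]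
      · refine card_eq_zero.2 (filter_eq_empty_iff.2 fun q hq hadj => ?_)
        have b5 := (mem_sdiff.1 (mem_its.1 hq).2).2
        rw [← hadj.1] at b5
        exact b5 (mem_insert_of_mem (regB_end (hC _ a3) (hN _ a3) b1 b2 b3 b4 (e ▸ hadj.2)))
  have h3 : ∀ c : ZMod m, ∑ i ∈ R, (if s i = c then 1 else 0) ≤ u + 1 := fun c => by
    rw [← card_filter]
    exact h.hi c
  have h4 : ∑ i ∈ R, (B i).card ≤
      (u + 1) + (u + 1) + ∑ j ∈ range 4, junc R C s (a - (j : ZMod m)) := by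
    refine (sum_le_sum fun i _ => (hB i ▸ regB_bad (C i) (s i) a (NC n))).trans ?_
    rw [sum_add_distrib, sum_add_distrib, sum_comm]
    exact add_le_add (add_le_add (h3 _) (h3 _)) le_rfl
  have h5 : 10 ^ 12 * ∑ j ∈ range 4, junc R C s (a - (j : ZMod m)) ≤ 4 * I.card := by
    rw [mul_sum]
    simpa using sum_le_card_nsmul (range 4) _ _ fun j _ => hj (a - (j : ZMod m))
  have h6 := regB_u h
  have h7 := hA.rest a
  omega

/-- Proof idea. `greedy` with `DX = full n R`, `DY = Y0s`, `PX = ∅`, `PY = DY2 \ Y0s` (degree two, at most `n / 10 ^ 6 + b + 1` per tree since `#inn ≥ Nc - 1 - b` by `yinj`, `few`), `nb = nb1`, `w = 3`, `Ac = univ`, `AY = Br = Bi`,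
`wX p = #{q ∈ DY2 | adj p q}`, `θA = 2 k / 10 ^ 6`, `MA = cA = 0`; the load of column `a` is at most `rest + 2 (junc a + junc (a - 1) + junc (a - 2) + junc (a - 3) + 2 (u + 1))` by `regB_end`, `gp_succ`;
`wY = dY`, `θB = m / 32`, `MB = 2`, `cB = k / 10 ^ 4`. `No3`: three consecutive holes come from three different column vertices; by the separation statements the three row vertices coincide and are new, of degree two. -/
theorem regB (h : Two E I R m s u) (C : ι → ChD n)
    (hC : ∀ i ∈ R, (C i).Good (E i) (n / 10 ^ 13)) (hj : ∀ a, 10 ^ 12 * junc R C s a ≤ I.card)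
    (Bi : Finset ι) (hB : I.card ≤ 1001 * Bi.card) {ld0 : ZMod m → ℕ} {σ : It ι n → ZMod m}
    {ψ0 : It ι n → ι} (hA : RegA E I R C s Bi ld0 σ ψ0) :
    ∃ ψ : It ι n → ι, Ok E (full n R) (DY2 R C) σ ψ ∧ (∀ q ∈ DY2 R C, ψ q ∈ Bi) ∧
      ∀ r, 16 * (holes E (full n R) (DY2 R C) σ ψ r).card ≤ m ∧
        No3 (holes E (full n R) (DY2 R C) σ ψ r) := by
  have hN : ∀ i ∈ R, NC n ≤ (C i).N := fun i hi => regB_N (hC i hi) (h.tr i (h.sub hi))
  have hsub : Y0s R C ⊆ DY2 R C := fun q hq => by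
    obtain ⟨a1, a2⟩ := mem_its.1 hq
    refine mem_its.2 ⟨a1, mem_sdiff.2 ⟨mem_univ _, fun a3 => ?_⟩⟩
    rcases mem_insert.1 a3 with a3 | a3
    · exact (hC _ a1).ynot (a3 ▸ a2)
    · obtain ⟨t, ht, e⟩ := mem_image.1 a3
      have a4 := mem_range.1 (mem_filter.1 ht).1
      have a5 := hN _ a1
      exact ((hC _ a1).link t (by omega) (mem_filter.1 ht).2).2.1 (e ▸ a2)
  have hun : Y0s R C ∪ DY2 R C \ Y0s R C = DY2 R C := union_sdiff_of_subset hsub
  have hd2 : ∀ q ∈ DY2 R C \ Y0s R C, dY (E q.1) q.2 = 2 := fun q hq => by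
    obtain ⟨a1, a2⟩ := mem_sdiff.1 hq
    obtain ⟨a3, a4⟩ := mem_its.1 a1
    exact (hC _ a3).dY2 _ (fun a5 => a2 (mem_its.2 ⟨a3, a5⟩))
      fun a5 => (mem_sdiff.1 a4).2 (a5 ▸ mem_insert_self _ _)
  have hact : act (Y0s R C) (DY2 R C \ Y0s R C) ψ0 Bi ⊆ DY2 R C := fun q hq => by
    rcases mem_act.1 hq with a | a
    exacts [(mem_sdiff.1 a).1, hsub a.1]
  have hm : (m : ℝ) + 1 = 2 * n := by exact_mod_cast h.hm
  have hn : (10 : ℝ) ^ 20 ≤ n := by exact_mod_cast h.hn
  have hk : (10 : ℝ) ^ 20 * n ≤ I.card := by exact_mod_cast h.hk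
  have hB' : (I.card : ℝ) ≤ 1001 * Bi.card := by exact_mod_cast hB
  have hRI : (R.card : ℝ) ≤ I.card := by exact_mod_cast card_le_card h.sub
  have hk0 : (0 : ℝ) ≤ I.card := Nat.cast_nonneg _
  have hm0 : (0 : ℝ) ≤ m := Nat.cast_nonneg _
  obtain ⟨σ', ψ, g1, g2, -, g4, g5, -, g7, -, g9⟩ := greedy (KA := Unit) (KB := Unit) E (full n R)
    (Y0s R C) ∅ (DY2 R C \ Y0s R C) σ ψ0 hA.ok (disjoint_empty_right _) disjoint_sdiff
    (fun _ => 0) (fun _ => 0) (fun p hp => absurd hp (notMem_empty p))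
    (fun _ _ p hp => absurd hp (notMem_empty p)) nb1 3 mem_nb1_self nb1_symm card_nb1_le
    (fun _ => univ) (fun _ => Bi) univ Bi (fun p hp => absurd hp (notMem_empty p))
    (fun _ _ _ _ _ => subset_univ _) (fun _ _ => Subset.rfl)
    (fun _ _ p hp => absurd hp (notMem_empty p))
    (fun _ p => (((DY2 R C).filter fun q => adj E p q).card : ℝ)) (fun _ => 2 * I.card / 10 ^ 6)
    (fun _ => 0) (fun _ => 0) ()
    (fun _ q => (dY (E q.1) q.2 : ℝ)) (fun _ => m / 32) (fun _ => 2) (fun _ => I.card / 10 ^ 4) ()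
    (fun _ _ => Nat.cast_nonneg _) (fun _ => by linarith only [Nat.cast_nonneg (α := ℝ) I.card, Nat.cast_nonneg (α := ℝ) n, Nat.cast_nonneg (α := ℝ) m]) (fun _ => le_rfl)
    (fun _ _ => Nat.cast_nonneg _) (fun _ => by linarith only [Nat.cast_nonneg (α := ℝ) I.card, Nat.cast_nonneg (α := ℝ) n, Nat.cast_nonneg (α := ℝ) m]) (fun _ => by linarith only [Nat.cast_nonneg (α := ℝ) I.card, Nat.cast_nonneg (α := ℝ) n, Nat.cast_nonneg (α := ℝ) m])
    (fun p _ => Nat.cast_le.2 (card_le_card (filter_subset_filter _ hact)))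
    (fun q _ => Nat.cast_le.2 (card_adjY_le _ q))
    (fun _ => le_rfl) (fun _ p hp => absurd hp (notMem_empty p))
    (fun _ => by norm_num) (fun _ q hq => by rw [hd2 q hq]; norm_num)
    (fun _ a _ => by
      have h1 : (10 : ℝ) ^ 6 * ∑ p ∈ fib (full n R) σ a,
          (((DY2 R C).filter fun q => adj E p q).card : ℝ) ≤ 2 * I.card := by
        exact_mod_cast regB_load h C hC hj hA a
      rw [add_zero, le_div_iff₀ (by positivity)]
      linarith)
    (fun _ r _ => by
      have h1 : (10 : ℝ) ^ 8 * ∑ q ∈ fib (Y0s R C) ψ0 r, (dY (E q.1) q.2 : ℝ) ≤ 2 * n := by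
        exact_mod_cast hA.rowl r
      linarith)
    (fun hne => absurd hne not_nonempty_empty)
    (fun _ _ => by
      have h1 : ∑ q ∈ act (Y0s R C) (DY2 R C \ Y0s R C) ψ0 Bi, (dY (E q.1) q.2 : ℝ) ≤
          ∑ q ∈ Y0s R C ∪ DY2 R C \ Y0s R C, (dY (E q.1) q.2 : ℝ) :=
        sum_le_sum_of_subset_of_nonneg (hun.symm ▸ hact) fun _ _ _ => Nat.cast_nonneg _
      have h2 : ∑ q ∈ Y0s R C, (dY (E q.1) q.2 : ℝ) ≤ R.card * (n / 10 ^ 13) := by
        rw [Y0s, sum_its, ← nsmul_eq_mul]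
        refine sum_le_card_nsmul _ _ _ fun i hi => ?_
        have := (hC i hi).sY
        push_cast at this
        exact this
      have h3 : ((DY2 R C).card : ℝ) ≤ R.card * (n / 10 ^ 6 + n / 10 ^ 13 + 1) := by
        rw [DY2, card_its, Nat.cast_sum, ← nsmul_eq_mul]
        exact sum_le_card_nsmul _ _ _ fun i hi => regB_out (hC i hi) (hN i hi)
      have h4 : ∑ q ∈ DY2 R C \ Y0s R C, (dY (E q.1) q.2 : ℝ) ≤ (DY2 R C).card * 2 := by
        refine (sum_le_card_nsmul _ _ 2 fun q hq => by rw [hd2 q hq]; norm_num).trans ?_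
        rw [nsmul_eq_mul]
        exact mul_le_mul_of_nonneg_right (Nat.cast_le.2 (card_le_card sdiff_subset)) (by norm_num)
      rw [sum_union disjoint_sdiff] at h1
      have h5 : (R.card : ℝ) * (n / 10 ^ 13 + 2 * (n / 10 ^ 6 + n / 10 ^ 13 + 1)) ≤
          I.card * (m / 320000) :=
        mul_le_mul hRI (by linarith) (by positivity) hk0
      linarith)
    (fun p hp => absurd hp (notMem_empty p))
    (fun q hq => by
      have h1 : (((act (Y0s R C) (DY2 R C \ Y0s R C) ψ0 Bi).filter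
          fun q' => q'.1 = q.1).card : ℝ) ≤ n := Nat.cast_le.2 (card_owner_le _ _)
      have h2 : (((full n R).filter fun p => adj E p q).card : ℝ) ≤ 2 := by
        exact_mod_cast (card_adjY_le _ q).trans (hd2 q hq).le
      have h3 : ((((full n R).filter fun p => adj E p q).card : ℝ) + 1) *
          (2 * I.card / 10 ^ 6 + 0) ≤ 3 * (2 * I.card / 10 ^ 6 + 0) :=
        mul_le_mul_of_nonneg_right (by linarith) (by positivity)
      have h4 : (∑ _κ : Unit, if (0 : ℝ) < dY (E q.1) q.2 then (I.card : ℝ) / 10 ^ 4 else 0) ≤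
          (I.card : ℝ) / 10 ^ 4 := by
        rw [Fintype.sum_unique]
        split_ifs
        · exact le_rfl
        · linarith only [Nat.cast_nonneg (α := ℝ) I.card, Nat.cast_nonneg (α := ℝ) n, Nat.cast_nonneg (α := ℝ) m]
      push_cast
      linarith)
  rw [union_empty, hun] at g5 g7
  rw [hun] at g9
  have hrow : ∀ q ∈ DY2 R C, ψ q ∈ Bi := fun q hq => by
    by_cases a : q ∈ Y0s R C
    · rw [g2 q a]
      exact hA.rows q a
    · exact g4 q (mem_sdiff.2 ⟨hq, a⟩)
  have hm7 : 64 ≤ m := by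
    have := h.hm
    have := h.hn
    omega
  refine ⟨ψ, g5.congr (fun p hp => (g1 p hp).symm) fun _ _ => rfl, hrow, fun r => ⟨?_, ?_⟩⟩
  · have h1 : (holes E (full n R) (DY2 R C) σ ψ r).card ≤ rowL E (DY2 R C) ψ r :=
      card_occ_row_le' univ r
    by_cases hr : r ∈ Bi
    · have h2 := g9 () r hr
      have h3 : ((rowL E (DY2 R C) ψ r : ℕ) : ℝ) ≤ m / 32 + 2 := by
        unfold rowL
        push_cast
        exact h2
      have h4 : (32 * rowL E (DY2 R C) ψ r : ℝ) ≤ m + 64 := by linarith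
      have h5 : 32 * rowL E (DY2 R C) ψ r ≤ m + 64 := by exact_mod_cast h4
      omega
    · have h2 : rowL E (DY2 R C) ψ r = 0 :=
        sum_eq_zero fun q hq => absurd ((mem_fib.1 hq).2 ▸ hrow q (mem_fib.1 hq).1) hr
      omega
  · have hz : ∀ j : ℕ, 0 < j → j < m → (j : ZMod m) ≠ 0 := fun j h1 h2 e =>
      absurd (Nat.le_of_dvd h1 ((ZMod.natCast_eq_zero_iff j m).1 e)) (by omega)
    have hz1 : (1 : ZMod m) ≠ 0 := by simpa using hz 1 (by omega) (by omega)
    have hz2 : (2 : ZMod m) ≠ 0 := by simpa using hz 2 (by omega) (by omega)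
    have key : ∀ p ∈ full n R, ∀ q ∈ DY2 R C, ∀ p' ∈ full n R, ∀ q' ∈ DY2 R C, adj E p q →
        adj E p' q' → ψ q = ψ q' → σ p' = σ p + 1 → q = q' ∧ q ∉ Y0s R C := by
      intro p hp q hq p' hp' q' hq' a1 a2 a3 a4
      have a5 : p ≠ p' := fun e => hz1 (by rw [e] at a4; simpa using a4)
      have a6 : σ p' ∈ nb1 (σ p) := by rw [a4]; simp [nb1]
      have a7 : ¬ (q ∈ Y0s R C ∧ q' ∈ Y0s R C) := fun ⟨b1, b2⟩ =>
        a5 (hA.sep p hp q b1 p' hp' q' b2 a1 a2 (by rw [← g2 q b1, ← g2 q' b2, a3]) a6)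
      have a8 := (g7 p hp q hq p' hp' q' hq' a1 a2 a3 (by rwa [g1 p hp, g1 p' hp']) a5).2.2
      have a9 := a8.resolve_right a7
      exact ⟨a9, fun b => a7 ⟨b, a9 ▸ b⟩⟩
    intro a h0 h1 h2
    obtain ⟨p0, hp0, q0, hq0, a0, e0, f0⟩ := mem_holes.1 h0
    obtain ⟨p1, hp1, q1, hq1, a1, e1, f1⟩ := mem_holes.1 h1
    obtain ⟨p2, hp2, q2, hq2, a2, e2, f2⟩ := mem_holes.1 h2
    obtain ⟨rfl, k1⟩ := key p0 hp0 q0 hq0 p1 hp1 q1 hq1 a0 a1 (f0.trans f1.symm) (by rw [e0, e1])
    obtain ⟨rfl, -⟩ := key p1 hp1 q0 hq1 p2 hp2 q2 hq2 a1 a2 (f1.trans f2.symm)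
      (by rw [e1, e2]; ring)
    have h3 : ((full n R).filter fun p => adj E p q0).card ≤ 2 :=
      (card_adjY_le _ q0).trans (hd2 q0 (mem_sdiff.2 ⟨hq0, k1⟩)).le
    have h4 : 2 < ((full n R).filter fun p => adj E p q0).card := by
      refine two_lt_card_iff.2 ⟨p0, p1, p2, mem_filter.2 ⟨hp0, a0⟩, mem_filter.2 ⟨hp1, a1⟩,
        mem_filter.2 ⟨hp2, a2⟩, fun e => hz1 ?_, fun e => hz2 ?_, fun e => hz1 ?_⟩
      · rw [e, e1] at e0
        simpa using e0
      · rw [e, e2] at e0
        simpa using e0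
      · rw [e, e2] at e1
        linear_combination e1
    omega

end Pool.Agent.MP_4c107d_co.H78

end

section

/-!
All column vertices of the regular trees.
-/

set_option autoImplicit false
set_option linter.unusedSectionVars false

namespace Pool.Agent.MP_4c107d_co.H78

open Finset

variable {ι : Type} [DecidableEq ι] {n m : ℕ} [NeZero m] {E : ι → Gr n} {I R : Finset ι}
  {s : ι → ZMod m} {u : ℕ}

/-- the number of chain vertices in a column -/
theorem regA_chain (h : Two E I R m s u) (a : ZMod m) :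
    NC n * u ≤ ∑ i ∈ R, ((range (NC n)).filter fun t => s i + (gp t : ZMod m) = a).card ∧
      ∑ i ∈ R, ((range (NC n)).filter fun t => s i + (gp t : ZMod m) = a).card ≤ NC n * (u + 1) := by
  have e : ∑ i ∈ R, ((range (NC n)).filter fun t => s i + (gp t : ZMod m) = a).card =
      ∑ t ∈ range (NC n), (fib R s (a - gp t)).card := by
    simp only [fib, card_filter]
    rw [sum_comm]
    refine sum_congr rfl fun t _ => sum_congr rfl fun i _ => ?_
    simp only [eq_sub_iff_add_eq]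
  rw [e]
  constructor
  · simpa using card_nsmul_le_sum (range (NC n)) _ u fun t _ => h.lo (a - gp t)
  · simpa using sum_le_card_nsmul (range (NC n)) _ (u + 1) fun t _ => h.hi (a - gp t)

theorem regA_bij {α β : Type} [Nonempty β] (S : Finset α) (T : Finset β) (h : S.card = T.card) :
    ∃ g : α → β, Set.BijOn g S T := by
  classical
  let e := Finset.equivOfCardEq h
  refine ⟨fun a => if ha : a ∈ S then (e ⟨a, ha⟩).1 else Classical.arbitrary β, fun a ha => ?_,
    fun a ha a' ha' he => ?_, fun b hb => ?_⟩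
  · have ha : a ∈ S := ha
    simp only [dif_pos ha]
    exact (e ⟨a, ha⟩).2
  · have ha : a ∈ S := ha
    have ha' : a' ∈ S := ha'
    simp only [dif_pos ha, dif_pos ha'] at he
    exact congrArg Subtype.val (e.injective (Subtype.ext he))
  · refine ⟨(e.symm ⟨b, hb⟩).1, (e.symm ⟨b, hb⟩).2, ?_⟩
    simp only [dif_pos (e.symm ⟨b, hb⟩).2]
    simp

theorem regA_val (a : ZMod m) (c : ℕ) (h0 : 0 < c) (hc : c < m) :
    (a - (c : ZMod m) - a).val + c = m := by
  have e : a - (c : ZMod m) - a = -(c : ZMod m) := by ring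
  have hv : (c : ZMod m).val = c := ZMod.val_cast_of_lt hc
  have h1 : (c : ZMod m) ≠ 0 := fun h => by rw [h, ZMod.val_zero] at hv; omega
  rw [e, ZMod.neg_val, if_neg h1, hv]
  omega

theorem regA_colL {A : Type} [DecidableEq A] (F : ι → Finset (Fin n)) (σ : It ι n → A) (a : A) :
    colL E (its R F) σ a = ∑ i ∈ R, ∑ x ∈ F i, if σ (i, x) = a then dX (E i) x else 0 := by
  rw [colL, fib, sum_filter, sum_its]

theorem regA_R (h : Two E I R m s u) : m * u ≤ R.card ∧ R.card ≤ m * (u + 1) := by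
  have e : R.card = ∑ a, (fib R s a).card := card_eq_sum_card_fiberwise fun _ _ => mem_univ _
  rw [e]
  constructor
  · simpa using card_nsmul_le_sum univ _ u fun a _ => h.lo a
  · simpa using sum_le_card_nsmul univ _ (u + 1) fun a _ => h.hi a

theorem regA_num {n m k r j u ld col ch : ℕ} (hm : m + 1 = 2 * n) (hn : 10 ^ 20 ≤ n)
    (hk : 10 ^ 20 * n ≤ k) (hr : j + r = k) (hj : 10 ^ 16 * j ≤ k) (h1 : m * u ≤ r)
    (h2 : r ≤ m * (u + 1)) (h3 : NC n * u ≤ ch) (h4 : ch ≤ NC n * (u + 1)) (h5 : 10 ^ 13 * ld ≤ k)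
    (h6 : 10 ^ 11 * col ≤ 2 * k) :
    10 ^ 4 ≤ u ∧ ld + 2 * ch + col ≤ k ∧ 999 * (n / 10 ^ 6 * u) ≤ 500 * (k - ld - 2 * ch - col) ∧
      500 * (k - ld - 2 * ch - col) ≤ 1001 * (n / 10 ^ 6 * u) ∧ 10 ^ 7 * (k - 2 * ch) ≤ 15 * k := by
  have f1 : 10 ^ 6 * (n / 10 ^ 6) ≤ n := Nat.mul_div_le _ _
  have f2 : n ≤ 10 ^ 6 * (n / 10 ^ 6) + 10 ^ 6 := by omega
  have f3 : NC n + n / 10 ^ 6 = n := by unfold NC; omega
  have f4 : NC n ≤ n := by omega
  generalize NC n = Nc at *
  generalize n / 10 ^ 6 = F at *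
  have e1 : m * u + u = 2 * (n * u) := by rw [← mul_assoc, ← hm]; ring
  have e2 : Nc * u + F * u = n * u := by rw [← add_mul, f3]
  have e3 : 10 ^ 6 * (F * u) ≤ n * u := by rw [← mul_assoc]; exact Nat.mul_le_mul_right u f1
  have e4 : n * u ≤ 10 ^ 6 * (F * u) + 10 ^ 6 * u := by
    rw [← mul_assoc, ← add_mul]; exact Nat.mul_le_mul_right u f2
  have e5 : 10 ^ 20 * u ≤ n * u := Nat.mul_le_mul_right u hn
  have e6 : 10 ^ 4 ≤ u := by
    by_contra hu
    have : n * u ≤ n * 10 ^ 4 := Nat.mul_le_mul_left n (by omega)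
    rw [mul_add] at h2
    omega
  rw [mul_add, mul_one] at h2 h4
  generalize n * u = A at *
  generalize m * u = A' at *
  generalize F * u = B at *
  generalize Nc * u = B' at *
  refine ⟨e6, ?_, ?_, ?_, ?_⟩ <;> omega

section One

variable {C : ChD n} {G : Gr n}

theorem regA_X0 (hT : Tr G) (hC : C.Good G (n / 10 ^ 13)) : 10 ^ 13 * C.X0.card ≤ n := by
  have h1 : C.X0.card ≤ ∑ x ∈ C.X0, dX G x := by
    simpa using card_nsmul_le_sum C.X0 _ 1 fun x _ => hT.dX_pos x
  have h2 := hC.sX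
  rw [le_div_iff₀ (by positivity)] at h2
  have h3 : (∑ x ∈ C.X0, dX G x) * 10 ^ 13 ≤ n := by exact_mod_cast h2
  omega

theorem regA_N (hn : 10 ^ 20 ≤ n) (hT : Tr G) (hC : C.Good G (n / 10 ^ 13)) : NC n ≤ C.N := by
  have := regA_X0 hT hC
  have := hC.hN
  unfold NC
  omega

theorem regA_inj {b : ℝ} (hC : C.Good G b) {Nc : ℕ} (hN : Nc ≤ C.N) :
    Set.InjOn C.e (range Nc : Finset ℕ) := fun t ht t' ht' =>
  hC.einj t ((mem_range.1 ht).trans_le hN) t' ((mem_range.1 ht').trans_le hN)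

theorem regA_not {b : ℝ} (hC : C.Good G b) {Nc : ℕ} (hN : Nc ≤ C.N) {x : Fin n}
    (hx : x ∈ C.ch Nc) : x ∉ C.X0 := by
  obtain ⟨t, ht, rfl⟩ := mem_image.1 hx
  exact hC.enot t ((mem_range.1 ht).trans_le hN)

/-- the flexible vertices -/
def regAfl (C : ChD n) : Finset (Fin n) := (univ \ C.ch (NC n)) \ C.X0

theorem regA_mem {x : Fin n} : x ∈ regAfl C ↔ x ∉ C.ch (NC n) ∧ x ∉ C.X0 := by simp [regAfl]

theorem regA_sum {b : ℝ} (hC : C.Good G b) (hN : NC n ≤ C.N) (f : Fin n → ℕ) :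
    ∑ x ∈ univ \ C.ch (NC n), f x = ∑ x ∈ regAfl C, f x + ∑ x ∈ C.X0, f x :=
  (sum_sdiff fun _ hx => mem_sdiff.2 ⟨mem_univ _, fun h => regA_not hC hN h hx⟩).symm

theorem regA_sum' (f : Fin n → ℕ) :
    ∑ x, f x = ∑ x ∈ univ \ C.ch (NC n), f x + ∑ x ∈ C.ch (NC n), f x :=
  (sum_sdiff (subset_univ _)).symm

theorem regA_card {b : ℝ} (hC : C.Good G b) (hN : NC n ≤ C.N) :
    (regAfl C).card + C.X0.card = n / 10 ^ 6 := by
  have h1 := regA_sum hC hN fun _ => 1
  have h2 := regA_sum' (C := C) fun _ => 1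
  have h3 : (C.ch (NC n)).card = NC n := by
    rw [ChD.ch, card_image_of_injOn (regA_inj hC hN), card_range]
  rw [h1] at h2
  simp only [← card_eq_sum_ones, card_univ, Fintype.card_fin, h3] at h2
  unfold NC at h2
  omega

theorem regA_deg (hm : m + 1 = 2 * n) (hT : Tr G) {b : ℝ} (hC : C.Good G b) (hN : NC n ≤ C.N) :
    2 * (regAfl C).card + ∑ x ∈ C.X0, dX G x + 2 * NC n = m := by
  have h0 := hT.sum_dX (by omega)
  have h3 : (C.ch (NC n)).card = NC n := by
    rw [ChD.ch, card_image_of_injOn (regA_inj hC hN), card_range]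
  rw [regA_sum' (C := C), regA_sum hC hN,
    sum_congr rfl fun x hx => hC.dX2 x (regA_mem.1 hx).2,
    sum_congr rfl fun x hx => hC.dX2 x (regA_not hC hN hx), sum_const, sum_const, h3] at h0
  simp only [smul_eq_mul] at h0
  omega

end One

/-- the placement of all column vertices, given the flexible columns -/
theorem regA_place (h : Two E I R m s u) (C : ι → ChD n)
    (hC : ∀ i ∈ R, (C i).Good (E i) (n / 10 ^ 13)) (σ0 : It ι n → ZMod m) (Mv : Finset ι)
    (Fc : ι → Finset (ZMod m)) (hF : ∀ i ∈ R, (Fc i).card = (regAfl (C i)).card) :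
    ∃ σ : It ι n → ZMod m,
      (∀ i ∈ R, ∀ x ∈ (C i).X0, σ (i, x) = if i ∈ Mv ∧ x = (C i).x1 then s i - 4 else σ0 (i, x)) ∧
      (∀ i ∈ R, ∀ t < NC n, σ (i, (C i).e t) = s i + (gp t : ZMod m)) ∧
      ∀ i ∈ R, Set.BijOn (fun x => σ (i, x)) (regAfl (C i)) (Fc i) := by
  have hN : ∀ i ∈ R, NC n ≤ (C i).N := fun i hi => regA_N h.hn (h.tr i (h.sub hi)) (hC i hi)
  have h1 : ∀ i, ∃ g : Fin n → ZMod m, i ∈ R → Set.BijOn g (regAfl (C i)) (Fc i) := fun i => by
    by_cases hi : i ∈ R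
    · obtain ⟨g, hg⟩ := regA_bij _ _ (hF i hi).symm
      exact ⟨g, fun _ => hg⟩
    · exact ⟨fun _ => 0, fun h => absurd h hi⟩
  choose g hg using h1
  have h2 : ∀ i x, ∃ t, x ∈ (C i).ch (NC n) → t ∈ range (NC n) ∧ (C i).e t = x := fun i x => by
    by_cases hx : x ∈ (C i).ch (NC n)
    · obtain ⟨t, ht⟩ := mem_image.1 hx
      exact ⟨t, fun _ => ht⟩
    · exact ⟨0, fun h => absurd h hx⟩
  choose τ hτ using h2
  refine ⟨fun p => if p.2 ∈ (C p.1).X0 then
      (if p.1 ∈ Mv ∧ p.2 = (C p.1).x1 then s p.1 - 4 else σ0 p)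
    else if p.2 ∈ (C p.1).ch (NC n) then s p.1 + (gp (τ p.1 p.2) : ZMod m) else g p.1 p.2,
    fun i _ x hx => if_pos hx, fun i hi t ht => ?_, fun i hi => (hg i hi).congr fun x hx => ?_⟩
  · have hx : (C i).e t ∈ (C i).ch (NC n) := mem_image_of_mem _ (mem_range.2 ht)
    have e : τ i ((C i).e t) = t :=
      regA_inj (hC i hi) (hN i hi) (hτ i _ hx).1 (mem_range.2 ht) (hτ i _ hx).2
    simp only [if_neg (regA_not (hC i hi) (hN i hi) hx), if_pos hx, e]
  · have hx := regA_mem.1 hx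
    simp only [if_neg hx.1, if_neg hx.2]

theorem regA (h : Two E I R m s u) (C : ι → ChD n)
    (hC : ∀ i ∈ R, (C i).Good (E i) (n / 10 ^ 13)) (Bi : Finset ι) (hB : I.card ≤ 1001 * Bi.card)
    (ld0 : ZMod m → ℕ) (hl1 : ∀ a, 10 ^ 13 * ld0 a ≤ I.card)
    (hl2 : ∑ a, ld0 a = (I \ R).card * m) :
    ∃ (σ : It ι n → ZMod m) (ψ : It ι n → ι), RegA E I R C s Bi ld0 σ ψ := by
  obtain ⟨σ0, ψ, ok, hrx, hco, rows, sep, hcol, rowl⟩ := coreII h C hC Bi hB
  have hm := h.hm
  have hn := h.hn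
  have hT : ∀ i ∈ R, Tr (E i) := fun i hi => h.tr i (h.sub hi)
  have hN : ∀ i ∈ R, NC n ≤ (C i).N := fun i hi => regA_N h.hn (hT i hi) (hC i hi)
  have hk : (I \ R).card + R.card = I.card := card_sdiff_add_card_eq_card h.sub
  obtain ⟨ch, hch⟩ : ∃ ch : ZMod m → ℕ, ∀ a,
    ∑ i ∈ R, ((range (NC n)).filter fun t => s i + (gp t : ZMod m) = a).card = ch a :=
    ⟨_, fun _ => rfl⟩
  have num := fun a => regA_num hm hn h.hk hk h.junk (regA_R h).1 (regA_R h).2
    (hch a ▸ (regA_chain h a).1) (hch a ▸ (regA_chain h a).2) (hl1 a) (hcol a)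
  have s1 : ∑ a, ch a = R.card * NC n := by
    simp only [← hch]
    rw [sum_comm, card_eq_sum_ones R, sum_mul]
    refine sum_congr rfl fun i _ => ?_
    rw [one_mul, ← card_eq_sum_card_fiberwise fun _ _ => mem_univ _, card_range]
  have s2 : ∑ a, colL E (X0s R C) σ0 a = ∑ i ∈ R, ∑ x ∈ (C i).X0, dX (E i) x := by
    unfold colL
    rw [sum_fib _ _ _ fun _ _ => mem_univ _, X0s, sum_its]
  have s3 : 2 * ∑ i ∈ R, (regAfl (C i)).card + ∑ i ∈ R, ∑ x ∈ (C i).X0, dX (E i) x +
      2 * (R.card * NC n) = R.card * m := by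
    rw [mul_sum, ← sum_add_distrib, mul_left_comm, ← smul_eq_mul R.card, ← smul_eq_mul R.card,
      ← sum_const, ← sum_const, ← sum_add_distrib]
    exact sum_congr rfl fun i hi => regA_deg hm (hT i hi) (hC i hi) (hN i hi)
  have s4 : ∑ a, (I.card - ld0 a - 2 * ch a - colL E (X0s R C) σ0 a) + (∑ a, ld0 a +
      2 * ∑ a, ch a + ∑ a, colL E (X0s R C) σ0 a) = (I \ R).card * m + R.card * m := by
    rw [mul_sum, ← sum_add_distrib, ← sum_add_distrib, ← sum_add_distrib, ← add_mul, hk,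
      sum_congr rfl (g := fun _ => I.card) fun a _ => by have := (num a).2.1; omega]
    simp [mul_comm]
  obtain ⟨Mv, hMv, Fc, hFc, hbal⟩ := flexII R s u h.lo h.hi (fun i => (regAfl (C i)).card)
    (fun a => I.card - ld0 a - 2 * ch a - colL E (X0s R C) σ0 a) (n / 10 ^ 6 : ℕ) (by omega)
    (num 0).1 (by exact_mod_cast (by omega : 10 ^ 4 ≤ n / 10 ^ 6))
    (by exact_mod_cast (by omega : 100 * (n / 10 ^ 6) ≤ m))
    (fun i hi => by
      have h1 := regA_card (hC i hi) (hN i hi)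
      have h2 := regA_X0 (hT i hi) (hC i hi)
      have h3 : 1000 * (C i).X0.card ≤ n / 10 ^ 6 := by omega
      generalize n / 10 ^ 6 = F at h1 h3 ⊢
      have h1' : ((regAfl (C i)).card : ℝ) + (C i).X0.card = F := by exact_mod_cast h1
      have h3' : 1000 * ((C i).X0.card : ℝ) ≤ F := by exact_mod_cast h3
      have h4 : (0 : ℝ) ≤ (C i).X0.card := Nat.cast_nonneg _
      rw [abs_le]
      constructor <;> linarith)
    (fun a => by
      obtain ⟨-, -, h1, h2, -⟩ := num a
      generalize I.card - ld0 a - 2 * ch a - colL E (X0s R C) σ0 a = D at h1 h2 ⊢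
      generalize n / 10 ^ 6 = F at h1 h2 ⊢
      have h1' : 999 * ((F : ℝ) * u) ≤ 500 * D := by exact_mod_cast h1
      have h2' : 500 * (D : ℝ) ≤ 1001 * (F * u) := by exact_mod_cast h2
      rw [abs_le]
      constructor <;> linarith)
    (by omega)
  obtain ⟨σ, σ1, σ2, σ3⟩ := regA_place h C hC σ0 Mv Fc fun i hi => (hFc i hi).1
  have c1 : ∀ a : ZMod m, (a - 1 - a).val + 1 = m := fun a => by
    simpa using regA_val a 1 (by omega) (by omega)
  have c4 : ∀ a : ZMod m, (a - 4 - a).val + 4 = m := fun a => by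
    simpa using regA_val a 4 (by omega) (by omega)
  have c5 : ∀ a : ZMod m, (a - 5 - a).val + 5 = m := fun a => by
    simpa using regA_val a 5 (by omega) (by omega)
  have root : ∀ i ∈ R, σ (i, (C i).T.root) = s i - 1 := fun i hi => by
    rw [σ1 i hi _ (hC i hi).rmem, if_neg fun h => (hC i hi).x1r h.2.symm, (hrx i hi).1]
  have oX : ∀ i ∈ R, ∀ x ∈ (C i).X0, 4 * m ≤ 5 * (σ (i, x) - s i).val ∧
      (x ≠ (C i).x1 → (σ (i, x) - s i).val + 4 ≠ m) := by
    intro i hi x hx
    by_cases h1 : x = (C i).T.root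
    · rw [h1, root i hi]
      have := c1 (s i)
      omega
    · by_cases h2 : x = (C i).x1
      · refine ⟨?_, fun h => absurd h2 h⟩
        rw [σ1 i hi x hx]
        split_ifs
        · have := c4 (s i)
          omega
        · rw [h2, (hrx i hi).2]
          have := c5 (s i)
          omega
      · rw [σ1 i hi x hx, if_neg fun h => h2 h.2]
        have := hco (i, x) (mem_its.2 ⟨hi, hx⟩) h1 h2
        dsimp only at this
        omega
  have oC : ∀ i ∈ R, ∀ t < NC n, (σ (i, (C i).e t) - s i).val = gp t ∧ 5 * gp t < 3 * m := by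
    intro i hi t ht
    have h1 := gp_le t
    have h2 : NC n ≤ n := Nat.sub_le _ _
    rw [σ2 i hi t ht, add_sub_cancel_left, ZMod.val_cast_of_lt (by omega)]
    omega
  have oF : ∀ i ∈ R, ∀ x ∈ regAfl (C i),
      3 * m ≤ 5 * (σ (i, x) - s i).val ∧ 25 * (σ (i, x) - s i).val ≤ 19 * m :=
    fun i hi x hx => (hFc i hi).2 _ ((σ3 i hi).mapsTo hx)
  have cls : ∀ i (x : Fin n), x ∈ (C i).X0 ∨ (∃ t < NC n, (C i).e t = x) ∨ x ∈ regAfl (C i) := by
    intro i x
    by_cases h1 : x ∈ (C i).X0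
    · exact Or.inl h1
    · by_cases h2 : x ∈ (C i).ch (NC n)
      · obtain ⟨t, ht, e⟩ := mem_image.1 h2
        exact Or.inr (Or.inl ⟨t, mem_range.1 ht, e⟩)
      · exact Or.inr (Or.inr (regA_mem.2 ⟨h2, h1⟩))
  have inj : ∀ i ∈ R, ∀ x x', σ (i, x) = σ (i, x') → x = x' := by
    intro i hi x x' e
    have ev : (σ (i, x) - s i).val = (σ (i, x') - s i).val := by rw [e]
    rcases cls i x with a | ⟨t, ht, rfl⟩ | a <;> rcases cls i x' with b | ⟨t', ht', rfl⟩ | b
    · by_contra hne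
      have m4 : ∀ y ∈ (C i).X0, (i ∈ Mv ∧ y = (C i).x1) → (σ (i, y) - s i).val + 4 = m :=
        fun y hy hm => by rw [σ1 i hi y hy, if_pos hm]; exact c4 _
      by_cases p : i ∈ Mv ∧ x = (C i).x1
      · exact (oX i hi x' b).2 (fun h => hne (p.2.trans h.symm)) (ev ▸ m4 x a p)
      · by_cases p' : i ∈ Mv ∧ x' = (C i).x1
        · exact (oX i hi x a).2 (fun h => hne (h.trans p'.2.symm)) (ev ▸ m4 x' b p')
        · rw [σ1 i hi x a, σ1 i hi x' b, if_neg p, if_neg p'] at e
          exact hne (congrArg Prod.snd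
            (ok.injX (i, x) (mem_its.2 ⟨hi, a⟩) (i, x') (mem_its.2 ⟨hi, b⟩) rfl e))
    · have := oX i hi x a; have := oC i hi t' ht'; omega
    · have := oX i hi x a; have := oF i hi x' b; omega
    · have := oX i hi x' b; have := oC i hi t ht; omega
    · rw [(oC i hi t ht).1, (oC i hi t' ht').1] at ev
      rw [gp_strictMono.injective ev]
    · have := oF i hi x' b; have := oC i hi t ht; omega
    · have := oX i hi x' b; have := oF i hi x a; omega
    · have := oF i hi x a; have := oC i hi t' ht'; omega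
    · exact (σ3 i hi).injOn a b e
  have shift : ∀ p ∈ X0s R C, σ p = σ0 p ∨ σ p = σ0 p + 1 := by
    rintro ⟨i, x⟩ hp
    obtain ⟨hi, hx⟩ := mem_its.1 hp
    rw [σ1 i hi x hx]
    split_ifs with p
    · right
      rw [p.2, (hrx i hi).2]
      ring
    · exact Or.inl rfl
  have nb : ∀ p q, q ∈ Y0s R C → adj E p q → p ∈ X0s R C := by
    rintro ⟨i, x⟩ ⟨j, y⟩ hq ⟨e, ha⟩
    dsimp only at e ha
    subst e
    obtain ⟨hi, hy⟩ := mem_its.1 hq
    exact mem_its.2 ⟨hi, (hC i hi).nbY y hy (mem_nY.2 ha)⟩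
  have sep' : Sep E (full n R) (Y0s R C) σ ψ nb1 := by
    intro p _ q hq p' _ q' hq' a a' e hnb
    refine sep p (nb p q hq a) q hq p' (nb p' q' hq' a') q' hq' a a' e ?_
    simp only [nb1, nb2, mem_insert, mem_singleton] at hnb ⊢
    rcases shift p (nb p q hq a) with h1 | h1 <;> rcases shift p' (nb p' q' hq' a') with h2 | h2 <;>
      rw [h1, h2] at hnb <;> rcases hnb with h3 | h3 | h3
    · exact Or.inr (Or.inl h3)
    · exact Or.inr (Or.inr (Or.inl h3))
    · exact Or.inr (Or.inr (Or.inr (Or.inl h3)))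
    · exact Or.inl (by linear_combination h3)
    · exact Or.inr (Or.inl (by linear_combination h3))
    · exact Or.inr (Or.inr (Or.inl (by linear_combination h3)))
    · exact Or.inr (Or.inr (Or.inl (by linear_combination h3)))
    · exact Or.inr (Or.inr (Or.inr (Or.inl h3)))
    · exact Or.inr (Or.inr (Or.inr (Or.inr (by linear_combination h3))))
    · exact Or.inr (Or.inl (by linear_combination h3))
    · exact Or.inr (Or.inr (Or.inl (by linear_combination h3)))
    · exact Or.inr (Or.inr (Or.inr (Or.inl (by linear_combination h3))))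
  have lC : ∀ a, ∑ i ∈ R, ∑ x ∈ (C i).ch (NC n), (if σ (i, x) = a then dX (E i) x else 0) =
      2 * ch a := by
    intro a
    rw [← hch, mul_sum]
    refine sum_congr rfl fun i hi => ?_
    rw [ChD.ch, sum_image (regA_inj (hC i hi) (hN i hi)), card_filter, mul_sum]
    refine sum_congr rfl fun t ht => ?_
    rw [σ2 i hi t (mem_range.1 ht),
      (hC i hi).dX2 _ ((hC i hi).enot t ((mem_range.1 ht).trans_le (hN i hi)))]
    split_ifs <;> rfl
  have lF : ∀ a, ∑ i ∈ R, ∑ x ∈ regAfl (C i), (if σ (i, x) = a then dX (E i) x else 0) =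
      2 * (R.filter fun i => a ∈ Fc i).card := by
    intro a
    rw [card_filter, mul_sum]
    refine sum_congr rfl fun i hi => ?_
    rw [sum_congr rfl (g := fun x => if σ (i, x) = a then 2 else 0) fun x hx => by
        rw [(hC i hi).dX2 x (regA_mem.1 hx).2],
      sum_nbij (g := fun b => if b = a then 2 else 0) (fun x => σ (i, x)) (σ3 i hi).mapsTo
        (σ3 i hi).injOn (σ3 i hi).surjOn fun _ _ => rfl, sum_ite_eq']
    split_ifs <;> rfl
  have lX : ∀ a, ∑ i ∈ R, ∑ x ∈ (C i).X0, (if σ (i, x) = a then dX (E i) x else 0) +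
      (Mv.filter fun i => s i - 5 = a).card =
      colL E (X0s R C) σ0 a + (Mv.filter fun i => s i - 4 = a).card := by
    intro a
    have e : ∀ c : ZMod m, (Mv.filter fun i => s i - c = a).card =
        ∑ i ∈ R, if i ∈ Mv ∧ s i - c = a then 1 else 0 := fun c => by
      rw [← card_filter]
      congr 1
      ext i
      simp only [mem_filter]
      exact ⟨fun h => ⟨hMv h.1, h⟩, fun h => h.2⟩
    rw [X0s, regA_colL, e, e, ← sum_add_distrib, ← sum_add_distrib]
    refine sum_congr rfl fun i hi => ?_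
    have d1 : dX (E i) (C i).x1 = 1 := by rw [dX, (hC i hi).h1, card_singleton]
    rw [← add_sum_erase _ _ (hC i hi).xmem, ← add_sum_erase _ _ (hC i hi).xmem,
      sum_congr rfl (g := fun x => if σ0 (i, x) = a then dX (E i) x else 0) fun x hx => by
        rw [σ1 i hi x (mem_of_mem_erase hx),
          if_neg (c := i ∈ Mv ∧ x = (C i).x1) fun h => ne_of_mem_erase hx h.2],
      σ1 i hi _ (hC i hi).xmem, (hrx i hi).2, d1]
    by_cases p : i ∈ Mv
    · simp only [p, true_and, if_true]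
      omega
    · simp only [p, false_and, if_false]
  have tot : ∀ a, colL E (full n R) σ a =
      colL E (its R fun i => univ \ (C i).ch (NC n)) σ a + 2 * ch a := by
    intro a
    rw [regA_colL, ← lC, ← sum_add_distrib, colL, fib, sum_filter, sum_full]
    exact sum_congr rfl fun i _ => regA_sum' _
  have rest : ∀ a, colL E (its R fun i => univ \ (C i).ch (NC n)) σ a + 2 * ch a + ld0 a =
      I.card := by
    intro a
    have h1 := lX a
    have h2 := hbal a
    have h3 := (num a).2.1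
    rw [regA_colL, sum_congr rfl fun i hi => regA_sum (hC i hi) (hN i hi) _, sum_add_distrib, lF]
    omega
  refine ⟨σ, ψ, ⟨?_, ok.injY, ?_⟩, σ2, root, rows, sep', rowl, fun a => by rw [tot, rest],
    fun a => ?_⟩
  · rintro ⟨i, x⟩ hp ⟨j, x'⟩ _ e e'
    dsimp only at e
    subst e
    rw [inj i (mem_full.1 hp) x x' e']
  · intro p hp q hq p' hp' q' hq' a a' e e'
    exact sep' p hp q hq p' hp' q' hq' a a' e' (by simp [nb1, e])
  · have h1 := rest a
    have h2 := (num a).2.2.2.2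
    omega

end Pool.Agent.MP_4c107d_co.H78

end

end
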