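import Pool.Agent.MP_4c107d_co.Mg.H78_B
import Pool.Agent.MP_4c107d_co.Mg.H78_F

-- part MP_4c107d_co.H78.E
section

section

/-!
Structure of trees with few leaves.
-/

set_option autoImplicit false
set_option linter.unusedSectionVars false

namespace Pool.Agent.MP_4c107d_co.H78

open Finset

variable {n m : ℕ}

/-- Proof idea. Sort `S` lexicographically by `(hd, j)` (`Finset.orderIsoOfFin` / `orderEmbOfFin` for the image of `S` in `ℕ ×ₗ ℕ`, or `Finset.sort`). -/
theorem chain_enum {α : Type} [DecidableEq α] [Nonempty α] (S : Finset α) (hd j : α → ℕ)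
    (hinj : ∀ x ∈ S, ∀ x' ∈ S, hd x = hd x' → j x = j x' → x = x') :
    ∃ e : ℕ → α, (∀ t < S.card, e t ∈ S) ∧ (∀ t < S.card, ∀ t' < S.card, e t = e t' → t = t') ∧
      (∀ x ∈ S, ∃ t < S.card, e t = x) ∧
      ∀ t < S.card, ∀ x ∈ S, hd x = hd (e t) → j x = j (e t) + 1 → t + 1 < S.card ∧ e (t + 1) = x := by
  classical
  let k : α → ℕ ×ₗ ℕ := fun x => toLex (hd x, j x)
  have hk : ∀ x ∈ S, ∀ x' ∈ S, k x = k x' → x = x' := fun x hx x' hx' h => by
    have h' : (hd x, j x) = (hd x', j x') := toLex.injective h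
    exact hinj x hx x' hx' (congrArg Prod.fst h') (congrArg Prod.snd h')
  have hc : (S.image k).card = S.card := card_image_of_injOn fun x hx x' hx' h => hk x hx x' hx' h
  let f := (S.image k).orderEmbOfFin hc
  have hf : ∀ t : ℕ, ∃ x, ∀ ht : t < S.card, x ∈ S ∧ k x = f ⟨t, ht⟩ := by
    intro t
    by_cases ht : t < S.card
    · obtain ⟨x, hx, e⟩ := mem_image.1 (orderEmbOfFin_mem (S.image k) hc ⟨t, ht⟩)
      exact ⟨x, fun _ => ⟨hx, e⟩⟩
    · exact ⟨Classical.arbitrary α, fun h => absurd h ht⟩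
  choose e he using hf
  have hsur : ∀ x ∈ S, ∃ t, ∃ ht : t < S.card, f ⟨t, ht⟩ = k x := by
    intro x hx
    have : k x ∈ Set.range f := by
      rw [range_orderEmbOfFin]
      exact mem_coe.2 (mem_image_of_mem k hx)
    obtain ⟨t, ht⟩ := this
    exact ⟨t.1, t.2, ht⟩
  refine ⟨e, fun t ht => (he t ht).1, fun t ht t' ht' h => ?_, fun x hx => ?_,
    fun t ht x hx h1 h2 => ?_⟩
  · have : f ⟨t, ht⟩ = f ⟨t', ht'⟩ := by rw [← (he t ht).2, ← (he t' ht').2, h]
    exact congrArg Fin.val (f.injective this)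
  · obtain ⟨t, ht, h⟩ := hsur x hx
    exact ⟨t, ht, hk _ (he t ht).1 _ hx ((he t ht).2.trans h)⟩
  · obtain ⟨t', ht', h⟩ := hsur x hx
    have h3 : f ⟨t, ht⟩ < f ⟨t', ht'⟩ := by
      rw [h, ← (he t ht).2]
      exact Prod.Lex.toLex_lt_toLex.2 (Or.inr ⟨h1.symm, by simp only; omega⟩)
    have h4 : t < t' := f.lt_iff_lt.1 h3
    have h5 : t + 1 < S.card := by omega
    refine ⟨h5, ?_⟩
    have h6 : f ⟨t + 1, h5⟩ ≤ f ⟨t', ht'⟩ := f.le_iff_le.2 (show t + 1 ≤ t' from h4)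
    have h7 : f ⟨t, ht⟩ < f ⟨t + 1, h5⟩ := f.lt_iff_lt.2 (Nat.lt_succ_self t)
    rw [h, ← (he _ h5).2] at h6
    rw [← (he _ h5).2, ← (he t ht).2] at h7
    have h8 := Prod.Lex.toLex_le_toLex.1 h6
    have h9 := Prod.Lex.toLex_lt_toLex.1 h7
    simp only at h8 h9
    exact hinj _ (he _ h5).1 _ hx (by omega) (by omega)

open Classical in
/-- the head of the chain through `x` and the position of `x` in it -/
noncomputable def chain_hj {α : Type} (S : Finset α) (prev : α → α) (rk : α → ℕ) (x : α) : α × ℕ :=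
  if _h : prev x ∈ S ∧ rk (prev x) < rk x then
    ((chain_hj S prev rk (prev x)).1, (chain_hj S prev rk (prev x)).2 + 1)
  else (x, 0)
termination_by rk x
decreasing_by all_goals exact _h.2

theorem chain_heads {α : Type} (S : Finset α) (prev : α → α) (rk : α → ℕ)
    (hrk : ∀ x ∈ S, rk (prev x) < rk x)
    (hinj : ∀ x ∈ S, ∀ x' ∈ S, prev x ∈ S → prev x = prev x' → x = x') :
    ∃ (hd : α → α) (j : α → ℕ), (∀ x ∈ S, prev x ∈ S → hd x = hd (prev x) ∧ j x = j (prev x) + 1) ∧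
      ∀ x ∈ S, ∀ x' ∈ S, hd x = hd x' → j x = j x' → x = x' := by
  have h1 : ∀ x ∈ S, prev x ∈ S → chain_hj S prev rk x =
      ((chain_hj S prev rk (prev x)).1, (chain_hj S prev rk (prev x)).2 + 1) := fun x hx hp => by
    rw [chain_hj, dif_pos ⟨hp, hrk x hx⟩]
  have h2 : ∀ x, prev x ∉ S → chain_hj S prev rk x = (x, 0) := fun x hp => by
    rw [chain_hj, dif_neg fun h => hp h.1]
  refine ⟨fun x => (chain_hj S prev rk x).1, fun x => (chain_hj S prev rk x).2,
    fun x hx hp => by simp only [h1 x hx hp, and_self], ?_⟩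
  have key : ∀ k, ∀ x ∈ S, ∀ x' ∈ S, (chain_hj S prev rk x).2 = k →
      chain_hj S prev rk x = chain_hj S prev rk x' → x = x' := by
    intro k
    induction k with
    | zero =>
      intro x hx x' hx' hk e
      have a : prev x ∉ S := fun hp => by rw [h1 x hx hp] at hk; simp at hk
      have b : prev x' ∉ S := fun hp => by rw [e, h1 x' hx' hp] at hk; simp at hk
      rw [h2 x a, h2 x' b] at e
      exact congrArg Prod.fst e
    | succ k ih =>
      intro x hx x' hx' hk e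
      have a : prev x ∈ S := by
        by_contra hp
        rw [h2 x hp] at hk
        simp at hk
      have b : prev x' ∈ S := by
        by_contra hp
        rw [e, h2 x' hp] at hk
        simp at hk
      rw [h1 x hx a] at hk
      rw [h1 x hx a, h1 x' hx' b, Prod.mk.injEq] at e
      exact hinj x hx x' hx' a (ih _ a _ b (Nat.succ.inj hk) (Prod.ext e.1 (Nat.succ.inj e.2)))
  exact fun x hx x' hx' e1 e2 => key _ x hx x' hx' rfl (Prod.ext e1 e2)

theorem chain_rank {E : Gr n} {T : RT n} (h : T.Good E) {x : Fin n} (hx : x ≠ T.root) :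
    T.rX (T.pY (T.pX x)) < T.rX x := (h.hY _).trans (h.hX x hx)

theorem chain_leaf {E : Gr n} {T : RT n} (h : T.Good E) (hn : 2 ≤ n) {y0 y1 : Fin n}
    (h0 : nY E y0 = {T.root}) (h1 : nX E T.root = {y1}) : False := by
  have a : (T.root, y0) ∈ E := mem_nY.1 (h0 ▸ mem_singleton_self _)
  have b : y0 = y1 := mem_singleton.1 (h1 ▸ mem_nX.2 a)
  have key : ∀ k x, T.rX x < k → x = T.root := by
    intro k
    induction k with
    | zero => intro x hx; omega
    | succ k ih =>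
      intro x hx
      by_contra hr
      have c := ih _ (show T.rX (T.pY (T.pX x)) < k by have := chain_rank h hr; omega)
      have d : (T.root, T.pX x) ∈ E := c ▸ h.pY_mem (T.pX x)
      have e : T.pX x = y0 := (mem_singleton.1 (h1 ▸ mem_nX.2 d)).trans b.symm
      exact hr (mem_singleton.1 (h0 ▸ mem_nY.2 (e ▸ h.pX_mem hr)))
  have e1 := key _ ⟨0, by omega⟩ (Nat.lt_succ_self _)
  have e2 := key _ ⟨1, by omega⟩ (Nat.lt_succ_self _)
  have := congrArg Fin.val (e1.trans e2.symm)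
  simp at this

theorem chain_sum_le (d : Fin n → ℕ) (A B : Finset (Fin n)) (h : ∀ x ∈ A, d x = 2 → x ∈ B) :
    ∑ x ∈ A, d x ≤ ∑ x ∈ univ.filter (fun x => d x ≠ 2), d x + 2 * B.card := by
  rw [← sum_filter_add_sum_filter_not A fun x => d x ≠ 2]
  refine add_le_add (sum_le_sum_of_subset (filter_subset_filter _ (subset_univ _))) ?_
  have h1 : ∑ x ∈ A.filter (fun x => ¬ d x ≠ 2), d x ≤ (A.filter fun x => ¬ d x ≠ 2).card • 2 :=
    sum_le_card_nsmul _ _ _ fun x hx => (not_not.1 (mem_filter.1 hx).2).le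
  have h2 : (A.filter fun x => ¬ d x ≠ 2).card ≤ B.card := card_le_card fun x hx =>
    h x (mem_filter.1 hx).1 (not_not.1 (mem_filter.1 hx).2)
  rw [smul_eq_mul] at h1
  omega

/-- Proof idea. `y0` a row leaf, root the tree at its neighbour; `x1` a column leaf with neighbour `y1` (`x1` is not the root and `y1 ≠ y0` because `n ≥ 2`: a leaf adjacent to
a leaf is a whole component; with the rooting: if the root is a leaf with the leaf child `y0`, then induction on the rank shows that there are no other vertices).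
`Y0 = (insert y1 {dY ≠ 2}).erase y0`, `X0 = {dX ≠ 2} ∪ {root} ∪ Y0.biUnion nY`. With `L ≤ 2 δ n` leaves, `Tr.sum_branch` gives `∑_{Y0} dY ≤ 4 L + 2`,
`∑_{X0} dX ≤ 4 L + 2 (4 L + 3)`. Every `x ∉ X0` has exactly one child `y` (degree two, not in `Y0`, not `y0`), which has exactly one child `nxt x`. With `prev x = pY (pX x)`
define by recursion on `rX` (e.g. `Nat.rec` with fuel, or `WellFounded.fix`) `hd x = if prev x ∉ X0 then hd (prev x) else x`, `j x = if prev x ∉ X0 then j (prev x) + 1 else 0` for `x ∉ X0`;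
`(hd, j)` is injective on `X0ᶜ` (induction on `j`). Take `e` from `chain_enum` (then `e (t % N)`), `yy t` the child of `e t`, `lk t` iff `nxt (e t) ∉ X0`; the broken links inject into `X0` by `nxt`. -/
theorem chain_exists {E : Gr n} (h : Tr E) {δ : ℝ} (hn : 2 ≤ n) (hδ : 1 ≤ δ * n)
    (hX : ((lvX E).card : ℝ) ≤ δ * n) (hY : ((lvY E).card : ℝ) ≤ δ * n) :
    ∃ C : ChD n, C.Good E (40 * δ * n) := by
  classical
  have hn0 : 0 < n := by omega
  obtain ⟨y0, hy0⟩ := h.exists_lvY hn0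
  obtain ⟨r, hr⟩ := card_eq_one.1 hy0
  obtain ⟨T, hT, rfl⟩ := h r
  obtain ⟨x1, hx1⟩ := h.exists_lvX hn0
  obtain ⟨y1, hy1⟩ := card_eq_one.1 hx1
  have x1r : x1 ≠ T.root := fun e => chain_leaf hT hn hr (e ▸ hy1)
  have y10 : y1 ≠ y0 := fun e => by
    have a : (x1, y1) ∈ E := mem_nX.1 (hy1 ▸ mem_singleton_self _)
    exact x1r (mem_singleton.1 (hr ▸ mem_nY.2 (e ▸ a)))
  obtain ⟨Y0, hY0⟩ : ∃ Y0 : Finset (Fin n),
    Y0 = (insert y1 (univ.filter fun y => dY E y ≠ 2)).erase y0 := ⟨_, rfl⟩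
  obtain ⟨X0, hX0⟩ : ∃ X0 : Finset (Fin n),
    X0 = (univ.filter fun x => dX E x ≠ 2) ∪ insert T.root (Y0.biUnion (nY E)) := ⟨_, rfl⟩
  have mY : ∀ y, y ∈ Y0 ↔ y ≠ y0 ∧ (y = y1 ∨ dY E y ≠ 2) := fun y => by simp [hY0]
  have mX : ∀ x, x ∈ X0 ↔ dX E x ≠ 2 ∨ x = T.root ∨ ∃ y ∈ Y0, x ∈ nY E y := fun x => by
    simp only [hX0, mem_union, mem_filter, mem_univ, true_and, mem_insert, mem_biUnion]
  have rmem : T.root ∈ X0 := (mX _).2 (Or.inr (Or.inl rfl))
  have nbY : ∀ y ∈ Y0, nY E y ⊆ X0 := fun y hy x hx => (mX _).2 (Or.inr (Or.inr ⟨y, hy, hx⟩))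
  have dY2 : ∀ y, y ∉ Y0 → y ≠ y0 → dY E y = 2 := fun y a b => by
    by_contra c
    exact a ((mY y).2 ⟨b, Or.inr c⟩)
  have dX2 : ∀ x, x ∉ X0 → dX E x = 2 := fun x a => by
    by_contra c
    exact a ((mX x).2 (Or.inl c))
  have nr : ∀ x, x ∉ X0 → x ≠ T.root := fun x a e => a (e ▸ rmem)
  have hbr := h.sum_branch hn0
  have s1 := chain_sum_le (dY E) Y0 {y1} fun y hy e =>
    mem_singleton.2 (((mY y).1 hy).2.resolve_right (not_not.2 e))
  have s2 := chain_sum_le (dX E) X0 (insert T.root (Y0.biUnion (nY E))) fun x hx e => by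
    rw [hX0] at hx
    exact (mem_union.1 hx).resolve_left fun c => (mem_filter.1 c).2 e
  have s3 : (insert T.root (Y0.biUnion (nY E))).card ≤ ∑ y ∈ Y0, dY E y + 1 :=
    (card_insert_le _ _).trans (Nat.succ_le_succ card_biUnion_le)
  rw [card_singleton] at s1
  have s4 : ∑ y ∈ Y0, dY E y ≤ 4 * ((lvX E).card + (lvY E).card) + 2 := by omega
  have s5 : ∑ x ∈ X0, dX E x ≤ 12 * ((lvX E).card + (lvY E).card) + 6 := by omega
  have sY : ((∑ y ∈ Y0, dY E y : ℕ) : ℝ) ≤ 40 * δ * n := by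
    have : ((∑ y ∈ Y0, dY E y : ℕ) : ℝ) ≤ 4 * ((lvX E).card + (lvY E).card) + 2 := by
      exact_mod_cast s4
    linarith
  have sX : ((∑ x ∈ X0, dX E x : ℕ) : ℝ) ≤ 40 * δ * n := by
    have : ((∑ x ∈ X0, dX E x : ℕ) : ℝ) ≤ 12 * ((lvX E).card + (lvY E).card) + 6 := by
      exact_mod_cast s5
    linarith
  have hch : ∀ x, ∃ y x', x ∉ X0 → T.cX x = {y} ∧ T.cY y = {x'} ∧ y ∉ Y0 ∧ y ≠ y0 := by
    intro x
    by_cases hx : x ∈ X0
    · exact ⟨y0, x, fun c => absurd hx c⟩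
    have a : (T.cX x).card = 1 := by
      have := hT.dX_eq (nr x hx)
      rw [dX2 x hx] at this
      omega
    obtain ⟨y, hy⟩ := card_eq_one.1 a
    have b : T.pY y = x := RT.mem_cX.1 (hy ▸ mem_singleton_self _)
    have c : x ∈ nY E y := mem_nY.2 (b ▸ hT.pY_mem y)
    have d : y ∉ Y0 := fun e => hx (nbY y e c)
    have e : y ≠ y0 := fun e => nr x hx (mem_singleton.1 (hr ▸ e ▸ c))
    have f : (T.cY y).card = 1 := by
      have := hT.dY_eq y
      rw [dY2 y d e] at this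
      omega
    obtain ⟨x', hx'⟩ := card_eq_one.1 f
    exact ⟨y, x', fun _ => ⟨hy, hx', d, e⟩⟩
  choose ch nxt hch using hch
  have c1 : ∀ x, x ∉ X0 → T.pY (ch x) = x := fun x hx =>
    RT.mem_cX.1 ((hch x hx).1 ▸ mem_singleton_self _)
  have c2 : ∀ x, x ∉ X0 → T.pX (nxt x) = ch x := fun x hx =>
    (RT.mem_cY.1 ((hch x hx).2.1 ▸ mem_singleton_self _)).2
  have c3 : ∀ x, x ∉ X0 → T.pY (T.pX (nxt x)) = x := fun x hx => by rw [c2 x hx, c1 x hx]
  have c4 : ∀ x, x ∉ X0 → T.pY (T.pX x) ∉ X0 → x = nxt (T.pY (T.pX x)) := fun x hx hp => by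
    have a : T.pX x = ch (T.pY (T.pX x)) := mem_singleton.1 ((hch _ hp).1 ▸ RT.mem_cX.2 rfl)
    exact mem_singleton.1 ((hch _ hp).2.1 ▸ RT.mem_cY.2 ⟨nr x hx, a⟩)
  obtain ⟨hd, j, hj1, hj2⟩ := chain_heads X0ᶜ (fun x => T.pY (T.pX x)) T.rX
    (fun x hx => chain_rank hT (nr x (mem_compl.1 hx))) fun x hx x' hx' hp e => by
      have e' : T.pY (T.pX x) = T.pY (T.pX x') := e
      rw [c4 x (mem_compl.1 hx) (mem_compl.1 hp),
        c4 x' (mem_compl.1 hx') (e' ▸ mem_compl.1 hp), e']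
  have : Nonempty (Fin n) := ⟨y0⟩
  obtain ⟨e, e1, e2, e3, e4⟩ := chain_enum X0ᶜ (fun x => (hd x).val) j
    fun x hx x' hx' a b => hj2 x hx x' hx' (Fin.ext a) b
  obtain ⟨N, hN⟩ : ∃ N, N = X0ᶜ.card := ⟨_, rfl⟩
  rw [← hN] at e1 e2 e3 e4
  have e1' : ∀ t < N, e t ∉ X0 := fun t ht => mem_compl.1 (e1 t ht)
  refine ⟨⟨T, y0, x1, y1, X0, Y0, N, fun t => e (t % N), fun t => ch (e (t % N)),
    fun t => decide (nxt (e (t % N)) ∉ X0)⟩, hT, hr, hy1, x1r, rmem,
    (mX x1).2 (Or.inl (by omega)), (mY _).2 ⟨y10, Or.inl rfl⟩, fun c => ((mY _).1 c).1 rfl, nbY,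
    dY2, dX2, sX, sY, ?_, fun t => by simp, fun t => by simp, fun t => by simp, ?_, ?_, ?_, ?_,
    ?_, ?_⟩
  · simp only [hN, card_compl_add_card, Fintype.card_fin]
  · intro t ht t' ht' a
    simp only at ht ht' a
    rw [Nat.mod_eq_of_lt ht, Nat.mod_eq_of_lt ht'] at a
    exact e2 t ht t' ht' a
  · intro t ht
    simp only at ht ⊢
    rw [Nat.mod_eq_of_lt ht]
    exact e1' t ht
  · intro x hx
    obtain ⟨t, ht, a⟩ := e3 x (mem_compl.2 hx)
    exact ⟨t, ht, by simp only [Nat.mod_eq_of_lt ht, a]⟩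
  · intro t ht a
    simp only [decide_eq_true_eq] at ht a ⊢
    rw [Nat.mod_eq_of_lt ht] at a ⊢
    have b := e1' t ht
    have c := hj1 (nxt (e t)) (mem_compl.2 a) (by rw [c3 _ b]; exact e1 t ht)
    simp only [c3 _ b] at c
    obtain ⟨d1, d2⟩ := e4 t ht _ (mem_compl.2 a) (congrArg Fin.val c.1) c.2
    rw [Nat.mod_eq_of_lt d1, d2, hT.nY_eq, c1 _ b, (hch _ b).2.1]
    exact ⟨rfl, (hch _ b).2.2⟩
  · intro t ht t' ht' _ _ a
    simp only at ht ht' a
    rw [Nat.mod_eq_of_lt ht, Nat.mod_eq_of_lt ht'] at a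
    exact e2 t ht t' ht' (by rw [← c1 _ (e1' t ht), a, c1 _ (e1' t' ht')])
  · refine le_trans ?_ sX
    simp only [Nat.cast_le]
    have a : X0.card ≤ ∑ x ∈ X0, dX E x := by
      rw [card_eq_sum_ones]
      exact sum_le_sum fun x _ => h.dX_pos x
    refine le_trans (card_le_card_of_injOn (fun t => nxt (e t)) (fun t ht => ?_)
      fun t ht t' ht' b => ?_) a
    · obtain ⟨b, c⟩ := mem_filter.1 ht
      rw [Nat.mod_eq_of_lt (mem_range.1 b)] at c
      simpa using c
    · have c := mem_range.1 (mem_filter.1 ht).1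
      have c' := mem_range.1 (mem_filter.1 ht').1
      have b' : nxt (e t) = nxt (e t') := b
      exact e2 t c t' c' (by rw [← c3 _ (e1' t c), b', c3 _ (e1' t' c')])

theorem chain_per {β : Type} {f : ℕ → β} {N : ℕ} (h : ∀ t, f (t + N) = f t) {a b : ℕ}
    (e : a % N = b % N) : f a = f b := by
  have h' : Function.Periodic f N := h
  rw [← h'.map_mod_nat a, ← h'.map_mod_nat b, e]

theorem chain_mod {N t t' : ℕ} (τ : ℕ) (ht : t < N) (ht' : t' < N)
    (e : (t + τ) % N = (t' + τ) % N) : t = t' :=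
  Nat.ModEq.eq_of_lt_of_lt (Nat.ModEq.add_right_cancel' τ e) ht ht'

/-- rotation of the enumeration -/
theorem chain_rot {E : Gr n} {b : ℝ} {C : ChD n} (h : C.Good E b) (τ : ℕ) :
    ∃ C' : ChD n, C'.Good E b ∧ C'.N = C.N ∧ ∀ t, C'.lk t = C.lk (t + τ) := by
  have he : ∀ t, C.e t = C.e (t % C.N) := fun t => chain_per h.eper (Nat.mod_mod _ _).symm
  have hy : ∀ t, C.yy t = C.yy (t % C.N) := fun t => chain_per h.yper (Nat.mod_mod _ _).symm
  have hl : ∀ t, C.lk t = C.lk (t % C.N) := fun t => chain_per h.lper (Nat.mod_mod _ _).symm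
  have hm : ∀ t < C.N, ∀ u, u % C.N < C.N := fun t ht u => Nat.mod_lt _ (by omega)
  refine ⟨⟨C.T, C.y0, C.x1, C.y1, C.X0, C.Y0, C.N, fun t => C.e (t + τ), fun t => C.yy (t + τ),
    fun t => C.lk (t + τ)⟩, ⟨h.tree, h.h0, h.h1, h.x1r, h.rmem, h.xmem, h.ymem, h.ynot, h.nbY,
    h.dY2, h.dX2, h.sX, h.sY, h.hN, fun t => ?_, fun t => ?_, fun t => ?_, ?_, ?_, ?_, ?_, ?_, ?_⟩,
    rfl, fun t => rfl⟩
  · simp only [Nat.add_right_comm t C.N τ, h.eper]
  · simp only [Nat.add_right_comm t C.N τ, h.yper]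
  · simp only [Nat.add_right_comm t C.N τ, h.lper]
  · intro t ht t' ht' a
    simp only at ht ht' a
    rw [he, he (t' + τ)] at a
    exact chain_mod τ ht ht' (h.einj _ (hm t ht _) _ (hm t ht _) a)
  · intro t ht
    simp only at ht ⊢
    rw [he]
    exact h.enot _ (hm t ht _)
  · intro x hx
    obtain ⟨t, ht, a⟩ := h.esur x hx
    refine ⟨(t + (C.N - 1) * τ) % C.N, hm t ht _, ?_⟩
    simp only
    rw [← a]
    refine chain_per h.eper ?_
    have b : t + (C.N - 1) * τ + τ = t + C.N * τ := by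
      obtain ⟨k, hk⟩ : ∃ k, C.N = k + 1 := ⟨C.N - 1, by omega⟩
      rw [hk, Nat.add_sub_cancel]
      ring
    rw [Nat.mod_add_mod, b, Nat.add_mul_mod_self_left]
  · intro t ht a
    simp only at ht a ⊢
    rw [hl] at a
    have b := h.link _ (hm t ht _) a
    have c : C.e (t + 1 + τ) = C.e ((t + τ) % C.N + 1) := by
      refine chain_per h.eper ?_
      rw [Nat.mod_add_mod, Nat.add_right_comm]
    rw [hy, he, c]
    exact b
  · intro t ht t' ht' a a' b
    simp only at ht ht' a a' b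
    rw [hl] at a a'
    rw [hy, hy (t' + τ)] at b
    exact chain_mod τ ht ht' (h.yinj _ (hm t ht _) _ (hm t ht _) a a' b)
  · refine le_trans ?_ h.few
    simp only [Nat.cast_le]
    refine card_le_card_of_injOn (fun t => (t + τ) % C.N) (fun t ht => ?_) fun t ht t' ht' b => ?_
    · obtain ⟨b, c⟩ := mem_filter.1 ht
      exact mem_coe.2 (mem_filter.2 ⟨mem_range.2 (hm t (mem_range.1 b) _), hl _ ▸ c⟩)
    · exact chain_mod τ (mem_range.1 (mem_filter.1 ht).1) (mem_range.1 (mem_filter.1 ht').1) b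

theorem chain_gp_inj (hm : m + 1 = 2 * n) (_hn : 10 ^ 20 ≤ n) (c : ZMod m) {t t' : ℕ}
    (ht : t < NC n - 1) (ht' : t' < NC n - 1) (e : c + (gp t : ZMod m) = c + (gp t' : ZMod m)) :
    t = t' := by
  have a := gp_le t
  have a' := gp_le t'
  unfold NC at ht ht'
  have b := (ZMod.natCast_eq_natCast_iff' _ _ _).1 (add_left_cancel e)
  rw [Nat.mod_eq_of_lt (by omega), Nat.mod_eq_of_lt (by omega)] at b
  exact gp_strictMono.injective b

/-- Proof idea. `potential` with `β = 1`, the options `range (C i).N`, `J = univ`, `p = 2 b / n`: for fixed `i, a` there is at most one `t < NC n - 1` with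
`s i + gp t = a` (`gp t < m`, `gp_strictMono`), and `τ ↦ (t + τ) % N` permutes `range N`; `n ≤ 2 N` since `#X0 ≤ b` (`Tr.dX_pos` or the rooting). `log m ≤ m`. -/
theorem rotate {ι : Type} [DecidableEq ι] [NeZero m] {E : ι → Gr n} {I R : Finset ι}
    {s : ι → ZMod m} {u : ℕ} (h : Two E I R m s u)
    (hC : ∀ i ∈ R, ∃ C : ChD n, C.Good (E i) (n / 10 ^ 13)) :
    ∃ C : ι → ChD n, (∀ i ∈ R, (C i).Good (E i) (n / 10 ^ 13)) ∧
      ∀ a, 10 ^ 12 * junc R C s a ≤ I.card := by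
  classical
  have hn := h.hn
  have hm := h.hm
  have z : Fin n := ⟨0, by omega⟩
  have : Nonempty (ChD n) := ⟨⟨⟨z, id, id, fun _ => 0, fun _ => 0⟩, z, z, z, ∅, ∅, 0, fun _ => z,
    fun _ => z, fun _ => true⟩⟩
  choose! C0 hC0 using hC
  have hN : ∀ i ∈ R, n ≤ 2 * (C0 i).N := by
    intro i hi
    have a : (C0 i).X0.card ≤ ∑ x ∈ (C0 i).X0, dX (E i) x := by
      rw [card_eq_sum_ones]
      exact sum_le_sum fun x _ => (h.tr i (h.sub hi)).dX_pos x
    have b : ((C0 i).X0.card : ℝ) ≤ n / 10 ^ 13 := le_trans (by exact_mod_cast a) (hC0 i hi).sX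
    have c : ((C0 i).N : ℝ) + (C0 i).X0.card = n := by exact_mod_cast (hC0 i hi).hN
    have d : (0 : ℝ) ≤ n := Nat.cast_nonneg n
    have : (n : ℝ) ≤ 2 * (C0 i).N := by linarith
    exact_mod_cast this
  obtain ⟨c, -, hc⟩ := potential R (fun i => range (C0 i).N) (univ : Finset (ZMod m))
    (fun i τ a => ∃ t < NC n - 1, (C0 i).lk (t + τ) = false ∧ s i + (gp t : ZMod m) = a)
    (fun _ _ => 2 / 10 ^ 13) 1 one_pos
    (fun i hi => ⟨0, mem_range.2 (by have := hN i hi; omega)⟩) (fun i hi a _ => by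
      have hb : (n : ℝ) / 10 ^ 13 ≤ 2 / 10 ^ 13 * (range (C0 i).N).card := by
        have : (n : ℝ) ≤ 2 * (C0 i).N := by exact_mod_cast hN i hi
        rw [card_range]
        linarith
      refine le_trans ?_ hb
      by_cases ht : ∃ t < NC n - 1, s i + (gp t : ZMod m) = a
      · obtain ⟨t, ht, e⟩ := ht
        obtain ⟨C', h1, h2, h3⟩ := chain_rot (hC0 i hi) t
        refine le_trans ?_ h1.few
        rw [Nat.cast_le, h2]
        refine card_le_card fun τ hτ => ?_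
        obtain ⟨b1, t', ht', b2, b3⟩ := mem_filter.1 hτ
        have := chain_gp_inj hm hn (s i) ht ht' (e.trans b3.symm)
        refine mem_filter.2 ⟨b1, ?_⟩
        rw [h3, this, Nat.add_comm]
        exact b2
      · rw [filter_eq_empty_iff.2 fun τ _ ⟨t, b1, _, b3⟩ => ht ⟨t, b1, b3⟩]
        simp only [card_empty, Nat.cast_zero]
        positivity)
  have hr : ∀ i ∈ R, ∃ C' : ChD n, C'.Good (E i) (n / 10 ^ 13) ∧
      ∀ t, C'.lk t = (C0 i).lk (t + c i) := fun i hi => by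
    obtain ⟨C', h1, -, h3⟩ := chain_rot (hC0 i hi) (c i)
    exact ⟨C', h1, h3⟩
  choose! C hC1 hC2 using hr
  refine ⟨C, hC1, fun a => ?_⟩
  have h1 := hc a (mem_univ a)
  have h2 : junc R C s a ≤ (R.filter fun i =>
      ∃ t < NC n - 1, (C0 i).lk (t + c i) = false ∧ s i + (gp t : ZMod m) = a).card := by
    rw [card_filter, junc]
    refine sum_le_sum fun i hi => ?_
    split_ifs with hh
    · refine card_le_one.2 fun t ht t' ht' => ?_
      obtain ⟨b1, -, b2⟩ := mem_filter.1 ht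
      obtain ⟨b1', -, b2'⟩ := mem_filter.1 ht'
      exact chain_gp_inj hm hn (s i) (mem_range.1 b1) (mem_range.1 b1') (b2.trans b2'.symm)
    · rw [Nat.le_zero, card_eq_zero, filter_eq_empty_iff]
      rintro t ht ⟨b1, b2⟩
      exact hh ⟨t, mem_range.1 ht, hC2 i hi t ▸ b1, b2⟩
  have h3 : (junc R C s a : ℝ) ≤ _ := le_trans (by exact_mod_cast h2) h1
  rw [sum_const, card_univ, ZMod.card, nsmul_eq_mul, div_one] at h3
  have h4 : Real.log m ≤ m := Real.log_le_self (Nat.cast_nonneg m)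
  have h5 : (m : ℝ) + 1 = 2 * n := by exact_mod_cast hm
  have h6 : (10 : ℝ) ^ 20 * n ≤ I.card := by exact_mod_cast h.hk
  have h7 : (R.card : ℝ) ≤ I.card := by exact_mod_cast card_le_card h.sub
  have h8 : (0 : ℝ) ≤ n := Nat.cast_nonneg n
  have h9 : (10 : ℝ) ^ 12 * junc R C s a ≤ I.card := by linarith
  exact_mod_cast h9

end Pool.Agent.MP_4c107d_co.H78

end

section

/-!
The supply of pairs.
-/

set_option autoImplicit false
set_option linter.unusedSectionVars false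

namespace Pool.Agent.MP_4c107d_co.H78

open Finset

variable {ι : Type} [DecidableEq ι] {n m : ℕ} [NeZero m] {E : ι → Gr n} {I R : Finset ι}
  {s : ι → ZMod m} {u : ℕ}

/-- the number of steps of length `j` among the first `M` steps -/
def regC_c (M j : ℕ) : ℕ := ((range M).filter fun t => stp t = j).card

theorem regC_c_succ (M j : ℕ) :
    regC_c (M + 1) j = regC_c M j + if stp M = j then 1 else 0 := by
  unfold regC_c
  rw [range_add_one, filter_insert]
  split_ifs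
  · rw [card_insert_of_notMem (by simp)]
  · rfl

theorem regC_c_val (M : ℕ) : regC_c M 2 = (M + 19) / 20 ∧ regC_c M 3 = (M + 9) / 20 ∧
    regC_c M 1 + (M + 19) / 20 + (M + 9) / 20 = M := by
  induction M with
  | zero => simp [regC_c]
  | succ M ih =>
    have h1 : (M + 1 + 19) / 20 = (M + 19) / 20 + if M % 20 = 0 then 1 else 0 := by
      clear ih
      split_ifs <;> omega
    have h2 : (M + 1 + 9) / 20 = (M + 9) / 20 + if M % 20 = 10 then 1 else 0 := by
      clear ih h1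
      split_ifs <;> omega
    simp only [regC_c_succ, h1, h2]
    generalize (M + 19) / 20 = x at *
    generalize (M + 9) / 20 = y at *
    unfold stp
    split_ifs <;> omega

theorem regC_num {k : ℕ} (P : ℕ → ZMod m → ℕ) (hm : m + 1 = 2 * n) (hn : 10 ^ 20 ≤ n)
    (hk : 10 ^ 20 * n ≤ k) (hku : 10 ^ 16 * k ≤ 10 ^ 16 * (m * (u + 1)) + k)
    (lo : ∀ j a, 10 ^ 12 * (regC_c (NC n - 1) j * u) ≤ 10 ^ 12 * P j a + k)
    (hi : ∀ j a, P j a ≤ regC_c (NC n - 1) j * (u + 1)) : Sup n k u P := by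
  obtain ⟨M, hM⟩ : ∃ M, NC n - 1 = M := ⟨_, rfl⟩
  rw [hM] at lo hi
  obtain ⟨h2, h3, h1⟩ := regC_c_val M
  have hM1 : M ≤ n := by unfold NC at hM; omega
  have hM2 : 10 ^ 6 * n ≤ 10 ^ 6 * M + n + 10 ^ 6 := by unfold NC at hM; omega
  have e0 : m * (u + 1) ≤ 2 * (n * u) + 2 * n :=
    (Nat.mul_le_mul_right (u + 1) (show m ≤ 2 * n by omega)).trans_eq (by ring)
  have hu : 10 ^ 19 ≤ u := by
    by_contra hu
    have : n * u ≤ n * 10 ^ 19 := Nat.mul_le_mul_left n (by omega)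
    omega
  have e1 : regC_c M 1 * u + regC_c M 2 * u + regC_c M 3 * u = M * u := by
    rw [← add_mul, ← add_mul, h2, h3, h1]
  have e2 : M * u ≤ 20 * (regC_c M 2 * u) :=
    (Nat.mul_le_mul_right u (show M ≤ 20 * regC_c M 2 by omega)).trans_eq (by ring)
  have e3 : 20 * (regC_c M 2 * u) ≤ M * u + 19 * u := by
    have := Nat.mul_le_mul_right u (show 20 * regC_c M 2 ≤ M + 19 by omega)
    rwa [mul_assoc, add_mul] at this
  have e4 : M * u ≤ 20 * (regC_c M 3 * u) + 10 * u := by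
    have := Nat.mul_le_mul_right u (show M ≤ 20 * regC_c M 3 + 10 by omega)
    rwa [add_mul, mul_assoc] at this
  have e5 : 20 * (regC_c M 3 * u) ≤ M * u + 9 * u := by
    have := Nat.mul_le_mul_right u (show 20 * regC_c M 3 ≤ M + 9 by omega)
    rwa [mul_assoc, add_mul] at this
  have e6 : M * u ≤ n * u := Nat.mul_le_mul_right u hM1
  have e7 : 10 ^ 6 * (n * u) ≤ 10 ^ 6 * (M * u) + n * u + 10 ^ 6 * u := by
    have := Nat.mul_le_mul_right u hM2
    rwa [add_mul, add_mul, mul_assoc, mul_assoc] at this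
  have e8 : 10 ^ 20 * u ≤ n * u := Nat.mul_le_mul_right u hn
  have e9 : n * 10 ^ 19 ≤ n * u := Nat.mul_le_mul_left n hu
  have c1 : regC_c M 1 ≤ n := by omega
  have c2 : regC_c M 2 ≤ n := by omega
  have c3 : regC_c M 3 ≤ n := by omega
  simp only [mul_add, mul_one] at hi
  clear h1 h2 h3 hM hM1 hM2
  refine ⟨fun j hj a => ?_, fun a => ?_, fun a => ?_, fun a => ?_⟩
  · have := lo j a
    rcases hj with rfl | rfl | rfl <;> omega
  · have := lo 3 a
    omega
  · have l1 := lo 1 (a + 1)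
    have l2 := lo 2 (a + 1)
    have l3 := lo 3 (a + 1)
    have l4 := lo 2 (a + 1 - 1)
    have l5 := lo 3 (a + 1 - 1)
    have l6 := lo 3 (a + 1 - 2)
    have l7 := hi 3 a
    unfold pasP
    omega
  · have l1 := hi 1 a
    have l2 := hi 2 a
    have l3 := hi 3 a
    have l4 := hi 2 (a - 1)
    have l5 := hi 3 (a - 1)
    have l6 := hi 3 (a - 2)
    unfold pasP
    omega

theorem regC_N {E : Gr n} {C : ChD n} (hC : C.Good E (n / 10 ^ 13)) : NC n ≤ C.N := by
  have h1 : C.X0.card ≤ ∑ x ∈ C.X0, dX E x := by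
    rw [card_eq_sum_ones]
    refine sum_le_sum fun x _ => card_pos.2 ?_
    by_cases hx : x = C.T.root
    · exact ⟨C.y0, mem_nX.2 (mem_nY.1 (by rw [hC.h0, hx]; exact mem_singleton_self _))⟩
    · exact ⟨C.T.pX x, mem_nX.2 ((hC.tree.adj _ _).2 (Or.inl ⟨hx, rfl⟩))⟩
  have h2 : ((∑ x ∈ C.X0, dX E x : ℕ) : ℝ) * 10 ^ 13 ≤ n :=
    (le_div_iff₀ (by norm_num)).1 hC.sX
  have h3 : (∑ x ∈ C.X0, dX E x) * 10 ^ 13 ≤ n := by exact_mod_cast h2
  have h4 := hC.hN
  unfold NC
  omega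

open Classical in
/-- the index of a row vertex inside the chain -/
noncomputable def regC_t (C : ι → ChD n) (q : It ι n) : ℕ :=
  if h : ∃ t, t < NC n - 1 ∧ (C q.1).lk t = true ∧ (C q.1).yy t = q.2 then h.choose else 0

theorem regC_t_spec {C : ι → ChD n} {q : It ι n} (hq : q ∈ INs R C) :
    q.1 ∈ R ∧ regC_t C q < NC n - 1 ∧ (C q.1).lk (regC_t C q) = true ∧
      (C q.1).yy (regC_t C q) = q.2 := by
  obtain ⟨h1, h2⟩ := mem_its.1 hq
  obtain ⟨t, ht, e⟩ := mem_image.1 h2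
  have h : ∃ t, t < NC n - 1 ∧ (C q.1).lk t = true ∧ (C q.1).yy t = q.2 :=
    ⟨t, mem_range.1 (mem_filter.1 ht).1, (mem_filter.1 ht).2, e⟩
  unfold regC_t
  rw [dif_pos h]
  exact ⟨h1, h.choose_spec⟩

theorem regC_t_eq {C : ι → ChD n} (hC : ∀ i ∈ R, (C i).Good (E i) (n / 10 ^ 13)) {i : ι}
    (hi : i ∈ R) {t : ℕ} (ht : t < NC n - 1) (hl : (C i).lk t = true) :
    (i, (C i).yy t) ∈ INs R C ∧ regC_t C (i, (C i).yy t) = t := by
  have h : (i, (C i).yy t) ∈ INs R C :=
    mem_its.2 ⟨hi, mem_image_of_mem _ (mem_filter.2 ⟨mem_range.2 ht, hl⟩)⟩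
  obtain ⟨-, h1, h2, h3⟩ := regC_t_spec h
  have hN := regC_N (hC i hi)
  exact ⟨h, (hC i hi).yinj _ (by omega) _ (by omega) h2 hl h3⟩

/-- all pairs (tree, step) that start in column `a` and have length `j` -/
def regC_F (R : Finset ι) (s : ι → ZMod m) (M j : ℕ) (a : ZMod m) : Finset (ι × ℕ) :=
  (R ×ˢ range M).filter fun p => s p.1 + (gp p.2 : ZMod m) = a ∧ stp p.2 = j

theorem regC_F_card (M j : ℕ) (a : ZMod m) : (regC_F R s M j a).card =
    ∑ t ∈ (range M).filter fun t => stp t = j, (fib R s (a - (gp t : ZMod m))).card := by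
  unfold regC_F fib
  rw [card_filter, sum_product_right, sum_filter]
  refine sum_congr rfl fun t _ => ?_
  by_cases ht : stp t = j
  · simp only [ht, and_true, if_true, card_filter, eq_sub_iff_add_eq]
  · simp [ht]

theorem regC_hi {C : ι → ChD n} (j : ℕ) (a : ZMod m) :
    cntT (INs R C) (fun q => s q.1 + (gp (regC_t C q) : ZMod m)) (fun q => stp (regC_t C q)) j a
      ≤ (regC_F R s (NC n - 1) j a).card := by
  refine card_le_card_of_injOn (fun q => (q.1, regC_t C q)) (fun q hq => ?_) fun q hq q' hq' e => ?_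
  · obtain ⟨h1, h2⟩ := mem_filter.1 (mem_coe.1 hq)
    obtain ⟨h3, h4, -⟩ := regC_t_spec h1
    exact mem_coe.2 (mem_filter.2 ⟨mem_product.2 ⟨h3, mem_range.2 h4⟩, h2⟩)
  · obtain ⟨-, -, -, h1⟩ := regC_t_spec (mem_filter.1 (mem_coe.1 hq)).1
    obtain ⟨-, -, -, h2⟩ := regC_t_spec (mem_filter.1 (mem_coe.1 hq')).1
    obtain ⟨e1, e2⟩ := Prod.ext_iff.1 e
    dsimp only at e1 e2
    refine Prod.ext e1 ?_
    rw [← h1, ← h2, e2, e1]

theorem regC_lo {C : ι → ChD n} (hC : ∀ i ∈ R, (C i).Good (E i) (n / 10 ^ 13)) (j : ℕ)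
    (a : ZMod m) : (regC_F R s (NC n - 1) j a).card ≤
    cntT (INs R C) (fun q => s q.1 + (gp (regC_t C q) : ZMod m)) (fun q => stp (regC_t C q)) j a
      + junc R C s a := by
  rw [← card_filter_add_card_filter_not (s := regC_F R s (NC n - 1) j a)
    (fun p => (C p.1).lk p.2 = true)]
  refine add_le_add ?_ ?_
  · refine card_le_card_of_injOn (fun p => (p.1, (C p.1).yy p.2)) (fun p hp => ?_)
      fun p hp p' hp' e => ?_
    · obtain ⟨h1, h2⟩ := mem_filter.1 (mem_coe.1 hp)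
      obtain ⟨h3, h4⟩ := mem_filter.1 h1
      obtain ⟨h5, h6⟩ := regC_t_eq hC (mem_product.1 h3).1 (mem_range.1 (mem_product.1 h3).2) h2
      refine mem_coe.2 (mem_filter.2 ⟨h5, ?_⟩)
      dsimp only
      rw [h6]
      exact h4
    · obtain ⟨h1, h2⟩ := mem_filter.1 (mem_coe.1 hp)
      obtain ⟨h3, -⟩ := mem_filter.1 h1
      obtain ⟨-, h6⟩ := regC_t_eq hC (mem_product.1 h3).1 (mem_range.1 (mem_product.1 h3).2) h2
      obtain ⟨h1', h2'⟩ := mem_filter.1 (mem_coe.1 hp')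
      obtain ⟨h3', -⟩ := mem_filter.1 h1'
      obtain ⟨-, h6'⟩ := regC_t_eq hC (mem_product.1 h3').1 (mem_range.1 (mem_product.1 h3').2) h2'
      dsimp only at e
      exact Prod.ext (Prod.ext_iff.1 e).1 (by rw [← h6, ← h6', e])
  · unfold junc
    rw [← card_sigma]
    refine card_le_card_of_injOn (fun p => ⟨p.1, p.2⟩) (fun p hp => ?_) fun p _ p' _ e => ?_
    · obtain ⟨h1, h2⟩ := mem_filter.1 (mem_coe.1 hp)
      obtain ⟨h3, h4⟩ := mem_filter.1 h1
      exact mem_coe.2 (mem_sigma.2 ⟨(mem_product.1 h3).1, mem_filter.2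
        ⟨(mem_product.1 h3).2, by simpa using h2, h4.1⟩⟩)
    · obtain ⟨e1, e2⟩ := Sigma.mk.inj_iff.1 e
      exact Prod.ext e1 (eq_of_heq e2)

/-- Proof idea. For `q ∈ INs` let `t q < Nc - 1` be the index with `lk t`, `yy t = q.2` (unique by `yinj`, `Nc ≤ N`), `st q = s q.1 + gp t`, `sp q = stp t`. With `c j = #{t < Nc - 1 | stp t = j}`:
`c j * u ≤ cntT j a + junc a` and `cntT j a ≤ c j * (u + 1)`. `c 2`, `c 3` differ from `(Nc - 1) / 20` by at most one and `c 1 + c 2 + c 3 = Nc - 1`. Numbers: `m u ≤ k ≤ m (u + 1) + k / 10 ^ 16`. -/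
theorem regC (h : Two E I R m s u) (C : ι → ChD n)
    (hC : ∀ i ∈ R, (C i).Good (E i) (n / 10 ^ 13)) (hj : ∀ a, 10 ^ 12 * junc R C s a ≤ I.card)
    {σ : It ι n → ZMod m}
    (hch : ∀ i ∈ R, ∀ t < NC n, σ (i, (C i).e t) = s i + (gp t : ZMod m)) :
    ∃ (st : It ι n → ZMod m) (sp : It ι n → ℕ), Pairs E (INs R C) σ st sp ∧
      Sup n I.card u (cntT (INs R C) st sp) := by
  refine ⟨fun q => s q.1 + (gp (regC_t C q) : ZMod m), fun q => stp (regC_t C q),
    ⟨fun q _ => stp_mem _, fun q hq => ?_, fun q hq q' hq' e1 e2 => ?_⟩,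
    regC_num _ h.hm h.hn h.hk ?_ (fun j a => ?_) fun j a => ?_⟩
  · obtain ⟨h1, h2, h3, h4⟩ := regC_t_spec hq
    have hN := regC_N (hC _ h1)
    refine ⟨_, _, h4 ▸ ((hC _ h1).link _ (by omega) h3).1, hch _ h1 _ (by omega), ?_⟩
    rw [hch _ h1 _ (by omega), gp_succ, Nat.cast_add, add_assoc]
  · obtain ⟨-, h2, -, h4⟩ := regC_t_spec hq
    obtain ⟨-, h2', -, h4'⟩ := regC_t_spec hq'
    rw [e1, add_right_inj, ZMod.natCast_eq_natCast_iff'] at e2
    have hb : ∀ t < NC n - 1, gp t < m := fun t ht => by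
      have h5 := gp_le t
      have h6 := h.hm
      have h7 := h.hn
      unfold NC at ht
      omega
    rw [Nat.mod_eq_of_lt (hb _ h2), Nat.mod_eq_of_lt (hb _ h2')] at e2
    refine Prod.ext e1 ?_
    rw [← h4, ← h4', gp_strictMono.injective e2, e1]
  · have h1 : R.card = ∑ a, (fib R s a).card := card_eq_sum_card_fiberwise fun _ _ => mem_univ _
    have h2 : R.card ≤ m * (u + 1) := by
      rw [h1]
      refine (sum_le_card_nsmul _ _ _ fun a _ => h.hi a).trans_eq ?_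
      rw [card_univ, ZMod.card, smul_eq_mul]
    have h3 := card_sdiff_add_card_eq_card h.sub
    have h4 := h.junk
    omega
  · have h1 : regC_c (NC n - 1) j * u ≤ (regC_F R s (NC n - 1) j a).card := by
      rw [regC_F_card]
      exact card_nsmul_le_sum _ _ _ fun t _ => h.lo _
    have h2 := regC_lo (s := s) hC j a
    have h3 := hj a
    omega
  · refine (regC_hi j a).trans ?_
    rw [regC_F_card]
    exact sum_le_card_nsmul _ _ _ fun t _ => h.hi _

end Pool.Agent.MP_4c107d_co.H78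

end

section

/-!
Placing the special leaves.
-/

set_option autoImplicit false
set_option linter.unusedSectionVars false

namespace Pool.Agent.MP_4c107d_co.H78

open Finset

variable {ι : Type} [DecidableEq ι] {n m : ℕ} [NeZero m] {E : ι → Gr n} {I R : Finset ι}
  {s : ι → ZMod m} {u : ℕ}

theorem leaves_good (I : Finset ι) (rc : ι → ZMod m) {u : ℕ} (hlo : ∀ a, u ≤ (fib I rc a).card)
    (G : Finset (ZMod m)) : G.card * u ≤ (I.filter fun i => rc i ∈ G).card := by
  rw [card_eq_sum_card_fiberwise (f := rc) (s := I.filter fun i => rc i ∈ G) (t := G)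
    fun i hi => (mem_filter.1 hi).2, ← smul_eq_mul, ← sum_const]
  refine sum_le_sum fun a ha => (hlo a).trans (card_le_card fun i hi => ?_)
  obtain ⟨h1, h2⟩ := mem_fib.1 hi
  exact mem_filter.2 ⟨mem_filter.2 ⟨h1, h2 ▸ ha⟩, h2⟩

theorem leaves_round [Nonempty ι] (I B S T : Finset ι) (hS : S ⊆ B) (hT : T.card ≤ B.card)
    (rc : ι → ZMod m) (G : ι → Finset (ZMod m)) (Us : ι → Finset ι) (u : ℕ)
    (hG : ∀ r ∈ S, m ≤ 8 * (G r).card)
    (hU2 : ∀ r ∈ B, (I.filter fun i => r ∈ Us i).card ≤ m) (hlo : ∀ a, u ≤ (fib I rc a).card)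
    (h500 : 500 * B.card ≤ I.card) (hk : 99 * I.card ≤ 100 * (m * u)) (hm : 100 * m ≤ I.card) :
    ∃ f : ι → ι, (∀ a ∈ S, ∀ a' ∈ S, f a = f a' → a = a') ∧
      ∀ r ∈ S, (f r ∈ I ∧ f r ∉ T) ∧ rc (f r) ∈ G r ∧ r ∉ Us (f r) := by
  have h1 := le_card_sdiff T I
  have h2 := card_le_card hS
  have key : ∀ r ∈ S, ((I \ T).filter fun i => rc i ∉ G r ∨ r ∈ Us i).card ≤
      (I \ T).card - B.card := fun r hr => by
    have a1 := leaves_good I rc hlo (G r)
    have a2 := Nat.mul_le_mul_right u (hG r hr)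
    have a3 := hU2 r (hS hr)
    have a4 := card_filter_add_card_filter_not (s := I \ T) fun i => rc i ∈ G r
    have a5 : (I.filter fun i => rc i ∈ G r).card ≤
        ((I \ T).filter fun i => rc i ∈ G r).card + T.card := by
      refine le_trans (card_le_card fun i hi => ?_) (card_union_le _ _)
      simp only [mem_filter, mem_union, mem_sdiff] at hi ⊢
      tauto
    have a6 : ((I \ T).filter fun i => rc i ∉ G r ∨ r ∈ Us i).card ≤
        ((I \ T).filter fun i => rc i ∉ G r).card + (I.filter fun i => r ∈ Us i).card := by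
      refine le_trans (card_le_card fun i hi => ?_) (card_union_le _ _)
      simp only [mem_filter, mem_union, mem_sdiff] at hi ⊢
      tauto
    rw [mul_assoc] at a2
    omega
  obtain ⟨f, hf, hf'⟩ := hall S (I \ T) (fun r i => rc i ∉ G r ∨ r ∈ Us i)
    ((I \ T).card - B.card) B.card (by omega) key
    (fun i _ => (card_filter_le _ _).trans h2) (by omega)
  exact ⟨f, hf, fun r hr => ⟨mem_sdiff.1 (hf' r hr).1, by simpa using (hf' r hr).2⟩⟩

/-- The rows of `B` with an odd number of holes are even in number; one half of them gets no leaf,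
the other half gets two leaves, all the other rows get one leaf. -/
theorem leaves (I B : Finset ι) (hB : B ⊆ I) (rc : ι → ZMod m) (H0 : ι → Finset (ZMod m))
    (Us : ι → Finset ι) (u : ℕ) (hH : ∀ r ∈ B, Ext2 (H0 r))
    (hpar : (∑ r ∈ B, (H0 r).card) % 2 = 0) (hU1 : ∀ i ∈ I, Us i ⊆ B)
    (hU2 : ∀ r ∈ B, (I.filter fun i => r ∈ Us i).card ≤ m) (hlo : ∀ a, u ≤ (fib I rc a).card)
    (h500 : 500 * B.card ≤ I.card) (hk : 99 * I.card ≤ 100 * (m * u)) (hm : 100 * m ≤ I.card) :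
    ∃ lam : ι → ι, (∀ i ∈ I, lam i ∈ I ∧ lam i ∉ Us i) ∧
      (∀ i ∈ I, lam i ∈ B → rc i ∉ H0 (lam i)) ∧
      (∀ i ∈ I, ∀ i' ∈ I, lam i = lam i' → rc i = rc i' → i = i') ∧
      (∀ r ∈ B, No3 (H0 r ∪ (fib I lam r).image rc) ∧
        (H0 r ∪ (fib I lam r).image rc).card % 2 = 1) ∧
      ∀ r ∈ I \ B, (fib I lam r).card = 1 := by
  have hm0 := NeZero.pos m
  have : Nonempty ι := ⟨(card_pos.1 (show 0 < I.card by omega)).choose⟩
  obtain ⟨O, hO, hOc⟩ : ∃ O : Finset ι, (∀ r, r ∈ O ↔ r ∈ B ∧ (H0 r).card % 2 = 1) ∧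
      O.card % 2 = 0 := by
    refine ⟨B.filter fun r => (H0 r).card % 2 = 1, fun r => mem_filter, ?_⟩
    rw [sum_nat_mod] at hpar
    rw [card_filter, ← hpar]
    congr 1
    exact sum_congr rfl fun r _ => by split_ifs <;> omega
  have hOB : O ⊆ B := fun r hr => ((hO r).1 hr).1
  obtain ⟨O0, h0, h0c⟩ := exists_subset_card_eq (s := O) (n := O.card / 2) (by omega)
  have c1 := card_sdiff_add_card_eq_card h0
  have c2 := card_sdiff_add_card_eq_card (h0.trans hOB)
  have c3 := card_sdiff_add_card_eq_card hB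
  obtain ⟨f, hf, hf'⟩ := leaves_round I B (B \ O0) ∅ sdiff_subset (by simp) rc
    (fun r => gd2 (H0 r)) Us u (fun r hr => (hH r (mem_sdiff.1 hr).1).2) hU2 hlo h500 hk hm
  have s2 : ∀ r ∈ O \ O0, r ∈ B \ O0 := fun r hr => sdiff_subset_sdiff hOB subset_rfl hr
  obtain ⟨g, hg, hg'⟩ := leaves_round I B (O \ O0) ((B \ O0).image f) (sdiff_subset.trans hOB)
    (card_image_le.trans (card_le_card sdiff_subset)) rc
    (fun r => gd1 (insert (rc (f r)) (H0 r))) Us u
    (fun r hr => (mem_filter.1 (hf' r (s2 r hr)).2.1).2) hU2 hlo h500 hk hm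
  have c4 : ((B \ O0).image f ∪ (O \ O0).image g).card = B.card := by
    rw [card_union_of_disjoint, card_image_of_injOn hf, card_image_of_injOn hg]
    · omega
    · refine disjoint_right.2 fun i hi => ?_
      obtain ⟨r, hr, rfl⟩ := mem_image.1 hi
      exact (hg' r hr).1.2
  have s4 : (B \ O0).image f ∪ (O \ O0).image g ⊆ I := union_subset
    (image_subset_iff.2 fun r hr => (hf' r hr).1.1) (image_subset_iff.2 fun r hr => (hg' r hr).1.1)
  have c5 := card_sdiff_add_card_eq_card s4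
  obtain ⟨h, hh, hh'⟩ := hall (I \ B) (I \ ((B \ O0).image f ∪ (O \ O0).image g))
    (fun _ _ => False) 0 0 (by omega) (by simp) (by simp) (by simp)
  have s5 : (I \ B).image h = I \ ((B \ O0).image f ∪ (O \ O0).image g) :=
    eq_of_subset_of_card_le (image_subset_iff.2 fun r hr => (hh' r hr).1)
      (by rw [card_image_of_injOn hh]; omega)
  have hex : ∀ i, ∃ r, i ∈ I → (r ∈ B \ O0 ∧ f r = i) ∨ (r ∈ O \ O0 ∧ g r = i) ∨
      (r ∈ I \ B ∧ h r = i) := fun i => by
    by_cases h1 : i ∈ (B \ O0).image f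
    · obtain ⟨r, hr⟩ := mem_image.1 h1
      exact ⟨r, fun _ => Or.inl hr⟩
    by_cases h2 : i ∈ (O \ O0).image g
    · obtain ⟨r, hr⟩ := mem_image.1 h2
      exact ⟨r, fun _ => Or.inr (Or.inl hr)⟩
    by_cases h3 : i ∈ I
    · obtain ⟨r, hr⟩ := mem_image.1 (s5 ▸ mem_sdiff.2 ⟨h3, fun h => (mem_union.1 h).elim h1 h2⟩)
      exact ⟨r, fun _ => Or.inr (Or.inr hr)⟩
    · exact ⟨i, fun h => absurd h h3⟩
  choose lam hl using hex
  have n1 : ∀ r ∈ B \ O0, ∀ r' ∈ O \ O0, g r' ≠ f r := fun r hr r' hr' e =>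
    (hg' r' hr').1.2 (e ▸ mem_image_of_mem f hr)
  have n2 : ∀ r ∈ B \ O0, ∀ r' ∈ I \ B, h r' ≠ f r := fun r hr r' hr' e =>
    (mem_sdiff.1 (hh' r' hr').1).2 (mem_union_left _ (e ▸ mem_image_of_mem f hr))
  have n3 : ∀ r ∈ O \ O0, ∀ r' ∈ I \ B, h r' ≠ g r := fun r hr r' hr' e =>
    (mem_sdiff.1 (hh' r' hr').1).2 (mem_union_right _ (e ▸ mem_image_of_mem g hr))
  have l1 : ∀ r ∈ B \ O0, f r ∈ fib I lam r := fun r hr => mem_fib.2 ⟨(hf' r hr).1.1, by
    rcases hl _ (hf' r hr).1.1 with ⟨a, b⟩ | ⟨a, b⟩ | ⟨a, b⟩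
    exacts [hf _ a _ hr b, absurd b (n1 r hr _ a), absurd b (n2 r hr _ a)]⟩
  have l2 : ∀ r ∈ O \ O0, g r ∈ fib I lam r := fun r hr => mem_fib.2 ⟨(hg' r hr).1.1, by
    rcases hl _ (hg' r hr).1.1 with ⟨a, b⟩ | ⟨a, b⟩ | ⟨a, b⟩
    exacts [absurd b.symm (n1 _ a r hr), hg _ a _ hr b, absurd b (n3 r hr _ a)]⟩
  have l3 : ∀ r ∈ I \ B, h r ∈ fib I lam r := fun r hr =>
    mem_fib.2 ⟨(mem_sdiff.1 (hh' r hr).1).1, by
      rcases hl _ (mem_sdiff.1 (hh' r hr).1).1 with ⟨a, b⟩ | ⟨a, b⟩ | ⟨a, b⟩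
      exacts [absurd b.symm (n2 _ a r hr), absurd b.symm (n3 _ a r hr), hh _ a _ hr b]⟩
  have hfib : ∀ r, ∀ i ∈ fib I lam r, (r ∈ B \ O0 ∧ f r = i) ∨ (r ∈ O \ O0 ∧ g r = i) ∨
      (r ∈ I \ B ∧ h r = i) := fun r i hi => by
    obtain ⟨a, rfl⟩ := mem_fib.1 hi
    exact hl i a
  have g1 : ∀ r ∈ B \ O0, rc (f r) ∉ H0 r ∧ No3 (insert (rc (f r)) (H0 r)) := fun r hr =>
    (mem_filter.1 (mem_filter.1 (hf' r hr).2.1).1).2
  have g2 : ∀ r ∈ O \ O0, rc (g r) ∉ insert (rc (f r)) (H0 r) ∧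
      No3 (insert (rc (g r)) (insert (rc (f r)) (H0 r))) := fun r hr =>
    (mem_filter.1 (hg' r hr).2.1).2
  refine ⟨lam, fun i hi => ?_, fun i hi hb => ?_, fun i hi i' hi' e e' => ?_, fun r hr => ?_,
    fun r hr => ?_⟩
  · rcases hl i hi with ⟨a, b⟩ | ⟨a, b⟩ | ⟨a, b⟩
    · exact ⟨hB (mem_sdiff.1 a).1, fun c => (hf' _ a).2.2 (b.symm ▸ c)⟩
    · exact ⟨hB (hOB (mem_sdiff.1 a).1), fun c => (hg' _ a).2.2 (b.symm ▸ c)⟩
    · exact ⟨(mem_sdiff.1 a).1, fun c => (mem_sdiff.1 a).2 (hU1 i hi c)⟩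
  · rcases hl i hi with ⟨a, b⟩ | ⟨a, b⟩ | ⟨a, b⟩
    · exact fun c => (g1 _ a).1 (b.symm ▸ c)
    · exact fun c => (g2 _ a).1 (mem_insert_of_mem (b.symm ▸ c))
    · exact absurd hb (mem_sdiff.1 a).2
  · have k := hl i hi
    have k' := hl i' hi'
    rw [← e] at k'
    generalize lam i = r at k k'
    rcases k with ⟨a, rfl⟩ | ⟨a, rfl⟩ | ⟨a, rfl⟩ <;>
      rcases k' with ⟨b, rfl⟩ | ⟨b, rfl⟩ | ⟨b, rfl⟩
    · rfl
    · exact absurd (e' ▸ mem_insert_self _ _) (g2 r b).1
    · exact absurd (mem_sdiff.1 a).1 (mem_sdiff.1 b).2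
    · exact absurd (e' ▸ mem_insert_self _ _) (g2 r a).1
    · rfl
    · exact absurd (hOB (mem_sdiff.1 a).1) (mem_sdiff.1 b).2
    · exact absurd (mem_sdiff.1 b).1 (mem_sdiff.1 a).2
    · exact absurd (hOB (mem_sdiff.1 b).1) (mem_sdiff.1 a).2
    · rfl
  · by_cases h1 : r ∈ O0
    · have e : fib I lam r = ∅ := eq_empty_of_forall_notMem fun i hi => by
        rcases hfib r i hi with ⟨a, _⟩ | ⟨a, _⟩ | ⟨a, _⟩
        exacts [(mem_sdiff.1 a).2 h1, (mem_sdiff.1 a).2 h1, (mem_sdiff.1 a).2 hr]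
      rw [e, image_empty, union_empty]
      exact ⟨(hH r hr).1, ((hO r).1 (h0 h1)).2⟩
    have h2 := mem_sdiff.2 ⟨hr, h1⟩
    by_cases h3 : r ∈ O
    · have h4 := mem_sdiff.2 ⟨h3, h1⟩
      have e : fib I lam r = {g r, f r} := by
        refine subset_antisymm (fun i hi => ?_) (insert_subset (l2 r h4) (by simpa using l1 r h2))
        rcases hfib r i hi with ⟨_, rfl⟩ | ⟨_, rfl⟩ | ⟨a, _⟩
        · simp
        · simp
        · exact absurd hr (mem_sdiff.1 a).2
      rw [e, image_insert, image_singleton, union_insert, union_singleton]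
      refine ⟨(g2 r h4).2, ?_⟩
      have := ((hO r).1 h3).2
      rw [card_insert_of_notMem (g2 r h4).1, card_insert_of_notMem (g1 r h2).1]
      omega
    · have e : fib I lam r = {f r} := by
        refine subset_antisymm (fun i hi => ?_) (by simpa using l1 r h2)
        rcases hfib r i hi with ⟨_, rfl⟩ | ⟨a, _⟩ | ⟨a, _⟩
        · simp
        · exact absurd (mem_sdiff.1 a).1 h3
        · exact absurd hr (mem_sdiff.1 a).2
      rw [e, image_singleton, union_singleton]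
      refine ⟨(g1 r h2).2, ?_⟩
      have : ¬ (H0 r).card % 2 = 1 := fun c => h3 ((hO r).2 ⟨hr, c⟩)
      rw [card_insert_of_notMem (g1 r h2).1]
      omega
  · refine card_eq_one.2 ⟨h r, subset_antisymm (fun i hi => ?_) (by simpa using l3 r hr)⟩
    rcases hfib r i hi with ⟨a, _⟩ | ⟨a, _⟩ | ⟨_, rfl⟩
    · exact absurd (mem_sdiff.1 a).1 (mem_sdiff.1 hr).2
    · exact absurd (hOB (mem_sdiff.1 a).1) (mem_sdiff.1 hr).2
    · simp

end Pool.Agent.MP_4c107d_co.H78

end

section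

/-!
Placing the pairs.
-/

set_option autoImplicit false
set_option linter.unusedSectionVars false

namespace Pool.Agent.MP_4c107d_co.H78

open Finset

variable {ι : Type} [DecidableEq ι] {n m : ℕ} [NeZero m] {E : ι → Gr n} {I R : Finset ι}
  {s : ι → ZMod m} {u : ℕ}


theorem finalII_adj {p q : It ι n} {x x' : Fin n} (h : nY (E q.1) q.2 = {x, x'}) :
    adj E p q ↔ p = (q.1, x) ∨ p = (q.1, x') := by
  have key : ∀ z, (z, q.2) ∈ E q.1 ↔ z = x ∨ z = x' := fun z => by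
    rw [← mem_nY, h, mem_insert, mem_singleton]
  obtain ⟨i, z⟩ := p
  constructor
  · rintro ⟨h1, h2⟩
    dsimp only at h1 h2
    subst h1
    exact ((key z).1 h2).imp (fun e => by rw [e]) fun e => by rw [e]
  · rintro (e | e) <;> rw [e]
    · exact ⟨rfl, (key _).2 (Or.inl rfl)⟩
    · exact ⟨rfl, (key _).2 (Or.inr rfl)⟩

theorem finalII_ne (hm : 7 ≤ m) {j : ℕ} (hj : j = 1 ∨ j = 2 ∨ j = 3) : (j : ZMod m) ≠ 0 := by
  rw [Ne, ZMod.natCast_eq_zero_iff]
  intro h
  have := Nat.le_of_dvd (by omega) h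
  omega

theorem finalII_one {τ : ZMod m → ℕ} {a c : ZMod m} {j : ℕ} (hj : j = 1 ∨ j = 2 ∨ j = 3)
    (h : τ a = j) (hc : c = a ∨ c = a + (j : ZMod m)) : 1 ≤ cov τ c := by
  unfold cov
  rcases hc with rfl | rfl
  · rw [if_pos (by omega)]; omega
  · rcases hj with rfl | rfl | rfl
    · rw [if_pos (c := τ (_ - 1) = 1) (by simpa using h)]; omega
    · rw [if_pos (c := τ (_ - 2) = 2) (by simpa using h)]; omega
    · rw [if_pos (c := τ (_ - 3) = 3) (by simpa using h)]; omega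

theorem finalII_two {τ : ZMod m → ℕ} {a a' c : ZMod m} {j j' : ℕ} (hj : j = 1 ∨ j = 2 ∨ j = 3)
    (hj' : j' = 1 ∨ j' = 2 ∨ j' = 3) (h : τ a = j) (h' : τ a' = j') (hne : a ≠ a')
    (hc : c = a ∨ c = a + (j : ZMod m)) (hc' : c = a' ∨ c = a' + (j' : ZMod m)) :
    2 ≤ cov τ c := by
  have key : ∀ {b : ZMod m} {i : ℕ}, (i = 1 ∨ i = 2 ∨ i = 3) → τ b = i → c = b + (i : ZMod m) →
      (i = 1 ∧ τ (c - 1) = 1) ∨ (i = 2 ∧ τ (c - 2) = 2) ∨ (i = 3 ∧ τ (c - 3) = 3) := by
    rintro b i (rfl | rfl | rfl) hb rfl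
    · exact Or.inl ⟨rfl, by simpa using hb⟩
    · exact Or.inr (Or.inl ⟨rfl, by simpa using hb⟩)
    · exact Or.inr (Or.inr ⟨rfl, by simpa using hb⟩)
  unfold cov
  rcases hc with hc | hc <;> rcases hc' with hc' | hc'
  · exact absurd (hc.symm.trans hc') hne
  · have h0 : τ c ≠ 0 := by rw [hc]; omega
    have := key hj' h' hc'
    split_ifs <;> omega
  · have h0 : τ c ≠ 0 := by rw [hc']; omega
    have := key hj h hc
    split_ifs <;> omega
  · have h0 : j ≠ j' := fun e => hne (by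
      rw [hc, e] at hc'; exact add_right_cancel hc')
    have h1 := key hj h hc
    have h2 := key hj' h' hc'
    split_ifs <;> omega

/-- the free cells of a column are as many as the pairs that need the column. Proof idea: `Ok.card_occ_col`, `card_adjX_full`; a vertex `q ∈ IN` has exactly one neighbour in column `a` if `st q = a`
or `st q + sp q = a` (these exclude each other) and none otherwise. -/
theorem deg_pairs (hm : 7 ≤ m) (DY IN : Finset (It ι n)) (hun : DY ∪ IN = full n I)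
    (hd : Disjoint DY IN) {σ : It ι n → ZMod m} {ψ : It ι n → ι} (hok : Ok E (full n I) DY σ ψ)
    (hrow : ∀ q ∈ DY, ψ q ∈ I) {st : It ι n → ZMod m} {sp : It ι n → ℕ} (hP : Pairs E IN σ st sp)
    (hload : ∀ a, colL E (full n I) σ a = I.card) (a : ZMod m) :
    degP (cntT IN st sp) a = (I.filter fun r => a ∉ holes E (full n I) DY σ ψ r).card := by
  have e1 : I.card = ∑ p ∈ fib (full n I) σ a, (DY.filter fun q => adj E p q).card +
      ∑ p ∈ fib (full n I) σ a, (IN.filter fun q => adj E p q).card := by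
    rw [← hload a, colL, ← sum_add_distrib]
    refine sum_congr rfl fun p hp => ?_
    rw [← card_adjX_full (mem_full.1 (mem_fib.1 hp).1), ← hun, filter_union,
      card_union_of_disjoint (disjoint_filter_filter hd)]
  have e2 := hok.card_occ_col hrow a
  have e3 := card_filter_add_card_filter_not (s := I) fun r => occ E (full n I) DY σ ψ a r
  have e4 : (I.filter fun r => a ∉ holes E (full n I) DY σ ψ r) =
      I.filter fun r => ¬ occ E (full n I) DY σ ψ a r := filter_congr fun r _ => by rw [mem_holes]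
  have e5 : ∑ p ∈ fib (full n I) σ a, (IN.filter fun q => adj E p q).card =
      degP (cntT IN st sp) a := by
    simp only [degP, cntT, card_filter, ← sum_add_distrib]
    rw [sum_comm]
    refine sum_congr rfl fun q hq => ?_
    obtain ⟨x, x', h1, h2, h3⟩ := hP.nbr q hq
    have hI : q.1 ∈ I := mem_full.1 (hun ▸ mem_union_right _ hq)
    have hne : st q ≠ st q + (sp q : ZMod m) := fun e =>
      finalII_ne hm (hP.span q hq) (left_eq_add.1 e)
    have hxx : (q.1, x) ≠ (q.1, x') := fun e => hne (by rw [← h3, ← e, h2])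
    have e6 : ((fib (full n I) σ a).filter fun p => adj E p q) =
        ({(q.1, x), (q.1, x')} : Finset (It ι n)).filter fun p => σ p = a := by
      ext p
      simp only [mem_filter, mem_fib, finalII_adj h1, mem_insert, mem_singleton]
      constructor
      · exact fun h => ⟨h.2, h.1.2⟩
      · refine fun h => ⟨⟨?_, h.2⟩, h.1⟩
        rcases h.1 with rfl | rfl <;> exact mem_full.2 hI
    rw [← card_filter, e6, card_filter, sum_pair hxx, h2, h3]
    rcases hP.span q hq with h | h | h <;> simp [h, eq_sub_iff_add_eq]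
  rw [e4]
  omega

/-- Proof idea. `seqHall` with `S = IN`, `o = Prod.fst`, `ty q = (st q, sp q)`, `Dm (a, j) = {r ∈ I | τ r a = j}`, `U i` the rows used by `DY` in tree `i`, `p = n`, `q = 2 m` (a row contains at most `#holes ≤ m` vertices of `DY`
by `Ok.card_holes`, `Tr.dY_pos`). Cells: both columns of a pair have `cov ≥ 1`, so they are not holes, and two different pairs of a row with a common column give `cov ≥ 2`. -/
theorem finalII (hm : m + 1 = 2 * n) (hn : 4 ≤ n) (htr : ∀ i ∈ I, Tr (E i))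
    (DY IN : Finset (It ι n)) (hun : DY ∪ IN = full n I) (hd : Disjoint DY IN)
    {σ : It ι n → ZMod m} {ψ : It ι n → ι} (hok : Ok E (full n I) DY σ ψ)
    (hrow : ∀ q ∈ DY, ψ q ∈ I) {st : It ι n → ZMod m} {sp : It ι n → ℕ} (hP : Pairs E IN σ st sp)
    (τ : ι → ZMod m → ℕ) (hτ : ∀ r ∈ I, Tiling (holes E (full n I) DY σ ψ r) (τ r))
    (hc : ∀ j, (j = 1 ∨ j = 2 ∨ j = 3) → ∀ a,
      (I.filter fun r => τ r a = j).card = cntT IN st sp j a ∧ 3 * m ≤ cntT IN st sp j a) :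
    Pack (ZMod m) E I := by
  classical
  have hDY : ∀ q ∈ DY, q.1 ∈ I := fun q hq => mem_full.1 (hun ▸ mem_union_left _ hq)
  have hne : Nonempty ι := by
    obtain ⟨h1, h2⟩ := hc 1 (Or.inl rfl) 0
    obtain ⟨r, -⟩ := card_pos.1 (show 0 < (I.filter fun r => τ r 0 = 1).card by omega)
    exact ⟨r⟩
  obtain ⟨φ, h1, h2⟩ := seqHall IN Prod.fst (fun q => (st q, sp q))
    (fun t => I.filter fun r => τ r t.1 = t.2) (fun i => (DY.filter fun q => q.1 = i).image ψ)
    n (2 * m) (fun y hy y' hy' e e' => hP.uniq y hy y' hy' e (Prod.ext_iff.1 e').1)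
    (fun y hy => by
      obtain ⟨a1, a2⟩ := hc _ (hP.span y hy) (st y)
      refine ⟨le_of_eq ?_, by dsimp only; omega⟩
      rw [a1]
      exact congrArg card (filter_congr fun q _ => Prod.ext_iff))
    (fun y _ => by
      have a1 := card_owner_le (DY ∪ IN) y.1
      rw [filter_union, card_union_of_disjoint (disjoint_filter_filter hd)] at a1
      exact le_trans (add_le_add card_image_le le_rfl) a1)
    (fun y _ r _ => by
      have a1 : ((IN.image Prod.fst).filter fun i =>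
          r ∈ (DY.filter fun q => q.1 = i).image ψ).card ≤ (fib DY ψ r).card := by
        refine le_trans (card_le_card fun i hi => ?_) (card_image_le (f := Prod.fst))
        obtain ⟨q, hq, e⟩ := mem_image.1 (mem_filter.1 hi).2
        exact mem_image.2 ⟨q, mem_fib.2 ⟨(mem_filter.1 hq).1, e⟩, (mem_filter.1 hq).2⟩
      have a2 : (fib DY ψ r).card ≤ (holes E (full n I) DY σ ψ r).card := by
        rw [hok.card_holes, card_eq_sum_ones]
        refine sum_le_sum fun q hq => ?_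
        have hI := hDY q (mem_fib.1 hq).1
        rw [card_adjY_full hI]
        exact (htr _ hI).dY_pos _
      have a3 : (holes E (full n I) DY σ ψ r).card ≤ m :=
        (card_le_univ _).trans (ZMod.card m).le
      have a4 : ((IN.image fun q => (st q, sp q)).filter fun t =>
          r ∈ I.filter fun r => τ r t.1 = t.2).card ≤ m := by
        refine le_trans (card_le_card_of_injOn (t := univ) Prod.fst (fun _ _ => mem_univ _)
          fun t ht t' ht' e => Prod.ext e ?_) (ZMod.card m).le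
        rw [← (mem_filter.1 (mem_filter.1 ht).2).2, ← (mem_filter.1 (mem_filter.1 ht').2).2, e]
      omega)
  have e1 : ∀ q ∈ IN, (if q ∈ IN then φ q else ψ q) = φ q := fun q hq => if_pos hq
  have e2 : ∀ q ∈ DY, (if q ∈ IN then φ q else ψ q) = ψ q := fun q hq =>
    if_neg (disjoint_left.1 hd hq)
  have hcase : ∀ q ∈ full n I, q ∈ DY ∨ q ∈ IN := fun q hq => mem_union.1 (hun ▸ hq)
  have hcol : ∀ q ∈ IN, ∀ p, adj E p q → σ p = st q ∨ σ p = st q + (sp q : ZMod m) := by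
    intro q hq p hp
    obtain ⟨x, x', a1, a2, a3⟩ := hP.nbr q hq
    rcases (finalII_adj a1).1 hp with rfl | rfl
    · exact Or.inl a2
    · exact Or.inr a3
  have hmix : ∀ q ∈ IN, ∀ q' ∈ DY, q.1 = q'.1 → φ q ≠ ψ q' := fun q hq q' hq' e e' =>
    (h1 q hq).2 (mem_image.2 ⟨q', mem_filter.2 ⟨hq', e.symm⟩, e'.symm⟩)
  have hfree : ∀ q ∈ IN, ∀ p, adj E p q → ∀ q' ∈ DY, ∀ p' ∈ full n I, adj E p' q' → σ p = σ p' →
      φ q ≠ ψ q' := by
    intro q hq p hp q' hq' p' hp' ha e e'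
    obtain ⟨a1, a2⟩ := mem_filter.1 (h1 q hq).1
    have a3 := finalII_one (hP.span q hq) a2 (hcol q hq p hp)
    rw [(hτ _ a1).2, if_pos (mem_holes.2 ⟨p', hp', q', hq', ha, e.symm, e'.symm⟩)] at a3
    omega
  refine ⟨σ, fun q => if q ∈ IN then φ q else ψ q, ⟨hok.injX, fun q hq q' hq' e => ?_,
    fun p hp q hq p' hp' q' hq' ha ha' e => ?_⟩, fun q hq => ?_⟩
  · rcases hcase q hq with a | a <;> rcases hcase q' hq' with b | b
    · rw [e2 q a, e2 q' b]; exact hok.injY q a q' b e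
    · rw [e2 q a, e1 q' b]; exact fun e' => absurd e'.symm (hmix q' b q a e.symm)
    · rw [e1 q a, e2 q' b]; exact fun e' => absurd e' (hmix q a q' b e)
    · rw [e1 q a, e1 q' b]
      exact fun e' => by_contra fun hn => h2 q a q' b hn (Or.inl e) e'
  · rcases hcase q hq with a | a <;> rcases hcase q' hq' with b | b
    · rw [e2 q a, e2 q' b]; exact hok.cell p hp q a p' hp' q' b ha ha' e
    · rw [e2 q a, e1 q' b]
      exact fun e' => absurd e'.symm (hfree q' b p' ha' q a p hp ha e.symm)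
    · rw [e1 q a, e2 q' b]; exact fun e' => absurd e' (hfree q a p ha q' b p' hp' ha' e)
    · rw [e1 q a, e1 q' b]
      intro e'
      by_cases hqq : q = q'
      · subst hqq
        exact hok.injX p hp p' hp' (ha.1.trans ha'.1.symm) e
      obtain ⟨a1, a2⟩ := mem_filter.1 (h1 q a).1
      obtain ⟨-, b2⟩ := mem_filter.1 (h1 q' b).1
      dsimp only at a2 b2
      rw [← e'] at b2
      have a3 := finalII_two (hP.span q a) (hP.span q' b) a2 b2
        (fun e'' => h2 q a q' b hqq (Or.inr (Prod.ext e'' (by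
          dsimp only; rw [← a2, ← b2, e'']))) e') (hcol q a p ha) (e ▸ hcol q' b p' ha')
      rw [(hτ _ a1).2] at a3
      split_ifs at a3 <;> omega
  · rcases hcase q hq with a | a
    · exact Set.mem_of_eq_of_mem (e2 q a) (hrow q a)
    · exact Set.mem_of_eq_of_mem (e1 q a) (mem_filter.1 (h1 q a).1).1

end Pool.Agent.MP_4c107d_co.H78

end

end

-- part MP_4c107d_co.H78.G
section

section

/-!
Everything except the special leaves and the pairs.
-/

set_option autoImplicit false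
set_option linter.unusedSectionVars false

namespace Pool.Agent.MP_4c107d_co.H78

open Finset

variable {ι : Type} [DecidableEq ι] {n m : ℕ} [NeZero m] {E : ι → Gr n} {I R : Finset ι}
  {s : ι → ZMod m} {u : ℕ}


theorem stageII_chain {G : Gr n} (h : Tr G) (hn : 10 ^ 20 ≤ n)
    (hl : 10 ^ 15 * (lvX G).card ≤ n ∧ 10 ^ 15 * (lvY G).card ≤ n) :
    ∃ C : ChD n, C.Good G (n / 10 ^ 13) := by
  have hn' : (10 : ℝ) ^ 20 ≤ n := by exact_mod_cast hn
  have h1 : (10 : ℝ) ^ 15 * (lvX G).card ≤ n := by exact_mod_cast hl.1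
  have h2 : (10 : ℝ) ^ 15 * (lvY G).card ≤ n := by exact_mod_cast hl.2
  obtain ⟨C, hC⟩ := chain_exists h (δ := 1 / (4 * 10 ^ 14)) (by omega) (by linarith) (by linarith)
    (by linarith)
  refine ⟨C, ?_⟩
  rwa [show (40 : ℝ) * (1 / (4 * 10 ^ 14)) * n = n / 10 ^ 13 by ring] at hC

/-- Proof idea. `chain_exists` with `δ = 1 / (4 * 10 ^ 14)`, `rotate`. Disjoint `Bi, Bj ⊆ I` of size `k / 1000`, `B = Bi ∪ Bj`. `junkII` for `Jk = I \ R`, `ld0 = colL E (full n Jk) σJ` (`sum_colL`), `regA`, `regB`, `regC`.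
Glue `σ`, `ψ` according to `p.1 ∈ R`; `y0 i = (C i).y0`, `x0 i = root` for `i ∈ R`, any leaf (`Tr.exists_lvY`) and its neighbour otherwise; `IN = INs R C`; `DY1 = DY2 ∪ (part of full n Jk)`; `Ok.union`. The holes of a row of `Bi`
are those of the regular trees (`Ext2.of_few`), the holes of a row of `Bj` are among those of the junk (`Ext2.of_mod3`, `card_occ_row_le'`). -/
theorem stageII (h : Two E I R m s u)
    (hl : ∀ i ∈ R, 10 ^ 15 * (lvX (E i)).card ≤ n ∧ 10 ^ 15 * (lvY (E i)).card ≤ n) :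
    ∃ (B : Finset ι) (IN : Finset (It ι n)) (x0 y0 : ι → Fin n) (σ : It ι n → ZMod m)
      (ψ : It ι n → ι) (st : It ι n → ZMod m) (sp : It ι n → ℕ),
      StII E I R B s u IN x0 y0 σ ψ st sp := by
  have hn := h.hn
  have hk := h.hk
  have hm := h.hm
  have hjk := h.junk
  have hn0 : 0 < n := by omega
  obtain ⟨C, hC, hj⟩ := rotate h fun i hi => stageII_chain (h.tr i (h.sub hi)) hn (hl i hi)
  obtain ⟨Bi, hBi, cBi⟩ := exists_subset_card_eq (s := I) (n := I.card / 1000) (by omega)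
  obtain ⟨Bj, hBj, cBj⟩ := exists_subset_card_eq (s := I \ Bi) (n := I.card / 1000)
    (by rw [card_sdiff_of_subset hBi]; omega)
  have hdis : ∀ r ∈ Bi, r ∉ Bj := fun r hr hr' => (mem_sdiff.1 (hBj hr')).2 hr
  have hB : I.card ≤ 1001 * Bi.card := by omega
  have htJ : ∀ i ∈ I \ R, Tr (E i) := fun i hi => h.tr i (mem_sdiff.1 hi).1
  obtain ⟨σJ, ψJ, okJ, modJ, rowJ, colJ, rlJ⟩ :=
    junkII (m := m) E (I \ R) Bj hm (by omega) htJ (by omega)
  have hsum : ∑ a, colL E (full n (I \ R)) σJ a = (I \ R).card * m := by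
    have := sum_colL htJ hn0 σJ
    rw [← hm, mul_add, mul_one] at this
    omega
  obtain ⟨σA, ψA, hA⟩ := regA h C hC Bi hB (colL E (full n (I \ R)) σJ)
    (fun a => by have := colJ a; omega) hsum
  obtain ⟨ψB, okB, rowB, holB⟩ := regB h C hC hj Bi hB hA
  obtain ⟨st, sp, hP, hS⟩ := regC h C hC hj hA.chain
  have hxy : ∀ i, ∃ x y : Fin n, (i ∈ I → nY (E i) y = {x}) ∧
      (i ∈ R → x = (C i).T.root ∧ y = (C i).y0) := by
    intro i
    by_cases hi : i ∈ R
    · exact ⟨_, _, fun _ => (hC i hi).h0, fun _ => ⟨rfl, rfl⟩⟩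
    by_cases hI : i ∈ I
    · obtain ⟨y, hy⟩ := (h.tr i hI).exists_lvY hn0
      obtain ⟨x, hx⟩ := card_eq_one.1 hy
      exact ⟨x, y, fun _ => hx, fun hR => absurd hR hi⟩
    · exact ⟨⟨0, hn0⟩, ⟨0, hn0⟩, fun h' => absurd h' hI, fun hR => absurd hR hi⟩
  choose x0 y0 hleaf hroot using hxy
  obtain ⟨σ, hσR, hσJ⟩ : ∃ σ : It ι n → ZMod m, (∀ p, p.1 ∈ R → σ p = σA p) ∧
      ∀ p, p.1 ∉ R → σ p = σJ p :=
    ⟨fun p => if p.1 ∈ R then σA p else σJ p, fun p hp => if_pos hp, fun p hp => if_neg hp⟩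
  obtain ⟨ψ, hψR, hψJ⟩ : ∃ ψ : It ι n → ι, (∀ p, p.1 ∈ R → ψ p = ψB p) ∧
      ∀ p, p.1 ∉ R → ψ p = ψJ p :=
    ⟨fun p => if p.1 ∈ R then ψB p else ψJ p, fun p hp => if_pos hp, fun p hp => if_neg hp⟩
  have fJ : ∀ p ∈ full n (I \ R), p.1 ∉ R := fun p hp => (mem_sdiff.1 (mem_full.1 hp)).2
  have f2 : ∀ q ∈ DY2 R C, q.1 ∈ R := fun q hq => (mem_its.1 hq).1
  have hD2 : ∀ q ∈ DY1 I y0 (INs R C), q.1 ∈ R → q ∈ DY2 R C := by
    intro q hq hR
    obtain ⟨h1, h2⟩ := mem_sdiff.1 hq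
    refine mem_its.2 ⟨hR, mem_sdiff.2 ⟨mem_univ _, fun h3 => h2 ?_⟩⟩
    rcases mem_insert.1 h3 with e | e
    · exact mem_union_left _ (mem_its.2 ⟨h.sub hR, by rw [(hroot _ hR).2, e]; exact mem_singleton_self _⟩)
    · exact mem_union_right _ (mem_its.2 ⟨hR, e⟩)
  have hDJ : ∀ q ∈ DY1 I y0 (INs R C), q.1 ∉ R → q ∈ full n (I \ R) := fun q hq hR =>
    mem_full.2 (mem_sdiff.2 ⟨mem_full.1 (mem_sdiff.1 hq).1, hR⟩)
  have hfull : full n I = full n R ∪ full n (I \ R) := by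
    ext p
    simp only [mem_union, mem_full, mem_sdiff]
    constructor
    · intro hp
      by_cases hR : p.1 ∈ R
      · exact Or.inl hR
      · exact Or.inr ⟨hp, hR⟩
    · rintro (hp | hp)
      · exact h.sub hp
      · exact hp.1
  refine ⟨Bi ∪ Bj, INs R C, x0, y0, σ, ψ, st, sp,
    union_subset hBi (hBj.trans sdiff_subset), ?_, ?_, hleaf, ?_, ?_, ?_, ?_, ?_, ?_, hS⟩
  · have := card_union_le Bi Bj
    omega
  · exact fun q hq => mem_full.2 (h.sub (mem_its.1 hq).1)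
  · intro i hi
    rw [hσR _ hi, (hroot i hi).1]
    exact hA.root i hi
  · have o1 : Ok E (full n R) (DY2 R C) σ ψ :=
      okB.congr (fun p hp => hσR p (mem_full.1 hp)) fun q hq => hψR q (f2 q hq)
    have o2 : Ok E (full n (I \ R)) (full n (I \ R)) σ ψ :=
      okJ.congr (fun p hp => hσJ p (fJ p hp)) fun q hq => hψJ q (fJ q hq)
    refine (o1.union o2 (I := R) (fun p hp => mem_full.1 hp) f2 fJ fJ fun q hq q' hq' e => ?_).mono
      hfull.subset fun q hq => ?_
    · rw [hψR q (f2 q hq), hψJ q' (fJ q' hq')] at e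
      exact hdis _ (rowB q hq) (e ▸ rowJ q' hq')
    · by_cases hR : q.1 ∈ R
      · exact mem_union_left _ (hD2 q hq hR)
      · exact mem_union_right _ (hDJ q hq hR)
  · intro q hq
    by_cases hR : q.1 ∈ R
    · rw [hψR q hR]
      exact mem_union_left _ (rowB q (hD2 q hq hR))
    · rw [hψJ q hR]
      exact mem_union_right _ (rowJ q (hDJ q hq hR))
  · intro r hr
    rcases mem_union.1 hr with hr | hr
    · have hsub : holes E (full n I) (DY1 I y0 (INs R C)) σ ψ r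
          ⊆ holes E (full n R) (DY2 R C) σA ψB r := by
        intro a ha
        obtain ⟨p, -, q, hq, hadj, e1, e2⟩ := mem_holes.1 ha
        by_cases hR : q.1 ∈ R
        · have hp : p.1 ∈ R := hadj.1 ▸ hR
          exact mem_holes.2 ⟨p, mem_full.2 hp, q, hD2 q hq hR, hadj, hσR p hp ▸ e1, hψR q hR ▸ e2⟩
        · rw [hψJ q hR] at e2
          exact absurd (e2 ▸ rowJ q (hDJ q hq hR)) (hdis r hr)
      refine Ext2.of_few (by omega)
        (fun a h1 h2 h3 => (holB r).2 a (hsub h1) (hsub h2) (hsub h3)) ?_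
      have := card_le_card hsub
      have := (holB r).1
      omega
    · have hsub : holes E (full n I) (DY1 I y0 (INs R C)) σ ψ r
          ⊆ holes E (full n (I \ R)) (full n (I \ R)) σJ ψJ r := by
        intro a ha
        obtain ⟨p, -, q, hq, hadj, e1, e2⟩ := mem_holes.1 ha
        by_cases hR : q.1 ∈ R
        · rw [hψR q hR] at e2
          exact absurd hr (hdis r (e2 ▸ rowB q (hD2 q hq hR)))
        · have hp : p.1 ∉ R := hadj.1 ▸ hR
          have hq' := hDJ q hq hR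
          exact mem_holes.2 ⟨p, mem_full.2 (hadj.1 ▸ mem_full.1 hq'), q, hq', hadj,
            hσJ p hp ▸ e1, hψJ q hR ▸ e2⟩
      refine Ext2.of_mod3 (by omega) (fun a ha => ?_) ?_
      · obtain ⟨p, hp, -, -, -, e, -⟩ := mem_holes.1 (hsub ha)
        exact e ▸ modJ p hp
      · have h1 := card_le_card hsub
        have h2 : (holes E (full n (I \ R)) (full n (I \ R)) σJ ψJ r).card
            ≤ rowL E (full n (I \ R)) ψJ r := card_occ_row_le' univ r
        have := rlJ r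
        omega
  · intro a
    rw [hfull, colL_union (disjoint_left.2 fun p hp hp' => fJ p hp' (mem_full.1 hp)),
      colL_congr (fun p hp => hσR p (mem_full.1 hp)), colL_congr fun p hp => hσJ p (fJ p hp)]
    exact hA.load a
  · refine ⟨hP.span, fun q hq => ?_, hP.uniq⟩
    obtain ⟨x, x', e, e1, e2⟩ := hP.nbr q hq
    have hR : q.1 ∈ R := (mem_its.1 hq).1
    exact ⟨x, x', e, (hσR (q.1, x) hR).trans e1, (hσR (q.1, x') hR).trans e2⟩

end Pool.Agent.MP_4c107d_co.H78

end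

section

/-!
Trees with few leaves.
-/

set_option autoImplicit false
set_option linter.unusedSectionVars false

namespace Pool.Agent.MP_4c107d_co.H78

open Finset

variable {ι : Type} [DecidableEq ι] {n m : ℕ} [NeZero m] {E : ι → Gr n} {I R : Finset ι}
  {s : ι → ZMod m} {u : ℕ}

theorem caseII_cast (hm : 7 ≤ m) {j : ℕ} (hj : j = 1 ∨ j = 2 ∨ j = 3) : (j : ZMod m) ≠ 0 := by
  intro h
  have h2 := Nat.le_of_dvd (by omega) ((ZMod.natCast_eq_zero_iff j m).1 h)
  omega

theorem caseII_deg2 (hm : 7 ≤ m) {IN : Finset (It ι n)} {σ : It ι n → ZMod m}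
    {st : It ι n → ZMod m} {sp : It ι n → ℕ} (hP : Pairs E IN σ st sp) {q : It ι n}
    (hq : q ∈ IN) : dY (E q.1) q.2 = 2 := by
  obtain ⟨x, x', h1, h2, h3⟩ := hP.nbr q hq
  have hne : x ≠ x' := by
    rintro rfl
    rw [h2] at h3
    exact caseII_cast hm (hP.span q hq) (by simpa using h3)
  rw [dY, h1, card_pair hne]

theorem caseII_num (h : Two E I R m s u) :
    99 * I.card ≤ 100 * (m * u) ∧ 10 ^ 19 * m ≤ I.card ∧ 7 ≤ m ∧ m * u ≤ I.card := by
  have h1 := h.hm
  have h2 := h.hn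
  have h3 := h.hk
  have h4 := h.junk
  have h5 : R.card = ∑ a : ZMod m, (fib R s a).card := by
    rw [card_eq_sum_ones R, ← sum_fib R s univ (fun _ _ => mem_univ _)]
    simp
  have h6 : R.card ≤ m * (u + 1) := by
    rw [h5]
    refine (sum_le_sum fun a _ => h.hi a).trans ?_
    simp [ZMod.card]
  have h7 : m * u ≤ R.card := by
    rw [h5]
    refine le_trans ?_ (sum_le_sum fun a _ => h.lo a)
    simp [ZMod.card]
  have h8 : (I \ R).card + R.card = I.card := card_sdiff_add_card_eq_card h.sub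
  rw [mul_add, mul_one] at h6
  refine ⟨by omega, by omega, by omega, by omega⟩

theorem caseII_leaf {x0 y0 : ι → Fin n} (hl : ∀ i ∈ I, nY (E i) (y0 i) = {x0 i}) {p q : It ι n}
    (hq : q ∈ its I fun i => {y0 i}) (ha : adj E p q) : p = (q.1, x0 q.1) := by
  obtain ⟨h1, h2⟩ := mem_its.1 hq
  have h3 : p.2 ∈ nY (E q.1) (y0 q.1) := by
    rw [mem_nY, ← mem_singleton.1 h2, ← ha.1]
    exact ha.2
  rw [hl _ h1, mem_singleton] at h3
  exact Prod.ext ha.1 h3

/-- Proof idea. `leaves` with `rc i = σ (i, x0 i)`, `H0 r` the holes, `Us i` the rows used by `DY1` in tree `i`. Parity: `∑_{r ∈ B} #holes = ∑_{q ∈ DY1} dY = k m - k - 2 #IN` (`Ok.card_holes`, `sum_fib`; a vertex of `IN` has degree two).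
`ψ' (i, y0 i) = lam i`. For `r ∈ I \ B` there are no old holes and `c r = rc i` for the unique `i` with `lam i = r`. The number of trees with `lam i ∈ B` is `#B`; use `shift_count`. -/
theorem addLeaves (h : Two E I R m s u) {B : Finset ι} {IN : Finset (It ι n)} {x0 y0 : ι → Fin n}
    {σ : It ι n → ZMod m} {ψ : It ι n → ι} {st : It ι n → ZMod m} {sp : It ι n → ℕ}
    (hS : StII E I R B s u IN x0 y0 σ ψ st sp) :
    ∃ (ψ' : It ι n → ι) (c : ι → ZMod m), Ok E (full n I) (full n I \ IN) σ ψ' ∧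
      (∀ q ∈ full n I \ IN, ψ' q ∈ I) ∧
      (∀ r ∈ I, No3 (holes E (full n I) (full n I \ IN) σ ψ' r) ∧
        (holes E (full n I) (full n I \ IN) σ ψ' r).card % 2 = 1) ∧
      (∀ r ∈ I \ B, holes E (full n I) (full n I \ IN) σ ψ' r = {c r}) ∧
      ∀ Z : Finset (ZMod m),
        Z.card * u ≤ ((I \ B).filter fun r => c r ∈ Z).card + 3 * I.card / 1000 ∧
        ((I \ B).filter fun r => c r ∈ Z).card ≤ Z.card * u + 3 * I.card / 1000 := by
  obtain ⟨hk99, hmk, hm7, hmu⟩ := caseII_num h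
  have hn0 : 0 < n := by have := h.hn; omega
  set D1 := DY1 I y0 IN with hD1
  set LV : Finset (It ι n) := its I fun i => {y0 i} with hLV
  have hD1sub : D1 ⊆ full n I := sdiff_subset
  have hLVdeg : ∀ q ∈ LV, dY (E q.1) q.2 = 1 := by
    intro q hq
    obtain ⟨h1, h2⟩ := mem_its.1 hq
    rw [mem_singleton.1 h2, dY, hS.leaf _ h1, card_singleton]
  have hdis : Disjoint LV IN := by
    refine disjoint_left.2 fun q h1 h2 => ?_
    have h3 := hLVdeg q h1
    have h4 := caseII_deg2 hm7 hS.pairs h2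
    omega
  have hnot : ∀ q ∈ D1, q ∉ LV := fun q hq h1 => (mem_sdiff.1 hq).2 (mem_union_left _ h1)
  have hcase : ∀ q, q ∈ full n I \ IN ↔ q ∈ D1 ∨ q ∈ LV := by
    intro q
    constructor
    · intro hq
      by_cases h1 : q ∈ LV
      · exact Or.inr h1
      · refine Or.inl (mem_sdiff.2 ⟨(mem_sdiff.1 hq).1, fun h2 => ?_⟩)
        rcases mem_union.1 h2 with h2 | h2
        · exact h1 h2
        · exact (mem_sdiff.1 hq).2 h2
    · rintro (hq | hq)
      · exact mem_sdiff.2 ⟨hD1sub hq, fun h2 => (mem_sdiff.1 hq).2 (mem_union_right _ h2)⟩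
      · exact mem_sdiff.2 ⟨its_subset _ _ hq, disjoint_left.1 hdis hq⟩
  set rc : ι → ZMod m := fun i => σ (i, x0 i) with hrc
  set H0 : ι → Finset (ZMod m) := fun r => holes E (full n I) D1 σ ψ r with hH0
  set Us : ι → Finset ι := fun i => (D1.filter fun q => q.1 = i).image ψ with hUs
  have hcard : ∀ r, (H0 r).card = ∑ q ∈ fib D1 ψ r, dY (E q.1) q.2 := by
    intro r
    rw [hH0]
    simp only
    rw [hS.ok.card_holes]
    exact sum_congr rfl fun q hq => card_adjY_full (mem_full.1 (hD1sub (mem_fib.1 hq).1))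
  have hpar : (∑ r ∈ B, (H0 r).card) % 2 = 0 := by
    have e1 : ∑ r ∈ B, (H0 r).card = ∑ q ∈ D1, dY (E q.1) q.2 := by
      rw [sum_congr rfl fun r _ => hcard r]
      exact sum_fib D1 ψ B hS.rows _
    have e2 : ∑ q ∈ D1, dY (E q.1) q.2 + ∑ q ∈ LV ∪ IN, dY (E q.1) q.2
        = ∑ q ∈ full n I, dY (E q.1) q.2 :=
      sum_sdiff (union_subset (its_subset _ _) hS.inn)
    have e3 : ∑ q ∈ LV, dY (E q.1) q.2 = I.card := by
      rw [sum_congr rfl hLVdeg, ← card_eq_sum_ones, hLV, card_its]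
      simp
    have e4 : ∑ q ∈ IN, dY (E q.1) q.2 = 2 * IN.card := by
      rw [sum_congr rfl fun q hq => caseII_deg2 hm7 hS.pairs hq]
      simp [mul_comm]
    have e5 : ∑ q ∈ full n I, dY (E q.1) q.2 + I.card = 2 * (I.card * n) := by
      rw [sum_full, card_eq_sum_ones I, ← sum_add_distrib, sum_mul, mul_sum]
      exact sum_congr rfl fun i hi => by rw [one_mul]; exact (h.tr i hi).sum_dY hn0
    rw [sum_union hdis, e3, e4] at e2
    omega
  have hU2 : ∀ r ∈ B, (I.filter fun i => r ∈ Us i).card ≤ m := by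
    intro r _
    have e1 : (I.filter fun i => r ∈ Us i).card ≤ (fib D1 ψ r).card := by
      refine card_le_card_of_surjOn (fun q => q.1) fun i hi => ?_
      obtain ⟨q, hq, e⟩ := mem_image.1 (mem_filter.1 hi).2
      exact ⟨q, mem_coe.2 (mem_fib.2 ⟨(mem_filter.1 hq).1, e⟩), (mem_filter.1 hq).2⟩
    have e2 : (fib D1 ψ r).card ≤ (H0 r).card := by
      rw [hcard, card_eq_sum_ones]
      exact sum_le_sum fun q hq => (h.tr _ (mem_full.1 (hD1sub (mem_fib.1 hq).1))).dY_pos _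
    have e3 : (H0 r).card ≤ m := (card_le_univ _).trans (ZMod.card m).le
    omega
  have hfib : ∀ a, fib R rc a = fib R s (a + 1) := by
    intro a
    ext i
    simp only [mem_fib]
    refine and_congr_right fun hi => ?_
    rw [hrc]
    simp only
    rw [hS.root i hi, sub_eq_iff_eq_add]
  have hlo : ∀ a, u ≤ (fib I rc a).card := fun a =>
    (h.lo (a + 1)).trans (by rw [← hfib]; exact card_le_card (filter_subset_filter _ h.sub))
  obtain ⟨lam, l1, l2, l3, l4, l5⟩ := leaves I B hS.sub rc H0 Us u hS.ext hpar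
    (fun i _ r hr => by
      obtain ⟨q, hq, rfl⟩ := mem_image.1 hr
      exact hS.rows q (mem_filter.1 hq).1) hU2 hlo hS.small hk99 (by omega)
  set ψ' : It ι n → ι := fun q => if q ∈ LV then lam q.1 else ψ q with hψ'
  have p1 : ∀ q ∈ D1, ψ' q = ψ q := fun q hq => if_neg (hnot q hq)
  have p2 : ∀ q ∈ LV, ψ' q = lam q.1 := fun q hq => if_pos hq
  have hLI : ∀ q ∈ LV, q.1 ∈ I := fun q hq => (mem_its.1 hq).1
  have hholes : ∀ r, holes E (full n I) (full n I \ IN) σ ψ' r = H0 r ∪ (fib I lam r).image rc := by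
    intro r
    ext a
    rw [mem_holes, mem_union, hH0]
    simp only
    rw [mem_holes]
    constructor
    · rintro ⟨p, hp, q, hq, h1, h2, h3⟩
      rcases (hcase q).1 hq with hq | hq
      · exact Or.inl ⟨p, hp, q, hq, h1, h2, (p1 q hq).symm.trans h3⟩
      · refine Or.inr (mem_image.2 ⟨q.1, mem_fib.2 ⟨hLI q hq, (p2 q hq).symm.trans h3⟩, ?_⟩)
        rw [← h2, caseII_leaf hS.leaf hq h1]
    · rintro (⟨p, hp, q, hq, h1, h2, h3⟩ | ha)
      · exact ⟨p, hp, q, (hcase q).2 (Or.inl hq), h1, h2, (p1 q hq).trans h3⟩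
      · obtain ⟨i, hi, rfl⟩ := mem_image.1 ha
        obtain ⟨hi, hr⟩ := mem_fib.1 hi
        have hq : (i, y0 i) ∈ LV := mem_its.2 ⟨hi, mem_singleton_self _⟩
        refine ⟨(i, x0 i), mem_full.2 hi, (i, y0 i), (hcase _).2 (Or.inr hq), ⟨rfl, ?_⟩, rfl,
          (p2 _ hq).trans hr⟩
        exact mem_nY.1 (by rw [hS.leaf i hi]; exact mem_singleton_self _)
  have mixY : ∀ q ∈ LV, ∀ q' ∈ D1, q.1 = q'.1 → ψ' q ≠ ψ' q' := by
    intro q hq q' hq' e e'
    rw [p2 q hq, p1 q' hq'] at e'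
    exact (l1 _ (hLI q hq)).2 (mem_image.2 ⟨q', mem_filter.2 ⟨hq', e.symm⟩, e'.symm⟩)
  have mixC : ∀ p, ∀ q ∈ LV, ∀ p' ∈ full n I, ∀ q' ∈ D1, adj E p q → adj E p' q' → σ p = σ p' →
      ψ' q ≠ ψ' q' := by
    intro p q hq p' hp' q' hq' a a' e e'
    rw [p2 q hq, p1 q' hq'] at e'
    refine l2 _ (hLI q hq) (e' ▸ hS.rows q' hq') (mem_holes.2 ⟨p', hp', q', hq', a', ?_, e'.symm⟩)
    rw [← e, caseII_leaf hS.leaf hq a]
  have hH0e : ∀ r ∈ I \ B, H0 r = ∅ := by
    intro r hr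
    refine eq_empty_of_forall_notMem fun a ha => ?_
    obtain ⟨p, -, q, hq, -, -, h3⟩ := mem_holes.1 ha
    exact (mem_sdiff.1 hr).2 (h3 ▸ hS.rows q hq)
  have hg : ∀ r, ∃ c : ZMod m, r ∈ I \ B → ∃ i, fib I lam r = {i} ∧ c = rc i := by
    intro r
    by_cases hr : r ∈ I \ B
    · obtain ⟨i, hi⟩ := card_eq_one.1 (l5 r hr)
      exact ⟨rc i, fun _ => ⟨i, hi, rfl⟩⟩
    · exact ⟨0, fun h => absurd h hr⟩
  choose c hc using hg
  have hsing : ∀ r ∈ I \ B, holes E (full n I) (full n I \ IN) σ ψ' r = {c r} := by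
    intro r hr
    obtain ⟨i, h1, h2⟩ := hc r hr
    rw [hholes, hH0e r hr, h1, h2, empty_union, image_singleton]
  have hbij : ∀ Z : Finset (ZMod m), ((I \ B).filter fun r => c r ∈ Z).card
      = (I.filter fun i => lam i ∉ B ∧ rc i ∈ Z).card := by
    intro Z
    symm
    refine card_bij (fun i _ => lam i) ?_ ?_ ?_
    · intro i hi
      obtain ⟨hi, h1, h2⟩ := mem_filter.1 hi
      have hr : lam i ∈ I \ B := mem_sdiff.2 ⟨(l1 i hi).1, h1⟩
      obtain ⟨j, h3, h4⟩ := hc _ hr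
      have h5 : i ∈ fib I lam (lam i) := mem_fib.2 ⟨hi, rfl⟩
      rw [h3, mem_singleton] at h5
      exact mem_filter.2 ⟨hr, by rw [h4, ← h5]; exact h2⟩
    · intro i hi i' hi' e
      obtain ⟨hi, h1, -⟩ := mem_filter.1 hi
      obtain ⟨hi', -⟩ := mem_filter.1 hi'
      have hr : lam i ∈ I \ B := mem_sdiff.2 ⟨(l1 i hi).1, h1⟩
      exact card_le_one.1 (l5 _ hr).le i (mem_fib.2 ⟨hi, rfl⟩) i' (mem_fib.2 ⟨hi', e.symm⟩)
    · intro r hr
      obtain ⟨hr, h1⟩ := mem_filter.1 hr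
      obtain ⟨j, h3, h4⟩ := hc _ hr
      have h5 : j ∈ fib I lam r := by rw [h3]; exact mem_singleton_self _
      obtain ⟨h6, h7⟩ := mem_fib.1 h5
      exact ⟨j, mem_filter.2 ⟨h6, by rw [h7]; exact (mem_sdiff.1 hr).2, h4 ▸ h1⟩, h7⟩
  have hB : (I.filter fun i => lam i ∈ B).card = B.card := by
    have e1 := hbij univ
    have e2 := card_filter_add_card_filter_not (s := I) fun i => lam i ∈ B
    have e3 : (I \ B).card + B.card = I.card := card_sdiff_add_card_eq_card hS.sub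
    simp only [mem_univ, and_true, filter_true] at e1
    omega
  refine ⟨ψ', c, ⟨hS.ok.injX, ?_, ?_⟩, ?_, ?_, hsing, ?_⟩
  · intro q hq q' hq' e e'
    rcases (hcase q).1 hq with hq | hq <;> rcases (hcase q').1 hq' with hq' | hq'
    · exact hS.ok.injY q hq q' hq' e (by rw [← p1 q hq, ← p1 q' hq', e'])
    · exact absurd e'.symm (mixY q' hq' q hq e.symm)
    · exact absurd e' (mixY q hq q' hq' e)
    · refine Prod.ext e ?_
      rw [mem_singleton.1 (mem_its.1 hq).2, mem_singleton.1 (mem_its.1 hq').2, e]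
  · intro p hp q hq p' hp' q' hq' a a' e e'
    rcases (hcase q).1 hq with hq | hq <;> rcases (hcase q').1 hq' with hq' | hq'
    · exact hS.ok.cell p hp q hq p' hp' q' hq' a a' e (by rw [← p1 q hq, ← p1 q' hq', e'])
    · exact absurd e'.symm (mixC p' q' hq' p hp q hq a' a e.symm)
    · exact absurd e' (mixC p q hq p' hp' q' hq' a a' e)
    · have h1 := caseII_leaf hS.leaf hq a
      have h2 := caseII_leaf hS.leaf hq' a'
      rw [p2 q hq, p2 q' hq'] at e'
      rw [h1, h2] at e ⊢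
      rw [l3 _ (hLI q hq) _ (hLI q' hq') e' e]
  · intro q hq
    rcases (hcase q).1 hq with hq | hq
    · rw [p1 q hq]; exact hS.sub (hS.rows q hq)
    · rw [p2 q hq]; exact (l1 _ (hLI q hq)).1
  · intro r hr
    by_cases hrB : r ∈ B
    · rw [hholes]; exact l4 r hrB
    · rw [hsing r (mem_sdiff.2 ⟨hr, hrB⟩)]
      refine ⟨fun a h1 h2 => ?_, by simp⟩
      rw [mem_singleton] at h1 h2
      rw [← h1] at h2
      exact absurd (by simpa using h2) (caseII_cast hm7 (j := 1) (Or.inl rfl))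
  · intro Z
    obtain ⟨s1, s2⟩ := shift_count R rc u (fun a => by rw [hfib]; exact h.lo _)
      (fun a => by rw [hfib]; exact h.hi _) Z
    have e1 : (R.filter fun i => rc i ∈ Z).card ≤ (I.filter fun i => lam i ∉ B ∧ rc i ∈ Z).card
        + (I.filter fun i => lam i ∈ B).card := by
      refine le_trans (card_le_card fun i hi => ?_) (card_union_le _ _)
      obtain ⟨h1, h2⟩ := mem_filter.1 hi
      by_cases h3 : lam i ∈ B
      · exact mem_union_right _ (mem_filter.2 ⟨h.sub h1, h3⟩)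
      · exact mem_union_left _ (mem_filter.2 ⟨h.sub h1, h3, h2⟩)
    have e2 : (I.filter fun i => lam i ∉ B ∧ rc i ∈ Z).card ≤ (R.filter fun i => rc i ∈ Z).card
        + (I \ R).card := by
      refine le_trans (card_le_card fun i hi => ?_) (card_union_le _ _)
      obtain ⟨h1, -, h2⟩ := mem_filter.1 hi
      by_cases h3 : i ∈ R
      · exact mem_union_left _ (mem_filter.2 ⟨h3, h2⟩)
      · exact mem_union_right _ (mem_sdiff.2 ⟨h1, h3⟩)
    have e3 : Z.card ≤ m := (card_le_univ _).trans (ZMod.card m).le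
    have e4 := hS.small
    have e5 := h.junk
    rw [hbij]
    rw [mul_add, mul_one] at s2
    constructor <;> omega


/-- Proof idea. `exists_shift R m` with `u = #R / m`, `stageII`, `addLeaves`, `deg_pairs`, `tileAll` with `Mn = I \ B`, `x = 3 k / 1000`, `finalII`. -/
theorem caseII (E : ι → Gr n) (I R : Finset ι) (hm : m + 1 = 2 * n) (hn : 10 ^ 20 ≤ n)
    (hk : 10 ^ 20 * n ≤ I.card) (hsub : R ⊆ I) (hj : 10 ^ 20 * (I \ R).card ≤ I.card)
    (htr : ∀ i ∈ I, Tr (E i))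
    (hl : ∀ i ∈ R, 10 ^ 15 * (lvX (E i)).card ≤ n ∧ 10 ^ 15 * (lvY (E i)).card ≤ n) :
    Pack (ZMod m) E I := by
  obtain ⟨s, hs⟩ := exists_shift R m
  have h : Two E I R m s (R.card / m) :=
    ⟨hm, hn, hk, hsub, by omega, htr, fun a => (hs a).1, fun a => (hs a).2⟩
  generalize R.card / m = u at h
  obtain ⟨hk99, hmk, hm7, hmu⟩ := caseII_num h
  obtain ⟨B, IN, x0, y0, σ, ψ, st, sp, hS⟩ := stageII h hl
  obtain ⟨ψ', c, hok, hrow, hH, hc, hx⟩ := addLeaves h hS
  have hun : full n I \ IN ∪ IN = full n I := sdiff_union_of_subset hS.inn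
  have hdeg := deg_pairs hm7 _ IN hun sdiff_disjoint hok hrow hS.pairs hS.load
  have hsm := hS.small
  have e1 : I \ (I \ B) = B := Finset.sdiff_sdiff_eq_self hS.sub
  have e2 : (I \ B).card + B.card = I.card := card_sdiff_add_card_eq_card hS.sub
  have e3 : m * u + u = 2 * (n * u) := by rw [← mul_assoc, ← hm]; ring
  have e4 : 10 ^ 20 * u ≤ n * u := Nat.mul_le_mul_right u hn
  obtain ⟨τ, h1, h2⟩ := tileAll hm (by omega) I (I \ B) sdiff_subset (card_pos.1 (by omega))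
    (fun r => holes E (full n I) (full n I \ IN) σ ψ' r) c hc hH (cntT IN st sp) hdeg
    (3 * I.card / 1000) u hx
    (fun a => by have := hS.sup.three a; rw [e1]; omega)
    (fun a => by have := hS.sup.lo a; rw [e1]; omega)
    (fun a => by have := hS.sup.hi a; omega)
  exact finalII hm (by omega) htr _ IN hun sdiff_disjoint hok hrow hS.pairs τ h1
    fun j hj a => ⟨h2 j hj a, hS.sup.big j hj a⟩


end Pool.Agent.MP_4c107d_co.H78

end

end
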