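import Pool.Agent.MP_4c107d_co.Mg.H78_C

-- part MP_4c107d_co.H78.H
section

section

/-!
Definitions for the case of trees with many leaves among the row vertices.
Kinds of column vertices: `0` skeleton, `1` inner, `2` closer, `3` flexible, `4` the special leaf `x1` (kinds `2, 3, 4` are called late).
Kinds of row vertices: `0` skeleton, `1` inner, `2` leaf (filler), `3` top (inner with a skeleton parent).
The inner vertices form components of bounded size, named by their top vertex.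
-/

set_option autoImplicit false
set_option linter.unusedSectionVars false

namespace Pool.Agent.MP_4c107d_co.H78

open Finset

/-- tables of labelled shapes: a shape has `e` slots (edges); slot `s` joins the column vertex with label `px s` and the row vertex
with label `py s` (label `0` is the top); `lt j` bounds the number of late neighbours of the row vertex with label `j` -/
structure Tab (τ : Type) where
  e : τ → ℕ
  px : τ → ℕ → ℕ
  py : τ → ℕ → ℕ
  lt : τ → ℕ → ℕ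

structure Tab.Univ {τ : Type} (B : Tab τ) (S : ℕ) : Prop where
  he : ∀ c, B.e c ≤ S
  hlt : ∀ c j, B.lt c j ≤ S
  all : ∀ e ≤ S, ∀ px py lt : ℕ → ℕ, (∀ s < e, px s ≤ S ∧ py s ≤ S) → (∀ j ≤ S, lt j ≤ S) →
    ∃ c, B.e c = e ∧ (∀ s < e, B.px c s = px s ∧ B.py c s = py s) ∧ ∀ j ≤ S, B.lt c j = lt j

def Tab.Lt {τ : Type} (B : Tab τ) (c : τ) : ℕ := ∑ j ∈ range (B.e c + 1), B.lt c j

def Tab.Valid {τ : Type} (B : Tab τ) (c : τ) : Prop :=
  ∀ s < B.e c, B.px c s < B.e c ∧ B.py c s ≤ B.e c ∧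
    ∀ s' < B.e c, B.px c s = B.px c s' → B.py c s = B.py c s' → s = s'

/-- the number of flexible vertices -/
def NU (n : ℕ) : ℕ := n / 10 ^ 56

/-- kinds and components -/
structure Kd (n : ℕ) where
  T : RT n
  kX : Fin n → ℕ
  kY : Fin n → ℕ
  x1 : Fin n
  y1 : Fin n
  hX : Fin n → Fin n ⊕ Fin n
  hY : Fin n → Fin n ⊕ Fin n

namespace Kd
variable {n : ℕ} (D : Kd n) (E : Gr n)

def sX (k : ℕ) : Finset (Fin n) := univ.filter fun x => D.kX x = k
def sY (k : ℕ) : Finset (Fin n) := univ.filter fun y => D.kY y = k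
/-- the components -/
def KS : Finset (Fin n ⊕ Fin n) :=
  (univ.filter fun x => D.kX x = 1 ∧ D.kY (D.T.pX x) = 0).disjSum (D.sY 3)
/-- the row vertex on top of a component -/
def tp : Fin n ⊕ Fin n → Fin n := Sum.elim D.T.pX id
def late (y : Fin n) : ℕ := ((nY E y).filter fun x => 2 ≤ D.kX x).card
def skN (y : Fin n) : ℕ := ((nY E y).filter fun x => D.kX x = 0).card
def skD (x : Fin n) : ℕ := ((nX E x).filter fun y => D.kY y = 0).card
def tpD (x : Fin n) : ℕ := ((nX E x).filter fun y => D.kY y = 3).card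

theorem mem_sX {k : ℕ} {x : Fin n} : x ∈ D.sX k ↔ D.kX x = k := by simp [sX]
theorem mem_sY {k : ℕ} {y : Fin n} : y ∈ D.sY k ↔ D.kY y = k := by simp [sY]
theorem inl_mem_KS {x : Fin n} : Sum.inl x ∈ D.KS ↔ D.kX x = 1 ∧ D.kY (D.T.pX x) = 0 := by
  simp [KS]
theorem inr_mem_KS {y : Fin n} : Sum.inr y ∈ D.KS ↔ D.kY y = 3 := by simp [KS, sY]

structure Good (S d : ℕ) : Prop where
  tree : D.T.Good E
  kX4 : ∀ x, D.kX x ≤ 4
  kY3 : ∀ y, D.kY y ≤ 3
  root : D.kX D.T.root = 0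
  fil : ∀ y, D.kY y = 2 ↔ dY E y = 1
  x4 : D.sX 4 = {D.x1}
  n1 : nX E D.x1 = {D.y1}
  y1k : D.kY D.y1 = 0
  flex : ∀ x, D.kX x = 3 → dX E x = d
  cflex : (D.sX 3).card = NU n
  clo : ∀ x, D.kX x = 2 → dX E x ≤ 10 ^ 37
  cclo : 10 ^ 119 * (D.sX 2).card ≤ n
  inn : ∀ x, D.kX x = 1 → dX E x ≤ S
  csk : 10 ^ 36 * (D.sX 0).card ≤ n
  esk : 10 ^ 36 * ∑ x ∈ D.sX 0, D.skD E x ≤ n
  top : ∀ y, D.kY y = 3 → ∀ x, ((x, y) ∈ E ∧ D.kX x = 0) ↔ x = D.T.pY y
  yin : ∀ x y, (x, y) ∈ E → D.kY y = 1 → D.kX x ≠ 0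
  ypar : ∀ y, D.kY y = 1 → D.kX (D.T.pY y) = 1
  hXK : ∀ x, D.kX x = 1 → D.hX x ∈ D.KS
  hYK : ∀ y, D.kY y = 1 → D.hY y ∈ D.KS
  hY3 : ∀ y, D.kY y = 3 → D.hY y = Sum.inr y
  up : ∀ x, D.kX x = 1 → (D.kY (D.T.pX x) = 0 ∧ D.hX x = Sum.inl x) ∨
    (D.kY (D.T.pX x) = 1 ∧ D.hX x = D.hY (D.T.pX x)) ∨
    (D.kY (D.T.pX x) = 3 ∧ D.hX x = Sum.inr (D.T.pX x))
  dn : ∀ y, D.kX (D.T.pY y) = 1 → D.kY y = 2 ∨ (D.kY y = 1 ∧ D.hY y = D.hX (D.T.pY y))
  size : ∀ K, (univ.filter fun x => D.kX x = 1 ∧ D.hX x = K).card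
    + (univ.filter fun y => D.kY y = 1 ∧ D.hY y = K).card ≤ S
  lateS : ∀ y, D.kY y = 1 ∨ D.kY y = 3 → D.late E y ≤ S

end Kd

/-- labels and shapes of the components, and the part `PX, PY` of the skeleton that contains all row vertices of large degree -/
structure DD (n : ℕ) (τ : Type) extends Kd n where
  lX : Fin n → ℕ
  lY : Fin n → ℕ
  ty : Fin n ⊕ Fin n → τ
  PX : Finset (Fin n)
  PY : Finset (Fin n)
  idx : Fin n → ℕ

namespace DD
variable {n : ℕ} {τ : Type} [DecidableEq τ] (D : DD n τ) (E : Gr n)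

/-- the label of a row vertex in its component -/
def yl (y : Fin n) : ℕ := if D.kY y = 1 then D.lY y + 1 else 0
/-- the number of components of shape `c` below `y` -/
def cnt (y : Fin n) (c : τ) : ℕ := (D.KS.filter fun K => D.tp K = y ∧ D.ty K = c).card
def vec (y : Fin n) : τ ⊕ Fin 3 → ℕ
  | Sum.inl c => D.cnt y c
  | Sum.inr j => if j = 0 then D.late E y else if j = 1 then D.skN E y else dY E y
/-- the number of components of shape `c` -/
def N (c : τ) : ℕ := (D.KS.filter fun K => D.ty K = c).card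
def PV (j : ℕ) (z : τ ⊕ Fin 3) : ℕ := ∑ y ∈ D.PY.filter (fun y => D.idx y = j), D.vec E y z

theorem vec_inl (y : Fin n) (c : τ) : D.vec E y (Sum.inl c) = D.cnt y c := rfl
theorem vec_late (y : Fin n) : D.vec E y (Sum.inr 0) = D.late E y := rfl
theorem vec_skN (y : Fin n) : D.vec E y (Sum.inr 1) = D.skN E y := rfl
theorem vec_dY (y : Fin n) : D.vec E y (Sum.inr 2) = dY E y := rfl

/-- the labelling -/
structure Lab (B : Tab τ) : Prop where
  lXe : ∀ x, D.kX x = 1 → D.lX x < B.e (D.ty (D.hX x))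
  lYe : ∀ y, D.kY y = 1 → D.lY y < B.e (D.ty (D.hY y))
  injX : ∀ x x', D.kX x = 1 → D.kX x' = 1 → D.hX x = D.hX x' → D.lX x = D.lX x' → x = x'
  injY : ∀ y y', D.kY y = 1 → D.kY y' = 1 → D.hY y = D.hY y' → D.lY y = D.lY y' → y = y'
  edge : ∀ x y, (x, y) ∈ E → D.kX x = 1 → D.kY y ≠ 2 →
    ((D.kY y = 1 ∧ D.hY y = D.hX x) ∨ (D.kY y ≠ 1 ∧ y = D.tp (D.hX x))) ∧
    ∃ s < B.e (D.ty (D.hX x)), B.px (D.ty (D.hX x)) s = D.lX x ∧ B.py (D.ty (D.hX x)) s = D.yl y
  valid : ∀ K ∈ D.KS, B.Valid (D.ty K)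
  lat : ∀ y, D.kY y = 1 ∨ D.kY y = 3 → D.late E y ≤ B.lt (D.ty (D.hY y)) (D.yl y)
  sLt : ∑ K ∈ D.KS, B.Lt (D.ty K) ≤ 2 * NU n
  sE : ∑ K ∈ D.KS, B.e (D.ty K) + (D.sY 3).card + (D.sY 2).card ≤ 2 * n

/-- the big part of the skeleton -/
structure Big (H : ℕ) (η : ℝ) : Prop where
  PXs : ∀ x ∈ D.PX, D.kX x = 0
  PYs : ∀ y ∈ D.PY, D.kY y = 0
  cPX : D.PX.card ≤ H
  y1P : D.y1 ∈ D.PY
  idx1 : D.idx D.y1 = 0
  idxH : ∀ y ∈ D.PY, D.idx y < H
  idxI : ∀ y ∈ D.PY, ∀ y' ∈ D.PY, D.idx y = D.idx y' → y = y'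
  light : ∀ y, D.kY y = 0 → y ∉ D.PY → (dY E y : ℝ) ≤ η * n
  oneX : ∀ x, D.kX x = 0 → x ∉ D.PX → ((nX E x).filter fun y => y ∈ D.PY).card ≤ 1
  oneY : ∀ y, D.kY y = 0 → y ∉ D.PY → ((nY E y).filter fun x => x ∈ D.PX).card ≤ 1

structure Good (B : Tab τ) (S d H : ℕ) (η : ℝ) : Prop where
  kd : D.toKd.Good E S d
  lab : D.Lab E B
  big : D.Big E H η

end DD

/-- constants -/
structure Par where
  e1 : ℝ
  η : ℝ
  ηr : ℝ
  γ : ℝ
  R : ℕ
  H : ℕ
  K : ℕ

structure Par.Good (P : Par) (M S : ℕ) : Prop where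
  hS : 10 ^ 120 ≤ S
  e1pos : 0 < P.e1
  he1 : 10 ^ 61 * ((M : ℝ) + 1) * ((S : ℝ) + 1) ^ 2 * P.e1 ≤ 1
  hR : 100 ≤ P.e1 * P.R
  ηpos : 0 < P.η
  hη : 100 * (2 * (P.R : ℝ) + 1) ^ (M + 3) * P.η ≤ P.e1
  hH : 10 ≤ P.η * P.H
  ηrpos : 0 < P.ηr
  hηr : 10 * P.H * P.ηr ≤ P.e1
  γpos : 0 < P.γ
  hγ1 : 10 * P.γ ≤ P.e1
  hγ2 : 10 ^ 20 * ((P.H : ℝ) + 1) * P.γ ≤ 1
  hγ3 : 10 ^ 18 * ((S : ℝ) + 1) * (S.factorial : ℝ) * P.γ ≤ 1
  hK : 100 ≤ P.γ * P.K

section
variable {ι A τ : Type} [DecidableEq ι] [DecidableEq A] [Fintype A] [DecidableEq τ] [Fintype τ]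
  {n : ℕ}

/-- standing assumptions for one group: hosts `Hs` with nearly the same profile, guests `Gs` -/
structure One (A : Type) [Fintype A] (E : ι → Gr n) (B : Tab τ) (S d : ℕ) (P : Par)
    (Hs Gs : Finset ι) (D : ι → DD n τ) : Prop where
  par : P.Good (Fintype.card τ) S
  uni : B.Univ S
  hd : d = 1 ∨ d = 2
  hA : Fintype.card A + 1 = 2 * n
  hn : 10 ^ 4 ≤ P.γ ^ 4 * n
  hlog : 10 ^ 20 * Real.log ((Hs.card : ℝ) * Fintype.card τ) ≤ P.e1 * n
  hk : P.K * n ≤ Hs.card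
  hdiv : S.factorial * 10 ^ 17 ∣ Hs.card
  hJ1 : 100 ≤ P.γ * Gs.card
  hJ2 : 10 ^ 6 * (Gs.card : ℝ) ≤ P.γ ^ 3 * Hs.card
  disj : Disjoint Hs Gs
  trH : ∀ i ∈ Hs, Tr (E i)
  trG : ∀ i ∈ Gs, Tr (E i)
  good : ∀ i ∈ Hs, (D i).Good (E i) B S d P.H P.η
  lv : ∀ i ∈ Hs, n ≤ 10 ^ 15 * (lvY (E i)).card
  closeN : ∀ i ∈ Hs, ∀ i' ∈ Hs, ∀ c, ((D i).N c : ℝ) ≤ (D i').N c + P.ηr * n
  closeP : ∀ i ∈ Hs, ∀ i' ∈ Hs, ∀ j z, ((D i).PV (E i) j z : ℝ) ≤ (D i').PV (E i') j z + P.ηr * n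

def SX (Hs : Finset ι) (D : ι → DD n τ) (k : ℕ) : Finset (It ι n) := its Hs fun i => (D i).sX k
def SY (Hs : Finset ι) (D : ι → DD n τ) (k : ℕ) : Finset (It ι n) := its Hs fun i => (D i).sY k
def PXs (Hs : Finset ι) (D : ι → DD n τ) : Finset (It ι n) := its Hs fun i => (D i).PX
def PYs (Hs : Finset ι) (D : ι → DD n τ) : Finset (It ι n) := its Hs fun i => (D i).PY
/-- the row vertices of the hosts that are not leaves -/
def NF (E : ι → Gr n) (Hs : Finset ι) : Finset (It ι n) :=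
  (full n Hs).filter fun q => dY (E q.1) q.2 ≠ 1
/-- the average number of components of shape `c` -/
noncomputable def avN (Hs : Finset ι) (D : ι → DD n τ) (c : τ) : ℝ :=
  (∑ i ∈ Hs, ((D i).N c : ℝ)) / Hs.card

theorem nf_eq (E : ι → Gr n) (Hs Gs : Finset ι) : nf E Hs Gs = full n Gs ∪ NF E Hs := rfl
theorem mem_SX {Hs : Finset ι} {D : ι → DD n τ} {k : ℕ} {p : It ι n} :
    p ∈ SX Hs D k ↔ p.1 ∈ Hs ∧ (D p.1).kX p.2 = k := by simp [SX, mem_its, Kd.mem_sX]
theorem mem_SY {Hs : Finset ι} {D : ι → DD n τ} {k : ℕ} {p : It ι n} :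
    p ∈ SY Hs D k ↔ p.1 ∈ Hs ∧ (D p.1).kY p.2 = k := by simp [SY, mem_its, Kd.mem_sY]
theorem mem_NF {E : ι → Gr n} {Hs : Finset ι} {q : It ι n} :
    q ∈ NF E Hs ↔ q.1 ∈ Hs ∧ dY (E q.1) q.2 ≠ 1 := by simp [NF, mem_full]

/-- the columns: a slice `Sl`, the columns `AZ` of the skeleton, `U c` fibres of `e c` columns for the shape `c` -/
structure Lay (B : Tab τ) (e1 : ℝ) (Hs : Finset ι) (D : ι → DD n τ) (Sl AZ : Finset A) (U : τ → ℕ)
    (col : τ → ℕ → ℕ → A) : Prop where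
  dSl : Disjoint Sl AZ
  cAZ : (1 + 3 / 10 ^ 17) * (((SY Hs D 3).card : ℝ) / Hs.card) + 6 / 10 ^ 17 * n ≤ AZ.card
  cU1 : ∀ c, (1 + 3 / 10 ^ 17) * avN Hs D c + 2 * e1 * n ≤ U c
  cU2 : ∀ c, (U c : ℝ) ≤ (1 + 3 / 10 ^ 17) * avN Hs D c + 3 * e1 * n
  inj : ∀ c t s c' t' s', t < U c → s < B.e c → t' < U c' → s' < B.e c' →
    col c t s = col c' t' s' → c = c' ∧ t = t' ∧ s = s'
  out : ∀ c t s, t < U c → s < B.e c → col c t s ∉ Sl ∧ col c t s ∉ AZ

/-- the guests are spread out -/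
structure Gst (E : ι → Gr n) (γ : ℝ) (Hs Gs : Finset ι) (σ : It ι n → A) (ψ : It ι n → ι) :
    Prop where
  rows : ∀ q ∈ full n Gs, ψ q ∈ Hs ∪ Gs
  col : ∀ a, (colL E (full n Gs) σ a : ℝ) ≤ γ * Hs.card
  row : ∀ r ∈ Hs, (rowL E (full n Gs) ψ r : ℝ) ≤ γ * n

/-- the meters of the skeleton columns -/
structure Met (E : ι → Gr n) (Hs Gs : Finset ι) (D : ι → DD n τ) (X : Finset (It ι n))
    (σ : It ι n → A) : Prop where
  m0 : ∀ a, ((∑ p ∈ fib X σ a, (D p.1).skD (E p.1) p.2 + colL E (full n Gs) σ a : ℕ) : ℝ)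
    ≤ Hs.card / (2 * 10 ^ 18) + n
  m1 : ∀ a, ((∑ p ∈ fib X σ a, (D p.1).tpD (E p.1) p.2 : ℕ) : ℝ) ≤ (1 - 2 / 10 ^ 17) * Hs.card + n
  m2 : ∀ a, colL E X σ a ≤ 10 ^ 17 * Hs.card + n

/-- the rows of the vertices `y1` are different -/
def Y1 (Hs : Finset ι) (D : ι → DD n τ) (ψ : It ι n → ι) : Prop :=
  ∀ i ∈ Hs, ∀ i' ∈ Hs, ψ (i, (D i).y1) = ψ (i', (D i').y1) → i = i'

/-- the rows have nearly average load from `Y` -/
def Vec (E : ι → Gr n) (Hs : Finset ι) (D : ι → DD n τ) (Y : Finset (It ι n)) (ψ : It ι n → ι)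
    (x y : ℝ) : Prop :=
  ∀ r z, ((∑ q ∈ fib Y ψ r, (D q.1).vec (E q.1) q.2 z : ℕ) : ℝ)
    ≤ x * (((∑ q ∈ Y, (D q.1).vec (E q.1) q.2 z : ℕ) : ℝ) / Hs.card) + y

/-- a part `X, Y` of the skeleton is placed -/
structure StS (E : ι → Gr n) (γ : ℝ) (Hs Gs : Finset ι) (D : ι → DD n τ) (AZ : Finset A)
    (X Y : Finset (It ι n)) (x y : ℝ) (σ : It ι n → A) (ψ : It ι n → ι) : Prop where
  ok : Ok E (full n Gs ∪ X) (full n Gs ∪ Y) σ ψ
  gst : Gst E γ Hs Gs σ ψ
  inA : ∀ p ∈ X, σ p ∈ AZ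
  inH : ∀ q ∈ Y, ψ q ∈ Hs
  met : Met E Hs Gs D X σ
  vec : Vec E Hs D Y ψ x y
  y1 : Y1 Hs D ψ

/-- the skeleton and the tops are placed -/
structure St4 (E : ι → Gr n) (P : Par) (Hs Gs : Finset ι) (D : ι → DD n τ) (AZ : Finset A)
    (σ : It ι n → A) (ψ : It ι n → ι) : Prop where
  ok : Ok E (full n Gs ∪ SX Hs D 0) (full n Gs ∪ (SY Hs D 0 ∪ SY Hs D 3)) σ ψ
  gst : Gst E P.γ Hs Gs σ ψ
  inA : ∀ p ∈ SX Hs D 0, σ p ∈ AZ
  inH : ∀ q ∈ SY Hs D 0 ∪ SY Hs D 3, ψ q ∈ Hs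
  m2 : ∀ a, colL E (SX Hs D 0) σ a ≤ 10 ^ 17 * Hs.card + n
  vec : Vec E Hs D (SY Hs D 0) ψ (1 + 1 / 10 ^ 17) (P.e1 * n / 2)
  vec3 : ∀ r c, ((∑ q ∈ fib (SY Hs D 3) ψ r, (D q.1).cnt q.2 c : ℕ) : ℝ) ≤ (1 + 1 / 10 ^ 17) *
    (((∑ q ∈ SY Hs D 3, (D q.1).cnt q.2 c : ℕ) : ℝ) / Hs.card) + P.e1 * n / 2
  y1 : Y1 Hs D ψ

/-- all row vertices except the fillers and the column vertices `X ⊇ SX 0 ∪ SX 1` are placed -/
structure St5 (E : ι → Gr n) (P : Par) (Hs Gs : Finset ι) (D : ι → DD n τ) (Sl : Finset A)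
    (X : Finset (It ι n)) (σ : It ι n → A) (ψ : It ι n → ι) : Prop where
  ok : Ok E (full n Gs ∪ X) (nf E Hs Gs) σ ψ
  gst : Gst E P.γ Hs Gs σ ψ
  off : ∀ p ∈ SX Hs D 0 ∪ SX Hs D 1, σ p ∉ Sl
  inH : ∀ q ∈ NF E Hs, ψ q ∈ Hs
  m2 : ∀ a, colL E (SX Hs D 0) σ a ≤ 10 ^ 17 * Hs.card + n
  late : ∀ r, 10 ^ 55 * ∑ q ∈ fib (NF E Hs) ψ r, (D q.1).late (E q.1) q.2 ≤ n
  y1 : Y1 Hs D ψ

/-- the result for one group: the loads `u` can be raised inside the slice in many ways -/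
def GOut (E : ι → Gr n) (Hs Gs : Finset ι) (Sl : Finset A) (d Kc : ℕ) : Prop :=
  ∃ u f : A → ℕ, (∀ a, f a ≤ u a) ∧ (∀ a, u a ≤ Kc * Hs.card) ∧
    (∀ a ∈ Sl, 10 ^ 60 * u a ≤ Hs.card) ∧
    (∑ a, u a + Hs.card * (1 + d * NU n) = (Hs.card + Gs.card) * Fintype.card A) ∧
    (n * Hs.card ≤ 2 * 10 ^ 15 * ∑ a ∈ univ \ Sl, f a) ∧
    ∀ s1 s2 : A → ℕ, (∀ a, a ∉ Sl → s1 a = 0 ∧ s2 a = 0) → ∑ a, s1 a = Hs.card →
      ∑ a, s2 a = Hs.card * NU n → (∀ a, n * s1 a ≤ 2 * 10 ^ 17 * Hs.card) →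
      (∀ a, 10 ^ 39 * s2 a ≤ 3 * Hs.card) →
      ∃ (σ : It ι n → A) (ψ : It ι n → ι), Ok E (full n (Hs ∪ Gs)) (nf E Hs Gs) σ ψ ∧
        (∀ q ∈ nf E Hs Gs, ψ q ∈ Hs ∪ Gs) ∧
        ∀ a, colL E (full n (Hs ∪ Gs)) σ a = u a + s1 a + d * s2 a ∧ f a ≤ filL E (full n Hs) σ a

/-- the result for one half: exact column sums and many fillers in every column -/
def HOut (A : Type) [DecidableEq A] (E : ι → Gr n) (Hs Gs : Finset ι) : Prop :=
  ∃ (σ : It ι n → A) (ψ : It ι n → ι), Ok E (full n (Hs ∪ Gs)) (nf E Hs Gs) σ ψ ∧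
    (∀ q ∈ nf E Hs Gs, ψ q ∈ Hs ∪ Gs) ∧
    ∀ a, colL E (full n (Hs ∪ Gs)) σ a = (Hs ∪ Gs).card ∧ n + 1 ≤ filL E (full n Hs) σ a

end

end Pool.Agent.MP_4c107d_co.H78

end

section

/-!
Elementary facts on decomposed trees.
-/

set_option autoImplicit false
set_option linter.unusedSectionVars false
set_option linter.unusedVariables false

namespace Pool.Agent.MP_4c107d_co.H78

open Finset

variable {n S d : ℕ} {τ : Type} [DecidableEq τ] {E : Gr n}

/-- double counting of edges between two sets -/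
theorem oneB_double (E : Gr n) (P Q : Fin n → Prop) [DecidablePred P] [DecidablePred Q] :
    ∑ y ∈ univ.filter Q, ((nY E y).filter P).card = ∑ x ∈ univ.filter P, ((nX E x).filter Q).card := by
  simp only [nX, nY, card_filter, sum_filter]
  have h1 : ∀ y, (if Q y then ∑ x, if (x, y) ∈ E then if P x then 1 else 0 else 0 else 0) =
      ∑ x, if (x, y) ∈ E ∧ P x ∧ Q y then 1 else 0 := fun y => by
    by_cases h : Q y <;> simp [h, ite_and]
  have h2 : ∀ x, (if P x then ∑ y, if (x, y) ∈ E then if Q y then 1 else 0 else 0 else 0) =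
      ∑ y, if (x, y) ∈ E ∧ P x ∧ Q y then 1 else 0 := fun x => by
    by_cases h : P x <;> simp [h, ite_and]
  simp only [h1, h2]
  exact sum_comm

theorem Kd.Good.tp_kind {D : Kd n} (h : D.Good E S d) {K : Fin n ⊕ Fin n} (hK : K ∈ D.KS) :
    D.kY (D.tp K) = 0 ∨ D.kY (D.tp K) = 3 := by
  cases K with
  | inl x => exact Or.inl (D.inl_mem_KS.1 hK).2
  | inr y => exact Or.inr (D.inr_mem_KS.1 hK)

theorem Kd.Good.kX_x1 {D : Kd n} (h : D.Good E S d) {x : Fin n} : D.kX x = 4 ↔ x = D.x1 := by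
  rw [← D.mem_sX, h.x4, mem_singleton]

theorem Kd.Good.dX_x1 {D : Kd n} (h : D.Good E S d) : dX E D.x1 = 1 := by
  rw [dX, h.n1, card_singleton]

/-- the late vertices have small total degree -/
theorem Kd.Good.sum_lateX {D : Kd n} (h : D.Good E S d) (hd : d ≤ 2) (hn : 10 ^ 120 ≤ n) :
    ∑ x ∈ univ.filter (fun x => 2 ≤ D.kX x), dX E x ≤ 3 * NU n := by
  have h1 : univ.filter (fun x => 2 ≤ D.kX x) = D.sX 2 ∪ D.sX 3 ∪ D.sX 4 := by
    ext x
    have := h.kX4 x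
    simp only [mem_filter, mem_univ, true_and, mem_union, Kd.mem_sX]
    omega
  have h2 : ∑ x ∈ D.sX 2, dX E x ≤ (D.sX 2).card * 10 ^ 37 :=
    sum_le_card_nsmul _ _ _ fun x hx => h.clo x (D.mem_sX.1 hx)
  have h3 : ∑ x ∈ D.sX 3, dX E x ≤ (D.sX 3).card * 2 :=
    sum_le_card_nsmul _ _ _ fun x hx => (h.flex x (D.mem_sX.1 hx)).trans_le hd
  have h4 : ∑ x ∈ D.sX 4, dX E x = 1 := by rw [h.x4, sum_singleton, h.dX_x1]
  have h5 := h.cclo
  have h6 : (D.sX 2).card * 10 ^ 37 + 1 ≤ NU n := by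
    unfold NU
    omega
  rw [h.cflex] at h3
  rw [h1, sum_union, sum_union]
  · omega
  · exact disjoint_left.2 fun x hx hx' => by
      rw [Kd.mem_sX] at hx hx'
      omega
  · exact disjoint_left.2 fun x hx hx' => by
      simp only [mem_union, Kd.mem_sX] at hx hx'
      omega

theorem Kd.sum_late (D : Kd n) (E : Gr n) :
    ∑ y, D.late E y = ∑ x ∈ univ.filter (fun x => 2 ≤ D.kX x), dX E x := by
  simpa only [filter_true, Kd.late, dX] using oneB_double E (fun x => 2 ≤ D.kX x) fun _ => True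

theorem Kd.sum_skN (D : Kd n) (E : Gr n) :
    ∑ y ∈ D.sY 0, D.skN E y = ∑ x ∈ D.sX 0, D.skD E x :=
  oneB_double E (fun x => D.kX x = 0) fun y => D.kY y = 0

theorem Kd.Good.sum_tpD {D : Kd n} (h : D.Good E S d) :
    ∑ x ∈ D.sX 0, D.tpD E x = (D.sY 3).card := by
  refine (oneB_double E (fun x => D.kX x = 0) fun y => D.kY y = 3).symm.trans ?_
  rw [card_eq_sum_ones (D.sY 3)]
  refine sum_congr rfl fun y hy => card_eq_one.2 ⟨D.T.pY y, ?_⟩
  ext x
  rw [mem_filter, mem_nY, mem_singleton]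
  exact h.top y (D.mem_sY.1 hy) x

theorem Kd.late_le (D : Kd n) (E : Gr n) (y : Fin n) : D.late E y ≤ dY E y := card_filter_le _ _
theorem Kd.skN_le (D : Kd n) (E : Gr n) (y : Fin n) : D.skN E y ≤ dY E y := card_filter_le _ _
theorem Kd.skD_le (D : Kd n) (E : Gr n) (x : Fin n) : D.skD E x ≤ dX E x := card_filter_le _ _
theorem Kd.tpD_le (D : Kd n) (E : Gr n) (x : Fin n) : D.tpD E x ≤ dX E x := card_filter_le _ _

variable {D : DD n τ}

/-- Proof idea: a component below a skeleton vertex `y` is `inl x` for a child `x` of `y`; below a top `y` it is `inr y`; there is none below other vertices. -/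
theorem DD.cnt_le (h : D.toKd.Good E S d) (y : Fin n) (c : τ) : D.cnt y c ≤ dY E y := by
  refine card_le_card_of_injOn (Sum.elim id D.T.pY) (fun K hK => ?_) fun K hK K' hK' e => ?_
  · obtain ⟨h1, h2, -⟩ := mem_filter.1 (mem_coe.1 hK)
    refine mem_coe.2 (mem_nY.2 ((h.tree.adj _ _).2 ?_))
    cases K with
    | inl x =>
      refine Or.inl ⟨fun hx => ?_, h2⟩
      have h3 := (D.inl_mem_KS.1 h1).1
      rw [show x = D.T.root from hx, h.root] at h3
      omega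
    | inr z => exact Or.inr (by rw [← h2]; rfl)
  · obtain ⟨h1, h2, -⟩ := mem_filter.1 (mem_coe.1 hK)
    obtain ⟨h3, h4, -⟩ := mem_filter.1 (mem_coe.1 hK')
    cases K with
    | inl x =>
      cases K' with
      | inl x' => exact congrArg Sum.inl e
      | inr z =>
        have h5 := (D.inl_mem_KS.1 h1).2
        rw [show D.T.pX x = z from h2.trans h4.symm, D.inr_mem_KS.1 h3] at h5
        omega
    | inr z =>
      cases K' with
      | inl x' =>
        have h5 := (D.inl_mem_KS.1 h3).2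
        rw [show D.T.pX x' = z from h4.trans h2.symm, D.inr_mem_KS.1 h1] at h5
        omega
      | inr z' => exact congrArg Sum.inr (h2.trans h4.symm)

theorem DD.vec_le (h : D.toKd.Good E S d) (y : Fin n) (z : τ ⊕ Fin 3) : D.vec E y z ≤ dY E y := by
  cases z with
  | inl c => exact DD.cnt_le h y c
  | inr j =>
    unfold DD.vec
    simp only
    split_ifs
    · exact D.late_le E y
    · exact D.skN_le E y
    · exact le_rfl

theorem DD.cnt_top (h : D.toKd.Good E S d) {y : Fin n} (hy : D.kY y = 3) (c : τ) :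
    D.cnt y c = if D.ty (Sum.inr y) = c then 1 else 0 := by
  have h1 : (D.KS.filter fun K => D.tp K = y ∧ D.ty K = c) =
      ({Sum.inr y} : Finset (Fin n ⊕ Fin n)).filter fun K => D.ty K = c := by
    ext K
    rw [mem_filter, mem_filter, mem_singleton]
    constructor
    · rintro ⟨h1, h2, h3⟩
      refine ⟨?_, h3⟩
      cases K with
      | inl x =>
        have h5 := (D.inl_mem_KS.1 h1).2
        rw [show D.T.pX x = y from h2, hy] at h5
        omega
      | inr z => exact congrArg Sum.inr h2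
    · rintro ⟨rfl, h3⟩
      exact ⟨D.inr_mem_KS.2 hy, rfl, h3⟩
  rw [DD.cnt, h1, filter_singleton]
  split_ifs <;> rfl

theorem DD.sum_cnt (h : D.toKd.Good E S d) (c : τ) :
    ∑ y ∈ D.sY 0, D.cnt y c + ∑ y ∈ D.sY 3, D.cnt y c = D.N c := by
  rw [← sum_union (disjoint_left.2 fun y hy hy' => by rw [Kd.mem_sY] at hy hy'; omega), DD.N,
    card_eq_sum_card_fiberwise (f := D.tp) (t := D.sY 0 ∪ D.sY 3) fun K hK => ?_]
  · refine sum_congr rfl fun y _ => ?_
    rw [DD.cnt, filter_filter]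
    exact congrArg card (filter_congr fun K _ => and_comm)
  · simp only [mem_coe, mem_union, Kd.mem_sY]
    exact h.tp_kind (mem_filter.1 (mem_coe.1 hK)).1

theorem DD.N_le (D : DD n τ) (c : τ) : D.N c ≤ 2 * n := by
  refine (card_le_univ _).trans ?_
  rw [Fintype.card_sum, Fintype.card_fin, two_mul]

theorem DD.PV_le {H : ℕ} {η : ℝ} (h : D.toKd.Good E S d) (hb : D.Big E H η) (j : ℕ)
    (z : τ ⊕ Fin 3) : D.PV E j z ≤ n := by
  refine (sum_le_card_nsmul _ _ n fun y _ => (DD.vec_le h y z).trans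
    ((card_le_univ _).trans (Fintype.card_fin n).le)).trans ?_
  refine mul_le_of_le_one_left' (card_le_one.2 fun y hy y' hy' => ?_)
  rw [mem_filter] at hy hy'
  exact hb.idxI y hy.1 y' hy'.1 (hy.2.trans hy'.2.symm)

theorem DD.PV_zero {H : ℕ} {η : ℝ} (hb : D.Big E H η) {j : ℕ} (hj : H ≤ j) (z : τ ⊕ Fin 3) :
    D.PV E j z = 0 := by
  refine sum_eq_zero fun y hy => ?_
  rw [mem_filter] at hy
  have := hb.idxH y hy.1
  omega

theorem DD.sum_PV {H : ℕ} {η : ℝ} (hb : D.Big E H η) (z : τ ⊕ Fin 3) :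
    ∑ j ∈ range H, D.PV E j z = ∑ y ∈ D.PY, D.vec E y z :=
  sum_fiberwise_of_maps_to (fun y hy => mem_range.2 (hb.idxH y hy)) _

theorem DD.sum_N [Fintype τ] (D : DD n τ) (g : τ → ℕ) :
    ∑ c, D.N c * g c = ∑ K ∈ D.KS, g (D.ty K) := by
  rw [← sum_fiberwise D.KS D.ty]
  refine sum_congr rfl fun c _ => ?_
  rw [DD.N, ← smul_eq_mul, ← sum_const]
  exact sum_congr rfl fun K hK => by rw [(mem_filter.1 hK).2]


section
variable {ι : Type} [DecidableEq ι] {E : ι → Gr n} {Hs : Finset ι} {D : ι → DD n τ}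

theorem oneB_SX {Hs : Finset ι} {D : ι → DD n τ} {k : ℕ} {p : It ι n} :
    p ∈ SX Hs D k ↔ p.1 ∈ Hs ∧ (D p.1).kX p.2 = k := by simp [SX, mem_its, Kd.mem_sX]
theorem oneB_SY {Hs : Finset ι} {D : ι → DD n τ} {k : ℕ} {p : It ι n} :
    p ∈ SY Hs D k ↔ p.1 ∈ Hs ∧ (D p.1).kY p.2 = k := by simp [SY, mem_its, Kd.mem_sY]

theorem NF_eq (h : ∀ i ∈ Hs, (D i).toKd.Good (E i) S d) :
    NF E Hs = SY Hs D 0 ∪ SY Hs D 3 ∪ SY Hs D 1 := by
  ext q
  simp only [mem_NF, mem_union, oneB_SY]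
  by_cases hq : q.1 ∈ Hs
  · have h1 := (h _ hq).fil q.2
    have h2 := (h _ hq).kY3 q.2
    simp only [hq, true_and]
    omega
  · simp [hq]

theorem full_eq (h : ∀ i ∈ Hs, (D i).toKd.Good (E i) S d) :
    full n Hs = SX Hs D 0 ∪ SX Hs D 1 ∪ SX Hs D 2 ∪ SX Hs D 4 ∪ SX Hs D 3 := by
  ext q
  simp only [mem_full, mem_union, oneB_SX]
  by_cases hq : q.1 ∈ Hs
  · have h2 := (h _ hq).kX4 q.2
    simp only [hq, true_and, true_iff]
    omega
  · simp [hq]

theorem disjoint_SX (Hs : Finset ι) (D : ι → DD n τ) {k k' : ℕ} (h : k ≠ k') :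
    Disjoint (SX Hs D k) (SX Hs D k') :=
  disjoint_left.2 fun _ hp hp' => h ((oneB_SX.1 hp).2.symm.trans (oneB_SX.1 hp').2)

theorem disjoint_SY (Hs : Finset ι) (D : ι → DD n τ) {k k' : ℕ} (h : k ≠ k') :
    Disjoint (SY Hs D k) (SY Hs D k') :=
  disjoint_left.2 fun _ hp hp' => h ((oneB_SY.1 hp).2.symm.trans (oneB_SY.1 hp').2)

theorem disjoint_full_its {Gs : Finset ι} (h : Disjoint Hs Gs) (F : ι → Finset (Fin n)) :
    Disjoint (full n Gs) (its Hs F) :=
  disjoint_left.2 fun _ hp hp' => disjoint_left.1 h (mem_its.1 hp').1 (mem_full.1 hp)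

theorem full_union (I I' : Finset ι) : full n (I ∪ I') = full n I ∪ full n I' := by
  ext q
  simp only [mem_full, mem_union]

theorem Gst.congr {A : Type} [DecidableEq A] {γ : ℝ} {Gs : Finset ι} {σ σ' : It ι n → A}
    {ψ ψ' : It ι n → ι} (h : Gst E γ Hs Gs σ ψ) (hX : ∀ p ∈ full n Gs, σ' p = σ p)
    (hY : ∀ q ∈ full n Gs, ψ' q = ψ q) : Gst E γ Hs Gs σ' ψ' := by
  have h1 : ∀ a, fib (full n Gs) σ' a = fib (full n Gs) σ a := fun a =>
    filter_congr fun p hp => by rw [hX p hp]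
  have h2 : ∀ r, fib (full n Gs) ψ' r = fib (full n Gs) ψ r := fun r =>
    filter_congr fun p hp => by rw [hY p hp]
  refine ⟨fun q hq => hY q hq ▸ h.rows q hq, fun a => ?_, fun r hr => ?_⟩
  · rw [colL, h1]; exact h.col a
  · rw [rowL, h2]; exact h.row r hr


end

end Pool.Agent.MP_4c107d_co.H78

end

section

/-!
Consequences of the standing assumptions.
-/

set_option autoImplicit false
set_option linter.unusedSectionVars false
set_option exponentiation.threshold 400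

namespace Pool.Agent.MP_4c107d_co.H78

open Finset

theorem exists_tab (S : ℕ) : ∃ (M : ℕ) (B : Tab (Fin M)), B.Univ S := by
  let τ := Fin (S + 1) × (Fin (S + 1) → Fin (S + 1)) × (Fin (S + 1) → Fin (S + 1)) ×
    (Fin (S + 1) → Fin (S + 1))
  let ev : (Fin (S + 1) → Fin (S + 1)) → ℕ → ℕ := fun f j =>
    if h : j < S + 1 then (f ⟨j, h⟩).val else 0
  let mk : (ℕ → ℕ) → Fin (S + 1) → Fin (S + 1) := fun g j =>
    if h : g j.val < S + 1 then ⟨g j.val, h⟩ else 0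
  have hev : ∀ (g : ℕ → ℕ) (j : ℕ), j ≤ S → g j ≤ S → ev (mk g) j = g j := by
    intro g j h1 h2
    simp only [ev, mk, dif_pos (Nat.lt_succ_of_le h1), dif_pos (Nat.lt_succ_of_le h2)]
  let φ := (Fintype.equivFin τ).symm
  refine ⟨Fintype.card τ, ⟨fun c => (φ c).1.val, fun c => ev (φ c).2.1, fun c => ev (φ c).2.2.1,
    fun c => ev (φ c).2.2.2⟩, fun c => Nat.le_of_lt_succ (φ c).1.2, fun c j => ?_, ?_⟩
  · simp only [ev]
    split_ifs
    · exact Nat.le_of_lt_succ (Fin.is_lt _)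
    · exact Nat.zero_le _
  · intro e he px py lt h1 h2
    refine ⟨φ.symm (⟨e, Nat.lt_succ_of_le he⟩, mk px, mk py, mk lt), ?_, fun s hs => ?_,
      fun j hj => ?_⟩
    · simp only [Equiv.apply_symm_apply]
    · simp only [Equiv.apply_symm_apply]
      exact ⟨hev _ _ (by omega) (h1 s hs).1, hev _ _ (by omega) (h1 s hs).2⟩
    · simp only [Equiv.apply_symm_apply]
      exact hev _ _ hj (h2 j hj)

theorem oneN_small {a : ℝ} (ha : 0 < a) : ∃ x : ℝ, 0 < x ∧ a * x ≤ 1 :=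
  ⟨1 / a, by positivity, by rw [mul_one_div_cancel ha.ne']⟩

theorem oneN_big {x : ℝ} (hx : 0 < x) (b : ℝ) : ∃ N : ℕ, b ≤ x * N := by
  obtain ⟨N, hN⟩ := exists_nat_ge (b / x)
  exact ⟨N, by rwa [div_le_iff₀' hx] at hN⟩

theorem exists_par (M S : ℕ) (hS : 10 ^ 120 ≤ S) : ∃ P : Par, P.Good M S := by
  obtain ⟨e1, h0, h1⟩ := oneN_small (a := 10 ^ 61 * ((M : ℝ) + 1) * ((S : ℝ) + 1) ^ 2)
    (by positivity)
  obtain ⟨R, hR⟩ := oneN_big h0 100
  obtain ⟨η', h2, h3⟩ := oneN_small (a := 100 * (2 * (R : ℝ) + 1) ^ (M + 3)) (by positivity)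
  obtain ⟨H, hH⟩ := oneN_big (mul_pos h2 h0) 10
  obtain ⟨r', h4, h5⟩ := oneN_small (a := 10 * ((H : ℝ) + 1)) (by positivity)
  obtain ⟨g2, h6, h7⟩ := oneN_small (a := 10 ^ 20 * ((H : ℝ) + 1)) (by positivity)
  obtain ⟨g3, h8, h9⟩ := oneN_small (a := 10 ^ 18 * ((S : ℝ) + 1) * (S.factorial : ℝ))
    (by positivity)
  obtain ⟨γ, g0, ga, gb, gc⟩ : ∃ γ : ℝ, 0 < γ ∧ γ ≤ e1 / 10 ∧ γ ≤ g2 ∧ γ ≤ g3 :=
    ⟨min (e1 / 10) (min g2 g3), by positivity, min_le_left _ _,
      (min_le_right _ _).trans (min_le_left _ _), (min_le_right _ _).trans (min_le_right _ _)⟩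
  obtain ⟨K, hK⟩ := oneN_big g0 100
  refine ⟨⟨e1, η' * e1, r' * e1, γ, R, H, K⟩, hS, h0, h1, hR, mul_pos h2 h0, ?_, hH, mul_pos h4 h0,
    ?_, g0, by dsimp only; linarith, ?_, ?_, hK⟩
  · dsimp only
    rw [← mul_assoc]
    exact mul_le_of_le_one_left h0.le h3
  · dsimp only
    rw [← mul_assoc]
    exact mul_le_of_le_one_left h0.le (by nlinarith)
  · exact (mul_le_mul_of_nonneg_left gb (by positivity)).trans h7
  · exact (mul_le_mul_of_nonneg_left gc (by positivity)).trans h9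

/-- rounding of profiles -/
theorem profile (κ : Type) [Fintype κ] {ε : ℝ} (hε : 0 < ε) :
    ∃ Mp : ℕ, ∀ (ι : Type) (n : ℕ) (v : ι → κ → ℕ), 0 < n → (∀ i z, v i z ≤ 2 * n) →
      ∃ pr : ι → Fin Mp, ∀ i i', pr i = pr i' → ∀ z, (v i z : ℝ) ≤ v i' z + ε * n := by
  classical
  refine ⟨Fintype.card (κ → Fin (⌊2 / ε⌋₊ + 1)), fun ι n v hn hv => ?_⟩
  have hn' : (0 : ℝ) < n := by exact_mod_cast hn
  have hεn : 0 < ε * n := mul_pos hε hn'
  have hb : ∀ i z, ⌊(v i z : ℝ) / (ε * n)⌋₊ < ⌊2 / ε⌋₊ + 1 := by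
    intro i z
    refine Nat.lt_succ_of_le (Nat.floor_mono ?_)
    have : (v i z : ℝ) ≤ 2 * n := by exact_mod_cast hv i z
    rw [div_le_div_iff₀ hεn hε]
    nlinarith
  refine ⟨fun i => Fintype.equivFin _ fun z => ⟨_, hb i z⟩, fun i i' h z => ?_⟩
  have h1 := congrArg Fin.val (congrFun ((Fintype.equivFin _).injective h) z)
  simp only at h1
  have h2 := Nat.lt_floor_add_one ((v i z : ℝ) / (ε * n))
  have h3 := Nat.floor_le (a := (v i' z : ℝ) / (ε * n)) (by positivity)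
  rw [h1] at h2
  rw [div_lt_iff₀ hεn] at h2
  rw [le_div_iff₀ hεn] at h3
  nlinarith

section Num
variable {P : Par} {M S : ℕ}

theorem Par.Good.e1_le (h : P.Good M S) : P.e1 ≤ 1 / 10 ^ 300 := by
  have h1 := h.he1
  have h0 := h.e1pos
  have hS : (10 : ℝ) ^ 120 ≤ S := by exact_mod_cast h.hS
  have hM : (1 : ℝ) ≤ (M : ℝ) + 1 := by linarith [Nat.cast_nonneg (α := ℝ) M]
  have h2 : ((10 : ℝ) ^ 120) ^ 2 ≤ ((S : ℝ) + 1) ^ 2 := by gcongr; linarith
  have h3 : (10 : ℝ) ^ 61 * 1 * ((10 : ℝ) ^ 120) ^ 2 ≤ 10 ^ 61 * ((M : ℝ) + 1) * ((S : ℝ) + 1) ^ 2 := by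
    gcongr
  have h4 := mul_le_mul_of_nonneg_right h3 h0.le
  rw [le_div_iff₀ (by positivity)]
  linarith
theorem Par.Good.γ_le (h : P.Good M S) : P.γ ≤ 1 / 10 ^ 300 := by
  linarith [h.e1_le, h.hγ1, h.γpos]
theorem Par.Good.η_le (h : P.Good M S) : P.η ≤ 1 / 10 ^ 300 := by
  have h1 := h.hη
  have h2 : (1 : ℝ) ≤ (2 * (P.R : ℝ) + 1) ^ (M + 3) :=
    one_le_pow₀ (by linarith [Nat.cast_nonneg (α := ℝ) P.R])
  have h3 := mul_le_mul_of_nonneg_right h2 h.ηpos.le
  linarith [h.e1_le, h.ηpos]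
theorem Par.Good.R_pos (h : P.Good M S) : 0 < P.R := by
  rcases Nat.eq_zero_or_pos P.R with h0 | h0
  · have := h.hR
    rw [h0] at this
    norm_num at this
  · exact h0
theorem Par.Good.H_pos (h : P.Good M S) : 0 < P.H := by
  rcases Nat.eq_zero_or_pos P.H with h0 | h0
  · have := h.hH
    rw [h0] at this
    norm_num at this
  · exact h0
theorem Par.Good.ηr_le (h : P.Good M S) : 10 * P.ηr ≤ P.e1 := by
  have h1 : (1 : ℝ) ≤ P.H := by exact_mod_cast h.H_pos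
  nlinarith [h.hηr, h.ηrpos]
theorem Par.Good.K_ge (h : P.Good M S) : 10 ^ 300 ≤ P.K := by
  have h1 := mul_le_mul_of_nonneg_right h.γ_le (Nat.cast_nonneg (α := ℝ) P.K)
  have h2 : (10 : ℝ) ^ 300 ≤ P.K := by linarith [h.hK]
  exact_mod_cast h2
theorem Par.Good.e1_le' (h : P.Good M S) : P.e1 ≤ 1 / 10 ^ 200 := h.e1_le.trans (by norm_num)
theorem Par.Good.γ_le' (h : P.Good M S) : P.γ ≤ 1 / 10 ^ 200 := h.γ_le.trans (by norm_num)
theorem Par.Good.η_le' (h : P.Good M S) : P.η ≤ 1 / 10 ^ 200 := h.η_le.trans (by norm_num)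
theorem Par.Good.K_ge' (h : P.Good M S) : 10 ^ 200 ≤ P.K := le_trans (by norm_num) h.K_ge

end Num

variable {ι A τ : Type} [DecidableEq ι] [DecidableEq A] [Fintype A] [DecidableEq τ] [Fintype τ]
  {n S d : ℕ} {E : ι → Gr n} {B : Tab τ} {P : Par} {Hs Gs : Finset ι} {D : ι → DD n τ}

theorem One.γn (h : One A E B S d P Hs Gs D) : 10 ^ 4 ≤ P.γ * n := by
  have h0 := h.par.γpos
  have h1 : P.γ ≤ 1 := h.par.γ_le'.trans (by norm_num)
  have h2 : P.γ ^ 4 ≤ P.γ := by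
    calc P.γ ^ 4 ≤ P.γ ^ 1 := pow_le_pow_of_le_one h0.le h1 (by norm_num)
      _ = P.γ := pow_one _
  exact h.hn.trans (mul_le_mul_of_nonneg_right h2 (Nat.cast_nonneg _))
theorem One.n_ge (h : One A E B S d P Hs Gs D) : 10 ^ 300 ≤ n := by
  have h1 := mul_le_mul_of_nonneg_right h.par.γ_le (Nat.cast_nonneg (α := ℝ) n)
  have h2 : (10 : ℝ) ^ 300 ≤ n := by linarith [h.γn]
  exact_mod_cast h2
theorem One.S_le (h : One A E B S d P Hs Gs D) : S ≤ n := by
  have h0 := h.par.γpos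
  have h1 := h.par.hγ3
  have h2 : (1 : ℝ) ≤ S.factorial := by exact_mod_cast S.factorial_pos
  have hS : (0 : ℝ) ≤ S := Nat.cast_nonneg _
  have h3 : (S : ℝ) * P.γ ≤ 1 := by
    nlinarith [mul_le_mul_of_nonneg_left h2 (by positivity : 0 ≤ ((S : ℝ) + 1) * P.γ)]
  have h4 : (S : ℝ) ≤ n := by
    by_contra hc
    have := mul_lt_mul_of_pos_left (not_le.1 hc) h0
    linarith [h.γn]
  exact_mod_cast h4
theorem One.k_ge (h : One A E B S d P Hs Gs D) : 10 ^ 300 * n ≤ Hs.card :=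
  (Nat.mul_le_mul_right _ h.par.K_ge).trans h.hk
theorem One.γk (h : One A E B S d P Hs Gs D) : 100 * (n : ℝ) ≤ P.γ * Hs.card := by
  have h1 : (P.K : ℝ) * n ≤ Hs.card := by exact_mod_cast h.hk
  nlinarith [mul_le_mul_of_nonneg_left h1 h.par.γpos.le,
    mul_le_mul_of_nonneg_right h.par.hK (Nat.cast_nonneg (α := ℝ) n)]
theorem One.e1k (h : One A E B S d P Hs Gs D) : 1000 * (n : ℝ) ≤ P.e1 * Hs.card := by
  linarith [h.γk, mul_le_mul_of_nonneg_right h.par.hγ1 (Nat.cast_nonneg (α := ℝ) Hs.card)]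
theorem One.e1n (h : One A E B S d P Hs Gs D) : 10 ^ 5 ≤ P.e1 * n := by
  linarith [h.γn, mul_le_mul_of_nonneg_right h.par.hγ1 (Nat.cast_nonneg (α := ℝ) n)]
theorem One.J_le (h : One A E B S d P Hs Gs D) : 10 ^ 300 * Gs.card ≤ Hs.card := by
  have h0 := h.par.γpos
  have h1 : P.γ ^ 3 ≤ (1 / 10 ^ 100) ^ 3 := by
    gcongr
    exact h.par.γ_le'.trans (by norm_num)
  have h2 := mul_le_mul_of_nonneg_right h1 (Nat.cast_nonneg (α := ℝ) Hs.card)
  have h3 : (10 : ℝ) ^ 300 * Gs.card ≤ Hs.card := by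
    linarith [h.hJ2, Nat.cast_nonneg (α := ℝ) Gs.card]
  exact_mod_cast h3
theorem One.Mk (h : One A E B S d P Hs Gs D) :
    10 ^ 60 * (Fintype.card τ + 1) * n ≤ Hs.card := by
  have h0 := h.par.e1pos
  have h1 := h.par.he1
  have h2 : (1 : ℝ) ≤ ((S : ℝ) + 1) ^ 2 := one_le_pow₀ (by linarith [Nat.cast_nonneg (α := ℝ) S])
  have hM : (0 : ℝ) ≤ (Fintype.card τ : ℝ) + 1 := by positivity
  have h3 : 10 ^ 60 * ((Fintype.card τ : ℝ) + 1) * P.e1 ≤ 1 := by
    nlinarith [mul_le_mul_of_nonneg_left h2 (mul_nonneg hM h0.le), mul_nonneg hM h0.le]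
  have h4 := mul_le_mul_of_nonneg_right h3 (Nat.cast_nonneg (α := ℝ) Hs.card)
  have h5 := mul_le_mul_of_nonneg_left h.e1k (by positivity : 0 ≤ 10 ^ 60 * ((Fintype.card τ : ℝ) + 1))
  have h6 : 10 ^ 60 * ((Fintype.card τ : ℝ) + 1) * n ≤ Hs.card := by
    nlinarith [mul_nonneg hM (Nat.cast_nonneg (α := ℝ) n)]
  exact_mod_cast h6
theorem One.H_le (h : One A E B S d P Hs Gs D) : 10 ^ 80 * (P.H + 1) ^ 4 ≤ n := by
  have h0 := h.par.γpos
  have h1 : (10 ^ 20 * ((P.H : ℝ) + 1) * P.γ) ^ 4 ≤ 1 := pow_le_one₀ (by positivity) h.par.hγ2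
  have h2 := mul_le_mul_of_nonneg_right h1 (Nat.cast_nonneg (α := ℝ) n)
  have h3 := mul_le_mul_of_nonneg_left h.hn (by positivity : 0 ≤ 10 ^ 80 * ((P.H : ℝ) + 1) ^ 4)
  have h4 : 10 ^ 80 * ((P.H : ℝ) + 1) ^ 4 ≤ n := by
    have e : (10 ^ 20 * ((P.H : ℝ) + 1) * P.γ) ^ 4 * n
        = 10 ^ 80 * ((P.H : ℝ) + 1) ^ 4 * (P.γ ^ 4 * n) := by ring
    have : (0 : ℝ) ≤ 10 ^ 80 * ((P.H : ℝ) + 1) ^ 4 := by positivity
    linarith
  exact_mod_cast h4
theorem One.fact_le (h : One A E B S d P Hs Gs D) : 10 ^ 20 * S.factorial * n ≤ Hs.card := by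
  have h0 := h.par.γpos
  have h1 := h.par.hγ3
  have hS : (0 : ℝ) ≤ S := Nat.cast_nonneg _
  have hF : (0 : ℝ) ≤ S.factorial := Nat.cast_nonneg _
  have h3 : 10 ^ 18 * (S.factorial : ℝ) * P.γ ≤ 1 := by
    nlinarith [mul_nonneg hS (mul_nonneg hF h0.le)]
  have h4 := mul_le_mul_of_nonneg_right h3 (Nat.cast_nonneg (α := ℝ) Hs.card)
  have h5 := mul_le_mul_of_nonneg_left h.γk (by positivity : 0 ≤ 10 ^ 18 * (S.factorial : ℝ))
  have h6 : 10 ^ 20 * (S.factorial : ℝ) * n ≤ Hs.card := by nlinarith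
  exact_mod_cast h6
theorem One.n_ge' (h : One A E B S d P Hs Gs D) : 10 ^ 200 ≤ n := le_trans (by norm_num) h.n_ge
theorem One.k_ge' (h : One A E B S d P Hs Gs D) : 10 ^ 200 * n ≤ Hs.card :=
  (Nat.mul_le_mul_right _ h.par.K_ge').trans h.hk
theorem One.J_le' (h : One A E B S d P Hs Gs D) : 10 ^ 200 * Gs.card ≤ Hs.card :=
  (Nat.mul_le_mul_right _ (by norm_num)).trans h.J_le

end Pool.Agent.MP_4c107d_co.H78

end

end

-- part MP_4c107d_co.H78.I
section

section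

/-!
Cutting a rooted tree into small pieces (abstract part).
-/

set_option autoImplicit false
set_option linter.unusedSectionVars false

namespace Pool.Agent.MP_4c107d_co.H78

open Finset

/-- recursion along a well-founded relation. Proof idea: `WellFounded.fix`. -/
theorem exists_rec {V α : Type} [Nonempty α] (r : V → V → Prop) (hr : WellFounded r)
    (G : V → (V → α) → α) (hG : ∀ v f g, (∀ w, r w v → f w = g w) → G v f = G v g) :
    ∃ f : V → α, ∀ v, f v = G v f := by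
  classical
  let F : ∀ v : V, (∀ w, r w v → α) → α := fun v ih =>
    G v fun w => if h : r w v then ih w h else Classical.arbitrary α
  refine ⟨hr.fix F, fun v => ?_⟩
  rw [hr.fix_eq F v]
  exact hG v _ _ fun w hw => dif_pos hw

variable {V : Type} [Fintype V] [DecidableEq V]

theorem kdA_wf (par : V → V) (rt : V) (rk : V → ℕ) (h : ∀ v, v ≠ rt → rk (par v) < rk v) :
    WellFounded fun w v : V => w ≠ rt ∧ par w = v := by
  refine Subrelation.wf (r := InvImage (· < ·) fun v => univ.sup rk - rk v) ?_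
    (InvImage.wf _ wellFounded_lt)
  rintro w v ⟨h1, rfl⟩
  have h2 := h w h1
  have h3 : rk w ≤ univ.sup rk := le_sup (mem_univ w)
  change univ.sup rk - rk w < univ.sup rk - rk (par w)
  omega

theorem kdA_sum (par : V → V) (sd : Finset V) (s : V → ℕ)
    (hs : ∀ v, s v = 1 + ∑ u, if u ∉ sd ∧ par u = v then s u else 0) (C : Finset V) :
    ∑ v ∈ C, s v = C.card + ∑ u ∈ univ.filter (fun u => u ∉ sd ∧ par u ∈ C), s u := by
  rw [sum_congr rfl fun v _ => hs v, sum_add_distrib, sum_comm, sum_filter]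
  congr 1
  · simp
  · refine sum_congr rfl fun u _ => ?_
    by_cases hu : u ∈ sd
    · simp [hu]
    · simp [hu]

/-- Proof idea. By `exists_rec` (children have larger rank, `V` is finite) there is `s` with `s v = 1 + ∑ s w` over the children `w ≠ rt` of `v` with `w ∉ F`, `s w ≤ S`. The seeds are `F`, `rt` and the `v` with `S < s v`.
Summing over all `v` gives `∑_{v ∈ sd} s v = #V`. `hd` by `exists_rec` (parents have smaller rank). For `C = {v ∉ sd | hd v = w}` nonempty, summing over `C` gives `s w = #C`, because the children outside `sd` of the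
elements of `C` are exactly the elements of `C.erase w`. -/
theorem sizes (par : V → V) (rt : V) (rk : V → ℕ) (h : ∀ v, v ≠ rt → rk (par v) < rk v)
    (F : Finset V) (S : ℕ) (hS : 1 ≤ S) :
    ∃ (sd : Finset V) (hd : V → V), F ⊆ sd ∧ rt ∈ sd ∧
      S * sd.card ≤ Fintype.card V + S * (F.card + 1) ∧
      (∀ v ∈ sd, v ∈ F ∨ v = rt ∨ ∃ w, w ≠ rt ∧ par w = v) ∧
      (∀ v, v ∉ sd → par v ∉ sd → hd v = hd (par v)) ∧
      ∀ w, (univ.filter fun v => v ∉ sd ∧ hd v = w).card ≤ S := by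
  classical
  have : Nonempty V := ⟨rt⟩
  obtain ⟨s, hs0⟩ := exists_rec (α := ℕ) _ (kdA_wf par rt rk h)
    (fun v f => 1 + ∑ u, if (u ≠ rt ∧ par u = v) ∧ u ∉ F ∧ f u ≤ S then f u else 0) (by
      intro v f g hfg
      congr 1
      refine sum_congr rfl fun u _ => ?_
      by_cases hu : u ≠ rt ∧ par u = v
      · rw [hfg u hu]
      · rw [if_neg fun hh => hu hh.1, if_neg fun hh => hu hh.1])
  obtain ⟨sd, hsd⟩ : ∃ sd : Finset V, ∀ v, v ∈ sd ↔ v ∈ F ∨ v = rt ∨ S < s v :=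
    ⟨univ.filter fun v => v ∈ F ∨ v = rt ∨ S < s v, fun v => by simp⟩
  have hs : ∀ v, s v = 1 + ∑ u, if u ∉ sd ∧ par u = v then s u else 0 := by
    intro v
    rw [hs0 v]
    congr 1
    refine sum_congr rfl fun u _ => if_congr ?_ rfl rfl
    rw [hsd u]
    constructor
    · rintro ⟨⟨h1, h2⟩, h3, h4⟩
      refine ⟨?_, h2⟩
      rintro (h5 | h5 | h5)
      · exact h3 h5
      · exact h1 h5
      · omega
    · rintro ⟨h1, h2⟩
      push Not at h1
      exact ⟨⟨h1.2.1, h2⟩, h1.1, h1.2.2⟩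
  have hrt : rt ∈ sd := (hsd rt).2 (Or.inr (Or.inl rfl))
  have hne : ∀ v, v ∉ sd → v ≠ rt := fun v hv e => hv (e ▸ hrt)
  obtain ⟨hd, hhd⟩ := exists_rec (α := V) (fun w v : V => rk w < rk v)
    (InvImage.wf rk wellFounded_lt)
    (fun v f => if v ∉ sd ∧ par v ∉ sd then f (par v) else v) (by
      intro v f g hfg
      by_cases hv : v ∉ sd ∧ par v ∉ sd
      · rw [if_pos hv, if_pos hv]
        exact hfg _ (h v (hne v hv.1))
      · rw [if_neg hv, if_neg hv])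
  have hup : ∀ v, v ∉ sd → par v ∉ sd → hd v = hd (par v) := fun v h1 h2 => by
    rw [hhd v, if_pos ⟨h1, h2⟩]
  have htop : ∀ v, par v ∈ sd → hd v = v := fun v h1 => by
    rw [hhd v, if_neg fun hh => hh.2 h1]
  have hhead : ∀ n v, rk v = n → v ∉ sd → hd v ∉ sd ∧ par (hd v) ∈ sd := by
    intro n
    induction n using Nat.strong_induction_on with
    | _ n ih =>
      intro v hv h1
      by_cases h2 : par v ∈ sd
      · rw [htop v h2]; exact ⟨h1, h2⟩
      · rw [hup v h1 h2]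
        exact ih _ (hv ▸ h v (hne v h1)) _ rfl h2
  refine ⟨sd, hd, fun v hv => (hsd v).2 (Or.inl hv), hrt, ?_, ?_, hup, ?_⟩
  · have h1 := kdA_sum par sd s hs univ
    have h2 : univ.filter (fun u => u ∉ sd ∧ par u ∈ (univ : Finset V)) = sdᶜ := by
      ext u; simp
    rw [h2, ← sum_add_sum_compl sd, card_univ] at h1
    have h3 : ∑ v ∈ sd, s v = Fintype.card V := by omega
    have h4 : sd ⊆ (sd.filter fun v => S < s v) ∪ insert rt F := by
      intro v hv
      rcases (hsd v).1 hv with h5 | h5 | h5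
      · exact mem_union_right _ (mem_insert_of_mem h5)
      · exact mem_union_right _ (h5 ▸ mem_insert_self _ _)
      · exact mem_union_left _ (mem_filter.2 ⟨hv, h5⟩)
    have h5 : sd.card ≤ (sd.filter fun v => S < s v).card + (F.card + 1) :=
      (card_le_card h4).trans ((card_union_le _ _).trans
        (Nat.add_le_add_left (card_insert_le _ _) _))
    have h6 : (sd.filter fun v => S < s v).card * S ≤ ∑ v ∈ sd.filter fun v => S < s v, s v := by
      rw [← smul_eq_mul]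
      exact card_nsmul_le_sum _ _ _ fun v hv => (mem_filter.1 hv).2.le
    have h7 : ∑ v ∈ sd.filter (fun v => S < s v), s v ≤ ∑ v ∈ sd, s v :=
      sum_le_sum_of_subset (filter_subset _ _)
    calc S * sd.card ≤ S * ((sd.filter fun v => S < s v).card + (F.card + 1)) :=
          Nat.mul_le_mul_left _ h5
      _ = (sd.filter fun v => S < s v).card * S + S * (F.card + 1) := by ring
      _ ≤ Fintype.card V + S * (F.card + 1) := by omega
  · intro v hv
    rcases (hsd v).1 hv with h1 | h1 | h1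
    · exact Or.inl h1
    · exact Or.inr (Or.inl h1)
    · refine Or.inr (Or.inr ?_)
      by_contra hno
      push Not at hno
      have h2 : (∑ u, if u ∉ sd ∧ par u = v then s u else 0) = 0 :=
        sum_eq_zero fun u _ => if_neg fun hh => hno u (hne u hh.1) hh.2
      have h3 := hs v
      omega
  · intro w
    obtain ⟨C, hC, hCe⟩ : ∃ C : Finset V, (∀ v, v ∈ C ↔ v ∉ sd ∧ hd v = w) ∧
        (univ.filter fun v => v ∉ sd ∧ hd v = w) = C := ⟨_, fun v => by simp, rfl⟩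
    rw [hCe]
    rcases C.eq_empty_or_nonempty with h0 | ⟨v, hv⟩
    · rw [h0]; simp
    obtain ⟨hv1, hv2⟩ := (hC v).1 hv
    obtain ⟨hw1, hw2⟩ := hhead _ v rfl hv1
    rw [hv2] at hw1 hw2
    have hwC : w ∈ C := (hC w).2 ⟨hw1, htop w hw2⟩
    have h1 := kdA_sum par sd s hs C
    have h2 : univ.filter (fun u => u ∉ sd ∧ par u ∈ C) = C.erase w := by
      ext u
      simp only [mem_filter, mem_univ, true_and, mem_erase, hC]
      constructor
      · rintro ⟨a1, a2, a3⟩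
        refine ⟨?_, a1, (hup u a1 a2).trans a3⟩
        rintro rfl
        exact a2 hw2
      · rintro ⟨a1, a2, a3⟩
        have a4 : par u ∉ sd := fun hh => a1 ((htop u hh).symm.trans a3)
        exact ⟨a2, a4, (hup u a2 a4).symm.trans a3⟩
    rw [h2, ← add_sum_erase C s hwC] at h1
    have h3 : ¬S < s w := fun hh => hw1 ((hsd w).2 (Or.inr (Or.inr hh)))
    omega

/-- Closing upwards until a vertex in `cut` is met. Proof idea. `exists_rec` for `mk : V → Prop`, `mk v ↔ v ∈ sd ∨ ∃ w ≠ rt, par w = v ∧ mk w ∧ (w ∈ sd ∨ w ∉ cut)`. The map `par` sends `ac` onto a superset of `mk \ sd`. -/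
theorem marks (par : V → V) (rt : V) (rk : V → ℕ) (h : ∀ v, v ≠ rt → rk (par v) < rk v)
    (sd cut : Finset V) :
    ∃ mk ac : Finset V, sd ⊆ ac ∧ (∀ v, v ∈ ac ↔ v ∈ mk ∧ (v ∈ sd ∨ v ∉ cut)) ∧
      (∀ w ∈ ac, w ≠ rt → par w ∈ mk) ∧
      (∀ v ∈ mk, v ∈ sd ∨ ∃ w ∈ ac, w ≠ rt ∧ par w = v) ∧ (mk \ ac).card ≤ sd.card := by
  classical
  obtain ⟨m, hm⟩ := exists_rec (α := Prop) _ (kdA_wf par rt rk h)
    (fun v f => v ∈ sd ∨ ∃ w, (w ≠ rt ∧ par w = v) ∧ f w ∧ (w ∈ sd ∨ w ∉ cut)) (by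
      intro v f g hfg
      refine propext (or_congr_right (exists_congr fun w => and_congr_right fun hw => ?_))
      rw [hfg w hw])
  obtain ⟨mk, hmk⟩ : ∃ mk : Finset V, ∀ v, v ∈ mk ↔ m v := ⟨univ.filter m, fun v => by simp⟩
  obtain ⟨ac, hac⟩ : ∃ ac : Finset V, ∀ v, v ∈ ac ↔ v ∈ mk ∧ (v ∈ sd ∨ v ∉ cut) :=
    ⟨mk.filter fun v => v ∈ sd ∨ v ∉ cut, fun v => mem_filter⟩
  have key : ∀ v, v ∈ mk ↔ v ∈ sd ∨ ∃ w ∈ ac, w ≠ rt ∧ par w = v := by
    intro v
    rw [hmk v, hm v]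
    refine or_congr_right (exists_congr fun w => ?_)
    rw [hac w, hmk w]
    exact and_comm
  refine ⟨mk, ac, fun v hv => (hac v).2 ⟨(key v).2 (Or.inl hv), Or.inl hv⟩, hac,
    fun w hw h1 => (key _).2 (Or.inr ⟨w, hw, h1, rfl⟩), fun v hv => (key v).1 hv, ?_⟩
  have h1 : ac ⊆ mk := fun v hv => ((hac v).1 hv).1
  have h2 : mk ⊆ sd ∪ ac.image par := by
    intro v hv
    rcases (key v).1 hv with h3 | ⟨w, hw, _, h3⟩
    · exact mem_union_left _ h3
    · exact mem_union_right _ (mem_image.2 ⟨w, hw, h3⟩)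
  have h3 : mk.card ≤ sd.card + ac.card :=
    (card_le_card h2).trans ((card_union_le _ _).trans (Nat.add_le_add_left card_image_le _))
  have h4 := card_sdiff_add_card_eq_card h1
  omega

end Pool.Agent.MP_4c107d_co.H78

end

section

/-!
Existence of the decomposition into kinds.
-/

set_option autoImplicit false
set_option linter.unusedSectionVars false

namespace Pool.Agent.MP_4c107d_co.H78

open Finset

/-- active and marked vertices, and the pieces -/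
theorem kdB_base {n S : ℕ} {E : Gr n} (h : Tr E) {T : RT n} (hT : T.Good E) (hS : 10 ^ 120 ≤ S)
    (hn : S ≤ n) {x1 : Fin n} (hx1 : dX E x1 = 1) (hr : x1 ≠ T.root) :
    ∃ (AX MX AY : Finset (Fin n)) (hd : Fin n ⊕ Fin n → Fin n ⊕ Fin n), AX ⊆ MX ∧ T.root ∈ AX ∧
      T.pX x1 ∈ AY ∧ (∀ x ∈ AX, x ≠ T.root → T.pX x ∈ AY) ∧ (∀ y ∈ AY, T.pY y ∈ MX) ∧ x1 ∉ MX ∧
      (∀ x ∈ MX, x ∉ AX → dX E x ≤ 10 ^ 37) ∧
      (∀ x, x ∉ AX → T.pX x ∉ AY → hd (Sum.inl x) = hd (Sum.inr (T.pX x))) ∧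
      (∀ y, y ∉ AY → T.pY y ∉ AX → hd (Sum.inr y) = hd (Sum.inl (T.pY y))) ∧
      (∀ w, (univ.filter fun x => x ∉ AX ∧ hd (Sum.inl x) = w).card +
        (univ.filter fun y => y ∉ AY ∧ hd (Sum.inr y) = w).card ≤ S) ∧
      10 ^ 36 * (AX.card + AY.card) ≤ n ∧ 10 ^ 119 * (MX \ AX).card ≤ n := by
  let par : Fin n ⊕ Fin n → Fin n ⊕ Fin n :=
    Sum.elim (fun x => Sum.inr (T.pX x)) (fun y => Sum.inl (T.pY y))
  have hrk : ∀ v, v ≠ Sum.inl T.root → Sum.elim T.rX T.rY (par v) < Sum.elim T.rX T.rY v := by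
    rintro (x | y) hv
    · exact hT.hX x fun e => hv (by rw [e])
    · exact hT.hY y
  obtain ⟨sd, hd, s1, s2, s3, s4, s5, s6⟩ := sizes par (Sum.inl T.root) (Sum.elim T.rX T.rY) hrk
    {Sum.inr (T.pX x1)} S (le_trans (by norm_num) hS)
  obtain ⟨mk, ac, m1, m2, m3, m4, m5⟩ := marks par (Sum.inl T.root) (Sum.elim T.rX T.rY) hrk sd
    ((univ.filter fun x => dX E x ≤ 10 ^ 37).disjSum ∅)
  have hsd : 10 ^ 120 * sd.card ≤ 4 * n := by
    simp only [Fintype.card_sum, Fintype.card_fin, card_singleton] at s3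
    have := Nat.mul_le_mul_right sd.card hS
    omega
  have hY : ∀ y, Sum.inr y ∈ mk → Sum.inr y ∈ ac := fun y hy => (m2 _).2 ⟨hy, Or.inr (by simp)⟩
  have hac : ∀ v ∈ ac, v ∈ mk := fun v hv => ((m2 v).1 hv).1
  have hns : ∀ v, v ∉ ac → v ∉ sd := fun v hv hs => hv (m1 hs)
  have hAX : 10 ^ 37 * ac.toLeft.card ≤ 10 ^ 37 * sd.toLeft.card + 2 * n := by
    have h1 : ac.toLeft ⊆ sd.toLeft ∪ univ.filter fun x => ((10 : ℝ) ^ 37) ≤ (dX E x : ℝ) := by
      intro x hx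
      rcases ((m2 _).1 (mem_toLeft.1 hx)).2 with a | a
      · exact mem_union_left _ (mem_toLeft.2 a)
      · refine mem_union_right _ (mem_filter.2 ⟨mem_univ _, ?_⟩)
        have : ¬ dX E x ≤ 10 ^ 37 := by simpa using a
        exact_mod_cast (not_le.1 this).le
    have h2 := (card_le_card h1).trans (card_union_le _ _)
    have h3 := h.card_heavyX (by omega) (t := (10 : ℝ) ^ 37) (by positivity)
    have h4 : (univ.filter fun x => ((10 : ℝ) ^ 37) ≤ (dX E x : ℝ)).card * 10 ^ 37 ≤ 2 * n := by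
      exact_mod_cast h3
    omega
  have hAY : ac.toRight.card ≤ sd.toRight.card + ac.toLeft.card := by
    have h1 : ac.toRight ⊆ sd.toRight ∪ ac.toLeft.image T.pX := by
      intro y hy
      rcases m4 _ (hac _ (mem_toRight.1 hy)) with a | ⟨w, a, -, c⟩
      · exact mem_union_left _ (mem_toRight.2 a)
      · rcases w with x | y'
        · exact mem_union_right _ (mem_image.2 ⟨x, mem_toLeft.2 a, Sum.inr.inj c⟩)
        · exact absurd c (by simp [par])
    exact (card_le_card h1).trans ((card_union_le _ _).trans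
      (Nat.add_le_add_left card_image_le _))
  have hl : sd.toLeft.card ≤ sd.card := card_toLeft_le
  have hr' : sd.toRight.card ≤ sd.card := card_toRight_le
  refine ⟨ac.toLeft, mk.toLeft, ac.toRight, hd, fun x hx => mem_toLeft.2 (hac _ (mem_toLeft.1 hx)),
    mem_toLeft.2 (m1 s2), mem_toRight.2 (m1 (s1 (mem_singleton_self _))), fun x hx hx' => ?_,
    fun y hy => ?_, fun hx => ?_, fun x hx hx' => ?_, fun x hx hx' => ?_, fun y hy hy' => ?_,
    fun w => ?_, by omega, ?_⟩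
  · exact mem_toRight.2 (hY _ (m3 _ (mem_toLeft.1 hx) fun e => hx' (Sum.inl.inj e)))
  · exact mem_toLeft.2 (m3 _ (mem_toRight.1 hy) (by simp))
  · have hc : ∀ w, par w ≠ Sum.inl x1 := by
      rintro (x | y) e
      · exact absurd e (by simp [par])
      · have h1 := hT.dX_eq hr
        have h2 : 0 < (T.cX x1).card := card_pos.2 ⟨y, RT.mem_cX.2 (Sum.inl.inj e)⟩
        omega
    rcases m4 _ (mem_toLeft.1 hx) with a | ⟨w, -, -, c⟩
    · rcases s4 _ a with b | b | ⟨w, -, c⟩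
      · simp at b
      · exact hr (Sum.inl.inj b)
      · exact hc w c
    · exact hc w c
  · by_contra hc
    exact hx' (mem_toLeft.2 ((m2 _).2 ⟨mem_toLeft.1 hx, Or.inr (by simpa using hc)⟩))
  · exact s5 _ (hns _ fun a => hx (mem_toLeft.2 a)) (hns _ fun a => hx' (mem_toRight.2 a))
  · exact s5 _ (hns _ fun a => hy (mem_toRight.2 a)) (hns _ fun a => hy' (mem_toLeft.2 a))
  · rw [← card_disjSum]
    refine le_trans (card_le_card ?_) (s6 w)
    rintro (x | y) hv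
    · have := (mem_filter.1 (inl_mem_disjSum.1 hv)).2
      exact mem_filter.2 ⟨mem_univ _, hns _ fun a => this.1 (mem_toLeft.2 a), this.2⟩
    · have := (mem_filter.1 (inr_mem_disjSum.1 hv)).2
      exact mem_filter.2 ⟨mem_univ _, hns _ fun a => this.1 (mem_toRight.2 a), this.2⟩
  · have h1 : (mk.toLeft \ ac.toLeft).card ≤ (mk \ ac).card := by
      rw [← toLeft_sdiff]; exact card_toLeft_le
    omega

/-- the kinds of the column vertices -/
theorem kdB_kX {n : ℕ} {AX MX Fx : Finset (Fin n)} {x1 : Fin n} (h1 : AX ⊆ MX) (h2 : x1 ∉ MX)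
    (h3 : ∀ x ∈ Fx, x ∉ MX ∧ x ≠ x1) :
    ∃ kX : Fin n → ℕ, (∀ x, kX x ≤ 4) ∧ (∀ x, kX x = 0 ↔ x ∈ AX) ∧ (∀ x, kX x = 1 → x ∉ MX) ∧
      (∀ x, kX x = 2 ↔ x ∈ MX ∧ x ∉ AX) ∧ (∀ x, kX x = 3 ↔ x ∈ Fx) ∧ ∀ x, kX x = 4 ↔ x = x1 := by
  refine ⟨fun x => if x ∈ AX then 0 else if x ∈ MX then 2 else if x = x1 then 4 else
    if x ∈ Fx then 3 else 1, fun x => ?_, fun x => ?_, fun x => ?_, fun x => ?_, fun x => ?_,
    fun x => ?_⟩
  · simp only; split_ifs <;> omega
  · simp only; split_ifs <;> simp_all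
  · simp only; split_ifs <;> simp_all
  · simp only; split_ifs <;> simp_all
  · have a := h3 x
    have b := @h1 x
    simp only; split_ifs <;> simp_all
  · refine ⟨fun e => ?_, fun e => ?_⟩
    · by_contra c
      simp only [c, if_false] at e
      split_ifs at e <;> omega
    · subst e
      have a : x ∉ AX := fun a => h2 (h1 a)
      simp [h2, a]

/-- the kinds of the row vertices -/
theorem kdB_kY {n : ℕ} (AY : Finset (Fin n)) (dg k : Fin n → ℕ) :
    ∃ kY : Fin n → ℕ, (∀ y, kY y ≤ 3) ∧ (∀ y, kY y = 2 ↔ dg y = 1) ∧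
      (∀ y, kY y = 0 ↔ dg y ≠ 1 ∧ (y ∈ AY ∨ 2 ≤ k y)) ∧
      (∀ y, kY y = 1 ↔ dg y ≠ 1 ∧ y ∉ AY ∧ k y = 1) ∧
      ∀ y, kY y = 3 ↔ dg y ≠ 1 ∧ y ∉ AY ∧ k y = 0 := by
  refine ⟨fun y => if dg y = 1 then 2 else if y ∈ AY ∨ 2 ≤ k y then 0 else if k y = 0 then 3 else 1,
    fun y => ?_, fun y => ?_, fun y => ?_, fun y => ?_, fun y => ?_⟩
  · simp only; split_ifs <;> omega
  · simp only; split_ifs <;> simp_all
  · simp only; split_ifs <;> simp_all
  · simp only
    split_ifs with c1 c2 c3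
    · simp [c1]
    · exact ⟨fun e => absurd e (by norm_num), fun e => c2.elim (fun a => absurd a e.2.1) (by omega)⟩
    · exact ⟨fun e => absurd e (by norm_num), fun e => by omega⟩
    · exact ⟨fun _ => ⟨c1, fun a => c2 (Or.inl a), by omega⟩, fun _ => rfl⟩
  · simp only
    split_ifs with c1 c2 c3
    · simp [c1]
    · exact ⟨fun e => absurd e (by norm_num), fun e => c2.elim (fun a => absurd a e.2.1) (by omega)⟩
    · exact ⟨fun _ => ⟨c1, fun a => c2 (Or.inl a), c3⟩, fun _ => rfl⟩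
    · exact ⟨fun e => absurd e (by norm_num), fun e => by omega⟩

/-- the names of the components -/
theorem kdB_hV {n : ℕ} {E : Gr n} {T : RT n} (hT : T.Good E) (kY : Fin n → ℕ) :
    ∃ hV : Fin n ⊕ Fin n → Fin n ⊕ Fin n,
      (∀ x, x ≠ T.root → hV (Sum.inl x) =
        if kY (T.pX x) = 0 then Sum.inl x else hV (Sum.inr (T.pX x))) ∧
      ∀ y, hV (Sum.inr y) = if kY y = 3 then Sum.inr y else hV (Sum.inl (T.pY y)) := by
  have : Nonempty (Fin n ⊕ Fin n) := ⟨Sum.inl T.root⟩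
  obtain ⟨f, hf⟩ := exists_rec (V := Fin n ⊕ Fin n) (α := Fin n ⊕ Fin n)
    (fun w v => Sum.elim T.rX T.rY w < Sum.elim T.rX T.rY v) (InvImage.wf _ wellFounded_lt)
    (fun v f => Sum.elim
      (fun x => if x = T.root ∨ kY (T.pX x) = 0 then Sum.inl x else f (Sum.inr (T.pX x)))
      (fun y => if kY y = 3 then Sum.inr y else f (Sum.inl (T.pY y))) v) (by
      rintro (x | y) f g hfg
      · simp only [Sum.elim_inl]
        split_ifs with c
        · rfl
        · exact hfg _ (hT.hX x fun e => c (Or.inl e))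
      · simp only [Sum.elim_inr]
        split_ifs with c
        · rfl
        · exact hfg _ (hT.hY y))
  refine ⟨f, fun x hx => ?_, fun y => hf _⟩
  rw [hf]
  simp [hx]

/-- edges inside the skeleton are parent edges of active vertices -/
theorem kdB_esk {n : ℕ} {E : Gr n} {T : RT n} (hT : T.Good E) (AX AY : Finset (Fin n))
    (p : Fin n → Prop) [DecidablePred p] (hp : ∀ y, p y → T.pY y ∈ AX → y ∈ AY) :
    ∑ x ∈ AX, ((nX E x).filter p).card ≤ AX.card + AY.card := by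
  have h1 : ∀ x ∈ AX, ((nX E x).filter p).card ≤ 1 + (AY.filter fun y => T.pY y = x).card := by
    intro x hx
    have : (nX E x).filter p ⊆ insert (T.pX x) (AY.filter fun y => T.pY y = x) := by
      intro y hy
      obtain ⟨a, b⟩ := mem_filter.1 hy
      rcases (hT.adj x y).1 (mem_nX.1 a) with c | c
      · exact mem_insert.2 (Or.inl c.2.symm)
      · exact mem_insert.2 (Or.inr (mem_filter.2 ⟨hp y b (c ▸ hx), c⟩))
    have h2 := (card_le_card this).trans (card_insert_le _ _)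
    omega
  refine (sum_le_sum h1).trans ?_
  rw [sum_add_distrib, ← card_eq_sum_ones]
  refine Nat.add_le_add_left ?_ _
  rw [sum_card_fiberwise_eq_card_filter]
  exact card_filter_le _ _

/-- Proof idea. `x1` a column leaf (`Tr.exists_lvX`), root `T` at another column vertex, `y1 = pX x1`. On `V = Fin n ⊕ Fin n` put `par (inl x) = inr (pX x)`, `par (inr y) = inl (pY y)`, `rt = inl root`, `rk = Sum.elim rX rY`.
`sizes` with `F = {inr y1}` (so `S #sd ≤ 2 n + 2 S`), `marks` with `cut = {inl x | dX x ≤ 10 ^ 37}`. Leaves other than the root are not in `mk`. `Fx` is a set of `NU n` column vertices of degree `d` outside `mk`, different from `x1`.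
`kX x = 0` on `ac`, `2` on `mk \ ac`, `4` at `x1`, `3` on `Fx`, else `1`. `kY y = 2` if `dY y = 1`; else `0` if `inr y ∈ ac` or `2 ≤ kX (pY y)`; else `3` if `kX (pY y) = 0`; else `1`. Marked row vertices are active.
`#sX 0 ≤ #sd + 2 n / 10 ^ 37` (`Tr.card_heavyX`), active row vertices are seeds or parents of active column vertices, an edge inside the skeleton is the parent edge of a vertex of `ac`.
`hV : V → V` by `exists_rec`: `hV (inl x) = if kY (pX x) = 0 then inl x else hV (inr (pX x))` for `x ≠ root`, `hV (inr y) = if kY y = 3 then inr y else hV (inl (pY y))`; by induction on the rank inner vertices `v` have `hV v ∈ KS`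
and `hd (hV v) = hd v`, which gives `size`; all children of an inner or top vertex `v` lie outside `sd` (closers are not seeds) and have the same `hd` as `v`, which gives `inn` and `lateS`. -/
theorem exists_Kd {n S d : ℕ} {E : Gr n} (h : Tr E) (hS : 10 ^ 120 ≤ S) (hn : S ≤ n)
    (hd : d = 1 ∨ d = 2) (hq : n ≤ 4 * (univ.filter fun x => dX E x = d).card) :
    ∃ D : Kd n, D.Good E S d := by
  have hn0 : 0 < n := by omega
  obtain ⟨x1, hx1⟩ := h.exists_lvX hn0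
  obtain ⟨r, hr2⟩ := h.exists_big (by omega)
  obtain ⟨T, hT, rfl⟩ := h r
  have hr : x1 ≠ T.root := fun e => by rw [← e] at hr2; omega
  obtain ⟨AX, MX, AY, hd', b1, b2, b3, b4, b5, b6, b7, b8, b9, b10, b11, b12⟩ :=
    kdB_base h hT hS hn hx1 hr
  obtain ⟨Fx, hF1, hF2⟩ := exists_subset_card_eq
    (s := (univ.filter fun x => dX E x = d) \ insert x1 MX) (n := NU n) (by
      have h1 := le_card_sdiff (insert x1 MX) (univ.filter fun x => dX E x = d)
      have h2 := card_insert_le x1 MX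
      have h3 := card_sdiff_add_card_eq_card b1
      unfold NU
      omega)
  obtain ⟨kX, c4, c0, c1, c2, c3, c5⟩ := kdB_kX (Fx := Fx) b1 b6 fun x hx => by
    have := (mem_sdiff.1 (hF1 hx)).2
    rw [mem_insert, not_or] at this
    exact ⟨this.2, this.1⟩
  obtain ⟨kY, e3, e2, e0, e1, e4⟩ := kdB_kY AY (dY E) fun y => kX (T.pY y)
  obtain ⟨hV, v1, v2⟩ := kdB_hV hT kY
  have hdp : ∀ x, x ≠ T.root → dY E (T.pX x) ≠ 1 := fun x hx => by
    have h1 := hT.dY_eq (T.pX x)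
    have h2 : 0 < (T.cY (T.pX x)).card := card_pos.2 ⟨x, RT.mem_cY.2 ⟨hx, rfl⟩⟩
    omega
  have hnA : ∀ x, kX x ≠ 0 → x ∉ AX := fun x hx a => hx ((c0 x).2 a)
  have hnr : ∀ x, kX x ≠ 0 → x ≠ T.root := fun x hx e => hnA x hx (e ▸ b2)
  have hch : ∀ x y, (x, y) ∈ E → kX x = 0 → y ∉ AY → x = T.pY y := fun x y a b c => by
    rcases (hT.adj x y).1 a with g | g
    · exact absurd (g.2 ▸ b4 x ((c0 x).1 b) g.1) c
    · exact g.symm
  have hup : ∀ x, kX x = 1 → (kY (T.pX x) = 0 ∧ hV (Sum.inl x) = Sum.inl x) ∨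
      (kY (T.pX x) = 1 ∧ hV (Sum.inl x) = hV (Sum.inr (T.pX x))) ∨
      (kY (T.pX x) = 3 ∧ hV (Sum.inl x) = Sum.inr (T.pX x)) := by
    intro x hx
    have g0 := hnr x (by omega)
    have g1 := v1 x g0
    have g2 : kY (T.pX x) ≠ 2 := fun a => hdp x g0 ((e2 _).1 a)
    have g3 := e3 (T.pX x)
    by_cases a : kY (T.pX x) = 0
    · exact Or.inl ⟨a, by rw [g1, if_pos a]⟩
    · rw [if_neg a] at g1
      by_cases b : kY (T.pX x) = 3
      · exact Or.inr (Or.inr ⟨b, by rw [g1, v2, if_pos b]⟩)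
      · exact Or.inr (Or.inl ⟨by omega, g1⟩)
  let D : Kd n := ⟨T, kX, kY, x1, T.pX x1, fun x => hV (Sum.inl x), fun y => hV (Sum.inr y)⟩
  have hin : ∀ m, (∀ x, T.rX x = m → kX x = 1 →
      hV (Sum.inl x) ∈ D.KS ∧ hd' (hV (Sum.inl x)) = hd' (Sum.inl x)) ∧
      ∀ y, T.rY y = m → kY y = 1 →
        hV (Sum.inr y) ∈ D.KS ∧ hd' (hV (Sum.inr y)) = hd' (Sum.inr y) := by
    intro m
    induction m using Nat.strong_induction_on with
    | _ m ih =>
      constructor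
      · intro x hm hx
        have g0 := hnA x (by omega)
        rcases hup x hx with ⟨a, b⟩ | ⟨a, b⟩ | ⟨a, b⟩
        · rw [b]
          exact ⟨D.inl_mem_KS.2 ⟨hx, a⟩, rfl⟩
        · have := (ih _ (hm ▸ hT.hX x (hnr x (by omega)))).2 _ rfl a
          rw [b, b8 x g0 ((e1 _).1 a).2.1]
          exact this
        · rw [b, b8 x g0 ((e4 _).1 a).2.1]
          exact ⟨D.inr_mem_KS.2 a, rfl⟩
      · intro y hm hy
        have g := (e1 y).1 hy
        have := (ih _ (hm ▸ hT.hY y)).1 _ rfl g.2.2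
        rw [v2, if_neg (by omega), b9 y g.2.1 (hnA _ (by omega))]
        exact this
  have hs0 : D.sX 0 = AX := by
    ext x; rw [Kd.mem_sX]; exact c0 x
  refine ⟨D, ⟨hT, c4, e3, (c0 _).2 b2, e2, ?_, ?_, (e0 _).2 ⟨hdp x1 hr, Or.inl b3⟩,
    fun x hx => (mem_filter.1 (mem_sdiff.1 (hF1 ((c3 x).1 hx))).1).2, ?_,
    fun x hx => b7 x ((c2 x).1 hx).1 ((c2 x).1 hx).2, ?_, fun x hx => ?_, ?_, ?_,
    fun y hy x => ?_, fun x y a b c => ?_, fun y hy => ((e1 y).1 hy).2.2,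
    fun x hx => ((hin _).1 x rfl hx).1, fun y hy => ((hin _).2 y rfl hy).1, fun y hy => ?_, hup,
    fun y hy => ?_, fun K => ?_, fun y hy => ?_⟩⟩
  · ext x
    rw [Kd.mem_sX, mem_singleton]; exact c5 x
  · have h1 := hT.dX_eq hr
    have h2 : T.cX x1 = ∅ := card_eq_zero.1 (by omega)
    show nX E x1 = {T.pX x1}
    rw [hT.nX_eq hr, h2]; rfl
  · rw [← hF2]
    congr 1
    ext x; rw [Kd.mem_sX]; exact c3 x
  · have : D.sX 2 = MX \ AX := by
      ext x; rw [Kd.mem_sX, mem_sdiff]; exact c2 x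
    rw [this]; exact b12
  · have hx' : kX x = 1 := hx
    have g0 := hnA x (by omega)
    have h1 := b10 (hd' (Sum.inl x))
    have h2 : 0 < (univ.filter fun x' => x' ∉ AX ∧ hd' (Sum.inl x') = hd' (Sum.inl x)).card :=
      card_pos.2 ⟨x, mem_filter.2 ⟨mem_univ _, g0, rfl⟩⟩
    have h3 : T.cX x ⊆ univ.filter fun y => y ∉ AY ∧ hd' (Sum.inr y) = hd' (Sum.inl x) := by
      intro y hy
      have a := RT.mem_cX.1 hy
      have b : y ∉ AY := fun c => c1 x hx' (a ▸ b5 y c)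
      exact mem_filter.2 ⟨mem_univ _, b, by rw [b9 y b (a ▸ g0), a]⟩
    have h4 := card_le_card h3
    rw [hT.dX_eq (hnr x (by omega))]
    omega
  · rw [hs0]; omega
  · rw [hs0]
    have := kdB_esk hT AX AY (fun y => kY y = 0) fun y a b => by
      have g := (c0 _).2 b
      rcases ((e0 y).1 a).2 with c | c
      · exact c
      · omega
    exact le_trans (Nat.mul_le_mul_left _ this) b11
  · have g := (e4 y).1 hy
    exact ⟨fun a => hch x y a.1 a.2 g.2.1, fun a => a ▸ ⟨hT.pY_mem y, g.2.2⟩⟩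
  · have g := (e1 y).1 b
    have g1 := hch x y a c g.2.1
    have g2 : kX x = 0 := c
    rw [g1] at g2
    omega
  · exact (v2 y).trans (if_pos hy)
  · have hy' : kX (T.pY y) = 1 := hy
    by_cases a : dY E y = 1
    · exact Or.inl ((e2 y).2 a)
    · have b : kY y = 1 := (e1 y).2 ⟨a, fun c => c1 _ hy' (b5 y c), hy'⟩
      exact Or.inr ⟨b, (v2 y).trans (if_neg (by omega))⟩
  · refine le_trans (Nat.add_le_add (card_le_card ?_) (card_le_card ?_)) (b10 (hd' K))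
    · intro x hx
      obtain ⟨a, b⟩ := (mem_filter.1 hx).2
      have a' : kX x = 1 := a
      have b' : hV (Sum.inl x) = K := b
      exact mem_filter.2 ⟨mem_univ _, hnA x (by omega), by rw [← b', ((hin _).1 x rfl a').2]⟩
    · intro y hy
      obtain ⟨a, b⟩ := (mem_filter.1 hy).2
      have b' : hV (Sum.inr y) = K := b
      exact mem_filter.2 ⟨mem_univ _, ((e1 y).1 a).2.1, by rw [← b', ((hin _).2 y rfl a).2]⟩
  · have g : y ∉ AY ∧ kX (T.pY y) < 2 := by
      rcases hy with a | a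
      · have := (e1 y).1 a
        exact ⟨this.2.1, by omega⟩
      · have := (e4 y).1 a
        exact ⟨this.2.1, by omega⟩
    refine le_trans (card_le_card ?_) (le_trans (Nat.le_add_right _ _) (b10 (hd' (Sum.inr y))))
    intro x hx
    obtain ⟨a, b⟩ := mem_filter.1 hx
    have b' : 2 ≤ kX x := b
    have g0 := hnA x (by omega)
    rcases (hT.adj x y).1 (mem_nY.1 a) with c | c
    · exact mem_filter.2 ⟨mem_univ _, g0, by rw [b8 x g0 (c.2 ▸ g.1), c.2]⟩
    · rw [c] at g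
      omega

end Pool.Agent.MP_4c107d_co.H78

end

section

/-!
Labelling the components; the big part of the skeleton.
-/

set_option autoImplicit false
set_option linter.unusedSectionVars false

namespace Pool.Agent.MP_4c107d_co.H78

open Finset

variable {n S d : ℕ} {τ : Type} [DecidableEq τ] {E : Gr n}

theorem label_num {α : Type} [DecidableEq α] (a0 : α) (V : Finset α) :
    ∃ (lab : α → ℕ) (inv : ℕ → α), (∀ v ∈ V, lab v < V.card ∧ inv (lab v) = v) ∧
      ∀ s < V.card, inv s ∈ V ∧ lab (inv s) = s := by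
  refine ⟨fun v => if h : v ∈ V then (V.equivFin ⟨v, h⟩ : ℕ) else 0,
    fun s => if h : s < V.card then (V.equivFin.symm ⟨s, h⟩ : α) else a0, fun v hv => ?_,
    fun s hs => ?_⟩
  · simp only [dif_pos hv]
    refine ⟨(V.equivFin ⟨v, hv⟩).2, ?_⟩
    rw [dif_pos (V.equivFin ⟨v, hv⟩).2]
    simp
  · simp only [dif_pos hs]
    refine ⟨(V.equivFin.symm ⟨s, hs⟩).2, ?_⟩
    rw [dif_pos (V.equivFin.symm ⟨s, hs⟩).2]
    simp

/-- the inner vertices of a component -/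
def label_V (D : Kd n) (K : Fin n ⊕ Fin n) : Finset (Fin n ⊕ Fin n) :=
  (univ.filter fun x => D.kX x = 1 ∧ D.hX x = K).disjSum
    (univ.filter fun y => D.kY y = 1 ∧ D.hY y = K)

theorem label_inl {D : Kd n} {K : Fin n ⊕ Fin n} {x : Fin n} :
    Sum.inl x ∈ label_V D K ↔ D.kX x = 1 ∧ D.hX x = K := by simp [label_V]

theorem label_inr {D : Kd n} {K : Fin n ⊕ Fin n} {y : Fin n} :
    Sum.inr y ∈ label_V D K ↔ D.kY y = 1 ∧ D.hY y = K := by simp [label_V]

theorem label_card (D : Kd n) (K : Fin n ⊕ Fin n) : (label_V D K).card =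
    (univ.filter fun x => D.kX x = 1 ∧ D.hX x = K).card
      + (univ.filter fun y => D.kY y = 1 ∧ D.hY y = K).card := card_disjSum _ _

theorem label_par {D : Kd n} (h : D.Good E S d) {K : Fin n ⊕ Fin n} {y : Fin n}
    (hy : Sum.inr y ∈ label_V D K) : Sum.inl (D.T.pY y) ∈ label_V D K := by
  obtain ⟨h1, h2⟩ := label_inr.1 hy
  have h3 := h.ypar y h1
  refine label_inl.2 ⟨h3, ?_⟩
  rcases h.dn y h3 with h4 | h4
  · omega
  · rw [← h4.2, h2]

theorem label_up {D : Kd n} (h : D.Good E S d) {K : Fin n ⊕ Fin n} {x : Fin n}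
    (hx : Sum.inl x ∈ label_V D K) (h1 : D.kY (D.T.pX x) = 1) :
    Sum.inr (D.T.pX x) ∈ label_V D K := by
  obtain ⟨h2, h3⟩ := label_inl.1 hx
  refine label_inr.2 ⟨h1, ?_⟩
  rcases h.up x h2 with h4 | h4 | h4
  · omega
  · rw [← h4.2, h3]
  · omega

theorem label_late {D : Kd n} (h : D.Good E S d) (hn : 10 ^ 120 ≤ n) :
    ∑ y ∈ univ.filter (fun y => D.kY y = 1 ∨ D.kY y = 3), D.late E y ≤ 2 * NU n := by
  have h1 : ∀ y ∈ univ.filter (fun y => D.kY y = 1 ∨ D.kY y = 3), D.late E y ≤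
      ((univ.filter fun x => 2 ≤ D.kX x).filter fun x => D.T.pX x = y).card := by
    intro y hy
    refine card_le_card fun x hx => ?_
    obtain ⟨hx1, hx2⟩ := mem_filter.1 hx
    refine mem_filter.2 ⟨mem_filter.2 ⟨mem_univ _, hx2⟩, ?_⟩
    rcases (h.tree.adj x y).1 (mem_nY.1 hx1) with a | a
    · exact a.2
    · exfalso
      rcases (mem_filter.1 hy).2 with b | b
      · have := h.ypar y b
        rw [a] at this
        omega
      · have := ((h.top y b x).2 a.symm).2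
        omega
  have h2 := sum_le_sum h1
  have h3 : ∑ y ∈ univ.filter (fun y => D.kY y = 1 ∨ D.kY y = 3),
      ((univ.filter fun x => 2 ≤ D.kX x).filter fun x => D.T.pX x = y).card ≤
      (univ.filter fun x => 2 ≤ D.kX x).card := by
    rw [card_eq_sum_card_fiberwise (s := univ.filter fun x => 2 ≤ D.kX x) (f := D.T.pX)
      (t := univ) fun _ _ => mem_univ _]
    exact sum_le_sum_of_subset (subset_univ _)
  have h4 : (univ.filter fun x => 2 ≤ D.kX x) ⊆ D.sX 2 ∪ D.sX 3 ∪ D.sX 4 := by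
    intro x hx
    have a := (mem_filter.1 hx).2
    have b := h.kX4 x
    simp only [mem_union, Kd.mem_sX]
    omega
  have h5 := card_le_card h4
  have h6 := card_union_le (D.sX 2 ∪ D.sX 3) (D.sX 4)
  have h7 := card_union_le (D.sX 2) (D.sX 3)
  have h8 : (D.sX 4).card = 1 := by rw [h.x4, card_singleton]
  have h9 := h.cflex
  have h10 := h.cclo
  have h11 : (D.sX 2).card + 1 ≤ NU n := by
    unfold NU
    rw [Nat.le_div_iff_mul_le (by norm_num)]
    omega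
  omega

theorem label_sE (D : Kd n) :
    ∑ K ∈ D.KS, (label_V D K).card + (D.sY 3).card + (D.sY 2).card ≤ 2 * n := by
  have h1 : ∑ K ∈ D.KS, (univ.filter fun x => D.kX x = 1 ∧ D.hX x = K).card ≤ n := by
    have a := card_eq_sum_card_fiberwise (s := (univ : Finset (Fin n))) (f := D.hX) (t := univ)
      fun _ _ => mem_univ _
    rw [card_univ, Fintype.card_fin] at a
    refine le_trans ?_ a.ge
    refine (sum_le_sum_of_subset (subset_univ _)).trans (sum_le_sum fun K _ => card_le_card ?_)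
    exact fun x hx => mem_filter.2 ⟨mem_univ _, (mem_filter.1 hx).2.2⟩
  have h2 : ∑ K ∈ D.KS, (univ.filter fun y => D.kY y = 1 ∧ D.hY y = K).card ≤ (D.sY 1).card := by
    rw [card_eq_sum_card_fiberwise (s := D.sY 1) (f := D.hY) (t := univ) fun _ _ => mem_univ _]
    refine (sum_le_sum_of_subset (subset_univ _)).trans (sum_le_sum fun K _ => card_le_card ?_)
    exact fun y hy => mem_filter.2 ⟨D.mem_sY.2 (mem_filter.1 hy).2.1, (mem_filter.1 hy).2.2⟩
  have h3 : (D.sY 1 ∪ D.sY 3 ∪ D.sY 2).card ≤ n := (card_le_univ _).trans (Fintype.card_fin n).le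
  have hd : ∀ k k', k ≠ k' → Disjoint (D.sY k) (D.sY k') := fun k k' hk =>
    disjoint_left.2 fun y a b => hk ((D.mem_sY.1 a).symm.trans (D.mem_sY.1 b))
  rw [card_union_of_disjoint (disjoint_union_left.2 ⟨hd _ _ (by norm_num), hd _ _ (by norm_num)⟩),
    card_union_of_disjoint (hd _ _ (by norm_num))] at h3
  rw [sum_congr rfl fun K _ => label_card D K, sum_add_distrib]
  omega

/-- Proof idea. For a component `K` let `V K ⊆ Fin n ⊕ Fin n` be its set of inner vertices (kind `1`), `e K = #(V K) ≤ S`, and `lab` a bijection from `V K` to `range (e K)` (`lX`, `lY` are its restrictions). The slot of the vertex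
`inl x` has `px = lX x`, `py = yl (pX x)`; the slot of `inr y` has `px = lX (pY y)`, `py = lY y + 1`. `lt j` is `late` of the row vertex of `K` with label `j` (label `0`: the top if `K = inr y`), and `0` if there is none.
`ty K` from `Tab.Univ.all`. `valid`: `RT.Good.notboth`. `sE`: `∑ e K = #sX 1 + #sY 1`. `sLt`: a late neighbour of a vertex of kind `1` or `3` is its child, so the sum is at most the number `#sX 2 + NU n + 1` of late vertices. -/
theorem exists_lab {B : Tab τ} (hB : B.Univ S) (D : Kd n) (h : D.Good E S d) (hn : 10 ^ 120 ≤ n) :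
    ∃ (lX lY : Fin n → ℕ) (ty : Fin n ⊕ Fin n → τ), ∀ (PX PY : Finset (Fin n)) (idx : Fin n → ℕ),
      (DD.mk D lX lY ty PX PY idx).Lab E B := by
  choose lab inv hlab hinv using fun K => label_num (Sum.inl D.x1) (label_V D K)
  obtain ⟨lX, hlX⟩ : ∃ lX : Fin n → ℕ, ∀ x, lX x = lab (D.hX x) (Sum.inl x) := ⟨_, fun _ => rfl⟩
  obtain ⟨lY, hlY⟩ : ∃ lY : Fin n → ℕ, ∀ y, lY y = lab (D.hY y) (Sum.inr y) := ⟨_, fun _ => rfl⟩
  obtain ⟨yl, hyl⟩ : ∃ yl : Fin n → ℕ, ∀ y, yl y = if D.kY y = 1 then lY y + 1 else 0 :=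
    ⟨_, fun _ => rfl⟩
  have hX : ∀ K x, Sum.inl x ∈ label_V D K → lX x = lab K (Sum.inl x) := fun K x hx => by
    rw [hlX, (label_inl.1 hx).2]
  have hY : ∀ K y, Sum.inr y ∈ label_V D K → lY y = lab K (Sum.inr y) := fun K y hy => by
    rw [hlY, (label_inr.1 hy).2]
  have hS : ∀ K, (label_V D K).card ≤ S := fun K => (label_card D K).trans_le (h.size K)
  have hinj : ∀ K, ∀ v ∈ label_V D K, ∀ v' ∈ label_V D K, lab K v = lab K v' → v = v' :=
    fun K v hv v' hv' e => by rw [← (hlab K v hv).2, e, (hlab K v' hv').2]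
  have iX : ∀ K x x', Sum.inl x ∈ label_V D K → Sum.inl x' ∈ label_V D K → lX x = lX x' →
      x = x' := fun K x x' a b e =>
    Sum.inl_injective (hinj K _ a _ b (by rw [← hX K x a, ← hX K x' b, e]))
  have iY : ∀ K y y', Sum.inr y ∈ label_V D K → Sum.inr y' ∈ label_V D K → lY y = lY y' →
      y = y' := fun K y y' a b e =>
    Sum.inr_injective (hinj K _ a _ b (by rw [← hY K y a, ← hY K y' b, e]))
  have bX : ∀ K x, Sum.inl x ∈ label_V D K → lX x < (label_V D K).card := fun K x a => by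
    rw [hX K x a]; exact (hlab K _ a).1
  have bY : ∀ K y, Sum.inr y ∈ label_V D K → lY y < (label_V D K).card := fun K y a => by
    rw [hY K y a]; exact (hlab K _ a).1
  obtain ⟨qx, hqx⟩ : ∃ qx : Fin n ⊕ Fin n → ℕ, (∀ x, qx (Sum.inl x) = lX x) ∧
      ∀ y, qx (Sum.inr y) = lX (D.T.pY y) :=
    ⟨Sum.elim lX fun y => lX (D.T.pY y), fun _ => rfl, fun _ => rfl⟩
  obtain ⟨qy, hqy⟩ : ∃ qy : Fin n ⊕ Fin n → ℕ, (∀ x, qy (Sum.inl x) = yl (D.T.pX x)) ∧
      ∀ y, qy (Sum.inr y) = lY y + 1 :=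
    ⟨Sum.elim (fun x => yl (D.T.pX x)) fun y => lY y + 1, fun _ => rfl, fun _ => rfl⟩
  have hq : ∀ K, ∀ v ∈ label_V D K, qx v < (label_V D K).card ∧ qy v ≤ (label_V D K).card := by
    rintro K (x | y) hv
    · rw [hqx.1, hqy.1, hyl]
      refine ⟨bX K x hv, ?_⟩
      split_ifs with h1
      · exact bY K _ (label_up h hv h1)
      · exact Nat.zero_le _
    · rw [hqx.2, hqy.2]
      exact ⟨bX K _ (label_par h hv), bY K y hv⟩
  have hmix : ∀ K x y, Sum.inl x ∈ label_V D K → Sum.inr y ∈ label_V D K →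
      qx (Sum.inl x) = qx (Sum.inr y) → qy (Sum.inl x) = qy (Sum.inr y) → False := by
    intro K x y a b e1 e2
    rw [hqx.1, hqx.2] at e1
    rw [hqy.1, hqy.2, hyl] at e2
    have c := iX K _ _ a (label_par h b) e1
    split_ifs at e2 with h1
    · have c' := iY K _ _ (label_up h a h1) b (by omega)
      refine h.tree.notboth (x := x) (fun e => ?_) c' c.symm
      have := (label_inl.1 a).1
      rw [e, h.root] at this
      omega
  have hqi : ∀ K, ∀ v ∈ label_V D K, ∀ v' ∈ label_V D K, qx v = qx v' → qy v = qy v' → v = v' := by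
    rintro K (x | y) a (x' | y') b e1 e2
    · rw [hqx.1, hqx.1] at e1
      rw [iX K _ _ a b e1]
    · exact (hmix K _ _ a b e1 e2).elim
    · exact (hmix K _ _ b a e1.symm e2.symm).elim
    · rw [hqy.2, hqy.2] at e2
      rw [iY K _ _ a b (by omega)]
  obtain ⟨F, hF⟩ : ∃ F : Fin n ⊕ Fin n → ℕ → Finset (Fin n), ∀ K j y, y ∈ F K j ↔
      (D.kY y = 1 ∨ D.kY y = 3) ∧ D.hY y = K ∧ yl y = j :=
    ⟨fun K j => univ.filter fun y => (D.kY y = 1 ∨ D.kY y = 3) ∧ D.hY y = K ∧ yl y = j,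
      fun K j y => by simp⟩
  have hF1 : ∀ K j, (F K j).card ≤ 1 := fun K j => card_le_one.2 fun y hy y' hy' => by
    obtain ⟨a1, a2, a3⟩ := (hF K j y).1 hy
    obtain ⟨b1, b2, b3⟩ := (hF K j y').1 hy'
    rw [hyl] at a3 b3
    rcases a1 with a1 | a1 <;> rcases b1 with b1 | b1
    · rw [if_pos a1] at a3
      rw [if_pos b1] at b3
      exact iY K _ _ (label_inr.2 ⟨a1, a2⟩) (label_inr.2 ⟨b1, b2⟩) (by omega)
    · rw [if_pos a1] at a3
      rw [if_neg (by omega)] at b3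
      omega
    · rw [if_pos b1] at b3
      rw [if_neg (by omega)] at a3
      omega
    · exact Sum.inr_injective ((h.hY3 y a1).symm.trans (a2.trans (b2.symm.trans (h.hY3 y' b1))))
  have hFS : ∀ K j, ∑ y ∈ F K j, D.late E y ≤ S := fun K j => by
    have a := sum_le_card_nsmul (F K j) (D.late E) S fun y hy => h.lateS y ((hF K j y).1 hy).1
    rw [smul_eq_mul] at a
    exact a.trans ((Nat.mul_le_mul_right S (hF1 K j)).trans (one_mul S).le)
  choose ty hty1 hty2 hty3 using fun K => hB.all _ (hS K) (fun s => qx (inv K s))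
    (fun s => qy (inv K s)) (fun j => ∑ y ∈ F K j, D.late E y)
    (fun s hs => ⟨((hq K _ (hinv K s hs).1).1.le).trans (hS K),
      (hq K _ (hinv K s hs).1).2.trans (hS K)⟩) fun j _ => hFS K j
  have hslot : ∀ K, ∀ v ∈ label_V D K, ∃ s < B.e (ty K), B.px (ty K) s = qx v ∧
      B.py (ty K) s = qy v := fun K v hv => by
    refine ⟨lab K v, by rw [hty1]; exact (hlab K v hv).1, ?_⟩
    have a := hty2 K _ (hlab K v hv).1
    rwa [(hlab K v hv).2] at a
  refine ⟨lX, lY, ty, fun PX PY idx => ?_⟩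
  have hyl' : ∀ y, (DD.mk D lX lY ty PX PY idx).yl y = yl y := fun y => (hyl y).symm
  refine ⟨fun x hx => ?_, fun y hy => ?_, fun x x' a b e1 e2 => ?_, fun y y' a b e1 e2 => ?_,
    fun x y he hx hy => ?_, fun K _ => ?_, fun y hy => ?_, ?_, ?_⟩
  · show lX x < B.e (ty (D.hX x))
    rw [hty1]
    exact bX _ x (label_inl.2 ⟨hx, rfl⟩)
  · show lY y < B.e (ty (D.hY y))
    rw [hty1]
    exact bY _ y (label_inr.2 ⟨hy, rfl⟩)
  · exact iX (D.hX x') x x' (label_inl.2 ⟨a, e1⟩) (label_inl.2 ⟨b, rfl⟩) e2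
  · exact iY (D.hY y') y y' (label_inr.2 ⟨a, e1⟩) (label_inr.2 ⟨b, rfl⟩) e2
  · rw [hyl']
    show ((D.kY y = 1 ∧ D.hY y = D.hX x) ∨ (D.kY y ≠ 1 ∧ y = D.tp (D.hX x))) ∧
      ∃ s < B.e (ty (D.hX x)), B.px (ty (D.hX x)) s = lX x ∧ B.py (ty (D.hX x)) s = yl y
    have hx' : D.kX x = 1 := hx
    have hy' : D.kY y ≠ 2 := hy
    rcases (h.tree.adj x y).1 he with ⟨-, rfl⟩ | rfl
    · constructor
      · rcases h.up x hx' with a | a | a
        · exact Or.inr ⟨by omega, by rw [a.2]; rfl⟩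
        · exact Or.inl ⟨a.1, a.2.symm⟩
        · exact Or.inr ⟨by omega, by rw [a.2]; rfl⟩
      · have a := hslot (D.hX x) _ (label_inl.2 ⟨hx', rfl⟩)
        rwa [hqx.1, hqy.1] at a
    · have a := (h.dn y hx').resolve_left hy'
      refine ⟨Or.inl a, ?_⟩
      have b := hslot (D.hX (D.T.pY y)) _ (label_inr.2 a)
      rwa [hqx.2, hqy.2, show lY y + 1 = yl y by rw [hyl, if_pos a.1]] at b
  · show B.Valid (ty K)
    intro s hs
    rw [hty1] at hs ⊢
    rw [(hty2 K s hs).1, (hty2 K s hs).2]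
    refine ⟨(hq K _ (hinv K s hs).1).1, (hq K _ (hinv K s hs).1).2, fun s' hs' e1 e2 => ?_⟩
    rw [(hty2 K s' hs').1] at e1
    rw [(hty2 K s' hs').2] at e2
    rw [← (hinv K s hs).2, hqi K _ (hinv K s hs).1 _ (hinv K s' hs').1 e1 e2, (hinv K s' hs').2]
  · rw [hyl']
    show D.late E y ≤ B.lt (ty (D.hY y)) (yl y)
    have a : yl y ≤ S := by
      rw [hyl]
      split_ifs with h1
      · exact (bY _ y (label_inr.2 ⟨h1, rfl⟩)).trans_le (hS _)
      · exact Nat.zero_le _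
    rw [hty3 _ _ a]
    exact single_le_sum (f := D.late E) (fun _ _ => Nat.zero_le _) ((hF _ _ y).2 ⟨hy, rfl, rfl⟩)
  · show ∑ K ∈ D.KS, B.Lt (ty K) ≤ 2 * NU n
    refine le_trans ?_ (label_late h hn)
    rw [← sum_fiberwise_of_maps_to (s := univ.filter fun y => D.kY y = 1 ∨ D.kY y = 3)
      (t := univ) (g := D.hY) fun _ _ => mem_univ _]
    refine (sum_le_sum_of_subset (subset_univ _)).trans (sum_le_sum fun K _ => ?_)
    unfold Tab.Lt
    rw [hty1, sum_congr rfl fun j hj => hty3 K j ((Nat.lt_succ_iff.1 (mem_range.1 hj)).trans (hS K)),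
      ← sum_biUnion]
    · refine sum_le_sum_of_subset fun y hy => ?_
      obtain ⟨j, -, hj⟩ := mem_biUnion.1 hy
      have a := (hF K j y).1 hj
      exact mem_filter.2 ⟨mem_filter.2 ⟨mem_univ _, a.1⟩, a.2.1⟩
    · intro j _ j' _ hne
      exact disjoint_left.2 fun y a b =>
        hne (((hF K j y).1 a).2.2.symm.trans ((hF K j' y).1 b).2.2)
  · show ∑ K ∈ D.KS, B.e (ty K) + (D.sY 3).card + (D.sY 2).card ≤ 2 * n
    rw [sum_congr rfl fun K _ => hty1 K]
    exact label_sE D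

/-- the number of edges between two sets -/
def label_e (E : Gr n) (PX PY : Finset (Fin n)) : ℕ :=
  (E.filter fun p => p.1 ∈ PX ∧ p.2 ∈ PY).card

theorem label_e_le {T : RT n} (h : T.Good E) (PX PY : Finset (Fin n)) :
    label_e E PX PY ≤ PX.card + PY.card := by
  have h1 : (E.filter fun p => p.1 ∈ PX ∧ p.2 ∈ PY) ⊆
      PX.image (fun x => (x, T.pX x)) ∪ PY.image fun y => (T.pY y, y) := by
    rintro ⟨x, y⟩ hp
    obtain ⟨a, b, c⟩ := mem_filter.1 hp
    rcases (h.adj x y).1 a with ⟨-, rfl⟩ | rfl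
    · exact mem_union_left _ (mem_image.2 ⟨x, b, rfl⟩)
    · exact mem_union_right _ (mem_image.2 ⟨y, c, rfl⟩)
  exact (card_le_card h1).trans ((card_union_le _ _).trans
    (Nat.add_le_add card_image_le card_image_le))

theorem label_e_X (E : Gr n) (PX PY : Finset (Fin n)) {x : Fin n} (hx : x ∉ PX) :
    label_e E PX PY + ((nX E x).filter fun y => y ∈ PY).card ≤ label_e E (insert x PX) PY := by
  unfold label_e
  rw [← card_image_of_injective ((nX E x).filter fun y => y ∈ PY)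
    (f := fun y => (x, y)) fun _ _ e => (Prod.ext_iff.1 e).2, ← card_union_of_disjoint]
  · refine card_le_card (union_subset (fun p hp => ?_) fun p hp => ?_)
    · obtain ⟨a, b, c⟩ := mem_filter.1 hp
      exact mem_filter.2 ⟨a, mem_insert_of_mem b, c⟩
    · obtain ⟨y, hy, rfl⟩ := mem_image.1 hp
      exact mem_filter.2 ⟨mem_nX.1 (mem_filter.1 hy).1, mem_insert_self _ _, (mem_filter.1 hy).2⟩
  · refine disjoint_left.2 fun p a b => ?_
    obtain ⟨y, -, rfl⟩ := mem_image.1 b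
    exact hx (mem_filter.1 a).2.1

theorem label_e_Y (E : Gr n) (PX PY : Finset (Fin n)) {y : Fin n} (hy : y ∉ PY) :
    label_e E PX PY + ((nY E y).filter fun x => x ∈ PX).card ≤ label_e E PX (insert y PY) := by
  unfold label_e
  rw [← card_image_of_injective ((nY E y).filter fun x => x ∈ PX)
    (f := fun x => (x, y)) fun _ _ e => (Prod.ext_iff.1 e).1, ← card_union_of_disjoint]
  · refine card_le_card (union_subset (fun p hp => ?_) fun p hp => ?_)
    · obtain ⟨a, b, c⟩ := mem_filter.1 hp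
      exact mem_filter.2 ⟨a, b, mem_insert_of_mem c⟩
    · obtain ⟨x, hx, rfl⟩ := mem_image.1 hp
      exact mem_filter.2 ⟨mem_nY.1 (mem_filter.1 hx).1, (mem_filter.1 hx).2, mem_insert_self _ _⟩
  · refine disjoint_left.2 fun p a b => ?_
    obtain ⟨x, -, rfl⟩ := mem_image.1 b
    exact hy (mem_filter.1 a).2.2

/-- Proof idea. Among the pairs `PX ⊆ ZX`, `P0 ⊆ PY ⊆ ZY` with `2 (#PX + #PY) ≤ e + 2 #P0`, `e` the number of edges between `PX` and `PY`, take one with the largest `#PX + #PY`. Every such edge is the parent edge of one of its ends,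
so `e ≤ #PX + #PY`. -/
theorem pstar {T : RT n} (h : T.Good E) (ZX ZY P0 : Finset (Fin n)) (h0 : P0 ⊆ ZY) :
    ∃ PX PY : Finset (Fin n), PX ⊆ ZX ∧ P0 ⊆ PY ∧ PY ⊆ ZY ∧ PX.card + PY.card ≤ 2 * P0.card ∧
      (∀ x ∈ ZX, x ∉ PX → ((nX E x).filter fun y => y ∈ PY).card ≤ 1) ∧
      ∀ y ∈ ZY, y ∉ PY → ((nY E y).filter fun x => x ∈ PX).card ≤ 1 := by
  obtain ⟨⟨PX, PY⟩, hm, hmax⟩ := exists_max_image
    ((ZX.powerset ×ˢ ZY.powerset).filter fun p => P0 ⊆ p.2 ∧
      2 * (p.1.card + p.2.card) ≤ label_e E p.1 p.2 + 2 * P0.card)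
    (fun p => p.1.card + p.2.card)
    ⟨(∅, P0), mem_filter.2 ⟨mem_product.2 ⟨empty_mem_powerset _, mem_powerset.2 h0⟩,
      Subset.rfl, by simp⟩⟩
  obtain ⟨h1, h2, h3⟩ := mem_filter.1 hm
  obtain ⟨h4, h5⟩ := mem_product.1 h1
  have h6 := label_e_le h PX PY
  simp only [mem_powerset] at h2 h3 h4 h5
  refine ⟨PX, PY, h4, h2, h5, by omega, fun x hx hn => ?_, fun y hy hn => ?_⟩
  · by_contra hc
    have a := label_e_X E PX PY hn
    have b := card_insert_of_notMem hn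
    have c := hmax (insert x PX, PY) (mem_filter.2 ⟨mem_product.2
      ⟨mem_powerset.2 (insert_subset hx h4), mem_powerset.2 h5⟩, h2, by
        show 2 * ((insert x PX).card + PY.card) ≤ label_e E (insert x PX) PY + 2 * P0.card
        omega⟩)
    simp only at c
    omega
  · by_contra hc
    have a := label_e_Y E PX PY hn
    have b := card_insert_of_notMem hn
    have c := hmax (PX, insert y PY) (mem_filter.2 ⟨mem_product.2
      ⟨mem_powerset.2 h4, mem_powerset.2 (insert_subset hy h5)⟩,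
      h2.trans (subset_insert _ _), by
        show 2 * (PX.card + (insert y PY).card) ≤ label_e E PX (insert y PY) + 2 * P0.card
        omega⟩)
    simp only at c
    omega

/-- Proof idea. `pstar` with `P0 = insert y1 {y ∈ sY 0 | η n ≤ dY y}` (`Tr.card_heavyY`), and a numbering of `PY` that starts with `y1`. -/
theorem exists_big (D : Kd n) (ht : Tr E) (h : D.Good E S d) {H : ℕ} {η : ℝ} (hη : 0 < η)
    (hη1 : η ≤ 1) (hH : 10 ≤ η * H) :
    ∃ (PX PY : Finset (Fin n)) (idx : Fin n → ℕ), ∀ (lX lY : Fin n → ℕ) (ty : Fin n ⊕ Fin n → τ),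
      (DD.mk D lX lY ty PX PY idx).Big E H η := by
  have hn : 0 < n := D.x1.pos
  obtain ⟨PX, PY, h1, h2, h3, h4, h5, h6⟩ := pstar h.tree (D.sX 0) (D.sY 0)
    (insert D.y1 ((D.sY 0).filter fun y => η * n ≤ (dY E y : ℝ)))
    (insert_subset (D.mem_sY.2 h.y1k) (filter_subset _ _))
  have hnR : (0 : ℝ) < n := by exact_mod_cast hn
  have a1 := ht.card_heavyY hn (t := η * n) (by positivity)
  have a2 : ((D.sY 0).filter fun y => η * n ≤ (dY E y : ℝ)).card ≤
      (univ.filter fun y => η * n ≤ (dY E y : ℝ)).card :=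
    card_le_card (filter_subset_filter _ (subset_univ _))
  have a3 := card_insert_le D.y1 ((D.sY 0).filter fun y => η * n ≤ (dY E y : ℝ))
  have a4 : PX.card + PY.card + 1 ≤ H := by
    set c := (univ.filter fun y => η * n ≤ (dY E y : ℝ)).card
    have b1 : (c : ℝ) * η ≤ 2 := le_of_mul_le_mul_right (by linarith) hnR
    have b2 : η * (2 * c + 3) ≤ η * H := by nlinarith
    have b3 : (2 * c + 3 : ℝ) ≤ H := le_of_mul_le_mul_left b2 hη
    have b4 : 2 * c + 3 ≤ H := by exact_mod_cast b3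
    omega
  obtain ⟨lab, inv, hlab, -⟩ := label_num D.y1 PY
  refine ⟨PX, PY, fun y => if y = D.y1 then 0 else lab y + 1, fun lX lY ty =>
    ⟨fun x hx => D.mem_sX.1 (h1 hx), fun y hy => D.mem_sY.1 (h3 hy), ?_,
      h2 (mem_insert_self _ _), if_pos rfl, fun y hy => ?_, fun y hy y' hy' e => ?_,
      fun y hy hn => ?_, fun x hx hn => h5 x (D.mem_sX.2 hx) hn,
      fun y hy hn => h6 y (D.mem_sY.2 hy) hn⟩⟩
  · show PX.card ≤ H
    omega
  · show (if y = D.y1 then 0 else lab y + 1) < H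
    have := (hlab y hy).1
    split_ifs <;> omega
  · have e' : (if y = D.y1 then 0 else lab y + 1) = if y' = D.y1 then 0 else lab y' + 1 := e
    by_cases b1 : y = D.y1 <;> by_cases b2 : y' = D.y1
    · rw [b1, b2]
    · rw [if_pos b1, if_neg b2] at e'
      omega
    · rw [if_pos b2, if_neg b1] at e'
      omega
    · rw [if_neg b1, if_neg b2] at e'
      rw [← (hlab y hy).2, show lab y = lab y' by omega, (hlab y' hy').2]
  · by_contra hc
    exact hn (h2 (mem_insert_of_mem (mem_filter.2 ⟨D.mem_sY.2 hy, (not_le.1 hc).le⟩)))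

end Pool.Agent.MP_4c107d_co.H78

end

end
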