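import Pool.Agent.MP_4c107d_co.Mg.H78_B
import Pool.Agent.MP_4c107d_co.Mg.H78_I

-- part MP_4c107d_co.H78.J
section

section

/-!
The heavy row vertices of the guests and their neighbours.
-/

set_option autoImplicit false
set_option linter.unusedSectionVars false

namespace Pool.Agent.MP_4c107d_co.H78

open Finset

/-- Proof idea. Items with `n + h < 2 w` (at most one per owner) go to the row of their owner. Add the other items one at a time (induction on a subset): rows with load above `17 n / 10 - (n + h) / 2` are fewer than `0.85 #Gs`,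
and at most `h ≤ #Gs / 25` rows are used by the same owner. -/
theorem binpack {α ι : Type} [DecidableEq α] [DecidableEq ι] (Q : Finset α) (o : α → ι) (w : α → ℕ)
    (Gs : Finset ι) (hG : Gs.Nonempty) (n h : ℕ) (ho : ∀ q ∈ Q, o q ∈ Gs)
    (h1 : ∀ i, ∑ q ∈ fib Q o i, w q ≤ n + h) (h2 : ∀ i, (fib Q o i).card ≤ h)
    (h3 : ∀ q ∈ Q, w q ≤ n) (h4 : 25 * h ≤ Gs.card) (h5 : 100 * h ≤ n) (hn : 0 < n) :
    ∃ ψ : α → ι, (∀ q ∈ Q, ψ q ∈ Gs) ∧
      (∀ q ∈ Q, ∀ q' ∈ Q, o q = o q' → ψ q = ψ q' → q = q') ∧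
      ∀ r, 10 * ∑ q ∈ fib Q ψ r, w q ≤ 17 * n := by
  have hJ : (1 : ℝ) ≤ Gs.card := by exact_mod_cast hG.card_pos
  have h4' : 25 * (h : ℝ) ≤ Gs.card := by exact_mod_cast h4
  have h5' : 100 * (h : ℝ) ≤ n := by exact_mod_cast h5
  have h0 : (0 : ℝ) ≤ h := Nat.cast_nonneg h
  have htot : ∑ q ∈ Q, (w q : ℝ) ≤ 17 / 20 * Gs.card * ((12 * n - 5 * h) / 10) := by
    have a1 : ∑ q ∈ Q, w q ≤ Gs.card * (n + h) := by
      rw [← sum_fib Q o Gs ho w]
      exact sum_le_card_nsmul _ _ _ fun i _ => h1 i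
    have a2 : ∑ q ∈ Q, (w q : ℝ) ≤ Gs.card * (n + h) := by exact_mod_cast a1
    nlinarith
  set B := Q.filter fun q => n + h < 2 * w q with hB
  have hB1 : ∀ q ∈ B, ∀ q' ∈ B, o q = o q' → q = q' := by
    intro q hq q' hq' e
    by_contra hne
    obtain ⟨a1, a2⟩ := mem_filter.1 hq
    obtain ⟨b1, b2⟩ := mem_filter.1 hq'
    have := (sum_le_sum_of_subset (f := w) (s := {q, q'}) (t := fib Q o (o q)) (by
      simp [insert_subset_iff, mem_fib, a1, b1, e])).trans (h1 _)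
    rw [sum_pair hne] at this
    omega
  have key : ∀ S : Finset α, S ⊆ Q \ B → ∃ ψ : α → ι, (∀ q ∈ B ∪ S, ψ q ∈ Gs) ∧
      (∀ q ∈ B ∪ S, ∀ q' ∈ B ∪ S, o q = o q' → ψ q = ψ q' → q = q') ∧
      ∀ r, ∑ q ∈ fib (B ∪ S) ψ r, (w q : ℝ) ≤ (12 * n - 5 * h) / 10 + (n + h) / 2 := by
    intro S
    induction S using Finset.induction_on with
    | empty =>
      intro _
      rw [union_empty]
      refine ⟨o, fun q hq => ho q (mem_filter.1 hq).1, fun q hq q' hq' e _ => hB1 q hq q' hq' e,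
        fun r => ?_⟩
      have a1 : (fib B o r).card ≤ 1 := card_le_one.2 fun q hq q' hq' =>
        hB1 q (mem_fib.1 hq).1 q' (mem_fib.1 hq').1 ((mem_fib.1 hq).2.trans (mem_fib.1 hq').2.symm)
      have a2 : ∑ q ∈ fib B o r, w q ≤ n :=
        (sum_le_card_nsmul _ _ n fun q hq => h3 q (mem_filter.1 (mem_fib.1 hq).1).1).trans
          ((Nat.mul_le_mul_right n a1).trans_eq (one_mul n))
      have a3 : ∑ q ∈ fib B o r, (w q : ℝ) ≤ n := by exact_mod_cast a2
      linarith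
    | insert q S hq ih =>
      intro hS
      obtain ⟨ψ, p1, p2, p3⟩ := ih ((subset_insert _ _).trans hS)
      obtain ⟨hqQ, hqB⟩ := mem_sdiff.1 (hS (mem_insert_self _ _))
      have hq' : q ∉ B ∪ S := by simp [hq, hqB]
      have hD : B ∪ S ⊆ Q := union_subset (filter_subset _ _)
        (((subset_insert _ _).trans hS).trans sdiff_subset)
      have m1 := greedy_meter (B ∪ S) Q ψ Gs (fun q => (w q : ℝ)) (θ := (12 * n - 5 * h) / 10)
        (c := 17 / 20 * Gs.card) (fun p hp _ => hD hp) (fun _ => Nat.cast_nonneg _) (by linarith)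
        (by positivity) htot
      have m2 : (((fib (B ∪ S) o (o q)).image ψ).card : ℝ) ≤ h := by
        exact_mod_cast card_image_le.trans ((card_le_card (filter_subset_filter _ hD)).trans (h2 _))
      obtain ⟨r, r1, r2, r3, -⟩ := greedy_free Gs _ _ ∅
        (((add_le_add (add_le_add m1 m2) le_rfl).trans_lt (by simp; linarith)))
      have hu : ∀ x ∈ B ∪ S, Function.update ψ q r x = ψ x := fun x hx =>
        Function.update_of_ne (fun e : x = q => hq' (e ▸ hx)) _ _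
      rw [union_insert]
      refine ⟨Function.update ψ q r, fun x hx => ?_, fun x hx y hy e1 e2 => ?_, fun b => ?_⟩
      · rcases mem_insert.1 hx with rfl | hx
        · rwa [Function.update_self]
        · rw [hu x hx]; exact p1 x hx
      · rcases mem_insert.1 hx with a | a <;> rcases mem_insert.1 hy with b | b
        · rw [a, b]
        · rw [a, Function.update_self, hu y b] at e2
          exact absurd (mem_image.2 ⟨y, mem_fib.2 ⟨b, a ▸ e1.symm⟩, e2.symm⟩) r3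
        · rw [b, Function.update_self, hu x a] at e2
          exact absurd (mem_image.2 ⟨x, mem_fib.2 ⟨a, b ▸ e1⟩, e2⟩) r3
        · rw [hu x a, hu y b] at e2
          exact p2 x a y b e1 e2
      · refine greedy_load hq' r (fun q => (w q : ℝ)) (Nat.cast_nonneg _) ?_
          (fun _ => not_lt.1 fun hc => r2 (mem_filter.2 ⟨r1, hc⟩)) (p3 b)
        have a1 : 2 * w q ≤ n + h := not_lt.1 fun hc => hqB (mem_filter.2 ⟨hqQ, hc⟩)
        have a2 : 2 * (w q : ℝ) ≤ n + h := by exact_mod_cast a1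
        linarith
  obtain ⟨ψ, p1, p2, p3⟩ := key _ subset_rfl
  rw [union_sdiff_of_subset (filter_subset _ _)] at p1 p2 p3
  refine ⟨ψ, p1, p2, fun r => ?_⟩
  have : (10 : ℝ) * ∑ q ∈ fib Q ψ r, (w q : ℝ) ≤ 17 * n := by linarith [p3 r]
  exact_mod_cast this

variable {ι A : Type} [DecidableEq ι] [DecidableEq A] [Fintype A] {n : ℕ}

/-- heavy row vertices -/
noncomputable def Hv (E : ι → Gr n) (γ : ℝ) (Gs : Finset ι) : Finset (It ι n) :=
  (full n Gs).filter fun q => γ * n ≤ 2 * (dY (E q.1) q.2 : ℝ)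
/-- neighbours of heavy row vertices -/
noncomputable def NH (E : ι → Gr n) (γ : ℝ) (Gs : Finset ι) : Finset (It ι n) :=
  (full n Gs).filter fun p => ∃ q ∈ Hv E γ Gs, adj E p q

theorem guestA_fib {R : Finset ι} {F : ι → Finset (Fin n)} {f : It ι n → ℕ} {b : ℕ}
    (hb : ∀ i ∈ R, ∑ y ∈ F i, f (i, y) ≤ b) (i : ι) : ∑ q ∈ fib (its R F) Prod.fst i, f q ≤ b := by
  by_cases hi : i ∈ R
  · have : fib (its R F) Prod.fst i = its {i} F := by
      ext q
      simp only [mem_fib, mem_its, mem_singleton]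
      exact ⟨fun h => ⟨h.2, h.1.2⟩, fun h => ⟨⟨h.1 ▸ hi, h.2⟩, h.1⟩⟩
    rw [this, sum_its, sum_singleton]
    exact hb i hi
  · refine le_of_eq_of_le (sum_eq_zero fun q hq => ?_) (Nat.zero_le _)
    have h1 := mem_fib.1 hq
    exact absurd (h1.2 ▸ (mem_its.1 h1.1).1) hi

theorem guestA_num {H c N : ℝ} (h1 : 400 ≤ H) (h2 : 39 * H ^ 4 ≤ N) (h3 : c * H ^ 2 = N / 390)
    (h4 : 0 ≤ c) : (c + H) + (H + 1) * (H * (c + H)) + c + 1 < N / 10 := by
  have a1 : 400 * H ^ 3 ≤ H ^ 4 := by nlinarith [pow_pos (show 0 < H by linarith) 3]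
  have a2 : 400 * H ^ 2 ≤ H ^ 3 := by nlinarith [pow_pos (show 0 < H by linarith) 2]
  have a3 : 400 * H ≤ H ^ 2 := by nlinarith
  have a4 : c * (400 * H) ≤ c * H ^ 2 := by gcongr
  have a5 : c * 400 ≤ c * H := by gcongr
  nlinarith

/-- Proof idea. `h = ⌊4 / γ⌋₊` bounds the number of heavy vertices of a tree (`Tr.card_heavyY`); rows by `binpack` (`Tr.sum_dY_le`); a row contains at most `3.4 / γ` heavy vertices. Special vertices: `p ∈ NH` with `γ k < 80 J dX p` or with two heavy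
neighbours; at most `sp = 160 γ ^ 2 n / 10 ^ 6 + 4 / γ` per tree (`Tr.card_heavyX`, `RT.Good.card_two_le`). Place them by `greedy` (`DX = PY = ∅`, `DY = Hv`, `nb a = {a}`, `AX = Ac = univ`, `Br = Gs`, `wX = dX`, `θA = γ k / 80`,
`MA = n`, `cA = 160 n J / (γ k)`, `wY q` the number of special neighbours, `θB = 3.4 sp / γ`, `MB = cB = 0`). The other vertices of `NH` have one heavy neighbour: `galvin` with `u p` its row, `v p = p.1`, `l = 17 n / 10`, lists the
columns not used by special vertices of the same tree and not occupied in the row. Each column gets at most `J` such vertices, of degree at most `γ k / (80 J)`. -/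
theorem guestA (E : ι → Gr n) (Gs : Finset ι) (γ k : ℝ) (hA : Fintype.card A + 1 = 2 * n)
    (h0 : 0 < γ) (h1 : γ ≤ 1 / 100) (hn : 10 ^ 4 ≤ γ ^ 4 * n) (hk : 100 * (n : ℝ) ≤ γ * k)
    (hJ1 : 100 ≤ γ * Gs.card) (hJ2 : 10 ^ 6 * (Gs.card : ℝ) ≤ γ ^ 3 * k)
    (htr : ∀ i ∈ Gs, Tr (E i)) :
    ∃ (σ : It ι n → A) (ψ : It ι n → ι), Ok E (NH E γ Gs) (Hv E γ Gs) σ ψ ∧
      (∀ q ∈ Hv E γ Gs, ψ q ∈ Gs) ∧ ∀ a, (colL E (NH E γ Gs) σ a : ℝ) ≤ 3 * γ * k / 80 := by
  classical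
  obtain ⟨H, hH⟩ : ∃ H : ℝ, H = 4 / γ := ⟨_, rfl⟩
  obtain ⟨c, hc⟩ : ∃ c : ℝ, c = γ ^ 2 * n / 6240 := ⟨_, rfl⟩
  have hHγ : H * γ = 4 := by rw [hH]; field_simp
  have H1 : 400 ≤ H := by rw [hH, le_div_iff₀ h0]; linarith
  have H2 : 39 * H ^ 4 ≤ n := by
    rw [hH, div_pow, mul_div_assoc', div_le_iff₀ (by positivity)]; linarith
  have c0 : 0 ≤ c := by rw [hc]; positivity
  have num := guestA_num H1 H2 (show c * H ^ 2 = n / 390 by rw [hH, hc]; field_simp; ring) c0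
  have H3 : 100 * H ≤ n := by nlinarith [pow_le_pow_left₀ (by norm_num) H1 3]
  have n0 : (0 : ℝ) < n := by linarith
  have hn0 : 0 < n := by exact_mod_cast n0
  have J0 : (0 : ℝ) < Gs.card := by
    by_contra hc
    nlinarith [mul_nonneg h0.le (neg_nonneg.2 (not_lt.1 hc))]
  have k0 : 0 < γ * k := by linarith
  have hAr : (Fintype.card A : ℝ) + 1 = 2 * n := by exact_mod_cast hA
  have : Nonempty A := Fintype.card_pos_iff.1 (by omega)
  have H0 : 0 ≤ H := by linarith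
  obtain ⟨P, hP⟩ : ∃ P : ι → Finset (Fin n),
      P = fun i => univ.filter fun y => γ * n / 2 ≤ (dY (E i) y : ℝ) := ⟨_, rfl⟩
  have eH : Hv E γ Gs = its Gs P := by
    ext q
    simp only [Hv, its, mem_filter, hP, mem_univ, true_and]
    exact and_congr_right fun _ => ⟨fun h => by linarith only [h], fun h => by linarith only [h]⟩
  have cP : ∀ i ∈ Gs, ((P i).card : ℝ) ≤ H := fun i hi => by
    have := (htr i hi).card_heavyY hn0 (t := γ * n / 2) (by positivity)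
    rw [hH, le_div_iff₀ h0, hP]
    exact le_of_mul_le_mul_right (by linarith only [this]) n0
  have cP' : ∀ i ∈ Gs, (P i).card ≤ ⌊H⌋₊ := fun i hi => Nat.le_floor (cP i hi)
  have fl := Nat.floor_le H0
  obtain ⟨ψ, p1, p2, p3⟩ := binpack (Hv E γ Gs) Prod.fst (fun q => dY (E q.1) q.2) Gs
    (card_pos.1 (by exact_mod_cast J0)) n ⌊H⌋₊ (fun q hq => mem_full.1 (mem_filter.1 hq).1)
    (fun i => eH ▸ guestA_fib (fun j hj => ((htr j hj).sum_dY_le hn0 _).trans
      (Nat.add_le_add_left (cP' j hj) _)) i)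
    (fun i => by
      rw [card_eq_sum_ones, eH]
      exact guestA_fib (fun j hj => by rw [← card_eq_sum_ones]; exact cP' j hj) i)
    (fun q _ => dY_le _ _)
    (by
      have : 25 * (⌊H⌋₊ : ℝ) ≤ Gs.card := by nlinarith only [fl, hHγ, hJ1, h0, H0]
      exact_mod_cast this)
    (by
      have : 100 * (⌊H⌋₊ : ℝ) ≤ n := by linarith only [fl, H3]
      exact_mod_cast this) hn0
  have cR : ∀ r, ((fib (Hv E γ Gs) ψ r).card : ℝ) ≤ H := fun r => by
    have a1 := card_nsmul_le_sum (fib (Hv E γ Gs) ψ r) (fun q => 2 * (dY (E q.1) q.2 : ℝ)) (γ * n)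
      fun q hq => (mem_filter.1 (mem_fib.1 hq).1).2
    have a2 : (10 : ℝ) * ∑ q ∈ fib (Hv E γ Gs) ψ r, (dY (E q.1) q.2 : ℝ) ≤ 17 * n := by
      exact_mod_cast p3 r
    rw [nsmul_eq_mul, ← mul_sum] at a1
    rw [hH, le_div_iff₀ h0]
    exact le_of_mul_le_mul_right (by linarith only [a1, a2, n0]) n0
  obtain ⟨F, hF⟩ : ∃ F : ι → Finset (Fin n), ∀ i x, x ∈ F i ↔ (i, x) ∈ NH E γ Gs ∧
      (γ * k / (80 * Gs.card) ≤ (dX (E i) x : ℝ) ∨
        2 ≤ ((nX (E i) x).filter fun y => y ∈ P i).card) :=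
    ⟨fun i => univ.filter _, fun i x => mem_filter.trans (and_iff_right (mem_univ x))⟩
  obtain ⟨Sp, hSp⟩ : ∃ Sp, Sp = its Gs F := ⟨_, rfl⟩
  have hck : 2 * (n : ℝ) * Gs.card ≤ c * (γ * k / 80) := by
    have a1 := mul_le_mul_of_nonneg_left hJ2 n0.le
    have a2 := mul_pos n0 J0
    rw [hc]; linarith only [a1, a2]
  have cF : ∀ i ∈ Gs, ((F i).card : ℝ) ≤ c + H := fun i hi => by
    obtain ⟨T, hT, -⟩ := htr i hi ⟨0, hn0⟩
    have a1 := (htr i hi).card_heavyX hn0 (t := γ * k / (80 * Gs.card))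
      (div_nonneg k0.le (mul_nonneg (by norm_num) J0.le))
    have a2 : ((univ.filter fun x => γ * k / (80 * Gs.card) ≤ (dX (E i) x : ℝ)).card : ℝ) ≤ c := by
      rw [mul_div_assoc', div_le_iff₀ (mul_pos (by norm_num) J0)] at a1
      exact le_of_mul_le_mul_right (by linarith only [a1, hck]) k0
    have a3 := (Nat.cast_le (α := ℝ).2 (hT.card_two_le (P i))).trans (cP i hi)
    refine le_trans ?_ (add_le_add a2 a3)
    rw [← Nat.cast_add, Nat.cast_le]
    refine (card_le_card fun x hx => ?_).trans (card_union_le _ _)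
    simpa using ((hF i x).1 hx).2
  have cO : ∀ i ∈ Gs, ((Sp.filter fun p => p.1 = i).card : ℝ) ≤ c + H := fun i hi =>
    (Nat.cast_le.2 (hSp ▸ card_its_owner_le Gs F i)).trans (cF i hi)
  have cB : ∀ r, ∑ q ∈ fib (Hv E γ Gs) ψ r, ((Sp.filter fun p => adj E p q).card : ℝ) ≤
      H * (c + H) := fun r => by
    refine (sum_le_card_nsmul _ _ (c + H) fun q hq => ?_).trans ?_
    · refine le_trans (Nat.cast_le.2 (card_le_card fun p hp => ?_))
        (cO q.1 (mem_full.1 (mem_filter.1 (mem_fib.1 hq).1).1))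
      exact mem_filter.2 ⟨(mem_filter.1 hp).1, (mem_filter.1 hp).2.1⟩
    · rw [nsmul_eq_mul]
      exact mul_le_mul_of_nonneg_right (cR r) (add_nonneg c0 H0)
  have eA : ∀ σ0 : It ι n → A, act ∅ Sp σ0 univ = Sp := fun σ0 => by simp [act]
  have sS : Sp ⊆ NH E γ Gs := fun p hp => ((hF _ _).1 (mem_its.1 (hSp ▸ hp)).2).1
  obtain ⟨σ, ψ', -, q2, -, -, q5, -, -, q8, -⟩ := greedy (KA := Unit) (KB := Unit) E ∅ (Hv E γ Gs)
    Sp ∅ (fun _ => Classical.arbitrary A) ψ ⟨by simp, p2, by simp⟩ (by simp) (by simp)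
    (fun _ => 0) (fun _ => 0) (by simp) (by simp) (fun a => {a}) 1 (by simp)
    (fun a b h => by simpa [eq_comm] using h) (by simp) (fun _ => univ) (fun _ => ∅) univ Gs
    (by simp) (by simp) (by simp) (fun q hq _ _ _ => p1 q hq)
    (fun _ p => dX (E p.1) p.2) (fun _ => γ * k / 80) (fun _ => n) (fun _ => c) ()
    (fun _ q => (Sp.filter fun p => adj E p q).card) (fun _ => H * (c + H)) (fun _ => 0)
    (fun _ => 0) () (fun _ _ => Nat.cast_nonneg _) (fun _ => by positivity) (fun _ => c0)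
    (fun _ _ => Nat.cast_nonneg _) (fun _ => by positivity) (fun _ => le_rfl)
    (fun p _ => Nat.cast_le.2 (card_adjX_le _ p)) (fun q _ => by rw [eA]) (fun _ => n0.le)
    (fun _ p _ => Nat.cast_le.2 (dX_le _ _)) (fun _ => le_rfl) (by simp)
    (fun _ a _ => by simp only [fib, filter_empty, sum_empty]; positivity)
    (fun _ r _ => by rw [add_zero]; exact cB r)
    (fun _ _ => by
      rw [eA]
      refine (sum_le_sum_of_subset_of_nonneg (hSp ▸ its_subset Gs F)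
        fun _ _ _ => Nat.cast_nonneg _).trans (le_trans ?_ hck)
      rw [sum_full, mul_comm, ← nsmul_eq_mul]
      refine sum_le_card_nsmul _ _ _ fun i hi => ?_
      have := (htr i hi).sum_dX hn0
      exact_mod_cast (show ∑ x, dX (E i) x ≤ 2 * n by omega))
    (by simp)
    (fun p hp => by
      have hi := (mem_its.1 (hSp ▸ hp)).1
      have a1 := cO p.1 hi
      have a2 : (((Hv E γ Gs).filter fun q => adj E p q).card : ℝ) ≤ H := by
        refine le_trans (Nat.cast_le.2 ((card_le_card fun q hq => ?_).trans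
          (card_its_owner_le Gs P p.1))) (cP _ hi)
        exact mem_filter.2 ⟨eH ▸ (mem_filter.1 hq).1, (mem_filter.1 hq).2.1.symm⟩
      have a3 : (if 0 < (dX (E p.1) p.2 : ℝ) then c else 0) ≤ c := by split_ifs <;> linarith only [c0]
      have a4 : ((((Hv E γ Gs).filter fun q => adj E p q).card : ℝ) + 1) * (H * (c + H)) ≤
          (H + 1) * (H * (c + H)) :=
        mul_le_mul_of_nonneg_right (by linarith only [a2]) (mul_nonneg H0 (add_nonneg c0 H0))
      rw [eA, card_univ, Fintype.sum_unique, add_zero, Nat.cast_one, one_mul, one_mul]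
      linarith only [a1, a3, a4, num, hAr, n0])
    (by simp)
  rw [empty_union, union_empty] at q5
  have ok := q5.congr (σ' := σ) (ψ' := ψ) (fun _ _ => rfl) fun q hq => (q2 q hq).symm
  have q9 := fun a => q8 () a (mem_univ a)
  simp only [empty_union] at q9
  choose! hv hv1 hv2 using fun p (hp : p ∈ NH E γ Gs) => (mem_filter.1 hp).2
  have hG : ∀ p ∈ NH E γ Gs, p.1 ∈ Gs := fun p hp => mem_full.1 (mem_filter.1 hp).1
  have nS : ∀ p ∈ NH E γ Gs \ Sp, (dX (E p.1) p.2 : ℝ) ≤ γ * k / (80 * Gs.card) ∧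
      ∀ q ∈ Hv E γ Gs, adj E p q → q = hv p := by
    intro p hp
    obtain ⟨a1, a2⟩ := mem_sdiff.1 hp
    have a3 := fun h => a2 (hSp ▸ mem_its.2 ⟨hG p a1, (hF _ _).2 ⟨a1, h⟩⟩)
    refine ⟨(not_le.1 fun h => a3 (Or.inl h)).le, fun q hq e => ?_⟩
    have a4 := card_le_one.1 (Nat.le_of_lt_succ (not_le.1 fun h => a3 (Or.inr h)))
    have a5 : ∀ q ∈ Hv E γ Gs, adj E p q → q.2 ∈ (nX (E p.1) p.2).filter fun y => y ∈ P p.1 :=
      fun q hq e => mem_filter.2 ⟨mem_nX.2 e.2, e.1 ▸ (mem_its.1 (eH ▸ hq)).2⟩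
    exact Prod.ext (e.1.symm.trans (hv2 p a1).1) (a4 _ (a5 q hq e) _ (a5 _ (hv1 p a1) (hv2 p a1)))
  obtain ⟨g, g1, g2⟩ := galvin (NH E γ Gs \ Sp) (fun p => ψ (hv p)) Prod.fst (fun _ => 17 * n / 10)
    (fun p => univ \ ((Sp.filter fun p' => p'.1 = p.1).image σ ∪
      holes E Sp (Hv E γ Gs) σ ψ (ψ (hv p))))
    (fun e _ => by
      have a1 : fib (NH E γ Gs \ Sp) (fun p => ψ (hv p)) (ψ (hv e)) ⊆
          (fib (Hv E γ Gs) ψ (ψ (hv e))).biUnion fun q => (NH E γ Gs).filter fun p => adj E p q := by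
        intro p hp
        have a2 := (mem_sdiff.1 (mem_fib.1 hp).1).1
        exact mem_biUnion.2 ⟨hv p, mem_fib.2 ⟨hv1 p a2, (mem_fib.1 hp).2⟩,
          mem_filter.2 ⟨a2, hv2 p a2⟩⟩
      have a2 := (card_le_card a1).trans (card_biUnion_le.trans
        (sum_le_sum fun q _ => card_adjY_le _ q))
      have a3 := p3 (ψ (hv e))
      omega)
    (fun e _ => (card_owner_le _ e.1).trans (by omega))
    (fun e he => by
      have a1 := (Nat.cast_le.2 (card_image_le (f := σ))).trans (cO e.1 (hG e (mem_sdiff.1 he).1))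
      have a2 : ((holes E Sp (Hv E γ Gs) σ ψ (ψ (hv e))).card : ℝ) ≤ H * (c + H) := by
        rw [ok.card_holes, Nat.cast_sum]
        exact cB _
      have a3 := le_card_sdiff ((Sp.filter fun p' => p'.1 = e.1).image σ ∪
        holes E Sp (Hv E γ Gs) σ ψ (ψ (hv e))) univ
      have a4 := card_union_le ((Sp.filter fun p' => p'.1 = e.1).image σ)
        (holes E Sp (Hv E γ Gs) σ ψ (ψ (hv e)))
      have a5 : 0 ≤ H * (H * (c + H)) := by positivity
      have a6 : 10 * ((((Sp.filter fun p' => p'.1 = e.1).image σ).card : ℝ) +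
          (holes E Sp (Hv E γ Gs) σ ψ (ψ (hv e))).card + 1) ≤ n := by
        linarith only [a1, a2, a5, num, c0]
      have a7 : 10 * (((Sp.filter fun p' => p'.1 = e.1).image σ).card +
          (holes E Sp (Hv E γ Gs) σ ψ (ψ (hv e))).card + 1) ≤ n := by exact_mod_cast a6
      rw [card_univ] at a3
      omega)
  have g3 : ∀ p ∈ NH E γ Gs \ Sp, ∀ p' ∈ Sp, σ p' = g p → p'.1 ≠ p.1 ∧
      ∀ q ∈ Hv E γ Gs, ∀ q' ∈ Hv E γ Gs, adj E p q → adj E p' q' → ψ q' ≠ ψ q := by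
    intro p hp p' hp' e
    have a1 := (mem_sdiff.1 (g1 p hp)).2
    rw [mem_union, not_or] at a1
    refine ⟨fun h => a1.1 (mem_image.2 ⟨p', mem_filter.2 ⟨hp', h⟩, e⟩),
      fun q hq q' hq' e1 e2 h => a1.2 (mem_holes.2 ⟨p', hp', q', hq', e2, e, ?_⟩)⟩
    rw [h, (nS p hp).2 q hq e1]
  have ok' : Ok E (NH E γ Gs) (Hv E γ Gs) (fun p => if p ∈ Sp then σ p else g p) ψ := by
    refine ⟨fun p hp p' hp' e1 e2 => ?_, p2, fun p hp q hq p' hp' q' hq' e1 e2 e3 e4 => ?_⟩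
    · by_cases a : p ∈ Sp <;> by_cases a' : p' ∈ Sp <;> simp only [a, a', if_true, if_false] at e2
      · exact ok.injX p a p' a' e1 e2
      · exact absurd e1 (g3 p' (mem_sdiff.2 ⟨hp', a'⟩) p a e2).1
      · exact absurd e1.symm (g3 p (mem_sdiff.2 ⟨hp, a⟩) p' a' e2.symm).1
      · by_contra hne
        exact g2 p (mem_sdiff.2 ⟨hp, a⟩) p' (mem_sdiff.2 ⟨hp', a'⟩) hne (Or.inr e1) e2
    · by_cases a : p ∈ Sp <;> by_cases a' : p' ∈ Sp <;> simp only [a, a', if_true, if_false] at e3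
      · exact ok.cell p a q hq p' a' q' hq' e1 e2 e3 e4
      · exact absurd e4 ((g3 p' (mem_sdiff.2 ⟨hp', a'⟩) p a e3).2 q' hq' q hq e2 e1)
      · exact absurd e4.symm ((g3 p (mem_sdiff.2 ⟨hp, a⟩) p' a' e3.symm).2 q hq q' hq' e1 e2)
      · by_contra hne
        refine g2 p (mem_sdiff.2 ⟨hp, a⟩) p' (mem_sdiff.2 ⟨hp', a'⟩) hne (Or.inl ?_) e3
        rw [← (nS p (mem_sdiff.2 ⟨hp, a⟩)).2 q hq e1, ← (nS p' (mem_sdiff.2 ⟨hp', a'⟩)).2 q' hq' e2,
          e4]
  refine ⟨_, ψ, ok', p1, fun a => ?_⟩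
  have b1 := ok'.card_fib_col_le (D := NH E γ Gs \ Sp) sdiff_subset
    (fun p hp => hG p (mem_sdiff.1 hp).1) a
  have b2 : (colL E (NH E γ Gs \ Sp) (fun p => if p ∈ Sp then σ p else g p) a : ℝ) ≤ γ * k / 80 := by
    rw [colL, Nat.cast_sum]
    refine (sum_le_card_nsmul _ _ _ fun p hp => (nS p (mem_fib.1 hp).1).1).trans ?_
    rw [nsmul_eq_mul]
    calc _ ≤ (Gs.card : ℝ) * (γ * k / (80 * Gs.card)) := mul_le_mul_of_nonneg_right
          (Nat.cast_le.2 b1) (div_nonneg k0.le (mul_nonneg (by norm_num) J0.le))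
      _ = _ := by rw [mul_div_assoc', mul_comm (80 : ℝ), mul_div_mul_left _ _ J0.ne']
  have b3 : (colL E Sp (fun p => if p ∈ Sp then σ p else g p) a : ℝ) ≤ γ * k / 80 + n := by
    rw [colL_congr (σ := σ) fun p hp => if_pos hp, colL, Nat.cast_sum]
    exact q9 a
  rw [← union_sdiff_of_subset sS, colL_union disjoint_sdiff, Nat.cast_add]
  linarith only [b2, b3, hk, k0]

end Pool.Agent.MP_4c107d_co.H78

end

section

/-!
The guests; the layout of the columns.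
-/

set_option autoImplicit false
set_option linter.unusedSectionVars false

namespace Pool.Agent.MP_4c107d_co.H78

open Finset

variable {ι A τ : Type} [DecidableEq ι] [DecidableEq A] [Fintype A] [DecidableEq τ] [Fintype τ]
  {n S d : ℕ} {E : ι → Gr n} {B : Tab τ} {P : Par} {Hs Gs : Finset ι} {D : ι → DD n τ}


theorem guestB_numX {γ k J N : ℝ} (h0 : 0 < γ) (h1 : γ ≤ 1 / 100) (hN : 100 ≤ N)
    (hk : 100 * N ≤ γ * k) (hJ : 10 ^ 6 * J ≤ γ ^ 3 * k) :
    N + (γ * N / 2 + γ * N / 2) + 160 * N * J / (3 * γ * k) < 2 * N - 1 := by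
  have hγk : 0 < γ * k := by linarith
  have h2 : γ ^ 3 * k ≤ γ * k := by
    have : γ ^ 2 ≤ 1 := pow_le_one₀ h0.le (by linarith)
    calc γ ^ 3 * k = γ ^ 2 * (γ * k) := by ring
      _ ≤ 1 * (γ * k) := mul_le_mul_of_nonneg_right this hγk.le
      _ = γ * k := one_mul _
  have h3 : 160 * N * J / (3 * γ * k) ≤ N / 100 := by
    rw [div_le_iff₀ (by linarith)]
    have h4 : 10 ^ 6 * J ≤ γ * k := hJ.trans h2
    have h5 := mul_le_mul_of_nonneg_left h4 (by linarith : (0 : ℝ) ≤ N)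
    have h6 : 0 ≤ N * (γ * k) := by positivity
    nlinarith
  have h7 := mul_le_mul_of_nonneg_right h1 (by linarith : (0 : ℝ) ≤ N)
  linarith

theorem guestB_numY {γ k J N c : ℝ} (h0 : 0 < γ) (h1 : γ ≤ 1 / 100) (hN : 100 ≤ N)
    (hk : 100 * N ≤ γ * k) (hJ : 10 ^ 6 * J ≤ γ ^ 3 * k) (hc : c * γ ≤ 4) :
    N + (c + 1) * (3 * γ * k / 80 + N) + 4 * J / γ < k := by
  have hγk : 0 < γ * k := by linarith
  have hk0 : 0 < k := by
    by_contra h
    have := mul_nonpos_of_nonneg_of_nonpos h0.le (not_lt.1 h)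
    linarith
  have h2 : γ * k ≤ k / 100 := by
    have := mul_le_mul_of_nonneg_right h1 hk0.le
    linarith
  have h3 : 4 * J / γ ≤ k / 100 := by
    rw [div_le_iff₀ h0]
    have : γ ^ 2 ≤ 1 := pow_le_one₀ h0.le (by linarith)
    have h4 : γ ^ 3 * k ≤ γ * k := by
      calc γ ^ 3 * k = γ ^ 2 * (γ * k) := by ring
        _ ≤ 1 * (γ * k) := mul_le_mul_of_nonneg_right this hγk.le
        _ = γ * k := one_mul _
    linarith
  have h5 : (c + 1) * (3 * γ * k / 80 + N) ≤ k / 2 := by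
    rcases le_total (c + 1) 0 with h | h
    · have := mul_nonpos_of_nonpos_of_nonneg h (by linarith : 0 ≤ 3 * γ * k / 80 + N)
      linarith
    · calc (c + 1) * (3 * γ * k / 80 + N) ≤ (c + 1) * (γ * k / 10) :=
            mul_le_mul_of_nonneg_left (by linarith) h
        _ = (c * γ) * (k / 10) + γ * k / 10 := by ring
        _ ≤ 4 * (k / 10) + γ * k / 10 := by gcongr
        _ ≤ k / 2 := by linarith
  linarith

theorem guestB_nbr {γ : ℝ} (h0 : 0 < γ) (hn : 0 < n) (htr : ∀ i ∈ Gs, Tr (E i)) {q : It ι n}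
    (hq : q ∈ full n Gs \ Hv E γ Gs) :
    (((NH E γ Gs).filter fun p => adj E p q).card : ℝ) * γ ≤ 4 := by
  have hq1 := mem_full.1 (mem_sdiff.1 hq).1
  have hn' : (0 : ℝ) < n := Nat.cast_pos.2 hn
  obtain ⟨T, hT, -⟩ := htr _ hq1 ⟨0, hn⟩
  set Pq : Finset (Fin n) := univ.filter fun y => γ * n / 2 ≤ (dY (E q.1) y : ℝ) with hP
  have hy : q.2 ∉ Pq := by
    intro hc
    apply (mem_sdiff.1 hq).2
    have := (mem_filter.1 hc).2
    exact mem_filter.2 ⟨(mem_sdiff.1 hq).1, by linarith⟩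
  have h1 : ((NH E γ Gs).filter fun p => adj E p q).card ≤ Pq.card := by
    refine le_trans ?_ (hT.card_nbr_le Pq hy)
    refine card_le_card_of_injOn (fun p => p.2) (fun p hp => ?_) fun p hp p' hp' e => ?_
    · obtain ⟨hp1, hp2⟩ := mem_filter.1 hp
      obtain ⟨-, q', hq', ha⟩ := mem_filter.1 hp1
      have e : p.1 = q.1 := hp2.1
      have e' : q'.1 = q.1 := ha.1.symm.trans e
      refine mem_coe.2 (mem_filter.2 ⟨mem_nY.2 (e ▸ hp2.2), q'.2, ?_, e ▸ ha.2⟩)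
      have := (mem_filter.1 hq').2
      rw [e'] at this
      exact mem_filter.2 ⟨mem_univ _, by linarith⟩
    · exact Prod.ext ((mem_filter.1 hp).2.1.trans (mem_filter.1 hp').2.1.symm) e
  have h2 := (htr _ hq1).card_heavyY hn (t := γ * n / 2) (by positivity)
  have h3 : (((NH E γ Gs).filter fun p => adj E p q).card : ℝ) ≤ Pq.card := by exact_mod_cast h1
  have h4 : (Pq.card : ℝ) * γ ≤ 4 := by
    apply le_of_mul_le_mul_right _ hn'
    linarith
  exact (mul_le_mul_of_nonneg_right h3 h0.le).trans h4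

theorem guestB_sumX (hn : 0 < n) (htr : ∀ i ∈ Gs, Tr (E i)) {X : Finset (It ι n)}
    (hX : X ⊆ full n Gs) : ∑ p ∈ X, (dX (E p.1) p.2 : ℝ) ≤ 2 * n * Gs.card := by
  calc ∑ p ∈ X, (dX (E p.1) p.2 : ℝ) ≤ ∑ p ∈ full n Gs, (dX (E p.1) p.2 : ℝ) :=
        sum_le_sum_of_subset_of_nonneg hX fun _ _ _ => Nat.cast_nonneg _
    _ = ∑ i ∈ Gs, ∑ x, (dX (E i) x : ℝ) := sum_full _ _
    _ ≤ ∑ i ∈ Gs, (2 * n : ℝ) := by
        refine sum_le_sum fun i hi => ?_
        have : ∑ x, (dX (E i) x : ℝ) + 1 = 2 * n := by exact_mod_cast (htr i hi).sum_dX hn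
        linarith
    _ = 2 * n * Gs.card := by rw [sum_const, nsmul_eq_mul, mul_comm]

theorem guestB_sumY (hn : 0 < n) (htr : ∀ i ∈ Gs, Tr (E i)) {Y : Finset (It ι n)}
    (hY : Y ⊆ full n Gs) : ∑ q ∈ Y, (dY (E q.1) q.2 : ℝ) ≤ 2 * n * Gs.card := by
  calc ∑ q ∈ Y, (dY (E q.1) q.2 : ℝ) ≤ ∑ q ∈ full n Gs, (dY (E q.1) q.2 : ℝ) :=
        sum_le_sum_of_subset_of_nonneg hY fun _ _ _ => Nat.cast_nonneg _
    _ = ∑ i ∈ Gs, ∑ y, (dY (E i) y : ℝ) := sum_full _ _
    _ ≤ ∑ i ∈ Gs, (2 * n : ℝ) := by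
        refine sum_le_sum fun i hi => ?_
        have : ∑ y, (dY (E i) y : ℝ) + 1 = 2 * n := by exact_mod_cast (htr i hi).sum_dY hn
        linarith
    _ = 2 * n * Gs.card := by rw [sum_const, nsmul_eq_mul, mul_comm]

/-- Proof idea. `guestA`, then `greedy` with `PX = full \ NH`, `PY = full \ Hv`, ranks of rootings, `nb a = {a}`, `AX = Ac = univ`, `AY = Br = Hs`, `wX = dX`, `θA = 3 γ k / 80`, `MA = n`, `cA = 160 n J / (3 γ k)`, `wY = dY`, `θB = MB = γ n / 2`,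
`cB = 4 J / γ`. New column vertices have no old neighbour; new row vertices have at most `4 / γ` (`RT.Good.card_nbr_le`). -/
theorem guests (h : One A E B S d P Hs Gs D) :
    ∃ (σ : It ι n → A) (ψ : It ι n → ι), Ok E (full n Gs) (full n Gs) σ ψ ∧
      Gst E P.γ Hs Gs σ ψ := by
  have h0 := h.par.γpos
  have h1 : P.γ ≤ 1 / 100 := h.par.γ_le'.trans (by norm_num)
  have hn100 : 100 ≤ n := le_trans (by norm_num) h.n_ge'
  have hn : 0 < n := by omega
  have hN : (100 : ℝ) ≤ n := by exact_mod_cast hn100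
  have hk := h.γk
  have hγk : 0 < P.γ * Hs.card := by linarith
  obtain ⟨σ0, ψ0, hok, hG, hcol⟩ :=
    guestA (A := A) E Gs P.γ Hs.card h.hA h0 h1 h.hn hk h.hJ1 h.hJ2 h.trG
  have hT : ∀ i, ∃ T : RT n, i ∈ Gs → T.Good (E i) := by
    intro i
    by_cases hi : i ∈ Gs
    · obtain ⟨T, hT, -⟩ := h.trG i hi ⟨0, hn⟩
      exact ⟨T, fun _ => hT⟩
    · exact ⟨⟨⟨0, hn⟩, id, id, fun _ => 0, fun _ => 0⟩, fun hc => absurd hc hi⟩
  choose T hT using hT
  have sX : NH E P.γ Gs ⊆ full n Gs := filter_subset _ _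
  have sY : Hv E P.γ Gs ⊆ full n Gs := filter_subset _ _
  have aX : act (NH E P.γ Gs) (full n Gs \ NH E P.γ Gs) σ0 univ ⊆ full n Gs :=
    union_subset sdiff_subset ((filter_subset _ _).trans sX)
  have aY : act (Hv E P.γ Gs) (full n Gs \ Hv E P.γ Gs) ψ0 Hs ⊆ full n Gs :=
    union_subset sdiff_subset ((filter_subset _ _).trans sY)
  have hno : ∀ q ∈ Hv E P.γ Gs, ∀ p ∈ full n Gs \ NH E P.γ Gs, ¬ adj E p q :=
    fun q hq p hp ha => (mem_sdiff.1 hp).2 (mem_filter.2 ⟨(mem_sdiff.1 hp).1, q, hq, ha⟩)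
  have hAc : (Fintype.card A : ℝ) = 2 * n - 1 := by
    have : (Fintype.card A : ℝ) + 1 = 2 * n := by exact_mod_cast h.hA
    linarith
  obtain ⟨σ, ψ, -, e2, -, e4, e5, -, -, e8, e9⟩ := greedy (KA := Unit) (KB := Unit) E
    (NH E P.γ Gs) (Hv E P.γ Gs) (full n Gs \ NH E P.γ Gs) (full n Gs \ Hv E P.γ Gs) σ0 ψ0 hok
    disjoint_sdiff disjoint_sdiff (fun p => (T p.1).rX p.2) (fun q => (T q.1).rY q.2)
    (by
      rintro ⟨i, x⟩ hp ⟨j, y⟩ - ⟨j', y'⟩ - ⟨rfl, a⟩ ⟨rfl, a'⟩ r r'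
      have g := hT _ (mem_full.1 (mem_sdiff.1 hp).1)
      exact Prod.ext rfl ((g.of_rY_le a r).2.symm.trans (g.of_rY_le a' r').2))
    (by
      rintro ⟨j, y⟩ hq ⟨i, x⟩ - ⟨i', x'⟩ - ⟨rfl, a⟩ ⟨rfl, a'⟩ r r'
      have g := hT _ (mem_full.1 (mem_sdiff.1 hq).1)
      exact Prod.ext rfl ((g.of_rX_le a r).symm.trans (g.of_rX_le a' r')))
    (fun a => {a}) 1 (fun a => mem_singleton_self a)
    (fun a b hb => mem_singleton.2 (mem_singleton.1 hb).symm) (fun a => (card_singleton a).le)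
    (fun _ => univ) (fun _ => Hs) univ Hs (fun _ _ _ _ => subset_univ _)
    (fun _ _ _ _ _ => subset_univ _) (fun _ _ => Subset.rfl)
    (fun q hq p hp ha => absurd ha (hno q hq p hp))
    (fun _ p => (dX (E p.1) p.2 : ℝ)) (fun _ => 3 * P.γ * Hs.card / 80) (fun _ => n)
    (fun _ => 160 * n * Gs.card / (3 * P.γ * Hs.card)) ()
    (fun _ q => (dY (E q.1) q.2 : ℝ)) (fun _ => P.γ * n / 2) (fun _ => P.γ * n / 2)
    (fun _ => 4 * Gs.card / P.γ) ()
    (fun _ _ => Nat.cast_nonneg _) (fun _ => by positivity) (fun _ => by positivity)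
    (fun _ _ => Nat.cast_nonneg _) (fun _ => by positivity) (fun _ => by positivity)
    (fun p _ => Nat.cast_le.2 (card_adjX_le _ p)) (fun q _ => Nat.cast_le.2 (card_adjY_le _ q))
    (fun _ => Nat.cast_nonneg _) (fun _ p _ => Nat.cast_le.2 (dX_le _ _))
    (fun _ => by positivity)
    (by
      intro _ q hq
      by_contra hc
      exact (mem_sdiff.1 hq).2 (mem_filter.2 ⟨(mem_sdiff.1 hq).1, by linarith [not_le.1 hc]⟩))
    (by
      intro _ a _
      have := hcol a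
      rw [colL, Nat.cast_sum] at this
      linarith)
    (by
      intro _ r hr
      rw [sum_eq_zero]
      · positivity
      · intro q hq
        have a := hG q (mem_fib.1 hq).1
        rw [(mem_fib.1 hq).2] at a
        exact absurd a (disjoint_left.1 h.disj hr))
    (by
      intro _ _
      refine (guestB_sumX hn h.trG aX).trans (le_of_eq ?_)
      have : (Hs.card : ℝ) ≠ 0 := fun hc => by rw [hc] at hγk; simp at hγk
      field_simp
      ring)
    (by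
      intro _ _
      refine (guestB_sumY hn h.trG aY).trans (le_of_eq ?_)
      field_simp
      ring)
    (by
      intro p hp
      have c1 : (((act (NH E P.γ Gs) (full n Gs \ NH E P.γ Gs) σ0 univ).filter
          fun p' => p'.1 = p.1).card : ℝ) ≤ n := Nat.cast_le.2 (card_owner_le _ _)
      have c2 : ((Hv E P.γ Gs).filter fun q => adj E p q) = ∅ :=
        filter_eq_empty_iff.2 fun q hq => hno q hq p hp
      have c3 := guestB_numX h0 h1 hN hk h.hJ2
      have c4 : (0 : ℝ) ≤ 160 * n * Gs.card / (3 * P.γ * Hs.card) := by positivity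
      rw [c2, card_empty, card_univ, hAc, Fintype.sum_unique]
      push_cast
      split_ifs <;> linarith)
    (by
      intro q hq
      have c1 : (((act (Hv E P.γ Gs) (full n Gs \ Hv E P.γ Gs) ψ0 Hs).filter
          fun q' => q'.1 = q.1).card : ℝ) ≤ n := Nat.cast_le.2 (card_owner_le _ _)
      have c3 := guestB_numY h0 h1 hN hk h.hJ2 (guestB_nbr h0 hn h.trG hq)
      have c4 : (0 : ℝ) ≤ 4 * Gs.card / P.γ := by positivity
      rw [Fintype.sum_unique]
      push_cast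
      split_ifs <;> linarith)
  rw [union_sdiff_of_subset sX] at e5 e8
  rw [union_sdiff_of_subset sY] at e5 e9
  refine ⟨σ, ψ, e5, fun q hq => ?_, fun a => ?_, fun r hr => ?_⟩
  · by_cases hc : q ∈ Hv E P.γ Gs
    · rw [e2 q hc]
      exact mem_union_right _ (hG q hc)
    · exact mem_union_left _ (e4 q (mem_sdiff.2 ⟨hq, hc⟩))
  · have := e8 () a (mem_univ a)
    rw [colL, Nat.cast_sum]
    linarith
  · have := e9 () r hr
    rw [rowL, Nat.cast_sum]
    linarith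

theorem guestB_avg (h : One A E B S d P Hs Gs D) :
    ∑ c, avN Hs D c * B.e c + ((SY Hs D 3).card : ℝ) / Hs.card ≤ 2 * n - n / 10 ^ 15 := by
  have hn : 0 < n := lt_of_lt_of_le (by norm_num) h.n_ge'
  have hk : 0 < Hs.card := lt_of_lt_of_le (by positivity) h.k_ge'
  have hk' : (0 : ℝ) < Hs.card := Nat.cast_pos.2 hk
  have h1 : ∀ i ∈ Hs, ∑ c, ((D i).N c : ℝ) * B.e c + (((D i).sY 3).card : ℝ)
      ≤ 2 * n - n / 10 ^ 15 := by
    intro i hi
    have a := (h.good i hi).lab.sE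
    rw [← (D i).sum_N B.e] at a
    have b : (D i).sY 2 = lvY (E i) := by
      ext y
      rw [Kd.mem_sY, (h.good i hi).kd.fil y]
      simp [lvY]
    rw [b] at a
    have a' : ∑ c, ((D i).N c : ℝ) * B.e c + (((D i).sY 3).card : ℝ) + (lvY (E i)).card
        ≤ 2 * n := by exact_mod_cast a
    have c : (n : ℝ) ≤ 10 ^ 15 * (lvY (E i)).card := by exact_mod_cast h.lv i hi
    linarith
  have h2 := sum_le_sum h1
  rw [sum_add_distrib, sum_comm, sum_const, nsmul_eq_mul] at h2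
  have h3 : ((SY Hs D 3).card : ℝ) = ∑ i ∈ Hs, (((D i).sY 3).card : ℝ) := by
    rw [SY, card_its, Nat.cast_sum]
  have h4 : ∑ c, avN Hs D c * B.e c = (∑ c, ∑ i ∈ Hs, ((D i).N c : ℝ) * B.e c) / Hs.card := by
    rw [sum_div]
    refine sum_congr rfl fun c _ => ?_
    rw [avN, ← sum_mul, div_mul_eq_mul_div]
  rw [h3, h4, ← add_div, div_le_iff₀ hk', mul_comm]
  exact h2

theorem guestB_small (h : One A E B S d P Hs Gs D) :
    ∑ c, 3 * P.e1 * n * (B.e c : ℝ) ≤ n / 10 ^ 60 := by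
  have h0 := h.par.e1pos
  have h1 := h.par.he1
  have hS : (0 : ℝ) ≤ S := Nat.cast_nonneg _
  have hM : (0 : ℝ) ≤ Fintype.card τ := Nat.cast_nonneg _
  have hn : (0 : ℝ) ≤ n := Nat.cast_nonneg _
  have h2 : (Fintype.card τ : ℝ) * S ≤ ((Fintype.card τ : ℝ) + 1) * ((S : ℝ) + 1) ^ 2 :=
    mul_le_mul (by linarith) (by nlinarith) hS (by linarith)
  have h3 : (Fintype.card τ : ℝ) * S * P.e1 ≤ 1 / 10 ^ 61 := by
    have := mul_le_mul_of_nonneg_right h2 h0.le
    linarith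
  calc ∑ c, 3 * P.e1 * n * (B.e c : ℝ) ≤ ∑ _c : τ, 3 * P.e1 * n * (S : ℝ) :=
        sum_le_sum fun c _ =>
          mul_le_mul_of_nonneg_left (Nat.cast_le.2 (h.uni.he c)) (by positivity)
    _ = (Fintype.card τ : ℝ) * S * P.e1 * (3 * n) := by
        rw [sum_const, card_univ, nsmul_eq_mul]; ring
    _ ≤ 1 / 10 ^ 61 * (3 * n) := mul_le_mul_of_nonneg_right h3 (by positivity)
    _ ≤ n / 10 ^ 60 := by linarith

theorem guestB_embed (C : Finset A) (a0 : A) (U e : τ → ℕ) (h : ∑ c, U c * e c ≤ C.card) :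
    ∃ col : τ → ℕ → ℕ → A,
      (∀ c t s c' t' s', t < U c → s < e c → t' < U c' → s' < e c' →
        col c t s = col c' t' s' → c = c' ∧ t = t' ∧ s = s') ∧
      ∀ c t s, t < U c → s < e c → col c t s ∈ C := by
  have h1 : Fintype.card (Σ c : τ, Fin (U c) × Fin (e c)) ≤ C.card := by
    simpa [Fintype.card_sigma] using h
  obtain ⟨f, hf⟩ := Function.Embedding.exists_of_card_le_finset h1
  refine ⟨fun c t s => if g : t < U c ∧ s < e c then f ⟨c, ⟨t, g.1⟩, ⟨s, g.2⟩⟩ else a0, ?_, ?_⟩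
  · intro c t s c' t' s' a b a' b' g
    simp only [dif_pos (And.intro a b), dif_pos (And.intro a' b')] at g
    have g' := f.injective g
    obtain rfl : c = c' := congrArg Sigma.fst g'
    have g2 := eq_of_heq (Sigma.mk.inj g').2
    exact ⟨rfl, congrArg (fun z => z.1.val) g2, congrArg (fun z => z.2.val) g2⟩
  · intro c t s a b
    simp only [dif_pos (And.intro a b)]
    exact hf ⟨_, rfl⟩

/-- Proof idea. `U c = ⌈(1 + 3 θ) avN c + 2 e1 n⌉₊`, `#AZ = ⌈(1 + 3 θ) #SY 3 / k + 6 θ n⌉₊`, `θ = 10 ^ (-17)`. Averaging `Lab.sE` (`DD.sum_N`, `Kd.Good.fil`, `One.lv`) gives `∑ avN c * e c + #SY 3 / k ≤ 2 n - n / 10 ^ 15`, so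
`#Sl + #AZ + ∑ U c * e c ≤ card A`. Embed `univ.sigma fun c => range (U c) ×ˢ range (e c)` into the complement of `Sl ∪ AZ`. -/
theorem layout (h : One A E B S d P Hs Gs D) (Sl : Finset A) (hSl : 10 ^ 16 * Sl.card ≤ n) :
    ∃ (AZ : Finset A) (U : τ → ℕ) (col : τ → ℕ → ℕ → A), Lay B P.e1 Hs D Sl AZ U col := by
  have hn200 := h.n_ge'
  have hN : (10 : ℝ) ^ 200 ≤ n := by exact_mod_cast hn200
  have he := h.e1n
  have hav : ∀ c, 0 ≤ avN Hs D c := fun c => by unfold avN; positivity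
  set s3 : ℝ := ((SY Hs D 3).card : ℝ) / Hs.card with hs3
  have hs30 : 0 ≤ s3 := by positivity
  set U : τ → ℕ := fun c => ⌈(1 + 3 / 10 ^ 17) * avN Hs D c + 2 * P.e1 * n⌉₊ with hU
  set m : ℕ := ⌈(1 + 3 / 10 ^ 17) * s3 + 6 / 10 ^ 17 * n⌉₊ with hm
  have hU2 : ∀ c, (U c : ℝ) ≤ (1 + 3 / 10 ^ 17) * avN Hs D c + 3 * P.e1 * n := by
    intro c
    have a := hav c
    have := Nat.ceil_lt_add_one (a := (1 + 3 / 10 ^ 17) * avN Hs D c + 2 * P.e1 * n)
      (by linarith)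
    simp only [hU]
    linarith
  have hm2 : (m : ℝ) ≤ (1 + 3 / 10 ^ 17) * s3 + 6 / 10 ^ 17 * n + 1 :=
    (Nat.ceil_lt_add_one (by positivity)).le
  have hsum : ∑ c, (U c : ℝ) * B.e c ≤
      (1 + 3 / 10 ^ 17) * ∑ c, avN Hs D c * B.e c + n / 10 ^ 60 := by
    calc ∑ c, (U c : ℝ) * B.e c
        ≤ ∑ c, ((1 + 3 / 10 ^ 17) * avN Hs D c + 3 * P.e1 * n) * B.e c :=
          sum_le_sum fun c _ => mul_le_mul_of_nonneg_right (hU2 c) (Nat.cast_nonneg _)
      _ = (1 + 3 / 10 ^ 17) * ∑ c, avN Hs D c * B.e c + ∑ c, 3 * P.e1 * n * (B.e c : ℝ) := by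
          rw [mul_sum, ← sum_add_distrib]
          exact sum_congr rfl fun c _ => by ring
      _ ≤ _ := by linarith [guestB_small h]
  have htot : Sl.card + m + ∑ c, U c * B.e c ≤ Fintype.card A := by
    have a := guestB_avg h
    have b : (10 : ℝ) ^ 16 * Sl.card ≤ n := by exact_mod_cast hSl
    have c : (Fintype.card A : ℝ) + 1 = 2 * n := by exact_mod_cast h.hA
    have : (Sl.card : ℝ) + m + ∑ c, (U c : ℝ) * B.e c ≤ Fintype.card A := by linarith
    exact_mod_cast this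
  obtain ⟨AZ, hAZ, hc⟩ := exists_subset_card_eq (s := Slᶜ) (n := m) (by rw [card_compl]; omega)
  have hd : Disjoint Sl AZ := disjoint_left.2 fun a ha hb => mem_compl.1 (hAZ hb) ha
  have hA0 : 0 < Fintype.card A := by have := h.hA; omega
  obtain ⟨a0⟩ := Fintype.card_pos_iff.1 hA0
  obtain ⟨col, h1, h2⟩ := guestB_embed (Sl ∪ AZ)ᶜ a0 U B.e
    (by rw [card_compl, card_union_of_disjoint hd, hc]; omega)
  refine ⟨AZ, U, col, hd, ?_, fun c => Nat.le_ceil _, hU2, h1, fun c t s a b => ?_⟩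
  · rw [hc]
    exact Nat.le_ceil _
  · have := mem_compl.1 (h2 c t s a b)
    rwa [mem_union, not_or] at this

end Pool.Agent.MP_4c107d_co.H78

end

section

/-!
The big part of the skeletons.
-/

set_option autoImplicit false
set_option linter.unusedSectionVars false

namespace Pool.Agent.MP_4c107d_co.H78

open Finset

variable {ι A τ : Type} [DecidableEq ι] [DecidableEq A] [Fintype A] [DecidableEq τ] [Fintype τ]
  {n S d : ℕ} {E : ι → Gr n} {B : Tab τ} {P : Par} {Hs Gs : Finset ι} {D : ι → DD n τ}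

theorem skelP_num (Hs : Finset ι) (k : ℕ) [NeZero k] (hk : Hs.card = k) :
    ∃ (e : ι → ZMod k) (g : ZMod k → ι), (∀ z, g z ∈ Hs) ∧ (∀ z, e (g z) = z) ∧
      ∀ i ∈ Hs, g (e i) = i := by
  have e0 : Hs ≃ ZMod k := Fintype.equivOfCardEq (by simp [hk, ZMod.card])
  refine ⟨fun i => if hi : i ∈ Hs then e0 ⟨i, hi⟩ else 0, fun z => (e0.symm z).1,
    fun z => (e0.symm z).2, fun z => ?_, fun i hi => ?_⟩
  · simp
  · simp [hi]

theorem skelP_cast {k a b : ℕ} (ha : a < k) (hb : b < k) (h : (a : ZMod k) = b) : a = b :=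
  Nat.ModEq.eq_of_lt_of_lt ((ZMod.natCast_eq_natCast_iff a b k).1 h) ha hb

theorem skelP_cPY {D : DD n τ} {E : Gr n} {H : ℕ} {η : ℝ} (hb : D.Big E H η) : D.PY.card ≤ H := by
  refine (card_le_card_of_injOn (t := range H) D.idx (fun y hy => ?_) fun y hy y' hy' e => ?_).trans
    (card_range H).le
  · exact mem_coe.2 (mem_range.2 (hb.idxH y hy))
  · exact hb.idxI y hy y' hy' e

/-- the rows of the big part -/
theorem skelP_vec (h : One A E B S d P Hs Gs D) {k : ℕ} (hk : Hs.card = k) {e : ι → ZMod k}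
    {g : ZMod k → ι} (g1 : ∀ z, g z ∈ Hs) (g2 : ∀ z, e (g z) = z) (g3 : ∀ i ∈ Hs, g (e i) = i)
    {ψ : It ι n → ι} (hψ : ∀ q ∈ PYs Hs D, ψ q = g (e q.1 + ((D q.1).idx q.2 : ℕ))) :
    Vec E Hs D (PYs Hs D) ψ 1 (P.e1 * n / 10) := by
  intro r z
  have hk0 : (0 : ℝ) < Hs.card := by
    have h1 := h.k_ge
    have h2 := h.n_ge
    have : 0 < Hs.card := by omega
    exact_mod_cast this
  have h1 : ∑ q ∈ fib (PYs Hs D) ψ r, (D q.1).vec (E q.1) q.2 z
      ≤ ∑ j ∈ range P.H, (D (g (e r - j))).PV (E (g (e r - j))) j z := by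
    rw [← sum_fiberwise_of_maps_to (s := fib (PYs Hs D) ψ r) (t := range P.H)
      (g := fun q => (D q.1).idx q.2) fun q hq => by
        obtain ⟨h1, h2⟩ := mem_its.1 (mem_fib.1 hq).1
        exact mem_range.2 ((h.good _ h1).big.idxH _ h2)]
    refine sum_le_sum fun j _ => ?_
    have own : ∀ q ∈ (fib (PYs Hs D) ψ r).filter fun q => (D q.1).idx q.2 = j,
        q.1 = g (e r - j) := by
      intro q hq
      obtain ⟨hq, e1⟩ := mem_filter.1 hq
      obtain ⟨hq, e2⟩ := mem_fib.1 hq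
      rw [← e2, hψ q hq, g2, e1, add_sub_cancel_right, g3 _ (mem_its.1 hq).1]
    rw [sum_congr rfl (g := fun q => (D (g (e r - j))).vec (E (g (e r - j))) q.2 z)
      fun q hq => by rw [own q hq], DD.PV]
    refine le_trans (le_of_eq (sum_image (g := fun q : It ι n => q.2)
      (f := fun y => (D (g (e r - j))).vec (E (g (e r - j))) y z) ?_).symm)
      (sum_le_sum_of_subset fun y hy => ?_)
    · intro q hq q' hq' e
      exact Prod.ext ((own q hq).trans (own q' hq').symm) e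
    · obtain ⟨q, hq, rfl⟩ := mem_image.1 hy
      rw [← own q hq]
      exact mem_filter.2 ⟨(mem_its.1 (mem_fib.1 (mem_filter.1 hq).1).1).2, (mem_filter.1 hq).2⟩
  have h2 : ∀ j, ∀ i ∈ Hs, ((D i).PV (E i) j z : ℝ)
      ≤ (∑ i' ∈ Hs, ((D i').PV (E i') j z : ℝ)) / Hs.card + P.ηr * n := by
    intro j i hi
    have := sum_le_sum fun i' (hi' : i' ∈ Hs) => h.closeP i hi i' hi' j z
    rw [sum_add_distrib, sum_const, sum_const, nsmul_eq_mul, nsmul_eq_mul] at this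
    rw [div_add' _ _ _ hk0.ne', le_div_iff₀ hk0]
    linarith
  have h3 : ((∑ q ∈ PYs Hs D, (D q.1).vec (E q.1) q.2 z : ℕ) : ℝ)
      = ∑ j ∈ range P.H, ∑ i' ∈ Hs, ((D i').PV (E i') j z : ℝ) := by
    rw [PYs, sum_its, sum_comm]
    push_cast
    refine sum_congr rfl fun i hi => ?_
    exact_mod_cast (DD.sum_PV (h.good i hi).big z).symm
  refine (Nat.cast_le.2 h1).trans ?_
  rw [Nat.cast_sum, h3, one_mul, sum_div]
  refine (sum_le_sum fun j _ => h2 j _ (g1 _)).trans ?_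
  rw [sum_add_distrib, sum_const, card_range, nsmul_eq_mul]
  have := mul_le_mul_of_nonneg_right h.par.hηr (Nat.cast_nonneg (α := ℝ) n)
  linarith

/-- the weights of the column meters -/
noncomputable def skelP_w (E : ι → Gr n) (Hs : Finset ι) (D : ι → DD n τ) (κ : Fin 3)
    (p : It ι n) : ℕ :=
  if p.1 ∈ Hs then ![(D p.1).skD (E p.1) p.2, (D p.1).tpD (E p.1) p.2, dX (E p.1) p.2] κ
  else ![dX (E p.1) p.2, 0, 0] κ

theorem skelP_w_le (κ : Fin 3) (p : It ι n) : skelP_w E Hs D κ p ≤ n := by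
  have h1 := dX_le (E p.1) p.2
  have h2 := (D p.1).toKd.skD_le (E p.1) p.2
  have h3 := (D p.1).toKd.tpD_le (E p.1) p.2
  unfold skelP_w
  split_ifs <;> fin_cases κ <;> simp <;> omega

theorem skelP_sumX (h : One A E B S d P Hs Gs D) (f : It ι n → ℕ) :
    ∑ p ∈ PXs Hs D, f p ≤ ∑ i ∈ Hs, ∑ x ∈ (D i).sX 0, f (i, x) := by
  rw [PXs, sum_its]
  exact sum_le_sum fun i hi => sum_le_sum_of_subset fun x hx =>
    (D i).toKd.mem_sX.2 ((h.good i hi).big.PXs x hx)

theorem skelP_tot (h : One A E B S d P Hs Gs D) :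
    10 ^ 36 * ∑ p ∈ PXs Hs D, (D p.1).skD (E p.1) p.2 ≤ Hs.card * n ∧
      ∑ p ∈ PXs Hs D, (D p.1).tpD (E p.1) p.2 ≤ (SY Hs D 3).card ∧
      ∑ p ∈ PXs Hs D, dX (E p.1) p.2 ≤ Hs.card * (2 * n) ∧
      ∑ p ∈ full n Gs, dX (E p.1) p.2 ≤ Gs.card * (2 * n) := by
  have hn : 0 < n := by have := h.n_ge; omega
  refine ⟨?_, ?_, ?_, ?_⟩
  · refine (Nat.mul_le_mul_left _ (skelP_sumX h _)).trans ?_
    rw [mul_sum]
    exact (sum_le_sum fun i hi => (h.good i hi).kd.esk).trans (by simp)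
  · refine (skelP_sumX h _).trans (le_of_eq ?_)
    rw [SY, card_its]
    exact sum_congr rfl fun i hi => (h.good i hi).kd.sum_tpD
  · refine (sum_le_sum_of_subset (its_subset _ _)).trans ?_
    rw [sum_full]
    refine (sum_le_sum (g := fun _ => 2 * n) fun i hi => ?_).trans (by simp)
    have := (h.trH i hi).sum_dX hn
    simp only
    omega
  · rw [sum_full]
    refine (sum_le_sum (g := fun _ => 2 * n) fun i hi => ?_).trans (by simp)
    have := (h.trG i hi).sum_dX hn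
    simp only
    omega

theorem skelP_three {a b c : ℝ} (ha : 0 ≤ a) (hb : 0 ≤ b) (hc : 0 ≤ c) (κ : Fin 3) :
    0 ≤ ![a, b, c] κ := by
  fin_cases κ
  · exact ha
  · exact hb
  · exact hc

theorem skelP_ite {p : Prop} [Decidable p] {a : ℝ} (ha : 0 ≤ a) : (if p then a else 0) ≤ a := by
  split_ifs
  · exact le_rfl
  · exact ha

/-- Proof idea. `k = #Hs`, a bijection `e : Hs ≃ ZMod k`; the row of `(i, y)`, `y ∈ PY`, is `e⁻¹ (e i + idx y)` (`H ≤ k`). The sum in `Vec` for row `r` is `∑_{j < H} PV (i j) j z` with `e (i j) = e r - j`, and `closeP` bounds each term by the average plus `ηr n`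
(`DD.sum_PV`). Then `greedy` with `DX = full n Gs`, `DY = full n Gs ∪ PYs`, `PX = PXs`, `PY = ∅`, `nb a = {a}`, `AX = Ac = AZ`, `Br = Hs`, `KA = Fin 3`, `θ = 10 ^ (-17)`: weights `skD` (guests `dX`), `tpD`, `dX` (guests `0`),
`θA = θ k / 20, (1 - 2 θ) k, k / θ`, `MA = n`, `cA = θ n, (1 + 3 θ) #SY 3 / k, 2 θ n`; `KB = Unit`, weight `dY` for guests and `H` for hosts, `θB = γ n + H ^ 2`, `MB = cB = 0`. -/
theorem skelP (h : One A E B S d P Hs Gs D) (AZ : Finset A)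
    (hAZ : (1 + 3 / 10 ^ 17) * (((SY Hs D 3).card : ℝ) / Hs.card) + 6 / 10 ^ 17 * n ≤ AZ.card)
    {σ0 : It ι n → A} {ψ0 : It ι n → ι} (hok : Ok E (full n Gs) (full n Gs) σ0 ψ0)
    (hg : Gst E P.γ Hs Gs σ0 ψ0) :
    ∃ (σ : It ι n → A) (ψ : It ι n → ι),
      StS E P.γ Hs Gs D AZ (PXs Hs D) (PYs Hs D) 1 (P.e1 * n / 10) σ ψ := by
  have hn := h.n_ge
  have hkn := h.k_ge
  have hHn := h.H_le
  have hk0 : 0 < Hs.card := by omega
  have : NeZero Hs.card := ⟨hk0.ne'⟩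
  have hH4 : P.H + 1 ≤ (P.H + 1) ^ 4 := Nat.le_self_pow (by norm_num) _
  have hHk : P.H ≤ Hs.card := by omega
  have hkr : (0 : ℝ) < Hs.card := by exact_mod_cast hk0
  have hnr : (0 : ℝ) < n := by exact_mod_cast (by omega : 0 < n)
  have hγ0 := h.par.γpos
  have hγ1 : P.γ ≤ 1 / 10 ^ 100 := h.par.γ_le.trans
    (one_div_le_one_div_of_le (by positivity) (pow_le_pow_right₀ (by norm_num) (by norm_num)))
  obtain ⟨e, g, g1, g2, g3⟩ := skelP_num Hs Hs.card rfl
  have ginj : ∀ z z', g z = g z' → z = z' := fun z z' e' => by rw [← g2 z, e', g2]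
  set ψ1 : It ι n → ι := fun q => if q.1 ∈ Hs then g (e q.1 + ((D q.1).idx q.2 : ℕ)) else ψ0 q
    with hψ1
  have hG : ∀ p ∈ full n Gs, p.1 ∉ Hs := fun p hp h1 => disjoint_left.1 h.disj h1 (mem_full.1 hp)
  have p1 : ∀ q ∈ full n Gs, ψ1 q = ψ0 q := fun q hq => if_neg (hG q hq)
  have p2 : ∀ q : It ι n, q.1 ∈ Hs → ψ1 q = g (e q.1 + ((D q.1).idx q.2 : ℕ)) := fun q hq =>
    if_pos hq
  have hY : ∀ q ∈ full n Gs ∪ PYs Hs D, q.1 ∈ Hs → q ∈ PYs Hs D := fun q hq h1 =>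
    (mem_union.1 hq).resolve_left fun h2 => hG q h2 h1
  have hY' : ∀ q ∈ full n Gs ∪ PYs Hs D, q.1 ∉ Hs → q ∈ full n Gs := fun q hq h1 =>
    (mem_union.1 hq).resolve_right fun h2 => h1 (mem_its.1 h2).1
  have haX : ∀ p ∈ act (full n Gs) (PXs Hs D) σ0 AZ, p.1 ∈ Hs → p ∈ PXs Hs D := fun p hp h1 =>
    (mem_act.1 hp).resolve_right fun h2 => hG p h2.1 h1
  have hok1 : Ok E (full n Gs) (full n Gs ∪ PYs Hs D) σ0 ψ1 := by
    refine ⟨hok.injX, fun q hq q' hq' e1 e2 => ?_, fun p hp q hq p' hp' q' hq' a a' e1 e2 => ?_⟩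
    · by_cases h1 : q.1 ∈ Hs
      · have h2 : q'.1 ∈ Hs := e1 ▸ h1
        have b := (h.good _ h1).big
        have m1 := (mem_its.1 (hY q hq h1)).2
        have m2 := (mem_its.1 (hY q' hq' h2)).2
        rw [p2 q h1, p2 q' h2, ← e1] at e2
        rw [← e1] at m2
        exact Prod.ext e1 (b.idxI _ m1 _ m2 (skelP_cast ((b.idxH _ m1).trans_le hHk)
          ((b.idxH _ m2).trans_le hHk) (add_left_cancel (ginj _ _ e2))))
      · have h2 : q'.1 ∉ Hs := e1 ▸ h1
        rw [p1 q (hY' q hq h1), p1 q' (hY' q' hq' h2)] at e2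
        exact hok.injY q (hY' q hq h1) q' (hY' q' hq' h2) e1 e2
    · have h1 : q ∈ full n Gs := mem_full.2 (a.1 ▸ mem_full.1 hp)
      have h2 : q' ∈ full n Gs := mem_full.2 (a'.1 ▸ mem_full.1 hp')
      rw [p1 q h1, p1 q' h2] at e2
      exact hok.cell p hp q h1 p' hp' q' h2 a a' e1 e2
  have wG : ∀ κ, ∀ p ∈ full n Gs, skelP_w E Hs D κ p = ![dX (E p.1) p.2, 0, 0] κ := fun κ p hp =>
    if_neg (hG p hp)
  have wH : ∀ κ, ∀ p ∈ PXs Hs D, skelP_w E Hs D κ p
      = ![(D p.1).skD (E p.1) p.2, (D p.1).tpD (E p.1) p.2, dX (E p.1) p.2] κ := fun κ p hp =>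
    if_pos (mem_its.1 hp).1
  have hdX : Disjoint (full n Gs) (PXs Hs D) := disjoint_full_its h.disj _
  have hdY : Disjoint (full n Gs) (PYs Hs D) := disjoint_full_its h.disj _
  have hcol : ∀ a, (colL E (full n Gs) σ0 a : ℝ) ≤ Hs.card / (2 * 10 ^ 18) := fun a =>
    (hg.col a).trans (by linarith only [mul_le_mul_of_nonneg_right hγ1 hkr.le, hkr])
  obtain ⟨t0, t1, t2, t3⟩ := skelP_tot h
  have hsame : ∀ i ∈ Hs, ∀ T : Finset (It ι n), (∀ p ∈ T, p ∈ act (full n Gs) (PXs Hs D) σ0 AZ ∧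
      p.1 = i) → (T.card : ℝ) ≤ P.H := by
    intro i hi T hT
    refine Nat.cast_le.2 (le_trans (card_le_card fun p hp => ?_)
      ((card_its_owner_le Hs (fun i => (D i).PX) i).trans (h.good i hi).big.cPX))
    exact mem_filter.2 ⟨haX p (hT p hp).1 ((hT p hp).2 ▸ hi), (hT p hp).2⟩
  obtain ⟨σ, ψ, r1, r2, r3, -, r5, -, -, r8, -⟩ := greedy (KA := Fin 3) (KB := Unit) E (full n Gs)
    (full n Gs ∪ PYs Hs D) (PXs Hs D) ∅ σ0 ψ1 hok1 hdX (disjoint_empty_right _) (fun _ => 0)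
    (fun _ => 0) (fun _ _ q hq => absurd hq (notMem_empty q)) (fun q hq => absurd hq (notMem_empty q))
    (fun a => {a}) 1 (fun a => mem_singleton_self a) (fun a b hb => mem_singleton.2 (mem_singleton.1 hb).symm)
    (fun a => (card_singleton a).le) (fun _ => AZ) (fun _ => Hs) AZ Hs
    (fun _ _ a ha => singleton_subset_iff.2 ha) (fun _ _ q hq => absurd hq (notMem_empty q))
    (fun q hq => absurd hq (notMem_empty q))
    (fun q hq p hp a => by rw [p2 q (a.1 ▸ (mem_its.1 hp).1)]; exact g1 _)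
    (fun κ p => skelP_w E Hs D κ p)
    ![Hs.card / (2 * 10 ^ 18), (1 - 2 / 10 ^ 17) * Hs.card, 10 ^ 17 * Hs.card] (fun _ => n)
    ![n / 10 ^ 17, (1 + 3 / 10 ^ 17) * (((SY Hs D 3).card : ℝ) / Hs.card), 2 * n / 10 ^ 17] 0
    (fun _ q => if q.1 ∈ Hs then P.H else dY (E q.1) q.2) (fun _ => P.γ * n + (P.H : ℝ) ^ 2)
    (fun _ => 0) (fun _ => 0) () (fun _ _ => Nat.cast_nonneg _)
    (skelP_three (div_nonneg hkr.le (by norm_num)) (mul_nonneg (by norm_num) hkr.le)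
      (mul_nonneg (by norm_num) hkr.le))
    (skelP_three (div_nonneg hnr.le (by norm_num))
      (mul_nonneg (by norm_num) (div_nonneg (Nat.cast_nonneg _) hkr.le))
      (div_nonneg (mul_nonneg (by norm_num) hnr.le) (by norm_num)))
    (fun _ q => by split_ifs <;> positivity) (fun _ => by positivity) (fun _ => le_rfl)
    (by
      intro p hp
      refine Nat.cast_le.2 ?_
      by_cases h1 : p.1 ∈ Hs
      · rw [wH 0 p (haX p hp h1)]
        refine card_le_card_of_injOn (t := (nX (E p.1) p.2).filter fun y => (D p.1).kY y = 0)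
          (fun q => q.2) (fun q hq => ?_) fun q hq q' hq' e => ?_
        · obtain ⟨hq, a⟩ := mem_filter.1 hq
          have h2 : q ∈ PYs Hs D := hY q ((mem_act.1 hq).resolve_left (notMem_empty q)).1 (a.1 ▸ h1)
          refine mem_coe.2 (mem_filter.2 ⟨mem_nX.2 a.2, ?_⟩)
          rw [a.1]
          exact (h.good _ (mem_its.1 h2).1).big.PYs _ (mem_its.1 h2).2
        · exact Prod.ext ((mem_filter.1 hq).2.1.symm.trans (mem_filter.1 hq').2.1) e
      · rw [skelP_w, if_neg h1]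
        exact card_adjX_le _ p)
    (by
      intro q _
      split_ifs with h1
      · exact hsame _ h1 _ fun p hp => ⟨(mem_filter.1 hp).1, (mem_filter.1 hp).2.1⟩
      · exact Nat.cast_le.2 (card_adjY_le _ q))
    (fun _ => hnr.le) (fun κ p _ => Nat.cast_le.2 (skelP_w_le κ p)) (fun _ => le_rfl)
    (fun _ q hq => absurd hq (notMem_empty q))
    (by
      intro κ a _
      rw [sum_congr rfl fun p hp => by rw [wG κ p (mem_fib.1 hp).1]]
      fin_cases κ
      · have := hcol a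
        rw [colL, Nat.cast_sum] at this
        simp only [Fin.zero_eta, Matrix.cons_val_zero]
        linarith
      · simp; positivity
      · simp; positivity)
    (by
      intro _ r hr
      rw [fib_union, sum_union (hdY.mono (fib_subset _ _ _) (fib_subset _ _ _)), add_zero]
      refine add_le_add ?_ ?_
      · rw [sum_congr rfl fun q hq => if_neg (hG q (mem_fib.1 hq).1), fib_congr p1, ← Nat.cast_sum]
        exact hg.row r hr
      · rw [sum_congr (s₁ := fib (PYs Hs D) ψ1 r) rfl fun q hq =>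
          if_pos (mem_its.1 (mem_fib.1 hq).1).1, sum_const, nsmul_eq_mul, sq]
        refine mul_le_mul_of_nonneg_right (Nat.cast_le.2 ?_) (Nat.cast_nonneg _)
        refine (card_le_card_of_injOn (t := range P.H) (fun q => (D q.1).idx q.2) (fun q hq => ?_)
          fun q hq q' hq' e' => ?_).trans (card_range _).le
        · obtain ⟨h1, h2⟩ := mem_its.1 (mem_fib.1 hq).1
          exact mem_coe.2 (mem_range.2 ((h.good _ h1).big.idxH _ h2))
        · obtain ⟨h1, h2⟩ := mem_its.1 (mem_fib.1 hq).1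
          obtain ⟨h3, h4⟩ := mem_its.1 (mem_fib.1 hq').1
          have e1 := (mem_fib.1 hq).2.trans (mem_fib.1 hq').2.symm
          simp only at e'
          rw [p2 q h1, p2 q' h3, e'] at e1
          have e2 : q.1 = q'.1 := by rw [← g3 _ h1, add_right_cancel (ginj _ _ e1), g3 _ h3]
          rw [← e2] at h4 e'
          exact Prod.ext e2 ((h.good _ h1).big.idxI _ h2 _ h4 e'))
    (by
      intro _ κ
      have s1 : ∑ p ∈ act (full n Gs) (PXs Hs D) σ0 AZ, (skelP_w E Hs D κ p : ℝ)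
          ≤ ∑ p ∈ full n Gs, (skelP_w E Hs D κ p : ℝ) + ∑ p ∈ PXs Hs D, (skelP_w E Hs D κ p : ℝ) := by
        rw [← sum_union hdX]
        refine sum_le_sum_of_subset_of_nonneg (fun p hp => ?_) fun _ _ _ => Nat.cast_nonneg _
        rcases mem_act.1 hp with hp | hp
        · exact mem_union_right _ hp
        · exact mem_union_left _ hp.1
      refine s1.trans ?_
      rw [sum_congr rfl fun p hp => by rw [wG κ p hp], sum_congr (s₁ := PXs Hs D) rfl fun p hp => by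
        rw [wH κ p hp]]
      have u0 : (10 : ℝ) ^ 36 * ∑ p ∈ PXs Hs D, ((D p.1).skD (E p.1) p.2 : ℝ) ≤ Hs.card * n := by
        exact_mod_cast t0
      have u1 : ∑ p ∈ PXs Hs D, ((D p.1).tpD (E p.1) p.2 : ℝ) ≤ (SY Hs D 3).card := by
        exact_mod_cast t1
      have u2 : ∑ p ∈ PXs Hs D, (dX (E p.1) p.2 : ℝ) ≤ Hs.card * (2 * n) := by exact_mod_cast t2
      have u3 : ∑ p ∈ full n Gs, (dX (E p.1) p.2 : ℝ) ≤ Gs.card * (2 * n) := by exact_mod_cast t3
      have u4 : (10 : ℝ) ^ 100 * Gs.card ≤ Hs.card := by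
        have : 10 ^ 100 * Gs.card ≤ Hs.card := le_trans
          (Nat.mul_le_mul_right _ (Nat.pow_le_pow_right (by norm_num) (by norm_num))) h.J_le
        exact_mod_cast this
      fin_cases κ
      · simp only [Fin.zero_eta, Matrix.cons_val_zero]
        have u5 := mul_le_mul_of_nonneg_right u4 hnr.le
        have u6 : 0 ≤ (Hs.card : ℝ) * n := by positivity
        linarith only [u0, u3, u5, u6]
      · have e1 : (1 + 3 / 10 ^ 17) * (((SY Hs D 3).card : ℝ) / Hs.card)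
            * ((1 - 2 / 10 ^ 17) * Hs.card)
            = (1 + 3 / 10 ^ 17) * (1 - 2 / 10 ^ 17) * (SY Hs D 3).card := by
          rw [mul_mul_mul_comm, div_mul_cancel₀ _ hkr.ne']
        simp only [Fin.mk_one, Matrix.cons_val_one, Matrix.cons_val_zero, Nat.cast_zero,
          sum_const_zero, zero_add]
        rw [e1]
        linarith only [u1, Nat.cast_nonneg (α := ℝ) (SY Hs D 3).card]
      · simp only [Fin.reduceFinMk, Matrix.cons_val, Nat.cast_zero, sum_const_zero, zero_add]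
        linarith only [u2])
    (fun hne => absurd hne not_nonempty_empty)
    (by
      intro p hp
      have h1 := (mem_its.1 hp).1
      have c1 := hsame _ h1 ((act (full n Gs) (PXs Hs D) σ0 AZ).filter fun p' => p'.1 = p.1)
        fun p' hp' => mem_filter.1 hp'
      have c2 : (((full n Gs ∪ PYs Hs D).filter fun q => adj E p q).card : ℝ) ≤ P.H := by
        refine Nat.cast_le.2 (le_trans (card_le_card fun q hq => ?_)
          ((card_its_owner_le Hs (fun i => (D i).PY) p.1).trans (skelP_cPY (h.good _ h1).big)))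
        obtain ⟨hq, a⟩ := mem_filter.1 hq
        exact mem_filter.2 ⟨hY q hq (a.1 ▸ h1), a.1.symm⟩
      have c3 : ∑ κ : Fin 3, (if (0 : ℝ) < skelP_w E Hs D κ p then
          ![(n : ℝ) / 10 ^ 17, (1 + 3 / 10 ^ 17) * (((SY Hs D 3).card : ℝ) / Hs.card),
            2 * (n : ℝ) / 10 ^ 17] κ else 0)
          ≤ n / 10 ^ 17 + (1 + 3 / 10 ^ 17) * (((SY Hs D 3).card : ℝ) / Hs.card)
            + 2 * n / 10 ^ 17 := by
        rw [Fin.sum_univ_three]
        refine add_le_add (add_le_add (skelP_ite ?_) (skelP_ite ?_)) (skelP_ite ?_)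
        · exact div_nonneg hnr.le (by norm_num)
        · exact mul_nonneg (by norm_num) (div_nonneg (Nat.cast_nonneg _) hkr.le)
        · exact div_nonneg (mul_nonneg (by norm_num) hnr.le) (by norm_num)
      have c4 : (10 : ℝ) ^ 80 * ((P.H : ℝ) + 1) ^ 4 ≤ n := by exact_mod_cast hHn
      have c5 := mul_le_mul_of_nonneg_right h.par.hγ2 hnr.le
      have hH0 : (0 : ℝ) ≤ P.H := Nat.cast_nonneg _
      have c6 : (P.H : ℝ) + (P.H + 1) * (P.H : ℝ) ^ 2 ≤ ((P.H : ℝ) + 1) ^ 4 := by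
        linarith only [hH0, pow_nonneg hH0 2, pow_nonneg hH0 3, pow_nonneg hH0 4]
      have c7 := mul_le_mul_of_nonneg_right (add_le_add_left c2 1)
        (by positivity : 0 ≤ P.γ * n + (P.H : ℝ) ^ 2)
      simp only [Nat.cast_one, one_mul, add_zero]
      linarith only [c1, c3, c4, c5, c6, c7, hAZ, hnr])
    (fun q hq => absurd hq (notMem_empty q))
  rw [union_empty] at r5
  have hemp : ∀ a, a ∉ AZ → fib (PXs Hs D) σ a = ∅ := fun a ha =>
    eq_empty_of_forall_notMem fun p hp => ha ((mem_fib.1 hp).2 ▸ r3 p (mem_fib.1 hp).1)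
  have r9 : ∀ κ, ∀ a ∈ AZ, ∑ p ∈ fib (full n Gs) σ a, ((![dX (E p.1) p.2, 0, 0] κ : ℕ) : ℝ)
      + ∑ p ∈ fib (PXs Hs D) σ a,
        ((![(D p.1).skD (E p.1) p.2, (D p.1).tpD (E p.1) p.2, dX (E p.1) p.2] κ : ℕ) : ℝ)
      ≤ ![(Hs.card : ℝ) / (2 * 10 ^ 18), (1 - 2 / 10 ^ 17) * (Hs.card : ℝ),
        10 ^ 17 * (Hs.card : ℝ)] κ + n := by
    intro κ a ha
    have := r8 κ a ha
    rwa [fib_union, sum_union (hdX.mono (fib_subset _ _ _) (fib_subset _ _ _)),
      sum_congr rfl fun p hp => by rw [wG κ p (mem_fib.1 hp).1],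
      sum_congr (s₁ := fib (PXs Hs D) σ a) rfl fun p hp => by rw [wH κ p (mem_fib.1 hp).1]] at this
  refine ⟨σ, ψ1, r5.congr (fun _ _ => rfl) fun q hq => (r2 q hq).symm, hg.congr r1 p1, r3,
    fun q hq => by rw [p2 q (mem_its.1 hq).1]; exact g1 _, ⟨fun a => ?_, fun a => ?_, fun a => ?_⟩,
    skelP_vec h rfl g1 g2 g3 fun q hq => p2 q (mem_its.1 hq).1, fun i hi i' hi' e' => ?_⟩
  · by_cases ha : a ∈ AZ
    · have := r9 0 a ha
      simp only [Matrix.cons_val_zero] at this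
      rw [colL]
      push_cast
      linarith
    · have := hcol a
      rw [hemp a ha, sum_empty, zero_add, colL_congr r1]
      linarith
  · by_cases ha : a ∈ AZ
    · have := r9 1 a ha
      simp only [Matrix.cons_val_one, Matrix.cons_val_zero, Nat.cast_zero, sum_const_zero,
        zero_add] at this
      push_cast
      exact this
    · rw [hemp a ha, sum_empty, Nat.cast_zero]
      positivity
  · by_cases ha : a ∈ AZ
    · have := r9 2 a ha
      simp only [Matrix.cons_val, Nat.cast_zero, sum_const_zero, zero_add] at this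
      rw [colL]
      exact_mod_cast this
    · rw [colL, hemp a ha, sum_empty]
      exact Nat.zero_le _
  · rw [p2 _ hi, p2 _ hi'] at e'
    simp only [(h.good i hi).big.idx1, (h.good i' hi').big.idx1, Nat.cast_zero, add_zero] at e'
    rwa [g3 i hi, g3 i' hi'] at e'


end Pool.Agent.MP_4c107d_co.H78

end

end

-- part MP_4c107d_co.H78.K
section

section

/-!
The rest of the skeletons.
-/

set_option autoImplicit false
set_option linter.unusedSectionVars false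

namespace Pool.Agent.MP_4c107d_co.H78

open Finset

variable {ι A τ : Type} [DecidableEq ι] [DecidableEq A] [Fintype A] [DecidableEq τ] [Fintype τ]
  {n S d : ℕ} {E : ι → Gr n} {B : Tab τ} {P : Par} {Hs Gs : Finset ι} {D : ι → DD n τ}


theorem skelR_fin3 {p : Fin 3 → Prop} (h0 : p 0) (h1 : p 1) (h2 : p 2) (κ : Fin 3) : p κ := by
  fin_cases κ
  exacts [h0, h1, h2]

theorem skelR_p : (10 : ℝ) ^ 100 ≤ 10 ^ 300 := pow_le_pow_right₀ (by norm_num) (by norm_num)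

theorem skelR_q {x : ℝ} (h : x ≤ 1 / 10 ^ 300) : x ≤ 1 / 10 ^ 100 :=
  h.trans (one_div_le_one_div_of_le (by positivity) skelR_p)

theorem skelR_r {a b : ℕ} (h : 10 ^ 300 * a ≤ b) : (10 : ℝ) ^ 100 * a ≤ b :=
  (mul_le_mul_of_nonneg_right skelR_p (Nat.cast_nonneg a)).trans (by exact_mod_cast h)

/-- the weight `f` for hosts and `g` for guests -/
def skelR_w (Hs : Finset ι) (f g : It ι n → ℕ) (p : It ι n) : ℝ :=
  ((if p.1 ∈ Hs then f p else g p : ℕ) : ℝ)

theorem skelR_w_nonneg (f g : It ι n → ℕ) (p : It ι n) : 0 ≤ skelR_w Hs f g p := Nat.cast_nonneg _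

theorem skelR_w_host {f g : It ι n → ℕ} {p : It ι n} (hp : p.1 ∈ Hs) : skelR_w Hs f g p = f p := by
  rw [skelR_w, if_pos hp]

theorem skelR_w_guest {f g : It ι n → ℕ} {p : It ι n} (hp : p.1 ∉ Hs) :
    skelR_w Hs f g p = g p := by
  rw [skelR_w, if_neg hp]

theorem skelR_base (hd : Disjoint Hs Gs) {X G : Finset (It ι n)} (hX : ∀ p ∈ X, p.1 ∈ Hs)
    (hG : G ⊆ full n Gs) (f g : It ι n → ℕ) :
    ∑ p ∈ G ∪ X, skelR_w Hs f g p = ((∑ p ∈ X, f p + ∑ p ∈ G, g p : ℕ) : ℝ) := by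
  have h1 : ∀ p ∈ G, p.1 ∉ Hs := fun p hp a => disjoint_left.1 hd a (mem_full.1 (hG hp))
  rw [sum_union (disjoint_left.2 fun p a b => h1 p a (hX p b)),
    sum_congr rfl fun p hp => skelR_w_host (hX p hp),
    sum_congr rfl fun p hp => skelR_w_guest (h1 p hp)]
  push_cast
  ring

theorem skelR_split {C : Type} [DecidableEq C] (hd : Disjoint Hs Gs) {X : Finset (It ι n)}
    (hX : ∀ p ∈ X, p.1 ∈ Hs) (σ : It ι n → C) (a : C) (f g : It ι n → ℕ) :
    ∑ p ∈ fib (full n Gs ∪ X) σ a, skelR_w Hs f g p =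
      ((∑ p ∈ fib X σ a, f p + ∑ p ∈ fib (full n Gs) σ a, g p : ℕ) : ℝ) := by
  rw [fib_union]
  exact skelR_base hd (fun p hp => hX p (mem_fib.1 hp).1) (fib_subset _ _ _) f g

theorem skelR_tot (hd : Disjoint Hs Gs) {X T : Finset (It ι n)} (hX : ∀ p ∈ X, p.1 ∈ Hs)
    (hT : T ⊆ full n Gs ∪ X) (f g : It ι n → ℕ) :
    ∑ p ∈ T, skelR_w Hs f g p ≤ ((∑ p ∈ X, f p + ∑ p ∈ full n Gs, g p : ℕ) : ℝ) := by
  rw [← skelR_base hd hX Subset.rfl]
  exact sum_le_sum_of_subset_of_nonneg hT fun p _ _ => skelR_w_nonneg f g p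

theorem skelR_dX {I : Finset ι} (h : ∀ i ∈ I, Tr (E i)) (hn : 0 < n) :
    ∑ p ∈ full n I, dX (E p.1) p.2 ≤ I.card * (2 * n) := by
  rw [sum_full, ← smul_eq_mul]
  refine sum_le_card_nsmul _ _ _ fun i hi => ?_
  have := (h i hi).sum_dX hn
  show ∑ x, dX (E i) x ≤ 2 * n
  omega

theorem skelR_dY {I : Finset ι} (h : ∀ i ∈ I, Tr (E i)) (hn : 0 < n) :
    ∑ p ∈ full n I, dY (E p.1) p.2 ≤ I.card * (2 * n) := by
  rw [sum_full, ← smul_eq_mul]
  refine sum_le_card_nsmul _ _ _ fun i hi => ?_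
  have := (h i hi).sum_dY hn
  show ∑ x, dY (E i) x ≤ 2 * n
  omega

theorem skelR_skD (h : One A E B S d P Hs Gs D) :
    10 ^ 36 * ∑ p ∈ SX Hs D 0, (D p.1).skD (E p.1) p.2 ≤ Hs.card * n := by
  rw [SX, sum_its, mul_sum, ← smul_eq_mul Hs.card]
  exact sum_le_card_nsmul _ _ _ fun i hi => (h.good i hi).kd.esk

theorem skelR_skN (E : ι → Gr n) (Hs : Finset ι) (D : ι → DD n τ) :
    ∑ q ∈ SY Hs D 0, (D q.1).skN (E q.1) q.2 = ∑ p ∈ SX Hs D 0, (D p.1).skD (E p.1) p.2 := by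
  rw [SX, SY, sum_its, sum_its]
  exact sum_congr rfl fun i _ => (D i).sum_skN (E i)

theorem skelR_tpD (h : One A E B S d P Hs Gs D) :
    ∑ p ∈ SX Hs D 0, (D p.1).tpD (E p.1) p.2 = (SY Hs D 3).card := by
  rw [SX, SY, sum_its, card_its]
  exact sum_congr rfl fun i hi => (h.good i hi).kd.sum_tpD

theorem skelR_PX (h : One A E B S d P Hs Gs D) : PXs Hs D ⊆ SX Hs D 0 := fun _ hp =>
  mem_SX.2 ⟨(mem_its.1 hp).1, (h.good _ (mem_its.1 hp).1).big.PXs _ (mem_its.1 hp).2⟩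

theorem skelR_PY (h : One A E B S d P Hs Gs D) : PYs Hs D ⊆ SY Hs D 0 := fun _ hp =>
  mem_SY.2 ⟨(mem_its.1 hp).1, (h.good _ (mem_its.1 hp).1).big.PYs _ (mem_its.1 hp).2⟩

theorem skelR_union {α : Type} [DecidableEq α] (G : Finset α) {X Y : Finset α} (h : X ⊆ Y) :
    G ∪ X ∪ Y \ X = G ∪ Y := by
  rw [union_assoc, union_sdiff_of_subset h]

theorem skelR_act {α C : Type} [DecidableEq α] [DecidableEq C] (G : Finset α) {X Y : Finset α}
    (h : X ⊆ Y) (f : α → C) (Z : Finset C) : act (G ∪ X) (Y \ X) f Z ⊆ G ∪ Y := fun p hp => by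
  rw [← skelR_union G h]
  rcases mem_act.1 hp with a | a
  · exact mem_union_right _ a
  · exact mem_union_left _ a.1

theorem skelR_host (hd : Disjoint Hs Gs) {X : Finset (It ι n)} {p : It ι n}
    (hp : p ∈ full n Gs ∪ X) (h1 : p.1 ∈ Hs) : p ∈ X :=
  (mem_union.1 hp).resolve_left fun a => disjoint_left.1 hd h1 (mem_full.1 a)

/-- neighbours inside a family of sets -/
theorem skelR_adjX (hd : Disjoint Hs Gs) {T : Finset (It ι n)} {F : ι → Finset (Fin n)}
    (hT : T ⊆ full n Gs ∪ its Hs F) {p : It ι n} (hp : p.1 ∈ Hs) :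
    (T.filter fun q => adj E p q).card ≤ ((nX (E p.1) p.2).filter fun y => y ∈ F p.1).card := by
  refine card_le_card_of_injOn (fun q => q.2) (fun q hq => ?_) fun q hq q' hq' e => ?_
  · obtain ⟨a, b, c⟩ := mem_filter.1 hq
    have e := mem_its.1 (skelR_host hd (hT a) (b ▸ hp))
    exact mem_coe.2 (mem_filter.2 ⟨mem_nX.2 c, b ▸ e.2⟩)
  · exact Prod.ext ((mem_filter.1 hq).2.1.symm.trans (mem_filter.1 hq').2.1) e

theorem skelR_adjY (hd : Disjoint Hs Gs) {T : Finset (It ι n)} {F : ι → Finset (Fin n)}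
    (hT : T ⊆ full n Gs ∪ its Hs F) {q : It ι n} (hq : q.1 ∈ Hs) :
    (T.filter fun p => adj E p q).card ≤ ((nY (E q.1) q.2).filter fun x => x ∈ F q.1).card := by
  refine card_le_card_of_injOn (fun p => p.2) (fun p hp => ?_) fun p hp p' hp' e => ?_
  · obtain ⟨a, b, c⟩ := mem_filter.1 hp
    have e := mem_its.1 (skelR_host hd (hT a) (b ▸ hq))
    exact mem_coe.2 (mem_filter.2 ⟨mem_nY.2 (b ▸ c), b ▸ e.2⟩)
  · exact Prod.ext ((mem_filter.1 hp).2.1.trans (mem_filter.1 hp').2.1.symm) e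

theorem skelR_light (h : One A E B S d P Hs Gs D) {q : It ι n} (hq : q ∈ SY Hs D 0 \ PYs Hs D) :
    (dY (E q.1) q.2 : ℝ) ≤ P.η * n := by
  obtain ⟨a, b⟩ := mem_sdiff.1 hq
  obtain ⟨a1, a2⟩ := mem_SY.1 a
  exact (h.good _ a1).big.light _ a2 fun c => b (mem_its.2 ⟨a1, c⟩)

/-- the application of the greedy lemma -/
theorem skelR_greedy (h : One A E B S d P Hs Gs D) (AZ : Finset A)
    (hAZ : (1 + 3 / 10 ^ 17) * (((SY Hs D 3).card : ℝ) / Hs.card) + 6 / 10 ^ 17 * n ≤ AZ.card)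
    {σ0 : It ι n → A} {ψ0 : It ι n → ι}
    (h0 : StS E P.γ Hs Gs D AZ (PXs Hs D) (PYs Hs D) 1 (P.e1 * n / 10) σ0 ψ0) {N : ℕ}
    (cl : It ι n → Fin N) :
    ∃ (σ : It ι n → A) (ψ : It ι n → ι), (∀ p ∈ full n Gs ∪ PXs Hs D, σ p = σ0 p) ∧
      (∀ q ∈ full n Gs ∪ PYs Hs D, ψ q = ψ0 q) ∧ (∀ p ∈ SX Hs D 0 \ PXs Hs D, σ p ∈ AZ) ∧
      (∀ q ∈ SY Hs D 0 \ PYs Hs D, ψ q ∈ Hs) ∧
      Ok E (full n Gs ∪ SX Hs D 0) (full n Gs ∪ SY Hs D 0) σ ψ ∧
      (∀ a ∈ AZ, ((∑ p ∈ fib (SX Hs D 0) σ a, (D p.1).skD (E p.1) p.2 + colL E (full n Gs) σ a : ℕ)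
          : ℝ) ≤ Hs.card / (2 * 10 ^ 18) + n ∧
        ((∑ p ∈ fib (SX Hs D 0) σ a, (D p.1).tpD (E p.1) p.2 : ℕ) : ℝ)
          ≤ (1 - 2 / 10 ^ 17) * Hs.card + n ∧
        (colL E (SX Hs D 0) σ a : ℝ) ≤ 10 ^ 17 * Hs.card + n) ∧
      ∀ r ∈ Hs, ∀ κ, ((fib (fib (SY Hs D 0 \ PYs Hs D) ψ r) cl κ).card : ℝ) ≤
        (1 + 1 / 10 ^ 17) / Hs.card * (fib (SY Hs D 0 \ PYs Hs D) cl κ).card + 1 := by
  have hd := h.disj
  have hn0 : 0 < n := lt_of_lt_of_le (by norm_num) h.n_ge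
  have hn : (0 : ℝ) < n := by exact_mod_cast hn0
  have hk1 := skelR_r h.k_ge
  have hk : (0 : ℝ) < Hs.card := lt_of_lt_of_le (by positivity) hk1
  have hJ := skelR_r h.J_le
  have hη := skelR_q h.par.η_le
  have hη0 := h.par.ηpos
  have hγ := skelR_q h.par.γ_le
  have he := skelR_q h.par.e1_le
  have hSX : ∀ p ∈ SX Hs D 0, p.1 ∈ Hs := fun p hp => (mem_SX.1 hp).1
  have hSY : ∀ p ∈ SY Hs D 0, p.1 ∈ Hs := fun p hp => (mem_SY.1 hp).1
  have hPX := skelR_PX h
  have hPY := skelR_PY h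
  have aX := skelR_act (full n Gs) hPX σ0 AZ
  have aY := skelR_act (full n Gs) hPY ψ0 Hs
  have sD : (10 : ℝ) ^ 36 * (∑ p ∈ SX Hs D 0, (D p.1).skD (E p.1) p.2 : ℕ) ≤ Hs.card * n := by
    exact_mod_cast skelR_skD h
  have sN := skelR_skN E Hs D
  have gX : ((∑ p ∈ full n Gs, dX (E p.1) p.2 : ℕ) : ℝ) ≤ Gs.card * (2 * n) := by
    exact_mod_cast skelR_dX h.trG hn0
  have gY : ((∑ p ∈ full n Gs, dY (E p.1) p.2 : ℕ) : ℝ) ≤ Gs.card * (2 * n) := by
    exact_mod_cast skelR_dY h.trG hn0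
  have hJn : (10 : ℝ) ^ 100 * (Gs.card * n) ≤ Hs.card * n := by
    rw [← mul_assoc]; exact mul_le_mul_of_nonneg_right hJ hn.le
  have hkn : (0 : ℝ) < Hs.card * n := mul_pos hk hn
  obtain ⟨wX, w0, w1, w2⟩ : ∃ wX : Fin 3 → It ι n → ℝ,
      wX 0 = skelR_w Hs (fun p => (D p.1).skD (E p.1) p.2) (fun p => dX (E p.1) p.2) ∧
      wX 1 = skelR_w Hs (fun p => (D p.1).tpD (E p.1) p.2) (fun _ => 0) ∧
      wX 2 = skelR_w Hs (fun p => dX (E p.1) p.2) (fun _ => 0) := ⟨![_, _, _], rfl, rfl, rfl⟩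
  obtain ⟨θA, t0, t1, t2⟩ : ∃ θA : Fin 3 → ℝ, θA 0 = Hs.card / (2 * 10 ^ 18) ∧
      θA 1 = (1 - 2 / 10 ^ 17) * Hs.card ∧ θA 2 = 10 ^ 17 * Hs.card := ⟨![_, _, _], rfl, rfl, rfl⟩
  obtain ⟨cA, c0, c1, c2⟩ : ∃ cA : Fin 3 → ℝ, cA 0 = n / 10 ^ 17 ∧
      cA 1 = (1 + 3 / 10 ^ 17) * (((SY Hs D 3).card : ℝ) / Hs.card) ∧ cA 2 = 2 * n / 10 ^ 17 :=
    ⟨![_, _, _], rfl, rfl, rfl⟩
  have hcA : ∀ κ, 0 ≤ cA κ := skelR_fin3 (by rw [c0]; positivity) (by rw [c1]; positivity)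
    (by rw [c2]; positivity)
  set PY := SY Hs D 0 \ PYs Hs D with hPYdef
  obtain ⟨wY, v0, v1⟩ : ∃ wY : Option (Fin N) → It ι n → ℝ,
      wY none = skelR_w Hs (fun q => (D q.1).skN (E q.1) q.2) (fun q => dY (E q.1) q.2) ∧
      ∀ κ q, wY (some κ) q = if q ∈ fib PY cl κ then 1 else 0 :=
    ⟨fun o => Option.elim o _ fun κ q => if q ∈ fib PY cl κ then 1 else 0, rfl, fun _ _ => rfl⟩
  obtain ⟨θB, s0, s1⟩ : ∃ θB : Option (Fin N) → ℝ, θB none = n / 10 ^ 17 ∧
      ∀ κ, θB (some κ) = (1 + 1 / 10 ^ 17) / Hs.card * (fib PY cl κ).card :=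
    ⟨fun o => Option.elim o _ fun κ => (1 + 1 / 10 ^ 17) / Hs.card * (fib PY cl κ).card, rfl,
      fun _ => rfl⟩
  obtain ⟨MB, m0, m1⟩ : ∃ MB : Option (Fin N) → ℝ, MB none = P.η * n ∧ ∀ κ, MB (some κ) = 1 :=
    ⟨fun o => Option.elim o _ fun _ => 1, rfl, fun _ => rfl⟩
  obtain ⟨cB, b0, b1⟩ : ∃ cB : Option (Fin N) → ℝ, cB none = Hs.card / 10 ^ 18 ∧
      ∀ κ, cB (some κ) = Hs.card / (1 + 1 / 10 ^ 17) :=
    ⟨fun o => Option.elim o _ fun _ => Hs.card / (1 + 1 / 10 ^ 17), rfl, fun _ => rfl⟩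
  have hdY : Disjoint (full n Gs ∪ PYs Hs D) PY := disjoint_union_left.2
    ⟨(disjoint_full_its hd _).mono_right sdiff_subset, disjoint_sdiff⟩
  have hsome : ∀ (T : Finset (It ι n)) κ, ∑ q ∈ T, wY (some κ) q = (T ∩ fib PY cl κ).card := by
    intro T κ
    rw [sum_congr rfl fun q _ => v1 κ q, sum_ite_mem]
    simp
  obtain ⟨σ, ψ, r1, r2, r3, r4, r5, -, -, r8, r9⟩ := greedy E (full n Gs ∪ PXs Hs D)
    (full n Gs ∪ PYs Hs D) (SX Hs D 0 \ PXs Hs D) PY σ0 ψ0 h0.ok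
    (disjoint_union_left.2 ⟨(disjoint_full_its hd _).mono_right sdiff_subset, disjoint_sdiff⟩) hdY
    (fun p => (D p.1).T.rX p.2) (fun q => (D q.1).T.rY q.2)
    (by
      rintro ⟨i, x⟩ hp ⟨j, y⟩ - ⟨j', y'⟩ - ⟨rfl, a⟩ ⟨rfl, a'⟩ b b'
      have t := (h.good _ (hSX _ (mem_sdiff.1 hp).1)).kd.tree
      exact Prod.ext rfl ((t.of_rY_le a b).2.symm.trans (t.of_rY_le a' b').2))
    (by
      rintro ⟨i, y⟩ hq ⟨j, x⟩ - ⟨j', x'⟩ - ⟨rfl, a⟩ ⟨rfl, a'⟩ b b'
      have t := (h.good _ (hSY _ (mem_sdiff.1 hq).1)).kd.tree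
      exact Prod.ext rfl ((t.of_rX_le a b).symm.trans (t.of_rX_le a' b')))
    (fun a => {a}) 1 (fun a => mem_singleton_self a)
    (fun a b c => mem_singleton.2 (mem_singleton.1 c).symm) (fun a => (card_singleton a).le)
    (fun _ => AZ) (fun _ => Hs) AZ Hs (fun _ _ a ha => singleton_subset_iff.2 ha)
    (fun p hp q hq a => singleton_subset_iff.2
      (h0.inA p (skelR_host hd hp (a.1 ▸ hSY q (mem_sdiff.1 hq).1))))
    (fun _ _ => Subset.rfl)
    (fun q hq p hp a => h0.inH q (skelR_host hd hq (a.1 ▸ hSX p (mem_sdiff.1 hp).1)))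
    wX θA (fun _ => n) cA 0 wY θB MB cB none
    (skelR_fin3 (w0 ▸ skelR_w_nonneg _ _) (w1 ▸ skelR_w_nonneg _ _) (w2 ▸ skelR_w_nonneg _ _))
    (skelR_fin3 (by rw [t0]; positivity) (by rw [t1]; exact mul_nonneg (by norm_num) hk.le)
      (by rw [t2]; positivity))
    hcA
    (by
      rintro (_ | κ) q
      · exact v0 ▸ skelR_w_nonneg _ _ q
      · rw [v1]; split_ifs <;> norm_num)
    (by
      rintro (_ | κ)
      · rw [s0]; positivity
      · rw [s1]; positivity)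
    (by
      rintro (_ | κ)
      · rw [b0]; positivity
      · rw [b1]; positivity)
    (by
      intro p _
      rw [w0]
      by_cases hp : p.1 ∈ Hs
      · rw [skelR_w_host hp]
        have a := skelR_adjX (E := E) hd aY hp
        simp only [Kd.mem_sY] at a
        exact_mod_cast a
      · rw [skelR_w_guest hp]
        exact_mod_cast card_adjX_le _ p)
    (by
      intro q _
      rw [v0]
      by_cases hq : q.1 ∈ Hs
      · rw [skelR_w_host hq]
        have a := skelR_adjY (E := E) hd aX hq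
        simp only [Kd.mem_sX] at a
        exact_mod_cast a
      · rw [skelR_w_guest hq]
        exact_mod_cast card_adjY_le _ q)
    (fun _ => hn.le)
    (by
      refine skelR_fin3 (fun p hp => ?_) (fun p hp => ?_) fun p hp => ?_
      · rw [w0, skelR_w_host (hSX p (mem_sdiff.1 hp).1)]
        exact_mod_cast (Kd.skD_le _ _ _).trans (dX_le _ _)
      · rw [w1, skelR_w_host (hSX p (mem_sdiff.1 hp).1)]
        exact_mod_cast (Kd.tpD_le _ _ _).trans (dX_le _ _)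
      · rw [w2, skelR_w_host (hSX p (mem_sdiff.1 hp).1)]
        exact_mod_cast dX_le _ _)
    (by
      rintro (_ | κ)
      · rw [m0]; positivity
      · rw [m1]; norm_num)
    (by
      rintro (_ | κ) q hq
      · rw [v0, m0, skelR_w_host (hSY q (mem_sdiff.1 hq).1)]
        exact le_trans (by exact_mod_cast Kd.skN_le _ _ _) (skelR_light h hq)
      · rw [v1, m1]; split_ifs <;> norm_num)
    (by
      refine skelR_fin3 (fun a _ => ?_) (fun a _ => ?_) fun a _ => ?_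
      · rw [w0, t0, skelR_split hd fun p hp => hSX p (hPX hp)]
        exact h0.met.m0 a
      · rw [w1, t1, skelR_split hd fun p hp => hSX p (hPX hp), sum_const_zero, add_zero]
        exact h0.met.m1 a
      · rw [w2, t2, skelR_split hd fun p hp => hSX p (hPX hp), sum_const_zero, add_zero]
        exact_mod_cast h0.met.m2 a)
    (by
      rintro (_ | κ) r hr
      · rw [v0, s0, m0, skelR_split hd fun p hp => hSY p (hPY hp), Nat.cast_add]
        have a1 := h0.vec r (Sum.inr 1)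
        have a2 := h0.gst.row r hr
        simp only [DD.vec_skN] at a1
        have a3 : ((∑ q ∈ PYs Hs D, (D q.1).skN (E q.1) q.2 : ℕ) : ℝ) / Hs.card ≤ n / 10 ^ 36 := by
          have a4 : ((∑ q ∈ PYs Hs D, (D q.1).skN (E q.1) q.2 : ℕ) : ℝ) ≤
              (∑ p ∈ SX Hs D 0, (D p.1).skD (E p.1) p.2 : ℕ) := by
            exact_mod_cast (sum_le_sum_of_subset hPY).trans sN.le
          rw [div_le_div_iff₀ hk (by positivity)]
          linarith only [a4, sD]
        have a5 : P.γ * n ≤ 1 / 10 ^ 100 * n := mul_le_mul_of_nonneg_right hγ hn.le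
        have a6 : P.e1 * n ≤ 1 / 10 ^ 100 * n := mul_le_mul_of_nonneg_right he hn.le
        have a7 : 0 ≤ P.η * n := by positivity
        unfold rowL at a2
        linarith only [a1, a2, a3, a5, a6, a7, hn]
      · rw [hsome, s1, m1, disjoint_iff_inter_eq_empty.1
          (hdY.mono (fib_subset _ _ _) (fib_subset _ _ _)), card_empty, Nat.cast_zero]
        positivity)
    (by
      refine fun _ => skelR_fin3 ?_ ?_ ?_
      · rw [w0, t0, c0]
        refine (skelR_tot hd hSX aX _ _).trans ?_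
        rw [Nat.cast_add]
        have a : (n : ℝ) / 10 ^ 17 * (Hs.card / (2 * 10 ^ 18)) = Hs.card * n / (2 * 10 ^ 35) := by
          ring
        rw [a]
        linarith only [sD, gX, hJn, hkn]
      · rw [w1, t1, c1]
        refine (skelR_tot hd hSX aX _ _).trans ?_
        rw [sum_const_zero, add_zero, skelR_tpD h]
        have a : (1 + 3 / 10 ^ 17) * (((SY Hs D 3).card : ℝ) / Hs.card) *
            ((1 - 2 / 10 ^ 17) * Hs.card) =
            (1 + 3 / 10 ^ 17) * (1 - 2 / 10 ^ 17) * (SY Hs D 3).card := by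
          field_simp
        rw [a]
        exact le_mul_of_one_le_left (Nat.cast_nonneg _) (by norm_num)
      · rw [w2, t2, c2]
        refine (skelR_tot hd hSX aX _ _).trans ?_
        rw [sum_const_zero, add_zero]
        have a : ((∑ p ∈ SX Hs D 0, dX (E p.1) p.2 : ℕ) : ℝ) ≤ Hs.card * (2 * n) := by
          exact_mod_cast (sum_le_sum_of_subset (its_subset _ _)).trans (skelR_dX h.trH hn0)
        refine a.trans (le_of_eq ?_)
        ring)
    (by
      rintro - (_ | κ)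
      · rw [v0, s0, b0]
        refine (skelR_tot hd hSY aY _ _).trans ?_
        rw [sN, Nat.cast_add]
        have a : (Hs.card : ℝ) / 10 ^ 18 * (n / 10 ^ 17) = Hs.card * n / 10 ^ 35 := by ring
        rw [a]
        linarith only [sD, gY, hJn, hkn]
      · rw [hsome, s1, b1]
        have a : (Hs.card : ℝ) / (1 + 1 / 10 ^ 17) *
            ((1 + 1 / 10 ^ 17) / Hs.card * (fib PY cl κ).card) = (fib PY cl κ).card := by
          field_simp
        rw [a]
        exact_mod_cast card_le_card inter_subset_right)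
    (by
      intro p hp
      obtain ⟨p1, p2⟩ := mem_sdiff.1 hp
      obtain ⟨p3, p4⟩ := mem_SX.1 p1
      have a1 : ((act (full n Gs ∪ PXs Hs D) (SX Hs D 0 \ PXs Hs D) σ0 AZ).filter
          fun p' => p'.1 = p.1).card ≤ ((D p.1).sX 0).card := by
        refine le_trans (card_le_card fun p' hp' => ?_)
          (card_its_owner_le Hs (fun i => (D i).sX 0) p.1)
        obtain ⟨e1, e2⟩ := mem_filter.1 hp'
        exact mem_filter.2 ⟨skelR_host hd (aX e1) (e2 ▸ p3), e2⟩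
      have a2 : (10 : ℝ) ^ 36 * ((act (full n Gs ∪ PXs Hs D) (SX Hs D 0 \ PXs Hs D) σ0 AZ).filter
          fun p' => p'.1 = p.1).card ≤ n := by
        exact_mod_cast (Nat.mul_le_mul_left _ a1).trans (h.good _ p3).kd.csk
      have a3 : ((((full n Gs ∪ PYs Hs D).filter fun q => adj E p q).card : ℕ) : ℝ) ≤ 1 := by
        have e1 := skelR_adjX (E := E) (T := full n Gs ∪ PYs Hs D) (F := fun i => (D i).PY) hd
          Subset.rfl p3
        have e2 := (h.good _ p3).big.oneX _ p4 fun c => p2 (mem_its.2 ⟨p3, c⟩)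
        exact Nat.cast_le_one.2 (e1.trans e2)
      have a4 : ∑ κ, (if 0 < wX κ p then cA κ else 0) ≤ ∑ κ, cA κ :=
        sum_le_sum fun κ _ => by split_ifs; exacts [le_rfl, hcA κ]
      rw [Fin.sum_univ_three cA, c0, c1, c2] at a4
      have a5 : P.η * n ≤ 1 / 10 ^ 100 * n := mul_le_mul_of_nonneg_right hη hn.le
      have a6 := mul_le_mul_of_nonneg_right (add_le_add_left a3 1)
        (show (0 : ℝ) ≤ n / 10 ^ 17 + P.η * n by positivity)
      rw [s0, m0, Nat.cast_one, one_mul, one_mul]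
      linarith only [a2, a4, a5, a6, hAZ, hn])
    (by
      intro q hq
      obtain ⟨p1, p2⟩ := mem_sdiff.1 hq
      obtain ⟨p3, p4⟩ := mem_SY.1 p1
      have a2 : (((act (full n Gs ∪ PYs Hs D) PY ψ0 Hs).filter
          fun q' => q'.1 = q.1).card : ℝ) ≤ n := by
        exact_mod_cast card_owner_le _ _
      have a3 : ((((full n Gs ∪ PXs Hs D).filter fun p => adj E p q).card : ℕ) : ℝ) ≤ 1 := by
        have e1 := skelR_adjY (E := E) (T := full n Gs ∪ PXs Hs D) (F := fun i => (D i).PX) hd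
          Subset.rfl p3
        have e2 := (h.good _ p3).big.oneY _ p4 fun c => p2 (mem_its.2 ⟨p3, c⟩)
        exact Nat.cast_le_one.2 (e1.trans e2)
      have a4 : ∑ κ, (if 0 < wY κ q then cB κ else 0) ≤
          Hs.card / 10 ^ 18 + Hs.card / (1 + 1 / 10 ^ 17) := by
        rw [Fintype.sum_option, sum_eq_single (cl q)]
        · refine add_le_add ?_ ?_
          · rw [b0]; split_ifs; exacts [le_rfl, by positivity]
          · rw [b1]; split_ifs; exacts [le_rfl, by positivity]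
        · intro κ _ hκ
          rw [v1, if_neg fun c => hκ (mem_fib.1 c).2.symm, if_neg (lt_irrefl _)]
        · exact fun c => absurd (mem_univ _) c
      have a5 : (Hs.card : ℝ) / (1 + 1 / 10 ^ 17) ≤ (1 - 1 / (2 * 10 ^ 17)) * Hs.card := by
        rw [div_le_iff₀ (by positivity)]
        linarith only [hk]
      have a6 := mul_le_mul_of_nonneg_right (add_le_add_left a3 1)
        (show (0 : ℝ) ≤ Hs.card / (2 * 10 ^ 18) + n by positivity)
      rw [t0, Nat.cast_one, one_mul]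
      linarith only [a2, a4, a5, a6, hk, hk1])
  rw [skelR_union _ hPX] at r5 r8
  rw [hPYdef, skelR_union _ hPY] at r5
  refine ⟨σ, ψ, r1, r2, r3, r4, r5, fun a ha => ⟨?_, ?_, ?_⟩, fun r hr κ => ?_⟩
  · have b := r8 0 a ha
    rwa [w0, t0, skelR_split hd hSX] at b
  · have b := r8 1 a ha
    rwa [w1, t1, skelR_split hd hSX, sum_const_zero, add_zero] at b
  · have b := r8 2 a ha
    rwa [w2, t2, skelR_split hd hSX, sum_const_zero, add_zero] at b
  · have b := r9 (some κ) r hr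
    rw [hsome, s1, m1] at b
    refine le_trans ?_ b
    refine Nat.cast_le.2 (card_le_card fun q hq => ?_)
    obtain ⟨q1, q2⟩ := mem_fib.1 hq
    obtain ⟨q3, q4⟩ := mem_fib.1 q1
    exact mem_inter.2 ⟨mem_fib.2 ⟨mem_union_right _ q3, q4⟩, mem_fib.2 ⟨q3, q2⟩⟩

/-- Proof idea. `PX = SX 0 \ PXs`, `PY = SY 0 \ PYs`; `classes` for `PY` with `v = vec`, `w = dY`, `b = η n`, `R = P.R`. `greedy` with the ranks of `(D i).T`, the column meters of `skelP` (weights `skD` (guests `dX`), `tpD`, `dX` (guests `0`);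
`θA = θ k / 20, (1 - 2 θ) k, k / θ`, `MA = n`, `cA = θ n, (1 + 3 θ) #SY 3 / k, 2 θ n`, `θ = 10 ^ (-17)`), `AX = Ac = AZ`, `AY = Br = Hs`, `KB = Option (Fin N)`: for `none` the weight `skN` (guests `dY`), `θB = θ n`, `MB = η n`, `cB = θ k / 10`; for `some κ` the
indicator of `fib PY cl κ`, `θB = (1 + θ) #(fib PY cl κ) / k`, `MB = 1`, `cB = k / (1 + θ)`. New vertices have at most one old neighbour (`oneX`, `oneY`). -/
theorem skelR (h : One A E B S d P Hs Gs D) (AZ : Finset A)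
    (hAZ : (1 + 3 / 10 ^ 17) * (((SY Hs D 3).card : ℝ) / Hs.card) + 6 / 10 ^ 17 * n ≤ AZ.card)
    {σ0 : It ι n → A} {ψ0 : It ι n → ι}
    (h0 : StS E P.γ Hs Gs D AZ (PXs Hs D) (PYs Hs D) 1 (P.e1 * n / 10) σ0 ψ0) :
    ∃ (σ : It ι n → A) (ψ : It ι n → ι),
      StS E P.γ Hs Gs D AZ (SX Hs D 0) (SY Hs D 0) (1 + 1 / 10 ^ 17) (P.e1 * n / 2) σ ψ := by
  have hn0 : 0 < n := lt_of_lt_of_le (by norm_num) h.n_ge
  have hn : (0 : ℝ) < n := by exact_mod_cast hn0
  have hk1 := skelR_r h.k_ge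
  have hk : (0 : ℝ) < Hs.card := lt_of_lt_of_le (by positivity) hk1
  have hη0 := h.par.ηpos
  have he0 := h.par.e1pos
  have hPX := skelR_PX h
  have hPY := skelR_PY h
  obtain ⟨N, cl, hcl⟩ := classes (SY Hs D 0 \ PYs Hs D) (fun q z => (D q.1).vec (E q.1) q.2 z)
    (fun q => dY (E q.1) q.2) P.R h.par.R_pos (P.η * n) (by positivity)
    (fun q hq z => DD.vec_le (h.good _ (mem_SY.1 (mem_sdiff.1 hq).1).1).kd _ _)
    fun q hq => ⟨(h.trH _ (mem_SY.1 (mem_sdiff.1 hq).1).1).dY_pos _, skelR_light h hq⟩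
  obtain ⟨σ, ψ, r1, r2, r3, r4, r5, r6, r7⟩ := skelR_greedy h AZ hAZ h0 cl
  have hg := h0.gst.congr (fun p hp => r1 p (mem_union_left _ hp))
    fun q hq => r2 q (mem_union_left _ hq)
  have hA : ∀ p ∈ SX Hs D 0, σ p ∈ AZ := fun p hp => by
    by_cases c : p ∈ PXs Hs D
    · rw [r1 p (mem_union_right _ c)]
      exact h0.inA p c
    · exact r3 p (mem_sdiff.2 ⟨hp, c⟩)
  have hemp : ∀ a, a ∉ AZ → fib (SX Hs D 0) σ a = ∅ := fun a ha =>
    eq_empty_of_forall_notMem fun p hp => ha ((mem_fib.1 hp).2 ▸ hA p (mem_fib.1 hp).1)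
  refine ⟨σ, ψ, r5, hg, hA, fun q hq => ?_, ⟨fun a => ?_, fun a => ?_, fun a => ?_⟩,
    fun r z => ?_, fun i hi i' hi' e => ?_⟩
  · by_cases c : q ∈ PYs Hs D
    · rw [r2 q (mem_union_right _ c)]
      exact h0.inH q c
    · exact r4 q (mem_sdiff.2 ⟨hq, c⟩)
  · by_cases ha : a ∈ AZ
    · exact (r6 a ha).1
    · rw [hemp a ha, sum_empty, zero_add, colL_congr fun p hp => r1 p (mem_union_left _ hp)]
      exact le_trans (Nat.cast_le.2 (Nat.le_add_left _ _)) (h0.met.m0 a)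
  · by_cases ha : a ∈ AZ
    · exact (r6 a ha).2.1
    · rw [hemp a ha, sum_empty, Nat.cast_zero]
      exact add_nonneg (mul_nonneg (by norm_num) hk.le) hn.le
  · by_cases ha : a ∈ AZ
    · exact_mod_cast (r6 a ha).2.2
    · rw [colL, hemp a ha, sum_empty]
      exact Nat.zero_le _
  · have a1 := h0.vec r z
    have a2 := hcl (fib (SY Hs D 0 \ PYs Hs D) ψ r) (fib_subset _ _ _)
      ((1 + 1 / 10 ^ 17) / Hs.card) (by positivity) (fun κ => by
        by_cases hr : r ∈ Hs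
        · exact r7 r hr κ
        · have c : fib (SY Hs D 0 \ PYs Hs D) ψ r = ∅ := eq_empty_of_forall_notMem fun q hq =>
            hr ((mem_fib.1 hq).2 ▸ r4 q (mem_fib.1 hq).1)
          rw [c, show fib (∅ : Finset (It ι n)) cl κ = ∅ from rfl, card_empty, Nat.cast_zero]
          positivity) z
    rw [← fib_congr (fun q hq => r2 q (mem_union_right _ hq)) r] at a1
    have a3 : ∑ q ∈ fib (SY Hs D 0) ψ r, (D q.1).vec (E q.1) q.2 z =
        ∑ q ∈ fib (PYs Hs D) ψ r, (D q.1).vec (E q.1) q.2 z +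
          ∑ q ∈ fib (SY Hs D 0 \ PYs Hs D) ψ r, (D q.1).vec (E q.1) q.2 z := by
      rw [← sum_union (disjoint_sdiff.mono (fib_subset _ _ _) (fib_subset _ _ _)), ← fib_union,
        union_sdiff_of_subset hPY]
    have a4 := sum_sdiff (f := fun q : It ι n => (D q.1).vec (E q.1) q.2 z) hPY
    have a5 : ((∑ q ∈ SY Hs D 0 \ PYs Hs D, dY (E q.1) q.2 : ℕ) : ℝ) ≤ Hs.card * (2 * n) := by
      exact_mod_cast (sum_le_sum_of_subset (sdiff_subset.trans (its_subset _ _))).trans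
        (skelR_dY h.trH hn0)
    have hR : (0 : ℝ) < P.R := by exact_mod_cast h.par.R_pos
    have a6 : ((∑ q ∈ SY Hs D 0 \ PYs Hs D, dY (E q.1) q.2 : ℕ) : ℝ) / P.R ≤
        Hs.card * (P.e1 * n / 50) := by
      rw [div_le_iff₀ hR]
      have := mul_le_mul_of_nonneg_left h.par.hR (mul_pos hk hn).le
      linarith
    have a7 : 4 * (2 * (P.R : ℝ) + 1) ^ Fintype.card (τ ⊕ Fin 3) * (P.η * n) ≤ P.e1 * n / 25 := by
      rw [Fintype.card_sum, Fintype.card_fin]
      have := mul_le_mul_of_nonneg_right h.par.hη hn.le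
      linarith
    rw [a3, ← a4, Nat.cast_add, Nat.cast_add]
    set u : ℝ := ((∑ q ∈ SY Hs D 0 \ PYs Hs D, (D q.1).vec (E q.1) q.2 z : ℕ) : ℝ)
    set v : ℝ := ((∑ q ∈ PYs Hs D, (D q.1).vec (E q.1) q.2 z : ℕ) : ℝ)
    have a8 : (1 + 1 / 10 ^ 17) / (Hs.card : ℝ) * (u + Hs.card * (P.e1 * n / 50)) =
        (1 + 1 / 10 ^ 17) * (u / Hs.card) + (1 + 1 / 10 ^ 17) * (P.e1 * n / 50) := by
      field_simp
    have a9 := mul_le_mul_of_nonneg_left (add_le_add_right a6 u)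
      (show (0 : ℝ) ≤ (1 + 1 / 10 ^ 17) / Hs.card by positivity)
    have a10 : 0 ≤ v / Hs.card := by positivity
    have a11 : 0 < P.e1 * n := by positivity
    rw [add_div]
    linarith
  · have c : ∀ j ∈ Hs, ψ (j, (D j).y1) = ψ0 (j, (D j).y1) := fun j hj =>
      r2 _ (mem_union_right _ (mem_its.2 ⟨hj, (h.good j hj).big.y1P⟩))
    rw [c i hi, c i' hi'] at e
    exact h0.y1 i hi i' hi' e

end Pool.Agent.MP_4c107d_co.H78

end

section

/-!
The tops.
-/

set_option autoImplicit false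
set_option linter.unusedSectionVars false

namespace Pool.Agent.MP_4c107d_co.H78

open Finset

variable {ι A τ : Type} [DecidableEq ι] [DecidableEq A] [Fintype A] [DecidableEq τ] [Fintype τ]
  {n S d : ℕ} {E : ι → Gr n} {B : Tab τ} {P : Par} {Hs Gs : Finset ι} {D : ι → DD n τ}


/-- the column of the parent of a top -/
def roots_ca (D : ι → DD n τ) (σ : It ι n → A) (q : It ι n) : A := σ (q.1, (D q.1).T.pY q.2)

/-- the shape of a top -/
def roots_ty (D : ι → DD n τ) (q : It ι n) : τ := (D q.1).ty (Sum.inr q.2)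

/-- the tops with given column and shape -/
def roots_N (Hs : Finset ι) (D : ι → DD n τ) (σ : It ι n → A) (a : A) (c : τ) : Finset (It ι n) :=
  (SY Hs D 3).filter fun q => roots_ca D σ q = a ∧ roots_ty D q = c

theorem roots_occ (hd : Disjoint Hs Gs) (σ : It ι n → A) (ψ : It ι n → ι) (a : A) :
    (Hs.filter fun r => occ E (full n Gs ∪ SX Hs D 0) (full n Gs ∪ SY Hs D 0) σ ψ a r).card ≤
      ∑ p ∈ fib (SX Hs D 0) σ a, (D p.1).skD (E p.1) p.2 + colL E (full n Gs) σ a := by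
  refine (card_occ_col_le Hs a).trans ?_
  have hd' : Disjoint (full n Gs) (SX Hs D 0) := disjoint_full_its hd _
  rw [fib_union, sum_union (disjoint_of_subset_left (fib_subset _ _ _)
    (disjoint_of_subset_right (fib_subset _ _ _) hd')), add_comm]
  refine Nat.add_le_add (sum_le_sum fun p hp => ?_) (sum_le_sum fun p _ => card_adjX_le _ p)
  have hp1 := (mem_SX.1 (mem_fib.1 hp).1).1
  refine card_le_card_of_injOn (fun q => q.2) (fun q hq => ?_) fun q hq q' hq' e => ?_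
  · obtain ⟨a1, a2, a3⟩ := mem_filter.1 (mem_coe.1 hq)
    refine mem_coe.2 (mem_filter.2 ⟨mem_nX.2 a3, ?_⟩)
    rcases mem_union.1 a1 with a1 | a1
    · exact absurd (mem_full.1 a1) (disjoint_left.1 hd (a2 ▸ hp1))
    · rw [a2]; exact (mem_SY.1 a1).2
  · exact Prod.ext ((mem_filter.1 (mem_coe.1 hq)).2.1.symm.trans
      (mem_filter.1 (mem_coe.1 hq')).2.1) e

theorem roots_sumN (hg : ∀ i ∈ Hs, (D i).toKd.Good (E i) S d) (σ : It ι n → A) (a : A) :
    ∑ c, (roots_N Hs D σ a c).card ≤ ∑ p ∈ fib (SX Hs D 0) σ a, (D p.1).tpD (E p.1) p.2 := by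
  have e1 : ∑ c, (roots_N Hs D σ a c).card = (fib (SY Hs D 3) (roots_ca D σ) a).card := by
    rw [card_eq_sum_card_fiberwise (f := roots_ty D) (t := univ) fun _ _ => mem_coe.2 (mem_univ _)]
    refine sum_congr rfl fun c _ => ?_
    rw [roots_N, fib, filter_filter]
  rw [e1]
  unfold Kd.tpD
  rw [← card_sigma]
  refine card_le_card_of_injOn (fun q => ⟨(q.1, (D q.1).T.pY q.2), q.2⟩) (fun q hq => ?_)
    fun q _ q' _ e => ?_
  · obtain ⟨a1, a2⟩ := mem_fib.1 (mem_coe.1 hq)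
    obtain ⟨a3, a4⟩ := mem_SY.1 a1
    obtain ⟨a5, a6⟩ := ((hg _ a3).top _ a4 _).2 rfl
    exact mem_coe.2 (mem_sigma.2 ⟨mem_fib.2 ⟨mem_SX.2 ⟨a3, a6⟩, a2⟩,
      mem_filter.2 ⟨mem_nX.2 a5, a4⟩⟩)
  · exact Prod.ext (congrArg (fun x => x.1.1) e) (congrArg (fun x => x.2) e)

theorem roots_cnt (hg : ∀ i ∈ Hs, (D i).toKd.Good (E i) S d) (Y : Finset (It ι n))
    (hY : Y ⊆ SY Hs D 3) (c : τ) :
    ∑ q ∈ Y, (D q.1).cnt q.2 c = (Y.filter fun q => roots_ty D q = c).card := by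
  rw [card_filter]
  refine sum_congr rfl fun q hq => ?_
  obtain ⟨a1, a2⟩ := mem_SY.1 (hY hq)
  exact DD.cnt_top (hg _ a1) a2 c

theorem roots_sumA (σ : It ι n → A) (c : τ) :
    ∑ a, (roots_N Hs D σ a c).card = ((SY Hs D 3).filter fun q => roots_ty D q = c).card := by
  rw [card_eq_sum_card_fiberwise (f := roots_ca D σ) (t := univ) fun _ _ => mem_coe.2 (mem_univ _)]
  refine sum_congr rfl fun a _ => ?_
  rw [roots_N, filter_filter]
  congr 1
  exact filter_congr fun q _ => and_comm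

theorem roots_num (k n e1 T a lg : ℝ) (hn : 0 ≤ n) (hk : 0 < k) (hT : 0 ≤ T) (ha : a ≤ 2 * n)
    (he : 0 < e1) (h1 : 1000 * n ≤ e1 * k) (h2 : 10 ^ 20 * lg ≤ e1 * n) :
    (1 + 1 / (2 * 10 ^ 17)) * ((T + a * (2 * n)) / ((1 - 1 / 10 ^ 18) * k) + lg / (1 / (2 * 10 ^ 17)))
      ≤ (1 + 1 / 10 ^ 17) * (T / k) + e1 * n / 2 := by
  have a1 : 0 ≤ T / k := by positivity
  have a2 : a * (2 * n) / k ≤ e1 * n / 250 := by
    rw [div_le_iff₀ hk]
    have b1 : a * (2 * n) ≤ 2 * n * (2 * n) := mul_le_mul_of_nonneg_right ha (by positivity)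
    have b2 := mul_le_mul_of_nonneg_left h1 hn
    nlinarith
  have a3 : (T + a * (2 * n)) / ((1 - 1 / 10 ^ 18) * k)
      = (T / k + a * (2 * n) / k) * (1 / (1 - 1 / 10 ^ 18)) := by
    field_simp
  have a4 : lg / (1 / (2 * 10 ^ 17)) = 2 * 10 ^ 17 * lg := by field_simp
  have a5 : 0 ≤ e1 * n := by positivity
  rw [a3, a4]
  generalize T / k = x at *
  generalize a * (2 * n) / k = y at *
  generalize e1 * n = z at *
  norm_num
  linarith

/-- Proof idea. For `q ∈ SY 3` let `ca q = σ (q.1, pY q.2)` and `ty q = ty (inr q.2)`; the parent is the only placed neighbour (`Kd.Good.top`). `rootsA` with `Ac = univ`, `F a = {r ∈ Hs | ¬ occ a r}` (`card_occ_col_le`, `m0`),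
`L a c = #{q | ca q = a, ty q = c} + 2 n` (`m1`, `One.Mk`), `g = (1 - θ / 10) k`, `β = θ / 2`, `θ = 10 ^ (-17)`. Then `greedyCol` with lists `F' (ca q) (ty q)` minus the rows used by the tree `q.1`, and conflicts
`q.1 = q'.1 ∨ (ca q = ca q' ∧ ty q = ty q')`. In a row the tops of one shape have different `ca` (`DD.cnt_top`). -/
theorem roots (h : One A E B S d P Hs Gs D) {AZ : Finset A} {σ : It ι n → A} {ψ0 : It ι n → ι}
    (h0 : StS E P.γ Hs Gs D AZ (SX Hs D 0) (SY Hs D 0) (1 + 1 / 10 ^ 17) (P.e1 * n / 2) σ ψ0) :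
    ∃ ψ : It ι n → ι, St4 E P Hs Gs D AZ σ ψ := by
  have hg : ∀ i ∈ Hs, (D i).toKd.Good (E i) S d := fun i hi => (h.good i hi).kd
  have hn := h.n_ge
  have hk := h.k_ge
  have hn0 : 0 < n := lt_of_lt_of_le (by positivity) hn
  have hk0 : 0 < Hs.card := lt_of_lt_of_le (by positivity) hk
  have hkR : (0 : ℝ) < Hs.card := by exact_mod_cast hk0
  have : Nonempty ι := ⟨(card_pos.1 hk0).choose⟩
  have hM : (10 : ℝ) ^ 60 * ((Fintype.card τ : ℝ) + 1) * n ≤ Hs.card := by exact_mod_cast h.Mk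
  obtain ⟨F, hF⟩ : ∃ F : A → Finset ι, ∀ a, F a = Hs.filter fun r =>
      ¬ occ E (full n Gs ∪ SX Hs D 0) (full n Gs ∪ SY Hs D 0) σ ψ0 a r := ⟨_, fun _ => rfl⟩
  obtain ⟨F', f1, f2, f3⟩ := rootsA (univ : Finset A) Hs F
    (fun a c => (roots_N Hs D σ a c).card + 2 * n) ((1 - 1 / 10 ^ 18) * Hs.card)
    (1 / (2 * 10 ^ 17)) (by positivity) (by positivity) (fun a _ => by
      have hnR : (0 : ℝ) ≤ n := Nat.cast_nonneg _
      have hMn : (0 : ℝ) ≤ (Fintype.card τ : ℝ) * n := by positivity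
      have a1 : (1 - 1 / 10 ^ 18) * (Hs.card : ℝ) ≤ (F a).card := by
        have b1 := card_filter_add_card_filter_not (s := Hs) fun r =>
          occ E (full n Gs ∪ SX Hs D 0) (full n Gs ∪ SY Hs D 0) σ ψ0 a r
        rw [← hF] at b1
        have b2 := (Nat.cast_le (α := ℝ)).2 (roots_occ (E := E) (D := D) h.disj σ ψ0 a)
        have b3 := h0.met.m0 a
        have b4 := congrArg (Nat.cast (R := ℝ)) b1
        rw [Nat.cast_add] at b4
        nlinarith
      refine ⟨by rw [hF]; exact filter_subset _ _, a1, ?_⟩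
      rw [← Nat.cast_le (α := ℝ)]
      refine le_trans ?_ a1
      have b1 := (Nat.cast_le (α := ℝ)).2 (roots_sumN hg σ a)
      have b2 := h0.met.m1 a
      rw [sum_add_distrib, sum_const, card_univ, smul_eq_mul, Nat.cast_add, Nat.cast_mul,
        Nat.cast_mul, Nat.cast_ofNat]
      nlinarith)
  obtain ⟨c, c1, c2⟩ := greedyCol (SY Hs D 3)
    (fun q => F' (roots_ca D σ q) (roots_ty D q) \
      ((full n Gs ∪ SY Hs D 0).filter fun q' => q'.1 = q.1).image ψ0)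
    (fun q q' => q.1 = q'.1 ∨ (roots_ca D σ q = roots_ca D σ q' ∧ roots_ty D q = roots_ty D q'))
    (fun x y hxy => hxy.imp Eq.symm fun h' => ⟨h'.1.symm, h'.2.symm⟩) (fun q hq => by
      have a1 := le_card_sdiff (((full n Gs ∪ SY Hs D 0).filter fun q' => q'.1 = q.1).image ψ0)
        (F' (roots_ca D σ q) (roots_ty D q))
      have a2 := (card_image_le (f := ψ0)).trans (card_owner_le (full n Gs ∪ SY Hs D 0) q.1)
      rw [(f1 _ (mem_univ _) _).2] at a1
      have a3 : q ∈ roots_N Hs D σ (roots_ca D σ q) (roots_ty D q) := mem_filter.2 ⟨hq, rfl, rfl⟩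
      have a4 : ((SY Hs D 3).filter fun y => y ≠ q ∧ (q.1 = y.1 ∨
          (roots_ca D σ q = roots_ca D σ y ∧ roots_ty D q = roots_ty D y))) ⊆
          ((SY Hs D 3).filter fun y => y.1 = q.1) ∪
            (roots_N Hs D σ (roots_ca D σ q) (roots_ty D q)).erase q := by
        intro y hy
        obtain ⟨b1, b2, b3 | b3⟩ := mem_filter.1 hy
        · exact mem_union_left _ (mem_filter.2 ⟨b1, b3.symm⟩)
        · exact mem_union_right _ (mem_erase.2 ⟨b2, mem_filter.2 ⟨b1, b3.1.symm, b3.2.symm⟩⟩)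
      have a5 := (card_le_card a4).trans (card_union_le _ _)
      rw [card_erase_of_mem a3] at a5
      have a6 := card_owner_le (SY Hs D 3) q.1
      have a7 := card_pos.2 ⟨q, a3⟩
      omega)
  have cF' : ∀ q ∈ SY Hs D 3, c q ∈ F' (roots_ca D σ q) (roots_ty D q) :=
    fun q hq => (mem_sdiff.1 (c1 q hq)).1
  have cF : ∀ q ∈ SY Hs D 3, c q ∈ Hs ∧
      ¬ occ E (full n Gs ∪ SX Hs D 0) (full n Gs ∪ SY Hs D 0) σ ψ0 (roots_ca D σ q) (c q) :=
    fun q hq => by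
      have := (f1 _ (mem_univ _) _).1 (cF' q hq)
      rwa [hF, mem_filter] at this
  have cN : ∀ q ∈ SY Hs D 3, ∀ q' ∈ full n Gs ∪ SY Hs D 0, q'.1 = q.1 → ψ0 q' ≠ c q :=
    fun q hq q' hq' e e' =>
      (mem_sdiff.1 (c1 q hq)).2 (mem_image.2 ⟨q', mem_filter.2 ⟨hq', e⟩, e'⟩)
  have cI : ∀ q ∈ SY Hs D 3, ∀ q' ∈ SY Hs D 3, roots_ca D σ q = roots_ca D σ q' → c q = c q' →
      q = q' := fun q hq q' hq' e e' => by
    by_contra hne
    by_cases ht : roots_ty D q = roots_ty D q'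
    · exact c2 q hq q' hq' hne (Or.inr ⟨e, ht⟩) e'
    · refine disjoint_left.1 (f2 _ (mem_univ _) _ _ ht) (cF' q hq) ?_
      rw [e, e']
      exact cF' q' hq'
  obtain ⟨ψ, p1, p2⟩ : ∃ ψ : It ι n → ι, (∀ q ∈ SY Hs D 3, ψ q = c q) ∧
      ∀ q, q ∉ SY Hs D 3 → ψ q = ψ0 q :=
    ⟨fun q => if q ∈ SY Hs D 3 then c q else ψ0 q, fun q hq => if_pos hq, fun q hq => if_neg hq⟩
  have p3 : ∀ q ∈ full n Gs, ψ q = ψ0 q := fun q hq =>
    p2 q (disjoint_left.1 (disjoint_full_its h.disj _) hq)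
  have p4 : ∀ q ∈ SY Hs D 0, ψ q = ψ0 q := fun q hq =>
    p2 q (disjoint_left.1 (disjoint_SY Hs D (by norm_num)) hq)
  have p5 : ∀ q ∈ full n Gs ∪ SY Hs D 0, ψ q = ψ0 q := fun q hq =>
    (mem_union.1 hq).elim (p3 q) (p4 q)
  have par : ∀ p ∈ full n Gs ∪ SX Hs D 0, ∀ q ∈ SY Hs D 3, adj E p q →
      p = (q.1, (D q.1).T.pY q.2) := fun p hp q hq a => by
    obtain ⟨a1, a2⟩ := mem_SY.1 hq
    rcases mem_union.1 hp with hp | hp
    · exact absurd (mem_full.1 hp) (disjoint_left.1 h.disj (a.1 ▸ a1))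
    · refine Prod.ext a.1 (((hg _ a1).top _ a2 _).1 ⟨?_, ?_⟩)
      · rw [← a.1]; exact a.2
      · rw [← a.1]; exact (mem_SX.1 hp).2
  refine ⟨ψ, ⟨h0.ok.injX, fun q hq q' hq' e e' => ?_, fun p hp q hq p' hp' q' hq' a a' e e' => ?_⟩,
    h0.gst.congr (fun _ _ => rfl) p3, h0.inA, fun q hq => ?_, h0.met.m2, fun r z => ?_,
    fun r t => ?_, fun i hi i' hi' e => ?_⟩
  · rw [← union_assoc] at hq hq'
    rcases mem_union.1 hq with hq | hq <;> rcases mem_union.1 hq' with hq' | hq'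
    · rw [p5 q hq, p5 q' hq'] at e'
      exact h0.ok.injY q hq q' hq' e e'
    · rw [p5 q hq, p1 q' hq'] at e'
      exact absurd e' (cN q' hq' q hq e)
    · rw [p1 q hq, p5 q' hq'] at e'
      exact absurd e'.symm (cN q hq q' hq' e.symm)
    · rw [p1 q hq, p1 q' hq'] at e'
      by_contra hne
      exact c2 q hq q' hq' hne (Or.inl e) e'
  · rw [← union_assoc] at hq hq'
    rcases mem_union.1 hq with hq | hq <;> rcases mem_union.1 hq' with hq' | hq'
    · rw [p5 q hq, p5 q' hq'] at e'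
      exact h0.ok.cell p hp q hq p' hp' q' hq' a a' e e'
    · rw [p5 q hq, p1 q' hq'] at e'
      refine absurd ⟨p, hp, q, hq, a, ?_, e'⟩ (cF q' hq').2
      rw [e, par p' hp' q' hq' a']; rfl
    · rw [p1 q hq, p5 q' hq'] at e'
      refine absurd ⟨p', hp', q', hq', a', ?_, e'.symm⟩ (cF q hq).2
      rw [← e, par p hp q hq a]; rfl
    · rw [p1 q hq, p1 q' hq'] at e'
      rw [par p hp q hq a, par p' hp' q' hq' a'] at e ⊢
      rw [cI q hq q' hq' e e']
  · rcases mem_union.1 hq with hq | hq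
    · rw [p4 q hq]; exact h0.inH q hq
    · rw [p1 q hq]; exact (cF q hq).1
  · rw [fib_congr p4]; exact h0.vec r z
  · rw [roots_cnt hg _ (fib_subset _ _ _), roots_cnt hg _ (Subset.refl _)]
    have he := h.par.e1pos
    by_cases hr : r ∈ Hs
    · have a1 : ((fib (SY Hs D 3) ψ r).filter fun q => roots_ty D q = t).card ≤
          (univ.filter fun a => r ∈ F' a t).card := by
        refine card_le_card_of_injOn (roots_ca D σ) (fun q hq => ?_) fun q hq q' hq' e => ?_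
        · obtain ⟨b1, b2⟩ := mem_filter.1 (mem_coe.1 hq)
          obtain ⟨b3, b4⟩ := mem_fib.1 b1
          refine mem_coe.2 (mem_filter.2 ⟨mem_univ _, ?_⟩)
          rw [← b2, ← b4, p1 q b3]
          exact cF' q b3
        · obtain ⟨b3, b4⟩ := mem_fib.1 (mem_filter.1 (mem_coe.1 hq)).1
          obtain ⟨b5, b6⟩ := mem_fib.1 (mem_filter.1 (mem_coe.1 hq')).1
          exact cI q b3 q' b5 e (by rw [← p1 q b3, ← p1 q' b5, b4, b6])
      refine ((Nat.cast_le (α := ℝ)).2 a1).trans ((f3 r hr t).trans ?_)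
      rw [sum_add_distrib, roots_sumA, sum_const, card_univ, smul_eq_mul, Nat.cast_add,
        Nat.cast_mul, Nat.cast_mul, Nat.cast_ofNat]
      refine roots_num _ _ _ _ _ _ (Nat.cast_nonneg _) hkR (Nat.cast_nonneg _) ?_ he h.e1k h.hlog
      have := h.hA
      exact_mod_cast (by omega : Fintype.card A ≤ 2 * n)
    · have a1 : fib (SY Hs D 3) ψ r = ∅ := eq_empty_of_forall_notMem fun q hq => by
        obtain ⟨b3, b4⟩ := mem_fib.1 hq
        exact hr (by rw [← b4, p1 q b3]; exact (cF q b3).1)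
      rw [a1, filter_empty, card_empty, Nat.cast_zero]
      positivity
  · rw [p4 _ (mem_SY.2 ⟨hi, (hg i hi).y1k⟩), p4 _ (mem_SY.2 ⟨hi', (hg i' hi').y1k⟩)] at e
    exact h0.y1 i hi i' hi' e

end Pool.Agent.MP_4c107d_co.H78

end

section

/-!
The late column vertices.
-/

set_option autoImplicit false
set_option linter.unusedSectionVars false

namespace Pool.Agent.MP_4c107d_co.H78

open Finset

variable {ι A τ : Type} [DecidableEq ι] [DecidableEq A] [Fintype A] [DecidableEq τ] [Fintype τ]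
  {n S d : ℕ} {E : ι → Gr n} {B : Tab τ} {P : Par} {Hs Gs : Finset ι} {D : ι → DD n τ}


theorem late_act (h : One A E B S d P Hs Gs D) {Sl : Finset A} {σ0 : It ι n → A}
    (hoff : ∀ p ∈ SX Hs D 0 ∪ SX Hs D 1, σ0 p ∉ Sl) {p : It ι n}
    (hp : p ∈ act (full n Gs ∪ (SX Hs D 0 ∪ SX Hs D 1)) (SX Hs D 2) σ0 Sl) :
    p ∈ SX Hs D 2 ∪ full n Gs ∧ (p.1 ∈ Hs → p ∈ SX Hs D 2) := by
  rcases mem_act.1 hp with h1 | ⟨h1, h2⟩
  · exact ⟨mem_union_left _ h1, fun _ => h1⟩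
  · rcases mem_union.1 h1 with h1 | h1
    · exact ⟨mem_union_right _ h1, fun h3 => absurd (mem_full.1 h1) (disjoint_left.1 h.disj h3)⟩
    · exact absurd h2 (hoff p h1)

theorem late_sum2 (h : One A E B S d P Hs Gs D) :
    10 ^ 82 * ∑ p ∈ SX Hs D 2, dX (E p.1) p.2 ≤ Hs.card * n := by
  rw [SX, sum_its, mul_sum, ← smul_eq_mul, ← sum_const]
  refine sum_le_sum fun i hi => ?_
  have h1 : ∑ x ∈ (D i).sX 2, dX (E i) x ≤ ((D i).sX 2).card • 10 ^ 37 :=
    sum_le_card_nsmul _ _ _ fun x hx => (h.good i hi).kd.clo x ((D i).mem_sX.1 hx)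
  have h2 := (h.good i hi).kd.cclo
  rw [smul_eq_mul] at h1
  simp only
  omega

theorem late_sumG (h : One A E B S d P Hs Gs D) :
    ∑ p ∈ full n Gs, dX (E p.1) p.2 ≤ Gs.card * (2 * n) := by
  have hn : 0 < n := lt_of_lt_of_le (by norm_num) h.n_ge'
  rw [sum_full, ← smul_eq_mul, ← sum_const]
  refine sum_le_sum fun i hi => ?_
  have := (h.trG i hi).sum_dX hn
  simp only
  omega

/-- Proof idea. `greedy` with `DX = full n Gs ∪ (SX 0 ∪ SX 1)`, `DY = nf`, `PX = SX 2`, `PY = ∅`, `nb a = {a}`, `AX = Ac = Sl`, `Br = Hs`, `wX = dX`, `θA = k / (2 * 10 ^ 60)`, `MA = 10 ^ 37`, `cA = 4 n / 10 ^ 22`, `wY = late` (guests `dY`),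
`θB = 2 n / 10 ^ 55`, `MB = cB = 0`. Only closers and guests are active (`off`). -/
theorem closers (h : One A E B S d P Hs Gs D) {Sl : Finset A} (hSl : n ≤ 10 ^ 17 * Sl.card)
    {σ0 : It ι n → A} {ψ : It ι n → ι} (h0 : St5 E P Hs Gs D Sl (SX Hs D 0 ∪ SX Hs D 1) σ0 ψ) :
    ∃ σ : It ι n → A, St5 E P Hs Gs D Sl (SX Hs D 0 ∪ SX Hs D 1 ∪ SX Hs D 2) σ ψ ∧
      ∀ a ∈ Sl, 10 ^ 60 * colL E (full n Gs ∪ (SX Hs D 0 ∪ SX Hs D 1 ∪ SX Hs D 2)) σ a ≤ Hs.card := by
  have hn : (10 : ℝ) ^ 200 ≤ n := by exact_mod_cast h.n_ge'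
  have hk : (10 : ℝ) ^ 200 * n ≤ Hs.card := by exact_mod_cast h.k_ge'
  have hJ : (10 : ℝ) ^ 200 * Gs.card ≤ Hs.card := by exact_mod_cast h.J_le'
  have hSl' : (n : ℝ) ≤ 10 ^ 17 * Sl.card := by exact_mod_cast hSl
  have hγ := h.par.γ_le'
  have hn0 : (0 : ℝ) ≤ n := Nat.cast_nonneg _
  have hk0 : (0 : ℝ) ≤ Hs.card := Nat.cast_nonneg _
  have hG : ∀ q ∈ full n Gs, q.1 ∉ Hs := fun q hq h1 => disjoint_left.1 h.disj h1 (mem_full.1 hq)
  have hdX : Disjoint (full n Gs ∪ (SX Hs D 0 ∪ SX Hs D 1)) (SX Hs D 2) :=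
    disjoint_union_left.2 ⟨disjoint_full_its h.disj _, disjoint_union_left.2
      ⟨disjoint_SX Hs D (by norm_num), disjoint_SX Hs D (by norm_num)⟩⟩
  have hclo : ∀ p ∈ SX Hs D 2, (dX (E p.1) p.2 : ℝ) ≤ 10 ^ 37 := fun p hp => by
    exact_mod_cast (h.good _ (mem_SX.1 hp).1).kd.clo _ (mem_SX.1 hp).2
  obtain ⟨σ, ψ', e1, e2, -, -, hok, -, -, hL, -⟩ := greedy (KA := Unit) (KB := Unit) E
    (full n Gs ∪ (SX Hs D 0 ∪ SX Hs D 1)) (nf E Hs Gs) (SX Hs D 2) ∅ σ0 ψ h0.ok hdX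
    (disjoint_empty_right _) (fun _ => 0) (fun _ => 0) (by simp) (by simp) (fun a => {a}) 1
    (by simp) (by simp) (by simp) (fun _ => Sl) (fun _ => ∅) Sl Hs (by simp) (by simp) (by simp)
    (fun q hq p hp hpq => by
      rcases mem_union.1 hq with h1 | h1
      · exact absurd (hpq.1 ▸ (mem_SX.1 hp).1) (hG q h1)
      · exact h0.inH q h1)
    (fun _ p => dX (E p.1) p.2) (fun _ => Hs.card / (2 * 10 ^ 60)) (fun _ => 10 ^ 37)
    (fun _ => 4 * n / 10 ^ 22) ()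
    (fun _ q => if q.1 ∈ Hs then (D q.1).late (E q.1) q.2 else dY (E q.1) q.2)
    (fun _ => 2 * n / 10 ^ 55) (fun _ => 0) (fun _ => 0) ()
    (fun _ _ => Nat.cast_nonneg _) (fun _ => by positivity) (fun _ => by positivity)
    (fun _ q => by split_ifs <;> exact Nat.cast_nonneg _) (fun _ => by positivity)
    (fun _ => le_rfl) (fun p _ => by exact_mod_cast card_adjX_le _ p)
    (fun q _ => by
      split_ifs with hq
      · refine Nat.cast_le.2 (card_le_card_of_injOn (fun p => p.2) (fun p hp => ?_) ?_)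
        · obtain ⟨h1, h2, h3⟩ := mem_filter.1 hp
          have h4 := (mem_SX.1 ((late_act h h0.off h1).2 (h2 ▸ hq))).2
          rw [h2] at h3 h4
          exact mem_filter.2 ⟨mem_nY.2 h3, h4.ge⟩
        · intro p hp p' hp' e
          exact Prod.ext ((mem_filter.1 hp).2.1.trans (mem_filter.1 hp').2.1.symm) e
      · exact_mod_cast card_adjY_le _ q)
    (fun _ => by positivity) (fun _ => hclo) (fun _ => le_rfl) (by simp)
    (fun _ a ha => by
      have h1 : fib (full n Gs ∪ (SX Hs D 0 ∪ SX Hs D 1)) σ0 a ⊆ fib (full n Gs) σ0 a := by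
        intro p hp
        obtain ⟨h2, h3⟩ := mem_fib.1 hp
        rcases mem_union.1 h2 with h2 | h2
        · exact mem_fib.2 ⟨h2, h3⟩
        · exact absurd (h3 ▸ ha) (h0.off p h2)
      have h2 := h0.gst.col a
      have h3 := mul_le_mul_of_nonneg_right hγ hk0
      rw [colL, Nat.cast_sum] at h2
      refine (sum_le_sum_of_subset_of_nonneg h1 fun _ _ _ => Nat.cast_nonneg _).trans ?_
      linarith)
    (fun _ r hr => by
      have h1 := h0.gst.row r hr
      have h2 : (10 : ℝ) ^ 55 * ∑ q ∈ fib (NF E Hs) ψ r, ((D q.1).late (E q.1) q.2 : ℝ) ≤ n := by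
        exact_mod_cast h0.late r
      have h3 := mul_le_mul_of_nonneg_right hγ hn0
      rw [rowL, Nat.cast_sum] at h1
      rw [nf_eq, fib_union, sum_union (disjoint_left.2 fun q hq hq' =>
        hG q (mem_fib.1 hq).1 (mem_NF.1 (mem_fib.1 hq').1).1),
        sum_congr rfl fun q hq => if_neg (hG q (mem_fib.1 hq).1),
        sum_congr rfl fun q hq => if_pos (mem_NF.1 (mem_fib.1 hq).1).1]
      linarith)
    (fun _ _ => by
      have h1 : (10 : ℝ) ^ 82 * ∑ p ∈ SX Hs D 2, (dX (E p.1) p.2 : ℝ) ≤ Hs.card * n := by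
        exact_mod_cast late_sum2 h
      have h2 : ∑ p ∈ full n Gs, (dX (E p.1) p.2 : ℝ) ≤ Gs.card * (2 * n) := by
        exact_mod_cast late_sumG h
      have h3 := mul_le_mul_of_nonneg_right hJ hn0
      have h4 := mul_nonneg hk0 hn0
      refine (sum_le_sum_of_subset_of_nonneg (fun p hp => (late_act h h0.off hp).1)
        fun _ _ _ => Nat.cast_nonneg _).trans ?_
      rw [sum_union (s₁ := SX Hs D 2) (disjoint_full_its h.disj _).symm]
      linarith)
    (by simp)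
    (fun p hp => by
      have h1 : ((act (full n Gs ∪ (SX Hs D 0 ∪ SX Hs D 1)) (SX Hs D 2) σ0 Sl).filter
          fun p' => p'.1 = p.1).card ≤ ((D p.1).sX 2).card := by
        refine le_trans (card_le_card fun p' hp' => ?_)
          (card_its_owner_le Hs (fun i => (D i).sX 2) p.1)
        obtain ⟨h2, h3⟩ := mem_filter.1 hp'
        exact mem_filter.2 ⟨(late_act h h0.off h2).2 (h3 ▸ (mem_SX.1 hp).1), h3⟩
      have h2 : (10 : ℝ) ^ 119 * (((D p.1).sX 2).card : ℝ) ≤ n := by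
        exact_mod_cast (h.good _ (mem_SX.1 hp).1).kd.cclo
      have h3 : ((((nf E Hs Gs).filter fun q => adj E p q).card : ℕ) : ℝ) ≤ 10 ^ 37 :=
        le_trans (by exact_mod_cast card_adjX_le _ p) (hclo p hp)
      have h4 := mul_le_mul_of_nonneg_right h3 hn0
      have h5 : (∑ _κ : Unit, if (0 : ℝ) < dX (E p.1) p.2 then 4 * (n : ℝ) / 10 ^ 22 else 0) ≤
          4 * (n : ℝ) / 10 ^ 22 := by
        rw [Fintype.sum_unique]
        split_ifs
        · exact le_rfl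
        · positivity
      have h6 := (Nat.cast_le (α := ℝ)).2 h1
      rw [Nat.cast_one]
      linarith)
    (by simp)
  have e3 : ∀ p ∈ SX Hs D 0 ∪ SX Hs D 1, σ p = σ0 p := fun p hp => e1 p (mem_union_right _ hp)
  rw [union_empty, union_assoc] at hok
  refine ⟨σ, ⟨hok.congr (fun _ _ => rfl) fun q hq => (e2 q hq).symm,
    h0.gst.congr (fun p hp => e1 p (mem_union_left _ hp)) fun _ _ => rfl,
    fun p hp => e3 p hp ▸ h0.off p hp, h0.inH, fun a => ?_, h0.late, h0.y1⟩, fun a ha => ?_⟩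
  · rw [colL_congr fun p hp => e3 p (mem_union_left _ hp)]
    exact h0.m2 a
  · have h1 := hL () a ha
    rw [union_assoc] at h1
    have h2 : (10 : ℝ) ^ 60 * (colL E (full n Gs ∪ (SX Hs D 0 ∪ SX Hs D 1 ∪ SX Hs D 2)) σ a : ℕ) ≤
        Hs.card := by
      rw [colL, Nat.cast_sum]
      linarith
    exact_mod_cast h2

/-- Placing vertices with at most two neighbours with prescribed multiplicities. Proof idea. `pc` with `conf p p' := p.1 = p'.1 ∨ ∃ q ∈ DY, ∃ q' ∈ DY, adj E p q ∧ adj E p' q' ∧ ψ q = ψ q'`,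
`forb p a := (∃ p' ∈ DX, p'.1 = p.1 ∧ σ0 p' = a) ∨ ∃ q ∈ DY, adj E p q ∧ occ E DX DY σ0 ψ a (ψ q)`, `Δ = ν + 2 lr`, `f1 = c1 + 2 o1`, `f2 = o2 (ν + lr)` (`card_occ_col_le'`). -/
theorem placeLate (E : ι → Gr n) (DX DY PX : Finset (It ι n)) (σ0 : It ι n → A) (ψ : It ι n → ι)
    (hok : Ok E DX DY σ0 ψ) (hd : Disjoint DX PX) (Sl : Finset A) (s : A → ℕ)
    (hs : ∑ a ∈ Sl, s a = PX.card) (ν c1 lr o1 o2 sm : ℝ)
    (hν : ∀ i, ((PX.filter fun p => p.1 = i).card : ℝ) ≤ ν)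
    (hc1 : ∀ p ∈ PX, ((DX.filter fun p' => p'.1 = p.1 ∧ σ0 p' ∈ Sl).card : ℝ) ≤ c1)
    (h2 : ∀ p ∈ PX, dX (E p.1) p.2 ≤ 2)
    (hlr : ∀ r, ((PX.filter fun p => ∃ q ∈ DY, adj E p q ∧ ψ q = r).card : ℝ) ≤ lr)
    (ho1 : ∀ p ∈ PX, ∀ q ∈ DY, adj E p q →
      ((Sl.filter fun a => occ E DX DY σ0 ψ a (ψ q)).card : ℝ) ≤ o1)
    (ho1' : 0 ≤ o1) (hpos : ∀ p ∈ DX, 1 ≤ dX (E p.1) p.2)
    (ho2 : ∀ a ∈ Sl, (colL E DX σ0 a : ℝ) ≤ o2) (hsm : ∀ a ∈ Sl, (s a : ℝ) ≤ sm)
    (h : (2 * (ν + 2 * lr) + (c1 + 2 * o1) + 1) * sm + o2 * (ν + lr) < PX.card) :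
    ∃ σ : It ι n → A, (∀ p ∈ DX, σ p = σ0 p) ∧ Ok E (DX ∪ PX) DY σ ψ ∧ (∀ p ∈ PX, σ p ∈ Sl) ∧
      ∀ a ∈ Sl, (fib PX σ a).card = s a := by
  rcases PX.eq_empty_or_nonempty with rfl | ⟨p0, -⟩
  · refine ⟨σ0, fun _ _ => rfl, by rwa [union_empty], by simp, fun a ha => ?_⟩
    rw [card_empty, sum_eq_zero_iff] at hs
    rw [hs a ha]
    rfl
  have : Nonempty A := ⟨σ0 p0⟩
  have hν0 : 0 ≤ ν := (Nat.cast_nonneg _).trans (hν p0.1)
  have hlr0 : 0 ≤ lr := (Nat.cast_nonneg _).trans (hlr p0.1)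
  have hadj : ∀ p ∈ PX, ((DY.filter fun q => adj E p q).card : ℝ) ≤ 2 := fun p hp => by
    exact_mod_cast (card_adjX_le DY p).trans (h2 p hp)
  obtain ⟨c, hc, hcs, hcc⟩ := pc PX Sl s
    (fun p p' => p.1 = p'.1 ∨ ∃ q ∈ DY, ∃ q' ∈ DY, adj E p q ∧ adj E p' q' ∧ ψ q = ψ q')
    (fun p a => (∃ p' ∈ DX, p'.1 = p.1 ∧ σ0 p' = a) ∨
      ∃ q ∈ DY, adj E p q ∧ occ E DX DY σ0 ψ a (ψ q))
    (ν + 2 * lr) (c1 + 2 * o1) (o2 * (ν + lr)) sm
    (fun p p' hp => by
      rcases hp with hp | ⟨q, hq, q', hq', a1, a2, e⟩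
      · exact Or.inl hp.symm
      · exact Or.inr ⟨q', hq', q, hq, a2, a1, e.symm⟩)
    (fun p hp => by
      have k1 := greedy_biU (DY.filter fun q => adj E p q)
        (fun q => PX.filter fun p' => ∃ q' ∈ DY, adj E p' q' ∧ ψ q' = ψ q) fun q _ => hlr (ψ q)
      have k2 := mul_le_mul_of_nonneg_right (hadj p hp) hlr0
      refine le_trans ?_ (add_le_add (hν p.1) (k1.trans k2))
      rw [← Nat.cast_add, Nat.cast_le]
      refine le_trans (card_le_card fun p' hp' => ?_) (card_union_le _ _)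
      obtain ⟨h1, -, h3 | ⟨q, hq, q', hq', a1, a2, e⟩⟩ := mem_filter.1 hp'
      · exact mem_union_left _ (mem_filter.2 ⟨h1, h3.symm⟩)
      · exact mem_union_right _ (mem_biUnion.2 ⟨q, mem_filter.2 ⟨hq, a1⟩,
          mem_filter.2 ⟨h1, q', hq', a2, e.symm⟩⟩))
    (fun p hp => by
      have k1 := greedy_biU (DY.filter fun q => adj E p q)
        (fun q => Sl.filter fun a => occ E DX DY σ0 ψ a (ψ q))
        fun q hq => ho1 p hp q (mem_filter.1 hq).1 (mem_filter.1 hq).2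
      have k2 := mul_le_mul_of_nonneg_right (hadj p hp) ho1'
      have k3 : (((DX.filter fun p' => p'.1 = p.1 ∧ σ0 p' ∈ Sl).image σ0).card : ℝ) ≤ c1 :=
        le_trans (by exact_mod_cast card_image_le) (hc1 p hp)
      refine le_trans ?_ (add_le_add k3 (k1.trans k2))
      rw [← Nat.cast_add, Nat.cast_le]
      refine le_trans (card_le_card fun a ha => ?_) (card_union_le _ _)
      obtain ⟨h1, ⟨p', hp', e, e'⟩ | ⟨q, hq, a1, a2⟩⟩ := mem_filter.1 ha
      · exact mem_union_left _ (mem_image.2 ⟨p', mem_filter.2 ⟨hp', e, e' ▸ h1⟩, e'⟩)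
      · exact mem_union_right _ (mem_biUnion.2 ⟨q, mem_filter.2 ⟨hq, a1⟩, mem_filter.2 ⟨h1, a2⟩⟩))
    (fun a ha => by
      have k1 := greedy_biU (fib DX σ0 a) (fun p' : It ι n => PX.filter fun p => p.1 = p'.1)
        (fun (p' : It ι n) _ => by exact hν p'.1 : ∀ p' ∈ fib DX σ0 a,
          ((PX.filter fun p => p.1 = p'.1).card : ℝ) ≤ ν)
      have k2 := greedy_biU ((DY.image ψ).filter fun r => occ E DX DY σ0 ψ a r)
        (fun r => PX.filter fun p => ∃ q ∈ DY, adj E p q ∧ ψ q = r) fun r _ => hlr r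
      have k3 : ((fib DX σ0 a).card : ℝ) ≤ o2 := by
        refine le_trans (Nat.cast_le.2 ?_) (ho2 a ha)
        rw [card_eq_sum_ones]
        exact sum_le_sum fun p hp => hpos p (mem_fib.1 hp).1
      have k4 : (((DY.image ψ).filter fun r => occ E DX DY σ0 ψ a r).card : ℝ) ≤ o2 :=
        le_trans (Nat.cast_le.2 (card_occ_col_le' _ a)) (ho2 a ha)
      rw [mul_add]
      refine le_trans ?_ (add_le_add
        (k1.trans (mul_le_mul_of_nonneg_right k3 hν0))
        (k2.trans (mul_le_mul_of_nonneg_right k4 hlr0)))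
      rw [← Nat.cast_add, Nat.cast_le]
      refine le_trans (card_le_card fun p hp => ?_) (card_union_le _ _)
      obtain ⟨h1, ⟨p', hp', e, e'⟩ | ⟨q, hq, a1, a2⟩⟩ := mem_filter.1 hp
      · exact mem_union_left _ (mem_biUnion.2 ⟨p', mem_fib.2 ⟨hp', e'⟩,
          mem_filter.2 ⟨h1, e.symm⟩⟩)
      · exact mem_union_right _ (mem_biUnion.2 ⟨ψ q, mem_filter.2 ⟨mem_image_of_mem _ hq, a2⟩,
          mem_filter.2 ⟨h1, q, hq, a1, rfl⟩⟩))
    hs hsm h
  obtain ⟨σ, e1, e2⟩ : ∃ σ : It ι n → A, (∀ p ∈ DX, σ p = σ0 p) ∧ ∀ p ∈ PX, σ p = c p :=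
    ⟨fun p => if p ∈ PX then c p else σ0 p, fun p hp => if_neg (disjoint_left.1 hd hp),
      fun p hp => if_pos hp⟩
  refine ⟨σ, e1, ⟨fun p hp p' hp' e e' => ?_, hok.injY,
    fun p hp q hq p' hp' q' hq' a1 a2 e e' => ?_⟩, fun p hp => e2 p hp ▸ (hc p hp).1,
    fun a ha => by rw [fib_congr e2, hcs a ha]⟩
  · rcases mem_union.1 hp with hp | hp <;> rcases mem_union.1 hp' with hp' | hp'
    · rw [e1 p hp, e1 p' hp'] at e'
      exact hok.injX p hp p' hp' e e'
    · rw [e1 p hp, e2 p' hp'] at e'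
      exact absurd (Or.inl ⟨p, hp, e, e'⟩) (hc p' hp').2
    · rw [e2 p hp, e1 p' hp'] at e'
      exact absurd (Or.inl ⟨p', hp', e.symm, e'.symm⟩) (hc p hp).2
    · rw [e2 p hp, e2 p' hp'] at e'
      by_contra hne
      exact hcc p hp p' hp' hne (Or.inl e) e'
  · rcases mem_union.1 hp with hp | hp <;> rcases mem_union.1 hp' with hp' | hp'
    · rw [e1 p hp, e1 p' hp'] at e
      exact hok.cell p hp q hq p' hp' q' hq' a1 a2 e e'
    · rw [e1 p hp, e2 p' hp'] at e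
      exact absurd (Or.inr ⟨q', hq', a2, p, hp, q, hq, a1, e, e'⟩) (hc p' hp').2
    · rw [e2 p hp, e1 p' hp'] at e
      exact absurd (Or.inr ⟨q, hq, a1, p', hp', q', hq', a2, e.symm, e'.symm⟩) (hc p hp).2
    · rw [e2 p hp, e2 p' hp'] at e
      by_contra hne
      exact hcc p hp p' hp' hne (Or.inr ⟨q, hq, q', hq', a1, a2, e'⟩) e

end Pool.Agent.MP_4c107d_co.H78

end

end
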