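import Pool.Agent.MP_4c107d_co.Mg.H78_B
import Pool.Agent.MP_4c107d_co.Mg.H78_I
import Pool.Agent.MP_4c107d_co.Mg.H78_C

-- part MP_4c107d_co.H78.L
section

section

/-!
The symmetric design for the components (abstract part).
-/

set_option autoImplicit false
set_option linter.unusedSectionVars false

namespace Pool.Agent.MP_4c107d_co.H78

open Finset

/-- permutations of `ℕ` that come from permutations of `Fin n` -/
theorem fibA_perm (n : ℕ) : ∃ P : Finset (Equiv.Perm ℕ), P.card = n.factorial ∧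
    (∀ a ∈ P, ∀ b ∈ P, a * b ∈ P) ∧ (∀ a ∈ P, a⁻¹ ∈ P) ∧ (∀ a ∈ P, ∀ s < n, a s < n) ∧
    ∀ (px : ℕ → ℕ) (D : ℕ → Prop), (∀ s < n, D s → px s < n) →
      (∀ s < n, ∀ s' < n, D s → D s' → px s = px s' → s = s') →
      ∃ g ∈ P, ∀ s < n, D s → g (px s) = s := by
  classical
  let f : Fin n ≃ {a : ℕ // a < n} := Fin.equivSubtype
  let h : Equiv.Perm (Fin n) →* Equiv.Perm ℕ := Equiv.Perm.extendDomainHom f
  have hh : ∀ (a : Equiv.Perm (Fin n)) (s : Fin n), h a s = a s := fun a s => by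
    have := Equiv.Perm.extendDomain_apply_image a f s
    exact this
  refine ⟨univ.image h, ?_, ?_, ?_, ?_, ?_⟩
  · rw [card_image_of_injective _ (Equiv.Perm.extendDomainHom_injective f), card_univ,
      Fintype.card_perm, Fintype.card_fin]
  · intro a ha b hb
    obtain ⟨a, -, rfl⟩ := mem_image.1 ha
    obtain ⟨b, -, rfl⟩ := mem_image.1 hb
    exact mem_image.2 ⟨a * b, mem_univ _, map_mul h a b⟩
  · intro a ha
    obtain ⟨a, -, rfl⟩ := mem_image.1 ha
    exact mem_image.2 ⟨a⁻¹, mem_univ _, map_inv h a⟩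
  · intro a ha s hs
    obtain ⟨a, -, rfl⟩ := mem_image.1 ha
    have := hh a ⟨s, hs⟩
    simp only at this
    rw [this]
    exact (a ⟨s, hs⟩).2
  · intro px D h1 h2
    obtain ⟨g, hg⟩ := Equiv.Perm.exists_extending_pair
      (f := fun s : {s : Fin n // D s} => (⟨px s.1, h1 s.1 s.1.2 s.2⟩ : Fin n))
      (g := fun s : {s : Fin n // D s} => s.1)
      (fun s s' e => Subtype.ext (Fin.ext (h2 _ s.1.2 _ s'.1.2 s.2 s'.2 (congrArg Fin.val e))))
      Subtype.val_injective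
    refine ⟨h g, mem_image.2 ⟨g, mem_univ _, rfl⟩, fun s hs hD => ?_⟩
    have a1 := hh g ⟨px s, h1 s hs hD⟩
    have a2 := hg ⟨⟨s, hs⟩, hD⟩
    simp only at a1 a2
    rw [a1, a2]

theorem fibA_mod (U Z z : ℕ) :
    Z * ((range U).filter fun t => t % Z = z).card ≤ U + Z := by
  have h1 : ((range U).filter fun t => t % Z = z).card ≤ (range (U / Z + 1)).card := by
    refine card_le_card_of_injOn (fun t => t / Z) (fun t ht => ?_) fun t ht t' ht' e => ?_
    · have := mem_range.1 (mem_filter.1 (mem_coe.1 ht)).1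
      exact mem_coe.2 (mem_range.2 (Nat.lt_succ_of_le (Nat.div_le_div_right this.le)))
    · have a := (mem_filter.1 (mem_coe.1 ht)).2
      have b := (mem_filter.1 (mem_coe.1 ht')).2
      have e' : t / Z = t' / Z := e
      rw [← Nat.div_add_mod t Z, ← Nat.div_add_mod t' Z, a, b, e']
  rw [card_range] at h1
  calc Z * _ ≤ Z * (U / Z + 1) := Nat.mul_le_mul_left _ h1
    _ = Z * (U / Z) + Z := by ring
    _ ≤ U + Z := Nat.add_le_add_right (Nat.mul_div_le U Z) _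

theorem fibA_list {A : Type} [DecidableEq A] [Fintype A] (U e Z z l g2 : ℕ) (hZ : 0 < Z)
    (col : ℕ → ℕ → A) (bad : A → Prop) [∀ a, Decidable (bad a)]
    (hcol : ∀ t s t' s', t < U → s < e → t' < U → s' < e → col t s = col t' s' → t = t')
    (hb : (univ.filter fun a => bad a).card ≤ g2) (hU : Z * (l + g2 + 1) + U ≤ Z * U) :
    l ≤ ((range U).filter fun t => (∀ s < e, ¬ bad (col t s)) ∧ t % Z ≠ z).card := by
  classical
  have h1 : ((range U).filter fun t => ¬ ∀ s < e, ¬ bad (col t s)).card ≤ g2 := by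
    have : ∀ t, ∃ s, (¬ ∀ s < e, ¬ bad (col t s)) → s < e ∧ bad (col t s) := fun t => by
      by_cases h : ∀ s < e, ¬ bad (col t s)
      · exact ⟨0, fun h' => absurd h h'⟩
      · push Not at h
        obtain ⟨s, hs⟩ := h
        exact ⟨s, fun _ => hs⟩
    choose s hs using this
    refine le_trans (card_le_card_of_injOn (fun t => col t (s t)) (fun t ht => ?_)
      fun t ht t' ht' e' => ?_) hb
    · exact mem_coe.2 (mem_filter.2 ⟨mem_univ _, (hs t (mem_filter.1 (mem_coe.1 ht)).2).2⟩)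
    · have a := mem_filter.1 (mem_coe.1 ht)
      have b := mem_filter.1 (mem_coe.1 ht')
      exact hcol _ _ _ _ (mem_range.1 a.1) (hs t a.2).1 (mem_range.1 b.1) (hs t' b.2).1 e'
  have h2 := fibA_mod U Z z
  have h3 : range U ⊆ ((range U).filter fun t => (∀ s < e, ¬ bad (col t s)) ∧ t % Z ≠ z) ∪
      (((range U).filter fun t => ¬ ∀ s < e, ¬ bad (col t s)) ∪
        ((range U).filter fun t => t % Z = z)) := by
    intro t ht
    simp only [mem_union, mem_filter]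
    tauto
  have h4 := (card_le_card h3).trans ((card_union_le _ _).trans
    (Nat.add_le_add_left (card_union_le _ _) _))
  rw [card_range] at h4
  generalize ((range U).filter fun t => (∀ s < e, ¬ bad (col t s)) ∧ t % Z ≠ z).card = a at *
  generalize ((range U).filter fun t => ¬ ∀ s < e, ¬ bad (col t s)).card = b at *
  generalize ((range U).filter fun t => t % Z = z).card = c at *
  have h5 : Z * U ≤ Z * (a + (g2 + c)) := Nat.mul_le_mul_left _ (by omega)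
  have h6 : Z * l ≤ Z * a := by
    have e1 : Z * (a + (g2 + c)) = Z * a + Z * g2 + Z * c := by ring
    have e2 : Z * (l + g2 + 1) = Z * l + Z * g2 + Z := by ring
    omega
  exact Nat.le_of_mul_le_mul_left h6 hZ

/-- rows with a given first coordinate of the class and second coordinate in `T` -/
theorem fibA_cnt {ι γ : Type} [DecidableEq γ] (Hs : Finset ι) (cls : ι → γ × ℕ) (a : γ)
    (T : Finset ℕ) (Q : ℕ) (h : ∀ z ∈ T, (fib Hs cls (a, z)).card = Q) :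
    (Hs.filter fun r => (cls r).1 = a ∧ (cls r).2 ∈ T).card = T.card * Q := by
  rw [card_eq_sum_card_fiberwise (f := fun r => (cls r).2) (t := T)
    (fun r hr => mem_coe.2 (mem_filter.1 (mem_coe.1 hr)).2.2), ← smul_eq_mul, ← sum_const]
  refine sum_congr rfl fun z hz => ?_
  rw [← h z hz]
  congr 1
  ext r
  simp only [mem_filter, mem_fib, Prod.ext_iff]
  constructor
  · rintro ⟨⟨a1, a2, -⟩, a3⟩
    exact ⟨a1, a2, a3⟩
  · rintro ⟨a1, a2, a3⟩
    exact ⟨⟨a1, a2, a3 ▸ hz⟩, a3⟩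

theorem fibA_bad {ι A : Type} [DecidableEq ι] (Hs : Finset ι) (e g1 : ℕ) (col : ℕ → A)
    (bad : A → ι → Prop) [∀ a r, Decidable (bad a r)]
    (hb : ∀ a, (Hs.filter fun r => bad a r).card ≤ g1) :
    (Hs.filter fun r => ¬ ∀ s < e, ¬ bad (col s) r).card ≤ e * g1 := by
  have h : (Hs.filter fun r => ¬ ∀ s < e, ¬ bad (col s) r) ⊆
      (range e).biUnion fun s => Hs.filter fun r => bad (col s) r := by
    intro r hr
    obtain ⟨h1, h2⟩ := mem_filter.1 hr
    push Not at h2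
    obtain ⟨s, hs, h3⟩ := h2
    exact mem_biUnion.2 ⟨s, mem_range.2 hs, mem_filter.2 ⟨h1, h3⟩⟩
  refine (card_le_card h).trans (card_biUnion_le.trans ?_)
  have := sum_le_card_nsmul (range e) (fun s => (Hs.filter fun r => bad (col s) r).card) g1
    fun s _ => hb _
  rwa [card_range, smul_eq_mul] at this

theorem fibA_num (S e Z g1 p q k : ℕ) (hZ : 2 ≤ Z) (he : e ≤ S) (hdiv : S.factorial * Z ∣ k)
    (hg1 : S.factorial * Z * (S * g1) ≤ k) (hpq : 2 * S.factorial * (p + q) ≤ k) :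
    ∃ Q, e.factorial * Z * Q = k ∧ e * g1 ≤ Q ∧ p + q ≤ (Z - 1) * Q := by
  obtain ⟨Q0, rfl⟩ := hdiv
  obtain ⟨m, hm⟩ := Nat.factorial_dvd_factorial he
  have hm0 : 1 ≤ m := by
    rcases Nat.eq_zero_or_pos m with rfl | h
    · exact absurd hm (by simpa using S.factorial_ne_zero)
    · exact h
  have hS := S.factorial_pos
  have h1 : S * g1 ≤ Q0 := Nat.le_of_mul_le_mul_left hg1 (by positivity)
  have h2 : 2 * (p + q) ≤ Z * Q0 := by
    refine Nat.le_of_mul_le_mul_left ?_ hS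
    calc S.factorial * (2 * (p + q)) = 2 * S.factorial * (p + q) := by ring
      _ ≤ _ := hpq
      _ = _ := by ring
  have h3 : Q0 ≤ m * Q0 := Nat.le_mul_of_pos_left _ hm0
  refine ⟨m * Q0, by rw [hm]; ring, ((Nat.mul_le_mul_right _ he).trans h1).trans h3, ?_⟩
  obtain ⟨Y, rfl⟩ : ∃ Y, Z = Y + 2 := ⟨Z - 2, by omega⟩
  have h4 : (Y + 1) * Q0 ≤ (Y + 2 - 1) * (m * Q0) := Nat.mul_le_mul (by omega) h3
  have e1 : (Y + 2) * Q0 = Y * Q0 + 2 * Q0 := by ring
  have e2 : (Y + 1) * Q0 = Y * Q0 + Q0 := by ring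
  omega

/-- the items -/
def fibA_it {κ : Type} [DecidableEq κ] (Ks : Finset κ) (e : κ → ℕ) : Finset (κ × ℕ) :=
  Ks.biUnion fun K => (Icc 1 (e K)).image fun j => (K, j)

theorem fibA_mem {κ : Type} [DecidableEq κ] {Ks : Finset κ} {e : κ → ℕ} {y : κ × ℕ} :
    y ∈ fibA_it Ks e ↔ y.1 ∈ Ks ∧ 1 ≤ y.2 ∧ y.2 ≤ e y.1 := by
  simp only [fibA_it, mem_biUnion, mem_image, mem_Icc]
  constructor
  · rintro ⟨K, hK, j, hj, rfl⟩
    exact ⟨hK, hj⟩
  · rintro ⟨h1, h2⟩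
    exact ⟨y.1, h1, y.2, h2, rfl⟩

theorem fibA_own {κ ι : Type} [DecidableEq κ] [DecidableEq ι] (Ks : Finset κ) (e : κ → ℕ)
    (o : κ → ι) (i : ι) :
    (fib (fibA_it Ks e) (fun y => o y.1) i).card ≤ ∑ K ∈ fib Ks o i, e K := by
  have h : fib (fibA_it Ks e) (fun y => o y.1) i ⊆ fibA_it (fib Ks o i) e := by
    intro y hy
    obtain ⟨h1, h2⟩ := mem_fib.1 hy
    obtain ⟨h3, h4⟩ := fibA_mem.1 h1
    exact fibA_mem.2 ⟨mem_fib.2 ⟨h3, h2⟩, h4⟩
  refine (card_le_card h).trans (card_biUnion_le.trans (sum_le_sum fun K _ => ?_))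
  refine card_image_le.trans ?_
  rw [Nat.card_Icc]
  omega

/-- Proof idea. `k = #Hs`, `Γ c = Equiv.Perm (Fin (e c))`, `(e c)! ∣ S!`. By `exists_fib` there is `cls c : ι → Γ c × Fin Z` with all fibres in `Hs` of size `Q c = k / ((e c)! Z)`. `good c t r := ∀ s < e c, ¬ bad (col c t s) r`.
`galvin` with `u K = (tr K, ty K)`, `v K = (o K, ty K)`, lists `{t < U c | good c t (tr K) ∧ t % Z ≠ (cls c (tr K)).2}` gives the fibre `t K`. For shapes that occur, `g c j : Γ c` sends `px c s` to `s` whenever `py c s = j`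
(`Equiv.Perm.exists_extending_pair`). `π K = (cls c (tr K)).1 * g c 0`, `σ K s = col c (t K) (π K s)`. `seqHall` for the items `(K, j)`, `1 ≤ j ≤ e c`, with type `⟨c, t K, j, π K * (g c j)⁻¹⟩` and
`Dm ⟨c, t, j, π'⟩ = {r ∈ Hs | (cls c r).1 = π' ∧ good c t r}`, of size at least `Q Z - S g1 ≥ Q (Z - 1)`; the items of one type inject by `tr` into `Q (Z - 1)` rows; the types with `r ∈ Dm` inject into `A` by `col c t (j - 1)`.
The cell of slot `s` of `K` is `(col c t ((cls c r).1 s), r)`, `r` its row. It may be convenient to turn permutations into functions `ℕ → ℕ` first. -/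
theorem fibA {κ τ ι A : Type} [DecidableEq κ] [DecidableEq τ] [DecidableEq ι] [DecidableEq A]
    [Fintype A] [Nonempty A] (Ks : Finset κ) (o : κ → ι) (ty : κ → τ) (tr : κ → ι) (Hs : Finset ι)
    (e : τ → ℕ) (px py : τ → ℕ → ℕ) (U l : τ → ℕ) (col : τ → ℕ → ℕ → A) (bad : A → ι → Prop)
    [∀ a r, Decidable (bad a r)] (Us : ι → Finset ι) (S Z g1 g2 p q : ℕ) (hZ : 2 ≤ Z)
    (hne : Hs.Nonempty) (he : ∀ c, e c ≤ S) (hdiv : S.factorial * Z ∣ Hs.card)
    (htab : ∀ K ∈ Ks, ∀ s < e (ty K), px (ty K) s < e (ty K) ∧ py (ty K) s ≤ e (ty K) ∧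
      ∀ s' < e (ty K), px (ty K) s = px (ty K) s' → py (ty K) s = py (ty K) s' → s = s')
    (hcol : ∀ c t s c' t' s', t < U c → s < e c → t' < U c' → s' < e c' →
      col c t s = col c' t' s' → c = c' ∧ t = t' ∧ s = s')
    (htr : ∀ K ∈ Ks, tr K ∈ Hs)
    (hrow : ∀ r c, (Ks.filter fun K => tr K = r ∧ ty K = c).card ≤ l c)
    (hown : ∀ i c, (Ks.filter fun K => o K = i ∧ ty K = c).card ≤ l c)
    (hb1 : ∀ a, (Hs.filter fun r => bad a r).card ≤ g1)
    (hb2 : ∀ r ∈ Hs, (univ.filter fun a => bad a r).card ≤ g2)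
    (hU : ∀ c, Z * (l c + g2 + 1) + U c ≤ Z * U c)
    (hg1 : S.factorial * Z * (S * g1) ≤ Hs.card)
    (hp : ∀ K ∈ Ks, (Us (o K)).card + ∑ K' ∈ fib Ks o (o K), e (ty K') ≤ p)
    (hq : ∀ r ∈ Hs, ((Ks.image o).filter fun i => r ∈ Us i).card + Fintype.card A ≤ q)
    (hpq : 2 * S.factorial * (p + q) ≤ Hs.card) :
    ∃ (σ : κ → ℕ → A) (ψ : κ → ℕ → ι), (∀ K ∈ Ks, ψ K 0 = tr K) ∧
      (∀ K ∈ Ks, ∀ s < e (ty K), ∃ t < U (ty K), ∃ s' < e (ty K), σ K s = col (ty K) t s') ∧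
      (∀ K ∈ Ks, ∀ K' ∈ Ks, ∀ s < e (ty K), ∀ s' < e (ty K'), o K = o K' → σ K s = σ K' s' →
        K = K' ∧ s = s') ∧
      (∀ K ∈ Ks, ∀ j, 1 ≤ j → j ≤ e (ty K) → ψ K j ∈ Hs ∧ ψ K j ∉ Us (o K)) ∧
      (∀ K ∈ Ks, ∀ K' ∈ Ks, ∀ j j', 1 ≤ j → j ≤ e (ty K) → 1 ≤ j' → j' ≤ e (ty K') → o K = o K' →
        ψ K j = ψ K' j' → K = K' ∧ j = j') ∧
      (∀ K ∈ Ks, ∀ s < e (ty K), ¬ bad (σ K (px (ty K) s)) (ψ K (py (ty K) s))) ∧
      (∀ K ∈ Ks, ∀ K' ∈ Ks, ∀ s < e (ty K), ∀ s' < e (ty K'),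
        σ K (px (ty K) s) = σ K' (px (ty K') s') → ψ K (py (ty K) s) = ψ K' (py (ty K') s') →
        K = K' ∧ s = s') ∧
      ∀ r c j, 1 ≤ j → j ≤ e c → (Ks.filter fun K => ty K = c ∧ ψ K j = r).card ≤ U c := by
  classical
  obtain ⟨r0, -⟩ := hne
  have : Nonempty ι := ⟨r0⟩
  have hZ0 : 0 < Z := by omega
  choose P P1 P2 P3 P4 P5 using fibA_perm
  choose Q Q1 Q2 Q3 using fun c => fibA_num S (e c) Z g1 p q Hs.card hZ (he c) hdiv hg1 hpq
  have hcls : ∀ c, ∃ cls : ι → Equiv.Perm ℕ × ℕ, (∀ r ∈ Hs, cls r ∈ P (e c) ×ˢ range Z) ∧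
      ∀ a ∈ P (e c) ×ˢ range Z, (fib Hs cls a).card = Q c := fun c =>
    exists_fib Hs (P (e c) ×ˢ range Z) (fun _ => Q c) (by
      rw [sum_const, card_product, P1, card_range, smul_eq_mul, Q1])
  choose cls C1 C2 using hcls
  have C3 : ∀ c, ∀ r ∈ Hs, (cls c r).1 ∈ P (e c) := fun c r hr => (mem_product.1 (C1 c r hr)).1
  have C4 : ∀ c, ∀ r ∈ Hs, (cls c r).2 ∈ range Z := fun c r hr => (mem_product.1 (C1 c r hr)).2
  obtain ⟨t, T1, T2⟩ := galvin Ks (fun K => (tr K, ty K)) (fun K => (o K, ty K))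
    (fun a => l a.2) (fun K => (range (U (ty K))).filter fun t =>
      (∀ s < e (ty K), ¬ bad (col (ty K) t s) (tr K)) ∧ t % Z ≠ (cls (ty K) (tr K)).2)
    (fun K _ => le_trans (le_of_eq (by
      congr 1; ext K'; simp only [mem_fib, mem_filter, Prod.ext_iff])) (hrow (tr K) (ty K)))
    (fun K _ => le_trans (le_of_eq (by
      congr 1; ext K'; simp only [mem_fib, mem_filter, Prod.ext_iff])) (hown (o K) (ty K)))
    (fun K hK => fibA_list (U (ty K)) (e (ty K)) Z _ (l (ty K)) g2 hZ0 (col (ty K))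
      (fun a => bad a (tr K))
      (fun t s t' s' a1 a2 a3 a4 a5 => (hcol _ _ _ _ _ _ a1 a2 a3 a4 a5).2.1)
      (hb2 _ (htr K hK)) (hU _))
  have tU : ∀ K ∈ Ks, t K < U (ty K) := fun K hK => mem_range.1 (mem_filter.1 (T1 K hK)).1
  have tG : ∀ K ∈ Ks, ∀ s < e (ty K), ¬ bad (col (ty K) (t K) s) (tr K) :=
    fun K hK => (mem_filter.1 (T1 K hK)).2.1
  have tZ : ∀ K ∈ Ks, t K % Z ≠ (cls (ty K) (tr K)).2 := fun K hK => (mem_filter.1 (T1 K hK)).2.2
  have tr_inj : ∀ K ∈ Ks, ∀ K' ∈ Ks, tr K = tr K' → ty K = ty K' → t K = t K' → K = K' :=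
    fun K hK K' hK' a b c => by
      by_contra h
      exact T2 K hK K' hK' h (Or.inl (Prod.ext a b)) c
  have o_inj : ∀ K ∈ Ks, ∀ K' ∈ Ks, o K = o K' → ty K = ty K' → t K = t K' → K = K' :=
    fun K hK K' hK' a b c => by
      by_contra h
      exact T2 K hK K' hK' h (Or.inr (Prod.ext a b)) c
  have hg : ∀ c j, ∃ g ∈ P (e c), (∃ K ∈ Ks, ty K = c) →
      ∀ s < e c, py c s = j → g (px c s) = s := fun c j => by
    by_cases h : ∃ K ∈ Ks, ty K = c
    · obtain ⟨K, hK, rfl⟩ := h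
      obtain ⟨g, g1, g2⟩ := P5 (e (ty K)) (px (ty K)) (fun s => py (ty K) s = j)
        (fun s hs _ => (htab K hK s hs).1)
        (fun s hs s' hs' a b c => (htab K hK s hs).2.2 s' hs' c (a.trans b.symm))
      exact ⟨g, g1, fun _ => g2⟩
    · obtain ⟨g, g1, -⟩ := P5 (e c) id (fun _ => False) (fun _ _ h => h.elim)
        (fun _ _ _ _ h => h.elim)
      exact ⟨g, g1, fun h' => absurd h' h⟩
  choose g G1 G2 using hg
  have G3 : ∀ K ∈ Ks, ∀ s < e (ty K), g (ty K) (py (ty K) s) (px (ty K) s) = s :=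
    fun K hK s hs => G2 _ _ ⟨K, hK, rfl⟩ s hs rfl
  obtain ⟨π, hπ⟩ : ∃ π : κ → Equiv.Perm ℕ, ∀ K, π K = (cls (ty K) (tr K)).1 * g (ty K) 0 :=
    ⟨_, fun _ => rfl⟩
  have πP : ∀ K ∈ Ks, π K ∈ P (e (ty K)) := fun K hK => by
    rw [hπ]; exact P2 _ _ (C3 _ _ (htr K hK)) _ (G1 _ _)
  obtain ⟨ity, hity⟩ : ∃ ity : κ × ℕ → τ × ℕ × ℕ × Equiv.Perm ℕ,
      ∀ y, ity y = (ty y.1, t y.1, y.2, π y.1 * (g (ty y.1) y.2)⁻¹) := ⟨_, fun _ => rfl⟩
  obtain ⟨Dm, hDm⟩ : ∃ Dm : τ × ℕ × ℕ × Equiv.Perm ℕ → Finset ι, ∀ a, Dm a =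
      Hs.filter fun r => (cls a.1 r).1 = a.2.2.2 ∧ ∀ s < e a.1, ¬ bad (col a.1 a.2.1 s) r :=
    ⟨_, fun _ => rfl⟩
  have mD : ∀ y r, r ∈ Dm (ity y) ↔ r ∈ Hs ∧
      (cls (ty y.1) r).1 = π y.1 * (g (ty y.1) y.2)⁻¹ ∧
      ∀ s < e (ty y.1), ¬ bad (col (ty y.1) (t y.1) s) r := fun y r => by
    rw [hDm, hity, mem_filter]
  have eI : ∀ y y', ity y = ity y' ↔ ty y.1 = ty y'.1 ∧ t y.1 = t y'.1 ∧ y.2 = y'.2 ∧
      π y.1 * (g (ty y.1) y.2)⁻¹ = π y'.1 * (g (ty y'.1) y'.2)⁻¹ := fun y y' => by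
    rw [hity, hity]; simp only [Prod.ext_iff]
  have hD : ∀ y ∈ fibA_it Ks fun K => e (ty K), (Z - 1) * Q (ty y.1) ≤ (Dm (ity y)).card := by
    intro y hy
    obtain ⟨hK, -⟩ := fibA_mem.1 hy
    have hP : π y.1 * (g (ty y.1) y.2)⁻¹ ∈ P (e (ty y.1)) :=
      P2 _ _ (πP _ hK) _ (P3 _ _ (G1 _ _))
    have a1 := fibA_cnt Hs (cls (ty y.1)) _ (range Z) (Q (ty y.1))
      fun z hz => C2 _ (_, z) (mem_product.2 ⟨hP, hz⟩)
    have a2 := fibA_bad Hs (e (ty y.1)) g1 (col (ty y.1) (t y.1)) bad hb1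
    have a3 : (Hs.filter fun r => (cls (ty y.1) r).1 = π y.1 * (g (ty y.1) y.2)⁻¹ ∧
        (cls (ty y.1) r).2 ∈ range Z) ⊆ Dm (ity y) ∪
        Hs.filter fun r => ¬ ∀ s < e (ty y.1), ¬ bad (col (ty y.1) (t y.1) s) r := by
      intro r hr
      obtain ⟨b1, b2, -⟩ := mem_filter.1 hr
      by_cases h : ∀ s < e (ty y.1), ¬ bad (col (ty y.1) (t y.1) s) r
      · exact mem_union_left _ ((mD y r).2 ⟨b1, b2, h⟩)
      · exact mem_union_right _ (mem_filter.2 ⟨b1, h⟩)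
    have a4 := (card_le_card a3).trans (card_union_le _ _)
    rw [a1, card_range] at a4
    have a5 := Q2 (ty y.1)
    have a6 : (Z - 1) * Q (ty y.1) + Q (ty y.1) = Z * Q (ty y.1) := by
      rw [← Nat.succ_mul]; congr 1; omega
    omega
  obtain ⟨φ, F1, F2⟩ := seqHall (fibA_it Ks fun K => e (ty K)) (fun y => o y.1) ity Dm Us p q
    (fun y hy y' hy' a b => by
      obtain ⟨b1, b2, b3, -⟩ := (eI y y').1 b
      exact Prod.ext (o_inj _ (fibA_mem.1 hy).1 _ (fibA_mem.1 hy').1 a b1 b2) b3)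
    (fun y hy => by
      refine ⟨le_trans ?_ (hD y hy), (Q3 _).trans (hD y hy)⟩
      obtain ⟨hK, -⟩ := fibA_mem.1 hy
      have a1 := fibA_cnt Hs (cls (ty y.1)) _ ((range Z).erase (t y.1 % Z)) (Q (ty y.1))
        fun z hz => C2 _ (_, z) (mem_product.2 ⟨C3 _ _ (htr _ hK), mem_of_mem_erase hz⟩)
      rw [card_erase_of_mem (mem_range.2 (Nat.mod_lt _ hZ0)), card_range] at a1
      rw [← a1]
      refine card_le_card_of_injOn (fun y' => tr y'.1) (fun y' hy' => ?_)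
        fun y' hy' y'' hy'' a => ?_
      · obtain ⟨b1, b2⟩ := mem_fib.1 (mem_coe.1 hy')
        obtain ⟨c1, c2, c3, c4⟩ := (eI _ _).1 b2
        have hK' := (fibA_mem.1 b1).1
        refine mem_coe.2 (mem_filter.2 ⟨htr _ hK', ?_, mem_erase.2 ⟨?_, C4 _ _ (htr _ hK')⟩⟩)
        · rw [c1, c3, mul_left_inj, hπ, hπ, c1, mul_left_inj] at c4
          exact c4
        · have := tZ _ hK'
          rw [c1, c2] at this
          exact this.symm
      · obtain ⟨b1, b2⟩ := mem_fib.1 (mem_coe.1 hy')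
        obtain ⟨b3, b4⟩ := mem_fib.1 (mem_coe.1 hy'')
        obtain ⟨c1, c2, c3, -⟩ := (eI _ _).1 (b2.trans b4.symm)
        exact Prod.ext (tr_inj _ (fibA_mem.1 b1).1 _ (fibA_mem.1 b3).1 a c1 c2) c3)
    (fun y hy => le_trans (Nat.add_le_add_left (fibA_own Ks _ o _) _) (hp _ (fibA_mem.1 hy).1))
    (fun y hy r hr => by
      have hr' := ((mD y r).1 hr).1
      refine le_trans (Nat.add_le_add (card_le_card (filter_subset_filter _ ?_)) ?_) (hq r hr')
      · intro i hi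
        obtain ⟨y', b1, rfl⟩ := mem_image.1 hi
        exact mem_image.2 ⟨y'.1, (fibA_mem.1 b1).1, rfl⟩
      · rw [← card_univ]
        refine card_le_card_of_injOn (fun a => col a.1 a.2.1 (a.2.2.1 - 1))
          (fun _ _ => mem_coe.2 (mem_univ _)) fun a ha a' ha' h => ?_
        obtain ⟨b1, b2⟩ := mem_filter.1 (mem_coe.1 ha)
        obtain ⟨b3, b4⟩ := mem_filter.1 (mem_coe.1 ha')
        obtain ⟨y1, c1, rfl⟩ := mem_image.1 b1
        obtain ⟨y2, c2, rfl⟩ := mem_image.1 b3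
        obtain ⟨d1, d2, d3⟩ := fibA_mem.1 c1
        obtain ⟨d4, d5, d6⟩ := fibA_mem.1 c2
        simp only [hity] at h
        obtain ⟨e1, e2, e3⟩ := hcol _ _ _ _ _ _ (tU _ d1) (by omega) (tU _ d4) (by omega) h
        refine (eI _ _).2 ⟨e1, e2, by omega, ?_⟩
        rw [← ((mD _ _).1 b2).2.1, ← ((mD _ _).1 b4).2.1, e1])
  obtain ⟨ψ, hψ0, hψ1⟩ : ∃ ψ : κ → ℕ → ι, (∀ K, ψ K 0 = tr K) ∧
      ∀ K j, 1 ≤ j → ψ K j = φ (K, j) :=
    ⟨fun K j => if j = 0 then tr K else φ (K, j), fun K => if_pos rfl,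
      fun K j hj => if_neg (by omega)⟩
  have mI : ∀ K ∈ Ks, ∀ j, 1 ≤ j → j ≤ e (ty K) → (K, j) ∈ fibA_it Ks fun K => e (ty K) :=
    fun K hK j a b => fibA_mem.2 ⟨hK, a, b⟩
  have F3 : ∀ K ∈ Ks, ∀ j, 1 ≤ j → j ≤ e (ty K) → ψ K j ∈ Hs ∧
      (cls (ty K) (ψ K j)).1 = π K * (g (ty K) j)⁻¹ ∧
      ∀ s < e (ty K), ¬ bad (col (ty K) (t K) s) (ψ K j) := fun K hK j a b => by
    rw [hψ1 K j a]
    exact (mD (K, j) _).1 (F1 _ (mI K hK j a b)).1
  have F4 : ∀ K ∈ Ks, ∀ K' ∈ Ks, ∀ j, 1 ≤ j → j ≤ e (ty K) → ty K = ty K' → t K = t K' →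
      ψ K j = ψ K' j → K = K' := fun K hK K' hK' j a b c d h => by
    by_contra hne
    have b' : j ≤ e (ty K') := c ▸ b
    refine F2 _ (mI K hK j a b) _ (mI K' hK' j a b') (fun h' => hne (congrArg Prod.fst h'))
      (Or.inr ((eI _ _).2 ⟨c, d, rfl, ?_⟩)) (by rw [← hψ1 K j a, ← hψ1 K' j a, h])
    show π K * (g (ty K) j)⁻¹ = π K' * (g (ty K') j)⁻¹
    rw [← (F3 K hK j a b).2.1, ← (F3 K' hK' j a b').2.1, h, c]
  have cell : ∀ K ∈ Ks, ∀ s < e (ty K), ψ K (py (ty K) s) ∈ Hs ∧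
      π K (px (ty K) s) = (cls (ty K) (ψ K (py (ty K) s))).1 s ∧
      ∀ s' < e (ty K), ¬ bad (col (ty K) (t K) s') (ψ K (py (ty K) s)) := fun K hK s hs => by
    have a := G3 K hK s hs
    rcases Nat.eq_zero_or_pos (py (ty K) s) with h | h
    · rw [h] at a
      rw [h, hψ0, hπ, Equiv.Perm.mul_apply, a]
      exact ⟨htr K hK, rfl, tG K hK⟩
    · obtain ⟨b1, b2, b3⟩ := F3 K hK _ h (htab K hK s hs).2.1
      refine ⟨b1, ?_, b3⟩
      rw [b2, Equiv.Perm.mul_apply]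
      congr 1
      exact (Equiv.Perm.inv_eq_iff_eq.2 a.symm).symm
  refine ⟨fun K s => col (ty K) (t K) (π K s), ψ, fun K _ => hψ0 K,
    fun K hK s hs => ⟨t K, tU K hK, π K s, P4 _ _ (πP K hK) s hs, rfl⟩, ?_, ?_, ?_, ?_, ?_, ?_⟩
  · intro K hK K' hK' s hs s' hs' a b
    obtain ⟨e1, e2, e3⟩ := hcol _ _ _ _ _ _ (tU K hK) (P4 _ _ (πP K hK) s hs) (tU K' hK')
      (P4 _ _ (πP K' hK') s' hs') b
    obtain rfl := o_inj K hK K' hK' a e1 e2
    exact ⟨rfl, (π K).injective e3⟩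
  · intro K hK j a b
    refine ⟨(F3 K hK j a b).1, ?_⟩
    rw [hψ1 K j a]
    exact (F1 _ (mI K hK j a b)).2
  · intro K hK K' hK' j j' a b a' b' c d
    have : (K, j) = (K', j') := by
      by_contra h
      exact F2 _ (mI K hK j a b) _ (mI K' hK' j' a' b') h (Or.inl c)
        (by rw [← hψ1 K j a, ← hψ1 K' j' a', d])
    exact Prod.ext_iff.1 this
  · intro K hK s hs
    exact (cell K hK s hs).2.2 _ (P4 _ _ (πP K hK) _ (htab K hK s hs).1)
  · intro K hK K' hK' s hs s' hs' a b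
    obtain ⟨e1, e2, e3⟩ := hcol _ _ _ _ _ _ (tU K hK) (P4 _ _ (πP K hK) _ (htab K hK s hs).1)
      (tU K' hK') (P4 _ _ (πP K' hK') _ (htab K' hK' s' hs').1) a
    rw [(cell K hK s hs).2.1, (cell K' hK' s' hs').2.1, b, e1] at e3
    obtain rfl : s = s' := Equiv.injective _ e3
    refine ⟨?_, rfl⟩
    rw [← e1] at b
    rcases Nat.eq_zero_or_pos (py (ty K) s) with h | h
    · rw [h, hψ0, hψ0] at b
      exact tr_inj K hK K' hK' b e1 e2
    · exact F4 K hK K' hK' _ h (htab K hK s hs).2.1 e1 e2 b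
  · intro r c j a b
    rw [← card_range (U c)]
    refine card_le_card_of_injOn t (fun K hK => ?_) fun K hK K' hK' h => ?_
    · obtain ⟨b1, b2, -⟩ := mem_filter.1 (mem_coe.1 hK)
      exact mem_coe.2 (mem_range.2 (b2 ▸ tU K b1))
    · obtain ⟨b1, b2, b3⟩ := mem_filter.1 (mem_coe.1 hK)
      obtain ⟨b4, b5, b6⟩ := mem_filter.1 (mem_coe.1 hK')
      exact F4 K b1 K' b4 j a (b2 ▸ b) (b2.trans b5.symm) h (b3.trans b6.symm)

end Pool.Agent.MP_4c107d_co.H78

end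

section

/-!
The inner vertices.
-/

set_option autoImplicit false
set_option linter.unusedSectionVars false

namespace Pool.Agent.MP_4c107d_co.H78

open Finset

variable {ι A τ : Type} [DecidableEq ι] [DecidableEq A] [Fintype A] [DecidableEq τ] [Fintype τ]
  {n S d : ℕ} {E : ι → Gr n} {B : Tab τ} {P : Par} {Hs Gs : Finset ι} {D : ι → DD n τ}

theorem fibB_k (h : One A E B S d P Hs Gs D) : 0 < Hs.card := by
  have := h.k_ge
  have := h.n_ge
  omega

theorem fibB_av {k x : ℕ} (hk : 0 < k) {y : ℕ} (h : x ≤ k * y) : (x : ℝ) / k ≤ y := by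
  rw [div_le_iff₀' (by exact_mod_cast hk)]
  exact_mod_cast h

theorem fibB_sum {Y : ι → Finset (Fin n)} {f : It ι n → ℕ} {y : ℕ}
    (h : ∀ i ∈ Hs, ∑ x ∈ Y i, f (i, x) ≤ y) : ∑ q ∈ its Hs Y, f q ≤ Hs.card * y := by
  rw [sum_its]
  simpa using sum_le_card_nsmul Hs _ y h

theorem fibB_M (h : One A E B S d P Hs Gs D) :
    10 ^ 61 * (P.e1 * (Fintype.card τ * ((S + 1) * S))) ≤ 1 ∧ P.e1 * Fintype.card τ ≤ 1 := by
  have h1 := h.par.he1
  have h2 := h.par.e1pos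
  have hS : (0 : ℝ) ≤ S := Nat.cast_nonneg _
  have hM : (0 : ℝ) ≤ Fintype.card τ := Nat.cast_nonneg _
  generalize (S : ℝ) = s at *
  generalize (Fintype.card τ : ℝ) = M at *
  have a1 : 0 ≤ P.e1 * M := by positivity
  have a2 : 0 ≤ P.e1 * M * s := by positivity
  have a3 : 0 ≤ P.e1 * M * s ^ 2 := by positivity
  have a4 : 0 ≤ P.e1 * (s + 1) ^ 2 := by positivity
  constructor <;> nlinarith

/-- the bound for the late neighbours of the vertices of one row -/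
theorem fibB_late (h : One A E B S d P Hs Gs D) {U : τ → ℕ}
    (hU : ∀ c, (U c : ℝ) ≤ (1 + 3 / 10 ^ 17) * avN Hs D c + 3 * P.e1 * n) {ψ : It ι n → ι}
    (hv : Vec E Hs D (SY Hs D 0) ψ (1 + 1 / 10 ^ 17) (P.e1 * n / 2)) (r : ι)
    (h3 : ∀ c, ∑ q ∈ fib (SY Hs D 3) ψ r, (D q.1).cnt q.2 c ≤ U c)
    (h1 : ∀ c j, ((fib (SY Hs D 1) ψ r).filter fun q =>
      (D q.1).ty ((D q.1).hY q.2) = c ∧ (D q.1).yl q.2 = j).card ≤ U c) :
    10 ^ 55 * ∑ q ∈ fib (NF E Hs) ψ r, (D q.1).late (E q.1) q.2 ≤ n := by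
  have hk := fibB_k h
  have hn := h.n_ge
  have hd : d ≤ 2 := by rcases h.hd with e | e <;> omega
  have kd : ∀ i ∈ Hs, (D i).toKd.Good (E i) S d := fun i hi => (h.good i hi).kd
  have a0 := hv r (Sum.inr 0)
  simp only [DD.vec_late] at a0
  have a1 : ((∑ q ∈ SY Hs D 0, (D q.1).late (E q.1) q.2 : ℕ) : ℝ) / Hs.card ≤ (3 * NU n : ℕ) :=
    fibB_av hk (fibB_sum fun i hi => (sum_le_sum_of_subset (subset_univ _)).trans
      (((D i).sum_late (E i)).trans_le ((kd i hi).sum_lateX hd (by omega))))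
  have a3 : ∑ q ∈ fib (SY Hs D 3) ψ r, (D q.1).late (E q.1) q.2 ≤ ∑ c, U c * B.lt c 0 := by
    refine le_trans ?_ (sum_le_sum fun c _ => Nat.mul_le_mul_right _ (h3 c))
    simp only [sum_mul]
    rw [sum_comm]
    refine sum_le_sum fun q hq => ?_
    obtain ⟨hi, hy⟩ := mem_SY.1 (mem_fib.1 hq).1
    have b1 := (h.good _ hi).lab.lat q.2 (Or.inr hy)
    rw [(kd _ hi).hY3 _ hy, DD.yl, if_neg (by omega)] at b1
    simp only [DD.cnt_top (kd _ hi) hy, ite_mul, one_mul, zero_mul, sum_ite_eq, mem_univ, if_true]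
    exact b1
  have a4 : ∑ q ∈ fib (SY Hs D 1) ψ r, (D q.1).late (E q.1) q.2 ≤
      ∑ c, U c * ∑ j ∈ range (B.e c), B.lt c (j + 1) := by
    simp only [mul_sum]
    refine le_trans ?_ (sum_le_sum fun c _ => sum_le_sum fun j _ =>
      Nat.mul_le_mul_right _ (h1 c (j + 1)))
    simp only [card_filter, sum_mul]
    rw [sum_congr rfl fun c _ => sum_comm, sum_comm]
    refine sum_le_sum fun q hq => ?_
    obtain ⟨hi, hy⟩ := mem_SY.1 (mem_fib.1 hq).1
    have b1 := (h.good _ hi).lab.lat q.2 (Or.inl hy)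
    have b2 : (D q.1).yl q.2 = (D q.1).lY q.2 + 1 := if_pos hy
    refine le_trans ?_ (single_le_sum (fun _ _ => Nat.zero_le _)
      (mem_univ ((D q.1).ty ((D q.1).hY q.2))))
    refine le_trans ?_ (single_le_sum (fun _ _ => Nat.zero_le _)
      (mem_range.2 ((h.good _ hi).lab.lYe q.2 hy)))
    rw [if_pos ⟨rfl, b2⟩, one_mul, ← b2]
    exact b1
  have a5 : ∑ c, U c * B.lt c 0 + ∑ c, U c * ∑ j ∈ range (B.e c), B.lt c (j + 1) =
      ∑ c, U c * B.Lt c := by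
    rw [← sum_add_distrib]
    exact sum_congr rfl fun c _ => by rw [Tab.Lt, sum_range_succ']; ring
  have a6 : ∑ q ∈ fib (NF E Hs) ψ r, (D q.1).late (E q.1) q.2 ≤
      ∑ q ∈ fib (SY Hs D 0) ψ r, (D q.1).late (E q.1) q.2 + ∑ c, U c * B.Lt c := by
    rw [NF_eq kd, fib_union, fib_union,
      sum_union (disjoint_union_left.2
        ⟨(disjoint_SY Hs D (by omega)).mono (fib_subset _ _ _) (fib_subset _ _ _),
          (disjoint_SY Hs D (by omega)).mono (fib_subset _ _ _) (fib_subset _ _ _)⟩),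
      sum_union ((disjoint_SY Hs D (by omega)).mono (fib_subset _ _ _) (fib_subset _ _ _))]
    omega
  have a7 : ∑ c, avN Hs D c * B.Lt c ≤ (2 * NU n : ℕ) := by
    have b1 : ∑ i ∈ Hs, ∑ c, (D i).N c * B.Lt c ≤ Hs.card * (2 * NU n) := by
      simpa using sum_le_card_nsmul Hs _ _ fun i hi =>
        ((D i).sum_N B.Lt).trans_le (h.good i hi).lab.sLt
    refine le_of_eq_of_le ?_ (fibB_av hk b1)
    rw [sum_comm]
    push_cast
    rw [sum_div]
    exact sum_congr rfl fun c _ => by rw [avN, ← sum_mul]; ring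
  have a8 : ∑ c, (B.Lt c : ℝ) ≤ Fintype.card τ * ((S + 1) * S) := by
    have b1 : ∑ c, B.Lt c ≤ Fintype.card τ * ((S + 1) * S) := by
      simpa using sum_le_card_nsmul univ B.Lt ((S + 1) * S) fun c _ =>
        (sum_le_card_nsmul _ _ S fun j _ => h.uni.hlt c j).trans (by
          rw [card_range, smul_eq_mul]
          exact Nat.mul_le_mul_right _ (Nat.succ_le_succ (h.uni.he c)))
    exact_mod_cast b1
  have a9 : ((∑ c, U c * B.Lt c : ℕ) : ℝ) ≤ (1 + 3 / 10 ^ 17) * ∑ c, avN Hs D c * B.Lt c +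
      3 * P.e1 * n * ∑ c, (B.Lt c : ℝ) := by
    push_cast
    rw [mul_sum, mul_sum, ← sum_add_distrib]
    exact sum_le_sum fun c _ =>
      (mul_le_mul_of_nonneg_right (hU c) (Nat.cast_nonneg _)).trans_eq (by ring)
  have n0 : (0 : ℝ) ≤ n := Nat.cast_nonneg _
  have e0 := h.par.e1pos
  have b1 : P.e1 * n * ∑ c, (B.Lt c : ℝ) ≤ n * (P.e1 * (Fintype.card τ * ((S + 1) * S))) :=
    (mul_le_mul_of_nonneg_left a8 (by positivity)).trans_eq (by ring)
  have b2 := mul_le_mul_of_nonneg_left (fibB_M h).1 n0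
  have b3 : P.e1 * n ≤ 1 / 10 ^ 61 * n := mul_le_mul_of_nonneg_right
    (h.par.e1_le.trans (one_div_le_one_div_of_le (by positivity)
      (pow_le_pow_right₀ (by norm_num) (by norm_num)))) n0
  have b4 : (10 : ℝ) ^ 56 * NU n ≤ n := by exact_mod_cast Nat.mul_div_le n (10 ^ 56)
  have a6' : ((∑ q ∈ fib (NF E Hs) ψ r, (D q.1).late (E q.1) q.2 : ℕ) : ℝ) ≤
      (∑ q ∈ fib (SY Hs D 0) ψ r, (D q.1).late (E q.1) q.2 : ℕ) + (∑ c, U c * B.Lt c : ℕ) := by
    exact_mod_cast a6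
  rw [Nat.cast_mul, Nat.cast_ofNat] at a1 a7
  have fin : (10 : ℝ) ^ 55 * (∑ q ∈ fib (NF E Hs) ψ r, (D q.1).late (E q.1) q.2 : ℕ) ≤ n := by
    linarith
  exact_mod_cast fin

/-- the components of all hosts -/
def fibBK (Hs : Finset ι) (D : ι → DD n τ) : Finset (ι × (Fin n ⊕ Fin n)) :=
  (Hs ×ˢ univ).filter fun K => K.2 ∈ (D K.1).KS

theorem fibB_mem {K : ι × (Fin n ⊕ Fin n)} : K ∈ fibBK Hs D ↔ K.1 ∈ Hs ∧ K.2 ∈ (D K.1).KS := by
  simp [fibBK]

theorem fibB_avN (h : One A E B S d P Hs Gs D) (c : τ) : avN Hs D c =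
    ((∑ q ∈ SY Hs D 0, (D q.1).cnt q.2 c : ℕ) : ℝ) / Hs.card +
      ((∑ q ∈ SY Hs D 3, (D q.1).cnt q.2 c : ℕ) : ℝ) / Hs.card := by
  rw [← add_div, ← Nat.cast_add, SY, SY, sum_its, sum_its, ← sum_add_distrib, avN,
    sum_congr rfl fun i hi => DD.sum_cnt (h.good i hi).kd c, Nat.cast_sum]

theorem fibB_row (h : One A E B S d P Hs Gs D) {AZ : Finset A} {σ0 : It ι n → A} {ψ0 : It ι n → ι}
    (h0 : St4 E P Hs Gs D AZ σ0 ψ0) (r : ι) (c : τ) :
    (((fibBK Hs D).filter fun K =>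
      ψ0 (K.1, (D K.1).tp K.2) = r ∧ (D K.1).ty K.2 = c).card : ℝ) ≤
      (1 + 1 / 10 ^ 17) * avN Hs D c + P.e1 * n := by
  have a1 : ((fibBK Hs D).filter fun K => ψ0 (K.1, (D K.1).tp K.2) = r ∧ (D K.1).ty K.2 = c).card ≤
      ∑ q ∈ fib (SY Hs D 0) ψ0 r, (D q.1).cnt q.2 c +
        ∑ q ∈ fib (SY Hs D 3) ψ0 r, (D q.1).cnt q.2 c := by
    rw [← sum_union ((disjoint_SY Hs D (by omega)).mono (fib_subset _ _ _) (fib_subset _ _ _)),
      ← fib_union, card_eq_sum_card_fiberwise (f := fun K => (K.1, (D K.1).tp K.2))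
        (t := fib (SY Hs D 0 ∪ SY Hs D 3) ψ0 r)]
    · refine sum_le_sum fun q _ => card_le_card_of_injOn Prod.snd (fun K hK => ?_)
        fun K hK K' hK' e => ?_
      · obtain ⟨b1, rfl⟩ := mem_filter.1 hK
        obtain ⟨b1, b2⟩ := mem_filter.1 b1
        exact mem_coe.2 (mem_filter.2 ⟨(fibB_mem.1 b1).2, rfl, b2.2⟩)
      · exact Prod.ext ((congrArg Prod.fst (mem_filter.1 hK).2).trans
          (congrArg Prod.fst (mem_filter.1 hK').2).symm) e
    · intro K hK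
      obtain ⟨b1, b2⟩ := mem_filter.1 hK
      obtain ⟨b1, b3⟩ := fibB_mem.1 b1
      refine mem_coe.2 (mem_fib.2 ⟨mem_union.2 ?_, b2.1⟩)
      exact ((h.good _ b1).kd.tp_kind b3).imp (fun e => mem_SY.2 ⟨b1, e⟩) fun e => mem_SY.2 ⟨b1, e⟩
  have a2 := h0.vec r (Sum.inl c)
  simp only [DD.vec_inl] at a2
  have a3 := h0.vec3 r c
  have a4 := (Nat.cast_le (α := ℝ)).2 a1
  rw [Nat.cast_add] at a4
  rw [fibB_avN h]
  linarith

theorem fibB_own (h : One A E B S d P Hs Gs D) (i : ι) (c : τ) :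
    (((fibBK Hs D).filter fun K => K.1 = i ∧ (D K.1).ty K.2 = c).card : ℝ) ≤
      (1 + 1 / 10 ^ 17) * avN Hs D c + P.e1 * n := by
  have k0 : (0 : ℝ) < Hs.card := by exact_mod_cast fibB_k h
  have n0 : (0 : ℝ) ≤ n := Nat.cast_nonneg _
  have e0 := h.par.e1pos
  have a0 : 0 ≤ avN Hs D c := by unfold avN; positivity
  by_cases hi : i ∈ Hs
  · have a1 : ((fibBK Hs D).filter fun K => K.1 = i ∧ (D K.1).ty K.2 = c).card ≤ (D i).N c := by
      refine card_le_card_of_injOn Prod.snd (fun K hK => ?_) fun K hK K' hK' e => ?_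
      · obtain ⟨b1, rfl, b2⟩ := mem_filter.1 hK
        exact mem_coe.2 (mem_filter.2 ⟨(fibB_mem.1 b1).2, b2⟩)
      · exact Prod.ext ((mem_filter.1 hK).2.1.trans (mem_filter.1 hK').2.1.symm) e
    have a2 : ((D i).N c : ℝ) - P.ηr * n ≤ avN Hs D c := by
      rw [avN, le_div_iff₀' k0]
      simpa using card_nsmul_le_sum Hs (fun i' => ((D i').N c : ℝ)) ((D i).N c - P.ηr * n)
        fun i' hi' => by linarith [h.closeN i hi i' hi' c]
    have a3 := mul_le_mul_of_nonneg_right h.par.ηr_le n0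
    have a4 := (Nat.cast_le (α := ℝ)).2 a1
    have a5 := mul_nonneg e0.le n0
    linarith
  · have a1 : ((fibBK Hs D).filter fun K => K.1 = i ∧ (D K.1).ty K.2 = c) = ∅ :=
      filter_eq_empty_iff.2 (by rintro K hK ⟨rfl, -⟩; exact hi (fibB_mem.1 hK).1)
    rw [a1]
    simp only [card_empty, Nat.cast_zero]
    positivity

theorem fibB_cards (h : One A E B S d P Hs Gs D) {AZ : Finset A} {σ0 : It ι n → A}
    {ψ0 : It ι n → ι} (h0 : St4 E P Hs Gs D AZ σ0 ψ0) (r : ι) :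
    (fib (SY Hs D 0) ψ0 r).card ≤ 3 * n ∧ (fib (SY Hs D 3) ψ0 r).card ≤ 3 * n := by
  have hk := fibB_k h
  have hn := h.n_ge
  have n0 : (0 : ℝ) ≤ n := Nat.cast_nonneg _
  constructor
  · have a0 := h0.vec r (Sum.inr 2)
    simp only [DD.vec_dY] at a0
    have a1 : ((∑ q ∈ SY Hs D 0, dY (E q.1) q.2 : ℕ) : ℝ) / Hs.card ≤ (2 * n : ℕ) :=
      fibB_av hk (fibB_sum fun i hi => (sum_le_sum_of_subset (subset_univ _)).trans
        (Nat.le_of_succ_le ((h.trH i hi).sum_dY (by omega)).le))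
    have a2 : (fib (SY Hs D 0) ψ0 r).card ≤ ∑ q ∈ fib (SY Hs D 0) ψ0 r, dY (E q.1) q.2 := by
      simpa using card_nsmul_le_sum _ _ 1 fun q hq =>
        (h.trH _ (mem_SY.1 (mem_fib.1 hq).1).1).dY_pos q.2
    have a3 := (Nat.cast_le (α := ℝ)).2 a2
    have a4 : P.e1 * n ≤ 1 * n := mul_le_mul_of_nonneg_right
      (h.par.e1_le.trans (div_le_self zero_le_one (one_le_pow₀ (by norm_num)))) n0
    rw [Nat.cast_mul, Nat.cast_ofNat] at a1
    have fin : ((fib (SY Hs D 0) ψ0 r).card : ℝ) ≤ 3 * n := by linarith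
    exact_mod_cast fin
  · have a0 : ∀ T ⊆ SY Hs D 3, ∑ c, ∑ q ∈ T, (D q.1).cnt q.2 c = T.card := fun T hT => by
      rw [sum_comm, card_eq_sum_ones]
      refine sum_congr rfl fun q hq => ?_
      obtain ⟨hi, hy⟩ := mem_SY.1 (hT hq)
      simp only [DD.cnt_top (h.good _ hi).kd hy, sum_ite_eq, mem_univ, if_true]
    have a1 := sum_le_sum (s := univ) fun c _ => h0.vec3 r c
    rw [← Nat.cast_sum, a0 _ (fib_subset _ _ _), sum_add_distrib, ← mul_sum, ← sum_div,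
      ← Nat.cast_sum, a0 _ Subset.rfl, sum_const, card_univ, nsmul_eq_mul] at a1
    have a2 : ((SY Hs D 3).card : ℝ) / Hs.card ≤ n :=
      fibB_av hk ((card_le_card (its_subset _ _)).trans_eq (card_full Hs))
    have a3 := mul_le_mul_of_nonneg_right (fibB_M h).2 n0
    have fin : ((fib (SY Hs D 3) ψ0 r).card : ℝ) ≤ 3 * n := by linarith
    exact_mod_cast fin

theorem fibB_app (h : One A E B S d P Hs Gs D) {Sl AZ : Finset A} {U : τ → ℕ}
    {col : τ → ℕ → ℕ → A} (hL : Lay B P.e1 Hs D Sl AZ U col) {σ0 : It ι n → A} {ψ0 : It ι n → ι}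
    (h0 : St4 E P Hs Gs D AZ σ0 ψ0) :
    ∃ (σ : ι × (Fin n ⊕ Fin n) → ℕ → A) (ψ : ι × (Fin n ⊕ Fin n) → ℕ → ι),
      (∀ K ∈ fibBK Hs D, ψ K 0 = ψ0 (K.1, (D K.1).tp K.2)) ∧
      (∀ K ∈ fibBK Hs D, ∀ s < B.e ((D K.1).ty K.2), σ K s ∉ Sl ∧ σ K s ∉ AZ) ∧
      (∀ K ∈ fibBK Hs D, ∀ K' ∈ fibBK Hs D, ∀ s < B.e ((D K.1).ty K.2),
        ∀ s' < B.e ((D K'.1).ty K'.2), K.1 = K'.1 → σ K s = σ K' s' → K = K' ∧ s = s') ∧
      (∀ K ∈ fibBK Hs D, ∀ j, 1 ≤ j → j ≤ B.e ((D K.1).ty K.2) → ψ K j ∈ Hs ∧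
        ∀ y, (D K.1).kY y = 0 ∨ (D K.1).kY y = 3 → ψ0 (K.1, y) ≠ ψ K j) ∧
      (∀ K ∈ fibBK Hs D, ∀ K' ∈ fibBK Hs D, ∀ j j', 1 ≤ j → j ≤ B.e ((D K.1).ty K.2) → 1 ≤ j' →
        j' ≤ B.e ((D K'.1).ty K'.2) → K.1 = K'.1 → ψ K j = ψ K' j' → K = K' ∧ j = j') ∧
      (∀ K ∈ fibBK Hs D, ∀ s < B.e ((D K.1).ty K.2), ¬ occ E (full n Gs) (full n Gs) σ0 ψ0
        (σ K (B.px ((D K.1).ty K.2) s)) (ψ K (B.py ((D K.1).ty K.2) s))) ∧
      (∀ K ∈ fibBK Hs D, ∀ K' ∈ fibBK Hs D, ∀ s < B.e ((D K.1).ty K.2),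
        ∀ s' < B.e ((D K'.1).ty K'.2),
        σ K (B.px ((D K.1).ty K.2) s) = σ K' (B.px ((D K'.1).ty K'.2) s') →
        ψ K (B.py ((D K.1).ty K.2) s) = ψ K' (B.py ((D K'.1).ty K'.2) s') → K = K' ∧ s = s') ∧
      ∀ r c j, 1 ≤ j → j ≤ B.e c →
        ((fibBK Hs D).filter fun K => (D K.1).ty K.2 = c ∧ ψ K j = r).card ≤ U c := by
  have hn := h.n_ge
  have hA := h.hA
  have n0 : (0 : ℝ) ≤ n := Nat.cast_nonneg _
  have k0 : (0 : ℝ) ≤ Hs.card := Nat.cast_nonneg _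
  have e0 := h.par.e1pos
  have g0 := h.par.γpos
  have : Nonempty A := Fintype.card_pos_iff.1 (by omega)
  obtain ⟨σ, ψ, c1, c2, c3, c4, c5, c6, c7, c8⟩ := fibA (fibBK Hs D) Prod.fst
    (fun K => (D K.1).ty K.2) (fun K => ψ0 (K.1, (D K.1).tp K.2)) Hs B.e B.px B.py U
    (fun c => ⌊(1 + 1 / 10 ^ 17) * avN Hs D c + P.e1 * n⌋₊) col
    (fun a r => occ E (full n Gs) (full n Gs) σ0 ψ0 a r)
    (fun i => (univ.filter fun y => (D i).kY y = 0 ∨ (D i).kY y = 3).image fun y => ψ0 (i, y))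
    S (10 ^ 17) ⌊P.γ * Hs.card⌋₊ ⌊P.γ * n⌋₊ (3 * n) (8 * n) (by norm_num)
    (card_pos.1 (fibB_k h)) h.uni.he h.hdiv
    (fun K hK => (h.good _ (fibB_mem.1 hK).1).lab.valid _ (fibB_mem.1 hK).2) hL.inj
    (fun K hK => h0.inH _ (mem_union.2 (((h.good _ (fibB_mem.1 hK).1).kd.tp_kind
      (fibB_mem.1 hK).2).imp (fun e => mem_SY.2 ⟨(fibB_mem.1 hK).1, e⟩)
        fun e => mem_SY.2 ⟨(fibB_mem.1 hK).1, e⟩)))
    (fun r c => Nat.le_floor (fibB_row h h0 r c)) (fun i c => Nat.le_floor (fibB_own h i c))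
    (fun a => Nat.le_floor ((Nat.cast_le.2 (card_occ_col_le' Hs a)).trans (h0.gst.col a)))
    (fun r hr => Nat.le_floor ((Nat.cast_le.2 (card_occ_row_le' univ r)).trans (h0.gst.row r hr)))
    (fun c => by
      have a0 : 0 ≤ avN Hs D c := by unfold avN; positivity
      have a1 := Nat.floor_le (a := (1 + 1 / 10 ^ 17) * avN Hs D c + P.e1 * n) (by positivity)
      have a2 := Nat.floor_le (a := P.γ * n) (by positivity)
      have a3 := hL.cU1 c
      have a4 := mul_le_mul_of_nonneg_right h.par.hγ1 n0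
      have a5 := h.e1n
      generalize ⌊(1 + 1 / 10 ^ 17) * avN Hs D c + P.e1 * n⌋₊ = l at a1 ⊢
      generalize ⌊P.γ * n⌋₊ = g at a2 ⊢
      have fin : (10 : ℝ) ^ 17 * (l + g + 1) + U c ≤ 10 ^ 17 * U c := by linarith
      exact_mod_cast fin)
    (by
      have a1 := Nat.floor_le (a := P.γ * Hs.card) (by positivity)
      generalize ⌊P.γ * Hs.card⌋₊ = g at a1 ⊢
      have a2 := mul_le_mul_of_nonneg_right h.par.hγ3 k0
      have a3 := mul_le_mul_of_nonneg_left a1 (show (0 : ℝ) ≤ S.factorial * S by positivity)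
      have a4 : (0 : ℝ) ≤ S.factorial * (P.γ * Hs.card) := by positivity
      have a5 : (0 : ℝ) ≤ S.factorial * S * (P.γ * Hs.card) := by positivity
      have fin : (S.factorial : ℝ) * 10 ^ 17 * (S * g) ≤ Hs.card := by linarith
      exact_mod_cast fin)
    (fun K hK => by
      have hi := (fibB_mem.1 hK).1
      have a1 := (h.good _ hi).lab.sE
      have a2 : ((univ.filter fun y => (D K.1).kY y = 0 ∨ (D K.1).kY y = 3).image
          fun y => ψ0 (K.1, y)).card ≤ n :=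
        card_image_le.trans ((card_le_univ _).trans_eq (Fintype.card_fin n))
      have a3 : ∑ K' ∈ fib (fibBK Hs D) Prod.fst K.1, B.e ((D K'.1).ty K'.2) =
          ∑ K' ∈ (D K.1).KS, B.e ((D K.1).ty K') := by
        refine sum_nbij' Prod.snd (fun K' => (K.1, K')) (fun K' hK' => ?_) (fun K' hK' => ?_)
          (fun K' hK' => ?_) (fun _ _ => rfl) fun K' hK' => ?_
        · exact (mem_fib.1 hK').2 ▸ (fibB_mem.1 (mem_fib.1 hK').1).2
        · exact mem_fib.2 ⟨fibB_mem.2 ⟨hi, hK'⟩, rfl⟩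
        · exact Prod.ext (mem_fib.1 hK').2.symm rfl
        · rw [(mem_fib.1 hK').2]
      omega)
    (fun r _ => by
      obtain ⟨a1, a2⟩ := fibB_cards h h0 r
      have a3 : (((fibBK Hs D).image Prod.fst).filter fun i => r ∈ (univ.filter fun y =>
          (D i).kY y = 0 ∨ (D i).kY y = 3).image fun y => ψ0 (i, y)).card ≤
          (fib (SY Hs D 0) ψ0 r ∪ fib (SY Hs D 3) ψ0 r).card := by
        refine card_le_card_of_surjOn Prod.fst fun i hi => ?_
        obtain ⟨b1, b2⟩ := mem_filter.1 hi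
        obtain ⟨K, hK, rfl⟩ := mem_image.1 b1
        obtain ⟨y, hy, e⟩ := mem_image.1 b2
        refine ⟨(K.1, y), mem_coe.2 (mem_union.2 ?_), rfl⟩
        exact (mem_filter.1 hy).2.imp
          (fun b => mem_fib.2 ⟨mem_SY.2 ⟨(fibB_mem.1 hK).1, b⟩, e⟩)
          fun b => mem_fib.2 ⟨mem_SY.2 ⟨(fibB_mem.1 hK).1, b⟩, e⟩
      have a4 := card_union_le (fib (SY Hs D 0) ψ0 r) (fib (SY Hs D 3) ψ0 r)
      omega)
    (by
      have a1 := h.fact_le
      rw [mul_assoc] at a1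
      rw [← add_mul, mul_assoc, mul_left_comm S.factorial]
      omega)
  refine ⟨σ, ψ, c1, fun K hK s hs => ?_, c3, fun K hK j h1 h2 => ⟨(c4 K hK j h1 h2).1,
    fun y hy e => (c4 K hK j h1 h2).2 ?_⟩, c5, c6, c7, c8⟩
  · obtain ⟨t, ht, s', hs', e⟩ := c2 K hK s hs
    rw [e]
    exact hL.out _ t s' ht hs'
  · exact mem_image.2 ⟨y, mem_filter.2 ⟨mem_univ _, hy⟩, e⟩

theorem fibB (h : One A E B S d P Hs Gs D) {Sl AZ : Finset A} {U : τ → ℕ} {col : τ → ℕ → ℕ → A}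
    (hL : Lay B P.e1 Hs D Sl AZ U col) {σ0 : It ι n → A} {ψ0 : It ι n → ι}
    (h0 : St4 E P Hs Gs D AZ σ0 ψ0) :
    ∃ (σ : It ι n → A) (ψ : It ι n → ι), St5 E P Hs Gs D Sl (SX Hs D 0 ∪ SX Hs D 1) σ ψ := by
  obtain ⟨σ', ψ', c1, c2, c3, c4, c5, c6, c7, c8⟩ := fibB_app h hL h0
  have kd : ∀ i ∈ Hs, (D i).toKd.Good (E i) S d := fun i hi => (h.good i hi).kd
  have lab : ∀ i ∈ Hs, (D i).Lab (E i) B := fun i hi => (h.good i hi).lab
  have dj : ∀ p : It ι n, p ∈ full n Gs → p.1 ∉ Hs := fun p hp hi =>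
    disjoint_left.1 h.disj hi (mem_full.1 hp)
  obtain ⟨σ, s0, s1⟩ : ∃ σ : It ι n → A, (∀ p ∈ full n Gs ∪ SX Hs D 0, σ p = σ0 p) ∧
      ∀ p ∈ SX Hs D 1, σ p = σ' (p.1, (D p.1).hX p.2) ((D p.1).lX p.2) := by
    refine ⟨fun p => if p ∈ SX Hs D 1 then σ' (p.1, (D p.1).hX p.2) ((D p.1).lX p.2) else σ0 p,
      fun p hp => if_neg fun h1 => ?_, fun p hp => if_pos hp⟩
    rcases mem_union.1 hp with hp | hp
    · exact dj p hp (mem_SX.1 h1).1
    · have := (mem_SX.1 hp).2.symm.trans (mem_SX.1 h1).2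
      omega
  obtain ⟨ψ, t0, t1⟩ : ∃ ψ : It ι n → ι,
      (∀ q ∈ full n Gs ∪ (SY Hs D 0 ∪ SY Hs D 3), ψ q = ψ0 q) ∧
      ∀ q ∈ SY Hs D 1, ψ q = ψ' (q.1, (D q.1).hY q.2) ((D q.1).lY q.2 + 1) := by
    refine ⟨fun q => if q ∈ SY Hs D 1 then ψ' (q.1, (D q.1).hY q.2) ((D q.1).lY q.2 + 1) else ψ0 q,
      fun p hp => if_neg fun h1 => ?_, fun p hp => if_pos hp⟩
    rcases mem_union.1 hp with hp | hp
    · exact dj p hp (mem_SY.1 h1).1
    · rcases mem_union.1 hp with hp | hp <;>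
      · have := (mem_SY.1 hp).2.symm.trans (mem_SY.1 h1).2
        omega
  have eX : full n Gs ∪ (SX Hs D 0 ∪ SX Hs D 1) = full n Gs ∪ SX Hs D 0 ∪ SX Hs D 1 :=
    (union_assoc _ _ _).symm
  have eY : nf E Hs Gs = full n Gs ∪ (SY Hs D 0 ∪ SY Hs D 3) ∪ SY Hs D 1 := by
    rw [nf_eq, NF_eq kd, union_assoc (full n Gs)]
  have mX : ∀ p ∈ SX Hs D 1, (p.1, (D p.1).hX p.2) ∈ fibBK Hs D ∧
      (D p.1).lX p.2 < B.e ((D p.1).ty ((D p.1).hX p.2)) := fun p hp =>
    ⟨fibB_mem.2 ⟨(mem_SX.1 hp).1, (kd _ (mem_SX.1 hp).1).hXK _ (mem_SX.1 hp).2⟩,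
      (lab _ (mem_SX.1 hp).1).lXe _ (mem_SX.1 hp).2⟩
  have mY : ∀ q ∈ SY Hs D 1, (q.1, (D q.1).hY q.2) ∈ fibBK Hs D ∧
      (D q.1).lY q.2 + 1 ≤ B.e ((D q.1).ty ((D q.1).hY q.2)) := fun q hq =>
    ⟨fibB_mem.2 ⟨(mem_SY.1 hq).1, (kd _ (mem_SY.1 hq).1).hYK _ (mem_SY.1 hq).2⟩,
      (lab _ (mem_SY.1 hq).1).lYe _ (mem_SY.1 hq).2⟩
  have oX : ∀ p ∈ SX Hs D 1, σ p ∉ Sl ∧ σ p ∉ AZ := fun p hp => by
    rw [s1 p hp]
    exact c2 _ (mX p hp).1 _ (mX p hp).2
  have iX : ∀ p ∈ full n Gs ∪ SX Hs D 0, p.1 ∈ Hs → σ p ∈ AZ := fun p hp hi => by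
    rw [s0 p hp]
    exact h0.inA p ((mem_union.1 hp).resolve_left fun b => dj p b hi)
  have iY : ∀ q ∈ full n Gs ∪ (SY Hs D 0 ∪ SY Hs D 3), q.1 ∈ Hs →
      (D q.1).kY q.2 = 0 ∨ (D q.1).kY q.2 = 3 := fun q hq hi =>
    (mem_union.1 ((mem_union.1 hq).resolve_left fun b => dj q b hi)).imp
      (fun b => (mem_SY.1 b).2) fun b => (mem_SY.1 b).2
  have xY : ∀ q ∈ full n Gs ∪ (SY Hs D 0 ∪ SY Hs D 3), ∀ q' ∈ SY Hs D 1, q.1 = q'.1 →
      ψ q ≠ ψ q' := by
    rintro ⟨i, y⟩ hq ⟨i', y'⟩ hq' e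
    dsimp only at e
    subst e
    rw [t0 _ hq, t1 _ hq']
    exact (c4 _ (mY _ hq').1 _ (Nat.le_add_left _ _) (mY _ hq').2).2 y (iY _ hq (mem_SY.1 hq').1)
  have eqX : ∀ p ∈ SX Hs D 1, ∀ p' ∈ SX Hs D 1, (p.1, (D p.1).hX p.2) = (p'.1, (D p'.1).hX p'.2) →
      (D p.1).lX p.2 = (D p'.1).lX p'.2 → p = p' := by
    rintro ⟨i, x⟩ hp ⟨i', x'⟩ hp' e e'
    obtain ⟨rfl, e⟩ := Prod.ext_iff.1 e
    rw [(lab _ (mem_SX.1 hp).1).injX x x' (mem_SX.1 hp).2 (mem_SX.1 hp').2 e e']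
  have eqY : ∀ p ∈ SY Hs D 1, ∀ p' ∈ SY Hs D 1, (p.1, (D p.1).hY p.2) = (p'.1, (D p'.1).hY p'.2) →
      (D p.1).lY p.2 = (D p'.1).lY p'.2 → p = p' := by
    rintro ⟨i, x⟩ hp ⟨i', x'⟩ hp' e e'
    obtain ⟨rfl, e⟩ := Prod.ext_iff.1 e
    rw [(lab _ (mem_SY.1 hp).1).injY x x' (mem_SY.1 hp).2 (mem_SY.1 hp').2 e e']
  have eO : ∀ p ∈ full n Gs ∪ SX Hs D 0, ∀ q ∈ nf E Hs Gs, adj E p q →
      q ∈ full n Gs ∪ (SY Hs D 0 ∪ SY Hs D 3) := by
    rintro ⟨i, x⟩ hp ⟨i', y⟩ hq ⟨e, a⟩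
    dsimp only at e a
    subst e
    refine (mem_union.1 (eY ▸ hq)).resolve_right fun b => ?_
    obtain ⟨hi, hy⟩ := mem_SY.1 b
    exact (kd i hi).yin x y a hy (mem_SX.1 ((mem_union.1 hp).resolve_left fun b => dj _ b hi)).2
  have eN : ∀ p ∈ SX Hs D 1, ∀ q ∈ nf E Hs Gs, adj E p q →
      ∃ s < B.e ((D p.1).ty ((D p.1).hX p.2)),
        B.px ((D p.1).ty ((D p.1).hX p.2)) s = (D p.1).lX p.2 ∧
        ψ q = ψ' (p.1, (D p.1).hX p.2) (B.py ((D p.1).ty ((D p.1).hX p.2)) s) := by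
    rintro ⟨i, x⟩ hp ⟨i', y⟩ hq ⟨e, a⟩
    dsimp only at e a
    subst e
    obtain ⟨hi, hx⟩ := mem_SX.1 hp
    have b0 : (D i).kY y ≠ 2 := fun b =>
      (mem_NF.1 ((mem_union.1 hq).resolve_left fun b => dj _ b hi)).2 (((kd i hi).fil y).1 b)
    obtain ⟨b1, s, b2, b3, b4⟩ := (lab i hi).edge x y a hx b0
    refine ⟨s, b2, b3, ?_⟩
    dsimp only
    rw [b4, DD.yl]
    rcases b1 with ⟨b1, b5⟩ | ⟨b1, b5⟩
    · rw [if_pos b1, t1 (i, y) (mem_SY.2 ⟨hi, b1⟩)]
      dsimp only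
      rw [b5]
    · rw [if_neg b1, c1 _ (mX _ hp).1,
        t0 (i, y) ((mem_union.1 (eY ▸ hq)).resolve_right fun b => b1 (mem_SY.1 b).2), b5]
  have cx : ∀ p ∈ full n Gs ∪ SX Hs D 0, ∀ q ∈ nf E Hs Gs, ∀ p' ∈ SX Hs D 1, ∀ q' ∈ nf E Hs Gs,
      adj E p q → adj E p' q' → σ p = σ p' → ψ q ≠ ψ q' := by
    intro p hp q hq p' hp' q' hq' a a' e e'
    by_cases hi : p.1 ∈ Hs
    · exact (oX p' hp').2 (e ▸ iX p hp hi)
    · have b1 : p ∈ full n Gs := (mem_union.1 hp).resolve_right fun b => hi (mem_SX.1 b).1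
      have b2 : q ∈ full n Gs := mem_full.2 (a.1 ▸ mem_full.1 b1)
      obtain ⟨s, b3, b4, b5⟩ := eN p' hp' q' hq' a'
      refine c6 _ (mX p' hp').1 s b3 ⟨p, b1, q, b2, a, ?_, ?_⟩
      · rw [← s0 p hp, e, s1 p' hp', b4]
      · rw [← t0 q (mem_union_left _ b2), e', b5]
  have f0 : ∀ r, fib (SY Hs D 0) ψ r = fib (SY Hs D 0) ψ0 r :=
    fib_congr fun q hq => t0 q (mem_union_right _ (mem_union_left _ hq))
  have f3 : ∀ r, fib (SY Hs D 3) ψ r = fib (SY Hs D 3) ψ0 r :=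
    fib_congr fun q hq => t0 q (mem_union_right _ (mem_union_right _ hq))
  refine ⟨σ, ψ, ⟨?_, ?_, ?_⟩, h0.gst.congr (fun p hp => s0 p (mem_union_left _ hp))
    fun q hq => t0 q (mem_union_left _ hq), fun p hp => ?_, fun q hq => ?_, fun a => ?_,
    fun r => fibB_late h hL.cU2 (fun r z => ?_) r (fun c => ?_) fun c j => ?_, ?_⟩
  · rw [eX]
    intro p hp p' hp' e e'
    rcases mem_union.1 hp with b | b <;> rcases mem_union.1 hp' with b' | b'
    · exact h0.ok.injX p b p' b' e (by rw [← s0 p b, e', s0 p' b'])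
    · exact absurd (e' ▸ iX p b (e ▸ (mem_SX.1 b').1)) (oX p' b').2
    · exact absurd (e' ▸ iX p' b' (e ▸ (mem_SX.1 b).1)) (oX p b).2
    · rw [s1 p b, s1 p' b'] at e'
      obtain ⟨b1, b2⟩ := c3 _ (mX p b).1 _ (mX p' b').1 _ (mX p b).2 _ (mX p' b').2 e e'
      exact eqX p b p' b' b1 b2
  · rw [eY]
    intro p hp p' hp' e e'
    rcases mem_union.1 hp with b | b <;> rcases mem_union.1 hp' with b' | b'
    · exact h0.ok.injY p b p' b' e (by rw [← t0 p b, e', t0 p' b'])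
    · exact absurd e' (xY p b p' b' e)
    · exact absurd e'.symm (xY p' b' p b e.symm)
    · rw [t1 p b, t1 p' b'] at e'
      obtain ⟨b1, b2⟩ := c5 _ (mY p b).1 _ (mY p' b').1 _ _ (Nat.le_add_left _ _) (mY p b).2
        (Nat.le_add_left _ _) (mY p' b').2 e e'
      exact eqY p b p' b' b1 (Nat.succ_injective b2)
  · rw [eX]
    intro p hp q hq p' hp' q' hq' a a' e e'
    rcases mem_union.1 hp with b | b <;> rcases mem_union.1 hp' with b' | b'
    · refine h0.ok.cell p b q (eO p b q hq a) p' b' q' (eO p' b' q' hq' a') a a' ?_ ?_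
      · rw [← s0 p b, e, s0 p' b']
      · rw [← t0 q (eO p b q hq a), e', t0 q' (eO p' b' q' hq' a')]
    · exact absurd e' (cx p b q hq p' b' q' hq' a a' e)
    · exact absurd e'.symm (cx p' b' q' hq' p b q hq a' a e.symm)
    · obtain ⟨s, b1, b2, b3⟩ := eN p b q hq a
      obtain ⟨s', b1', b2', b3'⟩ := eN p' b' q' hq' a'
      rw [s1 p b, s1 p' b', ← b2, ← b2'] at e
      rw [b3, b3'] at e'
      obtain ⟨b4, rfl⟩ := c7 _ (mX p b).1 _ (mX p' b').1 s b1 s' b1' e e'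
      refine eqX p b p' b' b4 ?_
      rw [← b2, ← b2', show (D p.1).ty ((D p.1).hX p.2) = (D p'.1).ty ((D p'.1).hX p'.2) from
        congrArg (fun K : ι × (Fin n ⊕ Fin n) => (D K.1).ty K.2) b4]
  · rcases mem_union.1 hp with b | b
    · exact disjoint_right.1 hL.dSl (iX p (mem_union_right _ b) (mem_SX.1 b).1)
    · exact (oX p b).1
  · rw [NF_eq kd] at hq
    rcases mem_union.1 hq with b | b
    · rw [t0 q (mem_union_right _ b)]
      exact h0.inH q b
    · rw [t1 q b]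
      exact (c4 _ (mY q b).1 _ (Nat.le_add_left _ _) (mY q b).2).1
  · rw [colL_congr fun p hp => s0 p (mem_union_right _ hp)]
    exact h0.m2 a
  · rw [f0]
    exact h0.vec r z
  · have a1 := h0.vec3 r c
    have a2 := hL.cU1 c
    have a3 := fibB_avN h c
    have a4 : 0 ≤ ((∑ q ∈ SY Hs D 0, (D q.1).cnt q.2 c : ℕ) : ℝ) / Hs.card :=
      div_nonneg (Nat.cast_nonneg _) (Nat.cast_nonneg _)
    have a5 : 0 ≤ ((∑ q ∈ SY Hs D 3, (D q.1).cnt q.2 c : ℕ) : ℝ) / Hs.card :=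
      div_nonneg (Nat.cast_nonneg _) (Nat.cast_nonneg _)
    have a6 := h.e1n
    rw [f3, ← Nat.cast_le (α := ℝ)]
    linarith
  · rcases eq_empty_or_nonempty ((fib (SY Hs D 1) ψ r).filter fun q =>
      (D q.1).ty ((D q.1).hY q.2) = c ∧ (D q.1).yl q.2 = j) with b | ⟨q0, b⟩
    · rw [b]
      exact Nat.zero_le _
    have yl : ∀ q ∈ SY Hs D 1, (D q.1).yl q.2 = (D q.1).lY q.2 + 1 := fun q hq =>
      if_pos (mem_SY.1 hq).2
    obtain ⟨b1, b2, b3⟩ := mem_filter.1 b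
    have b4 := (mY q0 (mem_fib.1 b1).1).2
    rw [yl q0 (mem_fib.1 b1).1] at b3
    rw [b2, b3] at b4
    refine le_trans (card_le_card_of_injOn (fun q => (q.1, (D q.1).hY q.2)) (fun q hq => ?_)
      fun q hq q' hq' e => ?_) (c8 r c j (by omega) b4)
    · obtain ⟨d1, d2, d3⟩ := mem_filter.1 hq
      obtain ⟨d1, d4⟩ := mem_fib.1 d1
      refine mem_coe.2 (mem_filter.2 ⟨(mY q d1).1, d2, ?_⟩)
      rw [← d3, yl q d1, ← t1 q d1, d4]
    · obtain ⟨d1, -, d3⟩ := mem_filter.1 hq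
      obtain ⟨d1', -, d3'⟩ := mem_filter.1 hq'
      rw [yl q (mem_fib.1 d1).1] at d3
      rw [yl q' (mem_fib.1 d1').1] at d3'
      exact eqY q (mem_fib.1 d1).1 q' (mem_fib.1 d1').1 e (by omega)
  · intro i hi i' hi' e
    rw [t0 _ (mem_union_right _ (mem_union_left _ (mem_SY.2 ⟨hi, (kd i hi).y1k⟩))),
      t0 _ (mem_union_right _ (mem_union_left _ (mem_SY.2 ⟨hi', (kd i' hi').y1k⟩)))] at e
    exact h0.y1 i hi i' hi' e

end Pool.Agent.MP_4c107d_co.H78

end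

section

/-!
Placing the fillers.
-/

set_option autoImplicit false
set_option linter.unusedSectionVars false

namespace Pool.Agent.MP_4c107d_co.H78

open Finset

/-- Proof idea. For a column `a` let `c b = #(Fr b a)`. If `c (!b) < c b` choose `c b - c (!b)` items of side `b` in column `a` as excess. Colour all excess items by `greedyCol` with lists `Fr (sd y) (ca y) \ Us (o y)`, conflicts
same column or same owner. The other items: `galvin` with `u y = (sd y, ca y)`, `v = o`, `l (b, a) = min (c false) (c true)`, lists `Fr (!b) a` minus the rows used by excess items of column `a`. -/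
theorem fillA {α A ι : Type} [DecidableEq α] [DecidableEq A] [DecidableEq ι] [Nonempty ι]
    (Fi : Finset α) (sd : α → Bool) (ca : α → A) (o : α → ι) (Rw : Bool → Finset ι)
    (Fr : Bool → A → Finset ι) (Us : ι → Finset ι) (n : ℕ) (hR : Disjoint (Rw false) (Rw true))
    (hF : ∀ b a, Fr b a ⊆ Rw b)
    (hc : ∀ b a, (Fr b a).card = (Fi.filter fun y => sd y = b ∧ ca y = a).card)
    (hn : ∀ b a, n ≤ (Fr b a).card) (ho : ∀ y ∈ Fi, ∀ y' ∈ Fi, o y = o y' → sd y = sd y')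
    (hU : ∀ y ∈ Fi, Us (o y) ⊆ Rw (sd y))
    (hcnt : ∀ y ∈ Fi, (Us (o y)).card + (fib Fi o (o y)).card ≤ n) :
    ∃ ψ : α → ι, (∀ y ∈ Fi, (ψ y ∈ Fr false (ca y) ∨ ψ y ∈ Fr true (ca y)) ∧ ψ y ∉ Us (o y)) ∧
      ∀ y ∈ Fi, ∀ y' ∈ Fi, y ≠ y' → (ca y = ca y' ∨ o y = o y') → ψ y ≠ ψ y' := by
  have hdis : ∀ b b' r, b ≠ b' → r ∈ Rw b → r ∉ Rw b' := by
    intro b b' r hb h1 h2
    cases b <;> cases b'
    · exact hb rfl
    · exact disjoint_left.1 hR h1 h2
    · exact disjoint_left.1 hR h2 h1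
    · exact hb rfl
  have hnot : ∀ b : Bool, (!b) ≠ b := fun b => by cases b <;> simp
  have hor : ∀ b a r, r ∈ Fr b a → r ∈ Fr false a ∨ r ∈ Fr true a := by
    intro b a r h
    cases b
    · exact Or.inl h
    · exact Or.inr h
  have hex : ∀ b a, ∃ X ⊆ Fi.filter fun y => sd y = b ∧ ca y = a,
      X.card = (Fr b a).card - (Fr (!b) a).card := fun b a =>
    exists_subset_card_eq (by rw [← hc]; exact Nat.sub_le _ _)
  choose X hX hXc using hex
  have hXm : ∀ b a y, y ∈ X b a → y ∈ Fi ∧ sd y = b ∧ ca y = a := fun b a y h =>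
    mem_filter.1 (hX b a h)
  obtain ⟨Xs, hXs⟩ : ∃ Xs : Finset α, ∀ y, y ∈ Xs ↔ y ∈ X (sd y) (ca y) :=
    ⟨Fi.filter fun y => y ∈ X (sd y) (ca y), fun y => by
      rw [mem_filter]
      exact ⟨fun h => h.2, fun h => ⟨(hXm _ _ _ h).1, h⟩⟩⟩
  obtain ⟨c1, hc1, hc1'⟩ := greedyCol Xs (fun y => Fr (sd y) (ca y) \ Us (o y))
    (fun y y' => (sd y = sd y' ∧ ca y = ca y') ∨ o y = o y')
    (fun x y h => h.imp (fun h => ⟨h.1.symm, h.2.symm⟩) Eq.symm) (by
      intro y hy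
      have hyX := (hXs y).1 hy
      have hyF := (hXm _ _ _ hyX).1
      have h1 : (Xs.filter fun y' => y' ≠ y ∧ ((sd y = sd y' ∧ ca y = ca y') ∨ o y = o y')) ⊆
          (X (sd y) (ca y)).erase y ∪ fib Fi o (o y) := by
        intro y' hy'
        obtain ⟨h1, h2, h3⟩ := mem_filter.1 hy'
        have h4 := (hXs y').1 h1
        rcases h3 with h3 | h3
        · refine mem_union_left _ (mem_erase.2 ⟨h2, ?_⟩)
          rw [h3.1, h3.2]
          exact h4
        · exact mem_union_right _ (mem_fib.2 ⟨(hXm _ _ _ h4).1, h3.symm⟩)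
      have h2 := (card_le_card h1).trans (card_union_le _ _)
      rw [card_erase_of_mem hyX] at h2
      have h3 := le_card_sdiff (Us (o y)) (Fr (sd y) (ca y))
      have h4 := hXc (sd y) (ca y)
      have h5 := card_pos.2 ⟨y, hyX⟩
      have h6 := hcnt y hyF
      have h7 := hn (!sd y) (ca y)
      omega)
  obtain ⟨c2, hc2, hc2'⟩ := galvin (Fi \ Xs) (fun y => (sd y, ca y)) o
    (fun z => min (Fr z.1 z.2).card (Fr (!z.1) z.2).card)
    (fun y => Fr (!sd y) (ca y) \ (X (!sd y) (ca y)).image c1) (by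
      intro y hy
      have h1 : fib (Fi \ Xs) (fun y => (sd y, ca y)) (sd y, ca y) ⊆
          (Fi.filter fun y' => sd y' = sd y ∧ ca y' = ca y) \ X (sd y) (ca y) := by
        intro y' hy'
        obtain ⟨h1, h2⟩ := mem_fib.1 hy'
        obtain ⟨h3, h4⟩ := Prod.mk.inj h2
        refine mem_sdiff.2 ⟨mem_filter.2 ⟨(mem_sdiff.1 h1).1, h3, h4⟩, fun h5 => ?_⟩
        refine (mem_sdiff.1 h1).2 ((hXs y').2 ?_)
        rw [h3, h4]
        exact h5
      have h2 := card_le_card h1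
      rw [card_sdiff_of_subset (hX _ _), ← hc, hXc] at h2
      show _ ≤ min (Fr (sd y) (ca y)).card (Fr (!sd y) (ca y)).card
      omega) (by
      intro y hy
      have h1 := galvin_mono (sdiff_subset : Fi \ Xs ⊆ Fi) o (o y)
      have h2 := hcnt y (mem_sdiff.1 hy).1
      have h3 := hn (sd y) (ca y)
      have h4 := hn (!sd y) (ca y)
      show _ ≤ min (Fr (sd y) (ca y)).card (Fr (!sd y) (ca y)).card
      omega) (by
      intro y hy
      have h1 := le_card_sdiff ((X (!sd y) (ca y)).image c1) (Fr (!sd y) (ca y))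
      have h2 : ((X (!sd y) (ca y)).image c1).card ≤ (X (!sd y) (ca y)).card := card_image_le
      have h3 := hXc (!sd y) (ca y)
      rw [Bool.not_not] at h3
      show min (Fr (sd y) (ca y)).card (Fr (!sd y) (ca y)).card ≤ _
      omega)
  have hmix : ∀ y ∈ Xs, ∀ y' ∈ Fi \ Xs, (ca y = ca y' ∨ o y = o y') → c1 y ≠ c2 y' := by
    intro y hy y' hy' hyy e
    have hyX := (hXs y).1 hy
    have h1 := mem_sdiff.1 (hc1 y hy)
    have h2 := mem_sdiff.1 (hc2 y' hy')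
    by_cases hs : sd y = sd y'
    · refine hdis _ _ _ (hnot (sd y')) (hF _ _ h2.1) ?_
      rw [← e, ← hs]
      exact hF _ _ h1.1
    · rcases hyy with hyy | hyy
      · have hs' : sd y = !sd y' := Bool.eq_not.2 hs
        refine h2.2 (mem_image.2 ⟨y, ?_, e⟩)
        rw [← hs', ← hyy]
        exact hyX
      · exact hs (ho y (hXm _ _ _ hyX).1 y' (mem_sdiff.1 hy').1 hyy)
  refine ⟨fun y => if y ∈ Xs then c1 y else c2 y, fun y hy => ?_, fun y hy y' hy' hne hyy => ?_⟩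
  · by_cases h : y ∈ Xs
    · simp only [if_pos h]
      have h1 := mem_sdiff.1 (hc1 y h)
      exact ⟨hor _ _ _ h1.1, h1.2⟩
    · simp only [if_neg h]
      have h2 := mem_sdiff.1 (hc2 y (mem_sdiff.2 ⟨hy, h⟩))
      exact ⟨hor _ _ _ h2.1, fun h3 => hdis _ _ _ (hnot (sd y)) (hF _ _ h2.1) (hU y hy h3)⟩
  · by_cases h : y ∈ Xs <;> by_cases h' : y' ∈ Xs
    · simp only [if_pos h, if_pos h']
      by_cases hs : sd y = sd y'
      · exact hc1' y h y' h' hne (hyy.imp (fun h => ⟨hs, h⟩) id)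
      · intro e
        refine hdis _ _ _ hs (hF _ _ (mem_sdiff.1 (hc1 y h)).1) ?_
        rw [e]
        exact hF _ _ (mem_sdiff.1 (hc1 y' h')).1
    · simp only [if_pos h, if_neg h']
      exact hmix y h y' (mem_sdiff.2 ⟨hy', h'⟩) hyy
    · simp only [if_neg h, if_pos h']
      exact (hmix y' h' y (mem_sdiff.2 ⟨hy, h⟩) (hyy.imp Eq.symm Eq.symm)).symm
    · simp only [if_neg h, if_neg h']
      have m1 := mem_sdiff.2 ⟨hy, h⟩
      have m2 := mem_sdiff.2 ⟨hy', h'⟩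
      by_cases hs : sd y = sd y'
      · exact hc2' y m1 y' m2 hne (hyy.imp (fun h => Prod.ext hs h) id)
      · intro e
        refine hdis (!sd y) (!sd y') _ (fun h => hs (Bool.not_inj h))
          (hF _ _ (mem_sdiff.1 (hc2 y m1)).1) ?_
        rw [e]
        exact hF _ _ (mem_sdiff.1 (hc2 y' m2)).1

/-- the column end of the edge at a leaf -/
theorem fill_nb {ι : Type} [DecidableEq ι] {n : ℕ} (E : ι → Gr n) :
    ∃ nb : It ι n → It ι n, ∀ q, dY (E q.1) q.2 = 1 → ∀ p, adj E p q ↔ p = nb q := by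
  have h : ∀ q : It ι n, ∃ p0 : It ι n, dY (E q.1) q.2 = 1 → ∀ p, adj E p q ↔ p = p0 := by
    intro q
    by_cases hq : dY (E q.1) q.2 = 1
    · obtain ⟨x, hx⟩ := card_eq_one.1 hq
      refine ⟨(q.1, x), fun _ p => ⟨fun h => ?_, fun h => ?_⟩⟩
      · have h2 : p.2 ∈ nY (E q.1) q.2 := mem_nY.2 (h.1 ▸ h.2)
        rw [hx, mem_singleton] at h2
        exact Prod.ext h.1 h2
      · subst h
        exact ⟨rfl, mem_nY.1 (by rw [hx]; exact mem_singleton_self x)⟩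
    · exact ⟨q, fun h => absurd h hq⟩
  choose nb hnb using h
  exact ⟨nb, hnb⟩

theorem fill_mem_nf {ι : Type} [DecidableEq ι] {n : ℕ} {E : ι → Gr n} {Hs Gs : Finset ι}
    {q : It ι n} : q ∈ nf E Hs Gs ↔ q.1 ∈ Gs ∨ (q.1 ∈ Hs ∧ dY (E q.1) q.2 ≠ 1) := by
  simp [nf, mem_full]

/-- the number of free cells in a column is the number of leaves that belong to this column -/
theorem fill_count {ι A : Type} [DecidableEq ι] [DecidableEq A] {n : ℕ} {E : ι → Gr n}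
    {Hs Gs : Finset ι} (hd : Disjoint Hs Gs) {σ : It ι n → A} {ψ : It ι n → ι}
    {nb : It ι n → It ι n} (hnb : ∀ q, dY (E q.1) q.2 = 1 → ∀ p, adj E p q ↔ p = nb q)
    (ok : Ok E (full n (Hs ∪ Gs)) (nf E Hs Gs) σ ψ) (hR : ∀ q ∈ nf E Hs Gs, ψ q ∈ Hs ∪ Gs) (a : A)
    (hcol : colL E (full n (Hs ∪ Gs)) σ a = (Hs ∪ Gs).card) :
    ((Hs ∪ Gs).filter fun r => ¬ occ E (full n (Hs ∪ Gs)) (nf E Hs Gs) σ ψ a r).card =
      ((full n Hs).filter fun q => dY (E q.1) q.2 = 1 ∧ σ (nb q) = a).card ∧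
    filL E (full n Hs) σ a ≤
      ((full n Hs).filter fun q => dY (E q.1) q.2 = 1 ∧ σ (nb q) = a).card := by
  have h1 : ((full n Hs).filter fun q => dY (E q.1) q.2 = 1 ∧ σ (nb q) = a).card =
      ∑ p ∈ fib (full n (Hs ∪ Gs)) σ a,
        ((full n Hs).filter fun q => dY (E q.1) q.2 = 1 ∧ adj E p q).card := by
    rw [card_eq_sum_card_fiberwise (f := nb) (t := fib (full n (Hs ∪ Gs)) σ a)]
    · refine sum_congr rfl fun p hp => ?_
      congr 1
      ext q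
      simp only [mem_filter]
      constructor
      · rintro ⟨⟨h1, h2, _⟩, h4⟩
        exact ⟨h1, h2, (hnb q h2 p).2 h4.symm⟩
      · rintro ⟨h1, h2, h3⟩
        have h4 := (hnb q h2 p).1 h3
        exact ⟨⟨h1, h2, by rw [← h4]; exact (mem_fib.1 hp).2⟩, h4.symm⟩
    · intro q hq
      obtain ⟨h1, h2, h3⟩ := mem_filter.1 (mem_coe.1 hq)
      refine mem_coe.2 (mem_fib.2 ⟨mem_full.2 ?_, h3⟩)
      rw [((hnb q h2 (nb q)).2 rfl).1]
      exact mem_union_left _ (mem_full.1 h1)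
  have h2 : ∀ p ∈ fib (full n (Hs ∪ Gs)) σ a, dX (E p.1) p.2 =
      ((nf E Hs Gs).filter fun q => adj E p q).card +
        ((full n Hs).filter fun q => dY (E q.1) q.2 = 1 ∧ adj E p q).card := by
    intro p hp
    rw [← card_adjX_full (mem_full.1 (mem_fib.1 hp).1), ← card_union_of_disjoint]
    · congr 1
      ext q
      simp only [mem_filter, mem_union, mem_full, fill_mem_nf]
      by_cases hq : dY (E q.1) q.2 = 1 <;> tauto
    · refine disjoint_left.2 fun q h1 h2 => ?_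
      obtain ⟨h3, h4, _⟩ := mem_filter.1 h2
      rcases fill_mem_nf.1 (mem_filter.1 h1).1 with h5 | h5
      · exact disjoint_left.1 hd (mem_full.1 h3) h5
      · exact h5.2 h4
  constructor
  · have h3 := ok.card_occ_col hR a
    have h4 := card_filter_add_card_filter_not (s := Hs ∪ Gs)
      fun r => occ E (full n (Hs ∪ Gs)) (nf E Hs Gs) σ ψ a r
    rw [colL, sum_congr rfl h2, sum_add_distrib] at hcol
    omega
  · rw [h1, filL]
    have hs : fib (full n Hs) σ a ⊆ fib (full n (Hs ∪ Gs)) σ a := fun p hp =>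
      mem_fib.2 ⟨mem_full.2 (mem_union_left _ (mem_full.1 (mem_fib.1 hp).1)), (mem_fib.1 hp).2⟩
    refine le_trans (sum_le_sum fun p hp => ?_) (sum_le_sum_of_subset hs)
    refine card_le_card_of_injOn (fun y => (p.1, y)) (fun y hy => ?_) fun y _ y' _ h =>
      (Prod.mk.inj h).2
    obtain ⟨h3, h4⟩ := mem_filter.1 (mem_coe.1 hy)
    exact mem_coe.2 (mem_filter.2 ⟨mem_full.2 (mem_full.1 (mem_fib.1 hp).1 : p.1 ∈ Hs), h4,
      rfl, mem_nX.1 h3⟩)

/-- Proof idea. Glue the two embeddings (`Ok.union`). `Fi` the leaves of the hosts, `ca q` the column of the unique neighbour, `Rw b = Hs b ∪ Gs b`, `Fr b a` the rows of `Rw b` whose cell in column `a` is not occupied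
(`Ok.card_occ_col`, `card_adjX_full`: their number is `filL E (full n (Hs b)) σ a`), `Us i` the rows used by the tree `i`. -/
theorem fill {ι A : Type} [DecidableEq ι] [DecidableEq A] {n : ℕ} {E : ι → Gr n}
    (Hs Gs : Bool → Finset ι) (hd : ∀ b, Disjoint (Hs b) (Gs b))
    (hdd : Disjoint (Hs false ∪ Gs false) (Hs true ∪ Gs true)) (h : ∀ b, HOut A E (Hs b) (Gs b)) :
    Pack A E ((Hs false ∪ Gs false) ∪ (Hs true ∪ Gs true)) := by
  choose σb ψb hok hrow hcol using h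
  rcases isEmpty_or_nonempty ι with hι | hι
  · exact ⟨σb false, ψb false, ⟨fun p => (hι.false p.1).elim, fun p => (hι.false p.1).elim,
      fun p => (hι.false p.1).elim⟩, fun p => (hι.false p.1).elim⟩
  obtain ⟨sd, hsd⟩ : ∃ sd : ι → Bool, ∀ b, ∀ i ∈ Hs b ∪ Gs b, sd i = b := by
    refine ⟨fun i => decide (i ∈ Hs true ∪ Gs true), fun b i hi => ?_⟩
    cases b
    · exact decide_eq_false (disjoint_left.1 hdd hi)
    · exact decide_eq_true hi
  have hnfR : ∀ b, ∀ q ∈ nf E (Hs b) (Gs b), q.1 ∈ Hs b ∪ Gs b := by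
    intro b q hq
    rcases fill_mem_nf.1 hq with h | h
    · exact mem_union_right _ h
    · exact mem_union_left _ h.1
  obtain ⟨σ, hσ⟩ : ∃ σ : It ι n → A, ∀ b, ∀ p ∈ full n (Hs b ∪ Gs b), σ p = σb b p :=
    ⟨fun p => σb (sd p.1) p, fun b p hp => by
      show σb (sd p.1) p = _
      rw [hsd b p.1 (mem_full.1 hp)]⟩
  obtain ⟨ψ, hψ⟩ : ∃ ψ : It ι n → ι, ∀ b, ∀ q ∈ nf E (Hs b) (Gs b), ψ q = ψb b q :=
    ⟨fun p => ψb (sd p.1) p, fun b p hp => by
      show ψb (sd p.1) p = _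
      rw [hsd b p.1 (hnfR b p hp)]⟩
  have ok : ∀ b, Ok E (full n (Hs b ∪ Gs b)) (nf E (Hs b) (Gs b)) σ ψ := fun b =>
    (hok b).congr (hσ b) (hψ b)
  have row : ∀ b, ∀ q ∈ nf E (Hs b) (Gs b), ψ q ∈ Hs b ∪ Gs b := fun b q hq => by
    rw [hψ b q hq]
    exact hrow b q hq
  have okU := (ok false).union (ok true) (I := Hs false ∪ Gs false) (fun p hp => mem_full.1 hp)
    (hnfR false) (fun p hp h => disjoint_left.1 hdd h (mem_full.1 hp))
    (fun q hq h => disjoint_left.1 hdd h (hnfR true q hq))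
    fun q hq q' hq' e => disjoint_left.1 hdd (row false q hq) (e ▸ row true q' hq')
  rw [← full_union] at okU
  obtain ⟨nb, hnb⟩ := fill_nb E
  have hcount := fun b a => fill_count (hd b) hnb (ok b) (row b) a
    ((colL_congr (hσ b) a).trans (hcol b a).1)
  obtain ⟨Fi, hFi⟩ : ∃ Fi : Finset (It ι n), ∀ q, q ∈ Fi ↔
      (∃ b, q.1 ∈ Hs b) ∧ dY (E q.1) q.2 = 1 :=
    ⟨(full n (Hs false ∪ Hs true)).filter fun q => dY (E q.1) q.2 = 1, fun q => by
      simp [mem_full]⟩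
  obtain ⟨NN, hNN⟩ : ∃ NN, NN = nf E (Hs false) (Gs false) ∪ nf E (Hs true) (Gs true) := ⟨_, rfl⟩
  rw [← hNN] at okU
  have hNN' : ∀ q, q ∈ NN ↔ ∃ b, q ∈ nf E (Hs b) (Gs b) := fun q => by
    rw [hNN, mem_union, Bool.exists_bool]
  have hFN : Disjoint NN Fi := by
    refine disjoint_left.2 fun q h1 h2 => ?_
    obtain ⟨b, hb⟩ := (hNN' q).1 h1
    obtain ⟨⟨b', hb'⟩, h3⟩ := (hFi q).1 h2
    rcases fill_mem_nf.1 hb with h | h
    · have e : b' = b := (hsd b' _ (mem_union_left _ hb')).symm.trans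
        (hsd b _ (mem_union_right _ h))
      subst e
      exact disjoint_left.1 (hd b') hb' h
    · exact h.2 h3
  have hcov : ∀ q ∈ full n ((Hs false ∪ Gs false) ∪ (Hs true ∪ Gs true)), q ∉ Fi → q ∈ NN := by
    intro q hq hF
    have h1 : ∃ b, q.1 ∈ Hs b ∪ Gs b := Bool.exists_bool.2 (mem_union.1 (mem_full.1 hq))
    obtain ⟨b, hb⟩ := h1
    refine (hNN' q).2 ⟨b, fill_mem_nf.2 ?_⟩
    rcases mem_union.1 hb with h | h
    · exact Or.inr ⟨h, fun h2 => hF ((hFi q).2 ⟨⟨b, h⟩, h2⟩)⟩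
    · exact Or.inl h
  have hflt : ∀ b a, (Fi.filter fun y => sd y.1 = b ∧ σ (nb y) = a) =
      (full n (Hs b)).filter fun q => dY (E q.1) q.2 = 1 ∧ σ (nb q) = a := by
    intro b a
    ext q
    simp only [mem_filter, hFi, mem_full]
    constructor
    · rintro ⟨⟨⟨b', h1⟩, h2⟩, h3, h4⟩
      rw [hsd b' _ (mem_union_left _ h1)] at h3
      exact ⟨h3 ▸ h1, h2, h4⟩
    · rintro ⟨h1, h2, h3⟩
      exact ⟨⟨⟨b, h1⟩, h2⟩, hsd b _ (mem_union_left _ h1), h3⟩
  obtain ⟨φ, hφ, hφ'⟩ := fillA Fi (fun q => sd q.1) (fun q => σ (nb q)) (fun q => q.1)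
    (fun b => Hs b ∪ Gs b)
    (fun b a => (Hs b ∪ Gs b).filter fun r =>
      ¬ occ E (full n (Hs b ∪ Gs b)) (nf E (Hs b) (Gs b)) σ ψ a r)
    (fun i => (NN.filter fun q => q.1 = i).image ψ) n hdd (fun b a => filter_subset _ _)
    (fun b a => by rw [hflt]; exact (hcount b a).1)
    (fun b a => by
      have h1 := hcount b a
      have h2 := (hcol b a).2
      have h3 : filL E (full n (Hs b)) σ a = filL E (full n (Hs b)) (σb b) a := by
        rw [filL, filL, fib_congr fun p hp =>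
          hσ b p (mem_full.2 (mem_union_left _ (mem_full.1 hp)))]
      omega)
    (fun y _ y' _ e => congrArg sd e)
    (fun y _ r hr => by
      obtain ⟨q, hq, rfl⟩ := mem_image.1 hr
      obtain ⟨h1, h2⟩ := mem_filter.1 hq
      obtain ⟨b, hb⟩ := (hNN' q).1 h1
      have h3 : sd y.1 = b := by rw [← h2]; exact hsd b _ (hnfR b q hb)
      show ψ q ∈ Hs (sd y.1) ∪ Gs (sd y.1)
      rw [h3]
      exact row b q hb)
    (fun y _ => by
      have h1 := card_owner_le (NN ∪ Fi) y.1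
      rw [filter_union, card_union_of_disjoint (disjoint_filter_filter hFN)] at h1
      exact le_trans (Nat.add_le_add_right card_image_le _) h1)
  have hmixY : ∀ q ∈ Fi, ∀ q' ∈ NN, q.1 = q'.1 → φ q ≠ ψ q' := fun q hq q' hq' e e' =>
    (hφ q hq).2 (mem_image.2 ⟨q', mem_filter.2 ⟨hq', e.symm⟩, e'.symm⟩)
  have hmixC : ∀ q ∈ Fi, ∀ q' ∈ NN, ∀ p p', adj E p q → adj E p' q' → σ p = σ p' →
      φ q ≠ ψ q' := by
    intro q hq q' hq' p p' ha ha' e e'
    obtain ⟨b, hb⟩ := (Bool.exists_bool (p := fun b => φ q ∈ (Hs b ∪ Gs b).filter fun r =>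
      ¬ occ E (full n (Hs b ∪ Gs b)) (nf E (Hs b) (Gs b)) σ ψ (σ (nb q)) r)).2 (hφ q hq).1
    obtain ⟨h1, h2⟩ := mem_filter.1 hb
    obtain ⟨b', hb'⟩ := (hNN' q').1 hq'
    have e2 : b' = b := (hsd b' _ (row b' q' hb')).symm.trans (hsd b _ (e' ▸ h1))
    subst e2
    refine h2 ⟨p', mem_full.2 (ha'.1 ▸ hnfR b' q' hb'), q', hb', ha', ?_, e'.symm⟩
    rw [← e, (hnb q ((hFi q).1 hq).2 p).1 ha]
  refine ⟨σ, fun q => if q ∈ Fi then φ q else ψ q, ⟨okU.injX, ?_, ?_⟩, ?_⟩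
  · intro q hq q' hq' e e'
    by_cases h : q ∈ Fi <;> by_cases h' : q' ∈ Fi
    · simp only [if_pos h, if_pos h'] at e'
      by_contra hne
      exact hφ' q h q' h' hne (Or.inr e) e'
    · simp only [if_pos h, if_neg h'] at e'
      exact absurd e' (hmixY q h q' (hcov q' hq' h') e)
    · simp only [if_neg h, if_pos h'] at e'
      exact absurd e'.symm (hmixY q' h' q (hcov q hq h) e.symm)
    · simp only [if_neg h, if_neg h'] at e'
      exact okU.injY q (hcov q hq h) q' (hcov q' hq' h') e e'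
  · intro p hp q hq p' hp' q' hq' ha ha' e e'
    by_cases h : q ∈ Fi <;> by_cases h' : q' ∈ Fi
    · simp only [if_pos h, if_pos h'] at e'
      have e1 := (hnb q ((hFi q).1 h).2 p).1 ha
      have e2 := (hnb q' ((hFi q').1 h').2 p').1 ha'
      have e3 : q = q' := by
        by_contra hne
        exact hφ' q h q' h' hne (Or.inl (by
          show σ (nb q) = σ (nb q')
          rw [← e1, ← e2, e])) e'
      rw [e1, e2, e3]
    · simp only [if_pos h, if_neg h'] at e'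
      exact absurd e' (hmixC q h q' (hcov q' hq' h') p p' ha ha' e)
    · simp only [if_neg h, if_pos h'] at e'
      exact absurd e'.symm (hmixC q' h' q (hcov q hq h) p' p ha' ha e.symm)
    · simp only [if_neg h, if_neg h'] at e'
      exact okU.cell p hp q (hcov q hq h) p' hp' q' (hcov q' hq' h') ha ha' e e'
  · intro q hq
    by_cases h : q ∈ Fi
    · simp only [if_pos h]
      exact mem_union.2 ((hφ q h).1.imp (fun h => (mem_filter.1 h).1) fun h => (mem_filter.1 h).1)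
    · simp only [if_neg h]
      obtain ⟨b, hb⟩ := (hNN' q).1 (hcov q hq h)
      exact mem_union.2 ((Bool.exists_bool (p := fun b => ψ q ∈ Hs b ∪ Gs b)).1 ⟨b, row b q hb⟩)

end Pool.Agent.MP_4c107d_co.H78

end

end

-- part MP_4c107d_co.H78.M
section

section

/-!
Definitions for the assembly of the groups.
-/

set_option autoImplicit false
set_option linter.unusedSectionVars false

namespace Pool.Agent.MP_4c107d_co.H78

open Finset

/-- the slice of two consecutive blocks -/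
def slc {m W : ℕ} [NeZero m] (bl : ZMod m → ZMod W) (w : ZMod W) : Finset (ZMod m) :=
  univ.filter fun a => bl a = w ∨ bl a = w + 1

theorem mem_slc {m W : ℕ} [NeZero m] {bl : ZMod m → ZMod W} {w : ZMod W} {a : ZMod m} :
    a ∈ slc bl w ↔ bl a = w ∨ bl a = w + 1 := by simp [slc]

/-- standing assumptions on the numbers -/
structure Hf (n m W g0 k0 Kc d : ℕ) [NeZero m] (bl : ZMod m → ZMod W) : Prop where
  hm : m + 1 = 2 * n
  hW : W = 10 ^ 17
  hd : d = 1 ∨ d = 2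
  hK : 1 ≤ Kc
  hg : 10 ^ 95 * Kc ^ 2 ≤ g0
  hn : 10 ^ 95 * Kc ≤ n
  hk : n ≤ k0
  b1 : ∀ w, |((fib univ bl w).card : ℝ) - m / W| ≤ 1
  b2 : ∀ a, bl (a + 1) = bl a ∨ bl (a + 1) = bl a + 1

/-- the remaining demand `Dm` is nearly constant; `μ = g0 k0 (NU n)` -/
structure Dem (n m W g0 k0 d : ℕ) [NeZero m] (bl : ZMod m → ZMod W) (Dm : ZMod m → ℕ) : Prop where
  pt : ∀ a, |(Dm a : ℝ) - W * (d * (g0 * k0 * NU n)) / m| ≤ W * (d * (g0 * k0 * NU n)) / m / 10
  blk : ∀ w, |((∑ a ∈ fib univ bl w, Dm a : ℕ) : ℝ) - d * (g0 * k0 * NU n)|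
    ≤ d * (g0 * k0 * NU n) / (20 * W)

end Pool.Agent.MP_4c107d_co.H78

end

section

/-!
Balancing the groups: sizes, averages, fillers.
-/

set_option autoImplicit false
set_option linter.unusedSectionVars false

namespace Pool.Agent.MP_4c107d_co.H78

open Finset

variable {n m W g0 k0 Kc d : ℕ} [NeZero m] [NeZero W] {bl : ZMod m → ZMod W}

theorem balA_ne (h : Hf n m W g0 k0 Kc d bl) (w : ZMod W) : w ≠ w + 1 := by
  intro e
  have h1 : ((1 : ℕ) : ZMod W) = 0 := by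
    rw [Nat.cast_one]
    exact (left_eq_add.1 e)
  have h2 := Nat.le_of_dvd one_pos ((ZMod.natCast_eq_zero_iff _ _).1 h1)
  rw [h.hW] at h2
  norm_num at h2

theorem balA_W (h : Hf n m W g0 k0 Kc d bl) : (W : ℝ) = 10 ^ 17 := by
  rw [h.hW]; norm_num

theorem balA_m (h : Hf n m W g0 k0 Kc d bl) : (m : ℝ) = 2 * n - 1 := by
  have : (m : ℝ) + 1 = 2 * n := by exact_mod_cast h.hm
  linarith

theorem balA_n (h : Hf n m W g0 k0 Kc d bl) : (10 : ℝ) ^ 95 * Kc ≤ n ∧ (1 : ℝ) ≤ Kc ∧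
    (n : ℝ) ≤ k0 :=
  ⟨by exact_mod_cast h.hn, by exact_mod_cast h.hK, by exact_mod_cast h.hk⟩

theorem Hf.card_slc (h : Hf n m W g0 k0 Kc d bl) (w : ZMod W) :
    |((slc bl w).card : ℝ) - 2 * m / W| ≤ 2 := by
  have e : slc bl w = fib univ bl w ∪ fib univ bl (w + 1) := by
    ext a
    simp [mem_slc, mem_fib]
  have hd : Disjoint (fib univ bl w) (fib univ bl (w + 1)) :=
    disjoint_left.2 fun a h1 h2 => balA_ne h w ((mem_fib.1 h1).2.symm.trans (mem_fib.1 h2).2)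
  rw [e, card_union_of_disjoint hd, Nat.cast_add, mul_div_assoc]
  have h1 := abs_le.1 (h.b1 w)
  have h2 := abs_le.1 (h.b1 (w + 1))
  rw [abs_le]
  constructor <;> linarith [h1.1, h1.2, h2.1, h2.2]

theorem Hf.slc_bounds (h : Hf n m W g0 k0 Kc d bl) (w : ZMod W) :
    3 * n ≤ 10 ^ 17 * (slc bl w).card ∧ 10 ^ 16 * (slc bl w).card ≤ n := by
  have h1 := abs_le.1 (h.card_slc w)
  rw [balA_W h, balA_m h] at h1
  obtain ⟨h2, h3, -⟩ := balA_n h
  constructor
  · have : (3 * n : ℝ) ≤ 10 ^ 17 * (slc bl w).card := by linarith [h1.1]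
    exact_mod_cast this
  · have : (10 ^ 16 * (slc bl w).card : ℝ) ≤ n := by linarith [h1.2]
    exact_mod_cast this

/-- the number of classes whose slice avoids a column -/
theorem Hf.card_avoid (h : Hf n m W g0 k0 Kc d bl) (a : ZMod m) :
    (univ.filter fun w => a ∉ slc bl w).card + 2 = W := by
  have h1 := card_filter_add_card_filter_not (s := (univ : Finset (ZMod W)))
    (fun w => a ∈ slc bl w)
  have h2 : (univ.filter fun w => a ∈ slc bl w) = {bl a - 1, bl a - 1 + 1} := by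
    ext w
    simp only [mem_filter, mem_univ, true_and, mem_slc, mem_insert, mem_singleton, sub_add_cancel,
      eq_sub_iff_add_eq]
    tauto
  rw [h2, card_pair (balA_ne h _), card_univ, ZMod.card] at h1
  omega

theorem balA_compl (bl : ZMod m → ZMod W) (w : ZMod W) :
    ((univ \ slc bl w).card : ℝ) = m - (slc bl w).card := by
  rw [card_sdiff_of_subset (subset_univ _), Nat.cast_sub (card_le_card (subset_univ _)), card_univ,
    ZMod.card]

/-- the average load outside the slice. Proof idea: the sum is `k0 (m - d ν) + J m - k0 - ∑_{slc} u`, and `#(univ \ slc) = m (W - 2) / W ± 2`. -/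
theorem Hf.avg (h : Hf n m W g0 k0 Kc d bl) (w : ZMod W) (u : ZMod m → ℕ) (J : ℕ)
    (hJ : 10 ^ 80 * J ≤ k0) (h1 : ∀ a ∈ slc bl w, 10 ^ 60 * u a ≤ k0)
    (h2 : ∑ a, u a + k0 * (1 + d * NU n) = (k0 + J) * m) :
    |(∑ a ∈ univ \ slc bl w, (u a : ℝ)) / (univ \ slc bl w).card
      - k0 * (W * (1 - d * NU n / (m : ℝ)) / (W - 2))| ≤ 4 * k0 / 10 ^ 77 := by
  have c1 := abs_le.1 (h.card_slc w)
  have hm := balA_m h
  obtain ⟨n1, n2, n3⟩ := balA_n h
  rw [balA_compl, balA_W h]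
  rw [balA_W h] at c1
  set c : ℝ := ((slc bl w).card : ℝ) with hc
  have s1 : ∑ a ∈ univ \ slc bl w, (u a : ℝ) + ∑ a ∈ slc bl w, (u a : ℝ) = ∑ a, (u a : ℝ) :=
    sum_sdiff (subset_univ _)
  have s2 : ∑ a, (u a : ℝ) + k0 * (1 + d * NU n) = (k0 + J) * m := by exact_mod_cast h2
  have s3 : 0 ≤ ∑ a ∈ slc bl w, (u a : ℝ) := sum_nonneg fun _ _ => Nat.cast_nonneg _
  have s4 : ∑ a ∈ slc bl w, (u a : ℝ) ≤ c * (k0 / 10 ^ 60) := by
    rw [hc, ← nsmul_eq_mul]
    refine sum_le_card_nsmul _ _ _ fun a ha => ?_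
    have : (10 ^ 60 * u a : ℝ) ≤ k0 := by exact_mod_cast h1 a ha
    linarith
  have j1 : (10 ^ 80 * J : ℝ) ≤ k0 := by exact_mod_cast hJ
  have j0 : (0 : ℝ) ≤ J := Nat.cast_nonneg _
  have v1 : (10 ^ 56 * NU n : ℝ) ≤ n := by exact_mod_cast Nat.mul_div_le n (10 ^ 56)
  have v0 : (0 : ℝ) ≤ NU n := Nat.cast_nonneg _
  have v2 : 0 ≤ (d : ℝ) * NU n ∧ (d : ℝ) * NU n ≤ m := by
    rcases h.hd with e | e <;> rw [e] <;> push_cast <;> constructor <;> linarith
  have m0 : (10 : ℝ) ^ 95 ≤ m := by linarith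
  have k1 : (0 : ℝ) ≤ k0 := Nat.cast_nonneg _
  have N0 : (0 : ℝ) < m - c := by linarith [c1.2]
  set x : ℝ := d * NU n with hx
  set t : ℝ := 10 ^ 17 * (1 - x / m) / (10 ^ 17 - 2) with ht
  have t0 : 0 ≤ x / m := div_nonneg v2.1 (by linarith)
  have t1 : x / m ≤ 1 := (div_le_one (by linarith)).2 v2.2
  have t2 : 0 ≤ t ∧ t ≤ 2 := by
    rw [ht]
    constructor <;> linarith
  have t3 : t * (m - 2 * m / 10 ^ 17) = m - x := by
    have : (m : ℝ) ≠ 0 := by linarith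
    rw [ht]
    field_simp
  have t4 : |t * (c - 2 * m / 10 ^ 17)| ≤ 4 := by
    rw [abs_mul, abs_of_nonneg t2.1]
    have := mul_le_mul t2.2 (abs_le.2 c1) (abs_nonneg _) zero_le_two
    linarith
  have t5 := abs_le.1 t4
  have t6 := mul_le_mul_of_nonneg_left t5.1 k1
  have t7 := mul_le_mul_of_nonneg_left t5.2 k1
  have e : (∑ a ∈ univ \ slc bl w, (u a : ℝ)) / (m - c) - k0 * t =
      (k0 * (t * (c - 2 * m / 10 ^ 17)) + J * m - k0 - ∑ a ∈ slc bl w, (u a : ℝ)) / (m - c) := by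
    rw [eq_div_iff N0.ne', sub_mul, div_mul_cancel₀ _ N0.ne']
    linear_combination s1 + s2 - (k0 : ℝ) * t3
  rw [e, abs_div, abs_of_pos N0, div_le_iff₀ N0]
  have p1 := mul_le_mul_of_nonneg_right j1 (show (0 : ℝ) ≤ m by linarith)
  have p2 := mul_nonneg j0 (show (0 : ℝ) ≤ m by linarith)
  have p3 := mul_le_mul_of_nonneg_left m0 k1
  have p4 := mul_le_mul_of_nonneg_left (show c ≤ 2 * m / 10 ^ 17 + 2 by linarith [c1.2]) k1
  rw [abs_le]
  constructor <;> linarith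

/-- first phase: many fillers in every column. Proof idea: `balance` for `Γ = {g | g.2 < Kc}`, `U g = univ \ slc bl g.1`, `w = 0`, `M = s = Kc k0`. A block lies in `U g` for `(W - 2) Kc` groups of `Γ`, the average of `f g` on `U g` is at
least `k0 / (4 * 10 ^ 15)`, so the mean over a block is at least `20 Kc k0`. -/
theorem Hf.phase1 (h : Hf n m W g0 k0 Kc d bl) (f : ZMod W × Fin g0 → ZMod m → ℕ)
    (h1 : ∀ g a, f g a ≤ Kc * k0) (h2 : ∀ g, n * k0 ≤ 2 * 10 ^ 15 * ∑ a ∈ univ \ slc bl g.1, f g a) :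
    ∃ π : ZMod W × Fin g0 → Equiv.Perm (ZMod m), (∀ g, ∀ a ∈ slc bl g.1, π g a = a) ∧
      ∀ a, n + 1 ≤ ∑ g ∈ univ.filter (fun g : ZMod W × Fin g0 => g.2.val < Kc), f g (π g a) := by
  set Γ : Finset (ZMod W × Fin g0) := univ.filter fun g => g.2.val < Kc with hΓ
  have hU : ∀ (w : ZMod W) (a a' : ZMod m), bl a = bl a' → a ∈ univ \ slc bl w →
      a' ∈ univ \ slc bl w := fun w a a' e ha => by
    simp only [mem_sdiff, mem_univ, true_and, mem_slc] at ha ⊢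
    rwa [← e]
  obtain ⟨π, p1, p2, p3⟩ := balance bl Γ (fun g => univ \ slc bl g.1)
    (fun g _ => hU g.1) (fun g a => (f g a : ℝ)) (fun _ => 0) (Kc * k0) (Kc * k0)
    (fun g _ a => ⟨Nat.cast_nonneg _, by exact_mod_cast h1 g a⟩) le_rfl
    (fun _ _ _ => by rw [sub_self]; positivity)
  refine ⟨fun g => if g.2.val < Kc then π g else 1, fun g a ha => ?_, fun a => ?_⟩
  · dsimp only
    split_ifs with hg
    · exact p1 g (mem_filter.2 ⟨mem_univ _, hg⟩) a fun hh => (mem_sdiff.1 hh).2 ha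
    · rfl
  have hm := balA_m h
  obtain ⟨n1, n2, n3⟩ := balA_n h
  have hW := balA_W h
  set Λ := Γ.filter fun g => a ∈ univ \ slc bl g.1 with hΛ
  set Bk := fib univ bl (bl a) with hBk
  have hΛc : (Λ.card : ℝ) = (10 ^ 17 - 2) * Kc := by
    have e : Λ = (univ.filter fun w => a ∉ slc bl w) ×ˢ
        (univ.filter fun i : Fin g0 => i.val < Kc) := by
      ext g
      simp [hΛ, hΓ, and_comm]
    have e2 : Kc ≤ g0 := by
      have := h.hg
      have := h.hK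
      nlinarith
    have e3 : (((univ.filter fun w => a ∉ slc bl w).card : ℕ) : ℝ) + 2 = W := by
      exact_mod_cast h.card_avoid a
    rw [e, card_product, Fin.card_filter_val_lt, min_eq_right e2, Nat.cast_mul]
    congr 1
    linarith
  have b1 := (abs_le.1 (h.b1 (bl a))).1
  rw [hW, ← hBk] at b1
  set b : ℝ := (Bk.card : ℝ) with hb
  have b2 : 10 ^ 17 * (Kc : ℝ) ≤ b := by linarith
  have b0 : 0 < b := by linarith
  have k1 : (0 : ℝ) < k0 := by linarith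
  set X : ℝ := ∑ g ∈ Λ, (f g (π g a) : ℝ) with hX
  have q1 : ∑ a' ∈ Bk, ∑ g ∈ Λ, (f g (π g a') : ℝ) ≤ b * (X + Kc * k0) := by
    rw [hb, ← nsmul_eq_mul]
    refine sum_le_card_nsmul _ _ _ fun a' ha' => ?_
    have e := (mem_fib.1 ha').2
    have e2 : (Γ.filter fun g => a' ∈ univ \ slc bl g.1) = Λ :=
      filter_congr fun g _ => ⟨hU g.1 a' a e, hU g.1 a a' e.symm⟩
    have := p2 a' a e
    rw [e2] at this
    linarith
  have q2 : Λ.card * (b * (k0 / (4 * 10 ^ 15)) - Kc * k0) ≤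
      ∑ g ∈ Λ, ∑ a' ∈ Bk, (f g (π g a') : ℝ) := by
    rw [← nsmul_eq_mul]
    refine card_nsmul_le_sum _ _ _ fun g hg => ?_
    obtain ⟨g1, g2⟩ := mem_filter.1 hg
    have e : fib (univ \ slc bl g.1) bl (bl a) = Bk := by
      ext a'
      rw [hBk, mem_fib, mem_fib]
      exact ⟨fun hh => ⟨mem_univ _, hh.2⟩, fun hh => ⟨hU g.1 a a' hh.2.symm g2, hh.2⟩⟩
    have r1 := (abs_le.1 (p3 g g1 (bl a))).1
    rw [e] at r1
    have r2 : (n * k0 : ℝ) ≤ 2 * 10 ^ 15 * ∑ a ∈ univ \ slc bl g.1, (f g a : ℝ) := by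
      exact_mod_cast h2 g
    have r3 : (0 : ℝ) < (univ \ slc bl g.1).card := Nat.cast_pos.2 (card_pos.2 ⟨a, g2⟩)
    have r4 : ((univ \ slc bl g.1).card : ℝ) ≤ 2 * n := by
      rw [balA_compl]
      linarith [Nat.cast_nonneg (α := ℝ) (slc bl g.1).card]
    have r5 : (k0 : ℝ) / (4 * 10 ^ 15) ≤
        (∑ a ∈ univ \ slc bl g.1, (f g a : ℝ)) / (univ \ slc bl g.1).card := by
      rw [le_div_iff₀ r3]
      have := mul_le_mul_of_nonneg_left r4 k1.le
      linarith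
    have r6 := mul_le_mul_of_nonneg_left r5 b0.le
    linarith
  rw [sum_comm, hΛc] at q2
  have kk : (0 : ℝ) < Kc * k0 := by positivity
  have q3 := mul_le_mul_of_nonneg_left b2 kk.le
  have q4 : 0 ≤ (Kc : ℝ) * (Kc * k0) := by positivity
  have q5 : 0 ≤ b * (Kc * k0) := by positivity
  have q6 : b * (2 * (Kc * k0)) ≤ b * X := by linarith
  have q7 := le_of_mul_le_mul_left q6 b0
  have q8 := mul_le_mul_of_nonneg_right n2 k1.le
  have q9 : X ≤ ∑ g ∈ Γ, (f g (π g a) : ℝ) :=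
    sum_le_sum_of_subset_of_nonneg (filter_subset _ _) fun _ _ _ => Nat.cast_nonneg _
  have q10 : (n + 1 : ℝ) ≤ ∑ g ∈ Γ, (f g (π g a) : ℝ) := by linarith
  have q11 : n + 1 ≤ ∑ g ∈ Γ, f g (π g a) := by exact_mod_cast q10
  refine q11.trans (le_of_eq (sum_congr rfl fun g hg => ?_))
  simp only [if_pos (mem_filter.1 hg).2]

end Pool.Agent.MP_4c107d_co.H78

end

section

/-!
Balancing the groups: totals.
-/

set_option autoImplicit false
set_option linter.unusedSectionVars false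

namespace Pool.Agent.MP_4c107d_co.H78

open Finset

variable {n m W g0 k0 Kc d : ℕ} [NeZero m] [NeZero W] {bl : ZMod m → ZMod W}


theorem balB_card1 (p : ZMod W → Prop) [DecidablePred p] :
    (univ.filter fun g : ZMod W × Fin g0 => p g.1).card = (univ.filter p).card * g0 := by
  rw [← univ_product_univ, filter_product_left, card_product, card_univ, Fintype.card_fin]

theorem balB_card2 : (univ.filter fun g : ZMod W × Fin g0 => g.2.val < Kc).card ≤ W * Kc := by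
  rw [← univ_product_univ, filter_product_right (fun i : Fin g0 => i.val < Kc), card_product,
    card_univ, ZMod.card]
  refine Nat.mul_le_mul_left _ ?_
  rw [Fin.card_filter_val_lt]
  exact min_le_right _ _

theorem balB_blk (h : Hf n m W g0 k0 Kc d bl) (j : ZMod W) :
    10 ^ 78 * (Kc : ℝ) ≤ (fib univ bl j).card := by
  have h1 := (abs_le.1 (h.b1 j)).1
  have h2 : (m : ℝ) + 1 = 2 * n := by exact_mod_cast h.hm
  have h3 : (10 : ℝ) ^ 95 * Kc ≤ n := by exact_mod_cast h.hn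
  have h4 : (1 : ℝ) ≤ Kc := by exact_mod_cast h.hK
  have h5 : (W : ℝ) = 10 ^ 17 := by exact_mod_cast h.hW
  rw [h5] at h1
  linarith

theorem balB_nu (h : Hf n m W g0 k0 Kc d bl) : 49 / 10 ^ 58 ≤ d * NU n / (m : ℝ) := by
  have h1 : 49 * m ≤ 10 ^ 58 * (d * NU n) := by
    have a := h.hm
    have b := h.hn
    have c := h.hK
    unfold NU
    rcases h.hd with rfl | rfl <;> omega
  have h2 : (0 : ℝ) < m := by exact_mod_cast Nat.pos_of_ne_zero (NeZero.ne m)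
  rw [div_le_div_iff₀ (by positivity) h2]
  have : (49 : ℝ) * m ≤ 10 ^ 58 * (d * NU n) := by exact_mod_cast h1
  linarith

/-- the sum over a block of the loads outside the slices -/
theorem balB_sum (h : Hf n m W g0 k0 Kc d bl) (x : ZMod W × Fin g0 → ZMod m → ℝ)
    (av : ZMod W × Fin g0 → ℝ) (j : ZMod W)
    (hav : ∀ g, |av g - k0 * (W * (1 - d * NU n / (m : ℝ)) / (W - 2))| ≤ 4 * k0 / 10 ^ 77)
    (hx : ∀ g a, 0 ≤ x g a ∧ x g a ≤ Kc * k0) (ha : ∀ g, 0 ≤ av g ∧ av g ≤ Kc * k0)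
    (hb : ∀ g, ¬ g.2.val < Kc → |∑ a ∈ fib (univ \ slc bl g.1) bl j, x g a -
      (fib (univ \ slc bl g.1) bl j).card * av g| ≤ Kc * k0) :
    |∑ a ∈ fib univ bl j, ∑ g ∈ univ.filter (fun g => a ∈ univ \ slc bl g.1), x g a -
      (fib univ bl j).card * (W * g0 * k0 * (1 - d * NU n / (m : ℝ)))| ≤
      (fib univ bl j).card * (W * g0 * k0) * (42 / 10 ^ 78) := by
  have hf : ∀ g : ZMod W × Fin g0, fib (univ \ slc bl g.1) bl j =
      (fib univ bl j).filter fun a => a ∈ univ \ slc bl g.1 := by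
    intro g; ext a; simp [mem_fib, and_comm]
  have hW : (W : ℝ) = 10 ^ 17 := by exact_mod_cast h.hW
  set β : ℝ := ((fib univ bl j).card : ℝ) with hβ
  set c : ℝ := k0 * (W * (1 - d * NU n / (m : ℝ)) / (W - 2)) with hc
  have e1 : ∑ a ∈ fib univ bl j, ∑ g ∈ univ.filter (fun g => a ∈ univ \ slc bl g.1), x g a =
      ∑ g, ∑ a ∈ fib (univ \ slc bl g.1) bl j, x g a := by
    simp only [hf, sum_filter]
    exact sum_comm
  have e2 : ∑ g : ZMod W × Fin g0, ((fib (univ \ slc bl g.1) bl j).card : ℝ) =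
      β * ((W - 2) * g0) := by
    simp only [hf, card_filter]
    push_cast
    rw [sum_comm, hβ, ← nsmul_eq_mul, ← sum_const]
    refine sum_congr rfl fun a _ => ?_
    have a1 := balB_card1 (g0 := g0) fun w => a ∉ slc bl w
    have a2 : ((univ.filter fun w => a ∉ slc bl w).card : ℝ) + 2 = W := by
      exact_mod_cast h.card_avoid a
    rw [card_filter] at a1
    have a3 : ((∑ g : ZMod W × Fin g0, if a ∉ slc bl g.1 then 1 else 0 : ℕ) : ℝ) =
      (univ.filter fun w => a ∉ slc bl w).card * g0 := by exact_mod_cast a1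
    push_cast at a3
    simp only [mem_sdiff, mem_univ, true_and]
    rw [a3, ← a2]; ring
  have e3 : β * (W * g0 * k0 * (1 - d * NU n / (m : ℝ))) =
      ∑ g : ZMod W × Fin g0, ((fib (univ \ slc bl g.1) bl j).card : ℝ) * c := by
    rw [← sum_mul, e2, hc]
    have : (W : ℝ) - 2 ≠ 0 := by rw [hW]; norm_num
    field_simp
  have hβ0 : 0 ≤ β := Nat.cast_nonneg _
  have hK0 : (0 : ℝ) ≤ Kc * k0 := by positivity
  have e4 : ∀ g : ZMod W × Fin g0, |∑ a ∈ fib (univ \ slc bl g.1) bl j, x g a -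
      (fib (univ \ slc bl g.1) bl j).card * c| ≤ (Kc * k0 + β * (4 * k0 / 10 ^ 77)) +
        if g.2.val < Kc then β * (Kc * k0) else 0 := by
    intro g
    have b0 : ((fib (univ \ slc bl g.1) bl j).card : ℝ) ≤ β := by
      rw [hf, hβ]; exact_mod_cast card_filter_le _ _
    have b1 : (0 : ℝ) ≤ (fib (univ \ slc bl g.1) bl j).card := Nat.cast_nonneg _
    have b2 : |(fib (univ \ slc bl g.1) bl j).card * av g -
        (fib (univ \ slc bl g.1) bl j).card * c| ≤ β * (4 * k0 / 10 ^ 77) := by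
      rw [← mul_sub, abs_mul, abs_of_nonneg b1]
      exact mul_le_mul b0 (hav g) (abs_nonneg _) hβ0
    have b3 : |∑ a ∈ fib (univ \ slc bl g.1) bl j, x g a -
        (fib (univ \ slc bl g.1) bl j).card * av g| ≤ Kc * k0 +
        if g.2.val < Kc then β * (Kc * k0) else 0 := by
      split_ifs with hg
      · have c1 : 0 ≤ ∑ a ∈ fib (univ \ slc bl g.1) bl j, x g a := sum_nonneg fun a _ => (hx g a).1
        have c2 := sum_le_card_nsmul (fib (univ \ slc bl g.1) bl j) (x g) _ fun a _ => (hx g a).2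
        rw [nsmul_eq_mul] at c2
        have c3 := mul_le_mul_of_nonneg_right b0 hK0
        have c4 := mul_nonneg b1 (ha g).1
        have c5 := mul_le_mul_of_nonneg_left (ha g).2 b1
        rw [abs_le]
        constructor <;> linarith
      · rw [add_zero]; exact hb g hg
    have := abs_sub_le (∑ a ∈ fib (univ \ slc bl g.1) bl j, x g a)
      ((fib (univ \ slc bl g.1) bl j).card * av g) ((fib (univ \ slc bl g.1) bl j).card * c)
    linarith
  rw [e1, e3, ← sum_sub_distrib]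
  refine (abs_sum_le_sum_abs _ _).trans ((sum_le_sum fun g _ => e4 g).trans ?_)
  rw [sum_add_distrib, ← sum_filter, sum_const, sum_const, nsmul_eq_mul, nsmul_eq_mul, card_univ,
    Fintype.card_prod, ZMod.card, Fintype.card_fin]
  have f1 : ((univ.filter fun g : ZMod W × Fin g0 => g.2.val < Kc).card : ℝ) ≤ W * Kc := by
    exact_mod_cast balB_card2
  have f2 := mul_le_mul_of_nonneg_right f1 (mul_nonneg hβ0 hK0)
  have f3 : (10 : ℝ) ^ 95 * Kc ^ 2 ≤ g0 := by exact_mod_cast h.hg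
  have f4 := mul_le_mul_of_nonneg_right f3 (show (0 : ℝ) ≤ β * W * k0 by positivity)
  have f5 := mul_le_mul_of_nonneg_right (balB_blk h j) (show (0 : ℝ) ≤ W * g0 * k0 by positivity)
  have f6 : (0 : ℝ) ≤ β * (W * g0 * k0) := by positivity
  rw [← hβ] at f5
  push_cast
  linarith

/-- from the estimates to the demand -/
theorem balB_dem (h : Hf n m W g0 k0 Kc d bl) (Dm : ZMod m → ℕ)
    (h1 : ∀ a, |(Dm a : ℝ) - W * g0 * k0 * (d * NU n / (m : ℝ))| ≤ W * g0 * k0 / 10 ^ 76)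
    (h2 : ∀ j, |∑ a ∈ fib univ bl j, (Dm a : ℝ) -
      (fib univ bl j).card * (W * g0 * k0 * (d * NU n / (m : ℝ)))| ≤
        (fib univ bl j).card * (W * g0 * k0) / 10 ^ 76) : Dem n m W g0 k0 d bl Dm := by
  have hQ : (0 : ℝ) ≤ W * g0 * k0 := by positivity
  have g1 := mul_le_mul_of_nonneg_left (balB_nu h) hQ
  have hm0 : (0 : ℝ) < m := by exact_mod_cast Nat.pos_of_ne_zero (NeZero.ne m)
  have hW : (W : ℝ) = 10 ^ 17 := by exact_mod_cast h.hW
  constructor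
  · intro a
    have e : (W : ℝ) * (d * (g0 * k0 * NU n)) / m = W * g0 * k0 * (d * NU n / (m : ℝ)) := by ring
    rw [e]
    linarith [h1 a]
  · intro j
    push_cast
    set β : ℝ := ((fib univ bl j).card : ℝ) with hβ
    set μ : ℝ := d * (g0 * k0 * NU n) with hμ
    have hμ0 : 0 ≤ μ := by positivity
    have hβ0 : 0 ≤ β := Nat.cast_nonneg _
    have e : (W : ℝ) * g0 * k0 * (d * NU n / (m : ℝ)) = W / m * μ := by rw [hμ]; ring
    have g2 := mul_le_mul_of_nonneg_left g1 hβ0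
    have g3 := abs_le.1 (h2 j)
    rw [← hβ] at g3
    rw [e] at g2 g3
    have g4 : (W : ℝ) / m ≤ 1 / 10 ^ 78 := by
      have a2 : (m : ℝ) + 1 = 2 * n := by exact_mod_cast h.hm
      have a3 : (10 : ℝ) ^ 95 * Kc ≤ n := by exact_mod_cast h.hn
      have a4 : (1 : ℝ) ≤ Kc := by exact_mod_cast h.hK
      rw [div_le_div_iff₀ hm0 (by positivity), hW]
      linarith
    have g5 : |β * (W / m * μ) - μ| ≤ 1 / 10 ^ 78 * μ := by
      have e2 : β * (W / m * μ) - μ = (β - m / W) * (W / m * μ) := by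
        have : (W : ℝ) ≠ 0 := by rw [hW]; norm_num
        field_simp
      rw [e2, abs_mul, abs_of_nonneg (show (0 : ℝ) ≤ W / m * μ by positivity)]
      calc _ ≤ 1 * (W / m * μ) := mul_le_mul_of_nonneg_right (h.b1 j) (by positivity)
        _ ≤ _ := by rw [one_mul]; exact mul_le_mul_of_nonneg_right g4 hμ0
    have g6 := abs_le.1 g5
    have e3 : μ / (20 * W) = μ / (20 * 10 ^ 17) := by rw [hW]
    rw [e3, abs_le]
    constructor <;> linarith

/-- Proof idea. Keep `π1` on `Γ1 = {g | g.2 < Kc}`; `balance` for the other groups with `U g = univ \ slc bl g.1`, `v = u`, `w a = ∑_{g ∈ Γ1, a ∈ U g} u g (π1 g a)`, `M = Kc k0`, `s = W Kc ^ 2 k0`. Let `G = W g0`,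
`X a = ∑ g, u g (π g a) = XU a + XS a`, `XS a ≤ 2 g0 k0 / 10 ^ 60` (groups whose slice contains `a`). With `Hf.avg`, `Hf.card_avoid` the mean of `XU` over a block differs from `G k0 (1 - d ν / m)` by at most `0.5 G k0 / 10 ^ 76`
(for `g ∈ Γ1` both the values and the average are at most `Kc k0`; a block has at least `Kc 10 ^ 78` columns), so the mean of `∑ (k0 + J g) - X a` over a block differs from `Db = G k0 d ν / m ≥ 0.49 G k0 / 10 ^ 56` by at most
`G k0 / 10 ^ 76 ≤ Db / (40 W)`. Inside a block `XU` varies by at most `s`. -/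
theorem Hf.phase2 (h : Hf n m W g0 k0 Kc d bl) (u : ZMod W × Fin g0 → ZMod m → ℕ)
    (J : ZMod W × Fin g0 → ℕ) (hJ : ∀ g, 10 ^ 80 * J g ≤ k0) (h0 : ∀ g a, u g a ≤ Kc * k0)
    (h1 : ∀ g, ∀ a ∈ slc bl g.1, 10 ^ 60 * u g a ≤ k0)
    (h2 : ∀ g, ∑ a, u g a + k0 * (1 + d * NU n) = (k0 + J g) * m)
    (π1 : ZMod W × Fin g0 → Equiv.Perm (ZMod m)) (hπ : ∀ g, ∀ a ∈ slc bl g.1, π1 g a = a) :
    ∃ (π : ZMod W × Fin g0 → Equiv.Perm (ZMod m)) (Dm : ZMod m → ℕ),
      (∀ g, ∀ a ∈ slc bl g.1, π g a = a) ∧ (∀ g, g.2.val < Kc → π g = π1 g) ∧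
      (∀ a, ∑ g, u g (π g a) + Dm a = ∑ g, (k0 + J g)) ∧ Dem n m W g0 k0 d bl Dm := by
  have hW : (W : ℝ) = 10 ^ 17 := by exact_mod_cast h.hW
  have hK1 : (1 : ℝ) ≤ Kc := by exact_mod_cast h.hK
  have hu : ∀ g a, (0 : ℝ) ≤ u g a ∧ (u g a : ℝ) ≤ Kc * k0 := fun g a =>
    ⟨Nat.cast_nonneg _, by exact_mod_cast h0 g a⟩
  have hK0 : (0 : ℝ) ≤ Kc * k0 := by positivity
  obtain ⟨π2, p1, p2, p3⟩ := balance bl (univ.filter fun g : ZMod W × Fin g0 => ¬ g.2.val < Kc)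
    (fun g => univ \ slc bl g.1) (fun g _ a a' e ha => by simpa [mem_slc, e] using ha)
    (fun g a => (u g a : ℝ))
    (fun a => ∑ g ∈ (univ.filter fun g : ZMod W × Fin g0 => g.2.val < Kc).filter
      (fun g => a ∈ univ \ slc bl g.1), (u g (π1 g a) : ℝ)) (Kc * k0) (W * Kc * (Kc * k0))
    (fun g _ a => hu g a) (le_mul_of_one_le_left hK0 (by rw [hW]; linarith)) (fun a a' _ => by
      have c1 : (0 : ℝ) ≤ ∑ g ∈ (univ.filter fun g : ZMod W × Fin g0 => g.2.val < Kc).filter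
        (fun g => a' ∈ univ \ slc bl g.1), (u g (π1 g a') : ℝ) := sum_nonneg fun g _ => (hu _ _).1
      have c2 := sum_le_card_nsmul ((univ.filter fun g : ZMod W × Fin g0 => g.2.val < Kc).filter
        (fun g => a ∈ univ \ slc bl g.1)) (fun g => (u g (π1 g a) : ℝ)) _ fun g _ => (hu g _).2
      have c3 : (((univ.filter fun g : ZMod W × Fin g0 => g.2.val < Kc).filter
        (fun g => a ∈ univ \ slc bl g.1)).card : ℝ) ≤ W * Kc := by
        exact_mod_cast (card_filter_le _ _).trans balB_card2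
      have c4 := mul_le_mul_of_nonneg_right c3 hK0
      rw [nsmul_eq_mul] at c2
      linarith)
  let π : ZMod W × Fin g0 → Equiv.Perm (ZMod m) := fun g => if g.2.val < Kc then π1 g else π2 g
  have hπ1 : ∀ g, g.2.val < Kc → π g = π1 g := fun g hg => if_pos hg
  have hπ2 : ∀ g, ¬ g.2.val < Kc → π g = π2 g := fun g hg => if_neg hg
  have hfix : ∀ g, ∀ a ∈ slc bl g.1, π g a = a := by
    intro g a ha
    by_cases hg : g.2.val < Kc
    · rw [hπ1 g hg]; exact hπ g a ha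
    · rw [hπ2 g hg]; exact p1 g (mem_filter.2 ⟨mem_univ _, hg⟩) a (by simpa using ha)
  set XU : ZMod m → ℝ := fun a =>
    ∑ g ∈ univ.filter (fun g => a ∈ univ \ slc bl g.1), (u g (π g a) : ℝ) with hXU
  set XS : ZMod m → ℝ := fun a =>
    ∑ g ∈ univ.filter (fun g => ¬ a ∈ univ \ slc bl g.1), (u g (π g a) : ℝ) with hXS
  set Q : ℝ := W * g0 * k0 with hQ
  have hQ0 : 0 ≤ Q := by positivity
  have q1 : ∀ a, XU a = ∑ g ∈ (univ.filter fun g : ZMod W × Fin g0 => g.2.val < Kc).filter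
      (fun g => a ∈ univ \ slc bl g.1), (u g (π1 g a) : ℝ) +
      ∑ g ∈ (univ.filter fun g : ZMod W × Fin g0 => ¬ g.2.val < Kc).filter
      (fun g => a ∈ univ \ slc bl g.1), (u g (π2 g a) : ℝ) := by
    intro a
    rw [filter_comm, filter_comm (fun g : ZMod W × Fin g0 => ¬ g.2.val < Kc), hXU]
    simp only
    rw [← sum_filter_add_sum_filter_not _ (fun g : ZMod W × Fin g0 => g.2.val < Kc)]
    congr 1
    · exact sum_congr rfl fun g hg => by rw [hπ1 g (mem_filter.1 hg).2]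
    · exact sum_congr rfl fun g hg => by rw [hπ2 g (mem_filter.1 hg).2]
  have q2 : ∀ a a', bl a = bl a' → XU a - XU a' ≤ Q / 10 ^ 95 := by
    intro a a' e
    have f3 : (10 : ℝ) ^ 95 * Kc ^ 2 ≤ g0 := by exact_mod_cast h.hg
    have f4 := mul_le_mul_of_nonneg_right f3 (show (0 : ℝ) ≤ W * k0 by positivity)
    have := p2 a a' e
    rw [q1, q1, hQ]
    linarith
  have q3 : ∀ a, 0 ≤ XS a ∧ XS a ≤ 2 * Q / 10 ^ 77 := by
    intro a
    refine ⟨sum_nonneg fun g _ => (hu _ _).1, ?_⟩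
    have c1 := sum_le_card_nsmul (univ.filter fun g : ZMod W × Fin g0 => ¬ a ∈ univ \ slc bl g.1)
      (fun g => (u g (π g a) : ℝ)) (k0 / 10 ^ 60) fun g hg => by
        have ha : a ∈ slc bl g.1 := by simpa using hg
        have : (10 : ℝ) ^ 60 * u g a ≤ k0 := by exact_mod_cast h1 g a ha
        rw [hfix g a ha, le_div_iff₀ (by positivity)]
        linarith
    have c2 := balB_card1 (g0 := g0) fun w => ¬ a ∈ univ \ slc bl w
    have c3 : (univ.filter fun w => ¬ a ∈ univ \ slc bl w).card = 2 := by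
      have d1 := h.card_avoid a
      have d2 := card_filter_add_card_filter_not (s := univ) fun w => a ∉ slc bl w
      rw [card_univ, ZMod.card] at d2
      simp only [mem_sdiff, mem_univ, true_and]
      omega
    rw [c2, c3, nsmul_eq_mul] at c1
    push_cast at c1
    rw [hQ, hW]
    refine c1.trans (le_of_eq ?_)
    ring
  have q4 : ∀ a, ((∑ g, u g (π g a) : ℕ) : ℝ) = XU a + XS a := by
    intro a
    push_cast
    exact (sum_filter_add_sum_filter_not _ _ _).symm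
  set T : ℝ := ((∑ g, (k0 + J g) : ℕ) : ℝ) with hT
  have q5 : Q ≤ T ∧ T ≤ Q + Q / 10 ^ 80 := by
    have c1 := sum_le_card_nsmul univ (fun g => (J g : ℝ)) (k0 / 10 ^ 80) fun g _ => by
      have : (10 : ℝ) ^ 80 * J g ≤ k0 := by exact_mod_cast hJ g
      rw [le_div_iff₀ (by positivity)]
      linarith
    have c2 : (0 : ℝ) ≤ ∑ g, (J g : ℝ) := sum_nonneg fun g _ => Nat.cast_nonneg _
    rw [hT]
    push_cast
    rw [sum_add_distrib, sum_const]
    rw [nsmul_eq_mul, card_univ, Fintype.card_prod, ZMod.card, Fintype.card_fin] at c1 ⊢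
    push_cast at c1 ⊢
    rw [hQ]
    constructor <;> linarith
  have q6 : ∀ j, |∑ a ∈ fib univ bl j, (T - XU a - XS a) -
      (fib univ bl j).card * (Q * (d * NU n / (m : ℝ)))| ≤
      (fib univ bl j).card * Q * (7 / 10 ^ 77) := by
    intro j
    have c1 := balB_sum h (fun g a => (u g (π g a) : ℝ))
      (fun g => (∑ a ∈ univ \ slc bl g.1, (u g a : ℝ)) / (univ \ slc bl g.1).card) j
      (fun g => h.avg g.1 (u g) (J g) (hJ g) (h1 g) (h2 g)) (fun g a => hu g _)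
      (fun g => ⟨div_nonneg (sum_nonneg fun _ _ => Nat.cast_nonneg _) (Nat.cast_nonneg _), by
        refine div_le_of_le_mul₀ (Nat.cast_nonneg _) hK0 ?_
        rw [mul_comm, ← nsmul_eq_mul]
        exact sum_le_card_nsmul _ _ _ fun a _ => (hu g a).2⟩)
      (fun g hg => by
        simp only [hπ2 g hg]
        exact p3 g (mem_filter.2 ⟨mem_univ _, hg⟩) j)
    have c2 : 0 ≤ ∑ a ∈ fib univ bl j, XS a := sum_nonneg fun a _ => (q3 a).1
    have c3 := sum_le_card_nsmul (fib univ bl j) XS _ fun a _ => (q3 a).2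
    have hβ0 : (0 : ℝ) ≤ (fib univ bl j).card := Nat.cast_nonneg _
    have c4 := mul_le_mul_of_nonneg_left q5.1 hβ0
    have c5 := mul_le_mul_of_nonneg_left q5.2 hβ0
    have c6 := mul_nonneg hβ0 hQ0
    rw [← hQ, abs_le] at c1
    change _ ≤ ∑ a ∈ fib univ bl j, XU a - _ ∧ ∑ a ∈ fib univ bl j, XU a - _ ≤ _ at c1
    rw [nsmul_eq_mul] at c3
    rw [sum_sub_distrib, sum_sub_distrib, sum_const, nsmul_eq_mul, abs_le]
    constructor <;> linarith [c1.1, c1.2]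
  have q7 : ∀ a, |T - XU a - XS a - Q * (d * NU n / (m : ℝ))| ≤ Q / 10 ^ 76 := by
    intro a
    have hβ : (0 : ℝ) < (fib univ bl (bl a)).card := by
      have := balB_blk h (bl a)
      linarith
    have c1 := abs_le.1 (q6 (bl a))
    have c2 := sum_le_card_nsmul (fib univ bl (bl a)) (fun a' => T - XU a' - XS a')
      (T - XU a - XS a + (Q / 10 ^ 95 + 2 * Q / 10 ^ 77)) fun a' ha' => by
        linarith [q2 a a' (mem_fib.1 ha').2.symm, (q3 a).2, (q3 a').1]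
    have c3 := card_nsmul_le_sum (fib univ bl (bl a)) (fun a' => T - XU a' - XS a')
      (T - XU a - XS a - (Q / 10 ^ 95 + 2 * Q / 10 ^ 77)) fun a' ha' => by
        linarith [q2 a' a (mem_fib.1 ha').2, (q3 a).1, (q3 a').2]
    rw [nsmul_eq_mul] at c2 c3
    have c6 := mul_nonneg hβ.le hQ0
    rw [abs_le]
    constructor
    · refine le_of_mul_le_mul_left ?_ hβ
      linarith [c1.1]
    · refine le_of_mul_le_mul_left ?_ hβ
      linarith [c1.2]
  have q8 : ∀ a, ∑ g, u g (π g a) ≤ ∑ g, (k0 + J g) := by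
    intro a
    have c1 := (abs_le.1 (q7 a)).1
    have c2 := mul_le_mul_of_nonneg_left (balB_nu h) hQ0
    have c3 : ((∑ g, u g (π g a) : ℕ) : ℝ) ≤ T := by rw [q4]; linarith
    rw [hT] at c3
    exact_mod_cast c3
  have q9 : ∀ a, ((∑ g, (k0 + J g) - ∑ g, u g (π g a) : ℕ) : ℝ) = T - XU a - XS a := by
    intro a
    rw [Nat.cast_sub (q8 a), q4, ← hT]; ring
  refine ⟨π, fun a => ∑ g, (k0 + J g) - ∑ g, u g (π g a), hfix, hπ1,
    fun a => Nat.add_sub_cancel' (q8 a), balB_dem h _ (fun a => ?_) fun j => ?_⟩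
  · rw [q9]; exact q7 a
  · simp only [q9]
    have c6 := mul_nonneg (Nat.cast_nonneg (α := ℝ) (fib univ bl j).card) hQ0
    exact (q6 j).trans (by rw [← hQ]; linarith)

end Pool.Agent.MP_4c107d_co.H78

end

section

/-!
Distributing the remaining demand among the groups.
-/

set_option autoImplicit false
set_option linter.unusedSectionVars false

namespace Pool.Agent.MP_4c107d_co.H78

open Finset

variable {n m W g0 k0 Kc d : ℕ} [NeZero m] [NeZero W] {bl : ZMod m → ZMod W}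


theorem dist_even {α : Type} [Fintype α] [DecidableEq α] (S : Finset α) (hS : 0 < S.card) (k : ℕ) :
    ∃ s : α → ℕ, (∀ a, a ∉ S → s a = 0) ∧ ∑ a, s a = k ∧ (∀ a ∈ S, k / S.card ≤ s a) ∧
      ∀ a, s a ≤ k / S.card + 1 := by
  obtain ⟨T, hT, hc⟩ := exists_subset_card_eq (s := S) (n := k % S.card) (Nat.mod_lt _ hS).le
  refine ⟨fun a => (if a ∈ S then k / S.card else 0) + if a ∈ T then 1 else 0, fun a ha => ?_, ?_,
    fun a ha => ?_, fun a => ?_⟩
  · have : a ∉ T := fun h => ha (hT h)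
    simp only [ha, this, if_false, add_zero]
  · rw [sum_add_distrib, sum_ite_mem, sum_ite_mem, univ_inter, univ_inter, sum_const, sum_const,
      smul_eq_mul, smul_eq_mul, mul_one, hc]
    exact Nat.div_add_mod k S.card
  · simp only [ha, if_true]
    exact Nat.le_add_right _ _
  · dsimp only
    generalize k / S.card = q
    split_ifs <;> omega

theorem dist_par (m d : ℕ) [NeZero m] (hd : 0 < d) (r : ZMod m → ℤ) (h : (d : ℤ) ∣ ∑ a, r a) :
    ∃ x : ZMod m → ℕ, (∀ a, x a < d) ∧ ∀ a, (d : ℤ) ∣ r a + x a - x (a - 1) := by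
  haveI : NeZero d := ⟨hd.ne'⟩
  have h0 : ∑ w : ZMod m, (-(r (w + 1) : ZMod d)) = 0 := by
    rw [sum_neg_distrib, neg_eq_zero]
    have e : ∑ w : ZMod m, (r (w + 1) : ZMod d) = ∑ w : ZMod m, (r w : ZMod d) :=
      Equiv.sum_comp (Equiv.addRight (1 : ZMod m)) fun w => (r w : ZMod d)
    rw [e, ← Int.cast_sum]
    exact (ZMod.intCast_zmod_eq_zero_iff_dvd _ _).2 h
  obtain ⟨X, hX, -⟩ := antider m (fun w => -(r (w + 1) : ZMod d)) h0
  refine ⟨fun a => (X a).val, fun a => ZMod.val_lt _, fun a => ?_⟩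
  rw [← ZMod.intCast_zmod_eq_zero_iff_dvd]
  have e := hX (a - 1)
  simp only [sub_add_cancel] at e
  push_cast
  simp only [ZMod.natCast_val, ZMod.cast_id', id_eq]
  linear_combination e

theorem dist_nu (h : Hf n m W g0 k0 Kc d bl) : 10 ^ 39 ≤ NU n ∧ 10 ^ 56 * NU n ≤ n := by
  have h1 := h.hn
  have h2 := h.hK
  have h3 : 10 ^ 95 ≤ n := le_trans (Nat.le_mul_of_pos_right _ h2) h1
  refine ⟨?_, Nat.mul_div_le _ _⟩
  unfold NU
  rw [Nat.le_div_iff_mul_le (by positivity)]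
  exact le_trans (by norm_num) h3

theorem dist_g0 (h : Hf n m W g0 k0 Kc d bl) : 0 < g0 := by
  have h1 := h.hg
  have h2 := h.hK
  exact lt_of_lt_of_le (by positivity) h1

theorem dist_n (h : Hf n m W g0 k0 Kc d bl) : 10 ^ 95 ≤ n :=
  le_trans (Nat.le_mul_of_pos_right _ h.hK) h.hn

/-- the first summands: nearly even on the slices and with the right residues -/
theorem dist_s1 (h : Hf n m W g0 k0 Kc d bl) (Dm : ZMod m → ℕ)
    (hs : ∑ a, Dm a = W * g0 * (k0 * (1 + d * NU n))) :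
    ∃ s1 : ZMod W × Fin g0 → ZMod m → ℕ, (∀ g a, a ∉ slc bl g.1 → s1 g a = 0) ∧
      (∀ g, ∑ a, s1 g a = k0) ∧ (∀ g a, n * s1 g a ≤ 2 * 10 ^ 17 * k0) ∧
      ∀ a, (d : ℤ) ∣ (Dm a : ℤ) - ((∑ g, s1 g a : ℕ) : ℤ) := by
  have hn := dist_n h
  have hk := h.hk
  have hpos : ∀ w, 0 < (slc bl w).card := fun w => by
    have := (h.slc_bounds w).1
    rcases Nat.eq_zero_or_pos (slc bl w).card with e | e
    · rw [e] at this
      omega
    · exact e
  choose s0 hz hsum hlo hhi using fun w => dist_even (slc bl w) (hpos w) k0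
  have hd : 0 < d ∧ d ≤ 2 := by rcases h.hd with e | e <;> omega
  have htot : ∑ a, ∑ g : ZMod W × Fin g0, s0 g.1 a = W * g0 * k0 := by
    rw [sum_comm]
    simp only [hsum, sum_const, card_univ, Fintype.card_prod, ZMod.card, Fintype.card_fin,
      smul_eq_mul]
  obtain ⟨x, hx, hdv⟩ := dist_par m d hd.1
    (fun a => (Dm a : ℤ) - ((∑ g : ZMod W × Fin g0, s0 g.1 a : ℕ) : ℤ)) (by
      rw [sum_sub_distrib, ← Nat.cast_sum, ← Nat.cast_sum, hs, htot]
      exact ⟨W * g0 * k0 * NU n, by push_cast; ring⟩)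
  let z : Fin g0 := ⟨0, dist_g0 h⟩
  have h1 : ∀ w, 1 ≤ k0 / (slc bl w).card := fun w => by
    rw [Nat.le_div_iff_mul_le (hpos w)]
    have := (h.slc_bounds w).2
    omega
  have hle : ∀ (g : ZMod W × Fin g0) a, (if g = (bl a, z) then x a else 0) ≤ s0 g.1 a := by
    intro g a
    split_ifs with e
    · have ha : a ∈ slc bl g.1 := mem_slc.2 (Or.inl (by rw [e]))
      have := hlo g.1 a ha
      have := h1 g.1
      have := hx a
      omega
    · exact Nat.zero_le _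
  have key : ∀ (g : ZMod W × Fin g0) a,
      (s0 g.1 a - (if g = (bl a, z) then x a else 0) +
        (if g = (bl (a - 1), z) then x (a - 1) else 0)) + (if g = (bl a, z) then x a else 0) =
      s0 g.1 a + (if g = (bl (a - 1), z) then x (a - 1) else 0) := fun g a => by
    have := hle g a
    omega
  refine ⟨fun g a => s0 g.1 a - (if g = (bl a, z) then x a else 0) +
    (if g = (bl (a - 1), z) then x (a - 1) else 0), fun g a ha => ?_, fun g => ?_, fun g a => ?_,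
    fun a => ?_⟩
  · have e : g ≠ (bl (a - 1), z) := fun e => ha (by
      have := h.b2 (a - 1)
      rw [sub_add_cancel] at this
      rw [mem_slc, e]
      exact this)
    simp only [hz g.1 a ha, e, if_false, Nat.zero_sub, add_zero]
  · have e1 := sum_congr (rfl : (univ : Finset (ZMod m)) = univ) fun a _ => key g a
    rw [sum_add_distrib, sum_add_distrib (f := fun a => s0 g.1 a), hsum] at e1
    have e2 : ∑ a : ZMod m, (if g = (bl (a - 1), z) then x (a - 1) else 0) =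
        ∑ a : ZMod m, (if g = (bl a, z) then x a else 0) :=
      Equiv.sum_comp (Equiv.subRight (1 : ZMod m)) fun a => if g = (bl a, z) then x a else 0
    rw [e2] at e1
    exact Nat.add_right_cancel e1
  · have e1 : s0 g.1 a - (if g = (bl a, z) then x a else 0) +
        (if g = (bl (a - 1), z) then x (a - 1) else 0) ≤ k0 / (slc bl g.1).card + 2 := by
      have := hhi g.1 a
      have := hx (a - 1)
      split_ifs <;> omega
    have e2 := Nat.mul_le_mul_left n e1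
    have e3 := Nat.mul_le_mul_right (k0 / (slc bl g.1).card) (h.slc_bounds g.1).1
    have e4 : (slc bl g.1).card * (k0 / (slc bl g.1).card) ≤ k0 := Nat.mul_div_le _ _
    rw [mul_assoc, mul_assoc] at e3
    refine le_trans e2 ?_
    rw [mul_add]
    generalize n * (k0 / (slc bl g.1).card) = u at e3 ⊢
    generalize (slc bl g.1).card * (k0 / (slc bl g.1).card) = v at e3 e4
    omega
  · have e1 := sum_congr (rfl : (univ : Finset (ZMod W × Fin g0)) = univ) fun g _ => key g a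
    rw [sum_add_distrib, sum_add_distrib (f := fun g : ZMod W × Fin g0 => s0 g.1 a), sum_ite_eq',
      sum_ite_eq', if_pos (mem_univ _), if_pos (mem_univ _)] at e1
    have e2 := congrArg (Nat.cast : ℕ → ℤ) e1
    rw [Nat.cast_add, Nat.cast_add] at e2
    have e3 := hdv a
    dsimp only at e3 ⊢
    convert e3 using 1
    linarith

/-- Proof idea. `s0 g a ∈ {k0 / #slc, k0 / #slc + 1}` on the slice with sum `k0` (at least `2`), `r a = Dm a - ∑ g, s0 g a ≥ 1`. `antider` in `ZMod d` (or `ZMod 2`, with `X = 0` for `d = 1`) gives `X (w + 1) - X w = r (w + 1)`; with `x a = (X a).val ≤ 1`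
move `x a` units from `a` to `a + 1` in the group `(bl a, 0)`, whose slice contains both (`b2`). Then `d ∣ Dm a - ∑ g, s1 g a = d φ a`. `transport` with `cl = Prod.fst`, `f = k0 ν`, `μ = g0 k0 ν`; the `s1` of all groups sum to `W g0 k0 ≤ μ / (100 W)`. -/
theorem Hf.dist (h : Hf n m W g0 k0 Kc d bl) (Dm : ZMod m → ℕ) (hD : Dem n m W g0 k0 d bl Dm)
    (hs : ∑ a, Dm a = W * g0 * (k0 * (1 + d * NU n))) :
    ∃ s1 s2 : ZMod W × Fin g0 → ZMod m → ℕ,
      (∀ g a, a ∉ slc bl g.1 → s1 g a = 0 ∧ s2 g a = 0) ∧ (∀ g, ∑ a, s1 g a = k0) ∧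
      (∀ g, ∑ a, s2 g a = k0 * NU n) ∧ (∀ g a, n * s1 g a ≤ 2 * 10 ^ 17 * k0) ∧
      (∀ g a, 10 ^ 39 * s2 g a ≤ 3 * k0) ∧ ∀ a, ∑ g, (s1 g a + d * s2 g a) = Dm a := by
  obtain ⟨s1, hz, hr, hb, hdv⟩ := dist_s1 h Dm hs
  obtain ⟨hν, hν'⟩ := dist_nu h
  have hn := dist_n h
  have hg := dist_g0 h
  have hk := h.hk
  have hd : 1 ≤ d := by rcases h.hd with e | e <;> omega
  have hW : (W : ℝ) = 10 ^ 17 := by exact_mod_cast h.hW
  have hm : (m : ℝ) + 1 = 2 * n := by exact_mod_cast h.hm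
  have hnR : (10 : ℝ) ^ 95 ≤ n := by exact_mod_cast hn
  have hkR : (n : ℝ) ≤ k0 := by exact_mod_cast hk
  have hνR : (10 : ℝ) ^ 39 ≤ NU n := by exact_mod_cast hν
  have hν'R : (10 : ℝ) ^ 56 * NU n ≤ n := by exact_mod_cast hν'
  have hgR : (0 : ℝ) < g0 := by exact_mod_cast hg
  have hdR : (1 : ℝ) ≤ d := by exact_mod_cast hd
  have hn0 : (0 : ℝ) < n := lt_of_lt_of_le (by positivity) hnR
  have hk0 : (0 : ℝ) < k0 := lt_of_lt_of_le hn0 hkR
  have hν0 : (0 : ℝ) < NU n := lt_of_lt_of_le (by positivity) hνR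
  have hm0 : (0 : ℝ) < m := by linarith [show (1 : ℝ) ≤ 10 ^ 95 by norm_num]
  have hmn : (n : ℝ) ≤ m := by linarith [show (1 : ℝ) ≤ 10 ^ 95 by norm_num]
  have hW0 : (0 : ℝ) < W := by rw [hW]; positivity
  have hgk : (0 : ℝ) < g0 * k0 := mul_pos hgR hk0
  obtain ⟨μ, hμ⟩ : ∃ μ : ℝ, μ = g0 * k0 * NU n := ⟨_, rfl⟩
  have hμ0 : 0 < μ := by rw [hμ]; positivity
  have hpt : ∀ a, 9 / 10 * (W * (d * μ)) ≤ Dm a * m ∧ (Dm a : ℝ) * m ≤ 11 / 10 * (W * (d * μ)) := by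
    intro a
    have e := hD.pt a
    rw [← hμ, abs_le] at e
    have e0 : W * (d * μ) / m * m = W * (d * μ) := div_mul_cancel₀ _ hm0.ne'
    have e1 := mul_le_mul_of_nonneg_right e.1 hm0.le
    have e2 := mul_le_mul_of_nonneg_right e.2 hm0.le
    generalize W * (d * μ) / m = t at e0 e1 e2
    constructor <;> linarith
  have hle : ∀ a, ∑ g, s1 g a ≤ Dm a := by
    intro a
    have e1 : n * ∑ g, s1 g a ≤ W * g0 * (2 * 10 ^ 17 * k0) := by
      rw [mul_sum]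
      refine le_trans (sum_le_sum fun g _ => hb g a) (le_of_eq ?_)
      simp only [sum_const, card_univ, Fintype.card_prod, ZMod.card, Fintype.card_fin, smul_eq_mul]
    have e2 : (n : ℝ) * ((∑ g, s1 g a : ℕ) : ℝ) ≤ W * g0 * (2 * 10 ^ 17 * k0) := by
      exact_mod_cast e1
    have e3 := (hpt a).1
    have e4 : (Dm a : ℝ) * m ≤ Dm a * (2 * n) :=
      mul_le_mul_of_nonneg_left (by linarith) (Nat.cast_nonneg _)
    have e5 : μ ≤ d * μ := le_mul_of_one_le_left hμ0.le hdR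
    have e6 : g0 * k0 * (10 : ℝ) ^ 39 ≤ μ := by
      rw [hμ]
      exact mul_le_mul_of_nonneg_left hνR hgk.le
    have e7 : (n : ℝ) * ((∑ g, s1 g a : ℕ) : ℝ) ≤ n * Dm a := by
      rw [hW] at e2 e3
      linarith
    exact_mod_cast le_of_mul_le_mul_left e7 hn0
  have hφ : ∀ a, ∃ φ : ℕ, ∑ g, s1 g a + d * φ = Dm a := by
    intro a
    have e := hdv a
    rw [← Nat.cast_sub (hle a), Int.natCast_dvd_natCast] at e
    obtain ⟨φ, e⟩ := e
    have := hle a
    exact ⟨φ, by omega⟩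
  choose φ hφ using hφ
  have htot : ∑ a, ∑ g, s1 g a = W * g0 * k0 := by
    rw [sum_comm]
    simp only [hr, sum_const, card_univ, Fintype.card_prod, ZMod.card, Fintype.card_fin,
      smul_eq_mul]
  have hsum : ∑ _g : ZMod W × Fin g0, k0 * NU n = ∑ a, φ a := by
    have e := sum_congr (rfl : (univ : Finset (ZMod m)) = univ) fun a _ => hφ a
    rw [sum_add_distrib, htot, hs, ← mul_sum] at e
    simp only [sum_const, card_univ, Fintype.card_prod, ZMod.card, Fintype.card_fin, smul_eq_mul]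
    refine Nat.eq_of_mul_eq_mul_left hd (Nat.add_left_cancel (n := W * g0 * k0) ?_)
    rw [e]
    ring
  have hW2 : 2 ≤ W := by rw [h.hW]; norm_num
  obtain ⟨s2, h1, h2, h3, h4⟩ := transport W hW2 (univ : Finset (ZMod W × Fin g0))
    (univ : Finset (ZMod m)) Prod.fst bl (fun _ => k0 * NU n) φ μ hμ0 hsum (fun w => by
      have e : fib (univ : Finset (ZMod W × Fin g0)) Prod.fst w = {w} ×ˢ univ := by
        ext g
        simp only [mem_fib, mem_univ, true_and, mem_product, mem_singleton, and_true]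
      rw [e, sum_const, card_product, card_singleton, card_univ, Fintype.card_fin, one_mul,
        nsmul_eq_mul, hμ]
      push_cast
      rw [← mul_assoc, sub_self, abs_zero]
      positivity) (fun w => by
      have e := hD.blk w
      rw [← hμ, abs_le] at e
      have e1 : ∑ a ∈ fib univ bl w, ∑ g, s1 g a ≤ W * g0 * k0 := by
        rw [← htot]
        exact sum_le_sum_of_subset (subset_univ _)
      have e2 := sum_congr (rfl : fib univ bl w = fib univ bl w) fun a _ => hφ a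
      rw [sum_add_distrib, ← mul_sum] at e2
      obtain ⟨P, hP⟩ : ∃ P, P = ∑ a ∈ fib univ bl w, ∑ g, s1 g a := ⟨_, rfl⟩
      rw [← hP] at e1 e2
      rw [← e2] at e
      rw [← Nat.cast_sum]
      obtain ⟨Q, hQ⟩ : ∃ Q, Q = ∑ a ∈ fib univ bl w, φ a := ⟨_, rfl⟩
      rw [← hQ] at e ⊢
      have e3 : (P : ℝ) ≤ W * g0 * k0 := by exact_mod_cast e1
      have e4 : (0 : ℝ) ≤ P := Nat.cast_nonneg _
      have e6 : g0 * k0 * (10 : ℝ) ^ 39 ≤ μ := by
        rw [hμ]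
        exact mul_le_mul_of_nonneg_left hνR hgk.le
      push_cast at e
      rw [hW] at e e3 ⊢
      obtain ⟨e7, e8⟩ := e
      rw [abs_le]
      rcases h.hd with e9 | e9
      · subst e9
        push_cast at e7 e8
        constructor <;> linarith
      · subst e9
        push_cast at e7 e8
        constructor <;> linarith)
  refine ⟨s1, s2, fun g a ha => ⟨hz g a ha, ?_⟩, hr, fun g => h1 g (mem_univ _), hb, fun g a => ?_,
    fun a => ?_⟩
  · by_contra e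
    exact ha (mem_slc.2 (h3 g (mem_univ _) a (mem_univ _) e))
  · have e1 := h4 g (mem_univ _) a (mem_univ _)
    have e2 : (d : ℝ) * φ a ≤ Dm a := by
      have := hφ a
      exact_mod_cast (show d * φ a ≤ Dm a by omega)
    have e3 : (d : ℝ) * (φ a * m) ≤ d * (11 / 10 * (W * μ)) := by
      have := mul_le_mul_of_nonneg_right e2 hm0.le
      have := (hpt a).2
      linarith
    have e4 : (φ a : ℝ) * m ≤ 11 / 10 * (W * μ) := le_of_mul_le_mul_left e3 (by linarith)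
    have e5 : (φ a : ℝ) * n ≤ φ a * m := mul_le_mul_of_nonneg_left hmn (Nat.cast_nonneg _)
    have e6 : (φ a : ℝ) * (10 ^ 56 * NU n) ≤ φ a * n :=
      mul_le_mul_of_nonneg_left hν'R (Nat.cast_nonneg _)
    have e7 : (2 : ℝ) * ((k0 * NU n : ℕ) : ℝ) * φ a / μ ≤ 22 / 10 * k0 / 10 ^ 39 := by
      rw [div_le_iff₀ hμ0]
      push_cast
      rw [hW] at e4
      have e8 : (φ a : ℝ) * NU n * 10 ^ 39 ≤ 11 / 10 * μ := by linarith
      have e9 := mul_le_mul_of_nonneg_left e8 hk0.le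
      linarith
    have e10 : (10 : ℝ) ^ 39 * s2 g a ≤ 3 * k0 := by linarith
    exact_mod_cast e10
  · rw [sum_add_distrib, ← mul_sum, h2 a (mem_univ _)]
    exact hφ a

end Pool.Agent.MP_4c107d_co.H78

end

section

/-!
Gluing the groups.
-/

set_option autoImplicit false
set_option linter.unusedSectionVars false

namespace Pool.Agent.MP_4c107d_co.H78

open Finset

variable {n m W g0 k0 Kc d : ℕ} [NeZero m] [NeZero W] {bl : ZMod m → ZMod W}


variable {ι : Type} [DecidableEq ι] {E : ι → Gr n}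

theorem half_sum {A G : Type} [DecidableEq A] [Fintype G] [DecidableEq G] (gr : ι → G)
    (I : G → Finset ι) (J : Finset ι) (h1 : ∀ g, ∀ i ∈ I g, gr i = g)
    (h2 : ∀ i, i ∈ J ↔ i ∈ I (gr i)) (σ : G → It ι n → A) (w : It ι n → ℕ) (a : A) :
    ∑ p ∈ fib (full n J) (fun p => σ (gr p.1) p) a, w p
      = ∑ g, ∑ p ∈ fib (full n (I g)) (σ g) a, w p := by
  rw [← sum_fib _ (fun p : It ι n => gr p.1) univ fun _ _ => mem_univ _]
  refine sum_congr rfl fun g _ => sum_congr ?_ fun _ _ => rfl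
  ext p
  simp only [mem_fib, mem_full, h2]
  constructor
  · rintro ⟨⟨a1, a2⟩, rfl⟩
    exact ⟨a1, a2⟩
  · rintro ⟨a1, a2⟩
    obtain rfl := h1 g _ a1
    exact ⟨⟨a1, a2⟩, rfl⟩

theorem half_mem_nf {Hs Gs : Finset ι} {q : It ι n} :
    q ∈ nf E Hs Gs ↔ q.1 ∈ Gs ∨ (q.1 ∈ Hs ∧ dY (E q.1) q.2 ≠ 1) := by
  rw [nf_eq, mem_union, mem_full, mem_NF]

theorem half_fib {α A : Type} [DecidableEq A] (D : Finset α) (σ : α → A) (π : Equiv.Perm A)
    (a : A) : fib D (fun p => π.symm (σ p)) a = fib D σ (π a) :=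
  filter_congr fun _ _ => π.symm_apply_eq

theorem half_fix {A : Type} {U : Finset A} {π : Equiv.Perm A} (hπ : ∀ a ∈ U, π a = a) {s : A → ℕ}
    (hs : ∀ a, a ∉ U → s a = 0) (a : A) : s (π a) = s a := by
  by_cases ha : a ∈ U
  · rw [hπ a ha]
  · rw [hs a ha, hs (π a) fun h => ha (π.injective (hπ _ h) ▸ h)]

/-- gluing embeddings of disjoint families in their own rows. Proof idea: `σ p = σ' (g p.1) p` where `g i` is the group of the tree `i`; or induction with `Ok.union`. -/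
theorem half_glue {A G : Type} [DecidableEq A] [Fintype G] [DecidableEq G] [Nonempty G]
    (Hs Gs : G → Finset ι) (hd : ∀ g, Disjoint (Hs g) (Gs g))
    (hdd : ∀ g g', g ≠ g' → Disjoint (Hs g ∪ Gs g) (Hs g' ∪ Gs g')) (σ : G → It ι n → A)
    (ψ : G → It ι n → ι) (hok : ∀ g, Ok E (full n (Hs g ∪ Gs g)) (nf E (Hs g) (Gs g)) (σ g) (ψ g))
    (hr : ∀ g, ∀ q ∈ nf E (Hs g) (Gs g), ψ g q ∈ Hs g ∪ Gs g) :
    ∃ (σ' : It ι n → A) (ψ' : It ι n → ι),
      Ok E (full n (univ.biUnion Hs ∪ univ.biUnion Gs)) (nf E (univ.biUnion Hs) (univ.biUnion Gs))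
        σ' ψ' ∧
      (∀ q ∈ nf E (univ.biUnion Hs) (univ.biUnion Gs), ψ' q ∈ univ.biUnion Hs ∪ univ.biUnion Gs) ∧
      ∀ a, colL E (full n (univ.biUnion Hs ∪ univ.biUnion Gs)) σ' a
          = ∑ g, colL E (full n (Hs g ∪ Gs g)) (σ g) a ∧
        filL E (full n (univ.biUnion Hs)) σ' a = ∑ g, filL E (full n (Hs g)) (σ g) a := by
  obtain ⟨gr, hgr⟩ : ∃ gr : ι → G, ∀ g, ∀ i ∈ Hs g ∪ Gs g, gr i = g := by
    have : ∀ i, ∃ g0 : G, ∀ g, i ∈ Hs g ∪ Gs g → g0 = g := by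
      intro i
      by_cases hi : ∃ g, i ∈ Hs g ∪ Gs g
      · obtain ⟨g0, h0⟩ := hi
        exact ⟨g0, fun g hg => by_contra fun hne => disjoint_left.1 (hdd _ _ hne) h0 hg⟩
      · exact ⟨Classical.arbitrary G, fun g hg => absurd ⟨g, hg⟩ hi⟩
    choose gr hgr using this
    exact ⟨gr, fun g i hi => hgr i g hi⟩
  have _ := hd
  have hH : ∀ i, i ∈ univ.biUnion Hs ↔ i ∈ Hs (gr i) := fun i =>
    ⟨fun hi => by
      obtain ⟨g, _, hg⟩ := mem_biUnion.1 hi
      rwa [hgr g i (mem_union_left _ hg)], fun hi => mem_biUnion.2 ⟨_, mem_univ _, hi⟩⟩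
  have hG : ∀ i, i ∈ univ.biUnion Gs ↔ i ∈ Gs (gr i) := fun i =>
    ⟨fun hi => by
      obtain ⟨g, _, hg⟩ := mem_biUnion.1 hi
      rwa [hgr g i (mem_union_right _ hg)], fun hi => mem_biUnion.2 ⟨_, mem_univ _, hi⟩⟩
  have hU : ∀ i, i ∈ univ.biUnion Hs ∪ univ.biUnion Gs ↔ i ∈ Hs (gr i) ∪ Gs (gr i) := fun i => by
    rw [mem_union, mem_union, hH, hG]
  have hX : ∀ p ∈ full n (univ.biUnion Hs ∪ univ.biUnion Gs), ∀ g, gr p.1 = g →
      p ∈ full n (Hs g ∪ Gs g) := fun p hp g hg => hg ▸ mem_full.2 ((hU _).1 (mem_full.1 hp))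
  have hY : ∀ q ∈ nf E (univ.biUnion Hs) (univ.biUnion Gs), ∀ g, gr q.1 = g →
      q ∈ nf E (Hs g) (Gs g) := fun q hq g hg => by
    rw [half_mem_nf, hH, hG] at hq
    exact hg ▸ half_mem_nf.2 hq
  refine ⟨fun p => σ (gr p.1) p, fun q => ψ (gr q.1) q,
    ⟨fun p hp p' hp' e e' => ?_, fun q hq q' hq' e e' => ?_,
      fun p hp q hq p' hp' q' hq' a a' e e' => ?_⟩, fun q hq => ?_, fun a => ⟨?_, ?_⟩⟩
  · have e1 : gr p'.1 = gr p.1 := by rw [e]
    exact (hok (gr p.1)).injX p (hX p hp _ rfl) p' (hX p' hp' _ e1) e (by simpa only [e1] using e')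
  · have e1 : gr q'.1 = gr q.1 := by rw [e]
    exact (hok (gr q.1)).injY q (hY q hq _ rfl) q' (hY q' hq' _ e1) e (by simpa only [e1] using e')
  · have b1 := hgr _ _ (hr _ q (hY q hq _ rfl))
    have b2 := hgr _ _ (hr _ q' (hY q' hq' _ rfl))
    have e1 : gr q'.1 = gr q.1 := by rw [← b1, ← b2]; exact congrArg gr e'.symm
    have e2 : gr p.1 = gr q.1 := by rw [a.1]
    have e3 : gr p'.1 = gr q.1 := by rw [a'.1, e1]
    exact (hok (gr q.1)).cell p (hX p hp _ e2) q (hY q hq _ rfl) p' (hX p' hp' _ e3) q'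
      (hY q' hq' _ e1) a a' (by simpa only [e2, e3] using e) (by simpa only [e1] using e')
  · have b1 := hr _ q (hY q hq _ rfl)
    exact (hU _).2 ((hgr _ _ b1).symm ▸ b1)
  · exact half_sum gr (fun g => Hs g ∪ Gs g) _ hgr hU σ _ a
  · exact half_sum gr Hs _ (fun g i hi => hgr g i (mem_union_left _ hi)) hH σ _ a

/-- Proof idea. `phase1`, `phase2`, `dist`; compose the embedding of the group `g` with `(π g)⁻¹` (`Ok.map`); `s1 g (π g a) = s1 g a` because `π g` fixes the slice; `half_glue`. -/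
theorem half (h : Hf n m W g0 k0 Kc d bl) (Hs Gs : ZMod W × Fin g0 → Finset ι)
    (hd : ∀ g, Disjoint (Hs g) (Gs g))
    (hdd : ∀ g g', g ≠ g' → Disjoint (Hs g ∪ Gs g) (Hs g' ∪ Gs g'))
    (hk : ∀ g, (Hs g).card = k0) (hJ : ∀ g, 10 ^ 80 * (Gs g).card ≤ k0)
    (hG : ∀ g, GOut E (Hs g) (Gs g) (slc bl g.1) d Kc) :
    HOut (ZMod m) E (univ.biUnion Hs) (univ.biUnion Gs) := by
  choose u f h1 h2 h3 h4 h5 h6 using hG
  simp only [hk, ZMod.card] at h2 h3 h4 h5 h6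
  obtain ⟨π1, hπ1, hf⟩ := h.phase1 f (fun g a => (h1 g a).trans (h2 g a)) h5
  obtain ⟨π, Dm, hπ, hππ, hD, hDem⟩ := h.phase2 u (fun g => (Gs g).card) hJ h2 h3 h4 π1 hπ1
  have hs : ∑ a, Dm a = W * g0 * (k0 * (1 + d * NU n)) := by
    have a1 : ∑ a, (∑ g, u g (π g a) + Dm a) = ∑ _a : ZMod m, ∑ g, (k0 + (Gs g).card) :=
      sum_congr rfl fun a _ => hD a
    have a2 : ∑ g, (∑ a, u g a + k0 * (1 + d * NU n)) = ∑ g, (k0 + (Gs g).card) * m :=
      sum_congr rfl fun g _ => h4 g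
    rw [sum_add_distrib, sum_comm, sum_const, card_univ, ZMod.card, smul_eq_mul,
      sum_congr rfl fun g _ => Equiv.sum_comp (π g) (u g)] at a1
    rw [sum_add_distrib, sum_const, card_univ, Fintype.card_prod, ZMod.card, Fintype.card_fin,
      smul_eq_mul, ← sum_mul, mul_comm _ m, ← a1] at a2
    exact (add_left_cancel a2).symm
  obtain ⟨s1, s2, b1, b2, b3, b4, b5, b6⟩ := h.dist Dm hDem hs
  choose σ ψ c1 c2 c3 using fun g => h6 g (s1 g) (s2 g) (b1 g) (b2 g) (b3 g) (b4 g) (b5 g)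
  have hg0 : 0 < g0 :=
    lt_of_lt_of_le (mul_pos (by positivity) (pow_pos h.hK 2)) h.hg
  have : Nonempty (Fin g0) := ⟨⟨0, hg0⟩⟩
  obtain ⟨σ', ψ', d1, d2, d3⟩ := half_glue Hs Gs hd hdd (fun g p => (π g).symm (σ g p)) ψ
    (fun g => (c1 g).map _ (π g).symm.injective) c2
  refine ⟨σ', ψ', d1, d2, fun a => ⟨?_, ?_⟩⟩
  · have e1 : ∀ g, colL E (full n (Hs g ∪ Gs g)) (fun p => (π g).symm (σ g p)) a
        = u g (π g a) + (s1 g a + d * s2 g a) := fun g => by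
      rw [colL, half_fib, ← half_fix (hπ g) (fun a ha => (b1 g a ha).1) a,
        ← half_fix (hπ g) (fun a ha => (b1 g a ha).2) a, ← add_assoc]
      exact (c3 g _).1
    rw [(d3 a).1, sum_congr rfl fun g _ => e1 g, sum_add_distrib, b6, hD, ← biUnion_union,
      card_biUnion fun g _ g' _ hne => hdd g g' hne]
    exact sum_congr rfl fun g _ => by rw [card_union_of_disjoint (hd g), hk]
  · rw [(d3 a).2]
    refine (hf a).trans ((sum_le_sum fun g hg => ?_).trans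
      (sum_le_sum_of_subset (filter_subset (fun g : ZMod W × Fin g0 => g.2.val < Kc) _)))
    rw [← hππ g (mem_filter.1 hg).2, filL, half_fib]
    exact (c3 g _).2

end Pool.Agent.MP_4c107d_co.H78

end

end
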