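import Pool.Agent.MP_4c107d_co.Mg.H78_I
import Pool.Agent.MP_4c107d_co.Mg.H78_K
import Pool.Agent.MP_4c107d_co.Mg.H78_M

section

/-!
The result for one group.
-/

set_option autoImplicit false
set_option linter.unusedSectionVars false

namespace Pool.Agent.MP_4c107d_co.H78

open Finset

variable {ι A τ : Type} [DecidableEq ι] [DecidableEq A] [Fintype A] [DecidableEq τ] [Fintype τ]
  {n S d : ℕ} {E : ι → Gr n} {B : Tab τ} {P : Par} {Hs Gs : Finset ι} {D : ι → DD n τ}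

theorem group_colL (X : Finset (It ι n)) (σ : It ι n → A) (a : A) {c : ℕ}
    (hc : ∀ p ∈ X, dX (E p.1) p.2 ≤ c) : colL E X σ a ≤ (fib X σ a).card * c :=
  (sum_le_sum fun p hp => hc p (mem_fib.1 hp).1).trans (by simp)

theorem group_colL_eq (X : Finset (It ι n)) (σ : It ι n → A) (a : A) {c : ℕ}
    (hc : ∀ p ∈ X, dX (E p.1) p.2 = c) : colL E X σ a = (fib X σ a).card * c :=
  (sum_congr rfl fun p hp => hc p (mem_fib.1 hp).1).trans (by simp)

theorem group_union_le (X Y : Finset (It ι n)) (σ : It ι n → A) (a : A) :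
    colL E (X ∪ Y) σ a ≤ colL E X σ a + colL E Y σ a := by
  rw [colL, fib_union, colL, colL, ← sum_union_inter]
  exact Nat.le_add_right _ _

theorem group_NF (h : One A E B S d P Hs Gs D) {q : It ι n} (hq : q ∈ nf E Hs Gs)
    (h1 : q.1 ∈ Hs) : q ∈ NF E Hs :=
  (mem_union.1 hq).resolve_left fun h2 => disjoint_left.1 h.disj h1 (mem_full.1 h2)

theorem group_late {T : Finset (It ι n)} {q : It ι n}
    (hT : ∀ p ∈ T, adj E p q → 2 ≤ (D p.1).kX p.2) :
    (T.filter fun p => adj E p q).card ≤ (D q.1).late (E q.1) q.2 := by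
  refine card_le_card_of_injOn (t := (nY (E q.1) q.2).filter fun x => 2 ≤ (D q.1).kX x)
    (fun p => p.2) (fun p hp => ?_) fun p hp p' hp' e => ?_
  · obtain ⟨hp, a⟩ := mem_filter.1 hp
    exact mem_coe.2 (mem_filter.2 ⟨mem_nY.2 (a.1 ▸ a.2), a.1 ▸ hT p hp a⟩)
  · exact Prod.ext ((mem_filter.1 hp).2.1.trans (mem_filter.1 hp').2.1.symm) e

theorem group_γ (h : One A E B S d P Hs Gs D) : P.γ ≤ 1 / 10 ^ 100 :=
  h.par.γ_le.trans
    (one_div_le_one_div_of_le (by positivity) (pow_le_pow_right₀ (by norm_num) (by norm_num)))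

/-- the occupied cells of a row inside the slice -/
theorem group_occ (h : One A E B S d P Hs Gs D) {Sl : Finset A} {X : Finset (It ι n)}
    {σ0 : It ι n → A} {ψ : It ι n → ι} (h0 : St5 E P Hs Gs D Sl X σ0 ψ) (DX : Finset (It ι n))
    (σ : It ι n → A) (hσ : ∀ p ∈ DX, p.1 ∈ Hs → σ p ∈ Sl → 2 ≤ (D p.1).kX p.2) {r : ι}
    (hr : r ∈ Hs) :
    ((Sl.filter fun a => occ E DX (nf E Hs Gs) σ ψ a r).card : ℝ) ≤ 2 * n / 10 ^ 55 := by
  have e1 : (Sl.filter fun a => occ E DX (nf E Hs Gs) σ ψ a r)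
      ⊆ Sl.filter fun a => occ E (DX.filter fun p => σ p ∈ Sl) (nf E Hs Gs) σ ψ a r := by
    intro a ha
    obtain ⟨ha, p, hp, q, hq, h1, h2, h3⟩ := mem_filter.1 ha
    exact mem_filter.2 ⟨ha, p, mem_filter.2 ⟨hp, h2 ▸ ha⟩, q, hq, h1, h2, h3⟩
  have e2 : ∑ q ∈ fib (nf E Hs Gs) ψ r, ((DX.filter fun p => σ p ∈ Sl).filter fun p => adj E p q).card
      ≤ rowL E (full n Gs) ψ r + ∑ q ∈ fib (NF E Hs) ψ r, (D q.1).late (E q.1) q.2 := by
    rw [nf_eq, fib_union]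
    refine (Nat.le_add_right _ _).trans ((sum_union_inter).le.trans (add_le_add ?_ ?_))
    · exact sum_le_sum fun q _ => card_adjY_le _ q
    · exact sum_le_sum fun q hq => group_late fun p hp a =>
        hσ p (mem_filter.1 hp).1 (a.1 ▸ (mem_NF.1 (mem_fib.1 hq).1).1) (mem_filter.1 hp).2
  have e3 := (card_le_card e1).trans ((card_occ_row_le Sl r).trans e2)
  have e4 := h0.gst.row r hr
  have e5 : (10 : ℝ) ^ 55 * ((∑ q ∈ fib (NF E Hs) ψ r, (D q.1).late (E q.1) q.2 : ℕ) : ℝ) ≤ n := by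
    exact_mod_cast h0.late r
  have e6 := mul_le_mul_of_nonneg_right (group_γ h) (Nat.cast_nonneg (α := ℝ) n)
  have e7 := Nat.cast_nonneg (α := ℝ) n
  refine (Nat.cast_le.2 e3).trans ?_
  rw [Nat.cast_add]
  linarith

/-- most fillers hang at early vertices -/
theorem group_fill (h : One A E B S d P Hs Gs D) {i : ι} (hi : i ∈ Hs) :
    n ≤ 2 * 10 ^ 15 * ∑ x ∈ (D i).sX 0 ∪ (D i).sX 1,
      ((nX (E i) x).filter fun y => dY (E i) y = 1).card := by
  have hn := h.n_ge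
  have e1 : lvY (E i) ⊆ univ.biUnion fun x => (nX (E i) x).filter fun y => dY (E i) y = 1 := by
    intro y hy
    have h1 : dY (E i) y = 1 := (mem_filter.1 hy).2
    obtain ⟨x, hx⟩ := card_pos.1 (show 0 < (nY (E i) y).card by rw [← dY]; omega)
    exact mem_biUnion.2 ⟨x, mem_univ _, mem_filter.2 ⟨mem_nX.2 (mem_nY.1 hx), h1⟩⟩
  have e2 := (card_le_card e1).trans card_biUnion_le
  have e3 : (univ : Finset (Fin n)) ⊆ ((D i).sX 0 ∪ (D i).sX 1)
      ∪ univ.filter fun x => 2 ≤ (D i).kX x := by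
    intro x _
    simp only [mem_union, Kd.mem_sX, mem_filter, mem_univ, true_and]
    omega
  have e4 := (sum_le_sum_of_subset (f := fun x =>
    ((nX (E i) x).filter fun y => dY (E i) y = 1).card) e3).trans
    ((Nat.le_add_right _ _).trans sum_union_inter.le)
  have e5 : ∑ x ∈ univ.filter (fun x => 2 ≤ (D i).kX x),
      ((nX (E i) x).filter fun y => dY (E i) y = 1).card ≤ 3 * NU n :=
    (sum_le_sum fun x _ => card_filter_le _ _).trans
      ((h.good i hi).kd.sum_lateX (by rcases h.hd with e | e <;> omega) (by omega))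
  have e6 := h.lv i hi
  unfold NU at e5
  omega

theorem group_card (h : One A E B S d P Hs Gs D) :
    (SX Hs D 4).card = Hs.card ∧ (SX Hs D 3).card = Hs.card * NU n := by
  rw [SX, SX, card_its, card_its]
  constructor
  · rw [sum_congr rfl fun i hi => by rw [(h.good i hi).kd.x4, card_singleton]]
    simp
  · rw [sum_congr rfl fun i hi => (h.good i hi).kd.cflex]
    simp

theorem group_owner {k c : ℕ} (hc : ∀ i ∈ Hs, ((D i).sX k).card ≤ c) (i : ι) :
    ((SX Hs D k).filter fun p => p.1 = i).card ≤ c := by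
  by_cases hi : i ∈ Hs
  · exact (card_its_owner_le Hs (fun i => (D i).sX k) i).trans (hc i hi)
  · rw [filter_eq_empty_iff.2 fun p hp (e : p.1 = i) => hi (e ▸ (mem_SX.1 hp).1), card_empty]
    exact Nat.zero_le _

theorem group_sum (h : One A E B S d P Hs Gs D) (σ : It ι n → A) :
    ∑ a, colL E (full n Gs ∪ (SX Hs D 0 ∪ SX Hs D 1 ∪ SX Hs D 2)) σ a + Hs.card * (1 + d * NU n)
      = (Hs.card + Gs.card) * Fintype.card A := by
  have hn : 0 < n := by have := h.n_ge; omega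
  have e1 := sum_colL (A := A) (I := Hs ∪ Gs) (E := E)
    (fun i hi => (mem_union.1 hi).elim (h.trH i) (h.trG i)) hn σ
  unfold colL at e1 ⊢
  rw [sum_fib _ _ _ fun _ _ => mem_univ _] at e1 ⊢
  have d1 : Disjoint (full n Gs ∪ (SX Hs D 0 ∪ SX Hs D 1 ∪ SX Hs D 2)) (SX Hs D 4) := by
    simp only [disjoint_union_left]
    exact ⟨disjoint_full_its h.disj _, ⟨disjoint_SX _ _ (by omega), disjoint_SX _ _ (by omega)⟩,
      disjoint_SX _ _ (by omega)⟩
  have d2 : Disjoint (full n Gs ∪ (SX Hs D 0 ∪ SX Hs D 1 ∪ SX Hs D 2) ∪ SX Hs D 4) (SX Hs D 3) := by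
    simp only [disjoint_union_left]
    exact ⟨⟨disjoint_full_its h.disj _, ⟨disjoint_SX _ _ (by omega), disjoint_SX _ _ (by omega)⟩,
      disjoint_SX _ _ (by omega)⟩, disjoint_SX _ _ (by omega)⟩
  have e2 : full n (Hs ∪ Gs)
      = full n Gs ∪ (SX Hs D 0 ∪ SX Hs D 1 ∪ SX Hs D 2) ∪ SX Hs D 4 ∪ SX Hs D 3 := by
    rw [union_comm Hs, full_union, full_eq fun i hi => (h.good i hi).kd]
    simp only [union_assoc]
  have e3 : ∑ p ∈ SX Hs D 4, dX (E p.1) p.2 = Hs.card := by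
    rw [sum_congr rfl (g := fun _ => 1) fun p hp => by
      obtain ⟨h1, h2⟩ := mem_SX.1 hp
      rw [(h.good _ h1).kd.kX_x1.1 h2, (h.good _ h1).kd.dX_x1]]
    simp [(group_card h).1]
  have e4 : ∑ p ∈ SX Hs D 3, dX (E p.1) p.2 = Hs.card * NU n * d := by
    rw [sum_congr rfl (g := fun _ => d) fun p hp =>
      (h.good _ (mem_SX.1 hp).1).kd.flex _ (mem_SX.1 hp).2]
    simp [(group_card h).2]
  rw [e2, sum_union d2, sum_union d1, e3, e4, card_union_of_disjoint h.disj, ← h.hA] at e1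
  have e5 : Hs.card * (1 + d * NU n) = Hs.card + Hs.card * NU n * d := by ring
  rw [mul_add, mul_one] at e1
  omega

/-- Proof idea. `X = SX 0 ∪ SX 1 ∪ SX 2`, `u = colL E (full n Gs ∪ X) σ0`, `f = filL E (SX 0 ∪ SX 1) σ0`. `u ≤ 2 S k` from `gst`, `m2`, `inn`, `clo`, `Ok.card_fib_col_le`. The fillers not counted by `f` hang at late vertices (`sum_lateX`).
Given `s1, s2`: `placeLate` for `SX 4` (`ν = lr = 1` by `y1`, `c1 = n / 10 ^ 119`, `o1 = 2 n / 10 ^ 55`, `o2 = k / 10 ^ 60`, `sm = 2 * 10 ^ 17 k / n`), then for `SX 3` (`ν = NU n`, `lr = n / 10 ^ 55` by `late`, `c1 = n / 10 ^ 119 + 1`, the same `o1`,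
`o2 = 2 k / 10 ^ 60`, `sm = 3 k / 10 ^ 39`). An occupied cell of a row of `Hs` in the slice belongs to a guest or to a late vertex (`off`, `card_occ_row_le`). -/
theorem group_out (h : One A E B S d P Hs Gs D) {Sl : Finset A} {σ0 : It ι n → A} {ψ : It ι n → ι}
    (h0 : St5 E P Hs Gs D Sl (SX Hs D 0 ∪ SX Hs D 1 ∪ SX Hs D 2) σ0 ψ)
    (h1 : ∀ a ∈ Sl,
      10 ^ 60 * colL E (full n Gs ∪ (SX Hs D 0 ∪ SX Hs D 1 ∪ SX Hs D 2)) σ0 a ≤ Hs.card) :
    GOut E Hs Gs Sl d (2 * S) := by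
  have hn := h.n_ge
  have hkn := h.k_ge
  have hd2 : d ≤ 2 := by rcases h.hd with e | e <;> omega
  have hkr : (0 : ℝ) < Hs.card := by exact_mod_cast (by omega : 0 < Hs.card)
  have hnr : (10 : ℝ) ^ 100 ≤ n := by exact_mod_cast (by omega : 10 ^ 100 ≤ n)
  have hn0 : (0 : ℝ) < n := lt_of_lt_of_le (by positivity) hnr
  set X := SX Hs D 0 ∪ SX Hs D 1 ∪ SX Hs D 2 with hX
  set DX := full n Gs ∪ X with hDX
  have hG : ∀ p ∈ full n Gs, p.1 ∉ Hs := fun p hp h1 => disjoint_left.1 h.disj h1 (mem_full.1 hp)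
  have hXk : ∀ p ∈ DX, p.1 ∈ Hs → σ0 p ∈ Sl → p ∈ SX Hs D 2 := fun p hp h1 h2 =>
    (mem_union.1 ((mem_union.1 hp).resolve_left fun h3 => hG p h3 h1)).resolve_left
      fun h3 => h0.off p h3 h2
  have hsub : SX Hs D 0 ∪ SX Hs D 1 ⊆ DX := subset_union_left.trans subset_union_right
  have d1 : Disjoint DX (SX Hs D 4) := by
    simp only [hDX, hX, disjoint_union_left]
    exact ⟨disjoint_full_its h.disj _, ⟨disjoint_SX _ _ (by omega), disjoint_SX _ _ (by omega)⟩,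
      disjoint_SX _ _ (by omega)⟩
  have d2 : Disjoint (DX ∪ SX Hs D 4) (SX Hs D 3) := by
    simp only [hDX, hX, disjoint_union_left]
    exact ⟨⟨disjoint_full_its h.disj _, ⟨disjoint_SX _ _ (by omega), disjoint_SX _ _ (by omega)⟩,
      disjoint_SX _ _ (by omega)⟩, disjoint_SX _ _ (by omega)⟩
  have e2 : full n (Hs ∪ Gs) = DX ∪ SX Hs D 4 ∪ SX Hs D 3 := by
    rw [union_comm Hs, full_union, full_eq fun i hi => (h.good i hi).kd]
    simp only [hDX, hX, union_assoc]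
  have hpos : ∀ p ∈ DX ∪ SX Hs D 4, 1 ≤ dX (E p.1) p.2 := by
    intro p hp
    have : p ∈ full n (Hs ∪ Gs) := e2 ▸ mem_union_left _ hp
    exact ((mem_union.1 (mem_full.1 this)).elim (h.trH _) (h.trG _)).dX_pos _
  have deg4 : ∀ p ∈ SX Hs D 4, dX (E p.1) p.2 = 1 := by
    intro p hp
    obtain ⟨h1, h2⟩ := mem_SX.1 hp
    rw [(h.good _ h1).kd.kX_x1.1 h2, (h.good _ h1).kd.dX_x1]
  have deg3 : ∀ p ∈ SX Hs D 3, dX (E p.1) p.2 = d := fun p hp =>
    (h.good _ (mem_SX.1 hp).1).kd.flex _ (mem_SX.1 hp).2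
  have own2 : ∀ i, (((SX Hs D 2).filter fun p => p.1 = i).card : ℝ) ≤ n / 10 ^ 119 := by
    intro i
    have e1 := group_owner (Hs := Hs) (D := D) (k := 2) (c := n / 10 ^ 119)
      (fun i hi => by have := (h.good i hi).kd.cclo; omega) i
    exact (Nat.cast_le.2 e1).trans (Nat.cast_div_le.trans (by norm_num))
  have own4 : ∀ i, ((SX Hs D 4).filter fun p => p.1 = i).card ≤ 1 :=
    group_owner fun i hi => by rw [(h.good i hi).kd.x4, card_singleton]
  have hu : ∀ a ∈ Sl, (colL E DX σ0 a : ℝ) ≤ Hs.card / 10 ^ 60 := by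
    intro a ha
    rw [le_div_iff₀' (by positivity)]
    exact_mod_cast h1 a ha
  refine ⟨colL E DX σ0, filL E (SX Hs D 0 ∪ SX Hs D 1) σ0, fun a => ?_, fun a => ?_, h1,
    group_sum h σ0, ?_, fun s1 s2 hs0 hs1 hs2 hs3 hs4 => ?_⟩
  · exact (sum_le_sum fun p _ => card_filter_le _ _).trans (colL_mono (E := E) hsub a)
  · have c0 : colL E (full n Gs) σ0 a ≤ Hs.card := by
      have e1 := h0.gst.col a
      have e3 := mul_le_mul_of_nonneg_right (group_γ h) hkr.le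
      have : (colL E (full n Gs) σ0 a : ℝ) ≤ Hs.card := by linarith
      exact_mod_cast this
    have c1 : colL E (SX Hs D 1) σ0 a ≤ Hs.card * S :=
      (group_colL _ _ _ fun p hp => (h.good _ (mem_SX.1 hp).1).kd.inn _ (mem_SX.1 hp).2).trans
        (Nat.mul_le_mul_right _ (h0.ok.card_fib_col_le (subset_union_right.trans hsub)
          (fun p hp => (mem_SX.1 hp).1) a))
    have c2 : colL E (SX Hs D 2) σ0 a ≤ Hs.card * 10 ^ 37 :=
      (group_colL _ _ _ fun p hp => (h.good _ (mem_SX.1 hp).1).kd.clo _ (mem_SX.1 hp).2).trans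
        (Nat.mul_le_mul_right _ (h0.ok.card_fib_col_le (subset_union_right.trans subset_union_right)
          (fun p hp => (mem_SX.1 hp).1) a))
    have c3 := h0.m2 a
    have c4 := group_union_le (E := E) (full n Gs) X σ0 a
    have c5 := group_union_le (E := E) (SX Hs D 0 ∪ SX Hs D 1) (SX Hs D 2) σ0 a
    have c6 := group_union_le (E := E) (SX Hs D 0) (SX Hs D 1) σ0 a
    have c7 := Nat.mul_le_mul_left Hs.card h.par.hS
    have c8 : 2 * S * Hs.card = 2 * (Hs.card * S) := by ring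
    rw [← hX] at c5
    rw [← hDX] at c4
    omega
  · unfold filL
    rw [sum_fib _ _ _ fun p hp => mem_sdiff.2 ⟨mem_univ _, h0.off p hp⟩]
    have e1 : SX Hs D 0 ∪ SX Hs D 1 = its Hs fun i => (D i).sX 0 ∪ (D i).sX 1 := by
      ext p
      simp only [mem_union, mem_SX, mem_its, Kd.mem_sX, and_or_left]
    rw [e1, sum_its, mul_sum, mul_comm n, ← smul_eq_mul, ← sum_const]
    exact sum_le_sum fun i hi => group_fill h hi
  have hrow : ∀ k, ∀ p ∈ SX Hs D k, ∀ q ∈ nf E Hs Gs, adj E p q → q ∈ NF E Hs :=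
    fun k p hp q hq a => group_NF h hq (a.1 ▸ (mem_SX.1 hp).1)
  have b1 : ∀ a, (s1 a : ℝ) ≤ 2 * 10 ^ 17 * Hs.card / n := by
    intro a
    rw [le_div_iff₀' hn0]
    exact_mod_cast hs3 a
  have b2 : (Hs.card : ℝ) / n ≤ Hs.card / 10 ^ 100 :=
    div_le_div_of_nonneg_left hkr.le (by positivity) hnr
  obtain ⟨σ1, r1, r2, r3, r4⟩ := placeLate E DX (nf E Hs Gs) (SX Hs D 4) σ0 ψ h0.ok d1 Sl s1
    (by rw [(group_card h).1, ← hs1]
        exact sum_subset (subset_univ _) fun a _ ha => (hs0 a ha).1)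
    1 (n / 10 ^ 119) 1 (2 * n / 10 ^ 55) (Hs.card / 10 ^ 60) (2 * 10 ^ 17 * Hs.card / n)
    (fun i => by exact_mod_cast own4 i)
    (fun p hp => by
      refine le_trans (Nat.cast_le.2 (card_le_card fun p' hp' => ?_)) (own2 p.1)
      obtain ⟨h2, h3, h4⟩ := mem_filter.1 hp'
      exact mem_filter.2 ⟨hXk p' h2 (h3 ▸ (mem_SX.1 hp).1) h4, h3⟩)
    (fun p hp => by rw [deg4 p hp]; omega)
    (fun r => by
      have key : ∀ p ∈ (SX Hs D 4).filter fun p => ∃ q ∈ nf E Hs Gs, adj E p q ∧ ψ q = r,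
          p.1 ∈ Hs ∧ p.2 = (D p.1).x1 ∧ ψ (p.1, (D p.1).y1) = r := by
        intro p hp
        obtain ⟨hp, q, -, a, e⟩ := mem_filter.1 hp
        obtain ⟨h2, h3⟩ := mem_SX.1 hp
        have h4 := (h.good _ h2).kd.kX_x1.1 h3
        have h5 : q.2 ∈ nX (E p.1) (D p.1).x1 := mem_nX.2 (h4 ▸ a.2)
        rw [(h.good _ h2).kd.n1, mem_singleton] at h5
        exact ⟨h2, h4, by rw [← h5, a.1]; exact e⟩
      have : ((SX Hs D 4).filter fun p => ∃ q ∈ nf E Hs Gs, adj E p q ∧ ψ q = r).card ≤ 1 := by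
        refine card_le_one.2 fun p hp p' hp' => ?_
        obtain ⟨k1, k2, k3⟩ := key p hp
        obtain ⟨k4, k5, k6⟩ := key p' hp'
        have e := h0.y1 _ k1 _ k4 (k3.trans k6.symm)
        exact Prod.ext e (by rw [k2, k5, e])
      exact_mod_cast this)
    (fun p hp q hq a => group_occ h h0 DX σ0
      (fun p hp h2 h3 => (mem_SX.1 (hXk p hp h2 h3)).2.ge) (h0.inH q (hrow _ p hp q hq a)))
    (by positivity) (fun p hp => hpos p (mem_union_left _ hp)) hu (fun a _ => b1 a)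
    (by
      rw [(group_card h).1]
      have e1 : (2 * (1 + 2 * 1) + ((n : ℝ) / 10 ^ 119 + 2 * (2 * n / 10 ^ 55)) + 1)
          * (2 * 10 ^ 17 * Hs.card / n) = 14 * 10 ^ 17 * (Hs.card / n)
            + (1 / 10 ^ 119 + 4 / 10 ^ 55) * (2 * 10 ^ 17) * Hs.card := by
        field_simp
        ring
      rw [e1]
      linarith)
  have hc1 : ∀ a, colL E (DX ∪ SX Hs D 4) σ1 a = colL E DX σ0 a + s1 a := by
    intro a
    rw [colL_union d1, colL_congr r1, group_colL_eq _ _ _ deg4, mul_one]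
    by_cases ha : a ∈ Sl
    · rw [r4 a ha]
    · rw [(hs0 a ha).1, eq_empty_of_forall_notMem (s := fib (SX Hs D 4) σ1 a) fun p hp =>
        ha ((mem_fib.1 hp).2 ▸ r3 p (mem_fib.1 hp).1), card_empty]
  have hXk' : ∀ p ∈ DX ∪ SX Hs D 4, p.1 ∈ Hs → σ1 p ∈ Sl → p ∈ SX Hs D 2 ∨ p ∈ SX Hs D 4 :=
    fun p hp h2 h3 => (mem_union.1 hp).imp_left fun h4 => hXk p h4 h2 (r1 p h4 ▸ h3)
  have nu1 : (NU n : ℝ) ≤ n / 10 ^ 56 := Nat.cast_div_le.trans (by norm_num)
  have nu2 : (n : ℝ) ≤ 2 * 10 ^ 56 * NU n := by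
    have : n ≤ 2 * 10 ^ 56 * NU n := by unfold NU; omega
    exact_mod_cast this
  obtain ⟨σ2, t1, t2, t3, t4⟩ := placeLate E (DX ∪ SX Hs D 4) (nf E Hs Gs) (SX Hs D 3) σ1 ψ r2 d2
    Sl s2
    (by rw [(group_card h).2, ← hs2]
        exact sum_subset (subset_univ _) fun a _ ha => (hs0 a ha).2)
    (NU n) (n / 10 ^ 119 + 1) (n / 10 ^ 55) (2 * n / 10 ^ 55) (2 * Hs.card / 10 ^ 60)
    (3 * Hs.card / 10 ^ 39)
    (fun i => Nat.cast_le.2 (group_owner (fun i hi => (h.good i hi).kd.cflex.le) i))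
    (fun p hp => by
      have e1 : ((DX ∪ SX Hs D 4).filter fun p' => p'.1 = p.1 ∧ σ1 p' ∈ Sl)
          ⊆ ((SX Hs D 2).filter fun p' => p'.1 = p.1) ∪ (SX Hs D 4).filter fun p' => p'.1 = p.1 := by
        intro p' hp'
        obtain ⟨h2, h3, h4⟩ := mem_filter.1 hp'
        rcases hXk' p' h2 (h3 ▸ (mem_SX.1 hp).1) h4 with h5 | h5
        · exact mem_union_left _ (mem_filter.2 ⟨h5, h3⟩)
        · exact mem_union_right _ (mem_filter.2 ⟨h5, h3⟩)
      refine (Nat.cast_le.2 ((card_le_card e1).trans (card_union_le _ _))).trans ?_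
      rw [Nat.cast_add]
      exact add_le_add (own2 _) (by exact_mod_cast own4 _))
    (fun p hp => by rw [deg3 p hp]; exact hd2)
    (fun r => by
      have e1 : ((SX Hs D 3).filter fun p => ∃ q ∈ nf E Hs Gs, adj E p q ∧ ψ q = r)
          ⊆ (fib (NF E Hs) ψ r).biUnion fun q => (SX Hs D 3).filter fun p => adj E p q := by
        intro p hp
        obtain ⟨hp, q, hq, a, e⟩ := mem_filter.1 hp
        exact mem_biUnion.2 ⟨q, mem_fib.2 ⟨hrow _ p hp q hq a, e⟩, mem_filter.2 ⟨hp, a⟩⟩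
      have e3 := (card_le_card e1).trans (card_biUnion_le.trans (sum_le_sum fun q _ =>
        group_late (D := D) fun p hp _ => by rw [(mem_SX.1 hp).2]; omega))
      rw [le_div_iff₀' (by positivity)]
      exact_mod_cast (Nat.mul_le_mul_left _ e3).trans (h0.late r))
    (fun p hp q hq a => group_occ h h0 _ σ1
      (fun p hp h2 h3 => by
        rcases hXk' p hp h2 h3 with h4 | h4 <;> rw [(mem_SX.1 h4).2] <;> omega)
      (h0.inH q (hrow _ p hp q hq a)))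
    (by positivity) hpos
    (fun a ha => by
      rw [hc1, Nat.cast_add]
      have e1 := hu a ha
      have e3 := b1 a
      rw [mul_div_assoc] at e3
      linarith)
    (fun a _ => by
      rw [le_div_iff₀' (by positivity)]
      exact_mod_cast hs4 a)
    (by
      rw [(group_card h).2, Nat.cast_mul]
      have e1 : 2 * ((NU n : ℝ) + 2 * (n / 10 ^ 55)) + (n / 10 ^ 119 + 1 + 2 * (2 * n / 10 ^ 55)) + 1
          ≤ 10 * n / 10 ^ 55 := by linarith
      have e3 : (NU n : ℝ) + n / 10 ^ 55 ≤ 2 * n / 10 ^ 55 := by linarith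
      have e4 := mul_le_mul_of_nonneg_right e1 (by positivity : (0 : ℝ) ≤ 3 * Hs.card / 10 ^ 39)
      have e5 := mul_le_mul_of_nonneg_left e3 (by positivity : (0 : ℝ) ≤ 2 * Hs.card / 10 ^ 60)
      have e6 := mul_le_mul_of_nonneg_left nu2 hkr.le
      have e7 := mul_pos hkr hn0
      nlinarith)
  refine ⟨σ2, ψ, e2 ▸ t2, fun q hq => ?_, fun a => ⟨?_, ?_⟩⟩
  · rcases mem_union.1 hq with hq | hq
    · exact h0.gst.rows q hq
    · exact mem_union_left _ (h0.inH q hq)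
  · rw [e2, colL_union d2, colL_congr t1, hc1, group_colL_eq _ _ _ deg3, mul_comm d]
    by_cases ha : a ∈ Sl
    · rw [t4 a ha]
    · rw [(hs0 a ha).2, eq_empty_of_forall_notMem (s := fib (SX Hs D 3) σ2 a) fun p hp =>
        ha ((mem_fib.1 hp).2 ▸ t3 p (mem_fib.1 hp).1), card_empty]
  · refine sum_le_sum_of_subset fun p hp => ?_
    obtain ⟨h2, h3⟩ := mem_fib.1 hp
    refine mem_fib.2 ⟨mem_full.2 ?_, ?_⟩
    · rcases mem_union.1 h2 with h4 | h4 <;> exact (mem_SX.1 h4).1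
    · rw [t1 p (mem_union_left _ (hsub h2)), r1 p (hsub h2), h3]


theorem group (h : One A E B S d P Hs Gs D) (Sl : Finset A) (h1 : n ≤ 10 ^ 17 * Sl.card)
    (h2 : 10 ^ 16 * Sl.card ≤ n) : GOut E Hs Gs Sl d (2 * S) := by
  obtain ⟨AZ, U, col, hL⟩ := layout h Sl h2
  obtain ⟨σ1, ψ1, hok, hg⟩ := guests h
  obtain ⟨σ2, ψ2, h2'⟩ := skelP h AZ hL.cAZ hok hg
  obtain ⟨σ3, ψ3, h3⟩ := skelR h AZ hL.cAZ h2'
  obtain ⟨ψ4, h4⟩ := roots h h3
  obtain ⟨σ5, ψ5, h5⟩ := fibB h hL h4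
  obtain ⟨σ6, h6, h7⟩ := closers h h1 h5
  exact group_out h h6 h7

end Pool.Agent.MP_4c107d_co.H78

end

section

/-!
Trees with many leaves among the row vertices.
-/

set_option autoImplicit false
set_option linter.unusedSectionVars false

namespace Pool.Agent.MP_4c107d_co.H78

open Finset

theorem exists_DD {n S d H : ℕ} {τ : Type} [DecidableEq τ] {B : Tab τ} (hB : B.Univ S) {E : Gr n}
    (h : Tr E) (hS : 10 ^ 120 ≤ S) (hn : S ≤ n) (hd : d = 1 ∨ d = 2)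
    (hq : n ≤ 4 * (univ.filter fun x => dX E x = d).card) {η : ℝ} (hη : 0 < η) (hη1 : η ≤ 1)
    (hH : 10 ≤ η * H) : ∃ D : DD n τ, D.Good E B S d H η := by
  obtain ⟨D, hD⟩ := exists_Kd h hS hn hd hq
  obtain ⟨lX, lY, ty, h1⟩ := exists_lab hB D hD (hS.trans hn)
  obtain ⟨PX, PY, idx, h2⟩ := exists_big (τ := τ) D h hD hη hη1 hH
  exact ⟨DD.mk D lX lY ty PX PY idx, hD, h1 _ _ _, h2 _ _ _⟩

theorem caseI_log {a ε x : ℝ} (ha : 0 ≤ a) (hε : 0 < ε) (hx : 0 ≤ x) (h : 4 * a / ε ^ 2 ≤ x) :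
    Real.log (a * x) ≤ ε * x := by
  rcases (mul_nonneg ha hx).eq_or_lt with h0 | h0
  · rw [← h0, Real.log_zero]; positivity
  · have h1 : Real.log (a * x) = 2 * Real.log (√(a * x)) := by
      rw [Real.log_sqrt h0.le]; ring
    have h2 := Real.log_le_sub_one_of_pos (Real.sqrt_pos.2 h0)
    have h3 : √(a * x) ≤ ε * x / 2 := by
      rw [Real.sqrt_le_iff]
      refine ⟨by positivity, ?_⟩
      rw [div_le_iff₀ (by positivity)] at h
      nlinarith [mul_le_mul_of_nonneg_right h hx]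
    linarith

theorem caseI_halves {ι G : Type} [DecidableEq ι] [Fintype G] [DecidableEq G]
    (Hs Gs : Bool × G → Finset ι) (hd : ∀ g, Disjoint (Hs g) (Gs g))
    (hdd : ∀ g g', g ≠ g' → Disjoint (Hs g ∪ Gs g) (Hs g' ∪ Gs g')) :
    (∀ b, Disjoint (univ.biUnion fun g => Hs (b, g)) (univ.biUnion fun g => Gs (b, g))) ∧
    Disjoint ((univ.biUnion fun g => Hs (false, g)) ∪ univ.biUnion fun g => Gs (false, g))
      ((univ.biUnion fun g => Hs (true, g)) ∪ univ.biUnion fun g => Gs (true, g)) ∧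
    ((univ.biUnion fun g => Hs (false, g)) ∪ univ.biUnion fun g => Gs (false, g)) ∪
      ((univ.biUnion fun g => Hs (true, g)) ∪ univ.biUnion fun g => Gs (true, g))
      = univ.biUnion fun g => Hs g ∪ Gs g := by
  refine ⟨fun b => ?_, ?_, ?_⟩
  · rw [disjoint_left]
    intro i h1 h2
    simp only [mem_biUnion, mem_univ, true_and] at h1 h2
    obtain ⟨g, h1⟩ := h1
    obtain ⟨g', h2⟩ := h2
    by_cases e : g = g'
    · subst e; exact disjoint_left.1 (hd _) h1 h2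
    · exact disjoint_left.1 (hdd (b, g) (b, g') (by simpa using e)) (mem_union_left _ h1)
        (mem_union_right _ h2)
  · rw [disjoint_left]
    intro i h1 h2
    have e1 : ∃ g, i ∈ Hs (false, g) ∪ Gs (false, g) := by
      simpa only [mem_union, mem_biUnion, mem_univ, true_and, exists_or] using h1
    have e2 : ∃ g, i ∈ Hs (true, g) ∪ Gs (true, g) := by
      simpa only [mem_union, mem_biUnion, mem_univ, true_and, exists_or] using h2
    obtain ⟨g, h1⟩ := e1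
    obtain ⟨g', h2⟩ := e2
    exact disjoint_left.1 (hdd (false, g) (true, g') (by simp)) h1 h2
  · ext i
    simp only [mem_union, mem_biUnion, mem_univ, true_and, Prod.exists, Bool.exists_bool, exists_or]
    tauto

theorem caseI_aux (d : ℕ) (hd : d = 1 ∨ d = 2) (S W : ℕ) [NeZero W] (hS : 10 ^ 120 ≤ S)
    (hW : W = 10 ^ 17) :
    ∃ C : ℕ, ∀ (ι : Type) [DecidableEq ι] (n m : ℕ) [NeZero m] (E : ι → Gr n) (I R : Finset ι),
      m + 1 = 2 * n → C ≤ n → C * n ≤ I.card → R ⊆ I → C * (I \ R).card ≤ I.card →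
      (∀ i ∈ I, Tr (E i)) →
      (∀ i ∈ R, n ≤ 10 ^ 15 * (lvY (E i)).card ∧
        n ≤ 4 * (univ.filter fun x => dX (E i) x = d).card) →
      Pack (ZMod m) E I := by
  obtain ⟨M, B, hB⟩ := exists_tab S
  obtain ⟨P, hP⟩ := exists_par M S hS
  obtain ⟨Mp, hpr⟩ := profile (Fin M ⊕ Fin P.H × (Fin M ⊕ Fin 3)) hP.ηrpos
  obtain ⟨K', hK1, hK2⟩ : ∃ K' : ℕ, P.K ≤ K' ∧ S.factorial * 10 ^ 17 ∣ K' :=
    ⟨P.K * (S.factorial * 10 ^ 17), Nat.le_mul_of_pos_right _ (by positivity), Dvd.intro_left _ rfl⟩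
  have hγ := hP.γpos
  have he := hP.e1pos
  obtain ⟨ζ, hζ⟩ : ∃ ζ : ℝ, ζ = P.γ ^ 3 / 10 ^ 6 := ⟨_, rfl⟩
  have hζ0 : 0 < ζ := by rw [hζ]; positivity
  have hγ1 : P.γ ≤ 1 := hP.γ_le'.trans (by norm_num)
  have hζ1 : ζ ≤ 1 := by
    have := pow_le_one₀ hγ.le hγ1 (n := 3)
    rw [hζ]; linarith
  obtain ⟨gmin, hg1, hg2⟩ : ∃ gmin : ℕ, 10 ^ 95 * (2 * S) ^ 2 ≤ gmin ∧ 6 ≤ ζ * gmin := by
    refine ⟨10 ^ 95 * (2 * S) ^ 2 + ⌈6 / ζ⌉₊, Nat.le_add_right _ _, ?_⟩
    have h1 := Nat.le_ceil (6 / ζ)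
    rw [div_le_iff₀ hζ0] at h1
    have h2 : (0 : ℝ) ≤ ((10 ^ 95 * (2 * S) ^ 2 : ℕ) : ℝ) := Nat.cast_nonneg _
    rw [Nat.cast_add, mul_add, mul_comm ζ ((⌈6 / ζ⌉₊ : ℕ) : ℝ)]
    exact h1.trans (le_add_of_nonneg_left (mul_nonneg hζ0.le h2))
  obtain ⟨C, c1, c2, c3, c4, c5, c6⟩ : ∃ C : ℕ, 8 ≤ ζ * C ∧ 8 * ((Mp : ℝ) * K') ≤ ζ * C ∧
      2 * (2 * W) * gmin * K' ≤ C ∧ 10 ^ 4 ≤ P.γ ^ 4 * C ∧ 10 ^ 95 * (2 * S) ≤ C ∧
      4 * ((K' : ℝ) * M) / (P.e1 / 10 ^ 20) ^ 2 ≤ C := by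
    obtain ⟨C1, h1⟩ := exists_nat_ge (8 / ζ + 8 * ((Mp : ℝ) * K') / ζ + 10 ^ 4 / P.γ ^ 4
      + 4 * ((K' : ℝ) * M) / (P.e1 / 10 ^ 20) ^ 2)
    have a1 : 0 ≤ 8 / ζ := by positivity
    have a2 : 0 ≤ 8 * ((Mp : ℝ) * K') / ζ := by positivity
    have a3 : 0 ≤ 10 ^ 4 / P.γ ^ 4 := by positivity
    have a4 : 0 ≤ 4 * ((K' : ℝ) * M) / (P.e1 / 10 ^ 20) ^ 2 := by positivity
    obtain ⟨C, h2, h3, h4⟩ : ∃ C : ℕ, C1 ≤ C ∧ 2 * (2 * W) * gmin * K' ≤ C ∧ 10 ^ 95 * (2 * S) ≤ C :=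
      ⟨C1 + 2 * (2 * W) * gmin * K' + 10 ^ 95 * (2 * S), by omega, by omega, by omega⟩
    have h5 : (C1 : ℝ) ≤ C := by exact_mod_cast h2
    refine ⟨C, ?_, ?_, h3, ?_, h4, by linarith⟩
    · rw [mul_comm, ← div_le_iff₀ hζ0]; linarith
    · rw [mul_comm ζ, ← div_le_iff₀ hζ0]; linarith
    · rw [mul_comm, ← div_le_iff₀ (by positivity)]; linarith
  refine ⟨C, ?_⟩
  intro ι _ n m _ E I R hm hn hk hR hj htr hl
  have hnC : (C : ℝ) ≤ n := by exact_mod_cast hn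
  have hSn : S ≤ n := by omega
  have hn0 : 0 < n := by omega
  have hC2 : 2 ≤ C := by omega
  have hKg := hP.K_ge'
  have hK0 : 1 ≤ K' := by omega
  have hRne : R.Nonempty := by
    rw [nonempty_iff_ne_empty]
    rintro rfl
    rw [sdiff_empty] at hj
    have h1 : 0 < I.card := lt_of_lt_of_le (Nat.mul_pos (by omega) hn0) hk
    have h2 := Nat.mul_le_mul_right I.card hC2
    omega
  have hex : ∀ i ∈ R, ∃ D : DD n (Fin M), D.Good (E i) B S d P.H P.η := fun i hi =>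
    exists_DD hB (htr i (hR hi)) hS hSn hd (hl i hi).2 hP.ηpos (hP.η_le'.trans (by norm_num)) hP.hH
  have hex' : ∀ i, ∃ D : DD n (Fin M), i ∈ R → D.Good (E i) B S d P.H P.η := by
    intro i
    by_cases hi : i ∈ R
    · obtain ⟨D, hD⟩ := hex i hi
      exact ⟨D, fun _ => hD⟩
    · obtain ⟨i0, h0⟩ := hRne
      obtain ⟨D, -⟩ := hex i0 h0
      exact ⟨D, fun h => absurd h hi⟩
  choose D hD using hex'
  obtain ⟨pr, hpr'⟩ := hpr ι n (fun i z => if i ∈ R then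
      Sum.elim (D i).N (fun p => (D i).PV (E i) p.1.val p.2) z else 0) hn0 (by
    intro i z
    split_ifs with hi
    · rcases z with c | p
      · exact (D i).N_le c
      · exact (DD.PV_le (hD i hi).kd (hD i hi).big _ _).trans (by omega)
    · exact Nat.zero_le _)
  have hkI : (C : ℝ) * n ≤ I.card := by exact_mod_cast hk
  have hjI : (C : ℝ) * (I \ R).card ≤ I.card := by exact_mod_cast hj
  have hn1 : (1 : ℝ) ≤ n := by exact_mod_cast hn0
  have hK1' : (1 : ℝ) ≤ K' := by exact_mod_cast hK0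
  have hkk : ((K' * n : ℕ) : ℝ) = K' * n := Nat.cast_mul _ _
  have hW0 : 0 < W := Nat.pos_of_ne_zero (NeZero.ne W)
  obtain ⟨g0, hg0, hpart⟩ := partition I R hR pr (K' * n) (2 * W) gmin ζ hζ0 hζ1 (by omega)
    (by rw [hkk]; linarith only [c1, mul_le_mul_of_nonneg_left hnC hζ0.le,
          mul_le_mul_of_nonneg_left hK1' (mul_nonneg hζ0.le (Nat.cast_nonneg n))])
    (by linarith only [mul_le_mul_of_nonneg_left hjI hζ0.le,
          mul_le_mul_of_nonneg_right c1 (Nat.cast_nonneg (α := ℝ) (I \ R).card)])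
    (by rw [hkk]; linarith only [mul_le_mul_of_nonneg_left hkI hζ0.le,
          mul_le_mul_of_nonneg_right c2 (Nat.cast_nonneg (α := ℝ) n)])
    (by calc 2 * (2 * W) * gmin * (K' * n) = 2 * (2 * W) * gmin * K' * n := by ring
          _ ≤ C * n := Nat.mul_le_mul_right _ c3
          _ ≤ _ := hk) hg2
  obtain ⟨Hs, Gs, h1, h2, h3⟩ := hpart (Bool × ZMod W × Fin g0)
    (by simp only [Fintype.card_prod, Fintype.card_bool, ZMod.card, Fintype.card_fin]; ring)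
  obtain ⟨bl, b1, b2, -⟩ := blocks m W (by omega) (by omega)
  have hf : Hf n m W g0 (K' * n) (2 * S) d bl :=
    ⟨hm, hW, hd, by omega, hg1.trans hg0, c5.trans hn, Nat.le_mul_of_pos_left _ hK0, b1, b2⟩
  have hsubI : ∀ g, Gs g ⊆ I := fun g i hi => by
    rw [← h3]; exact mem_biUnion.2 ⟨g, mem_univ _, mem_union_right _ hi⟩
  have hγn : 10 ^ 4 ≤ P.γ ^ 4 * n :=
    c4.trans (mul_le_mul_of_nonneg_left hnC (by positivity))
  have hone : ∀ g, One (ZMod m) E B S d P (Hs g) (Gs g) D := by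
    intro g
    obtain ⟨a1, a2, a3, a4, a5, a6⟩ := h1 g
    refine ⟨by simpa using hP, hB, hd, by rw [ZMod.card]; exact hm, hγn, ?_, ?_, ?_, ?_, ?_, a4,
      fun i hi => htr i (hR (a1 hi)), fun i hi => htr i (hsubI g hi), fun i hi => hD i (a1 hi),
      fun i hi => (hl i (a1 hi)).1, ?_, ?_⟩
    · have := caseI_log (a := (K' : ℝ) * M) (ε := P.e1 / 10 ^ 20) (x := n) (by positivity)
        (by positivity) (by positivity) (c6.trans hnC)
      rw [a2, hkk, Fintype.card_fin, show (K' : ℝ) * n * M = K' * M * n by ring]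
      linarith
    · rw [a2]; exact Nat.mul_le_mul_right _ hK1
    · rw [a2]; exact hK2.mul_right _
    · have hKr : (10 : ℝ) ^ 200 ≤ K' := by exact_mod_cast hKg.trans hK1
      rw [hkk, hζ] at a5
      have e1 : P.γ * (P.γ ^ 3 / 10 ^ 6 * (K' * n)) = P.γ ^ 4 * n * K' / 10 ^ 6 := by ring
      have e2 := mul_le_mul_of_nonneg_left a5 hγ.le
      have e3 : (10 : ℝ) ^ 4 * 10 ^ 200 ≤ P.γ ^ 4 * n * K' :=
        mul_le_mul hγn hKr (by positivity) (by positivity)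
      rw [e1] at e2
      linarith
    · rw [a2]; rw [hζ] at a6; linarith
    · intro i hi i' hi' c
      have := hpr' i i' (a3 i hi i' hi') (Sum.inl c)
      simpa only [if_pos (a1 hi), if_pos (a1 hi'), Sum.elim_inl] using this
    · intro i hi i' hi' j z
      by_cases hj : j < P.H
      · have := hpr' i i' (a3 i hi i' hi') (Sum.inr (⟨j, hj⟩, z))
        simpa only [if_pos (a1 hi), if_pos (a1 hi'), Sum.elim_inr] using this
      · rw [DD.PV_zero (hD i (a1 hi)).big (not_lt.1 hj)]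
        have := hP.ηrpos
        rw [Nat.cast_zero]
        positivity
  obtain ⟨d1, d2, d3⟩ := caseI_halves Hs Gs (fun g => (h1 g).2.2.2.1) h2
  rw [← h3, ← d3]
  refine fill (fun b => univ.biUnion fun g => Hs (b, g)) (fun b => univ.biUnion fun g => Gs (b, g))
    d1 d2 fun b => ?_
  refine half hf (fun g => Hs (b, g)) (fun g => Gs (b, g)) (fun g => (h1 _).2.2.2.1)
    (fun g g' e => h2 _ _ (by simpa using e)) (fun g => (h1 _).2.1) (fun g => ?_) fun g => ?_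
  · have := (hone (b, g)).J_le
    rw [(h1 _).2.1] at this
    omega
  · have := hf.slc_bounds g.1
    exact group (hone (b, g)) _ (by omega) this.2

theorem caseI (d : ℕ) (hd : d = 1 ∨ d = 2) :
    ∃ C : ℕ, ∀ (ι : Type) [DecidableEq ι] (n m : ℕ) [NeZero m] (E : ι → Gr n) (I R : Finset ι),
      m + 1 = 2 * n → C ≤ n → C * n ≤ I.card → R ⊆ I → C * (I \ R).card ≤ I.card →
      (∀ i ∈ I, Tr (E i)) →
      (∀ i ∈ R, n ≤ 10 ^ 15 * (lvY (E i)).card ∧
        n ≤ 4 * (univ.filter fun x => dX (E i) x = d).card) →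
      Pack (ZMod m) E I := by
  obtain ⟨S, hS⟩ : ∃ S : ℕ, 10 ^ 120 ≤ S := ⟨_, le_rfl⟩
  obtain ⟨W, hW⟩ : ∃ W : ℕ, W = 10 ^ 17 := ⟨_, rfl⟩
  have : NeZero W := ⟨by omega⟩
  exact caseI_aux d hd S W hS hW

end Pool.Agent.MP_4c107d_co.H78

end
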