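import Pool.Agent.MP_4c107d_co.Mg.H78_G
import Pool.Agent.MP_4c107d_co.Mg.H78_N
import Pool.Agent.MP_4c107d_co.Mg.Graph

section

/-!
From graphs to sets of pairs and back.
-/

set_option autoImplicit false
set_option linter.unusedSectionVars false

namespace Pool.Agent.MP_4c107d_co.H78

open Finset

variable {n : ℕ}

open Classical in
/-- the edges as pairs (column vertex, row vertex); for `b = true` the classes are exchanged -/
noncomputable def grOf (T : SimpleGraph (Fin n ⊕ Fin n)) (b : Bool) : Gr n :=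
  univ.filter fun p => if b = true then T.Adj (Sum.inl p.2) (Sum.inr p.1)
    else T.Adj (Sum.inl p.1) (Sum.inr p.2)

theorem mem_grOf_false {T : SimpleGraph (Fin n ⊕ Fin n)} {x y : Fin n} :
    (x, y) ∈ grOf T false ↔ T.Adj (Sum.inl x) (Sum.inr y) := by simp [grOf]
theorem mem_grOf_true {T : SimpleGraph (Fin n ⊕ Fin n)} {x y : Fin n} :
    (x, y) ∈ grOf T true ↔ T.Adj (Sum.inl y) (Sum.inr x) := by simp [grOf]

theorem conv_parent_ex {V : Type} {G : SimpleGraph V} (hG : G.IsTree) (v0 v : V) (hv : v ≠ v0) :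
    ∃ w, G.Adj v w ∧ G.dist v0 w < G.dist v0 v := by
  obtain ⟨p, hp⟩ := hG.connected.exists_walk_length_eq_dist v v0
  cases p with
  | nil => exact absurd rfl hv
  | cons h q =>
    refine ⟨_, h, ?_⟩
    have h1 := SimpleGraph.dist_le q
    rw [SimpleGraph.Walk.length_cons] at hp
    rw [SimpleGraph.dist_comm, SimpleGraph.dist_comm (u := v0)]
    omega

theorem conv_parent_uniq {V : Type} {G : SimpleGraph V} (hG : G.IsTree) (v0 : V) {v w w' : V}
    (h : G.Adj v w) (hd : G.dist v0 w < G.dist v0 v) (h' : G.Adj v w')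
    (hd' : G.dist v0 w' < G.dist v0 v) : w = w' := by
  obtain ⟨p, hp⟩ := hG.connected.exists_walk_length_eq_dist v0 w
  obtain ⟨p', hp'⟩ := hG.connected.exists_walk_length_eq_dist v0 w'
  have e1 := hG.dist_eq_dist_add_one_of_adj v0 h
  have e2 := hG.dist_eq_dist_add_one_of_adj v0 h'
  have q1 : (p.concat h.symm).IsPath :=
    SimpleGraph.Walk.isPath_of_length_eq_dist _ (by rw [SimpleGraph.Walk.length_concat]; omega)
  have q2 : (p'.concat h'.symm).IsPath :=
    SimpleGraph.Walk.isPath_of_length_eq_dist _ (by rw [SimpleGraph.Walk.length_concat]; omega)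
  have e := congrArg (fun q : G.Path v0 v => q.1.penultimate)
    (hG.isAcyclic.path_unique ⟨_, q1⟩ ⟨_, q2⟩)
  simpa using e

theorem conv_tr {V : Type} {G : SimpleGraph V} (hG : G.IsTree) (l r : Fin n → V)
    (hl : Function.Injective l) (hr : Function.Injective r) (hne : ∀ x y, r y ≠ l x)
    (h1 : ∀ x v, G.Adj (l x) v → ∃ y, v = r y) (h2 : ∀ y v, G.Adj (r y) v → ∃ x, v = l x)
    (E : Gr n) (hE : ∀ x y, (x, y) ∈ E ↔ G.Adj (l x) (r y)) : Tr E := by
  intro x0
  have hX : ∀ x, ∃ y, x ≠ x0 → G.Adj (l x) (r y) ∧ G.dist (l x0) (r y) < G.dist (l x0) (l x) := by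
    intro x
    by_cases hx : x = x0
    · exact ⟨x0, fun h => absurd hx h⟩
    · obtain ⟨w, hw, hd⟩ := conv_parent_ex hG (l x0) (l x) fun h => hx (hl h)
      obtain ⟨y, rfl⟩ := h1 x w hw
      exact ⟨y, fun _ => ⟨hw, hd⟩⟩
  have hY : ∀ y, ∃ x, G.Adj (r y) (l x) ∧ G.dist (l x0) (l x) < G.dist (l x0) (r y) := by
    intro y
    obtain ⟨w, hw, hd⟩ := conv_parent_ex hG (l x0) (r y) (hne x0 y)
    obtain ⟨x, rfl⟩ := h2 y w hw
    exact ⟨x, hw, hd⟩
  choose pX hpX using hX
  choose pY hpY using hY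
  refine ⟨⟨x0, pX, pY, fun x => G.dist (l x0) (l x), fun y => G.dist (l x0) (r y)⟩,
    ⟨fun x hx => (hpX x hx).2, fun y => (hpY y).2, fun x y => ?_⟩, rfl⟩
  rw [hE]
  constructor
  · intro h
    rcases hG.dist_eq_dist_add_one_of_adj (l x0) h with e | e
    · have hx : x ≠ x0 := by
        rintro rfl
        rw [SimpleGraph.dist_self] at e
        omega
      exact Or.inl ⟨hx, hr (conv_parent_uniq hG (l x0) (hpX x hx).1 (hpX x hx).2 h (by omega))⟩
    · exact Or.inr (hl (conv_parent_uniq hG (l x0) (hpY y).1 (hpY y).2 h.symm (by omega)))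
  · rintro (⟨hx, rfl⟩ | rfl)
    · exact (hpX x hx).1
    · exact (hpY y).1.symm

/-- Proof idea. Ranks are the distances from the root `v0`. In a tree every `v ≠ v0` has exactly one neighbour `w` with `dist v0 w < dist v0 v` (existence: a shortest path; uniqueness: paths are unique,
`SimpleGraph.IsAcyclic.path_unique`, concatenate shortest paths with the edge), and adjacent vertices have different distances (`IsTree.dist_eq_dist_add_one_of_adj`). Prove this for a general tree first; for `b = true` transport along `Sum.swap`. -/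
theorem tr_grOf {T : SimpleGraph (Fin n ⊕ Fin n)} (h : IsBalancedTree n T) (b : Bool) :
    Tr (grOf T b) := by
  have h1 : ∀ (x : Fin n) v, T.Adj (Sum.inl x) v → ∃ y, v = Sum.inr y := by
    intro x v hv
    have := h.2 hv
    rcases v with y | y
    · simp at this
    · exact ⟨y, rfl⟩
  have h2 : ∀ (y : Fin n) v, T.Adj (Sum.inr y) v → ∃ x, v = Sum.inl x := by
    intro y v hv
    have := h.2 hv
    rcases v with x | x
    · exact ⟨x, rfl⟩
    · simp at this
  cases b
  · exact conv_tr h.1 Sum.inl Sum.inr Sum.inl_injective Sum.inr_injective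
      (fun _ _ => Sum.inr_ne_inl) h1 h2 _ fun _ _ => mem_grOf_false
  · exact conv_tr h.1 Sum.inr Sum.inl Sum.inr_injective Sum.inl_injective
      (fun _ _ => Sum.inl_ne_inr) h2 h1 _ fun _ _ => mem_grOf_true.trans (T.adj_comm _ _)

theorem lvX_grOf (T : SimpleGraph (Fin n ⊕ Fin n)) : lvX (grOf T false) = lvY (grOf T true) := by
  have h : ∀ x, dX (grOf T false) x = dY (grOf T true) x := by
    intro x
    unfold dX dY
    congr 1
    ext y
    rw [mem_nX, mem_nY, mem_grOf_false, mem_grOf_true]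
  simp only [lvX, lvY, h]

/-- Proof idea. `ZMod m ≃ Fin (2 n - 1)`; the map of the tree `i` is `Sum.map σ ψ`, composed with `Sum.swap` if `o i = true`; `edge_form`. From `Ok.cell` two edges with the same image have the same column vertex, hence lie in the same tree. -/
theorem packs_of_pack {k m : ℕ} [NeZero m] (hm : m + 1 = 2 * n)
    (T : Fin k → SimpleGraph (Fin n ⊕ Fin n)) (h : ∀ i, IsBalancedTree n (T i)) (o : Fin k → Bool)
    (hp : Pack (ZMod m) (fun i => grOf (T i) (o i)) univ) :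
    PacksInto T (completeBipartiteGraph (Fin (2 * n - 1)) (Fin k)) := by
  obtain ⟨σ, ψ, hok, -⟩ := hp
  have hc : Fintype.card (ZMod m) = 2 * n - 1 := by rw [ZMod.card]; omega
  let ε : ZMod m ≃ Fin (2 * n - 1) := Fintype.equivFinOfCardEq hc
  have hmem : ∀ p : It (Fin k) n, p ∈ full n (univ : Finset (Fin k)) := fun p =>
    mem_full.2 (mem_univ _)
  have hσ : ∀ i, Function.Injective fun x => ε (σ (i, x)) := by
    intro i x x' e
    exact (Prod.mk.inj (hok.injX _ (hmem (i, x)) _ (hmem (i, x')) rfl (ε.injective e))).2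
  have hψ : ∀ i, Function.Injective fun y => ψ (i, y) := by
    intro i y y' e
    exact (Prod.mk.inj (hok.injY _ (hmem (i, y)) _ (hmem (i, y')) rfl e)).2
  let φ0 : Fin k → (Fin n ⊕ Fin n ↪ Fin (2 * n - 1) ⊕ Fin k) := fun i =>
    Function.Embedding.sumMap ⟨_, hσ i⟩ ⟨_, hψ i⟩
  let φ : Fin k → (Fin n ⊕ Fin n ↪ Fin (2 * n - 1) ⊕ Fin k) := fun i =>
    if o i = true then (Equiv.sumComm (Fin n) (Fin n)).toEmbedding.trans (φ0 i) else φ0 i
  have key : ∀ i e, e ∈ (T i).edgeSet → ∃ x y, (x, y) ∈ grOf (T i) (o i) ∧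
      Sym2.map (φ i) e = s(Sum.inl (ε (σ (i, x))), Sum.inr (ψ (i, y))) := by
    intro i e he
    obtain ⟨x, y, a1, rfl⟩ := edge_form (h i).2 he
    by_cases ho : o i = true
    · refine ⟨y, x, by rw [ho]; exact mem_grOf_true.2 a1, ?_⟩
      simp only [φ, ho, if_true]
      exact Sym2.eq_swap
    · have ho' : o i = false := by simpa using ho
      refine ⟨x, y, by rw [ho']; exact mem_grOf_false.2 a1, ?_⟩
      simp only [φ, ho, if_false]
      rfl
  refine ⟨φ, ?_, ?_⟩
  · intro i u v huv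
    obtain ⟨x, y, -, e⟩ := key i s(u, v) huv
    rw [← SimpleGraph.mem_edgeSet, ← Sym2.map_pair_eq, e]
    simp
  · intro i j hij
    rw [Set.disjoint_left]
    rintro _ ⟨e, he, rfl⟩ ⟨e', he', hee⟩
    obtain ⟨x, y, a1, e1⟩ := key i e he
    obtain ⟨x', y', a2, e2⟩ := key j e' he'
    rw [e1, e2] at hee
    have hee' : σ (j, x') = σ (i, x) ∧ ψ (j, y') = ψ (i, y) := by simpa using hee
    have := hok.cell _ (hmem (i, x)) _ (hmem (i, y)) _ (hmem (j, x')) _ (hmem (j, y'))
      ⟨rfl, a1⟩ ⟨rfl, a2⟩ hee'.1.symm hee'.2.symm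
    exact hij (Prod.mk.inj this).1

end Pool.Agent.MP_4c107d_co.H78

end

section

/-!
The linear bound.
-/

set_option autoImplicit false
set_option linter.unusedSectionVars false

namespace Pool.Agent.MP_4c107d_co.H78

open Finset

/-- merging small classes into a large one -/
theorem main_merge {ι A : Type} [DecidableEq ι] [DecidableEq A] [Nonempty A] {n : ℕ}
    (E : ι → Gr n) (I : Finset ι) (cl : ι → Fin 3) (C0 : ℕ) (hC : 1 ≤ C0) (hn : 1 ≤ n)
    (hI : 6 * C0 ^ 2 * n ≤ I.card)
    (H : ∀ c, ∀ I' ⊆ I, ∀ R ⊆ I', (∀ i ∈ R, cl i = c) → C0 * n ≤ I'.card →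
      C0 * (I' \ R).card ≤ I'.card → Pack A E I') : Pack A E I := by
  have hpos : 0 < I.card := lt_of_lt_of_le (by positivity) hI
  have : Nonempty ι := ⟨(card_pos.1 hpos).choose⟩
  have hsum : ∑ c, (fib I cl c).card = I.card :=
    (card_eq_sum_card_fiberwise (f := cl) (s := I) (t := univ) (fun _ _ => mem_univ _)).symm
  obtain ⟨c0, -, hc0⟩ := exists_max_image univ (fun c => (fib I cl c).card) univ_nonempty
  have h3 : I.card ≤ 3 * (fib I cl c0).card := by
    rw [← hsum]
    calc ∑ c, (fib I cl c).card ≤ ∑ _c : Fin 3, (fib I cl c0).card :=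
          sum_le_sum fun c hc => hc0 c hc
      _ = 3 * (fib I cl c0).card := by simp
  -- the large classes other than `c0`
  set L : Finset (Fin 3) := univ.filter fun c => c ≠ c0 ∧ C0 * n ≤ (fib I cl c).card with hL
  have hLp : ∀ L' ⊆ L, Pack A E (I.filter fun i => cl i ∈ L') := by
    intro L'
    induction L' using Finset.induction_on with
    | empty => intro _; simpa using (Pack.empty (A := A) (E := E))
    | insert c L' hc ih =>
      intro hsub
      have e : (I.filter fun i => cl i ∈ insert c L') = fib I cl c ∪ I.filter fun i => cl i ∈ L' := by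
        ext i; simp only [mem_filter, mem_insert, mem_union, mem_fib]; tauto
      rw [e]
      have hcL : c ∈ L := hsub (mem_insert_self _ _)
      refine Pack.union (H c _ (fib_subset _ _ _) _ (Subset.refl _) (fun i hi => (mem_fib.1 hi).2)
        (mem_filter.1 hcL).2.2 (by simp)) (ih fun x hx => hsub (mem_insert_of_mem hx)) ?_
      rw [disjoint_left]
      intro i h1 h2
      exact hc ((mem_fib.1 h1).2 ▸ (mem_filter.1 h2).2)
  set I0 := I.filter fun i => cl i ∉ L with hI0
  have hsub0 : fib I cl c0 ⊆ I0 := by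
    intro i hi
    rw [mem_fib] at hi
    simp [hI0, hL, hi.1, hi.2]
  have hcard0 : (fib I cl c0).card ≤ I0.card := card_le_card hsub0
  have hjunk : (I0 \ fib I cl c0).card ≤ 2 * (C0 * n) := by
    have hs : I0 \ fib I cl c0 ⊆ ((univ.erase c0).filter fun c => c ∉ L).biUnion (fib I cl) := by
      intro i hi
      simp only [hI0, mem_sdiff, mem_filter, mem_fib, not_and] at hi
      simp only [mem_biUnion, mem_filter, mem_erase, mem_univ, and_true, mem_fib]
      exact ⟨cl i, ⟨hi.2 hi.1.1, hi.1.2⟩, hi.1.1, rfl⟩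
    refine (card_le_card hs).trans (card_biUnion_le.trans ?_)
    calc ∑ c ∈ (univ.erase c0).filter (fun c => c ∉ L), (fib I cl c).card
        ≤ ∑ _c ∈ (univ.erase c0).filter (fun c => c ∉ L), C0 * n := by
          refine sum_le_sum fun c hc => ?_
          simp only [hL, mem_filter, mem_erase, mem_univ, and_true, true_and, not_and] at hc
          exact le_of_lt (not_le.1 (hc.2 hc.1))
      _ ≤ 2 * (C0 * n) := by
          rw [sum_const, smul_eq_mul]
          refine Nat.mul_le_mul_right _ ((card_filter_le _ _).trans ?_)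
          simp
  have h2 : 2 * C0 ^ 2 * n ≤ I0.card := by nlinarith
  have hp0 : Pack A E I0 := by
    refine H c0 I0 (filter_subset _ _) _ hsub0 (fun i hi => (mem_fib.1 hi).2) ?_ ?_
    · calc C0 * n ≤ 2 * C0 ^ 2 * n := Nat.mul_le_mul_right _ (by nlinarith)
        _ ≤ _ := h2
    · calc C0 * (I0 \ fib I cl c0).card ≤ C0 * (2 * (C0 * n)) := Nat.mul_le_mul_left _ hjunk
        _ = 2 * C0 ^ 2 * n := by ring
        _ ≤ _ := h2
  have := Pack.union (hLp L (Subset.refl _)) hp0 (disjoint_filter_filter_not _ _ _)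
  rwa [filter_union_filter_not_eq] at this

theorem packAll : ∃ C : ℕ, ∀ (ι : Type) [DecidableEq ι] (n m : ℕ) [NeZero m] (E : Bool → ι → Gr n)
    (I : Finset ι), m + 1 = 2 * n → C ≤ n → C * n ≤ I.card → (∀ b, ∀ i ∈ I, Tr (E b i)) →
    (∀ i ∈ I, lvX (E false i) = lvY (E true i)) →
    ∃ o : ι → Bool, Pack (ZMod m) (fun i => E (o i) i) I := by
  obtain ⟨C1, h1⟩ := caseI 1 (Or.inl rfl)
  obtain ⟨C2, h2⟩ := caseI 2 (Or.inr rfl)
  obtain ⟨C0, ha, hb, hc⟩ : ∃ C0 : ℕ, C1 ≤ C0 ∧ C2 ≤ C0 ∧ 10 ^ 20 ≤ C0 :=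
    ⟨C1 + C2 + 10 ^ 20, by omega, by omega, by omega⟩
  have hC : 1 ≤ C0 := le_trans (by norm_num) hc
  refine ⟨6 * C0 ^ 2, ?_⟩
  intro ι _ n m _ E I hm hn hk htr hlv
  have hn0 : C0 ≤ n := le_trans (by nlinarith) hn
  have hn1 : 1 ≤ n := hC.trans hn0
  classical
  let o : ι → Bool := fun i => decide (10 ^ 15 * (lvY (E false i)).card < n ∧
    n ≤ 10 ^ 15 * (lvY (E true i)).card)
  let cl : ι → Fin 3 := fun i => if 10 ^ 15 * (lvY (E (o i) i)).card < n then 0
    else if n ≤ 4 * (univ.filter fun x => dX (E (o i) i) x = 1).card then 1 else 2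
  refine ⟨o, main_merge _ I cl C0 hC hn1 hk ?_⟩
  intro c I' hI' R hR hcl hk' hj'
  have htr' : ∀ i ∈ I', Tr (E (o i) i) := fun i hi => htr _ i (hI' hi)
  have hmono : ∀ {C : ℕ}, C ≤ C0 → C ≤ n ∧ C * n ≤ I'.card ∧ C * (I' \ R).card ≤ I'.card :=
    fun h => ⟨h.trans hn0, (Nat.mul_le_mul_right _ h).trans hk', (Nat.mul_le_mul_right _ h).trans hj'⟩
  fin_cases c
  · refine caseII _ I' R hm (hmono hc).1 (hmono hc).2.1 hR (hmono hc).2.2 htr' fun i hi => ?_
    have h0 : 10 ^ 15 * (lvY (E (o i) i)).card < n := by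
      by_contra hne
      have := hcl i hi
      simp only [cl, if_neg hne] at this
      split_ifs at this <;> simp at this
    have ho : o i = false := by
      by_contra hne
      have ht : o i = true := by simpa using hne
      have := of_decide_eq_true ht
      rw [ht] at h0
      omega
    have h3 := of_decide_eq_false ho
    simp only [ho] at h0 ⊢
    rw [hlv i (hI' (hR hi))]
    constructor <;> omega
  · refine h1 ι n m _ I' R hm (hmono ha).1 (hmono ha).2.1 hR (hmono ha).2.2 htr' fun i hi => ?_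
    have := hcl i hi
    simp only [cl] at this
    split_ifs at this with g1 g2
    · simp at this
    · exact ⟨not_lt.1 g1, g2⟩
    · simp at this
  · refine h2 ι n m _ I' R hm (hmono hb).1 (hmono hb).2.1 hR (hmono hb).2.2 htr' fun i hi => ?_
    have := hcl i hi
    simp only [cl] at this
    split_ifs at this with g1 g2
    · simp at this
    · simp at this
    · refine ⟨not_lt.1 g1, ?_⟩
      obtain ⟨d, hd | hd, h4⟩ := (htr' i (hR hi)).quarter hn1
      · exact absurd (hd ▸ h4) g2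
      · exact hd ▸ h4

theorem linear : ∃ C : ℕ, ∀ n k : ℕ, 1 ≤ n → C * n ≤ k → P n k := by
  obtain ⟨C, hC⟩ := packAll
  have hsm : ∀ N : ℕ, ∃ C' : ℕ, ∀ n k : ℕ, 1 ≤ n → n < N → C' ≤ k → P n k := by
    intro N
    induction N with
    | zero => exact ⟨0, fun n k _ h => absurd h (Nat.not_lt_zero _)⟩
    | succ N ih =>
      obtain ⟨C', h⟩ := ih
      rcases Nat.eq_zero_or_pos N with rfl | hN
      · exact ⟨0, fun n k h1 h2 => by omega⟩
      · obtain ⟨k0, -, h0⟩ := eventually_P (n := N) hN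
        refine ⟨C' + k0, fun n k h1 h2 h3 => ?_⟩
        rcases Nat.lt_succ_iff_lt_or_eq.1 h2 with h4 | rfl
        · exact h n k h1 h4 (by omega)
        · exact h0 k (by omega)
  obtain ⟨C', hC'⟩ := hsm C
  refine ⟨C + C', fun n k hn hk => ?_⟩
  rcases Nat.lt_or_ge n C with h | h
  · exact hC' n k hn h (by nlinarith)
  · intro T hT
    obtain ⟨m, hm⟩ : ∃ m, m + 1 = 2 * n := ⟨2 * n - 1, by omega⟩
    have : NeZero m := ⟨by omega⟩
    obtain ⟨o, ho⟩ := hC (Fin k) n m (fun b i => grOf (T i) b) univ hm h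
      (by rw [card_univ, Fintype.card_fin]; nlinarith) (fun b i _ => tr_grOf (hT i) b)
      (fun i _ => lvX_grOf (T i))
    exact packs_of_pack hm T hT o ho

end Pool.Agent.MP_4c107d_co.H78

end
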