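import Pool.Agent.MP_4c107d_co.Mg.Graph

/-!
One path and `k - 1` double stars do not pack into `K_{2n-1,k}` when `k ≤ 2n - 3`.
-/

set_option autoImplicit false

namespace Pool.Agent.MP_4c107d_co

open Finset

/-- the bipartite graph of a relation -/
def relGraph {n : ℕ} (R : Fin n → Fin n → Prop) : SimpleGraph (Fin n ⊕ Fin n) where
  Adj u v := (∃ x y, R x y ∧ u = Sum.inl x ∧ v = Sum.inr y) ∨
    (∃ x y, R x y ∧ v = Sum.inl x ∧ u = Sum.inr y)
  symm.symm := fun _ _ h => h.symm
  loopless.irrefl := by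
    rintro u (⟨x, y, -, rfl, h⟩ | ⟨x, y, -, rfl, h⟩) <;> simp at h

theorem relGraph_adj {n : ℕ} {R : Fin n → Fin n → Prop} {x y : Fin n} :
    (relGraph R).Adj (Sum.inl x) (Sum.inr y) ↔ R x y := by simp [relGraph]

theorem relGraph_le {n : ℕ} (R : Fin n → Fin n → Prop) :
    relGraph R ≤ completeBipartiteGraph (Fin n) (Fin n) := by
  rintro u v (⟨x, y, -, rfl, rfl⟩ | ⟨x, y, -, rfl, rfl⟩) <;> simp

theorem balanced_of {m : ℕ} (R : Fin (m + 1) → Fin (m + 1) → Prop)
    (h1 : ∀ u, (relGraph R).Reachable (Sum.inl 0) u)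
    (h2 : ∑ y, #(nbr (relGraph R) y) = 2 * m + 1) : IsBalancedTree (m + 1) (relGraph R) := by
  refine ⟨SimpleGraph.isTree_iff_connected_and_card.2 ⟨?_, ?_⟩, relGraph_le R⟩
  · rw [SimpleGraph.connected_iff_exists_forall_reachable]
    exact ⟨_, h1⟩
  · rw [card_edgeSet_eq_sum (relGraph_le R), h2]
    simp
    omega

/-- the double star -/
def dstar (m : ℕ) : SimpleGraph (Fin (m + 1) ⊕ Fin (m + 1)) := relGraph fun x y => x = 0 ∨ y = 0

/-- the path -/
def pth (m : ℕ) : SimpleGraph (Fin (m + 1) ⊕ Fin (m + 1)) :=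
  relGraph fun x y => x.val = y.val ∨ x.val = y.val + 1

theorem dstar_balanced (m : ℕ) : IsBalancedTree (m + 1) (dstar m) := by
  apply balanced_of
  · have a : ∀ y, (dstar m).Reachable (Sum.inl 0) (Sum.inr y) := fun y =>
      (relGraph_adj.2 (Or.inl rfl)).reachable
    rintro (x | y)
    · exact (a 0).trans (relGraph_adj.2 (Or.inr rfl)).symm.reachable
    · exact a y
  · rw [Fin.sum_univ_succ]
    have e0 : nbr (relGraph fun x y : Fin (m + 1) => x = 0 ∨ y = 0) 0 = univ := by
      ext x; simp [mem_nbr, relGraph_adj]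
    have e1 : ∀ y : Fin m, nbr (relGraph fun x y : Fin (m + 1) => x = 0 ∨ y = 0) y.succ = {0} := by
      intro y; ext x; simp [mem_nbr, relGraph_adj]
    simp [e0, e1]
    omega

theorem pth_balanced (m : ℕ) : IsBalancedTree (m + 1) (pth m) := by
  apply balanced_of
  · have a : ∀ x, (pth m).Reachable (Sum.inl 0) (Sum.inl x) := by
      intro x
      induction x using Fin.induction with
      | zero => rfl
      | succ i ih =>
        have a1 : (pth m).Adj (Sum.inl i.castSucc) (Sum.inr i.castSucc) :=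
          relGraph_adj.2 (Or.inl rfl)
        have a2 : (pth m).Adj (Sum.inl i.succ) (Sum.inr i.castSucc) :=
          relGraph_adj.2 (Or.inr rfl)
        exact (ih.trans a1.reachable).trans a2.symm.reachable
    rintro (x | y)
    · exact a x
    · exact (a y).trans (relGraph_adj.2 (Or.inl rfl)).reachable
  · rw [Fin.sum_univ_castSucc]
    have e0 : nbr (relGraph fun x y : Fin (m + 1) => x.val = y.val ∨ x.val = y.val + 1)
        (Fin.last m) = {Fin.last m} := by
      ext x
      have := x.2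
      simp [mem_nbr, relGraph_adj, Fin.ext_iff]
      omega
    have e1 : ∀ y : Fin m, nbr (relGraph fun x y : Fin (m + 1) => x.val = y.val ∨ x.val = y.val + 1)
        y.castSucc = {y.castSucc, y.succ} := by
      intro y; ext x; simp [mem_nbr, relGraph_adj, Fin.ext_iff]
    have e2 : ∀ y : Fin m, #({y.castSucc, y.succ} : Finset (Fin (m + 1))) = 2 := fun y =>
      card_pair (Fin.castSucc_lt_succ (i := y)).ne
    simp [e0, e1, e2]
    omega

theorem pth_deg (m : ℕ) (w a b c : Fin (m + 1) ⊕ Fin (m + 1)) (ha : (pth m).Adj w a)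
    (hb : (pth m).Adj w b) (hc : (pth m).Adj w c) : a = b ∨ a = c ∨ b = c := by
  rcases w with w | w <;> rcases a with a | a <;> rcases b with b | b <;> rcases c with c | c <;>
    simp [pth, relGraph, Fin.ext_iff] at ha hb hc ⊢ <;> omega

theorem dstar_adj (m : ℕ) (u v : Fin (m + 1) ⊕ Fin (m + 1)) (h : (dstar m).Adj u v) :
    u = Sum.inl 0 ∨ u = Sum.inr 0 ∨ v = Sum.inl 0 ∨ v = Sum.inr 0 := by
  rcases h with ⟨x, y, h | h, rfl, rfl⟩ | ⟨x, y, h | h, rfl, rfl⟩ <;> simp [h]

/-- a packing of `k` balanced trees covers every edge -/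
theorem covers {n k : ℕ} (T : Fin k → SimpleGraph (Fin n ⊕ Fin n)) (hT : ∀ i, IsBalancedTree n (T i))
    (φ : Fin k → (Fin n ⊕ Fin n ↪ Fin (2 * n - 1) ⊕ Fin k))
    (h1 : ∀ i u v, (T i).Adj u v → (completeBipartiteGraph (Fin (2 * n - 1)) (Fin k)).Adj (φ i u) (φ i v))
    (h2 : ∀ i j, i ≠ j →
      Disjoint (Sym2.map (φ i) '' (T i).edgeSet) (Sym2.map (φ j) '' (T j).edgeSet))
    (a : Fin (2 * n - 1)) (b : Fin k) :
    ∃ i u v, (T i).Adj u v ∧ φ i u = Sum.inl a ∧ φ i v = Sum.inr b := by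
  classical
  let f : (Σ i, (T i).edgeSet) → (completeBipartiteGraph (Fin (2 * n - 1)) (Fin k)).edgeSet :=
    fun x => ⟨Sym2.map (φ x.1) x.2.1, by
      obtain ⟨i, e, he⟩ := x
      induction e using Sym2.ind with
      | _ u v => exact h1 i u v he⟩
  have hinj : Function.Injective f := by
    rintro ⟨i, e, he⟩ ⟨j, e', he'⟩ h
    have h' : Sym2.map (φ i) e = Sym2.map (φ j) e' := congrArg Subtype.val h
    obtain rfl : i = j := by
      by_contra hij
      exact Set.disjoint_left.1 (h2 i j hij) ⟨e, he, rfl⟩ ⟨e', he', h'.symm⟩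
    obtain rfl : e = e' := Sym2.map.injective (φ i).injective h'
    rfl
  have hcard : Nat.card (Σ i, (T i).edgeSet) =
      Nat.card (completeBipartiteGraph (Fin (2 * n - 1)) (Fin k)).edgeSet := by
    rw [Nat.card_sigma, card_edgeSet le_rfl]
    have : ∀ i, Nat.card (T i).edgeSet = 2 * n - 1 := fun i => by
      rw [card_edgeSet_eq_sum (hT i).2, (valid_nbr (hT i)).2.2]
    simp only [this]
    simp [mul_comm]
  have hsurj := (Nat.bijective_iff_injective_and_card f).2 ⟨hinj, hcard⟩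
  obtain ⟨⟨i, e, he⟩, hx⟩ := hsurj.2 ⟨s(Sum.inl a, Sum.inr b), by simp⟩
  have hx' : Sym2.map (φ i) e = s(Sum.inl a, Sum.inr b) := congrArg Subtype.val hx
  induction e using Sym2.ind with
  | _ u v =>
    have hadj : (T i).Adj u v := he
    simp only [Sym2.map_mk, Sym2.eq_iff] at hx'
    rcases hx' with h | h
    · exact ⟨i, u, v, hadj, h.1, h.2⟩
    · exact ⟨i, v, u, hadj.symm, h.2, h.1⟩

theorem not_P {n k : ℕ} (hk : 1 ≤ k) (h : k + 3 ≤ 2 * n) : ¬ P n k := by
  classical
  obtain ⟨m, rfl⟩ : ∃ m, n = m + 1 := ⟨n - 1, by omega⟩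
  obtain ⟨l, rfl⟩ : ∃ l, k = l + 1 := ⟨k - 1, by omega⟩
  intro hP
  let T : Fin (l + 1) → SimpleGraph (Fin (m + 1) ⊕ Fin (m + 1)) :=
    fun i => if i = 0 then pth m else dstar m
  have hT : ∀ i, IsBalancedTree (m + 1) (T i) := by
    intro i; simp only [T]; split_ifs
    · exact pth_balanced m
    · exact dstar_balanced m
  obtain ⟨φ, h1, h2⟩ := hP T hT
  have hcen : ∀ i : Fin l, ∃ a b, ∀ u, u = Sum.inl 0 ∨ u = Sum.inr 0 →
      φ i.succ u = Sum.inl a ∨ φ i.succ u = Sum.inr b := by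
    intro i
    have hadj : (T i.succ).Adj (Sum.inl 0) (Sum.inr 0) := by
      simp only [T, Fin.succ_ne_zero, if_false]; exact relGraph_adj.2 (Or.inl rfl)
    have := h1 _ _ _ hadj
    rcases e1 : φ i.succ (Sum.inl 0) with a | b <;> rcases e2 : φ i.succ (Sum.inr 0) with a' | b' <;>
      simp [e1, e2] at this
    · exact ⟨a, b', by rintro u (rfl | rfl) <;> simp [e1, e2]⟩
    · exact ⟨a', b, by rintro u (rfl | rfl) <;> simp [e1, e2]⟩
  choose ca cb hc using hcen
  obtain ⟨b₀, -, hb₀⟩ : ∃ b₀ ∈ (univ : Finset (Fin (l + 1))), b₀ ∉ univ.image cb := by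
    apply exists_mem_notMem_of_card_lt_card
    have := card_image_le (s := univ) (f := cb)
    simp at this ⊢
    omega
  have h3 : 2 < #(univ.image ca)ᶜ := by
    have := card_image_le (s := univ) (f := ca)
    rw [card_compl]
    simp at this ⊢
    omega
  have key : ∀ a ∈ (univ.image ca)ᶜ, ∃ u v, (pth m).Adj u v ∧ φ 0 u = Sum.inl a ∧
      φ 0 v = Sum.inr b₀ := by
    intro a ha
    obtain ⟨i, u, v, hadj, e1, e2⟩ := covers T hT φ h1 h2 a b₀
    induction i using Fin.cases with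
    | zero => exact ⟨u, v, by simpa [T] using hadj, e1, e2⟩
    | succ i =>
      exfalso
      simp only [T, Fin.succ_ne_zero, if_false] at hadj
      simp only [mem_compl, mem_image, mem_univ, true_and, not_exists] at ha hb₀
      have hu := hc i u
      have hv := hc i v
      rw [e1] at hu
      rw [e2] at hv
      simp only [Sum.inl.injEq, Sum.inr.injEq, reduceCtorEq, or_false, false_or] at hu hv
      rcases dstar_adj m u v hadj with h | h | h | h
      · exact ha i (hu (Or.inl h)).symm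
      · exact ha i (hu (Or.inr h)).symm
      · exact hb₀ i (hv (Or.inl h)).symm
      · exact hb₀ i (hv (Or.inr h)).symm
  obtain ⟨a₁, ha₁, a₂, ha₂, a₃, ha₃, n12, n13, n23⟩ := two_lt_card.1 h3
  obtain ⟨u₁, v₁, p1, q1, r1⟩ := key a₁ ha₁
  obtain ⟨u₂, v₂, p2, q2, r2⟩ := key a₂ ha₂
  obtain ⟨u₃, v₃, p3, q3, r3⟩ := key a₃ ha₃
  obtain rfl : v₂ = v₁ := (φ 0).injective (r2.trans r1.symm)
  obtain rfl : v₃ = v₂ := (φ 0).injective (r3.trans r2.symm)
  rcases pth_deg m _ _ _ _ p1.symm p2.symm p3.symm with rfl | rfl | rfl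
  · exact n12 (Sum.inl_injective (q1.symm.trans q2))
  · exact n13 (Sum.inl_injective (q1.symm.trans q3))
  · exact n23 (Sum.inl_injective (q2.symm.trans q3))

end Pool.Agent.MP_4c107d_co
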